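import Pool.Agent.Lib.SCDH.Defs

/-!
# Row G01 (paper scd_h36.md)
Bookkeeping of edge counts. All are filter/card identities on `eB`.
Recipe: unfold eB; for sums use `Finset.card_eq_sum_card_fiberwise` or `Finset.sum_comm`; for complements `Finset.filter_card_add_filter_neg_card_eq_card`.
-/

set_option linter.unusedSectionVars false
set_option linter.unusedVariables false

namespace Pool.SCDH

open Finset Pool.MP_0ccee8_co.Lib2

variable {X Y : Type} [Fintype X] [DecidableEq X] [Fintype Y] [DecidableEq Y]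

private lemma g01_eq (Γ : Finset (X × Y)) (A : Finset X) (N : Finset Y) :
    eB Γ A N = ∑ x ∈ A, ∑ y ∈ N, if (x, y) ∈ Γ then 1 else 0 := by
  unfold eB
  rw [← sum_product', ← card_filter]
  congr 1
  ext ⟨x, y⟩
  simp only [mem_filter, mem_product]
  tauto

theorem eB_sumX (Γ : Finset (X × Y)) (A : Finset X) (N : Finset Y) : eB Γ A N = ∑ x ∈ A, eB Γ {x} N := by
  rw [g01_eq]
  refine sum_congr rfl (fun x _ => ?_)
  rw [g01_eq, sum_singleton]

theorem eB_sumY (Γ : Finset (X × Y)) (A : Finset X) (N : Finset Y) : eB Γ A N = ∑ y ∈ N, eB Γ A {y} := by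
  rw [g01_eq, sum_comm]
  refine sum_congr rfl (fun x _ => ?_)
  rw [g01_eq, sum_comm, sum_singleton]

theorem eB_complX (Γ : Finset (X × Y)) (A : Finset X) (N : Finset Y) :
    eB Γ A N + eB Γ Aᶜ N = eB Γ univ N := by
  rw [g01_eq, g01_eq, g01_eq, sum_add_sum_compl]

theorem eB_complY (Γ : Finset (X × Y)) (A : Finset X) (N : Finset Y) :
    eB Γ A N + eB Γ A Nᶜ = eB Γ A univ := by
  rw [g01_eq, g01_eq, g01_eq, ← sum_add_distrib]
  refine sum_congr rfl (fun x _ => ?_)
  rw [sum_add_sum_compl]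

theorem eB_mono (Γ Γ' : Finset (X × Y)) (hΓ : Γ ⊆ Γ') (A A' : Finset X) (hA : A ⊆ A') (N N' : Finset Y)
    (hN : N ⊆ N') : eB Γ A N ≤ eB Γ' A' N' := by
  unfold eB
  refine card_le_card (fun e he => ?_)
  rw [mem_filter] at he ⊢
  exact ⟨hΓ he.1, hA he.2.1, hN he.2.2⟩

theorem eB_symmX (Γ : Finset (X × Y)) (A A' : Finset X) (N : Finset Y) :
    eB Γ A N ≤ eB Γ A' N + ∑ x ∈ symmDiff A A', eB Γ {x} N := by
  rw [eB_sumX Γ A N, eB_sumX Γ A' N]
  calc ∑ x ∈ A, eB Γ {x} N ≤ ∑ x ∈ A' ∪ symmDiff A A', eB Γ {x} N := by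
        refine sum_le_sum_of_subset (fun x hx => ?_)
        by_cases h : x ∈ A'
        · exact mem_union_left _ h
        · exact mem_union_right _ (mem_symmDiff.2 (Or.inl ⟨hx, h⟩))
    _ ≤ _ := by
        have := sum_union_inter (s₁ := A') (s₂ := symmDiff A A') (f := fun x => eB Γ {x} N)
        omega

theorem eB_symmY (Γ : Finset (X × Y)) (A : Finset X) (N N' : Finset Y) :
    eB Γ A N ≤ eB Γ A N' + ∑ y ∈ symmDiff N N', eB Γ A {y} := by
  rw [eB_sumY Γ A N, eB_sumY Γ A N']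
  calc ∑ y ∈ N, eB Γ A {y} ≤ ∑ y ∈ N' ∪ symmDiff N N', eB Γ A {y} := by
        refine sum_le_sum_of_subset (fun x hx => ?_)
        by_cases h : x ∈ N'
        · exact mem_union_left _ h
        · exact mem_union_right _ (mem_symmDiff.2 (Or.inl ⟨hx, h⟩))
    _ ≤ _ := by
        have := sum_union_inter (s₁ := N') (s₂ := symmDiff N N') (f := fun y => eB Γ A {y})
        omega

theorem card_eq_sum_dgX (Γ : Finset (X × Y)) : Γ.card = ∑ x, dgX Γ x := by
  unfold dgX
  rw [← eB_sumX]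
  unfold eB
  congr 1
  simp

theorem card_eq_sum_dgY (Γ : Finset (X × Y)) : Γ.card = ∑ y, dgY Γ y := by
  unfold dgY
  rw [← eB_sumY]
  unfold eB
  congr 1
  simp

end Pool.SCDH
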