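import Pool.Agent.Lib.SCDH.Defs
import Pool.Agent.Lib.SCDH.G01

/-!
# Row G02 (paper scd_h36.md)
The minimal boundary. `mX Γ A = min_N bd Γ A N`, attained at the majority. Symmetric under complements. Lipschitz.
Recipe: bd Γ A N = sum over y of (eB Γ Aᶜ {y} if y in N, eB Γ A {y} if not) by G01; compare termwise with the min.
-/

set_option linter.unusedSectionVars false
set_option linter.unusedVariables false

namespace Pool.SCDH

open Finset Pool.MP_0ccee8_co.Lib2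

variable {X Y : Type} [Fintype X] [DecidableEq X] [Fintype Y] [DecidableEq Y]

private lemma g02_bdX (Γ : Finset (X × Y)) (A : Finset X) (N : Finset Y) :
    bd Γ A N = ∑ y, if y ∈ N then eB Γ Aᶜ {y} else eB Γ A {y} := by
  unfold bd
  rw [eB_sumY Γ A Nᶜ, eB_sumY Γ Aᶜ N, ← sum_add_sum_compl N, add_comm]
  congr 1
  · exact sum_congr rfl (fun y hy => by rw [if_pos hy])
  · exact sum_congr rfl (fun y hy => by rw [if_neg (mem_compl.1 hy)])

private lemma g02_bdY (Γ : Finset (X × Y)) (A : Finset X) (N : Finset Y) :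
    bd Γ A N = ∑ x, if x ∈ A then eB Γ {x} Nᶜ else eB Γ {x} N := by
  unfold bd
  rw [eB_sumX Γ A Nᶜ, eB_sumX Γ Aᶜ N, ← sum_add_sum_compl A]
  congr 1
  · exact sum_congr rfl (fun y hy => by rw [if_pos hy])
  · exact sum_congr rfl (fun y hy => by rw [if_neg (mem_compl.1 hy)])

theorem mX_le_bd (Γ : Finset (X × Y)) (A : Finset X) (N : Finset Y) : mX Γ A ≤ bd Γ A N := by
  rw [g02_bdX]
  unfold mX
  refine sum_le_sum (fun y _ => ?_)
  split_ifs
  · exact min_le_right _ _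
  · exact min_le_left _ _

theorem mY_le_bd (Γ : Finset (X × Y)) (A : Finset X) (N : Finset Y) : mY Γ N ≤ bd Γ A N := by
  rw [g02_bdY]
  unfold mY
  refine sum_le_sum (fun x _ => ?_)
  split_ifs
  · exact min_le_right _ _
  · exact min_le_left _ _

theorem bd_maj (Γ : Finset (X × Y)) (A : Finset X) : bd Γ A (maj Γ A) = mX Γ A := by
  rw [g02_bdX]
  unfold mX
  refine sum_congr rfl (fun y _ => ?_)
  by_cases h : eB Γ Aᶜ {y} < eB Γ A {y}
  · rw [if_pos (by simp [maj, h]), min_eq_right h.le]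
  · rw [if_neg (by simp [maj, h]), min_eq_left (not_lt.1 h)]

theorem mX_compl (Γ : Finset (X × Y)) (A : Finset X) : mX Γ Aᶜ = mX Γ A := by
  unfold mX
  refine sum_congr rfl (fun y _ => ?_)
  rw [compl_compl, min_comm]

theorem mY_compl (Γ : Finset (X × Y)) (N : Finset Y) : mY Γ Nᶜ = mY Γ N := by
  unfold mY
  refine sum_congr rfl (fun y _ => ?_)
  rw [compl_compl, min_comm]

theorem bd_compl (Γ : Finset (X × Y)) (A : Finset X) (N : Finset Y) : bd Γ Aᶜ Nᶜ = bd Γ A N := by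
  unfold bd
  rw [compl_compl, compl_compl, add_comm]

theorem bd_mono (Γ Γ' : Finset (X × Y)) (h : Γ ⊆ Γ') (A : Finset X) (N : Finset Y) :
    bd Γ A N ≤ bd Γ' A N :=
  Nat.add_le_add (eB_mono _ _ h _ _ (subset_refl _) _ _ (subset_refl _))
    (eB_mono _ _ h _ _ (subset_refl _) _ _ (subset_refl _))

theorem mX_mono (Γ Γ' : Finset (X × Y)) (h : Γ ⊆ Γ') (A : Finset X) : mX Γ A ≤ mX Γ' A :=
  sum_le_sum (fun y _ => min_le_min (eB_mono _ _ h _ _ (subset_refl _) _ _ (subset_refl _))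
    (eB_mono _ _ h _ _ (subset_refl _) _ _ (subset_refl _)))

theorem mX_le_eB (Γ : Finset (X × Y)) (A : Finset X) : mX Γ A ≤ eB Γ A univ := by
  rw [eB_sumY]
  exact sum_le_sum (fun y _ => min_le_left _ _)

private lemma g02_min {a b c d e : ℕ} (h1 : a ≤ c + e) (h2 : b ≤ d + e) :
    min a b ≤ min c d + e := by omega

private lemma g02_symmDiff {α : Type} [Fintype α] [DecidableEq α] (A A' : Finset α) :
    symmDiff Aᶜ A'ᶜ = symmDiff A A' := compl_symmDiff_compl A A'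

private lemma g02_dgX (Γ : Finset (X × Y)) (S : Finset X) :
    ∑ y, ∑ x ∈ S, eB Γ {x} {y} = ∑ x ∈ S, dgX Γ x := by
  rw [sum_comm]
  refine sum_congr rfl (fun x _ => ?_)
  rw [dgX, eB_sumY]

private lemma g02_dgY (Γ : Finset (X × Y)) (S : Finset Y) :
    ∑ x, ∑ y ∈ S, eB Γ {x} {y} = ∑ y ∈ S, dgY Γ y := by
  rw [sum_comm]
  refine sum_congr rfl (fun x _ => ?_)
  rw [dgY, eB_sumX]

theorem mX_symm (Γ : Finset (X × Y)) (A A' : Finset X) :
    mX Γ A ≤ mX Γ A' + ∑ x ∈ symmDiff A A', dgX Γ x := by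
  rw [← g02_dgX]
  unfold mX
  rw [← sum_add_distrib]
  refine sum_le_sum (fun y _ => ?_)
  refine g02_min (eB_symmX Γ A A' {y}) ?_
  have := eB_symmX Γ Aᶜ A'ᶜ {y}
  rwa [g02_symmDiff] at this

theorem bd_symm (Γ : Finset (X × Y)) (A A' : Finset X) (N N' : Finset Y) :
    bd Γ A N ≤ bd Γ A' N' + (∑ x ∈ symmDiff A A', dgX Γ x + ∑ y ∈ symmDiff N N', dgY Γ y) := by
  have h1 : bd Γ A N ≤ bd Γ A' N + ∑ x ∈ symmDiff A A', dgX Γ x := by
    rw [g02_bdX, g02_bdX, ← g02_dgX, ← sum_add_distrib]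
    refine sum_le_sum (fun y _ => ?_)
    split_ifs
    · have := eB_symmX Γ Aᶜ A'ᶜ {y}
      rwa [g02_symmDiff] at this
    · exact eB_symmX Γ A A' {y}
  have h2 : bd Γ A' N ≤ bd Γ A' N' + ∑ y ∈ symmDiff N N', dgY Γ y := by
    rw [g02_bdY, g02_bdY, ← g02_dgY, ← sum_add_distrib]
    refine sum_le_sum (fun x _ => ?_)
    split_ifs
    · have := eB_symmY Γ {x} Nᶜ N'ᶜ
      rwa [g02_symmDiff] at this
    · exact eB_symmY Γ {x} N N'
  omega

theorem bd_mjX (Γ : Finset (X × Y)) (N : Finset Y) : bd Γ (mjX Γ N) N = mY Γ N := by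
  rw [g02_bdY]
  unfold mY
  refine sum_congr rfl (fun x _ => ?_)
  by_cases h : eB Γ {x} Nᶜ < eB Γ {x} N
  · rw [if_pos (by simp [mjX, h]), min_eq_right h.le]
  · rw [if_neg (by simp [mjX, h]), min_eq_left (not_lt.1 h)]

theorem mY_mono (Γ Γ' : Finset (X × Y)) (h : Γ ⊆ Γ') (N : Finset Y) : mY Γ N ≤ mY Γ' N :=
  sum_le_sum (fun y _ => min_le_min (eB_mono _ _ h _ _ (subset_refl _) _ _ (subset_refl _))
    (eB_mono _ _ h _ _ (subset_refl _) _ _ (subset_refl _)))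

theorem mY_le_eB (Γ : Finset (X × Y)) (N : Finset Y) : mY Γ N ≤ eB Γ univ N := by
  rw [eB_sumX]
  exact sum_le_sum (fun y _ => min_le_left _ _)

theorem mY_symm (Γ : Finset (X × Y)) (N N' : Finset Y) :
    mY Γ N ≤ mY Γ N' + ∑ y ∈ symmDiff N N', dgY Γ y := by
  rw [← g02_dgY]
  unfold mY
  rw [← sum_add_distrib]
  refine sum_le_sum (fun x _ => ?_)
  refine g02_min (eB_symmY Γ {x} N N') ?_
  have := eB_symmY Γ {x} Nᶜ N'ᶜ
  rwa [g02_symmDiff] at this

end Pool.SCDH
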