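import Pool.Agent.Lib.SCDH.Defs
import Pool.Agent.Lib.SCDH.G01

/-!
# Row G03 (paper scd_h36.md)
Host: |X| d = |Y| κ, so averages of degrees are related; sizes of the majority.
Recipe: H.degX, H.degY and card_eq_sum (G01). For maj_card: every y in maj Γ A has at least one Γ-neighbour in A.
-/

set_option linter.unusedSectionVars false
set_option linter.unusedVariables false

namespace Pool.SCDH

open Finset Pool.MP_0ccee8_co.Lib2

variable {X Y : Type} [Fintype X] [DecidableEq X] [Fintype Y] [DecidableEq Y]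

theorem host_card {n d κ : ℕ} (H : Host X Y n d κ) : Fintype.card X * d = Fintype.card Y * κ := by
  have h1 := card_eq_sum_dgX H.G
  have h2 := card_eq_sum_dgY H.G
  rw [Finset.sum_congr rfl (fun x _ => H.degX x), Finset.sum_const, Finset.card_univ, smul_eq_mul] at h1
  rw [Finset.sum_congr rfl (fun y _ => H.degY y), Finset.sum_const, Finset.card_univ, smul_eq_mul] at h2
  rw [← h1, ← h2]

theorem host_avY {n d κ : ℕ} (H : Host X Y n d κ) (Γ : Finset (X × Y)) :
    (d : ℝ) * avY (fun y => (dgY Γ y : ℝ)) = κ * avX (fun x => (dgX Γ x : ℝ)) := by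
  have hc := host_card H
  have hκ : 0 < κ := H.hκ
  have hd : 0 < d := lt_of_lt_of_le hκ H.hκd
  have hX : (∑ x, (dgX Γ x : ℝ)) = (Γ.card : ℝ) := by
    rw [card_eq_sum_dgX Γ, Nat.cast_sum]
  have hY : (∑ y, (dgY Γ y : ℝ)) = (Γ.card : ℝ) := by
    rw [card_eq_sum_dgY Γ, Nat.cast_sum]
  unfold avX avY
  rw [hX, hY]
  by_cases h0 : Fintype.card X = 0
  · have h1 : Fintype.card Y = 0 := by
      rw [h0, zero_mul] at hc
      rcases Nat.mul_eq_zero.1 hc.symm with h | h
      · exact h
      · omega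
    rw [h0, h1]; simp
  · have h1 : Fintype.card Y ≠ 0 := by
      intro h1
      rw [h1, zero_mul] at hc
      rcases Nat.mul_eq_zero.1 hc with h | h
      · exact h0 h
      · omega
    have h0' : (Fintype.card X : ℝ) ≠ 0 := by exact_mod_cast h0
    have h1' : (Fintype.card Y : ℝ) ≠ 0 := by exact_mod_cast h1
    have hc' : (Fintype.card X : ℝ) * d = (Fintype.card Y : ℝ) * κ := by exact_mod_cast hc
    field_simp
    linear_combination (Γ.card : ℝ) * hc'

theorem maj_card (Γ : Finset (X × Y)) (A : Finset X) : (maj Γ A).card ≤ ∑ x ∈ A, dgX Γ x := by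
  have h1 : (maj Γ A).card ≤ ∑ y ∈ maj Γ A, eB Γ A {y} := by
    rw [Finset.card_eq_sum_ones]
    refine Finset.sum_le_sum (fun y hy => ?_)
    have := (Finset.mem_filter.1 hy).2
    omega
  rw [← eB_sumY] at h1
  refine le_trans h1 (le_trans (eB_mono Γ Γ (Finset.Subset.refl _) A A (Finset.Subset.refl _) _ univ
    (Finset.subset_univ _)) ?_)
  rw [eB_sumX]
  exact le_rfl

theorem dgX_le {n d κ : ℕ} (H : Host X Y n d κ) (Γ : Finset (X × Y)) (h : Γ ⊆ H.G) (x : X) :
    dgX Γ x ≤ d := by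
  rw [← H.degX x]
  exact eB_mono _ _ h _ _ (Finset.Subset.refl _) _ _ (Finset.Subset.refl _)

theorem dgY_le {n d κ : ℕ} (H : Host X Y n d κ) (Γ : Finset (X × Y)) (h : Γ ⊆ H.G) (y : Y) :
    dgY Γ y ≤ κ := by
  rw [← H.degY y]
  exact eB_mono _ _ h _ _ (Finset.Subset.refl _) _ _ (Finset.Subset.refl _)

end Pool.SCDH
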