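import Pool.Agent.Lib.SCDH.Defs

/-!
# Row G04 (paper scd_h36.md)
Numerics from `Big` and `Rng`, real numbers. All from 10^100 ≤ ε t ≤ t/2.
Recipe: for bigexp use b2 with m ≤ 1000000 (t ≥ 1). num_n: n ≥ t^200 and n < 2 t^200 in ℝ.
-/

set_option linter.unusedSectionVars false
set_option linter.unusedVariables false

namespace Pool.SCDH

open Finset Pool.MP_0ccee8_co.Lib2

variable {X Y : Type} [Fintype X] [DecidableEq X] [Fintype Y] [DecidableEq Y]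

theorem big_t {ε : ℝ} {t : ℕ} (hB : Big ε t) : (10 : ℝ) ^ 100 ≤ t := by
  have h1 := hB.b1
  have h2 : ε * (t : ℝ) ≤ 1 * (t : ℝ) :=
    mul_le_mul_of_nonneg_right (by have := hB.e1; linarith) (Nat.cast_nonneg t)
  linarith

theorem big_pow {ε : ℝ} {t : ℕ} (hB : Big ε t) (m : ℕ) (hm : m ≤ 1000000) : (t : ℝ) ^ m ≤ Real.exp t := by
  have h1 : (1 : ℝ) ≤ (t : ℝ) := le_trans (one_le_pow₀ (by norm_num)) (big_t hB)
  exact le_trans (pow_le_pow_right₀ h1 hm) hB.b2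

theorem rng_real {t n : ℕ} (h : Rng t n) : (t : ℝ) ^ 200 ≤ n ∧ (n : ℝ) ≤ 2 * (t : ℝ) ^ 200 := by
  obtain ⟨h1, h2⟩ := h
  refine ⟨by exact_mod_cast h1, ?_⟩
  exact_mod_cast h2.le

theorem n_pow_le {ε : ℝ} {t n : ℕ} (hB : Big ε t) (h : Rng t n) (m : ℕ) (hm : m ≤ 4000) :
    (n : ℝ) ^ m ≤ Real.exp t := by
  have h10 : (10 : ℝ) ≤ (10 : ℝ) ^ 100 := le_self_pow₀ (by norm_num) (by norm_num)
  have ht : (10 : ℝ) ≤ (t : ℝ) := le_trans h10 (big_t hB)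
  have h2 := (rng_real h).2
  have h3 : (n : ℝ) ≤ (t : ℝ) ^ 201 := by
    refine le_trans h2 ?_
    rw [pow_succ' (t : ℝ) 200]
    exact mul_le_mul_of_nonneg_right (by linarith) (by positivity)
  have h4 : (n : ℝ) ^ m ≤ ((t : ℝ) ^ 201) ^ m := pow_le_pow_left₀ (Nat.cast_nonneg n) h3 m
  rw [← pow_mul] at h4
  exact le_trans h4 (big_pow hB (201 * m) (by omega))

theorem big_exists (ε : ℝ) (h0 : 0 < ε) (h1 : ε ≤ 1 / 2) : ∃ t0 : ℕ, ∀ t : ℕ, t0 ≤ t → Big ε t := by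
  have hA : ∀ᶠ t : ℕ in Filter.atTop, (10 : ℝ) ^ 100 ≤ ε * (t : ℝ) := by
    have hT : Filter.Tendsto (fun t : ℕ => ε * (t : ℝ)) Filter.atTop Filter.atTop :=
      tendsto_natCast_atTop_atTop.const_mul_atTop h0
    exact hT.eventually_ge_atTop _
  have hC : ∀ᶠ t : ℕ in Filter.atTop, (t : ℝ) ^ 1000000 ≤ Real.exp (t : ℝ) := by
    have hl : (fun x : ℝ => x ^ 1000000) =o[Filter.atTop] Real.exp := Real.isLittleO_pow_exp_atTop
    have hb := hl.bound (c := 1) one_pos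
    have hb2 := tendsto_natCast_atTop_atTop (R := ℝ) |>.eventually hb
    filter_upwards [hb2] with t ht
    rw [one_mul, Real.norm_eq_abs, Real.norm_eq_abs, abs_of_nonneg (Real.exp_pos _).le] at ht
    exact le_trans (le_abs_self _) ht
  obtain ⟨t0, ht0⟩ := Filter.eventually_atTop.1 (hA.and hC)
  exact ⟨t0, fun t ht => ⟨h0, h1, (ht0 t ht).1, (ht0 t ht).2⟩⟩

private theorem pow200_succ (t : ℕ) (ht : 1000 ≤ t) : (t + 1) ^ 200 ≤ 2 * t ^ 200 := by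
  have htr : (1000 : ℝ) ≤ (t : ℝ) := by exact_mod_cast ht
  have h0 : (0 : ℝ) < (t : ℝ) := by linarith
  have h1 : ((t : ℝ) + 1) ≤ (t : ℝ) * Real.exp (1 / 1000) := by
    have h2 : (1 / 1000 : ℝ) + 1 ≤ Real.exp (1 / 1000) := Real.add_one_le_exp _
    have h3 : (t : ℝ) * ((1 / 1000 : ℝ) + 1) ≤ (t : ℝ) * Real.exp (1 / 1000) :=
      mul_le_mul_of_nonneg_left h2 h0.le
    linarith
  have h4 : ((t : ℝ) + 1) ^ 200 ≤ ((t : ℝ) * Real.exp (1 / 1000)) ^ 200 :=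
    pow_le_pow_left₀ (by linarith) h1 200
  have h5 : (Real.exp (1 / 1000)) ^ 200 ≤ 2 := by
    rw [← Real.exp_nat_mul]
    have h6 : ((200 : ℕ) : ℝ) * (1 / 1000) ≤ Real.log 2 := by
      have := Real.log_two_gt_d9
      have h7 : ((200 : ℕ) : ℝ) * (1 / 1000) = 0.2 := by norm_num
      rw [h7]; linarith
    calc Real.exp (((200 : ℕ) : ℝ) * (1 / 1000)) ≤ Real.exp (Real.log 2) := Real.exp_le_exp.2 h6
      _ = 2 := Real.exp_log (by norm_num)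
  have h8 : ((t : ℝ) + 1) ^ 200 ≤ 2 * (t : ℝ) ^ 200 := by
    rw [mul_pow] at h4
    have h9 : (t : ℝ) ^ 200 * Real.exp (1 / 1000) ^ 200 ≤ (t : ℝ) ^ 200 * 2 :=
      mul_le_mul_of_nonneg_left h5 (by positivity)
    linarith
  exact_mod_cast h8

theorem rng_exists (t0 : ℕ) : ∃ n0 : ℕ, ∀ n : ℕ, n0 ≤ n → ∃ t : ℕ, t0 ≤ t ∧ Rng t n := by
  refine ⟨(t0 + 1000) ^ 200, fun n hn => ?_⟩
  have hle : t0 + 1000 ≤ n := le_trans (Nat.le_self_pow (by norm_num) _) hn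
  have h1 : t0 + 1000 ≤ Nat.findGreatest (fun s => s ^ 200 ≤ n) n :=
    Nat.le_findGreatest (P := fun s => s ^ 200 ≤ n) hle hn
  have h2 : (Nat.findGreatest (fun s => s ^ 200 ≤ n) n) ^ 200 ≤ n :=
    Nat.findGreatest_spec (P := fun s => s ^ 200 ≤ n) hle hn
  generalize hT : Nat.findGreatest (fun s => s ^ 200 ≤ n) n = T at h1 h2
  have h3 : n < (T + 1) ^ 200 := by
    by_cases hc : T + 1 ≤ n
    · have := Nat.findGreatest_is_greatest (P := fun s => s ^ 200 ≤ n) (n := n) (k := T + 1)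
        (by rw [hT]; exact Nat.lt_succ_self T) hc
      exact not_le.1 this
    · exact lt_of_lt_of_le (not_le.1 hc) (Nat.le_self_pow (by norm_num) _)
  exact ⟨T, by omega, h2, lt_of_lt_of_le h3 (pow200_succ T (by omega))⟩

end Pool.SCDH
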