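import Pool.Agent.Lib.SCDH.BDefs

/-!
# The bad events of one side of one batch
-/

set_option linter.unusedSectionVars false

namespace Pool.SCDH

open Finset Pool.MP_0ccee8_co.Lib2

variable {X Y : Type} [Fintype X] [DecidableEq X] [Fintype Y] [DecidableEq Y]

namespace Ctx

variable (D : Ctx X Y) (φ : D.Lbl)

/-- deviation allowed for the usage -/
noncomputable def dvU : ℝ := Real.sqrt ((D.κ : ℝ) * D.B0 / D.d) * D.t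

/-! local events at `y` -/
def bY1 (y : Y) : Prop := D.dvU < |((univ.filter (fun c => y ∈ D.Sin φ c)).card : ℝ)
  - D.rho' * ((univ.filter (fun c => y ∉ D.O.OY c)).card : ℝ)|
def bY2 (y : Y) : Prop := D.t < (univ.filter (fun c => y ∈ D.Zs φ c)).card
def bY3 (c : Fin D.B) (y : Y) : Prop := ∃ i : Fin (D.s + 1), (D.t : ℝ) ^ 12 <
  |((univ.filter (fun x => (x, y) ∈ D.Hb ∧ x ∉ D.O.OX c ∧ D.own φ (x, y) = i)).card : ℝ)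
    - D.theta * (eB D.Hb (D.O.OX c)ᶜ {y} : ℝ)|
def bY4 (y : Y) : Prop := ∃ i : Fin (D.s + 1),
  D.t < (univ.filter (fun x => (x, y) ∈ D.F ∧ D.own φ (x, y) = i)).card
def bY5 (c : Fin D.B) (y : Y) : Prop := D.t < D.vZ φ c y

/-! local events at `x` -/
def bX1 (c : Fin D.B) (x : X) : Prop := Real.sqrt D.κ * D.t <
  |(eB D.Hb {x} (D.Sc φ c) : ℝ) - D.rho1 * (eB D.Hb {x} (D.O.OY c)ᶜ : ℝ)|
def bX2 (c : Fin D.B) (x : X) : Prop := Real.sqrt (eta D.t * D.κ) * D.t <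
  |(eB D.F {x} (D.Sc φ c) : ℝ) - D.rho1 * (eB D.F {x} (D.O.OY c)ᶜ : ℝ)|
def bX3 (c : Fin D.B) (b : Fin 2) (x : X) : Prop := 16 * (eB D.F {x} (D.Sh φ c b) : ℝ) < eta D.t * D.κ
def bX4 (c : Fin D.B) (x : X) : Prop := x ∉ D.O.OX c ∧ eB D.Hb {x} (D.Sc φ c) ≤ 4 * D.κ ∧
  (D.t : ℝ) ^ 12 < |(dgX (D.Pc φ c) x : ℝ) -
    D.theta * ((univ.filter (fun y => y ∈ D.Sc φ c ∧ (x, y) ∈ D.Hb ∧ D.slot φ c y < D.s + 1)).card : ℝ)|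
def bX5 (c : Fin D.B) (x : X) : Prop := (eB D.F {x} (D.Sin φ c) : ℝ) ≤ 4 * (eta D.t * D.κ) ∧
  D.t < dgX (D.Rg φ c) x
def bX6 (c : Fin D.B) (x : X) : Prop := D.t < eB D.H.G {x} (D.Zs φ c)

/-- something is wrong at `v` -/
def bad : X ⊕ Y → Prop
  | .inl x => ∃ c, D.bX1 φ c x ∨ D.bX2 φ c x ∨ (∃ b, D.bX3 φ c b x) ∨ D.bX4 φ c x ∨ D.bX5 φ c x ∨ D.bX6 φ c x
  | .inr y => D.bY1 φ y ∨ D.bY2 φ y ∨ D.bY4 φ y ∨ ∃ c, D.bY3 φ c y ∨ D.bY5 φ c y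

/-! macroscopic events -/
variable (T : Finset (X ⊕ Y))

/-- `Sc` sees the cuts certified by its half `Sh c 0` -/
def mac1 (c : Fin D.B) : Prop :=
  (Nτ D.n : ℝ) * T.card ≤ (D.n : ℝ) ^ 3 * mX D.F (cX (rs D.F (D.Sh φ c 0)) D.n T) ∧
  (mX (D.FS φ c) (cX (rs D.F (D.Sh φ c 0)) D.n T) : ℝ)
    < (D.κ : ℝ) / (8 * D.d) * mX D.F (cX (rs D.F (D.Sh φ c 0)) D.n T)
/-- `Γ`-edges from certified sets into `Sc` -/
def mac2 (Γ : Finset (X × Y)) (c : Fin D.B) : Prop :=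
  lam D.n * szT D.F D.n T < |∑ x ∈ cX D.F D.n T,
    ((eB Γ {x} (D.Sc φ c) : ℝ) - D.rho1 * (eB Γ {x} (D.O.OY c)ᶜ : ℝ))|
/-- old arrays on certified sets -/
def mac3 (g : Y → ℝ) (c : Fin D.B) : Prop :=
  lam D.n * szT D.F D.n T < |∑ y ∈ maj D.F (cX D.F D.n T) ∩ D.Sc φ c, g y
    - D.rho1 * ∑ y ∈ maj D.F (cX D.F D.n T) \ D.O.OY c, g y|
/-- owner fluctuations -/
def mac4X (c : Fin D.B) : Prop :=
  lam D.n * szT (D.FS φ c) D.n T < |∑ x ∈ cX (D.FS φ c) D.n T \ D.O.OX c,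
    ((dgX (D.Pc φ c) x : ℝ) -
      D.theta * ((univ.filter (fun y => y ∈ D.Sc φ c ∧ (x, y) ∈ D.Hb ∧ D.slot φ c y < D.s + 1)).card : ℝ))|
def mac4Y (c : Fin D.B) : Prop :=
  lam D.n * szT (D.FS φ c) D.n T < |∑ y ∈ cY (D.FS φ c) D.n T ∩ D.Sc φ c,
    ((dgY (D.Pc φ c) y : ℝ) - if D.slot φ c y < D.s + 1 then D.theta * (eB D.Hb (D.O.OX c)ᶜ {y} : ℝ) else 0)|
/-- free vertices near certified sets -/
def mac5X (c : Fin D.B) : Prop :=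
  lam D.n * szT D.F D.n T < ∑ x ∈ cX D.F D.n T, (eB D.H.G {x} (D.Zs φ c) : ℝ)
def mac5Y (c : Fin D.B) : Prop :=
  lam D.n * szT D.F D.n T < ∑ y ∈ maj D.F (cX D.F D.n T), (D.vZ φ c y : ℝ)
/-- the private reserve graph sees the cuts certified by the private graph `Pg` -/
def mac6X (c : Fin D.B) : Prop :=
  (Nτ D.n : ℝ) * T.card ≤ (D.n : ℝ) ^ 3 * ((D.F.filter (fun e => e.1 ∈ cX (D.Pg φ c) D.n T ∧ e.1 ∉ D.O.OX c ∧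
    e.2 ∈ D.Sin φ c ∧ e.2 ∉ cY (D.Pg φ c) D.n T ∧ D.slot φ c e.2 < D.s + 1)).card : ℝ) ∧
  2 * (((D.Rg φ c).filter (fun e => e.1 ∈ cX (D.Pg φ c) D.n T ∧ e.2 ∉ cY (D.Pg φ c) D.n T)).card : ℝ)
    < D.theta * ((D.F.filter (fun e => e.1 ∈ cX (D.Pg φ c) D.n T ∧ e.1 ∉ D.O.OX c ∧
    e.2 ∈ D.Sin φ c ∧ e.2 ∉ cY (D.Pg φ c) D.n T ∧ D.slot φ c e.2 < D.s + 1)).card : ℝ)
def mac6Y (c : Fin D.B) : Prop :=
  (Nτ D.n : ℝ) * T.card ≤ (D.n : ℝ) ^ 3 * ((D.F.filter (fun e => e.1 ∉ cX (D.Pg φ c) D.n T ∧ e.1 ∉ D.O.OX c ∧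
    e.2 ∈ D.Sin φ c ∧ e.2 ∈ cY (D.Pg φ c) D.n T ∧ D.slot φ c e.2 < D.s + 1)).card : ℝ) ∧
  2 * (((D.Rg φ c).filter (fun e => e.1 ∉ cX (D.Pg φ c) D.n T ∧ e.2 ∈ cY (D.Pg φ c) D.n T)).card : ℝ)
    < D.theta * ((D.F.filter (fun e => e.1 ∉ cX (D.Pg φ c) D.n T ∧ e.1 ∉ D.O.OX c ∧
    e.2 ∈ D.Sin φ c ∧ e.2 ∈ cY (D.Pg φ c) D.n T ∧ D.slot φ c e.2 < D.s + 1)).card : ℝ)
/-- free vertices near the sets certified by `Pg` -/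
def mac7X (c : Fin D.B) : Prop :=
  lam D.n * szT (D.Pg φ c) D.n T < ∑ x ∈ cX (D.Pg φ c) D.n T, (eB D.H.G {x} (D.Zs φ c) : ℝ)
def mac7Y (c : Fin D.B) : Prop :=
  lam D.n * szT (D.Pg φ c) D.n T < ∑ y ∈ cY (D.Pg φ c) D.n T, (D.vZ φ c y : ℝ)
/-- usage on sets certified by `G` -/
def mac8 : Prop :=
  lam D.n * szT D.H.G D.n T < |∑ y ∈ cY D.H.G D.n T, (((univ.filter (fun c => y ∈ D.Sin φ c)).card : ℝ)
  - D.rho' * ((univ.filter (fun c => y ∉ D.O.OY c)).card : ℝ))|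
def mac8Z : Prop :=
  lam D.n * szT D.H.G D.n T < ∑ y ∈ cY D.H.G D.n T, ((univ.filter (fun c => y ∈ D.Zs φ c)).card : ℝ)

/-- the old arrays -/
noncomputable def arH : Y → ℝ := fun y => (dgY D.Hb y : ℝ) - avY (fun y => (dgY D.Hb y : ℝ))
noncomputable def arF : Y → ℝ := fun y => (dgY D.F y : ℝ) - avY (fun y => (dgY D.F y : ℝ))

/-- the array of the outer neighbours, for the colour `c` -/
noncomputable def arO (c : Fin D.B) : Y → ℝ := fun y => (eB D.H.G (D.O.OX c) {y} : ℝ)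

/-- all macroscopic events -/
def macAll : Prop := D.mac8 φ T ∨ D.mac8Z φ T ∨ ∃ c : Fin D.B,
  D.mac1 φ T c ∨ D.mac2 φ T D.Hb c ∨ D.mac2 φ T D.F c ∨ D.mac3 φ T D.arH c ∨ D.mac3 φ T D.arF c
  ∨ D.mac3 φ T (D.arO c) c ∨ D.mac4X φ T c ∨ D.mac4Y φ T c ∨ D.mac5X φ T c ∨ D.mac5Y φ T c
  ∨ D.mac6X φ T c ∨ D.mac6Y φ T c ∨ D.mac7X φ T c ∨ D.mac7Y φ T c

/-- sizes -/
def glob (c : Fin D.B) : Prop := (D.Sc φ c).card ≤ D.NX ∧ D.NX ≤ (D.Sc φ c).card + (D.Zs φ c).card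

/-- remove the outer vertices and a further set from `X` -/
def xo (c : Fin D.B) (R : Finset X) : Finset X := univ.filter (fun x => x ∉ D.O.OX c ∧ x ∉ R)

/-- the labels are good -/
structure Good : Prop where
  loc : ∀ v, ¬ D.bad φ v
  mac : ∀ T, ¬ D.macAll φ T
  glo : ∀ c, D.glob φ c

end Ctx

end Pool.SCDH
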