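import Pool.Agent.Lib.SCDH.BDefs
import Pool.Agent.Lib.SCDH.MDefs
import Pool.Agent.Lib.SCDH.G01
import Pool.Agent.Lib.SCDH.G03
import Pool.Agent.Lib.SCDH.G04

/-!
# Row N01 (paper scd_h36.md)
Numerical consequences of CtxOK.
Recipe: ctx_deg from kap, Host.hd1, hd2, hκd. ctx_B0 from hB1, hB2. ctx_rho: |X| d = |Y| κ (host_card); ρ' = (|X|-ω)/(|Y|-ω) ≤ |X|/|Y| = κ/d because |X| ≤ |Y|; κ/d - ρ' = ω(|Y|-|X|)/(|Y|(|Y|-ω)) ≤ 2ω/|Y| and ω/|Y| ≤ 1/(t^26 d) by OutOK.om; ρ' - ρ₁ = ρ'/n^20. ctx_theta: σ = s+1 between 3κB0/(2d) and 2κB0/d, n/(2t^20) ≤ B0 ≤ n/t^20. ctx_q: avX between ε n/4 and d (lowX, degrees ≤ d).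
-/

set_option linter.unusedSectionVars false
set_option linter.unusedVariables false

namespace Pool.SCDH

open Finset Pool.MP_0ccee8_co.Lib2

variable {X Y : Type} [Fintype X] [DecidableEq X] [Fintype Y] [DecidableEq Y]
variable (D : Ctx X Y)

/-- basic numbers -/
private structure Bas (D : Ctx X Y) : Prop where
  t1 : (10 : ℝ) ^ 100 ≤ D.t
  t0 : (0 : ℝ) < D.t
  n1 : (D.t : ℝ) ^ 200 ≤ D.n
  n0 : (0 : ℝ) < D.n
  k1 : (D.t : ℝ) ^ 50 ≤ D.κ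
  k0 : (0 : ℝ) < D.κ
  kd : (D.κ : ℝ) ≤ D.d
  d0 : (0 : ℝ) < D.d
  dn : (D.d : ℝ) ≤ D.n
  nd : (D.n : ℝ) ≤ 2 * D.d

private theorem bas (hD : CtxOK D) : Bas D := by
  have t1 := big_t hD.big
  have t0 : (0 : ℝ) < D.t := lt_of_lt_of_le (by positivity) t1
  have n1 := (rng_real hD.rng).1
  have n0 : (0 : ℝ) < D.n := lt_of_lt_of_le (by positivity) n1
  have k1 : (D.t : ℝ) ^ 50 ≤ D.κ := by exact_mod_cast hD.kap
  have k0 : (0 : ℝ) < D.κ := lt_of_lt_of_le (by positivity) k1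
  have kd : (D.κ : ℝ) ≤ D.d := by exact_mod_cast D.H.hκd
  exact ⟨t1, t0, n1, n0, k1, k0, kd, k0.trans_le kd, by exact_mod_cast D.H.hd2,
    by exact_mod_cast D.H.hd1⟩

theorem ctx_t (hD : CtxOK D) : (10 : ℝ) ^ 100 ≤ D.t ∧ (10 : ℝ) ^ 100 ≤ D.ε * D.t ∧ 0 < D.ε ∧ D.ε ≤ 1 / 2 :=
  ⟨big_t hD.big, hD.big.b1, hD.big.e0, hD.big.e1⟩

theorem ctx_n (hD : CtxOK D) : (D.t : ℝ) ^ 200 ≤ D.n ∧ (D.n : ℝ) ≤ 2 * (D.t : ℝ) ^ 200 :=
  rng_real hD.rng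

theorem ctx_deg (hD : CtxOK D) : (D.t : ℝ) ^ 50 ≤ D.κ ∧ (D.κ : ℝ) ≤ D.d ∧ (D.d : ℝ) ≤ D.n ∧ (D.n : ℝ) ≤ 2 * D.d :=
  ⟨(bas D hD).k1, (bas D hD).kd, (bas D hD).dn, (bas D hD).nd⟩

theorem ctx_B0 (hD : CtxOK D) : (D.n : ℝ) / (2 * (D.t : ℝ) ^ 20) ≤ D.B0 ∧ (D.B0 : ℝ) ≤ D.n / (D.t : ℝ) ^ 20 ∧
    (D.B : ℝ) ≤ D.B0 := by
  have h := bas D hD
  have t0 := h.t0
  have h1 : (D.n : ℝ) ≤ 2 * ((D.t : ℝ) ^ 20 * D.B0) := by exact_mod_cast hD.hB1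
  have h2 : (D.t : ℝ) ^ 20 * D.B0 ≤ D.n := by exact_mod_cast hD.hB2
  refine ⟨?_, ?_, by exact_mod_cast hD.hB⟩
  · rw [div_le_iff₀ (by positivity)]
    linarith
  · rw [le_div_iff₀ (by positivity)]
    linarith

private theorem pow_t_ge (hD : CtxOK D) (m : ℕ) (hm : 1 ≤ m) : (10 : ℝ) ^ 100 ≤ (D.t : ℝ) ^ m := by
  have h := bas D hD
  have h1 : (1 : ℝ) ≤ D.t := le_trans (by norm_num) h.t1
  calc (10 : ℝ) ^ 100 ≤ D.t := h.t1
    _ = (D.t : ℝ) ^ 1 := (pow_one _).symm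
    _ ≤ (D.t : ℝ) ^ m := pow_le_pow_right₀ h1 hm

private theorem om_le (hD : CtxOK D) : D.ω ≤ Fintype.card X := by
  have h := hD.out.om
  have ht : 1 ≤ D.t ^ 26 := by
    have h1 := pow_t_ge D hD 26 (by norm_num)
    have h2 : (1 : ℝ) ≤ (D.t : ℝ) ^ 26 := le_trans (by norm_num) h1
    exact_mod_cast h2
  calc D.ω = 1 * (1 * D.ω) := by ring
    _ ≤ D.t ^ 26 * (D.κ * D.ω) := Nat.mul_le_mul ht (Nat.mul_le_mul D.H.hκ le_rfl)
    _ ≤ Fintype.card X := h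

theorem ctx_cards (hD : CtxOK D) : (Fintype.card X : ℝ) * D.d = Fintype.card Y * D.κ ∧
    (Fintype.card X : ℝ) ≤ Fintype.card Y ∧ (D.n : ℝ) ^ 100 ≤ Fintype.card X ∧
    (D.NX : ℝ) = Fintype.card X - D.ω ∧ (D.a : ℝ) + 1 = Fintype.card Y - D.ω ∧
    (D.z : ℝ) + 1 = (D.n : ℝ) ^ 20 ∧ (D.ω : ℝ) ≤ Fintype.card Y / ((D.t : ℝ) ^ 26 * D.d) ∧
    (Fintype.card Y : ℝ) ≤ D.n * Fintype.card X := by
  have h := bas D hD
  have t0 := h.t0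
  have d0 := h.d0
  have k0 := h.k0
  have hc : (Fintype.card X : ℝ) * D.d = Fintype.card Y * D.κ := by
    exact_mod_cast host_card D.H
  have hY0 : (0 : ℝ) ≤ Fintype.card Y := Nat.cast_nonneg _
  have hX0 : (0 : ℝ) ≤ Fintype.card X := Nat.cast_nonneg _
  have hκ1 : (1 : ℝ) ≤ D.κ := by exact_mod_cast D.H.hκ
  have hom : (D.t : ℝ) ^ 26 * (D.κ * D.ω) ≤ Fintype.card X := by exact_mod_cast hD.out.om
  refine ⟨hc, ?_, by exact_mod_cast D.H.bigX, ?_, ?_, ?_, ?_, ?_⟩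
  · have h1 : (Fintype.card X : ℝ) * D.d ≤ Fintype.card Y * D.d := by
      rw [hc]
      exact mul_le_mul_of_nonneg_left h.kd hY0
    exact le_of_mul_le_mul_right h1 d0
  · unfold Ctx.NX
    rw [Nat.cast_sub (om_le D hD)]
  · have h1 : ((D.a + 1 + D.ω : ℕ) : ℝ) = (Fintype.card Y : ℝ) := by exact_mod_cast hD.ha
    push_cast at h1
    linarith
  · exact_mod_cast hD.hz
  · rw [le_div_iff₀ (by positivity)]
    have h1 : ((D.ω : ℝ) * ((D.t : ℝ) ^ 26 * D.d)) * D.κ ≤ (Fintype.card Y : ℝ) * D.κ := by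
      rw [← hc]
      calc ((D.ω : ℝ) * ((D.t : ℝ) ^ 26 * D.d)) * D.κ = (D.t : ℝ) ^ 26 * (D.κ * D.ω) * D.d := by ring
        _ ≤ (Fintype.card X : ℝ) * D.d := mul_le_mul_of_nonneg_right hom d0.le
    exact le_of_mul_le_mul_right h1 k0
  · calc (Fintype.card Y : ℝ) ≤ Fintype.card Y * D.κ := le_mul_of_one_le_right hY0 hκ1
      _ = Fintype.card X * D.d := hc.symm
      _ ≤ Fintype.card X * D.n := mul_le_mul_of_nonneg_left h.dn hX0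
      _ = D.n * Fintype.card X := mul_comm _ _

theorem ctx_rho (hD : CtxOK D) : 99 / 100 * ((D.κ : ℝ) / D.d) ≤ D.rho1 ∧ D.rho1 ≤ D.rho' ∧
    D.rho' ≤ (D.κ : ℝ) / D.d ∧ D.rho' ≤ 1 ∧ 0 < D.rho1 ∧
    (D.κ : ℝ) / D.d - D.rho1 ≤ 3 / ((D.t : ℝ) ^ 26 * D.d) := by
  have h := bas D hD
  have t0 := h.t0
  have d0 := h.d0
  have k0 := h.k0
  have n0 := h.n0
  obtain ⟨c1, c2, c3, c4, c5, c6, c7, c8⟩ := ctx_cards D hD
  set x : ℝ := (Fintype.card X : ℝ) with hx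
  set y : ℝ := (Fintype.card Y : ℝ) with hy
  set w : ℝ := (D.ω : ℝ) with hw
  have hn1 : (10 : ℝ) ^ 100 ≤ D.n := (pow_t_ge D hD 200 (by norm_num)).trans h.n1
  have hn1' : (1 : ℝ) ≤ D.n := le_trans (by norm_num) hn1
  have x1 : (1 : ℝ) ≤ x := (one_le_pow₀ hn1').trans c3
  have x0 : 0 < x := zero_lt_one.trans_le x1
  have y0 : 0 < y := x0.trans_le c2
  have w0 : 0 ≤ w := Nat.cast_nonneg _
  have t26 : (10 : ℝ) ^ 100 ≤ (D.t : ℝ) ^ 26 := pow_t_ge D hD 26 (by norm_num)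
  have t26' : (300 : ℝ) ≤ (D.t : ℝ) ^ 26 := le_trans (by norm_num) t26
  have hκ1 : (1 : ℝ) ≤ D.κ := by exact_mod_cast D.H.hκ
  have hd1 : (1 : ℝ) ≤ D.d := hκ1.trans h.kd
  have hkd : (D.κ : ℝ) / D.d = x / y := by
    rw [div_eq_div_iff d0.ne' y0.ne']
    linarith
  have hw1 : w * ((D.t : ℝ) ^ 26 * D.d) ≤ y := by
    rwa [le_div_iff₀ (by positivity)] at c7
  have hw2 : 2 * w ≤ y := by
    refine le_trans ?_ hw1
    have e1 : (2 : ℝ) ≤ (D.t : ℝ) ^ 26 * D.d := by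
      calc (2 : ℝ) ≤ 300 * 1 := by norm_num
        _ ≤ (D.t : ℝ) ^ 26 * D.d := mul_le_mul t26' hd1 zero_le_one (le_trans (by norm_num) t26')
    calc 2 * w = w * 2 := by ring
      _ ≤ w * ((D.t : ℝ) ^ 26 * D.d) := mul_le_mul_of_nonneg_left e1 w0
  have hwx : 2 * w ≤ x := by
    have h1 : (D.t : ℝ) ^ 26 * (D.κ * D.ω) ≤ Fintype.card X := by exact_mod_cast hD.out.om
    refine le_trans ?_ h1
    have h2 : w ≤ D.κ * w := le_mul_of_one_le_left w0 hκ1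
    have h3 : 0 ≤ D.κ * w := w0.trans h2
    calc 2 * w ≤ 2 * (D.κ * w) := by linarith
      _ ≤ (D.t : ℝ) ^ 26 * (D.κ * w) := mul_le_mul_of_nonneg_right (by linarith) h3
  have hyw : 0 < y - w := by linarith
  have hxw : 0 < x - w := by linarith
  have hr : D.rho' = (x - w) / (y - w) := by
    unfold Ctx.rho'
    rw [c4, c5]
  have hr1 : D.rho1 = D.rho' - D.rho' * (1 / (D.n : ℝ) ^ 20) := by
    unfold Ctx.rho1
    rw [c6]
    ring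
  have hn20 : (2 : ℝ) ≤ (D.n : ℝ) ^ 20 := by
    calc (2 : ℝ) ≤ D.n := le_trans (by norm_num) hn1
      _ = (D.n : ℝ) ^ 1 := (pow_one _).symm
      _ ≤ (D.n : ℝ) ^ 20 := pow_le_pow_right₀ hn1' (by norm_num)
  have hinv : 1 / (D.n : ℝ) ^ 20 ≤ 1 / 2 := one_div_le_one_div_of_le (by norm_num) hn20
  have hinv0 : 0 < 1 / (D.n : ℝ) ^ 20 := by positivity
  have rp : 0 < D.rho' := by rw [hr]; positivity
  have r1 : D.rho' ≤ (D.κ : ℝ) / D.d := by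
    rw [hr, hkd, div_le_div_iff₀ hyw y0]
    have e1 : w * x ≤ w * y := mul_le_mul_of_nonneg_left c2 w0
    linarith [e1, mul_comm w x, mul_comm w y, sub_mul x w y, mul_sub x y w]
  have r2 : D.rho' ≤ 1 := by
    rw [hr, div_le_one hyw]
    linarith
  have r3 : D.rho1 ≤ D.rho' := by
    rw [hr1]
    have := mul_pos rp hinv0
    linarith
  have r4 : 0 < D.rho1 := by
    have e1 : D.rho' * (1 / (D.n : ℝ) ^ 20) ≤ D.rho' * (1 / 2) := mul_le_mul_of_nonneg_left hinv rp.le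
    rw [hr1]
    linarith
  have td : (D.t : ℝ) ^ 26 * D.d ≤ (D.n : ℝ) ^ 20 := by
    have h1 : (D.t : ℝ) ^ 26 ≤ D.n :=
      (pow_le_pow_right₀ (le_trans (by norm_num) h.t1) (by norm_num)).trans h.n1
    calc (D.t : ℝ) ^ 26 * D.d ≤ (D.n : ℝ) * D.n := mul_le_mul h1 h.dn d0.le n0.le
      _ = (D.n : ℝ) ^ 2 := by ring
      _ ≤ (D.n : ℝ) ^ 20 := pow_le_pow_right₀ hn1' (by norm_num)
  have td0 : 0 < (D.t : ℝ) ^ 26 * D.d := by positivity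
  have r5 : (D.κ : ℝ) / D.d - D.rho' ≤ 2 / ((D.t : ℝ) ^ 26 * D.d) := by
    have e1 : (D.κ : ℝ) / D.d - D.rho' ≤ 2 * w / y := by
      rw [hkd, hr, div_sub_div _ _ y0.ne' hyw.ne', div_le_div_iff₀ (by positivity) y0]
      have e2 : x * (y - w) - y * (x - w) = w * (y - x) := by ring
      rw [e2]
      have e3 : w * (y - x) * y ≤ w * y * y :=
        mul_le_mul_of_nonneg_right (mul_le_mul_of_nonneg_left (by linarith) w0) y0.le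
      have e4 : w * y * y ≤ 2 * w * (y * (y - w)) := by
        have e5 : y ≤ 2 * (y - w) := by linarith
        have e6 : 0 ≤ w * y := mul_nonneg w0 y0.le
        calc w * y * y ≤ w * y * (2 * (y - w)) := mul_le_mul_of_nonneg_left e5 e6
          _ = 2 * w * (y * (y - w)) := by ring
      exact e3.trans e4
    refine e1.trans ?_
    rw [div_le_div_iff₀ y0 td0]
    linarith [hw1, mul_assoc 2 w ((D.t : ℝ) ^ 26 * D.d)]
  have r6 : D.rho' - D.rho1 ≤ 1 / ((D.t : ℝ) ^ 26 * D.d) := by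
    have e1 : D.rho' - D.rho1 = D.rho' * (1 / (D.n : ℝ) ^ 20) := by rw [hr1]; ring
    rw [e1]
    calc D.rho' * (1 / (D.n : ℝ) ^ 20) ≤ 1 * (1 / (D.n : ℝ) ^ 20) :=
          mul_le_mul_of_nonneg_right r2 hinv0.le
      _ = 1 / (D.n : ℝ) ^ 20 := one_mul _
      _ ≤ 1 / ((D.t : ℝ) ^ 26 * D.d) := one_div_le_one_div_of_le td0 td
  have r7 : (D.κ : ℝ) / D.d - D.rho1 ≤ 3 / ((D.t : ℝ) ^ 26 * D.d) := by
    have e1 : 3 / ((D.t : ℝ) ^ 26 * D.d) = 2 / ((D.t : ℝ) ^ 26 * D.d) + 1 / ((D.t : ℝ) ^ 26 * D.d) := by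
      rw [← add_div]; norm_num
    rw [e1]
    linarith
  refine ⟨?_, r3, r1, r2, r4, r7⟩
  have r8 : 3 / ((D.t : ℝ) ^ 26 * D.d) ≤ 1 / 100 * ((D.κ : ℝ) / D.d) := by
    rw [← mul_div_assoc, div_le_div_iff₀ td0 d0]
    have e1 : 3 * (D.d : ℝ) ≤ (D.t : ℝ) ^ 26 / 100 * D.d :=
      mul_le_mul_of_nonneg_right (by linarith) d0.le
    have e2 : (D.t : ℝ) ^ 26 / 100 * D.d ≤ 1 / 100 * D.κ * ((D.t : ℝ) ^ 26 * D.d) := by
      calc (D.t : ℝ) ^ 26 / 100 * D.d = 1 / 100 * 1 * ((D.t : ℝ) ^ 26 * D.d) := by ring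
        _ ≤ 1 / 100 * D.κ * ((D.t : ℝ) ^ 26 * D.d) :=
            mul_le_mul_of_nonneg_right (by linarith) td0.le
    exact e1.trans e2
  linarith

theorem ctx_theta (hD : CtxOK D) : (D.t : ℝ) ^ 20 / 4 ≤ D.theta * D.κ ∧ D.theta * D.κ ≤ 4 / 3 * (D.t : ℝ) ^ 20 ∧
    0 < D.theta ∧ D.theta ≤ 1 ∧ (D.t : ℝ) ^ 20 / (4 * D.n) ≤ D.theta ∧
    3 / 2 * ((D.κ : ℝ) * D.B0 / D.d) ≤ (D.s : ℝ) + 1 ∧ (D.s : ℝ) + 1 ≤ 2 * D.n := by
  have h := bas D hD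
  have t0 := h.t0
  have d0 := h.d0
  have k0 := h.k0
  have n0 := h.n0
  obtain ⟨b1, b2, b3⟩ := ctx_B0 D hD
  have s0 : (0 : ℝ) < (D.s : ℝ) + 1 := by positivity
  have T0 : (0 : ℝ) < (D.t : ℝ) ^ 20 := by positivity
  have T1 : (1 : ℝ) ≤ (D.t : ℝ) ^ 20 := le_trans (by norm_num) (pow_t_ge D hD 20 (by norm_num))
  have hs1 : 3 * ((D.κ : ℝ) * D.B0) ≤ 2 * (D.d * ((D.s : ℝ) + 1)) := by exact_mod_cast hD.hs1
  have hs2 : (D.d : ℝ) * ((D.s : ℝ) + 1) ≤ 2 * (D.κ * D.B0) := by exact_mod_cast hD.hs2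
  rw [div_le_iff₀ (by positivity)] at b1
  rw [le_div_iff₀ T0] at b2
  have B00 : (0 : ℝ) ≤ D.B0 := Nat.cast_nonneg _
  have c1 : (D.t : ℝ) ^ 20 / 4 ≤ D.theta * D.κ := by
    unfold Ctx.theta
    rw [one_div_mul_eq_div, div_le_div_iff₀ (by norm_num) s0]
    -- t^20 (s+1) ≤ κ 4
    have e1 : (D.d : ℝ) * ((D.t : ℝ) ^ 20 * ((D.s : ℝ) + 1)) ≤ D.d * (D.κ * 4) := by
      calc (D.d : ℝ) * ((D.t : ℝ) ^ 20 * ((D.s : ℝ) + 1))
          = (D.t : ℝ) ^ 20 * (D.d * ((D.s : ℝ) + 1)) := by ring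
        _ ≤ (D.t : ℝ) ^ 20 * (2 * (D.κ * D.B0)) := mul_le_mul_of_nonneg_left hs2 T0.le
        _ = 2 * D.κ * (D.B0 * (D.t : ℝ) ^ 20) := by ring
        _ ≤ 2 * D.κ * D.n := mul_le_mul_of_nonneg_left b2 (by positivity)
        _ ≤ 2 * D.κ * (2 * D.d) := mul_le_mul_of_nonneg_left h.nd (by positivity)
        _ = D.d * (D.κ * 4) := by ring
    exact le_of_mul_le_mul_left e1 d0
  have c2 : D.theta * D.κ ≤ 4 / 3 * (D.t : ℝ) ^ 20 := by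
    unfold Ctx.theta
    rw [one_div_mul_eq_div, div_le_iff₀ s0]
    -- κ ≤ 4/3 t^20 (s+1)
    have e1 : (D.d : ℝ) * D.κ ≤ D.d * (4 / 3 * (D.t : ℝ) ^ 20 * ((D.s : ℝ) + 1)) := by
      calc (D.d : ℝ) * D.κ ≤ D.n * D.κ := mul_le_mul_of_nonneg_right h.dn k0.le
        _ ≤ (D.B0 * (2 * (D.t : ℝ) ^ 20)) * D.κ := mul_le_mul_of_nonneg_right b1 k0.le
        _ = (2 / 3 * (D.t : ℝ) ^ 20) * (3 * (D.κ * D.B0)) := by ring
        _ ≤ (2 / 3 * (D.t : ℝ) ^ 20) * (2 * (D.d * ((D.s : ℝ) + 1))) :=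
            mul_le_mul_of_nonneg_left hs1 (by positivity)
        _ = D.d * (4 / 3 * (D.t : ℝ) ^ 20 * ((D.s : ℝ) + 1)) := by ring
    exact le_of_mul_le_mul_left e1 d0
  have c3 : 0 < D.theta := by unfold Ctx.theta; positivity
  have c4 : D.theta ≤ 1 := by
    unfold Ctx.theta
    rw [div_le_one s0]
    have : (0 : ℝ) ≤ D.s := Nat.cast_nonneg _
    linarith
  refine ⟨c1, c2, c3, c4, ?_, ?_, ?_⟩
  · rw [div_le_iff₀ (by positivity)]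
    have e1 : D.theta * D.κ ≤ D.theta * D.n :=
      mul_le_mul_of_nonneg_left (h.kd.trans h.dn) c3.le
    linarith
  · rw [← mul_div_assoc, div_le_iff₀ d0]
    linarith
  · have e1 : (D.d : ℝ) * ((D.s : ℝ) + 1) ≤ D.d * (2 * D.B0) := by
      calc (D.d : ℝ) * ((D.s : ℝ) + 1) ≤ 2 * (D.κ * D.B0) := hs2
        _ ≤ 2 * (D.d * D.B0) := by
            have := mul_le_mul_of_nonneg_right h.kd B00
            linarith
        _ = D.d * (2 * D.B0) := by ring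
    have e2 := le_of_mul_le_mul_left e1 d0
    have e3 : (D.B0 : ℝ) ≤ D.B0 * (D.t : ℝ) ^ 20 := le_mul_of_one_le_right B00 T1
    linarith

theorem ctx_q (hD : CtxOK D) : 24 / 100 * (D.ε * (D.theta * D.κ)) ≤ D.q ∧ D.q ≤ D.theta * D.κ ∧
    D.ε * (D.t : ℝ) ^ 20 / 20 ≤ D.q := by
  have h := bas D hD
  have t0 := h.t0
  have d0 := h.d0
  have k0 := h.k0
  have n0 := h.n0
  obtain ⟨r1, r2, r3, r4, r5, r6⟩ := ctx_rho D hD
  obtain ⟨a1, a2, a3, a4, a5, a6, a7⟩ := ctx_theta D hD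
  obtain ⟨-, -, c3, -, -, -, -, -⟩ := ctx_cards D hD
  have e0 := hD.big.e0
  have x0 : (0 : ℝ) < Fintype.card X := lt_of_lt_of_le (by positivity) c3
  have av1 : D.ε * D.n / 4 ≤ avX (fun x => (dgX D.Hb x : ℝ)) := by
    unfold avX
    rw [le_div_iff₀ x0]
    calc D.ε * D.n / 4 * (Fintype.card X : ℝ) = ∑ _x : X, D.ε * D.n / 4 := by
          rw [Finset.sum_const, card_univ, nsmul_eq_mul]; ring
      _ ≤ ∑ x : X, (dgX D.Hb x : ℝ) := Finset.sum_le_sum fun x _ => hD.bulk.lowX x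
  have av2 : avX (fun x => (dgX D.Hb x : ℝ)) ≤ D.d := by
    unfold avX
    rw [div_le_iff₀ x0]
    calc ∑ x : X, (dgX D.Hb x : ℝ) ≤ ∑ _x : X, (D.d : ℝ) :=
          Finset.sum_le_sum fun x _ => by exact_mod_cast dgX_le D.H D.Hb hD.bulk.sub x
      _ = D.d * (Fintype.card X : ℝ) := by
          rw [Finset.sum_const, card_univ, nsmul_eq_mul]; ring
  have av0 : 0 ≤ avX (fun x => (dgX D.Hb x : ℝ)) := le_trans (by positivity) av1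
  set av := avX (fun x => (dgX D.Hb x : ℝ)) with hav
  have hq : D.q = D.theta * (D.rho1 * av) := rfl
  have q1 : 24 / 100 * (D.ε * (D.theta * D.κ)) ≤ D.q := by
    have e1 : 24 / 100 * (D.ε * D.κ) ≤ D.rho1 * av := by
      calc 24 / 100 * (D.ε * D.κ) ≤ 99 / 100 * ((D.κ : ℝ) / D.d) * (D.ε * D.d / 4) := by
            have e2 : 99 / 100 * ((D.κ : ℝ) / D.d) * (D.ε * D.d / 4) = 99 / 400 * (D.ε * D.κ) := by
              field_simp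
              ring
            rw [e2]
            have : 0 < D.ε * D.κ := mul_pos e0 k0
            linarith
        _ ≤ 99 / 100 * ((D.κ : ℝ) / D.d) * (D.ε * D.n / 4) := by
            have e3 : D.ε * D.d ≤ D.ε * D.n := mul_le_mul_of_nonneg_left h.dn e0.le
            exact mul_le_mul_of_nonneg_left (by linarith) (by positivity)
        _ ≤ D.rho1 * av := mul_le_mul r1 av1 (by positivity) r5.le
    rw [hq]
    calc 24 / 100 * (D.ε * (D.theta * D.κ)) = D.theta * (24 / 100 * (D.ε * D.κ)) := by ring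
      _ ≤ D.theta * (D.rho1 * av) := mul_le_mul_of_nonneg_left e1 a3.le
  refine ⟨q1, ?_, ?_⟩
  · rw [hq]
    refine mul_le_mul_of_nonneg_left ?_ a3.le
    calc D.rho1 * av ≤ ((D.κ : ℝ) / D.d) * D.d := mul_le_mul (r2.trans r3) av2 av0 (by positivity)
      _ = D.κ := div_mul_cancel₀ _ d0.ne'
  · refine le_trans ?_ q1
    have e1 : D.ε * ((D.t : ℝ) ^ 20 / 4) ≤ D.ε * (D.theta * D.κ) :=
      mul_le_mul_of_nonneg_left a1 e0.le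
    have e2 : 0 ≤ D.ε * (D.t : ℝ) ^ 20 := by positivity
    linarith

theorem ctx_dvU (hD : CtxOK D) : D.dvU ≤ (D.κ : ℝ) * D.B0 / D.d / 100 ∧ (D.t : ℝ) ^ 15 ≤ D.dvU ∧
    D.dvU ^ 2 = (D.κ : ℝ) * D.B0 / D.d * (D.t : ℝ) ^ 2 ∧ (D.t : ℝ) ^ 30 / 2 ≤ (D.κ : ℝ) * D.B0 / D.d := by
  have h := bas D hD
  have t0 := h.t0
  have d0 := h.d0
  have k0 := h.k0
  have n0 := h.n0
  obtain ⟨b1, b2, b3⟩ := ctx_B0 D hD
  rw [div_le_iff₀ (by positivity)] at b1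
  have W1 : (D.t : ℝ) ^ 30 / 2 ≤ (D.κ : ℝ) * D.B0 / D.d := by
    rw [div_le_div_iff₀ (by norm_num) d0]
    have T0 : (0 : ℝ) < (D.t : ℝ) ^ 20 := by positivity
    have e1 : (D.t : ℝ) ^ 20 * ((D.t : ℝ) ^ 30 * D.d) ≤ (D.t : ℝ) ^ 20 * (D.κ * D.B0 * 2) := by
      calc (D.t : ℝ) ^ 20 * ((D.t : ℝ) ^ 30 * D.d) = (D.t : ℝ) ^ 50 * D.d := by ring
        _ ≤ (D.κ : ℝ) * D.n := mul_le_mul h.k1 h.dn d0.le k0.le
        _ ≤ (D.κ : ℝ) * (D.B0 * (2 * (D.t : ℝ) ^ 20)) := mul_le_mul_of_nonneg_left b1 k0.le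
        _ = (D.t : ℝ) ^ 20 * (D.κ * D.B0 * 2) := by ring
    exact le_of_mul_le_mul_left e1 T0
  set W : ℝ := (D.κ : ℝ) * D.B0 / D.d with hW
  have W0 : 0 < W := lt_of_lt_of_le (by positivity) W1
  have hdv : D.dvU = Real.sqrt W * D.t := rfl
  have t28 : (10 : ℝ) ^ 100 ≤ (D.t : ℝ) ^ 28 := pow_t_ge D hD 28 (by norm_num)
  have s0 : 0 ≤ Real.sqrt W := Real.sqrt_nonneg _
  have ss : Real.sqrt W * Real.sqrt W = W := Real.mul_self_sqrt W0.le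
  have g1 : 100 * (D.t : ℝ) ≤ Real.sqrt W := by
    apply Real.le_sqrt_of_sq_le
    refine le_trans ?_ W1
    have e1 : (D.t : ℝ) ^ 30 = (D.t : ℝ) ^ 28 * (D.t : ℝ) ^ 2 := by ring
    rw [e1]
    have e2 : (20000 : ℝ) ≤ (D.t : ℝ) ^ 28 := le_trans (by norm_num) t28
    have e3 : (0 : ℝ) ≤ (D.t : ℝ) ^ 2 := by positivity
    nlinarith
  have g2 : (D.t : ℝ) ^ 14 ≤ Real.sqrt W := by
    apply Real.le_sqrt_of_sq_le
    refine le_trans ?_ W1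
    have e1 : (D.t : ℝ) ^ 30 = (D.t : ℝ) ^ 28 * (D.t : ℝ) ^ 2 := by ring
    have e4 : ((D.t : ℝ) ^ 14) ^ 2 = (D.t : ℝ) ^ 28 := by ring
    rw [e1, e4]
    have e2 : (2 : ℝ) ≤ (D.t : ℝ) ^ 2 := le_trans (by norm_num) (pow_t_ge D hD 2 (by norm_num))
    have e3 : (0 : ℝ) ≤ (D.t : ℝ) ^ 28 := by positivity
    nlinarith
  refine ⟨?_, ?_, ?_, W1⟩
  · rw [hdv]
    have e1 : Real.sqrt W * (100 * (D.t : ℝ)) ≤ Real.sqrt W * Real.sqrt W :=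
      mul_le_mul_of_nonneg_left g1 s0
    rw [ss] at e1
    linarith
  · rw [hdv]
    calc (D.t : ℝ) ^ 15 = (D.t : ℝ) ^ 14 * D.t := by ring
      _ ≤ Real.sqrt W * D.t := mul_le_mul_of_nonneg_right g2 t0.le
  · rw [hdv, mul_pow, Real.sq_sqrt W0.le]

theorem ctx_F (hD : CtxOK D) : (∀ x, 99 / 100 * (eta D.t * D.d) ≤ (dgX D.F x : ℝ) ∧ (dgX D.F x : ℝ) ≤ 101 / 100 * (eta D.t * D.d)) ∧
    (∀ y, 99 / 100 * (eta D.t * D.κ) ≤ (dgY D.F y : ℝ) ∧ (dgY D.F y : ℝ) ≤ 101 / 100 * (eta D.t * D.κ)) ∧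
    (D.t : ℝ) ^ 29 ≤ eta D.t * D.κ ∧ 0 < eta D.t ∧ eta D.t ≤ 1 := by
  have h := bas D hD
  have t0 := h.t0
  have d0 := h.d0
  have k0 := h.k0
  have eta0 : 0 < eta D.t := by unfold eta; positivity
  have t5 : (100 : ℝ) ≤ (D.t : ℝ) ^ 5 := le_trans (by norm_num) (pow_t_ge D hD 5 (by norm_num))
  have t50 : (0 : ℝ) < (D.t : ℝ) ^ 5 := by positivity
  have key : ∀ v : ℝ, 0 ≤ v → v / (D.t : ℝ) ^ 5 ≤ v / 100 := fun v hv =>
    div_le_div_of_nonneg_left hv (by norm_num) t5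
  refine ⟨fun x => ?_, fun y => ?_, ?_, eta0, ?_⟩
  · have e1 := abs_le.1 (hD.res.degX x)
    have e2 := key (eta D.t * D.d) (by positivity)
    constructor <;> linarith [e1.1, e1.2]
  · have e1 := abs_le.1 (hD.res.degY y)
    have e2 := key (eta D.t * D.κ) (by positivity)
    constructor <;> linarith [e1.1, e1.2]
  · unfold eta
    rw [one_div_mul_eq_div, le_div_iff₀ (by positivity)]
    calc (D.t : ℝ) ^ 29 * (D.t : ℝ) ^ 21 = (D.t : ℝ) ^ 50 := by ring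
      _ ≤ (D.κ : ℝ) := h.k1
  · unfold eta
    rw [div_le_one (by positivity)]
    exact le_trans (by norm_num) (pow_t_ge D hD 21 (by norm_num))

end Pool.SCDH
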