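import Pool.Agent.Lib.SCDH.MDefs
import Pool.Agent.Lib.SCDH.G01
import Pool.Agent.Lib.SCDH.G02
import Pool.Agent.Lib.SCDH.G03
import Pool.Agent.Lib.SCDH.G04
import Pool.Agent.Lib.SCDH.N01

/-!
# Row K01 (paper scd_h36.md)
Slots of the colours.
Recipe: slot c y counts c' < c; c itself is in the set of all colours with y in Sin or Zs, so slot < #Sin(y) + #Zs(y) ≤ ρ' #{c : y ∉ OY c} + dvU + t (¬ bY1, ¬ bY2) ≤ (1 + 2/100) κB0/d ≤ s+1 (ctx_rho, ctx_dvU, ctx_theta; t ≤ dvU).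
-/

set_option linter.unusedSectionVars false
set_option linter.unusedVariables false

namespace Pool.SCDH

open Finset Pool.MP_0ccee8_co.Lib2

variable {X Y : Type} [Fintype X] [DecidableEq X] [Fintype Y] [DecidableEq Y]
variable (D : Ctx X Y)

theorem slot_lt (hD : CtxOK D) (φ : D.Lbl) (hG : D.Good φ) (c : Fin D.B) (y : Y) (hy : y ∈ D.Sin φ c ∨ y ∈ D.Zs φ c) :
    D.slot φ c y < D.s + 1 := by
  have hloc := hG.loc (Sum.inr y)
  simp only [Ctx.bad, not_or] at hloc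
  obtain ⟨h1, h2, -, -⟩ := hloc
  simp only [Ctx.bY1, not_lt] at h1
  simp only [Ctx.bY2, not_lt] at h2
  obtain ⟨E, hE⟩ : ∃ E : Finset (Fin D.B), E = univ.filter (fun c' => y ∈ D.Sin φ c' ∨ y ∈ D.Zs φ c') :=
    ⟨_, rfl⟩
  have hcE : c ∈ E := by
    rw [hE]; exact Finset.mem_filter.2 ⟨Finset.mem_univ _, hy⟩
  have hslot : D.slot φ c y < E.card := by
    unfold Ctx.slot
    refine Finset.card_lt_card ?_
    rw [Finset.ssubset_iff_of_subset]
    · refine ⟨c, hcE, ?_⟩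
      simp
    · intro c' hc'
      rw [hE]
      exact Finset.mem_filter.2 ⟨Finset.mem_univ _, (Finset.mem_filter.1 hc').2.2⟩
  have hEle : E.card ≤ (univ.filter (fun c => y ∈ D.Sin φ c)).card +
      (univ.filter (fun c => y ∈ D.Zs φ c)).card := by
    rw [hE, Finset.filter_or]
    exact Finset.card_union_le _ _
  have hEr : (E.card : ℝ) ≤ ((univ.filter (fun c => y ∈ D.Sin φ c)).card : ℝ) +
      ((univ.filter (fun c => y ∈ D.Zs φ c)).card : ℝ) := by exact_mod_cast hEle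
  have h2r : ((univ.filter (fun c => y ∈ D.Zs φ c)).card : ℝ) ≤ D.t := by exact_mod_cast h2
  have h1' := (abs_le.1 h1).2
  obtain ⟨-, hr1, hr2, -, hr3, -⟩ := ctx_rho D hD
  obtain ⟨-, -, hB⟩ := ctx_B0 D hD
  obtain ⟨-, -, -, -, -, ht1, -⟩ := ctx_theta D hD
  obtain ⟨hd1, -, -, hd2⟩ := ctx_dvU D hD
  obtain ⟨htt, -⟩ := ctx_t D hD
  obtain ⟨K, hK⟩ : ∃ K : ℝ, K = (D.κ : ℝ) * D.B0 / D.d := ⟨_, rfl⟩
  rw [← hK] at ht1 hd1 hd2
  have hrho0 : 0 ≤ D.rho' := hr3.le.trans hr1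
  have hcard : ((univ.filter (fun c => y ∉ D.O.OY c)).card : ℝ) ≤ D.B0 := by
    have : (univ.filter (fun c => y ∉ D.O.OY c)).card ≤ D.B := by
      refine (Finset.card_filter_le _ _).trans ?_
      simp
    have : ((univ.filter (fun c => y ∉ D.O.OY c)).card : ℝ) ≤ D.B := by exact_mod_cast this
    linarith
  have hmain : D.rho' * ((univ.filter (fun c => y ∉ D.O.OY c)).card : ℝ) ≤ K := by
    rw [hK]
    calc D.rho' * ((univ.filter (fun c => y ∉ D.O.OY c)).card : ℝ)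
        ≤ ((D.κ : ℝ) / D.d) * D.B0 :=
          mul_le_mul hr2 hcard (by positivity) (by positivity)
      _ = (D.κ : ℝ) * D.B0 / D.d := by ring
  have ht0 : (1 : ℝ) ≤ D.t := le_trans (by norm_num) htt
  have ht30 : (100 : ℝ) * D.t ≤ (D.t : ℝ) ^ 30 / 2 := by
    have h3 : (200 : ℝ) ≤ (D.t : ℝ) ^ 29 := by
      calc (200 : ℝ) ≤ D.t := le_trans (by norm_num) htt
        _ = (D.t : ℝ) ^ 1 := (pow_one _).symm
        _ ≤ (D.t : ℝ) ^ 29 := pow_le_pow_right₀ ht0 (by norm_num)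
    have h4 : (D.t : ℝ) ^ 30 = D.t ^ 29 * D.t := by ring
    rw [h4]
    nlinarith
  have hK0 : 0 ≤ K := by
    rw [hK]; positivity
  have hfin : (E.card : ℝ) ≤ (D.s : ℝ) + 1 := by
    linarith
  have hfin' : E.card ≤ D.s + 1 := by exact_mod_cast hfin
  omega

theorem slot_mono (φ : D.Lbl) (c c' : Fin D.B) (h : c < c') (y : Y) (hy : y ∈ D.Sin φ c ∨ y ∈ D.Zs φ c) :
    D.slot φ c y < D.slot φ c' y := by
  unfold Ctx.slot
  refine Finset.card_lt_card ?_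
  rw [Finset.ssubset_iff_of_subset]
  · refine ⟨c, Finset.mem_filter.2 ⟨Finset.mem_univ _, h, hy⟩, ?_⟩
    simp
  · intro c'' hc''
    obtain ⟨-, h1, h2⟩ := Finset.mem_filter.1 hc''
    exact Finset.mem_filter.2 ⟨Finset.mem_univ _, h1.trans h, h2⟩

theorem mem_Sc (φ : D.Lbl) (c : Fin D.B) (y : Y) (hy : y ∈ D.Sc φ c) :
    y ∉ D.O.OY c ∧ y ∈ D.Sin φ c ∧ y ∉ D.Zs φ c := by
  unfold Ctx.Sc at hy
  obtain ⟨h1, h2⟩ := Finset.mem_sdiff.1 hy
  refine ⟨?_, h1, h2⟩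
  unfold Ctx.Sin at h1
  exact (Finset.mem_filter.1 h1).2.1

end Pool.SCDH
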