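import Pool.Agent.Lib.SCDH.MDefs
import Pool.Agent.Lib.SCDH.G01
import Pool.Agent.Lib.SCDH.G02
import Pool.Agent.Lib.SCDH.G03
import Pool.Agent.Lib.SCDH.G04
import Pool.Agent.Lib.SCDH.N01
import Pool.Agent.Lib.SCDH.K01

/-!
# Row K02 (paper scd_h36.md)
Degrees of F into Sc, Sin, the half; Hb into Sc.
Recipe: ¬ bX2: e_F(x,Sc) = ρ₁ (dgX F x - e_F(x,OY c)) ± √(ηκ) t with e_F(x, OY c) ≤ n/t^26 (o3X) ≤ 2 η d/t^5, ctx_F, ctx_rho, √(ηκ) t ≤ ηκ/100. e_F(x,Sin) ≤ e_F(x,Sc) + e_G(x,Zs) ≤ .. + t (¬ bX6). ¬ bX1: e_H(x,Sc) ≤ ρ₁ d + √κ t ≤ 2κ. ¬ bX3.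
-/

set_option linter.unusedSectionVars false
set_option linter.unusedVariables false

namespace Pool.SCDH

open Finset Pool.MP_0ccee8_co.Lib2

variable {X Y : Type} [Fintype X] [DecidableEq X] [Fintype Y] [DecidableEq Y]
variable (D : Ctx X Y)

theorem degFS (hD : CtxOK D) (φ : D.Lbl) (hG : D.Good φ) (c : Fin D.B) (x : X) :
    9 / 10 * (eta D.t * D.κ) ≤ (eB D.F {x} (D.Sc φ c) : ℝ) ∧
    (eB D.F {x} (D.Sc φ c) : ℝ) ≤ 11 / 10 * (eta D.t * D.κ) ∧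
    (eB D.F {x} (D.Sin φ c) : ℝ) ≤ 12 / 10 * (eta D.t * D.κ) ∧
    eta D.t * D.κ / 16 ≤ (eB D.F {x} (D.Sh φ c 0) : ℝ) ∧
    eB D.Hb {x} (D.Sc φ c) ≤ 4 * D.κ := by
  have hloc := hG.loc (Sum.inl x)
  simp only [Ctx.bad, not_exists, not_or] at hloc
  obtain ⟨h1, h2, h3, -, -, h6⟩ := hloc c
  simp only [Ctx.bX1, not_lt] at h1
  simp only [Ctx.bX2, not_lt] at h2
  have h3 := h3 0
  simp only [Ctx.bX3, not_lt] at h3
  simp only [Ctx.bX6, not_lt] at h6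
  obtain ⟨hr0, hr1, hr2, -, hr3, -⟩ := ctx_rho D hD
  obtain ⟨htt, -⟩ := ctx_t D hD
  obtain ⟨hk50, hkd, hdn, hnd⟩ := ctx_deg D hD
  obtain ⟨hFX, -, hK29, heta0, -⟩ := ctx_F D hD
  obtain ⟨hFx1, hFx2⟩ := hFX x
  have ht0 : (1 : ℝ) ≤ D.t := le_trans (by norm_num) htt
  have ht00 : (0 : ℝ) < D.t := by linarith
  have ht200 : (1000 : ℝ) ≤ D.t := le_trans (by norm_num) htt
  have hk0 : (0 : ℝ) < D.κ := lt_of_lt_of_le (by positivity) hk50
  have hd0 : (0 : ℝ) < D.d := lt_of_lt_of_le hk0 hkd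
  obtain ⟨K, hK⟩ : ∃ K : ℝ, K = eta D.t * D.κ := ⟨_, rfl⟩
  rw [← hK] at h2 h3 hK29
  rw [← hK]
  have hK0 : 0 < K := lt_of_lt_of_le (by positivity) hK29
  have hpow : ∀ m : ℕ, 1 ≤ m → (1000 : ℝ) ≤ (D.t : ℝ) ^ m := by
    intro m hm
    calc (1000 : ℝ) ≤ D.t := ht200
      _ = (D.t : ℝ) ^ 1 := (pow_one _).symm
      _ ≤ (D.t : ℝ) ^ m := pow_le_pow_right₀ ht0 hm
  have hK2 : (100 * (D.t : ℝ)) ^ 2 ≤ K := by
    have e1 : (D.t : ℝ) ^ 29 = D.t ^ 2 * (D.t ^ 13 * D.t ^ 14) := by ring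
    have e2 : (10000 : ℝ) ≤ (D.t : ℝ) ^ 13 * D.t ^ 14 := by
      have := hpow 13 (by norm_num)
      have := hpow 14 (by norm_num)
      nlinarith
    have e3 : (0 : ℝ) ≤ (D.t : ℝ) ^ 2 := by positivity
    nlinarith
  have hsq : Real.sqrt K * D.t ≤ K / 100 := by
    have e1 : 100 * (D.t : ℝ) ≤ Real.sqrt K := Real.le_sqrt_of_sq_le hK2
    have e2 : Real.sqrt K * Real.sqrt K = K := Real.mul_self_sqrt hK0.le
    nlinarith [Real.sqrt_nonneg K]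
  have htK : (D.t : ℝ) ≤ K / 100 := by
    have e1 : (1 : ℝ) ≤ D.t := ht0
    nlinarith
  -- F edges into OY c
  have hOY : (eB D.F {x} (D.O.OY c) : ℝ) ≤ 2 * (eta D.t * D.d) / 1000 := by
    have e1 : eB D.F {x} (D.O.OY c) ≤ eB D.H.G {x} (D.O.OY c) :=
      eB_mono D.F D.H.G hD.res.sub {x} {x} (Finset.Subset.refl _) _ _ (Finset.Subset.refl _)
    have e2 := hD.out.o3X c x
    have e3 : (D.t : ℝ) ^ 26 * (eB D.H.G {x} (D.O.OY c) : ℝ) ≤ D.n := by exact_mod_cast e2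
    have e4 : (eB D.F {x} (D.O.OY c) : ℝ) ≤ (eB D.H.G {x} (D.O.OY c) : ℝ) := by exact_mod_cast e1
    have e5 : (D.t : ℝ) ^ 26 * (eB D.F {x} (D.O.OY c) : ℝ) ≤ 2 * D.d := by
      have : (D.t : ℝ) ^ 26 * (eB D.F {x} (D.O.OY c) : ℝ) ≤
          (D.t : ℝ) ^ 26 * (eB D.H.G {x} (D.O.OY c) : ℝ) := mul_le_mul_of_nonneg_left e4 (by positivity)
      linarith
    have e6 : (eB D.F {x} (D.O.OY c) : ℝ) ≤ 2 * D.d / (D.t : ℝ) ^ 26 := by
      rw [le_div_iff₀ (by positivity)]; linarith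
    have e7 : 2 * (D.d : ℝ) / (D.t : ℝ) ^ 26 = 2 * (eta D.t * D.d) / (D.t : ℝ) ^ 5 := by
      unfold eta
      field_simp
    rw [e7] at e6
    refine e6.trans ?_
    have e8 : 0 ≤ 2 * (eta D.t * D.d) := by positivity
    exact div_le_div_of_nonneg_left e8 (by norm_num) (hpow 5 (by norm_num))
  have hcomp : (eB D.F {x} (D.O.OY c) : ℝ) + (eB D.F {x} (D.O.OY c)ᶜ : ℝ) = dgX D.F x := by
    have := eB_complY D.F {x} (D.O.OY c)
    unfold dgX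
    exact_mod_cast this
  have hOY0 : (0 : ℝ) ≤ (eB D.F {x} (D.O.OY c) : ℝ) := by positivity
  have hlo : 98 / 100 * (eta D.t * D.d) ≤ (eB D.F {x} (D.O.OY c)ᶜ : ℝ) := by
    have : 0 ≤ eta D.t * D.d := by positivity
    linarith
  have hhi : (eB D.F {x} (D.O.OY c)ᶜ : ℝ) ≤ 101 / 100 * (eta D.t * D.d) := by linarith
  have hed : (D.κ : ℝ) / D.d * (eta D.t * D.d) = K := by
    rw [hK]; field_simp
  have hplo : 97 / 100 * K ≤ D.rho1 * (eB D.F {x} (D.O.OY c)ᶜ : ℝ) := by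
    have e1 : (99 / 100 * ((D.κ : ℝ) / D.d)) * (98 / 100 * (eta D.t * D.d)) ≤
        D.rho1 * (eB D.F {x} (D.O.OY c)ᶜ : ℝ) :=
      mul_le_mul hr0 hlo (by positivity) hr3.le
    have e2 : (99 / 100 * ((D.κ : ℝ) / D.d)) * (98 / 100 * (eta D.t * D.d)) =
        (99 * 98 / 10000) * ((D.κ : ℝ) / D.d * (eta D.t * D.d)) := by ring
    rw [e2, hed] at e1
    linarith
  have hphi : D.rho1 * (eB D.F {x} (D.O.OY c)ᶜ : ℝ) ≤ 101 / 100 * K := by
    have e1 : D.rho1 * (eB D.F {x} (D.O.OY c)ᶜ : ℝ) ≤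
        ((D.κ : ℝ) / D.d) * (101 / 100 * (eta D.t * D.d)) :=
      mul_le_mul (hr1.trans hr2) hhi (by positivity) (by positivity)
    have e2 : ((D.κ : ℝ) / D.d) * (101 / 100 * (eta D.t * D.d)) =
        101 / 100 * ((D.κ : ℝ) / D.d * (eta D.t * D.d)) := by ring
    rw [e2, hed] at e1
    exact e1
  obtain ⟨h2a, h2b⟩ := abs_le.1 h2
  have hS2 : (eB D.F {x} (D.Sc φ c) : ℝ) ≤ 102 / 100 * K := by linarith
  refine ⟨by linarith, by linarith, ?_, by linarith, ?_⟩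
  · have e1 : eB D.F {x} (D.Sin φ c) ≤ eB D.F {x} (D.Sc φ c) + eB D.F {x} (D.Zs φ c) := by
      unfold eB
      refine le_trans (Finset.card_le_card ?_) (Finset.card_union_le _ _)
      intro e he
      obtain ⟨he1, he2, he3⟩ := Finset.mem_filter.1 he
      rw [Finset.mem_union, Finset.mem_filter, Finset.mem_filter]
      by_cases hz : e.2 ∈ D.Zs φ c
      · exact Or.inr ⟨he1, he2, hz⟩
      · exact Or.inl ⟨he1, he2, Finset.mem_sdiff.2 ⟨he3, hz⟩⟩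
    have e2 : eB D.F {x} (D.Zs φ c) ≤ eB D.H.G {x} (D.Zs φ c) :=
      eB_mono D.F D.H.G hD.res.sub {x} {x} (Finset.Subset.refl _) _ _ (Finset.Subset.refl _)
    have e3 : (eB D.F {x} (D.Sin φ c) : ℝ) ≤ (eB D.F {x} (D.Sc φ c) : ℝ) + D.t := by
      exact_mod_cast e1.trans (Nat.add_le_add_left (e2.trans h6) _)
    linarith
  · have e1 : eB D.Hb {x} (D.O.OY c)ᶜ ≤ D.d := by
      refine le_trans ?_ (dgX_le D.H D.Hb hD.bulk.sub x)
      unfold dgX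
      exact eB_mono D.Hb D.Hb (Finset.Subset.refl _) {x} {x} (Finset.Subset.refl _) _ _
        (Finset.subset_univ _)
    have e2 : (eB D.Hb {x} (D.O.OY c)ᶜ : ℝ) ≤ D.d := by exact_mod_cast e1
    have e3 : D.rho1 * (eB D.Hb {x} (D.O.OY c)ᶜ : ℝ) ≤ D.κ := by
      calc D.rho1 * (eB D.Hb {x} (D.O.OY c)ᶜ : ℝ) ≤ ((D.κ : ℝ) / D.d) * D.d :=
            mul_le_mul (hr1.trans hr2) e2 (by positivity) (by positivity)
        _ = D.κ := by field_simp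
    have e4 : Real.sqrt D.κ * D.t ≤ D.κ := by
      have f1 : (D.t : ℝ) ≤ Real.sqrt D.κ := by
        refine Real.le_sqrt_of_sq_le (le_trans ?_ hk50)
        exact pow_le_pow_right₀ ht0 (by norm_num)
      have f2 : Real.sqrt D.κ * Real.sqrt D.κ = D.κ := Real.mul_self_sqrt hk0.le
      nlinarith [Real.sqrt_nonneg (D.κ : ℝ)]
    have e5 := (abs_le.1 h1).2
    have e6 : (eB D.Hb {x} (D.Sc φ c) : ℝ) ≤ 4 * D.κ := by linarith
    exact_mod_cast e6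

theorem degFSX (φ : D.Lbl) (c : Fin D.B) (x : X) : dgX (D.FS φ c) x = eB D.F {x} (D.Sc φ c) := by
  unfold dgX eB Ctx.FS rs
  rw [Finset.filter_filter]
  congr 1
  refine Finset.filter_congr fun e _ => ?_
  simp [and_comm]

theorem degFSY (φ : D.Lbl) (c : Fin D.B) (y : Y) :
    dgY (D.FS φ c) y = if y ∈ D.Sc φ c then dgY D.F y else 0 := by
  unfold dgY eB Ctx.FS rs
  rw [Finset.filter_filter]
  split_ifs with h
  · congr 1
    refine Finset.filter_congr fun e _ => ?_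
    simp only [Finset.mem_univ, true_and, Finset.mem_singleton]
    constructor
    · exact fun h1 => h1.2
    · intro h1
      exact ⟨by rw [h1]; exact h, h1⟩
  · rw [Finset.card_eq_zero, Finset.filter_eq_empty_iff]
    rintro e - ⟨h1, -, h2⟩
    rw [Finset.mem_singleton] at h2
    rw [h2] at h1
    exact h h1

end Pool.SCDH
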