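import Pool.Agent.Lib.SCDH.MDefs
import Pool.Agent.Lib.SCDH.G01
import Pool.Agent.Lib.SCDH.G02
import Pool.Agent.Lib.SCDH.G03
import Pool.Agent.Lib.SCDH.G04
import Pool.Agent.Lib.SCDH.N01
import Pool.Agent.Lib.SCDH.K01
import Pool.Agent.Lib.SCDH.K02

/-!
# Row K03 (paper scd_h36.md)
Degrees of the private graphs.
Recipe: x ∉ OX: dgX Pc x - q = [dgX Pc x - θ e_H(x,Sc)] + θ[e_H(x,Sc) - ρ₁ e_H(x,OYᶜ)] + θρ₁[(D_x - avX) - e_H(x,OY)]: ≤ t^12 (¬ bX4; all slots of Sc are ≤ s by K01) + θ√κ t + θρ₁(n/t^5 + n/t^26) (bulk.devX, o3X), compare with q ≥ 0.24 ε θκ and q ≥ ε t^20/20 ≥ 10^90 t^19·.. (ε t ≥ 10^100). y ∈ Sc or Sin or Zs: ¬ bY3 with i = slot: #{x ∉ OX, (x,y) ∈ Hb, own = slot} = θ e_H(OXᶜ,y) ± t^12; θ e_H(OXᶜ,y) - q = θ[(D_y - avY) - e_H(OX,y) + (κ/d - ρ₁) avX] (host_avY: avY = (κ/d) avX), bounded by θ(κ/t^5 + κ/t^26 + 3/t^26). Rg: ¬ bX5, ¬ bY4.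
-/

set_option linter.unusedSectionVars false
set_option linter.unusedVariables false

namespace Pool.SCDH

open Finset Pool.MP_0ccee8_co.Lib2

variable {X Y : Type} [Fintype X] [DecidableEq X] [Fintype Y] [DecidableEq Y]
variable (D : Ctx X Y)

private theorem k03_dgX (Γ : Finset (X × Y)) (x : X) :
    dgX Γ x = (univ.filter (fun y => (x, y) ∈ Γ)).card := by
  unfold dgX eB
  refine Finset.card_nbij' (fun e => e.2) (fun y => (x, y)) ?_ ?_ ?_ ?_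
  · intro e he
    simp only [Finset.coe_filter, Finset.mem_singleton, Finset.mem_univ, and_true,
      Set.mem_ofPred_eq] at he
    obtain ⟨h1, h2⟩ := he
    simp only [Finset.coe_filter, Finset.mem_univ, true_and, Set.mem_ofPred_eq]
    rw [← h2]
    exact h1
  · intro y hy
    simp only [Finset.coe_filter, Finset.mem_univ, true_and, Set.mem_ofPred_eq] at hy
    simp only [Finset.coe_filter, Finset.mem_singleton, Finset.mem_univ, and_true,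
      Set.mem_ofPred_eq]
    exact hy
  · intro e he
    simp only [Finset.coe_filter, Finset.mem_singleton, Finset.mem_univ, and_true,
      Set.mem_ofPred_eq] at he
    exact Prod.ext he.2.symm rfl
  · intro y _
    rfl

private theorem k03_dgY (Γ : Finset (X × Y)) (y : Y) :
    dgY Γ y = (univ.filter (fun x => (x, y) ∈ Γ)).card := by
  unfold dgY eB
  refine Finset.card_nbij' (fun e => e.1) (fun x => (x, y)) ?_ ?_ ?_ ?_
  · intro e he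
    simp only [Finset.coe_filter, Finset.mem_singleton, Finset.mem_univ, true_and,
      Set.mem_ofPred_eq] at he
    obtain ⟨h1, h2⟩ := he
    simp only [Finset.coe_filter, Finset.mem_univ, true_and, Set.mem_ofPred_eq]
    rw [← h2]
    exact h1
  · intro x hx
    simp only [Finset.coe_filter, Finset.mem_univ, true_and, Set.mem_ofPred_eq] at hx
    simp only [Finset.coe_filter, Finset.mem_singleton, Finset.mem_univ, true_and,
      Set.mem_ofPred_eq]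
    exact ⟨hx, trivial⟩
  · intro e he
    simp only [Finset.coe_filter, Finset.mem_singleton, Finset.mem_univ, true_and,
      Set.mem_ofPred_eq] at he
    exact Prod.ext rfl he.2.symm
  · intro x _
    rfl

private theorem k03_eB (Γ : Finset (X × Y)) (x : X) (N : Finset Y) :
    eB Γ {x} N = (univ.filter (fun y => y ∈ N ∧ (x, y) ∈ Γ)).card := by
  unfold eB
  refine Finset.card_nbij' (fun e => e.2) (fun y => (x, y)) ?_ ?_ ?_ ?_
  · intro e he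
    simp only [Finset.coe_filter, Finset.mem_singleton, Set.mem_ofPred_eq] at he
    obtain ⟨h1, h2, h3⟩ := he
    simp only [Finset.coe_filter, Finset.mem_univ, true_and, Set.mem_ofPred_eq]
    rw [← h2]
    exact ⟨h3, h1⟩
  · intro y hy
    simp only [Finset.coe_filter, Finset.mem_univ, true_and, Set.mem_ofPred_eq] at hy
    simp only [Finset.coe_filter, Finset.mem_singleton, Set.mem_ofPred_eq, true_and]
    exact ⟨hy.2, hy.1⟩
  · intro e he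
    simp only [Finset.coe_filter, Finset.mem_singleton, Set.mem_ofPred_eq] at he
    exact Prod.ext he.2.1.symm rfl
  · intro y _
    rfl

private theorem k03_num (hD : CtxOK D) :
    (D.t : ℝ) ^ 12 ≤ D.q / 50 ∧ D.theta * (Real.sqrt D.κ * D.t) ≤ D.q / 50 ∧
    D.theta * ((D.κ : ℝ) / (D.t : ℝ) ^ 5) ≤ D.q / 100 ∧
    D.theta * ((D.κ : ℝ) / (D.t : ℝ) ^ 26) ≤ D.q / 300 ∧ 0 < D.q ∧ (D.t : ℝ) ^ 19 ≤ D.q := by
  obtain ⟨ht, het, he0, he1⟩ := ctx_t D hD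
  obtain ⟨hk50, hkd, hdn, hnd⟩ := ctx_deg D hD
  obtain ⟨a1, a2, a3, a4, a5, a6, a7⟩ := ctx_theta D hD
  obtain ⟨q1, q2, q3⟩ := ctx_q D hD
  have t0 : (0 : ℝ) < D.t := lt_of_lt_of_le (by positivity) ht
  have t1 : (1 : ℝ) ≤ D.t := le_trans (by norm_num) ht
  have k0 : (0 : ℝ) < D.κ := lt_of_lt_of_le (by positivity) hk50
  have hbig : (1000000 : ℝ) ≤ (10 : ℝ) ^ 100 := by norm_num
  have hpow : ∀ m : ℕ, (1000000 : ℝ) * (D.t : ℝ) ^ m ≤ D.ε * (D.t : ℝ) ^ (m + 1) := by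
    intro m
    have e1 : D.ε * (D.t : ℝ) ^ (m + 1) = (D.ε * D.t) * (D.t : ℝ) ^ m := by ring
    rw [e1]
    exact mul_le_mul_of_nonneg_right (le_trans hbig het) (by positivity)
  have h1m : ∀ m : ℕ, (1 : ℝ) ≤ (D.t : ℝ) ^ m := fun m => one_le_pow₀ t1
  have h19 : 50000 * (D.t : ℝ) ^ 19 ≤ D.q := by
    have e2 : (1000000 : ℝ) * (D.t : ℝ) ^ 19 ≤ D.ε * (D.t : ℝ) ^ 20 := hpow 19
    have e3 : (0 : ℝ) ≤ (D.t : ℝ) ^ 19 := by positivity
    linarith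
  have h12 : (D.t : ℝ) ^ 12 ≤ (D.t : ℝ) ^ 19 := pow_le_pow_right₀ t1 (by norm_num)
  have h19p := h1m 19
  have hεκ : D.theta * (24 / 100 * D.ε * D.κ) ≤ D.q := by
    refine le_trans (le_of_eq ?_) q1
    ring
  have hstep : ∀ (a c : ℝ), a ≤ c * (24 / 100 * D.ε * D.κ) → 0 ≤ c →
      D.theta * a ≤ c * D.q := by
    intro a c h hc
    calc D.theta * a ≤ D.theta * (c * (24 / 100 * D.ε * D.κ)) :=
          mul_le_mul_of_nonneg_left h a3.le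
      _ = c * (D.theta * (24 / 100 * D.ε * D.κ)) := by ring
      _ ≤ c * D.q := mul_le_mul_of_nonneg_left hεκ hc
  refine ⟨by linarith, ?_, ?_, ?_, by linarith, by linarith⟩
  · have hs0 : 0 < Real.sqrt (D.κ : ℝ) := Real.sqrt_pos.mpr k0
    have hs25 : (D.t : ℝ) ^ 25 ≤ Real.sqrt (D.κ : ℝ) := by
      apply Real.le_sqrt_of_sq_le
      rw [← pow_mul]
      exact hk50
    have hss : Real.sqrt (D.κ : ℝ) * Real.sqrt (D.κ : ℝ) = D.κ := Real.mul_self_sqrt k0.le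
    have e1 : (1000000 : ℝ) * (D.t : ℝ) ≤ D.ε * Real.sqrt (D.κ : ℝ) := by
      have e2 : (1000000 : ℝ) * (D.t : ℝ) ^ 24 ≤ D.ε * (D.t : ℝ) ^ 25 := hpow 24
      have e3 : (D.t : ℝ) ≤ (D.t : ℝ) ^ 24 := le_self_pow₀ t1 (by norm_num)
      have e4 : D.ε * (D.t : ℝ) ^ 25 ≤ D.ε * Real.sqrt (D.κ : ℝ) :=
        mul_le_mul_of_nonneg_left hs25 he0.le
      linarith
    have e5 : Real.sqrt (D.κ : ℝ) * D.t ≤ 1 / 50 * (24 / 100 * D.ε * D.κ) := by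
      calc Real.sqrt (D.κ : ℝ) * D.t
          ≤ Real.sqrt (D.κ : ℝ) * (1 / 50 * (24 / 100) * (D.ε * Real.sqrt (D.κ : ℝ))) := by
            refine mul_le_mul_of_nonneg_left ?_ hs0.le
            linarith
        _ = 1 / 50 * (24 / 100 * D.ε * (Real.sqrt (D.κ : ℝ) * Real.sqrt (D.κ : ℝ))) := by ring
        _ = _ := by rw [hss]
    have := hstep _ _ e5 (by norm_num)
    linarith
  · have e1 : (D.κ : ℝ) / (D.t : ℝ) ^ 5 ≤ 1 / 100 * (24 / 100 * D.ε * D.κ) := by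
      rw [div_le_iff₀ (by positivity)]
      have e2 : (1000000 : ℝ) * (D.t : ℝ) ^ 4 ≤ D.ε * (D.t : ℝ) ^ 5 := hpow 4
      have e3 := h1m 4
      have e4 : (1 : ℝ) ≤ 1 / 100 * (24 / 100) * (D.ε * (D.t : ℝ) ^ 5) := by linarith
      calc (D.κ : ℝ) = D.κ * 1 := by ring
        _ ≤ D.κ * (1 / 100 * (24 / 100) * (D.ε * (D.t : ℝ) ^ 5)) :=
          mul_le_mul_of_nonneg_left e4 k0.le
        _ = _ := by ring
    have := hstep _ _ e1 (by norm_num)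
    linarith
  · have e1 : (D.κ : ℝ) / (D.t : ℝ) ^ 26 ≤ 1 / 300 * (24 / 100 * D.ε * D.κ) := by
      rw [div_le_iff₀ (by positivity)]
      have e2 : (1000000 : ℝ) * (D.t : ℝ) ^ 25 ≤ D.ε * (D.t : ℝ) ^ 26 := hpow 25
      have e3 := h1m 25
      have e4 : (1 : ℝ) ≤ 1 / 300 * (24 / 100) * (D.ε * (D.t : ℝ) ^ 26) := by linarith
      calc (D.κ : ℝ) = D.κ * 1 := by ring
        _ ≤ D.κ * (1 / 300 * (24 / 100) * (D.ε * (D.t : ℝ) ^ 26)) :=
          mul_le_mul_of_nonneg_left e4 k0.le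
        _ = _ := by ring
    have := hstep _ _ e1 (by norm_num)
    linarith

private theorem k03_avX (hD : CtxOK D) :
    0 ≤ avX (fun x => (dgX D.Hb x : ℝ)) ∧ avX (fun x => (dgX D.Hb x : ℝ)) ≤ D.d := by
  obtain ⟨hk50, hkd, hdn, hnd⟩ := ctx_deg D hD
  unfold avX
  refine ⟨div_nonneg (Finset.sum_nonneg fun x _ => Nat.cast_nonneg _) (Nat.cast_nonneg _), ?_⟩
  rcases (Nat.cast_nonneg (α := ℝ) (Fintype.card X)).eq_or_lt with h0 | h0
  · rw [← h0, div_zero]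
    exact Nat.cast_nonneg _
  rw [div_le_iff₀ h0]
  calc ∑ x, (dgX D.Hb x : ℝ) ≤ ∑ _x : X, (D.d : ℝ) := by
        refine Finset.sum_le_sum fun x _ => ?_
        exact_mod_cast dgX_le D.H D.Hb hD.bulk.sub x
    _ = D.d * Fintype.card X := by
      rw [Finset.sum_const, Finset.card_univ, nsmul_eq_mul]
      ring

theorem degPcX (hD : CtxOK D) (φ : D.Lbl) (hG : D.Good φ) (c : Fin D.B) (x : X) (hx : x ∉ D.O.OX c) : |(dgX (D.Pc φ c) x : ℝ) - D.q| ≤ D.q / 8 := by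
  have hloc := hG.loc (Sum.inl x)
  simp only [Ctx.bad, not_exists, not_or] at hloc
  obtain ⟨h1, -, -, h4, -, -⟩ := hloc c
  simp only [Ctx.bX1, not_lt] at h1
  have hFS := degFS D hD φ hG c x
  have h4' : |(dgX (D.Pc φ c) x : ℝ) - D.theta * ((univ.filter (fun y => y ∈ D.Sc φ c ∧
      (x, y) ∈ D.Hb ∧ D.slot φ c y < D.s + 1)).card : ℝ)| ≤ (D.t : ℝ) ^ 12 := by
    by_contra hcon
    exact h4 ⟨hx, hFS.2.2.2.2, not_le.mp hcon⟩
  have e1 : (univ.filter (fun y => y ∈ D.Sc φ c ∧ (x, y) ∈ D.Hb ∧ D.slot φ c y < D.s + 1)) =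
      univ.filter (fun y => y ∈ D.Sc φ c ∧ (x, y) ∈ D.Hb) := by
    refine Finset.filter_congr fun y _ => ?_
    constructor
    · rintro ⟨a, b, -⟩
      exact ⟨a, b⟩
    · rintro ⟨a, b⟩
      exact ⟨a, b, slot_lt D hD φ hG c y (Or.inl (mem_Sc D φ c y a).2.1)⟩
  rw [e1, ← k03_eB] at h4'
  obtain ⟨n1, n2, n3, n4, n5, n6⟩ := k03_num D hD
  obtain ⟨hr0, hr1, hr2, -, hr3, -⟩ := ctx_rho D hD
  obtain ⟨htt, -⟩ := ctx_t D hD
  obtain ⟨hk50, hkd, hdn, hnd⟩ := ctx_deg D hD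
  obtain ⟨a1, a2, a3, a4, a5, a6, a7⟩ := ctx_theta D hD
  have t0 : (0 : ℝ) < D.t := lt_of_lt_of_le (by positivity) htt
  have k0 : (0 : ℝ) < D.κ := lt_of_lt_of_le (by positivity) hk50
  have d0 : (0 : ℝ) < D.d := lt_of_lt_of_le k0 hkd
  have hdev := hD.bulk.devX x
  have hcompl : (eB D.Hb {x} (D.O.OY c) : ℝ) + (eB D.Hb {x} (D.O.OY c)ᶜ : ℝ) = (dgX D.Hb x : ℝ) := by
    exact_mod_cast eB_complY D.Hb {x} (D.O.OY c)
  have hOY : (eB D.Hb {x} (D.O.OY c) : ℝ) ≤ D.n / (D.t : ℝ) ^ 26 := by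
    rw [le_div_iff₀ (by positivity)]
    have h5 : D.t ^ 26 * eB D.Hb {x} (D.O.OY c) ≤ D.n :=
      (Nat.mul_le_mul_left _ (eB_mono _ _ hD.bulk.sub _ _ (Finset.Subset.refl _) _ _
        (Finset.Subset.refl _))).trans (hD.out.o3X c x)
    have h6 : (D.t : ℝ) ^ 26 * (eB D.Hb {x} (D.O.OY c) : ℝ) ≤ D.n := by exact_mod_cast h5
    linarith
  have hOY0 : (0 : ℝ) ≤ (eB D.Hb {x} (D.O.OY c) : ℝ) := Nat.cast_nonneg _
  have hρn : D.rho1 * D.n ≤ 2 * D.κ := by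
    calc D.rho1 * D.n ≤ ((D.κ : ℝ) / D.d) * (2 * D.d) :=
          mul_le_mul (hr1.trans hr2) hnd (Nat.cast_nonneg _) (by positivity)
      _ = 2 * D.κ := by field_simp
  have hA : D.theta * (D.rho1 * (D.n / (D.t : ℝ) ^ 5)) ≤ D.q / 50 := by
    calc D.theta * (D.rho1 * (D.n / (D.t : ℝ) ^ 5)) = D.theta * ((D.rho1 * D.n) / (D.t : ℝ) ^ 5) := by
          ring
      _ ≤ D.theta * ((2 * D.κ) / (D.t : ℝ) ^ 5) := by gcongr
      _ = 2 * (D.theta * (D.κ / (D.t : ℝ) ^ 5)) := by ring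
      _ ≤ D.q / 50 := by linarith
  have hB : D.theta * (D.rho1 * (D.n / (D.t : ℝ) ^ 26)) ≤ D.q / 150 := by
    calc D.theta * (D.rho1 * (D.n / (D.t : ℝ) ^ 26)) = D.theta * ((D.rho1 * D.n) / (D.t : ℝ) ^ 26) := by
          ring
      _ ≤ D.theta * ((2 * D.κ) / (D.t : ℝ) ^ 26) := by gcongr
      _ = 2 * (D.theta * (D.κ / (D.t : ℝ) ^ 26)) := by ring
      _ ≤ D.q / 150 := by linarith
  have hC : |D.theta * (eB D.Hb {x} (D.Sc φ c) : ℝ) -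
      D.theta * (D.rho1 * (eB D.Hb {x} (D.O.OY c)ᶜ : ℝ))| ≤ D.q / 50 := by
    rw [← mul_sub, abs_mul, abs_of_pos a3]
    exact (mul_le_mul_of_nonneg_left h1 a3.le).trans n2
  have hE : |D.theta * (D.rho1 * ((dgX D.Hb x : ℝ) - avX (fun x => (dgX D.Hb x : ℝ))))| ≤ D.q / 50 := by
    rw [abs_mul, abs_mul, abs_of_pos a3, abs_of_pos hr3]
    refine le_trans ?_ hA
    gcongr
  have hF : D.theta * (D.rho1 * (eB D.Hb {x} (D.O.OY c) : ℝ)) ≤ D.q / 150 := by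
    refine le_trans ?_ hB
    gcongr
  have hF0 : 0 ≤ D.theta * (D.rho1 * (eB D.Hb {x} (D.O.OY c) : ℝ)) := by positivity
  have hq : D.q = D.theta * (D.rho1 * avX (fun x => (dgX D.Hb x : ℝ))) := rfl
  have e5 : D.theta * (D.rho1 * (eB D.Hb {x} (D.O.OY c)ᶜ : ℝ)) - D.q =
      D.theta * (D.rho1 * ((dgX D.Hb x : ℝ) - avX (fun x => (dgX D.Hb x : ℝ)))) -
        D.theta * (D.rho1 * (eB D.Hb {x} (D.O.OY c) : ℝ)) := by
    rw [hq, ← hcompl]
    ring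
  rw [abs_le] at h4' hC hE ⊢
  constructor <;> linarith [h4'.1, h4'.2, hC.1, hC.2, hE.1, hE.2]

private theorem k03_Y (hD : CtxOK D) (φ : D.Lbl) (hG : D.Good φ) (c : Fin D.B) (y : Y)
    (S : Finset Y) (hS : y ∈ S) (hy : y ∈ D.Sin φ c ∨ y ∈ D.Zs φ c) :
    |(dgY (D.Pv φ D.Hb S c) y : ℝ) - D.q| ≤ D.q / 8 := by
  have hslot := slot_lt D hD φ hG c y hy
  have hloc := hG.loc (Sum.inr y)
  simp only [Ctx.bad, not_exists, not_or] at hloc
  obtain ⟨-, -, -, h3⟩ := hloc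
  have h3' := (h3 c).1
  simp only [Ctx.bY3, not_exists, not_lt] at h3'
  have h3 := h3' ⟨D.slot φ c y, hslot⟩
  have e1 : dgY (D.Pv φ D.Hb S c) y = (univ.filter (fun x => (x, y) ∈ D.Hb ∧ x ∉ D.O.OX c ∧
      D.own φ (x, y) = D.slot φ c y)).card := by
    rw [k03_dgY]
    congr 1
    refine Finset.filter_congr fun x _ => ?_
    unfold Ctx.Pv
    rw [Finset.mem_filter]
    constructor
    · rintro ⟨a, b, -, d⟩
      exact ⟨a, b, d⟩
    · rintro ⟨a, b, d⟩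
      exact ⟨a, b, hS, d⟩
  have h3a : |(dgY (D.Pv φ D.Hb S c) y : ℝ) - D.theta * (eB D.Hb (D.O.OX c)ᶜ {y} : ℝ)| ≤
      (D.t : ℝ) ^ 12 := by
    rw [e1]
    exact h3
  obtain ⟨n1, n2, n3, n4, n5, n6⟩ := k03_num D hD
  obtain ⟨hr0, hr1, hr2, -, hr3, hr4⟩ := ctx_rho D hD
  obtain ⟨htt, -⟩ := ctx_t D hD
  obtain ⟨hk50, hkd, hdn, hnd⟩ := ctx_deg D hD
  obtain ⟨a1, a2, a3, a4, a5, a6, a7⟩ := ctx_theta D hD
  have t0 : (0 : ℝ) < D.t := lt_of_lt_of_le (by positivity) htt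
  have t1 : (1 : ℝ) ≤ D.t := le_trans (by norm_num) htt
  have k0 : (0 : ℝ) < D.κ := lt_of_lt_of_le (by positivity) hk50
  have k1 : (1 : ℝ) ≤ D.κ := le_trans (one_le_pow₀ t1) hk50
  have d0 : (0 : ℝ) < D.d := lt_of_lt_of_le k0 hkd
  have hdev := hD.bulk.devY y
  have hcompl : (eB D.Hb (D.O.OX c) {y} : ℝ) + (eB D.Hb (D.O.OX c)ᶜ {y} : ℝ) = (dgY D.Hb y : ℝ) := by
    exact_mod_cast eB_complX D.Hb (D.O.OX c) {y}
  have hOX : (eB D.Hb (D.O.OX c) {y} : ℝ) ≤ D.κ / (D.t : ℝ) ^ 26 := by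
    rw [le_div_iff₀ (by positivity)]
    have h5 : D.t ^ 26 * eB D.Hb (D.O.OX c) {y} ≤ D.κ :=
      (Nat.mul_le_mul_left _ (eB_mono _ _ hD.bulk.sub _ _ (Finset.Subset.refl _) _ _
        (Finset.Subset.refl _))).trans (hD.out.o3Y c y)
    have h6 : (D.t : ℝ) ^ 26 * (eB D.Hb (D.O.OX c) {y} : ℝ) ≤ D.κ := by exact_mod_cast h5
    linarith
  have hOX0 : (0 : ℝ) ≤ (eB D.Hb (D.O.OX c) {y} : ℝ) := Nat.cast_nonneg _
  have hav : avY (fun y => (dgY D.Hb y : ℝ)) = (D.κ : ℝ) / D.d * avX (fun x => (dgX D.Hb x : ℝ)) := by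
    have := host_avY D.H D.Hb
    field_simp
    linarith
  obtain ⟨av0, av1⟩ := k03_avX D hD
  have hG1 : D.theta * ((((D.κ : ℝ) / D.d) - D.rho1) * avX (fun x => (dgX D.Hb x : ℝ))) ≤ D.q / 100 := by
    have e2 : (((D.κ : ℝ) / D.d) - D.rho1) * avX (fun x => (dgX D.Hb x : ℝ)) ≤
        3 * (D.κ / (D.t : ℝ) ^ 26) := by
      calc (((D.κ : ℝ) / D.d) - D.rho1) * avX (fun x => (dgX D.Hb x : ℝ))
          ≤ (3 / ((D.t : ℝ) ^ 26 * D.d)) * D.d := mul_le_mul hr4 av1 av0 (by positivity)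
        _ = 3 * (1 / (D.t : ℝ) ^ 26) := by field_simp
        _ ≤ 3 * (D.κ / (D.t : ℝ) ^ 26) := by gcongr
    calc _ ≤ D.theta * (3 * (D.κ / (D.t : ℝ) ^ 26)) := mul_le_mul_of_nonneg_left e2 a3.le
      _ = 3 * (D.theta * (D.κ / (D.t : ℝ) ^ 26)) := by ring
      _ ≤ D.q / 100 := by linarith
  have hG0 : 0 ≤ D.theta * ((((D.κ : ℝ) / D.d) - D.rho1) * avX (fun x => (dgX D.Hb x : ℝ))) := by
    have e3 : 0 ≤ (D.κ : ℝ) / D.d - D.rho1 := by linarith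
    positivity
  have hE : |D.theta * ((dgY D.Hb y : ℝ) - avY (fun y => (dgY D.Hb y : ℝ)))| ≤ D.q / 100 := by
    rw [abs_mul, abs_of_pos a3]
    exact (mul_le_mul_of_nonneg_left hdev a3.le).trans n3
  have hF : D.theta * (eB D.Hb (D.O.OX c) {y} : ℝ) ≤ D.q / 300 :=
    (mul_le_mul_of_nonneg_left hOX a3.le).trans n4
  have hF0 : 0 ≤ D.theta * (eB D.Hb (D.O.OX c) {y} : ℝ) := by positivity
  have hq : D.q = D.theta * (D.rho1 * avX (fun x => (dgX D.Hb x : ℝ))) := rfl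
  have e5 : D.theta * (eB D.Hb (D.O.OX c)ᶜ {y} : ℝ) - D.q =
      D.theta * ((dgY D.Hb y : ℝ) - avY (fun y => (dgY D.Hb y : ℝ))) -
        D.theta * (eB D.Hb (D.O.OX c) {y} : ℝ) +
      D.theta * ((((D.κ : ℝ) / D.d) - D.rho1) * avX (fun x => (dgX D.Hb x : ℝ))) := by
    rw [hq, ← hcompl, hav]
    ring
  rw [abs_le] at h3a hE ⊢
  constructor <;> linarith [h3a.1, h3a.2, hE.1, hE.2]

theorem degPcY (hD : CtxOK D) (φ : D.Lbl) (hG : D.Good φ) (c : Fin D.B) (y : Y) (hy : y ∈ D.Sc φ c) : |(dgY (D.Pc φ c) y : ℝ) - D.q| ≤ D.q / 8 :=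
  k03_Y D hD φ hG c y _ hy (Or.inl (mem_Sc D φ c y hy).2.1)

theorem degPgX (hD : CtxOK D) (φ : D.Lbl) (hG : D.Good φ) (c : Fin D.B) (x : X) (hx : x ∉ D.O.OX c) : D.q / 2 ≤ (dgX (D.Pg φ c) x : ℝ) := by
  have h1 := degPcX D hD φ hG c x hx
  obtain ⟨n1, n2, n3, n4, n5, n6⟩ := k03_num D hD
  have h2 : dgX (D.Pc φ c) x ≤ dgX (D.Pg φ c) x := by
    refine eB_mono _ _ ?_ _ _ (Finset.Subset.refl _) _ _ (Finset.Subset.refl _)
    unfold Ctx.Pc Ctx.Pg Ctx.Pv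
    intro e he
    rw [Finset.mem_filter] at he ⊢
    exact ⟨he.1, he.2.1, (mem_Sc D φ c e.2 he.2.2.1).2.1, he.2.2.2⟩
  have h3 : (dgX (D.Pc φ c) x : ℝ) ≤ (dgX (D.Pg φ c) x : ℝ) := by exact_mod_cast h2
  rw [abs_le] at h1
  linarith [h1.1]

theorem degPgY (hD : CtxOK D) (φ : D.Lbl) (hG : D.Good φ) (c : Fin D.B) (y : Y) (hy : y ∈ D.Sin φ c) : D.q / 2 ≤ (dgY (D.Pg φ c) y : ℝ) := by
  have h1 := k03_Y D hD φ hG c y _ hy (Or.inl hy)
  obtain ⟨n1, n2, n3, n4, n5, n6⟩ := k03_num D hD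
  rw [abs_le] at h1
  have h2 : (dgY (D.Pg φ c) y : ℝ) = (dgY (D.Pv φ D.Hb (D.Sin φ c) c) y : ℝ) := rfl
  rw [h2]
  linarith [h1.1]

theorem degPzY (hD : CtxOK D) (φ : D.Lbl) (hG : D.Good φ) (c : Fin D.B) (y : Y) (hy : y ∈ D.Zs φ c) :
    D.q / 2 ≤ (dgY (D.Pv φ D.Hb (D.Zs φ c) c) y : ℝ) := by
  have h1 := k03_Y D hD φ hG c y _ hy (Or.inr hy)
  obtain ⟨n1, n2, n3, n4, n5, n6⟩ := k03_num D hD
  rw [abs_le] at h1
  linarith [h1.1]

theorem degPg0 (φ : D.Lbl) (c : Fin D.B) : (∀ x ∈ D.O.OX c, dgX (D.Pg φ c) x = 0) ∧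
    ∀ y, y ∉ D.Sin φ c → dgY (D.Pg φ c) y = 0 := by
  refine ⟨fun x hx => ?_, fun y hy => ?_⟩
  · rw [k03_dgX, Finset.card_eq_zero, Finset.filter_eq_empty_iff]
    intro y _ h
    unfold Ctx.Pg Ctx.Pv at h
    rw [Finset.mem_filter] at h
    exact h.2.1 hx
  · rw [k03_dgY, Finset.card_eq_zero, Finset.filter_eq_empty_iff]
    intro x _ h
    unfold Ctx.Pg Ctx.Pv at h
    rw [Finset.mem_filter] at h
    exact hy h.2.2.1

theorem degRg (hD : CtxOK D) (φ : D.Lbl) (hG : D.Good φ) (c : Fin D.B) : (∀ x, dgX (D.Rg φ c) x ≤ D.t) ∧ ∀ y, dgY (D.Rg φ c) y ≤ D.t := by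
  refine ⟨fun x => ?_, fun y => ?_⟩
  · have hloc := hG.loc (Sum.inl x)
    simp only [Ctx.bad, not_exists, not_or] at hloc
    obtain ⟨-, -, -, -, h5, -⟩ := hloc c
    obtain ⟨-, -, hFS, -, -⟩ := degFS D hD φ hG c x
    obtain ⟨-, -, hK29, heta0, -⟩ := ctx_F D hD
    by_contra hcon
    refine h5 ⟨?_, not_le.mp hcon⟩
    have h6 : 0 ≤ eta D.t * D.κ := by positivity
    linarith
  · by_cases hy : y ∈ D.Sin φ c
    · have hslot := slot_lt D hD φ hG c y (Or.inl hy)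
      have hloc := hG.loc (Sum.inr y)
      simp only [Ctx.bad, not_exists, not_or] at hloc
      obtain ⟨-, -, h4, -⟩ := hloc
      simp only [Ctx.bY4, not_exists, not_lt] at h4
      refine le_trans ?_ (h4 ⟨D.slot φ c y, hslot⟩)
      rw [k03_dgY]
      refine Finset.card_le_card fun x hx => ?_
      rw [Finset.mem_filter] at hx ⊢
      have h6 := hx.2
      unfold Ctx.Rg Ctx.Pv at h6
      rw [Finset.mem_filter] at h6
      exact ⟨hx.1, h6.1, h6.2.2.2⟩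
    · have h0 : dgY (D.Rg φ c) y = 0 := by
        rw [k03_dgY, Finset.card_eq_zero, Finset.filter_eq_empty_iff]
        intro x _ h
        unfold Ctx.Rg Ctx.Pv at h
        rw [Finset.mem_filter] at h
        exact hy h.2.2.1
      rw [h0]
      exact Nat.zero_le _

theorem q_large (hD : CtxOK D) : (D.t : ℝ) ^ 19 ≤ D.q ∧ 0 < D.q := by
  obtain ⟨n1, n2, n3, n4, n5, n6⟩ := k03_num D hD
  exact ⟨n6, n5⟩

end Pool.SCDH
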