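import Pool.Agent.Lib.SCDH.MDefs
import Pool.Agent.Lib.SCDH.G01
import Pool.Agent.Lib.SCDH.G02
import Pool.Agent.Lib.SCDH.G03
import Pool.Agent.Lib.SCDH.G04
import Pool.Agent.Lib.SCDH.N01
import Pool.Agent.Lib.SCDH.K01
import Pool.Agent.Lib.SCDH.K03

/-!
# Row D12 (paper scd_h36.md)
Pre-matching of the chosen free vertices.
Recipe: Hall (Finset.all_card_le_biUnion_card_iff_exists_injective or the library file MP_0ccee8_co2/Hall): every y ∈ Z' has ≥ q/2 ≥ t^19/2 ≥ t private edges (degPzY), every x lies on ≤ t of them (¬ bX6: eB G {x} Zs ≤ t): double counting gives |N(S)| ≥ |S|. Last claim: x ∈ image with (x,y) ∈ G is x = f y', y' ∈ Z' ⊆ Zs, (x,y') ∈ G: y' is counted in vZ y, f injective on Z'.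
-/

set_option linter.unusedSectionVars false
set_option linter.unusedVariables false

namespace Pool.SCDH

open Finset Pool.MP_0ccee8_co.Lib2

variable {X Y : Type} [Fintype X] [DecidableEq X] [Fintype Y] [DecidableEq Y]
variable (D : Ctx X Y)

private theorem card_nbX12 (Γ : Finset (X × Y)) (y : Y) :
    (univ.filter (fun x => (x, y) ∈ Γ)).card = dgY Γ y := by
  unfold dgY eB
  refine Finset.card_bij (fun x _ => (x, y)) ?_ ?_ ?_
  · intro x hx
    simpa using hx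
  · intro x _ x' _ h
    exact (Prod.mk.inj h).1
  · rintro ⟨x, y'⟩ h
    simp only [mem_filter, mem_singleton, mem_univ, true_and] at h
    obtain ⟨h1, h2⟩ := h
    subst h2
    exact ⟨x, by simpa using h1, rfl⟩

theorem prematch (hD : CtxOK D) (φ : D.Lbl) (hG : D.Good φ) (c : Fin D.B) (Z' : Finset Y) (hZ : Z' ⊆ D.Zs φ c) :
    ∃ f : Y → X, (∀ y ∈ Z', f y ∉ D.O.OX c ∧ (f y, y) ∈ D.Hb ∧ D.own φ (f y, y) = D.slot φ c y) ∧
      Set.InjOn f Z' ∧ ∀ y, eB D.H.G (Z'.image f) {y} ≤ D.vZ φ c y := by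
  have ht := (ctx_t D hD).1
  have ht1 : (1 : ℝ) ≤ (D.t : ℝ) := le_trans (one_le_pow₀ (by norm_num)) ht
  have ht0 : 0 < D.t := by
    have : (0 : ℝ) < (D.t : ℝ) := by linarith
    exact_mod_cast this
  -- X is nonempty
  have hXne : Nonempty X := by
    have h1 := (ctx_cards D hD).2.2.1
    have h2 := (ctx_n D hD).1
    have h3 : (1 : ℝ) ≤ (D.t : ℝ) ^ 200 := one_le_pow₀ ht1
    have h4 : (1 : ℝ) ≤ (D.n : ℝ) ^ 100 := one_le_pow₀ (by linarith)
    have h5 : (0 : ℝ) < (Fintype.card X : ℝ) := by linarith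
    exact Fintype.card_pos_iff.1 (by exact_mod_cast h5)
  -- degrees
  have hdeg : ∀ y ∈ Z', D.t ≤ (univ.filter (fun x => (x, y) ∈ D.Pv φ D.Hb (D.Zs φ c) c)).card := by
    intro y hy
    rw [card_nbX12]
    have h1 := degPzY D hD φ hG c y (hZ hy)
    have h2 := (q_large D hD).1
    have h3 : (D.t : ℝ) * 2 ≤ (D.t : ℝ) ^ 19 := by
      have h4 : (2 : ℝ) ≤ (D.t : ℝ) ^ 18 := by
        have h5 : (D.t : ℝ) ≤ (D.t : ℝ) ^ 18 := le_self_pow₀ ht1 (by norm_num)
        have h6 : (2 : ℝ) ≤ (D.t : ℝ) := le_trans (by norm_num) ht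
        linarith
      calc (D.t : ℝ) * 2 ≤ (D.t : ℝ) * (D.t : ℝ) ^ 18 := mul_le_mul_of_nonneg_left h4 (by linarith)
        _ = (D.t : ℝ) ^ 19 := by ring
    have h7 : (D.t : ℝ) ≤ (dgY (D.Pv φ D.Hb (D.Zs φ c) c) y : ℝ) := by linarith
    exact_mod_cast h7
  have hx6 : ∀ x : X, eB D.H.G {x} (D.Zs φ c) ≤ D.t := by
    intro x
    have h1 := hG.loc (.inl x)
    by_contra h2
    exact h1 ⟨c, Or.inr (Or.inr (Or.inr (Or.inr (Or.inr (not_le.1 h2)))))⟩
  have hall : ∀ s : Finset {y // y ∈ Z'}, s.card ≤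
      (s.biUnion (fun y => univ.filter (fun x => (x, (y : Y)) ∈ D.Pv φ D.Hb (D.Zs φ c) c))).card := by
    intro s
    have hdc := Finset.card_mul_le_card_mul (s := s)
      (t := s.biUnion (fun y => univ.filter (fun x => (x, (y : Y)) ∈ D.Pv φ D.Hb (D.Zs φ c) c)))
      (fun (y : {y // y ∈ Z'}) (x : X) => (x, (y : Y)) ∈ D.Pv φ D.Hb (D.Zs φ c) c)
      (m := D.t) (n := D.t) ?_ ?_
    · exact Nat.le_of_mul_le_mul_right hdc ht0
    · intro y hy
      refine le_trans (hdeg y.1 y.2) (Finset.card_le_card ?_)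
      intro x hx
      refine Finset.mem_filter.2 ⟨Finset.mem_biUnion.2 ⟨y, hy, hx⟩, ?_⟩
      exact (Finset.mem_filter.1 hx).2
    · intro x _
      refine le_trans ?_ (hx6 x)
      unfold eB
      refine Finset.card_le_card_of_injOn (fun y : {y // y ∈ Z'} => (x, (y : Y))) ?_ ?_
      · intro y hy
        have h1 := (Finset.mem_filter.1 (Finset.mem_coe.1 hy)).2
        have h2 := (Finset.mem_filter.1 h1).1
        refine Finset.mem_coe.2 (Finset.mem_filter.2 ⟨hD.bulk.sub h2, ?_, hZ y.2⟩)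
        exact Finset.mem_singleton_self x
      · intro y _ y' _ h
        exact Subtype.ext (Prod.mk.inj h).2
  obtain ⟨f', hf1, hf2⟩ := (Finset.all_card_le_biUnion_card_iff_exists_injective
    (fun y : {y // y ∈ Z'} => univ.filter (fun x => (x, (y : Y)) ∈ D.Pv φ D.Hb (D.Zs φ c) c))).1 hall
  have hfm : ∀ y (hy : y ∈ Z'), f' ⟨y, hy⟩ ∉ D.O.OX c ∧ (f' ⟨y, hy⟩, y) ∈ D.Hb ∧
      D.own φ (f' ⟨y, hy⟩, y) = D.slot φ c y := by
    intro y hy
    have h1 := (Finset.mem_filter.1 (hf2 ⟨y, hy⟩)).2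
    have h2 := Finset.mem_filter.1 h1
    exact ⟨h2.2.1, h2.1, h2.2.2.2⟩
  refine ⟨fun y => if h : y ∈ Z' then f' ⟨y, h⟩ else Classical.choice hXne, ?_, ?_, ?_⟩
  · intro y hy
    simp only [dif_pos hy]
    exact hfm y hy
  · intro y hy y' hy' h
    have hy1 : y ∈ Z' := hy
    have hy1' : y' ∈ Z' := hy'
    simp only [dif_pos hy1, dif_pos hy1'] at h
    exact congrArg Subtype.val (hf1 h)
  · intro y
    unfold eB Ctx.vZ
    refine le_trans (Finset.card_le_card (t := ((D.Zs φ c).filter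
      (fun y' => ∃ x, (x, y) ∈ D.H.G ∧ (x, y') ∈ D.H.G)).image
      (fun y' => ((if h : y' ∈ Z' then f' ⟨y', h⟩ else Classical.choice hXne), y))) ?_) Finset.card_image_le
    intro e he
    obtain ⟨h1, h2, h3⟩ := Finset.mem_filter.1 he
    obtain ⟨y', hy', h4⟩ := Finset.mem_image.1 h2
    have h5 := Finset.mem_singleton.1 h3
    refine Finset.mem_image.2 ⟨y', Finset.mem_filter.2 ⟨hZ hy', e.1, ?_, ?_⟩, ?_⟩
    · rw [← h5]; exact h1
    · have h6 := (hfm y' hy').2.1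
      rw [← h4]
      simp only [dif_pos hy']
      exact hD.bulk.sub h6
    · exact Prod.ext h4 h5.symm

end Pool.SCDH
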