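import Pool.Agent.Lib.MP_0ccee8_co2.Prob

/-!
Certificates of sets with small edge boundary by the random walk (CERT).
-/

set_option linter.unusedSectionVars false

namespace Pool.SCDH.WC

open Finset
open Pool.MP_0ccee8_co.Lib2

variable {V : Type*} [Fintype V] [DecidableEq V]

open Classical in
/-- Neighbours of `v` in the relation `G`. -/
noncomputable def nb (G : V → V → Prop) (v : V) : Finset V := univ.filter (fun w => G v w)

/-- Number of edges leaving `Q`. -/
noncomputable def bd (G : V → V → Prop) (Q : Finset V) : ℕ := ∑ v ∈ Q, (nb G v \ Q).card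

/-- The `r`-step kernel of the random walk. -/
noncomputable def pw (G : V → V → Prop) : ℕ → V → V → ℝ
  | 0, v, u => if v = u then 1 else 0
  | r + 1, v, u => (∑ w ∈ nb G v, pw G r w u) / ((nb G v).card : ℝ)

/-- The set certified by `T`. -/
noncomputable def cert (G : V → V → Prop) (r : ℕ) (τ : ℝ) (T : Finset V) : Finset V :=
  univ.filter (fun v => τ / 2 ≤ ∑ u ∈ T, pw G r v u)

/-- `dist` is a walk distance for `G` (Hamming distance for subgraphs of the cube). -/
structure WDist (G : V → V → Prop) (dist : V → V → ℕ) : Prop where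
  self : ∀ v, dist v v = 0
  step : ∀ v w, G v w → ∀ u, dist w u = dist v u + 1 ∨ dist w u + 1 = dist v u
  few : ∀ v u, ((nb G v).filter (fun w => dist w u + 1 = dist v u)).card ≤ dist v u

lemma mem_nb {G : V → V → Prop} {v w : V} : w ∈ nb G v ↔ G v w := by
  classical
  simp [nb]

lemma pw_nonneg (G : V → V → Prop) (r : ℕ) (v u : V) : 0 ≤ pw G r v u := by
  induction r generalizing v with
  | zero => simp only [pw]; split_ifs <;> norm_num
  | succ r ih =>
    simp only [pw]
    exact div_nonneg (sum_nonneg fun w _ => ih w) (Nat.cast_nonneg _)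

lemma pw_supp {G : V → V → Prop} {dist : V → V → ℕ} (hd : WDist G dist) (r : ℕ) (v u : V)
    (h : r < dist v u) : pw G r v u = 0 := by
  induction r generalizing v with
  | zero =>
    simp only [pw]
    rw [if_neg]
    rintro rfl
    rw [hd.self v] at h
    exact lt_irrefl _ h
  | succ r ih =>
    simp only [pw]
    rw [sum_eq_zero, zero_div]
    intro w hw
    apply ih
    rcases hd.step v w (mem_nb.1 hw) u with h1 | h1 <;> omega

/-- Row sums. -/
lemma pw_row {G : V → V → Prop} (hs : ∀ v w, G v w → G w v) (r : ℕ) (v : V)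
    (hv : (nb G v).Nonempty) : ∑ u, pw G r v u = 1 := by
  induction r generalizing v with
  | zero => simp [pw]
  | succ r ih =>
    simp only [pw]
    rw [← sum_div, sum_comm]
    have h1 : ∀ w ∈ nb G v, ∑ u, pw G r w u = 1 := fun w hw =>
      ih w ⟨v, mem_nb.2 (hs v w (mem_nb.1 hw))⟩
    rw [sum_congr rfl h1]
    simp only [sum_const, nsmul_eq_mul, mul_one]
    rw [div_self]
    exact_mod_cast (card_pos.2 hv).ne'

lemma pw_row_le {G : V → V → Prop} (hs : ∀ v w, G v w → G w v) (r : ℕ) (v : V) :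
    ∑ u, pw G r v u ≤ 1 := by
  by_cases hv : (nb G v).Nonempty
  · exact (pw_row hs r v hv).le
  · rw [not_nonempty_iff_eq_empty] at hv
    cases r with
    | zero => simp [pw]
    | succ r => simp [pw, hv]

lemma pw_succ' {G : V → V → Prop} (hs : ∀ v w, G v w → G w v) (r : ℕ) (v u : V) :
    pw G (r + 1) v u = ∑ w ∈ nb G u, pw G r v w / ((nb G w).card : ℝ) := by
  induction r generalizing v with
  | zero =>
    simp only [pw]
    by_cases h : G v u
    · rw [sum_eq_single_of_mem u (mem_nb.2 h) (fun w _ hw => if_neg hw),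
        sum_eq_single_of_mem v (mem_nb.2 (hs v u h)) (fun w _ hw => by
          rw [if_neg (fun h' => hw h'.symm), zero_div])]
      simp
    · rw [sum_eq_zero, sum_eq_zero, zero_div]
      · intro w hw
        rw [if_neg, zero_div]
        rintro rfl
        exact h (hs _ _ (mem_nb.1 hw))
      · intro w hw
        rw [if_neg]
        rintro rfl
        exact h (mem_nb.1 hw)
  | succ r ih =>
    have h1 : pw G (r + 1 + 1) v u = (∑ w ∈ nb G v, pw G (r + 1) w u) / ((nb G v).card : ℝ) := rfl
    rw [h1, sum_congr rfl (fun w _ => ih w), sum_comm, sum_div]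
    refine sum_congr rfl fun z _ => ?_
    have h2 : pw G (r + 1) v z = (∑ w ∈ nb G v, pw G r w z) / ((nb G v).card : ℝ) := rfl
    rw [h2, ← sum_div]
    ring

/-- Reversibility. -/
lemma pw_rev {G : V → V → Prop} (hs : ∀ v w, G v w → G w v) (r : ℕ) (v u : V) :
    ((nb G v).card : ℝ) * pw G r v u = ((nb G u).card : ℝ) * pw G r u v := by
  induction r generalizing v with
  | zero =>
    simp only [pw]
    by_cases h : v = u
    · subst h; rfl
    · rw [if_neg h, if_neg (fun h' => h h'.symm)]; simp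
  | succ r ih =>
    rw [pw_succ' hs r u v, mul_sum]
    by_cases hv : (nb G v).Nonempty
    · have hc : ((nb G v).card : ℝ) ≠ 0 := by exact_mod_cast (card_pos.2 hv).ne'
      simp only [pw]
      rw [mul_div_cancel₀ _ hc]
      refine sum_congr rfl fun w hw => ?_
      have hw' : ((nb G w).card : ℝ) ≠ 0 := by
        exact_mod_cast (card_pos.2 ⟨v, mem_nb.2 (hs v w (mem_nb.1 hw))⟩).ne'
      rw [← mul_div_assoc, ← ih w]
      field_simp
    · rw [not_nonempty_iff_eq_empty] at hv
      simp [hv]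

/-- The kernel bound. -/
lemma pw_le {G : V → V → Prop} {dist : V → V → ℕ} (hd : WDist G dist) (s : ℝ) (hs1 : 1 ≤ s)
    (hdeg : ∀ v, (nb G v).Nonempty → s ^ 2 ≤ ((nb G v).card : ℝ)) (r : ℕ) (v u : V) :
    pw G r v u ≤ ((r : ℝ) + 1) ^ r / s ^ (r + dist v u) := by
  have hs0 : 0 < s := by linarith
  induction r generalizing v with
  | zero =>
    simp only [pw]
    split_ifs with h
    · subst h
      rw [hd.self v]; simp
    · positivity
  | succ r ih =>
    by_cases hv : (nb G v).Nonempty
    swap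
    · rw [not_nonempty_iff_eq_empty] at hv
      simp only [pw, hv, sum_empty, zero_div]
      positivity
    by_cases hr : r + 1 < dist v u
    · rw [pw_supp hd (r + 1) v u hr]
      positivity
    push Not at hr
    have hc0 : (0 : ℝ) < ((nb G v).card : ℝ) := by exact_mod_cast card_pos.2 hv
    simp only [pw]
    rw [div_le_iff₀ hc0]
    set A : ℝ := ((r : ℝ) + 1) ^ r with hA
    have hA0 : 0 < A := by positivity
    have key : ∀ w ∈ nb G v, pw G r w u ≤
        (if dist w u + 1 = dist v u then A * s ^ 2 / s ^ (r + 1 + dist v u) else 0) +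
          A / s ^ (r + 1 + dist v u) := by
      intro w hw
      have hw1 := ih w
      rcases hd.step v w (mem_nb.1 hw) u with h1 | h1
      · rw [if_neg (by omega), zero_add]
        refine hw1.trans (le_of_eq ?_)
        rw [h1]
        congr 2
        ring
      · rw [if_pos h1]
        have h2 : A / s ^ (r + dist w u) = A * s ^ 2 / s ^ (r + 1 + dist v u) := by
          rw [← h1]
          have : r + 1 + (dist w u + 1) = (r + dist w u) + 2 := by ring
          rw [this, pow_add (s) (r + dist w u) 2]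
          field_simp
        have h3 : 0 ≤ A / s ^ (r + 1 + dist v u) := by positivity
        linarith
    refine (sum_le_sum key).trans ?_
    rw [sum_add_distrib, ← sum_filter]
    simp only [sum_const, nsmul_eq_mul]
    have hf : (((nb G v).filter (fun w => dist w u + 1 = dist v u)).card : ℝ) ≤ (r : ℝ) + 1 := by
      have := (hd.few v u).trans hr
      exact_mod_cast this
    have hS : 0 < s ^ (r + 1 + dist v u) := by positivity
    have hdv := hdeg v hv
    have e1 : ((r + 1 : ℕ) : ℝ) + 1 = (r : ℝ) + 2 := by push_cast; ring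
    rw [e1]
    have hA2 : ((r : ℝ) + 2) * A ≤ ((r : ℝ) + 2) ^ (r + 1) := by
      rw [pow_succ, mul_comm (((r : ℝ) + 2) ^ r)]
      refine mul_le_mul_of_nonneg_left ?_ (by positivity)
      exact pow_le_pow_left₀ (by positivity) (by linarith) r
    have h4 : (((nb G v).filter (fun w => dist w u + 1 = dist v u)).card : ℝ) *
        (A * s ^ 2 / s ^ (r + 1 + dist v u)) ≤
        ((r : ℝ) + 1) * (A * ((nb G v).card : ℝ) / s ^ (r + 1 + dist v u)) := by
      refine mul_le_mul hf ?_ (by positivity) (by positivity)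
      gcongr
    calc _ ≤ ((r : ℝ) + 1) * (A * ((nb G v).card : ℝ) / s ^ (r + 1 + dist v u)) +
          ((nb G v).card : ℝ) * (A / s ^ (r + 1 + dist v u)) := by linarith
      _ = (((r : ℝ) + 2) * A) / s ^ (r + 1 + dist v u) * ((nb G v).card : ℝ) := by ring
      _ ≤ _ := by gcongr

/-- The flow out of `Q` in `r` steps is at most `r` times the boundary. -/
lemma flow_le {G : V → V → Prop} (hs : ∀ v w, G v w → G w v) (Q : Finset V) (r : ℕ) :
    ∑ v ∈ Q, ((nb G v).card : ℝ) * ∑ u ∈ Qᶜ, pw G r v u ≤ (r : ℝ) * (bd G Q : ℝ) := by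
  induction r with
  | zero =>
    simp only [CharP.cast_eq_zero, zero_mul]
    refine le_of_eq (sum_eq_zero fun v hv => ?_)
    rw [sum_eq_zero, mul_zero]
    intro u hu
    simp only [pw]
    rw [if_neg]
    rintro rfl
    exact (mem_compl.1 hu) hv
  | succ r ih =>
    have h1 : ∀ v ∈ Q, ((nb G v).card : ℝ) * ∑ u ∈ Qᶜ, pw G (r + 1) v u ≤
        ((nb G v \ Q).card : ℝ) + ∑ w ∈ Q, if w ∈ nb G v then ∑ u ∈ Qᶜ, pw G r w u else 0 := by
      intro v _
      by_cases hv : (nb G v).Nonempty
      swap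
      · rw [not_nonempty_iff_eq_empty] at hv
        simp [hv]
      have hc : ((nb G v).card : ℝ) ≠ 0 := by exact_mod_cast (card_pos.2 hv).ne'
      have e1 : ((nb G v).card : ℝ) * ∑ u ∈ Qᶜ, pw G (r + 1) v u =
          ∑ w ∈ nb G v, ∑ u ∈ Qᶜ, pw G r w u := by
        simp only [pw]
        rw [← sum_div, sum_comm, mul_div_cancel₀ _ hc]
      rw [e1, ← sum_inter_add_sum_sdiff (nb G v) Q, add_comm]
      refine add_le_add ?_ ?_
      · have : ∀ w ∈ nb G v \ Q, ∑ u ∈ Qᶜ, pw G r w u ≤ 1 := by
          intro w _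
          refine le_trans ?_ (pw_row_le hs r w)
          exact sum_le_sum_of_subset_of_nonneg (subset_univ _) (fun u _ _ => pw_nonneg G r w u)
        refine (sum_le_sum this).trans ?_
        simp
      · rw [← sum_filter]
        refine le_of_eq (sum_congr ?_ fun _ _ => rfl)
        ext w
        simp [and_comm]
    refine (sum_le_sum h1).trans ?_
    rw [sum_add_distrib, sum_comm]
    have h2 : ∑ w ∈ Q, ∑ v ∈ Q, (if w ∈ nb G v then ∑ u ∈ Qᶜ, pw G r w u else 0) ≤
        ∑ w ∈ Q, ((nb G w).card : ℝ) * ∑ u ∈ Qᶜ, pw G r w u := by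
      refine sum_le_sum fun w _ => ?_
      rw [← sum_filter]
      simp only [sum_const, nsmul_eq_mul]
      refine mul_le_mul_of_nonneg_right ?_ (sum_nonneg fun u _ => pw_nonneg G r w u)
      have : (Q.filter fun v => w ∈ nb G v).card ≤ (nb G w).card := by
        refine card_le_card fun v hv => ?_
        exact mem_nb.2 (hs _ _ (mem_nb.1 (mem_filter.1 hv).2))
      exact_mod_cast this
    have h3 : ∑ v ∈ Q, ((nb G v \ Q).card : ℝ) = (bd G Q : ℝ) := by
      simp [bd]
    push_cast
    rw [h3]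
    linarith

lemma bd_compl {G : V → V → Prop} (hs : ∀ v w, G v w → G w v) (Q : Finset V) :
    bd G Qᶜ = bd G Q := by
  have h : ∀ R : Finset V, bd G R = ∑ v ∈ R, ∑ w ∈ Rᶜ, if w ∈ nb G v then 1 else 0 := by
    intro R
    refine sum_congr rfl fun v _ => ?_
    rw [← sum_filter, card_eq_sum_ones]
    refine sum_congr ?_ fun _ _ => rfl
    ext w
    simp [and_comm]
  rw [h, h, sum_comm, compl_compl]
  refine sum_congr rfl fun v _ => sum_congr rfl fun w _ => ?_
  refine if_congr ?_ rfl rfl
  rw [mem_nb, mem_nb]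
  exact ⟨hs _ _, hs _ _⟩

/-- Locality: the kernel into `u` only depends on the neighbourhoods of vertices near `u`. -/
lemma pw_local {G G' : V → V → Prop} {dist : V → V → ℕ} (hd : WDist G dist) (hd' : WDist G' dist)
    (r : ℕ) (u : V) (h : ∀ v, dist v u ≤ r → ∀ w, G v w ↔ G' v w) (v : V) :
    pw G r v u = pw G' r v u := by
  induction r generalizing v with
  | zero => rfl
  | succ r ih =>
    by_cases hv : dist v u ≤ r + 1
    · have h1 : nb G v = nb G' v := by
        ext w
        rw [mem_nb, mem_nb]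
        exact h v hv w
      simp only [pw]
      rw [h1]
      congr 1
      exact sum_congr rfl fun w _ => ih (fun v' hv' => h v' (by omega)) w
    · push Not at hv
      rw [pw_supp hd (r + 1) v u hv, pw_supp hd' (r + 1) v u hv]

lemma cert_local {G G' : V → V → Prop} {dist : V → V → ℕ} (hd : WDist G dist)
    (hd' : WDist G' dist) (r : ℕ) (τ : ℝ) (T : Finset V)
    (h : ∀ u ∈ T, ∀ v, dist v u ≤ r → ∀ w, G v w ↔ G' v w) :
    cert G r τ T = cert G' r τ T := by
  ext v
  simp only [cert, mem_filter, mem_univ, true_and]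
  rw [sum_congr rfl fun u hu => pw_local hd hd' r u (h u hu) v]

lemma cert_near {G : V → V → Prop} {dist : V → V → ℕ} (hd : WDist G dist) (r : ℕ) {τ : ℝ}
    (hτ : 0 < τ) (T : Finset V) {v : V} (hv : v ∈ cert G r τ T) : ∃ u ∈ T, dist v u ≤ r := by
  by_contra hcon
  push Not at hcon
  have : ∑ u ∈ T, pw G r v u = 0 := sum_eq_zero fun u hu => pw_supp hd r v u (hcon u hu)
  have h1 := (mem_filter.1 hv).2
  rw [this] at h1
  linarith

/-- The size of a certified set. -/
lemma card_cert_le {G : V → V → Prop} (hs : ∀ v w, G v w → G w v) (r : ℕ) {τ : ℝ} (hτ : 0 < τ)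
    (T : Finset V) (n : ℕ) (hn : ∀ v, (nb G v).card ≤ n) (hn1 : 1 ≤ n) :
    ((cert G r τ T).card : ℝ) ≤ 2 * n * T.card / τ := by
  have h1 : ∀ u, ∑ v, pw G r v u ≤ n := by
    intro u
    cases r with
    | zero =>
      simp only [pw, sum_ite_eq', mem_univ, if_true]
      exact_mod_cast hn1
    | succ r =>
      have h2 : ∀ v, pw G (r + 1) v u ≤ ((nb G u).card : ℝ) * pw G (r + 1) u v := by
        intro v
        rw [← pw_rev hs]
        by_cases hv : (nb G v).Nonempty
        · have : (1 : ℝ) ≤ ((nb G v).card : ℝ) := by exact_mod_cast card_pos.2 hv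
          nlinarith [pw_nonneg G (r + 1) v u]
        · rw [not_nonempty_iff_eq_empty] at hv
          simp [pw, hv]
      refine (sum_le_sum fun v _ => h2 v).trans ?_
      rw [← mul_sum]
      have h3 := pw_row_le hs (r + 1) u
      have h4 : ((nb G u).card : ℝ) ≤ n := by exact_mod_cast hn u
      have h5 : (0 : ℝ) ≤ ((nb G u).card : ℝ) := Nat.cast_nonneg _
      nlinarith [sum_nonneg (fun (v : V) (_ : v ∈ univ) => pw_nonneg G (r + 1) u v)]
  have h2 : ((cert G r τ T).card : ℝ) * (τ / 2) ≤ n * T.card := by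
    calc ((cert G r τ T).card : ℝ) * (τ / 2) = ∑ v ∈ cert G r τ T, τ / 2 := by simp
      _ ≤ ∑ v ∈ cert G r τ T, ∑ u ∈ T, pw G r v u :=
          sum_le_sum fun v hv => (mem_filter.1 hv).2
      _ ≤ ∑ v, ∑ u ∈ T, pw G r v u :=
          sum_le_sum_of_subset_of_nonneg (subset_univ _)
            (fun v _ _ => sum_nonneg fun u _ => pw_nonneg G r v u)
      _ = ∑ u ∈ T, ∑ v, pw G r v u := sum_comm
      _ ≤ ∑ u ∈ T, (n : ℝ) := sum_le_sum fun u _ => h1 u
      _ = n * T.card := by simp [mul_comm]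
  rw [le_div_iff₀ hτ]
  linarith

/-- The random choice of the certificate. -/
theorem choose_T (p : V → V → ℝ) (hp0 : ∀ v u, 0 ≤ p v u) (hrow : ∀ v, ∑ u, p v u ≤ 1)
    (m n : ℕ) (hn : 2 ≤ n) (hV : Fintype.card V ≤ 2 ^ n)
    (hpw : ∀ v u, p v u ≤ 1 / ((m : ℝ) + 1) / (128 * n)) (Q : Finset V) :
    ∃ T ⊆ Q, (T.card : ℝ) ≤ 2 * (1 / ((m : ℝ) + 1)) * Q.card ∧
      ∀ v, |∑ u ∈ T, p v u - 1 / ((m : ℝ) + 1) * ∑ u ∈ Q, p v u| ≤ 1 / ((m : ℝ) + 1) / 4 := by
  classical
  set τ : ℝ := 1 / ((m : ℝ) + 1) with hτ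
  have hτ0 : 0 < τ := by positivity
  have hn0 : (0 : ℝ) < n := by exact_mod_cast (by omega : 0 < n)
  set pm : ℝ := τ / (128 * n) with hpm
  have hpm0 : 0 < pm := by positivity
  -- the random set
  let S : (V → Fin (m + 1)) → Finset V := fun φ => Q.filter (fun u => φ u = 0)
  have hcoord : ∀ u : V, E (fun φ : V → Fin (m + 1) => if φ u = 0 then (1 : ℝ) else 0) = τ := by
    intro u
    rw [E_coord u (fun a : Fin (m + 1) => if a = 0 then (1 : ℝ) else 0)]
    simp [hτ]
  have hn2 : (2 : ℝ) ≤ n := by exact_mod_cast hn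
  -- size
  have hsize : P (fun φ : V → Fin (m + 1) => 2 * τ * Q.card < ((S φ).card : ℝ)) ≤ 1 / 2 := by
    have hcard : ∀ φ, ((S φ).card : ℝ) = ∑ u ∈ Q, if φ u = 0 then (1 : ℝ) else 0 := by
      intro φ
      rw [← sum_filter]
      simp [S]
    have hE : E (fun φ : V → Fin (m + 1) => ((S φ).card : ℝ)) = τ * Q.card := by
      simp_rw [hcard]
      rw [E_sum, sum_congr rfl fun u _ => hcoord u]
      simp [mul_comm]
    rcases Q.eq_empty_or_nonempty with hQ | hQ
    · have : ∀ φ : V → Fin (m + 1), ¬ (2 * τ * Q.card < ((S φ).card : ℝ)) := by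
        intro φ
        simp [S, hQ]
      have h0 : P (fun φ : V → Fin (m + 1) => 2 * τ * Q.card < ((S φ).card : ℝ)) = 0 := by
        unfold P
        simp only [this, if_false]
        exact E_const 0
      rw [h0]; norm_num
    have hQ0 : (0 : ℝ) < Q.card := by exact_mod_cast card_pos.2 hQ
    have hM : E (fun φ : V → Fin (m + 1) => 2 * τ * Q.card *
        (if 2 * τ * Q.card < ((S φ).card : ℝ) then (1 : ℝ) else 0)) ≤
        E (fun φ : V → Fin (m + 1) => ((S φ).card : ℝ)) := by
      refine E_mono fun φ => ?_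
      split_ifs with h
      · linarith
      · simp
    rw [E_mul_left, hE] at hM
    have h3 : 2 * τ * Q.card * P (fun φ : V → Fin (m + 1) => 2 * τ * Q.card < ((S φ).card : ℝ)) ≤
        τ * Q.card := hM
    have h4 : 0 < τ * Q.card := by positivity
    nlinarith
  have hbad : ∀ v, P (fun φ : V → Fin (m + 1) =>
      τ / 4 < |∑ u ∈ Q, ((if φ u = 0 then (1 : ℝ) else 0) - τ) * p v u|) ≤
      2 * Real.exp (-(2 * n)) := by
    intro v
    have hind : ∀ (φ : V → Fin (m + 1)) (u : V),
        |(if φ u = 0 then (1 : ℝ) else 0) - τ| ≤ 1 := by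
      intro φ u
      have : τ ≤ 1 := by
        rw [hτ, div_le_one (by positivity)]
        linarith [(Nat.cast_nonneg m : (0 : ℝ) ≤ m)]
      rw [abs_le]
      split_ifs <;> constructor <;> linarith
    have hbnd := tail_bound (κ := Fin (m + 1)) (univ : Finset V) Q (fun u => {u})
      (by
        intro b _ c _ hbc
        simpa using hbc)
      (fun u φ => ((if φ u = 0 then (1 : ℝ) else 0) - τ) * p v u)
      (by
        intro b _ ψ φ φ' h
        have : φ b = φ' b := h b (mem_singleton_self b)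
        simp [mix, this])
      pm
      (by
        intro b _ ψ
        rw [abs_mul, abs_of_nonneg (hp0 v b)]
        calc _ ≤ 1 * pm := mul_le_mul (hind ψ b) (hpw v b) (hp0 _ _) zero_le_one
          _ = pm := one_mul _)
      (by
        intro b _ ψ
        have h1 : ∀ φ : V → Fin (m + 1), ((if mix univ φ ψ b = 0 then (1 : ℝ) else 0) - τ) *
            p v b = p v b * ((if φ b = 0 then (1 : ℝ) else 0) - τ) := by
          intro φ
          simp [mix, mul_comm]
        rw [E_congr h1, E_mul_left, E_sub, hcoord, E_const]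
        simp)
      (fun b _ => τ * (pm * p v b))
      (by
        intro b _ ψ
        have h1 : ∀ φ : V → Fin (m + 1), (((if mix univ φ ψ b = 0 then (1 : ℝ) else 0) - τ) *
            p v b) ^ 2 ≤ pm * p v b * ((1 - 2 * τ) *
              (if φ b = 0 then (1 : ℝ) else 0) + τ ^ 2) := by
          intro φ
          have e1 : ((if mix univ φ ψ b = 0 then (1 : ℝ) else 0) - τ) ^ 2 =
              (1 - 2 * τ) * (if φ b = 0 then (1 : ℝ) else 0) + τ ^ 2 := by
            simp only [mix, mem_univ, if_true]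
            split_ifs <;> ring
          rw [mul_pow, e1, mul_comm]
          have e2 : p v b ^ 2 ≤ pm * p v b := by
            rw [sq]
            exact mul_le_mul_of_nonneg_right (hpw v b) (hp0 _ _)
          refine mul_le_mul_of_nonneg_right e2 ?_
          rw [← e1]; positivity
        refine (E_mono h1).trans ?_
        rw [E_mul_left, E_add, E_mul_left, hcoord, E_const]
        have h2 : 0 ≤ pm * p v b := mul_nonneg hpm0.le (hp0 _ _)
        have h3 : (1 - 2 * τ) * τ + τ ^ 2 ≤ τ := by nlinarith [sq_nonneg τ]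
        nlinarith)
      (τ * pm) (by positivity)
      (by
        intro ψ
        rw [← mul_sum, ← mul_sum]
        have h1 : ∑ u ∈ Q, p v u ≤ 1 := by
          refine le_trans ?_ (hrow v)
          exact sum_le_sum_of_subset_of_nonneg (subset_univ _) (fun u _ _ => hp0 v u)
        have h2 : 0 ≤ τ * pm := by positivity
        nlinarith)
      (τ / 4) (by positivity)
      (by nlinarith [mul_pos hτ0 hpm0])
    refine hbnd.trans (le_of_eq ?_)
    congr 3
    rw [hpm]
    field_simp
    norm_num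
  -- a good outcome
  have hex : ∃ φ : V → Fin (m + 1), ¬ (2 * τ * Q.card < ((S φ).card : ℝ)) ∧
      ∀ v, ¬ (τ / 4 < |∑ u ∈ Q, ((if φ u = 0 then (1 : ℝ) else 0) - τ) * p v u|) := by
    by_contra hcon
    push Not at hcon
    have hone : (1 : ℝ) ≤ P (fun φ : V → Fin (m + 1) => 2 * τ * Q.card < ((S φ).card : ℝ) ∨
        ∃ v ∈ (univ : Finset V),
          τ / 4 < |∑ u ∈ Q, ((if φ u = 0 then (1 : ℝ) else 0) - τ) * p v u|) := by
      have : (1 : ℝ) = P (fun _ : V → Fin (m + 1) => True) := by
        unfold P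
        simp only [if_true]
        exact (E_const 1).symm
      refine this.le.trans (P_mono fun φ _ => ?_)
      by_cases h : 2 * τ * Q.card < ((S φ).card : ℝ)
      · exact Or.inl h
      · push Not at h
        obtain ⟨v, hv⟩ := hcon φ h
        exact Or.inr ⟨v, mem_univ _, hv⟩
    have h2 := (P_or _ _).trans (add_le_add hsize ((P_exists univ _).trans
      (sum_le_sum fun v _ => hbad v)))
    have h3 : ∑ _v : V, 2 * Real.exp (-(2 * (n : ℝ))) < 1 / 2 := by
      rw [sum_const, nsmul_eq_mul, card_univ]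
      have h4 : (Fintype.card V : ℝ) ≤ 2 ^ n := by exact_mod_cast hV
      have h5 : Real.exp (-(2 * (n : ℝ))) ≤ (1 / 7) ^ n := by
        have e1 : Real.exp (-(2 * (n : ℝ))) = (Real.exp (-2)) ^ n := by
          rw [← Real.exp_nat_mul]
          congr 1; ring
        rw [e1]
        refine pow_le_pow_left₀ (Real.exp_pos _).le ?_ n
        rw [Real.exp_neg, inv_eq_one_div]
        refine one_div_le_one_div_of_le (by norm_num) ?_
        have e2 : Real.exp 2 = Real.exp 1 ^ 2 := by rw [← Real.exp_nat_mul]; norm_num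
        rw [e2]
        have := Real.exp_one_gt_d9
        nlinarith
      have h6 : (2 : ℝ) ^ n * (2 * (1 / 7) ^ n) < 1 / 2 := by
        have e3 : (2 : ℝ) ^ n * (2 * (1 / 7) ^ n) = 2 * (2 / 7) ^ n := by
          rw [mul_left_comm, ← mul_pow]
          norm_num
        rw [e3]
        have e4 : (2 / 7 : ℝ) ^ n ≤ (2 / 7) ^ 2 :=
          pow_le_pow_of_le_one (by norm_num) (by norm_num) hn
        have : (2 / 7 : ℝ) ^ 2 < 1 / 4 := by norm_num
        linarith
      calc (Fintype.card V : ℝ) * (2 * Real.exp (-(2 * (n : ℝ)))) ≤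
            2 ^ n * (2 * (1 / 7) ^ n) := by gcongr
        _ < 1 / 2 := h6
    linarith
  obtain ⟨φ, hφ1, hφ2⟩ := hex
  refine ⟨S φ, filter_subset _ _, not_lt.1 hφ1, fun v => ?_⟩
  have h1 := not_lt.1 (hφ2 v)
  have e1 : ∑ u ∈ Q, ((if φ u = 0 then (1 : ℝ) else 0) - τ) * p v u =
      ∑ u ∈ S φ, p v u - τ * ∑ u ∈ Q, p v u := by
    simp only [sub_mul, sum_sub_distrib, mul_sum, S, sum_filter]
    congr 1
    refine sum_congr rfl fun u _ => ?_
    split_ifs <;> simp
  rwa [e1] at h1

/-- **CERT**. Every set `Q` of vertices is certified by a sparse subset `T` of it,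
up to an error which is small against the boundary. -/
theorem cert_exists {G : V → V → Prop} {dist : V → V → ℕ} (hd : WDist G dist)
    (hs : ∀ v w, G v w → G w v) (r : ℕ) (s : ℝ) (hs1 : 1 ≤ s)
    (hdeg : ∀ v, (nb G v).Nonempty → s ^ 2 ≤ ((nb G v).card : ℝ))
    (m n : ℕ) (hn : 2 ≤ n) (hV : Fintype.card V ≤ 2 ^ n)
    (hp : ((r : ℝ) + 1) ^ r / s ^ r ≤ 1 / ((m : ℝ) + 1) / (128 * n)) (Q : Finset V) :
    ∃ T ⊆ Q, (T.card : ℝ) ≤ 2 * (1 / ((m : ℝ) + 1)) * Q.card ∧
      ∑ v ∈ Q \ cert G r (1 / ((m : ℝ) + 1)) T, ((nb G v).card : ℝ) +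
      ∑ v ∈ cert G r (1 / ((m : ℝ) + 1)) T \ Q, ((nb G v).card : ℝ) ≤
        8 * r * (bd G Q : ℝ) := by
  classical
  set τ : ℝ := 1 / ((m : ℝ) + 1) with hτ
  have hτ0 : 0 < τ := by positivity
  have hpw : ∀ v u, pw G r v u ≤ τ / (128 * n) := by
    intro v u
    refine (pw_le hd s hs1 hdeg r v u).trans (le_trans ?_ hp)
    have : s ^ r ≤ s ^ (r + dist v u) := pow_le_pow_right₀ hs1 (by omega)
    have h0 : 0 < s ^ r := by positivity
    gcongr
  obtain ⟨T, hTQ, hT1, hsum⟩ := choose_T (pw G r) (pw_nonneg G r) (pw_row_le hs r) m n hn hV hpw Q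
  rw [← hτ] at hT1 hsum
  refine ⟨T, hTQ, hT1, ?_⟩
  have hrow : ∀ v, (nb G v).Nonempty → ∑ u ∈ Q, pw G r v u + ∑ u ∈ Qᶜ, pw G r v u = 1 := by
    intro v hv
    rw [sum_add_sum_compl]
    exact pw_row hs r v hv
  have hA : ∑ v ∈ Q \ cert G r τ T, ((nb G v).card : ℝ) ≤ 4 * (r * (bd G Q : ℝ)) := by
    calc _ ≤ ∑ v ∈ Q \ cert G r τ T, 4 * (((nb G v).card : ℝ) * ∑ u ∈ Qᶜ, pw G r v u) := by
          refine sum_le_sum fun v hv => ?_
          rw [mem_sdiff] at hv
          by_cases hvn : (nb G v).Nonempty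
          · have h1 : ¬ τ / 2 ≤ ∑ u ∈ T, pw G r v u := fun h =>
              hv.2 (mem_filter.2 ⟨mem_univ _, h⟩)
            have h2 := (abs_le.1 (hsum v)).1
            have h3 : τ * ∑ u ∈ Q, pw G r v u < τ * (3 / 4) := by linarith
            have h4 : ∑ u ∈ Q, pw G r v u < 3 / 4 := lt_of_mul_lt_mul_left h3 hτ0.le
            have h5 := hrow v hvn
            have h6 : (0 : ℝ) ≤ ((nb G v).card : ℝ) := Nat.cast_nonneg _
            nlinarith
          · rw [not_nonempty_iff_eq_empty] at hvn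
            simp [hvn]
      _ ≤ ∑ v ∈ Q, 4 * (((nb G v).card : ℝ) * ∑ u ∈ Qᶜ, pw G r v u) :=
          sum_le_sum_of_subset_of_nonneg sdiff_subset (fun v _ _ => by
            have := sum_nonneg (fun (u : V) (_ : u ∈ Qᶜ) => pw_nonneg G r v u)
            positivity)
      _ ≤ _ := by
          rw [← mul_sum]
          exact mul_le_mul_of_nonneg_left (flow_le hs Q r) (by norm_num)
  have hB : ∑ v ∈ cert G r τ T \ Q, ((nb G v).card : ℝ) ≤ 4 * (r * (bd G Q : ℝ)) := by
    calc _ ≤ ∑ v ∈ cert G r τ T \ Q,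
          4 * (((nb G v).card : ℝ) * ∑ u ∈ (Qᶜ)ᶜ, pw G r v u) := by
          refine sum_le_sum fun v hv => ?_
          rw [mem_sdiff] at hv
          rw [compl_compl]
          have h1 := (mem_filter.1 hv.1).2
          have h2 := (abs_le.1 (hsum v)).2
          have h3 : τ * (1 / 4) ≤ τ * ∑ u ∈ Q, pw G r v u := by linarith
          have h4 : 1 / 4 ≤ ∑ u ∈ Q, pw G r v u := le_of_mul_le_mul_left h3 hτ0
          have h6 : (0 : ℝ) ≤ ((nb G v).card : ℝ) := Nat.cast_nonneg _
          nlinarith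
      _ ≤ ∑ v ∈ Qᶜ, 4 * (((nb G v).card : ℝ) * ∑ u ∈ (Qᶜ)ᶜ, pw G r v u) :=
          sum_le_sum_of_subset_of_nonneg (fun v hv => mem_compl.2 (mem_sdiff.1 hv).2)
            (fun v _ _ => by
              have := sum_nonneg (fun (u : V) (_ : u ∈ (Qᶜ)ᶜ) => pw_nonneg G r v u)
              positivity)
      _ ≤ _ := by
          rw [← mul_sum, ← bd_compl hs Q]
          exact mul_le_mul_of_nonneg_left (flow_le hs Qᶜ r) (by norm_num)
  linarith

end Pool.SCDH.WC
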