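import Pool.Agent.Lib.SCDH.Defs
import Pool.Agent.Lib.SCDH.Cert

set_option linter.unusedSectionVars false

namespace Pool.SCDH

open Finset Pool.MP_0ccee8_co.Lib2

variable {X Y : Type} [Fintype X] [DecidableEq X] [Fintype Y] [DecidableEq Y]

/-- the adjacency relation of a bipartite graph on the sum type -/
def rel (Γ : Finset (X × Y)) : X ⊕ Y → X ⊕ Y → Prop
  | .inl x, .inr y => (x, y) ∈ Γ
  | .inr y, .inl x => (x, y) ∈ Γ
  | _, _ => False

theorem rel_symm (Γ : Finset (X × Y)) (v w : X ⊕ Y) (h : rel Γ v w) : rel Γ w v := by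
  rcases v with x | y <;> rcases w with x' | y' <;> simpa [rel] using h

theorem nb_rel (Γ : Finset (X × Y)) (v : X ⊕ Y) : WC.nb (rel Γ) v = nbrs Γ v := by
  ext w
  rw [WC.mem_nb]
  rcases v with x | y <;> rcases w with x' | y' <;> simp [rel, nbrs]

theorem card_nbrs_inl (Γ : Finset (X × Y)) (x : X) : (nbrs Γ (.inl x)).card = dgX Γ x := by
  simp only [nbrs, card_map, dgX, eB]
  refine card_nbij' (fun y => (x, y)) (fun e => e.2) ?_ ?_ ?_ ?_
  · intro y hy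
    simpa using hy
  · rintro ⟨x', y⟩ h
    simp only [coe_filter, mem_singleton, mem_univ, and_true, Set.mem_setOf_eq] at h
    obtain ⟨h1, rfl⟩ := h
    simpa using h1
  · intro y hy
    rfl
  · rintro ⟨x', y⟩ h
    simp only [coe_filter, mem_singleton, mem_univ, and_true, Set.mem_setOf_eq] at h
    obtain ⟨h1, rfl⟩ := h
    rfl

theorem card_nbrs_inr (Γ : Finset (X × Y)) (y : Y) : (nbrs Γ (.inr y)).card = dgY Γ y := by
  simp only [nbrs, card_map, dgY, eB]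
  refine card_nbij' (fun x => (x, y)) (fun e => e.1) ?_ ?_ ?_ ?_
  · intro y hy
    simpa using hy
  · rintro ⟨x', y⟩ h
    simp only [coe_filter, mem_singleton, mem_univ, true_and, Set.mem_setOf_eq] at h
    obtain ⟨h1, rfl⟩ := h
    simpa using h1
  · intro y hy
    rfl
  · rintro ⟨x', y⟩ h
    simp only [coe_filter, mem_singleton, mem_univ, true_and, Set.mem_setOf_eq] at h
    obtain ⟨h1, rfl⟩ := h
    rfl

theorem stp_eq (Γ : Finset (X × Y)) (f : X ⊕ Y → ℝ) (v : X ⊕ Y) :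
    stp Γ f v = (∑ w ∈ nbrs Γ v, f w) / ((nbrs Γ v).card : ℝ) := by
  rcases v with x | y
  · rw [card_nbrs_inl]
    simp only [stp, nbrs, sum_map, Function.Embedding.coeFn_mk, sum_filter]
  · rw [card_nbrs_inr]
    simp only [stp, nbrs, sum_map, Function.Embedding.coeFn_mk, sum_filter]

theorem pT_zero (Γ : Finset (X × Y)) (T : Finset (X ⊕ Y)) (v : X ⊕ Y) :
    pT Γ 0 T v = if v ∈ T then 1 else 0 := rfl

theorem pT_succ (Γ : Finset (X × Y)) (r : ℕ) (T : Finset (X ⊕ Y)) (v : X ⊕ Y) :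
    pT Γ (r + 1) T v = (∑ w ∈ nbrs Γ v, pT Γ r T w) / ((nbrs Γ v).card : ℝ) := by
  unfold pT
  rw [Function.iterate_succ_apply', stp_eq]

/-- bridge to the kernels of `Cert.lean` -/
theorem pT_eq (Γ : Finset (X × Y)) (r : ℕ) (T : Finset (X ⊕ Y)) (v : X ⊕ Y) :
    pT Γ r T v = ∑ u ∈ T, WC.pw (rel Γ) r v u := by
  induction r generalizing v with
  | zero =>
    rw [pT_zero]
    simp [WC.pw]
  | succ r ih =>
    rw [pT_succ]
    simp only [WC.pw]
    rw [← sum_div, sum_comm, nb_rel, sum_congr rfl fun w _ => ih w]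

theorem nb_nonempty_inl (Γ : Finset (X × Y)) (x : X) :
    (WC.nb (rel Γ) (.inl x)).Nonempty ↔ dgX Γ x ≠ 0 := by
  rw [nb_rel, ← card_pos, card_nbrs_inl]
  omega

theorem nb_nonempty_inr (Γ : Finset (X × Y)) (y : Y) :
    (WC.nb (rel Γ) (.inr y)).Nonempty ↔ dgY Γ y ≠ 0 := by
  rw [nb_rel, ← card_pos, card_nbrs_inr]
  omega

theorem pT_nonneg (Γ : Finset (X × Y)) (r : ℕ) (T : Finset (X ⊕ Y)) (v : X ⊕ Y) : 0 ≤ pT Γ r T v := by
  rw [pT_eq]
  exact sum_nonneg fun u _ => WC.pw_nonneg _ _ _ _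

theorem pT_le_one (Γ : Finset (X × Y)) (r : ℕ) (T : Finset (X ⊕ Y)) (v : X ⊕ Y) : pT Γ r T v ≤ 1 := by
  rw [pT_eq]
  refine le_trans ?_ (WC.pw_row_le (rel_symm Γ) r v)
  exact sum_le_sum_of_subset_of_nonneg (subset_univ _) (fun u _ _ => WC.pw_nonneg _ _ _ _)

theorem pT_empty (Γ : Finset (X × Y)) (r : ℕ) (v : X ⊕ Y) : pT Γ r ∅ v = 0 := by
  rw [pT_eq, sum_empty]

theorem pT_eq_sum (Γ : Finset (X × Y)) (r : ℕ) (T : Finset (X ⊕ Y)) (v : X ⊕ Y) :
    pT Γ r T v = ∑ u ∈ T, pT Γ r {u} v := by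
  simp only [pT_eq, sum_singleton]

theorem pT_isolX (Γ : Finset (X × Y)) (r : ℕ) (hr : 1 ≤ r) (T : Finset (X ⊕ Y)) (x : X)
    (h : dgX Γ x = 0) : pT Γ r T (.inl x) = 0 := by
  obtain ⟨s, rfl⟩ := Nat.exists_eq_add_of_le hr
  rw [add_comm, pT_succ, card_nbrs_inl, h]
  simp

theorem pT_isolY (Γ : Finset (X × Y)) (r : ℕ) (hr : 1 ≤ r) (T : Finset (X ⊕ Y)) (y : Y)
    (h : dgY Γ y = 0) : pT Γ r T (.inr y) = 0 := by
  obtain ⟨s, rfl⟩ := Nat.exists_eq_add_of_le hr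
  rw [add_comm, pT_succ, card_nbrs_inr, h]
  simp

theorem pT_ball (G Γ : Finset (X × Y)) (h : Γ ⊆ G) (r : ℕ) (T : Finset (X ⊕ Y)) (v : X ⊕ Y)
    (hv : pT Γ r T v ≠ 0) : v ∈ ball G r T := by
  induction r generalizing v with
  | zero =>
    rw [pT_zero] at hv
    simp only [ball]
    by_contra hcon
    simp [hcon] at hv
  | succ r ih =>
    rw [pT_succ] at hv
    have h1 : ∑ w ∈ nbrs Γ v, pT Γ r T w ≠ 0 := fun h0 => hv (by rw [h0, zero_div])
    obtain ⟨w, hw, hw1⟩ := exists_ne_zero_of_sum_ne_zero h1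
    have h2 := ih w hw1
    simp only [ball, mem_union, mem_biUnion]
    refine Or.inr ⟨w, h2, ?_⟩
    rw [← nb_rel, WC.mem_nb] at hw ⊢
    have h3 := rel_symm Γ _ _ hw
    rcases v with x | y <;> rcases w with x' | y' <;> simp only [rel] at h3 ⊢
    · exact h h3
    · exact h h3

/-- the complement: the walk started at a non isolated vertex stays in the non isolated vertices -/
theorem pT_compl (Γ : Finset (X × Y)) (r : ℕ) (T : Finset (X ⊕ Y)) (v : X ⊕ Y)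
    (hv : match v with | .inl x => dgX Γ x ≠ 0 | .inr y => dgY Γ y ≠ 0) :
    pT Γ r T v + pT Γ r Tᶜ v = 1 := by
  rw [pT_eq, pT_eq, sum_add_sum_compl]
  refine WC.pw_row (rel_symm Γ) r v ?_
  rcases v with x | y
  · exact (nb_nonempty_inl Γ x).2 hv
  · exact (nb_nonempty_inr Γ y).2 hv

end Pool.SCDH
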