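import Pool.Agent.Lib.SCDH.Defs
import Pool.Agent.Lib.SCDH.W01

set_option linter.unusedSectionVars false

namespace Pool.SCDH

open Finset Pool.MP_0ccee8_co.Lib2

attribute [local irreducible] rW

variable {X Y : Type} [Fintype X] [DecidableEq X] [Fintype Y] [DecidableEq Y]

private theorem mem_nbrs (G : Finset (X × Y)) (v w : X ⊕ Y) : w ∈ nbrs G v ↔ rel G v w := by
  rw [← nb_rel, WC.mem_nb]

theorem pT_local (G Γ Γ' : Finset (X × Y)) (h : Γ ⊆ G) (h' : Γ' ⊆ G) (r : ℕ) (T : Finset (X ⊕ Y))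
    (hloc : ∀ e : X × Y, (Sum.inl e.1 ∈ ball G r T ∨ Sum.inr e.2 ∈ ball G r T) → (e ∈ Γ ↔ e ∈ Γ'))
    (v : X ⊕ Y) : pT Γ r T v = pT Γ' r T v := by
  induction r generalizing v with
  | zero => rw [pT_zero, pT_zero]
  | succ r ih =>
    by_cases hv : v ∈ ball G (r + 1) T
    · have h1 : nbrs Γ v = nbrs Γ' v := by
        ext w
        rw [mem_nbrs, mem_nbrs]
        rcases v with x | y <;> rcases w with x' | y' <;> simp only [rel]
        · exact hloc (x, y') (Or.inl hv)
        · exact hloc (x', y) (Or.inr hv)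
      rw [pT_succ, pT_succ, h1]
      congr 1
      refine sum_congr rfl fun w _ => ih ?_ w
      intro e he
      refine hloc e ?_
      rcases he with he | he
      · exact Or.inl (mem_union_left _ he)
      · exact Or.inr (mem_union_left _ he)
    · have h1 : pT Γ (r + 1) T v = 0 := by
        by_contra hcon
        exact hv (pT_ball G Γ h _ _ _ hcon)
      have h2 : pT Γ' (r + 1) T v = 0 := by
        by_contra hcon
        exact hv (pT_ball G Γ' h' _ _ _ hcon)
      rw [h1, h2]

theorem cX_local (G Γ Γ' : Finset (X × Y)) (h : Γ ⊆ G) (h' : Γ' ⊆ G) (n : ℕ) (T : Finset (X ⊕ Y))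
    (hloc : ∀ e : X × Y, (Sum.inl e.1 ∈ ball G rW T ∨ Sum.inr e.2 ∈ ball G rW T) → (e ∈ Γ ↔ e ∈ Γ')) :
    cX Γ n T = cX Γ' n T ∧ cY Γ n T = cY Γ' n T := by
  constructor
  · ext x
    simp only [cX, mem_filter, mem_univ, true_and]
    rw [pT_local G Γ Γ' h h' rW T hloc]
  · ext y
    simp only [cY, mem_filter, mem_univ, true_and]
    rw [pT_local G Γ Γ' h h' rW T hloc]

private theorem mem_of_cX (G Γ : Finset (X × Y)) (h : Γ ⊆ G) (n : ℕ) (T : Finset (X ⊕ Y)) (r : ℕ)
    (v : X ⊕ Y) (hv : 1 ≤ 2 * (Nτ n : ℝ) * pT Γ r T v) : v ∈ ball G r T := by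
  have h2 : pT Γ r T v ≠ 0 := by
    intro h0
    rw [h0] at hv
    norm_num at hv
  exact pT_ball G Γ h r T v h2

theorem cX_ball (G Γ : Finset (X × Y)) (h : Γ ⊆ G) (n : ℕ) (T : Finset (X ⊕ Y)) :
    (∀ x ∈ cX Γ n T, Sum.inl x ∈ ball G rW T) ∧ ∀ y ∈ cY Γ n T, Sum.inr y ∈ ball G rW T := by
  refine ⟨fun x hx => ?_, fun y hy => ?_⟩
  · exact mem_of_cX G Γ h n T rW _ (mem_filter.1 hx).2
  · exact mem_of_cX G Γ h n T rW _ (mem_filter.1 hy).2

theorem cX_empty (Γ : Finset (X × Y)) (n : ℕ) : cX Γ n (∅ : Finset (X ⊕ Y)) = ∅ ∧ cY Γ n (∅ : Finset (X ⊕ Y)) = ∅ := by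
  constructor
  · rw [cX, filter_eq_empty_iff]
    intro x _
    rw [pT_empty]
    norm_num
  · rw [cY, filter_eq_empty_iff]
    intro x _
    rw [pT_empty]
    norm_num

private theorem nbrs_card_le {n d κ : ℕ} (H : Host X Y n d κ) (v : X ⊕ Y) : (nbrs H.G v).card ≤ n := by
  rcases v with x | y
  · rw [card_nbrs_inl, H.degX]; exact H.hd2
  · rw [card_nbrs_inr, H.degY]; exact H.hκd.trans H.hd2

theorem ball_card {n d κ : ℕ} (H : Host X Y n d κ) (R : ℕ) (T : Finset (X ⊕ Y)) :
    (ball H.G R T).card ≤ (n + 1) ^ R * T.card := by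
  induction R with
  | zero => simp [ball]
  | succ R ih =>
    simp only [ball]
    refine (card_union_le _ _).trans ?_
    have h1 : ((ball H.G R T).biUnion (nbrs H.G)).card ≤ (ball H.G R T).card * n :=
      card_biUnion_le_card_mul _ _ _ fun v _ => nbrs_card_le H v
    calc _ ≤ (ball H.G R T).card + (ball H.G R T).card * n := by omega
      _ = (n + 1) * (ball H.G R T).card := by ring
      _ ≤ (n + 1) * ((n + 1) ^ R * T.card) := Nat.mul_le_mul_left _ ih
      _ = _ := by ring

theorem ball_add (G : Finset (X × Y)) (R R' : ℕ) (T : Finset (X ⊕ Y)) :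
    ball G R' (ball G R T) = ball G (R + R') T := by
  induction R' with
  | zero => rfl
  | succ R' ih =>
    rw [← add_assoc]
    simp only [ball]
    rw [ih]

theorem ball_edge (G : Finset (X × Y)) (R : ℕ) (T : Finset (X ⊕ Y)) (e : X × Y) (he : e ∈ G) :
    (Sum.inl e.1 ∈ ball G R T → Sum.inr e.2 ∈ ball G (R + 1) T) ∧
    (Sum.inr e.2 ∈ ball G R T → Sum.inl e.1 ∈ ball G (R + 1) T) := by
  constructor
  · intro h
    simp only [ball, mem_union, mem_biUnion]
    exact Or.inr ⟨_, h, by rw [mem_nbrs]; exact he⟩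
  · intro h
    simp only [ball, mem_union, mem_biUnion]
    exact Or.inr ⟨_, h, by rw [mem_nbrs]; exact he⟩

theorem ball_mono (G : Finset (X × Y)) (R R' : ℕ) (h : R ≤ R') (T T' : Finset (X ⊕ Y)) (hT : T ⊆ T') :
    ball G R T ⊆ ball G R' T' := by
  obtain ⟨s, rfl⟩ := Nat.exists_eq_add_of_le h
  have h1 : ball G R T ⊆ ball G R T' := by
    clear h
    induction R with
    | zero => exact hT
    | succ R ih =>
      simp only [ball]
      exact union_subset_union ih (biUnion_subset_biUnion_of_subset_left _ ih)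
  refine h1.trans ?_
  rw [← ball_add]
  generalize ball G R T' = B
  clear h h1
  induction s with
  | zero => exact Subset.refl _
  | succ s ih => exact ih.trans subset_union_left

private theorem mem_ball_iff (G : Finset (X × Y)) (R : ℕ) (T : Finset (X ⊕ Y)) (u : X ⊕ Y) :
    u ∈ ball G R T ↔ ∃ v ∈ T, u ∈ ball G R {v} := by
  constructor
  · induction R generalizing u with
    | zero =>
      intro h
      exact ⟨u, h, mem_singleton_self u⟩
    | succ R ih =>
      intro h
      simp only [ball, mem_union, mem_biUnion] at h ⊢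
      rcases h with h | ⟨w, hw, hu⟩
      · obtain ⟨v, hv, h1⟩ := ih u h
        exact ⟨v, hv, Or.inl h1⟩
      · obtain ⟨v, hv, h1⟩ := ih w hw
        exact ⟨v, hv, Or.inr ⟨w, h1, hu⟩⟩
  · rintro ⟨v, hv, h⟩
    exact ball_mono G R R le_rfl _ _ (singleton_subset_iff.2 hv) h

theorem ball_symm (G : Finset (X × Y)) (R : ℕ) (u v : X ⊕ Y) : u ∈ ball G R {v} ↔ v ∈ ball G R {u} := by
  have key : ∀ (R : ℕ) (u v : X ⊕ Y), u ∈ ball G R {v} → v ∈ ball G R {u} := by
    intro R
    induction R with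
    | zero =>
      intro u v h
      have : u = v := mem_singleton.1 h
      subst this
      exact h
    | succ R ih =>
      intro u v h
      simp only [ball, mem_union, mem_biUnion] at h
      rcases h with h | ⟨w, hw, hu⟩
      · exact mem_union_left _ (ih u v h)
      · rw [add_comm, ← ball_add, mem_ball_iff]
        refine ⟨w, ?_, ih w v hw⟩
        have : rel G u w := rel_symm G _ _ ((mem_nbrs G _ _).1 hu)
        simp only [ball, mem_union, mem_biUnion, mem_singleton]
        exact Or.inr ⟨u, rfl, (mem_nbrs G _ _).2 this⟩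
  exact ⟨key R u v, key R v u⟩

end Pool.SCDH
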