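import Pool.Agent.Lib.SCDH.Defs
import Pool.Agent.Lib.SCDH.W01

set_option linter.unusedSectionVars false

namespace Pool.SCDH

open Finset Pool.MP_0ccee8_co.Lib2

attribute [local irreducible] rW

variable {X Y : Type} [Fintype X] [DecidableEq X] [Fintype Y] [DecidableEq Y]

/-- the Hamming distance of the host is a walk distance for all its subgraphs -/
theorem wdist {n d κ : ℕ} (H : Host X Y n d κ) (Γ : Finset (X × Y)) (h : Γ ⊆ H.G) :
    WC.WDist (rel Γ) H.dist where
  self := H.dist_self
  step := by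
    intro v w hvw u
    rcases v with x | y <;> rcases w with x' | y'
    · exact absurd hvw (by simp [rel])
    · have h1 := H.dist_step (x, y') (h hvw) u
      simp only at h1
      rcases h1 with h1 | h1
      · exact Or.inl h1.symm
      · exact Or.inr h1
    · have h1 := H.dist_step (x', y) (h hvw) u
      simp only at h1
      rcases h1 with h1 | h1
      · exact Or.inr h1
      · exact Or.inl h1.symm
    · exact absurd hvw (by simp [rel])
  few := by
    intro v u
    rw [nb_rel]
    rcases v with x | y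
    · refine le_trans ?_ (H.nearX x u)
      have : (nbrs Γ (.inl x)).filter (fun w => H.dist w u + 1 = H.dist (.inl x) u) ⊆
          (univ.filter (fun y => (x, y) ∈ H.G ∧
            H.dist (.inr y) u + 1 = H.dist (.inl x) u)).map ⟨Sum.inr, Sum.inr_injective⟩ := by
        intro w hw
        rcases w with x' | y'
        · simp [nbrs] at hw
        · simp only [nbrs, mem_filter, mem_map, mem_univ, true_and, Function.Embedding.coeFn_mk,
            Sum.inr.injEq, exists_eq_right] at hw ⊢
          exact ⟨h hw.1, hw.2⟩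
      refine (card_le_card this).trans ?_
      rw [card_map]
    · refine le_trans ?_ (H.nearY y u)
      have : (nbrs Γ (.inr y)).filter (fun w => H.dist w u + 1 = H.dist (.inr y) u) ⊆
          (univ.filter (fun x => (x, y) ∈ H.G ∧
            H.dist (.inl x) u + 1 = H.dist (.inr y) u)).map ⟨Sum.inl, Sum.inl_injective⟩ := by
        intro w hw
        rcases w with x' | y'
        · simp only [nbrs, mem_filter, mem_map, mem_univ, true_and, Function.Embedding.coeFn_mk,
            Sum.inl.injEq, exists_eq_right] at hw ⊢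
          exact ⟨h hw.1, hw.2⟩
        · simp [nbrs] at hw
      refine (card_le_card this).trans ?_
      rw [card_map]

theorem kernel {n d κ : ℕ} (H : Host X Y n d κ) (Γ : Finset (X × Y)) (h : Γ ⊆ H.G) (Δ : ℝ) (hΔ : 1 ≤ Δ)
    (hX : ∀ x, dgX Γ x = 0 ∨ Δ ≤ (dgX Γ x : ℝ)) (hY : ∀ y, dgY Γ y = 0 ∨ Δ ≤ (dgY Γ y : ℝ))
    (R : ℕ) (u v : X ⊕ Y) :
    pT Γ (2 * R) {u} v ≤ (2 * (R : ℝ) + 1) ^ (2 * R) * (1 / Δ) ^ R := by
  have hs1 : 1 ≤ Real.sqrt Δ := by
    rw [Real.one_le_sqrt]; exact hΔ
  have hsq : Real.sqrt Δ ^ 2 = Δ := Real.sq_sqrt (by linarith)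
  have hdeg : ∀ v, (WC.nb (rel Γ) v).Nonempty → Real.sqrt Δ ^ 2 ≤ ((WC.nb (rel Γ) v).card : ℝ) := by
    intro v hv
    rw [hsq, nb_rel]
    rcases v with x | y
    · have h1 := (nb_nonempty_inl Γ x).1 hv
      rw [card_nbrs_inl]
      exact (hX x).resolve_left h1
    · have h1 := (nb_nonempty_inr Γ y).1 hv
      rw [card_nbrs_inr]
      exact (hY y).resolve_left h1
  have h1 := WC.pw_le (wdist H Γ h) (Real.sqrt Δ) hs1 hdeg (2 * R) v u
  rw [pT_eq, sum_singleton]
  refine h1.trans ?_
  have h2 : Real.sqrt Δ ^ (2 * R) ≤ Real.sqrt Δ ^ (2 * R + H.dist v u) :=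
    pow_le_pow_right₀ hs1 (by omega)
  have h3 : Real.sqrt Δ ^ (2 * R) = Δ ^ R := by rw [pow_mul, hsq]
  rw [h3] at h2
  have h4 : 0 < Δ ^ R := by positivity
  rw [one_div, inv_pow, ← div_eq_mul_inv]
  push_cast
  gcongr

end Pool.SCDH
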