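import Pool.Agent.Lib.SCDH.Defs
import Pool.Agent.Lib.SCDH.G01
import Pool.Agent.Lib.SCDH.W01

/-!
# Row W04 (paper scd_h36.md)
Reversibility: the walk from Q leaves Q with total weight at most r * boundary.
Recipe: let f_r = (stp Γ)^[r] 1_(Qᶜ) = pT Γ r Qᶜ; <g, stp f>_deg = <stp g, f>_deg (both are sums over edges). <1_Q, P^(r+1) 1_Qᶜ> = <P 1_Q, P^r 1_Qᶜ>; P 1_Q ≤ 1_Q + 1_Qᶜ P 1_Q, and <1_Qᶜ P 1_Q, 1> = bd. So the quantity grows by at most bd in each step (all functions ≤ 1).
-/

set_option linter.unusedSectionVars false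
set_option linter.unusedVariables false

namespace Pool.SCDH

open Finset Pool.MP_0ccee8_co.Lib2

variable {X Y : Type} [Fintype X] [DecidableEq X] [Fintype Y] [DecidableEq Y]

private lemma w4_dgX (Γ : Finset (X × Y)) (x : X) :
    (dgX Γ x : ℝ) = ∑ y, if (x, y) ∈ Γ then (1 : ℝ) else 0 := by
  have h : dgX Γ x = (univ.filter (fun y => (x, y) ∈ Γ)).card := by
    unfold dgX eB
    refine Finset.card_bij (fun e _ => e.2) ?_ ?_ ?_
    · intro e he
      simp only [mem_filter, mem_singleton, mem_univ, and_true] at he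
      simp only [mem_filter, mem_univ, true_and]
      rw [← he.2]; exact he.1
    · intro e he e' he' hh
      simp only [mem_filter, mem_singleton, mem_univ, and_true] at he he'
      exact Prod.ext (he.2.trans he'.2.symm) hh
    · intro y hy
      simp only [mem_filter, mem_univ, true_and] at hy
      exact ⟨(x, y), by simp [hy], rfl⟩
  rw [h, Finset.card_filter]
  push_cast
  rfl

private lemma w4_dgY (Γ : Finset (X × Y)) (y : Y) :
    (dgY Γ y : ℝ) = ∑ x, if (x, y) ∈ Γ then (1 : ℝ) else 0 := by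
  have h : dgY Γ y = (univ.filter (fun x => (x, y) ∈ Γ)).card := by
    unfold dgY eB
    refine Finset.card_bij (fun e _ => e.1) ?_ ?_ ?_
    · intro e he
      simp only [mem_filter, mem_singleton, mem_univ, true_and] at he
      simp only [mem_filter, mem_univ, true_and]
      rw [← he.2]; exact he.1
    · intro e he e' he' hh
      simp only [mem_filter, mem_singleton, mem_univ, true_and] at he he'
      exact Prod.ext hh (he.2.trans he'.2.symm)
    · intro x hx
      simp only [mem_filter, mem_univ, true_and] at hx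
      exact ⟨(x, y), by simp [hx], rfl⟩
  rw [h, Finset.card_filter]
  push_cast
  rfl

private lemma w4_mulX (Γ : Finset (X × Y)) (f : X ⊕ Y → ℝ) (x : X) :
    (dgX Γ x : ℝ) * stp Γ f (.inl x) = ∑ y, if (x, y) ∈ Γ then f (.inr y) else 0 := by
  show (dgX Γ x : ℝ) * ((∑ y, if (x, y) ∈ Γ then f (.inr y) else 0) / (dgX Γ x : ℝ)) = _
  by_cases h : (dgX Γ x : ℝ) = 0
  · rw [h, zero_mul]
    rw [w4_dgX] at h
    rw [Finset.sum_eq_zero_iff_of_nonneg (fun y _ => by split_ifs <;> norm_num)] at h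
    symm
    apply Finset.sum_eq_zero
    intro y hy
    have := h y hy
    by_cases hm : (x, y) ∈ Γ
    · simp [hm] at this
    · simp [hm]
  · field_simp

private lemma w4_mulY (Γ : Finset (X × Y)) (f : X ⊕ Y → ℝ) (y : Y) :
    (dgY Γ y : ℝ) * stp Γ f (.inr y) = ∑ x, if (x, y) ∈ Γ then f (.inl x) else 0 := by
  show (dgY Γ y : ℝ) * ((∑ x, if (x, y) ∈ Γ then f (.inl x) else 0) / (dgY Γ y : ℝ)) = _
  by_cases h : (dgY Γ y : ℝ) = 0
  · rw [h, zero_mul]
    rw [w4_dgY] at h
    rw [Finset.sum_eq_zero_iff_of_nonneg (fun y _ => by split_ifs <;> norm_num)] at h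
    symm
    apply Finset.sum_eq_zero
    intro x hx
    have := h x hx
    by_cases hm : (x, y) ∈ Γ
    · simp [hm] at this
    · simp [hm]
  · field_simp

private lemma w4_succ (Γ : Finset (X × Y)) (r : ℕ) (T : Finset (X ⊕ Y)) :
    pT Γ (r + 1) T = stp Γ (pT Γ r T) := by
  unfold pT
  rw [Function.iterate_succ_apply']

private lemma w4_swap (Γ : Finset (X × Y)) (F : X → Y → ℝ) :
    ∑ y, ∑ x, (if (x, y) ∈ Γ then F x y else 0) = ∑ x, ∑ y, if (x, y) ∈ Γ then F x y else 0 :=
  Finset.sum_comm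

private lemma w4_bd (Γ : Finset (X × Y)) (A : Finset X) (N : Finset Y) :
    (bd Γ A N : ℝ) = ∑ x, ∑ y, if (x, y) ∈ Γ then
      ((if x ∈ A ∧ y ∉ N then (1 : ℝ) else 0) + (if x ∉ A ∧ y ∈ N then 1 else 0)) else 0 := by
  have h1 : ∀ (B : Finset X) (M : Finset Y), (eB Γ B M : ℝ) =
      ∑ x, ∑ y, if (x, y) ∈ Γ then (if x ∈ B ∧ y ∈ M then (1 : ℝ) else 0) else 0 := by
    intro B M
    unfold eB
    rw [Finset.card_filter]
    push_cast
    rw [← Fintype.sum_prod_type' (f := fun x y => if (x, y) ∈ Γ then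
      (if x ∈ B ∧ y ∈ M then (1 : ℝ) else 0) else 0)]
    simp only [Prod.mk.eta]
    rw [Finset.sum_ite_mem, Finset.univ_inter]
  unfold bd
  push_cast
  rw [h1, h1, ← Finset.sum_add_distrib]
  refine Finset.sum_congr rfl fun x _ => ?_
  rw [← Finset.sum_add_distrib]
  refine Finset.sum_congr rfl fun y _ => ?_
  by_cases hm : (x, y) ∈ Γ
  · simp only [if_pos hm, mem_compl]
  · simp only [if_neg hm, add_zero]

theorem leave (Γ : Finset (X × Y)) (A : Finset X) (N : Finset Y) (r : ℕ) :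
    ∑ x ∈ A, (dgX Γ x : ℝ) * pT Γ r (A.disjSum N)ᶜ (.inl x) + ∑ y ∈ N, (dgY Γ y : ℝ) * pT Γ r (A.disjSum N)ᶜ (.inr y)
      ≤ r * (bd Γ A N : ℝ) := by
  induction r with
  | zero =>
    simp only [Nat.cast_zero, zero_mul]
    apply le_of_eq
    rw [Finset.sum_eq_zero, Finset.sum_eq_zero, add_zero]
    · intro y hy
      simp [pT, hy]
    · intro x hx
      simp [pT, hx]
  | succ r ih =>
    set p := pT Γ r (A.disjSum N)ᶜ with hp
    have hp0 : ∀ v, 0 ≤ p v := fun v => pT_nonneg _ _ _ _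
    have hp1 : ∀ v, p v ≤ 1 := fun v => pT_le_one _ _ _ _
    have hX : ∀ x, (dgX Γ x : ℝ) * pT Γ (r + 1) (A.disjSum N)ᶜ (.inl x) =
        ∑ y, if (x, y) ∈ Γ then p (.inr y) else 0 := by
      intro x; rw [w4_succ, w4_mulX]
    have hY : ∀ y, (dgY Γ y : ℝ) * pT Γ (r + 1) (A.disjSum N)ᶜ (.inr y) =
        ∑ x, if (x, y) ∈ Γ then p (.inl x) else 0 := by
      intro y; rw [w4_succ, w4_mulY]
    have e1 : ∑ x ∈ A, (dgX Γ x : ℝ) * pT Γ (r + 1) (A.disjSum N)ᶜ (.inl x) =
        ∑ x, ∑ y, if (x, y) ∈ Γ then (if x ∈ A then p (.inr y) else 0) else 0 := by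
      rw [Finset.sum_congr rfl (fun x _ => hX x)]
      rw [← Finset.sum_filter_add_sum_filter_not univ (fun x => x ∈ A)
        (fun x => ∑ y, if (x, y) ∈ Γ then (if x ∈ A then p (.inr y) else 0) else 0)]
      rw [Finset.sum_eq_zero (s := univ.filter (fun x => ¬ x ∈ A))]
      · rw [add_zero]
        refine Finset.sum_congr (by ext; simp) fun x hx => ?_
        simp only [mem_filter, mem_univ, true_and] at hx
        simp [hx]
      · intro x hx
        simp only [mem_filter, mem_univ, true_and] at hx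
        simp [hx]
    have e2 : ∑ y ∈ N, (dgY Γ y : ℝ) * pT Γ (r + 1) (A.disjSum N)ᶜ (.inr y) =
        ∑ x, ∑ y, if (x, y) ∈ Γ then (if y ∈ N then p (.inl x) else 0) else 0 := by
      rw [Finset.sum_congr rfl (fun y _ => hY y)]
      rw [← w4_swap Γ (fun x y => if y ∈ N then p (.inl x) else 0)]
      rw [← Finset.sum_filter_add_sum_filter_not univ (fun y => y ∈ N)
        (fun y => ∑ x, if (x, y) ∈ Γ then (if y ∈ N then p (.inl x) else 0) else 0)]
      rw [Finset.sum_eq_zero (s := univ.filter (fun y => ¬ y ∈ N))]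
      · rw [add_zero]
        refine Finset.sum_congr (by ext; simp) fun y hy => ?_
        simp only [mem_filter, mem_univ, true_and] at hy
        simp [hy]
      · intro y hy
        simp only [mem_filter, mem_univ, true_and] at hy
        simp [hy]
    have f1 : ∑ x ∈ A, (dgX Γ x : ℝ) * p (.inl x) =
        ∑ x, ∑ y, if (x, y) ∈ Γ then (if x ∈ A then p (.inl x) else 0) else 0 := by
      rw [← Finset.sum_filter_add_sum_filter_not univ (fun x => x ∈ A)
        (fun x => ∑ y, if (x, y) ∈ Γ then (if x ∈ A then p (.inl x) else 0) else 0)]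
      rw [Finset.sum_eq_zero (s := univ.filter (fun x => ¬ x ∈ A))]
      · rw [add_zero]
        refine Finset.sum_congr (by ext; simp) fun x hx => ?_
        simp only [mem_filter, mem_univ, true_and] at hx
        rw [w4_dgX, Finset.sum_mul]
        refine Finset.sum_congr rfl fun y _ => ?_
        simp [hx]
      · intro x hx
        simp only [mem_filter, mem_univ, true_and] at hx
        simp [hx]
    have f2 : ∑ y ∈ N, (dgY Γ y : ℝ) * p (.inr y) =
        ∑ x, ∑ y, if (x, y) ∈ Γ then (if y ∈ N then p (.inr y) else 0) else 0 := by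
      rw [← w4_swap Γ (fun x y => if y ∈ N then p (.inr y) else 0)]
      rw [← Finset.sum_filter_add_sum_filter_not univ (fun y => y ∈ N)
        (fun y => ∑ x, if (x, y) ∈ Γ then (if y ∈ N then p (.inr y) else 0) else 0)]
      rw [Finset.sum_eq_zero (s := univ.filter (fun y => ¬ y ∈ N))]
      · rw [add_zero]
        refine Finset.sum_congr (by ext; simp) fun y hy => ?_
        simp only [mem_filter, mem_univ, true_and] at hy
        rw [w4_dgY, Finset.sum_mul]
        refine Finset.sum_congr rfl fun x _ => ?_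
        simp [hy]
      · intro y hy
        simp only [mem_filter, mem_univ, true_and] at hy
        simp [hy]
    have key : ∑ x ∈ A, (dgX Γ x : ℝ) * pT Γ (r + 1) (A.disjSum N)ᶜ (.inl x) +
        ∑ y ∈ N, (dgY Γ y : ℝ) * pT Γ (r + 1) (A.disjSum N)ᶜ (.inr y) ≤
        (∑ x ∈ A, (dgX Γ x : ℝ) * p (.inl x) + ∑ y ∈ N, (dgY Γ y : ℝ) * p (.inr y)) +
          (bd Γ A N : ℝ) := by
      rw [e1, e2, f1, f2, w4_bd]
      simp only [← Finset.sum_add_distrib]
      refine Finset.sum_le_sum fun x _ => Finset.sum_le_sum fun y _ => ?_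
      by_cases hm : (x, y) ∈ Γ
      · simp only [if_pos hm]
        have a1 := hp0 (.inl x)
        have a2 := hp1 (.inl x)
        have a3 := hp0 (.inr y)
        have a4 := hp1 (.inr y)
        by_cases hx : x ∈ A <;> by_cases hy : y ∈ N <;> simp [hx, hy] <;> linarith
      · simp only [if_neg hm]; norm_num
    calc _ ≤ _ := key
      _ ≤ r * (bd Γ A N : ℝ) + (bd Γ A N : ℝ) := by gcongr
      _ = ((r + 1 : ℕ) : ℝ) * (bd Γ A N : ℝ) := by push_cast; ring

theorem mass (Γ : Finset (X × Y)) (T : Finset (X ⊕ Y)) (r : ℕ) (n : ℕ) (hX : ∀ x, dgX Γ x ≤ n) (hY : ∀ y, dgY Γ y ≤ n) :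
    ∑ x, (dgX Γ x : ℝ) * pT Γ r T (.inl x) + ∑ y, (dgY Γ y : ℝ) * pT Γ r T (.inr y) ≤ n * T.card := by
  induction r with
  | zero =>
    have h : ((T.card : ℕ) : ℝ) = ∑ x : X, (if (Sum.inl x : X ⊕ Y) ∈ T then (1 : ℝ) else 0) +
        ∑ y : Y, (if (Sum.inr y : X ⊕ Y) ∈ T then (1 : ℝ) else 0) := by
      rw [← Fintype.sum_sum_type (fun v : X ⊕ Y => if v ∈ T then (1 : ℝ) else 0)]
      simp
    rw [h, mul_add, Finset.mul_sum, Finset.mul_sum]
    refine add_le_add ?_ ?_
    · refine Finset.sum_le_sum fun x _ => ?_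
      show (dgX Γ x : ℝ) * (if (Sum.inl x : X ⊕ Y) ∈ T then 1 else 0) ≤ _
      refine mul_le_mul_of_nonneg_right (by exact_mod_cast hX x) (by split_ifs <;> norm_num)
    · refine Finset.sum_le_sum fun y _ => ?_
      show (dgY Γ y : ℝ) * (if (Sum.inr y : X ⊕ Y) ∈ T then 1 else 0) ≤ _
      refine mul_le_mul_of_nonneg_right (by exact_mod_cast hY y) (by split_ifs <;> norm_num)
  | succ r ih =>
    refine le_trans (le_of_eq ?_) ih
    set p := pT Γ r T with hp
    have hX' : ∀ x, (dgX Γ x : ℝ) * pT Γ (r + 1) T (.inl x) =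
        ∑ y, if (x, y) ∈ Γ then p (.inr y) else 0 := by
      intro x; rw [w4_succ, w4_mulX]
    have hY' : ∀ y, (dgY Γ y : ℝ) * pT Γ (r + 1) T (.inr y) =
        ∑ x, if (x, y) ∈ Γ then p (.inl x) else 0 := by
      intro y; rw [w4_succ, w4_mulY]
    rw [Finset.sum_congr rfl (fun x _ => hX' x), Finset.sum_congr rfl (fun y _ => hY' y)]
    have f1 : ∑ x, (dgX Γ x : ℝ) * p (.inl x) =
        ∑ x, ∑ y, if (x, y) ∈ Γ then p (.inl x) else 0 := by
      refine Finset.sum_congr rfl fun x _ => ?_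
      rw [w4_dgX, Finset.sum_mul]
      refine Finset.sum_congr rfl fun y _ => ?_
      split_ifs <;> simp
    have f2 : ∑ y, (dgY Γ y : ℝ) * p (.inr y) =
        ∑ y, ∑ x, if (x, y) ∈ Γ then p (.inr y) else 0 := by
      refine Finset.sum_congr rfl fun y _ => ?_
      rw [w4_dgY, Finset.sum_mul]
      refine Finset.sum_congr rfl fun x _ => ?_
      split_ifs <;> simp
    rw [f1, f2, w4_swap Γ (fun x y => p (.inr y)), w4_swap Γ (fun x y => p (.inl x))]
    ring

end Pool.SCDH
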