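import Pool.Agent.Lib.SCDH.Defs
import Pool.Agent.Lib.SCDH.W01

set_option linter.unusedSectionVars false

namespace Pool.SCDH

open Finset Pool.MP_0ccee8_co.Lib2

attribute [local irreducible] rW

variable {X Y : Type} [Fintype X] [DecidableEq X] [Fintype Y] [DecidableEq Y]

theorem certT {n d κ : ℕ} (H : Host X Y n d κ) (hn : 3 ≤ n) (Γ : Finset (X × Y)) (r : ℕ) (N : ℕ) (hN : 1 ≤ N)
    (hk : ∀ u v, 128 * (n : ℝ) * N * pT Γ r {u} v ≤ 1) (Q : Finset (X ⊕ Y)) :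
    ∃ T : Finset (X ⊕ Y), T ⊆ Q ∧ N * T.card ≤ 2 * Q.card ∧
      ∀ v, |(N : ℝ) * pT Γ r T v - pT Γ r Q v| ≤ 1 / 4 := by
  obtain ⟨m, rfl⟩ := Nat.exists_eq_add_of_le hN
  have hm : ((1 + m : ℕ) : ℝ) = (m : ℝ) + 1 := by push_cast; ring
  have hm0 : (0 : ℝ) < (m : ℝ) + 1 := by positivity
  have hn0 : (0 : ℝ) < n := by exact_mod_cast (by omega : 0 < n)
  have hcard : Fintype.card (X ⊕ Y) ≤ 2 ^ n := by
    rw [Fintype.card_sum]; exact H.cardV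
  have hpw : ∀ v u, WC.pw (rel Γ) r v u ≤ 1 / ((m : ℝ) + 1) / (128 * n) := by
    intro v u
    have h1 := hk u v
    rw [pT_eq, sum_singleton, hm] at h1
    rw [le_div_iff₀ (by positivity), le_div_iff₀ hm0]
    linarith
  obtain ⟨T, hTQ, hT1, hT2⟩ := WC.choose_T (WC.pw (rel Γ) r) (WC.pw_nonneg _ r)
    (WC.pw_row_le (rel_symm Γ) r) m n (by omega) hcard hpw Q
  refine ⟨T, hTQ, ?_, fun v => ?_⟩
  · have h1 : ((1 + m : ℕ) : ℝ) * T.card ≤ 2 * Q.card := by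
      rw [hm]
      calc ((m : ℝ) + 1) * T.card ≤ ((m : ℝ) + 1) * (2 * (1 / ((m : ℝ) + 1)) * Q.card) :=
            mul_le_mul_of_nonneg_left hT1 hm0.le
        _ = 2 * Q.card := by field_simp
    exact_mod_cast h1
  · have h1 := hT2 v
    rw [← pT_eq, ← pT_eq] at h1
    rw [hm]
    have h2 : ((m : ℝ) + 1) * pT Γ r T v - pT Γ r Q v =
        ((m : ℝ) + 1) * (pT Γ r T v - 1 / ((m : ℝ) + 1) * pT Γ r Q v) := by
      field_simp
    rw [h2, abs_mul, abs_of_pos hm0]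
    calc _ ≤ ((m : ℝ) + 1) * (1 / ((m : ℝ) + 1) / 4) := mul_le_mul_of_nonneg_left h1 hm0.le
      _ = 1 / 4 := by field_simp

end Pool.SCDH
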