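import Pool.Agent.Lib.SCDH.Defs
import Pool.Agent.Lib.SCDH.G01
import Pool.Agent.Lib.SCDH.G02
import Pool.Agent.Lib.SCDH.G04
import Pool.Agent.Lib.SCDH.W01
import Pool.Agent.Lib.SCDH.W03
import Pool.Agent.Lib.SCDH.W04
import Pool.Agent.Lib.SCDH.W05

set_option linter.unusedSectionVars false
set_option linter.unusedVariables false

namespace Pool.SCDH

open Finset Pool.MP_0ccee8_co.Lib2

private theorem rW_eq : rW = 2 * 500 := rfl

attribute [local irreducible] rW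

variable {X Y : Type} [Fintype X] [DecidableEq X] [Fintype Y] [DecidableEq Y]

private theorem num {ε : ℝ} {t n : ℕ} (hB : Big ε t) (hn : Rng t n) :
    128 * (n : ℝ) * (Nτ n : ℕ) * ((2 * ((500 : ℕ) : ℝ) + 1) ^ (2 * 500) * (1 / (t : ℝ) ^ 17) ^ 500) ≤ 1 := by
  have ht := big_t hB
  have ht0 : (0 : ℝ) < t := lt_of_lt_of_le (by positivity) ht
  have ht1 : (1 : ℝ) ≤ t := le_trans (one_le_pow₀ (by norm_num)) ht
  have hn2 := (rng_real hn).2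
  have h1 : (2 * ((500 : ℕ) : ℝ) + 1) ^ (2 * 500) ≤ (t : ℝ) ^ 40 := by
    have e1 : (2 * ((500 : ℕ) : ℝ) + 1) ≤ 10 ^ 4 := by norm_num
    calc (2 * ((500 : ℕ) : ℝ) + 1) ^ (2 * 500) ≤ ((10 : ℝ) ^ 4) ^ (2 * 500) :=
          pow_le_pow_left₀ (by norm_num) e1 _
      _ = ((10 : ℝ) ^ 100) ^ 40 := by rw [← pow_mul, ← pow_mul]
      _ ≤ (t : ℝ) ^ 40 := pow_le_pow_left₀ (by positivity) ht _
  have h2 : (n : ℝ) ^ 41 ≤ (t : ℝ) ^ 8201 := by
    calc (n : ℝ) ^ 41 ≤ (2 * (t : ℝ) ^ 200) ^ 41 := pow_le_pow_left₀ (Nat.cast_nonneg n) hn2 _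
      _ = 2 ^ 41 * (t : ℝ) ^ 8200 := by rw [mul_pow, ← pow_mul]
      _ ≤ t * (t : ℝ) ^ 8200 := by
          refine mul_le_mul_of_nonneg_right ?_ (by positivity)
          refine le_trans ?_ ht
          calc (2 : ℝ) ^ 41 ≤ 10 ^ 41 := pow_le_pow_left₀ (by norm_num) (by norm_num) _
            _ ≤ 10 ^ 100 := pow_le_pow_right₀ (by norm_num) (by norm_num)
      _ = (t : ℝ) ^ 8201 := by rw [← pow_succ']
  have h3 : (128 : ℝ) ≤ t := by
    refine le_trans ?_ ht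
    calc (128 : ℝ) ≤ 10 ^ 3 := by norm_num
      _ ≤ 10 ^ 100 := pow_le_pow_right₀ (by norm_num) (by norm_num)
  have h4 : (1 / (t : ℝ) ^ 17) ^ 500 = 1 / (t : ℝ) ^ 8500 := by
    rw [one_div, inv_pow, ← pow_mul, one_div]
  rw [h4]
  have e2 : 128 * (n : ℝ) * (Nτ n : ℕ) * ((2 * ((500 : ℕ) : ℝ) + 1) ^ (2 * 500) *
      (1 / (t : ℝ) ^ 8500)) =
      128 * (n : ℝ) ^ 41 * (2 * ((500 : ℕ) : ℝ) + 1) ^ (2 * 500) / (t : ℝ) ^ 8500 := by
    unfold Nτ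
    push_cast
    rw [pow_succ (n : ℝ) 40]
    ring
  rw [e2, div_le_one (by positivity)]
  calc 128 * (n : ℝ) ^ 41 * (2 * ((500 : ℕ) : ℝ) + 1) ^ (2 * 500) ≤
        t * (t : ℝ) ^ 8201 * (t : ℝ) ^ 40 := by
        refine mul_le_mul (mul_le_mul h3 h2 (by positivity) ht0.le) h1 (by positivity)
          (by positivity)
    _ = (t : ℝ) ^ 8242 := by rw [← pow_succ', ← pow_add]
    _ ≤ (t : ℝ) ^ 8500 := pow_le_pow_right₀ ht1 (by norm_num)

theorem cert {ε : ℝ} {t n d κ : ℕ} (hB : Big ε t) (hn : Rng t n) (H : Host X Y n d κ) (Γ : Finset (X × Y))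
    (h : Γ ⊆ H.G) (hX : ∀ x, dgX Γ x = 0 ∨ t ^ 17 ≤ dgX Γ x) (hY : ∀ y, dgY Γ y = 0 ∨ t ^ 17 ≤ dgY Γ y)
    (A : Finset X) (N : Finset Y) (hA : ∀ x ∈ A, dgX Γ x ≠ 0) (hN : ∀ y ∈ N, dgY Γ y ≠ 0) :
    ∃ T : Finset (X ⊕ Y), Nτ n * T.card ≤ 2 * (A.card + N.card) ∧
      ∑ x ∈ symmDiff A (cX Γ n T), dgX Γ x + ∑ y ∈ symmDiff N (cY Γ n T), dgY Γ y ≤ 16 * rW * bd Γ A N ∧
      (cX Γ n T).card + (cY Γ n T).card ≤ A.card + N.card + 16 * rW * bd Γ A N := by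
  have ht := big_t hB
  have ht1 : (1 : ℝ) ≤ t := le_trans (one_le_pow₀ (by norm_num)) ht
  have htn : 3 ≤ t := by
    have h3 : (3 : ℝ) ≤ t := by
      refine le_trans ?_ ht
      calc (3 : ℝ) ≤ 10 ^ 3 := by norm_num
        _ ≤ 10 ^ 100 := pow_le_pow_right₀ (by norm_num) (by norm_num)
    exact_mod_cast h3
  have hn3 : 3 ≤ n := by
    refine le_trans htn (le_trans ?_ hn.1)
    exact Nat.le_self_pow (by norm_num) t
  have hN1 : 1 ≤ Nτ n := Nat.one_le_pow _ _ (by omega)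
  have hk : ∀ u v, 128 * (n : ℝ) * (Nτ n : ℕ) * pT Γ rW {u} v ≤ 1 := by
    intro u v
    have h1 := kernel H Γ h ((t : ℝ) ^ 17) (one_le_pow₀ ht1)
      (fun x => (hX x).imp id fun h => by exact_mod_cast h)
      (fun y => (hY y).imp id fun h => by exact_mod_cast h) 500 u v
    rw [rW_eq]
    refine le_trans ?_ (num hB hn)
    exact mul_le_mul_of_nonneg_left h1 (by positivity)
  obtain ⟨T, hTQ, hT1, hT2⟩ := certT H hn3 Γ rW (Nτ n) hN1 hk (A.disjSum N)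
  rw [card_disjSum] at hT1
  have hrW : 1 ≤ rW := by rw [rW_eq]; norm_num
  have hcX : ∀ x, x ∈ cX Γ n T ↔ 1 ≤ 2 * (Nτ n : ℝ) * pT Γ rW T (.inl x) := by
    intro x; simp [cX]
  have hcY : ∀ y, y ∈ cY Γ n T ↔ 1 ≤ 2 * (Nτ n : ℝ) * pT Γ rW T (.inr y) := by
    intro y; simp [cY]
  -- outside
  have hl1 := leave Γ A N rW
  have hl2 := leave Γ Aᶜ Nᶜ rW
  rw [bd_compl] at hl2
  have hcc : (Aᶜ.disjSum Nᶜ)ᶜ = A.disjSum N := by
    ext v
    rcases v with x | y <;> simp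
  rw [hcc] at hl2
  have hp0 := fun T v => pT_nonneg Γ rW T v
  have hd1 : ∑ x ∈ A \ cX Γ n T, (dgX Γ x : ℝ) ≤
      4 * ∑ x ∈ A, (dgX Γ x : ℝ) * pT Γ rW (A.disjSum N)ᶜ (.inl x) := by
    rw [mul_sum]
    refine le_trans (sum_le_sum (f := fun x => (dgX Γ x : ℝ))
      (g := fun x => 4 * ((dgX Γ x : ℝ) * pT Γ rW (A.disjSum N)ᶜ (.inl x))) ?_)
      (sum_le_sum_of_subset_of_nonneg sdiff_subset fun x _ _ => by
        have := hp0 (A.disjSum N)ᶜ (.inl x); positivity)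
    intro x hx
    rw [mem_sdiff, hcX] at hx
    have h1 := (abs_le.1 (hT2 (.inl x))).1
    have h2 := pT_compl Γ rW (A.disjSum N) (.inl x) (hA x hx.1)
    have h3 : (0 : ℝ) ≤ (dgX Γ x : ℝ) := Nat.cast_nonneg _
    have h4 : 1 ≤ 4 * pT Γ rW (A.disjSum N)ᶜ (.inl x) := by linarith [not_le.1 hx.2]
    nlinarith
  have hd2 : ∑ y ∈ N \ cY Γ n T, (dgY Γ y : ℝ) ≤
      4 * ∑ y ∈ N, (dgY Γ y : ℝ) * pT Γ rW (A.disjSum N)ᶜ (.inr y) := by
    rw [mul_sum]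
    refine le_trans (sum_le_sum (f := fun y => (dgY Γ y : ℝ))
      (g := fun y => 4 * ((dgY Γ y : ℝ) * pT Γ rW (A.disjSum N)ᶜ (.inr y))) ?_)
      (sum_le_sum_of_subset_of_nonneg sdiff_subset fun x _ _ => by
        have := hp0 (A.disjSum N)ᶜ (.inr x); positivity)
    intro x hx
    rw [mem_sdiff, hcY] at hx
    have h1 := (abs_le.1 (hT2 (.inr x))).1
    have h2 := pT_compl Γ rW (A.disjSum N) (.inr x) (hN x hx.1)
    have h3 : (0 : ℝ) ≤ (dgY Γ x : ℝ) := Nat.cast_nonneg _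
    have h4 : 1 ≤ 4 * pT Γ rW (A.disjSum N)ᶜ (.inr x) := by linarith [not_le.1 hx.2]
    nlinarith
  have hd3 : ∑ x ∈ cX Γ n T \ A, (dgX Γ x : ℝ) ≤
      4 * ∑ x ∈ Aᶜ, (dgX Γ x : ℝ) * pT Γ rW (A.disjSum N) (.inl x) := by
    rw [mul_sum]
    refine le_trans (sum_le_sum (f := fun x => (dgX Γ x : ℝ))
      (g := fun x => 4 * ((dgX Γ x : ℝ) * pT Γ rW (A.disjSum N) (.inl x))) ?_)
      (sum_le_sum_of_subset_of_nonneg (fun x hx => mem_compl.2 (mem_sdiff.1 hx).2)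
        fun x _ _ => by
        have := hp0 (A.disjSum N) (.inl x); positivity)
    intro x hx
    rw [mem_sdiff, hcX] at hx
    have h1 := (abs_le.1 (hT2 (.inl x))).2
    have h3 : (0 : ℝ) ≤ (dgX Γ x : ℝ) := Nat.cast_nonneg _
    have h4 : 1 ≤ 4 * pT Γ rW (A.disjSum N) (.inl x) := by linarith [hx.1]
    nlinarith
  have hd4 : ∑ y ∈ cY Γ n T \ N, (dgY Γ y : ℝ) ≤
      4 * ∑ y ∈ Nᶜ, (dgY Γ y : ℝ) * pT Γ rW (A.disjSum N) (.inr y) := by
    rw [mul_sum]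
    refine le_trans (sum_le_sum (f := fun x => (dgY Γ x : ℝ))
      (g := fun x => 4 * ((dgY Γ x : ℝ) * pT Γ rW (A.disjSum N) (.inr x))) ?_)
      (sum_le_sum_of_subset_of_nonneg (fun x hx => mem_compl.2 (mem_sdiff.1 hx).2)
        fun x _ _ => by
        have := hp0 (A.disjSum N) (.inr x); positivity)
    intro x hx
    rw [mem_sdiff, hcY] at hx
    have h1 := (abs_le.1 (hT2 (.inr x))).2
    have h3 : (0 : ℝ) ≤ (dgY Γ x : ℝ) := Nat.cast_nonneg _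
    have h4 : 1 ≤ 4 * pT Γ rW (A.disjSum N) (.inr x) := by linarith [hx.1]
    nlinarith
  have hsX : ∑ x ∈ symmDiff A (cX Γ n T), dgX Γ x =
      ∑ x ∈ A \ cX Γ n T, dgX Γ x + ∑ x ∈ cX Γ n T \ A, dgX Γ x := by
    rw [symmDiff_def, sup_eq_union, sum_union]
    exact disjoint_sdiff_sdiff
  have hsY : ∑ y ∈ symmDiff N (cY Γ n T), dgY Γ y =
      ∑ x ∈ N \ cY Γ n T, dgY Γ x + ∑ x ∈ cY Γ n T \ N, dgY Γ x := by
    rw [symmDiff_def, sup_eq_union, sum_union]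
    exact disjoint_sdiff_sdiff
  have hmain : ∑ x ∈ symmDiff A (cX Γ n T), dgX Γ x + ∑ y ∈ symmDiff N (cY Γ n T), dgY Γ y ≤
      16 * rW * bd Γ A N := by
    have hr : ((∑ x ∈ symmDiff A (cX Γ n T), dgX Γ x + ∑ y ∈ symmDiff N (cY Γ n T), dgY Γ y : ℕ) : ℝ)
        ≤ ((16 * rW * bd Γ A N : ℕ) : ℝ) := by
      rw [hsX, hsY]
      push_cast
      have hb : (0 : ℝ) ≤ (rW : ℝ) * (bd Γ A N : ℝ) := by positivity
      linarith
    exact_mod_cast hr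
  refine ⟨T, hT1, hmain, ?_⟩
  have hc1 : (cX Γ n T).card ≤ A.card + ∑ x ∈ symmDiff A (cX Γ n T), dgX Γ x := by
    rw [hsX]
    have h1 : (cX Γ n T \ A).card ≤ ∑ x ∈ cX Γ n T \ A, dgX Γ x := by
      rw [card_eq_sum_ones]
      refine sum_le_sum fun x hx => ?_
      rw [mem_sdiff, hcX] at hx
      by_contra hcon
      have h0 : dgX Γ x = 0 := by omega
      have h2 := hx.1
      rw [pT_isolX Γ rW hrW T x h0] at h2
      norm_num at h2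
    have h2 : (cX Γ n T).card ≤ (cX Γ n T \ A).card + A.card := card_le_card_sdiff_add_card
    omega
  have hc2 : (cY Γ n T).card ≤ N.card + ∑ y ∈ symmDiff N (cY Γ n T), dgY Γ y := by
    rw [hsY]
    have h1 : (cY Γ n T \ N).card ≤ ∑ x ∈ cY Γ n T \ N, dgY Γ x := by
      rw [card_eq_sum_ones]
      refine sum_le_sum fun x hx => ?_
      rw [mem_sdiff, hcY] at hx
      by_contra hcon
      have h0 : dgY Γ x = 0 := by omega
      have h2 := hx.1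
      rw [pT_isolY Γ rW hrW T x h0] at h2
      norm_num at h2
    have h2 : (cY Γ n T).card ≤ (cY Γ n T \ N).card + N.card := card_le_card_sdiff_add_card
    omega
  omega

end Pool.SCDH
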