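import Pool.Agent.Lib.SCDH.MDefs
import Pool.Agent.Lib.SCDH.G01
import Pool.Agent.Lib.SCDH.G02
import Pool.Agent.Lib.SCDH.G03
import Pool.Agent.Lib.SCDH.G04
import Pool.Agent.Lib.SCDH.N01
import Pool.Agent.Lib.SCDH.W02
import Pool.Agent.Lib.SCDH.W06
import Pool.Agent.Lib.SCDH.K01
import Pool.Agent.Lib.SCDH.K02

/-!
# Row D01 (paper scd_h36.md)
cut2 (paper 6.3 Q1): Sc sees the F-cuts.
Recipe: WLOG 2|A| ≤ |X| (mX_compl for both graphs), A nonempty. Put Γ0 = rs F (Sh c 0). If κ mX F A ≤ 10^7 d mX Γ0 A: done since mX Γ0 ≤ mX (FS c). Else certify (A, maj Γ0 A) by W06 with Γ = Γ0 (degrees: x: ≥ ηκ/16 ≥ t^17 by K02; y in the half: dgY F y; others 0; maj Γ0 A has degrees ≠ 0), bd = mX Γ0 A ≤ (κ/(10^7 d)) mX F A. Symmetric difference Δ: |Δ| ηκ/16 ≤ 16000 mX Γ0 A, so ηκ|Δ| ≤ 0.0257 (κ/d) mX F A, hence mX F A_T ≥ 0.97 mX F A (dgX F ≤ 1.01 ηd). Nτ|T| ≤ 2(|A| + |maj|) ≤ 4n|A| (maj_card), n|A| ≤ 2κ mX G A ≤ 2κ 10^7 t^21 mX F A (isoX,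 Res.cut with N = maj F A, bd_maj) so Nτ|T| ≤ n^3 mX F A_T. ¬ mac1: mX (FS) A_T ≥ (κ/(8d)) mX F A_T ≥ 0.121 (κ/d) mX F A and mX (FS) A ≥ mX (FS) A_T - 1.1 ηκ |Δ| ≥ 0.09 (κ/d) mX F A (mX_symm).
-/

set_option linter.unusedSectionVars false
set_option linter.unusedVariables false

namespace Pool.SCDH

open Finset Pool.MP_0ccee8_co.Lib2

variable {X Y : Type} [Fintype X] [DecidableEq X] [Fintype Y] [DecidableEq Y]
variable (D : Ctx X Y)

private theorem dgX_rs (F : Finset (X × Y)) (S : Finset Y) (x : X) : dgX (rs F S) x = eB F {x} S := by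
  unfold dgX eB rs
  congr 1
  ext e
  simp only [mem_filter, mem_univ, and_true]
  tauto

private theorem dgY_rs (F : Finset (X × Y)) (S : Finset Y) (y : Y) :
    dgY (rs F S) y = if y ∈ S then dgY F y else 0 := by
  unfold dgY eB rs
  split_ifs with h
  · congr 1
    ext e
    simp only [mem_filter, mem_univ, true_and, mem_singleton]
    constructor
    · rintro ⟨⟨h1, h2⟩, h3⟩
      exact ⟨h1, h3⟩
    · rintro ⟨h1, h3⟩
      exact ⟨⟨h1, h3 ▸ h⟩, h3⟩
  · rw [Finset.card_eq_zero, Finset.filter_eq_empty_iff]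
    intro e he h3
    simp only [mem_filter, mem_univ, true_and, mem_singleton] at he h3
    exact h (h3 ▸ he.2)

private theorem t_pow_le (hD : CtxOK D) (a b : ℕ) (h : a + 1 ≤ b) (C : ℝ) (hC : C ≤ 10 ^ 100) :
    C * (D.t : ℝ) ^ a ≤ (D.t : ℝ) ^ b := by
  have t1 := (ctx_t D hD).1
  have t1' : (1 : ℝ) ≤ D.t := le_trans (by norm_num) t1
  calc C * (D.t : ℝ) ^ a ≤ D.t * (D.t : ℝ) ^ a :=
        mul_le_mul_of_nonneg_right (hC.trans t1) (by positivity)
    _ = (D.t : ℝ) ^ (a + 1) := by ring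
    _ ≤ (D.t : ℝ) ^ b := pow_le_pow_right₀ t1' h

private theorem cut2_half (hD : CtxOK D) (φ : D.Lbl) (hG : D.Good φ) (c : Fin D.B) (A : Finset X)
    (hA : 2 * A.card ≤ Fintype.card X) :
    (D.κ : ℝ) * mX D.F A ≤ 10 ^ 7 * (D.d * mX (D.FS φ c) A) := by
  classical
  obtain ⟨k1, kd, dn, nd⟩ := ctx_deg D hD
  have t1 := (ctx_t D hD).1
  have t0 : (0 : ℝ) < D.t := lt_of_lt_of_le (by norm_num) t1
  have k0 : (0 : ℝ) < D.κ := lt_of_lt_of_le (by positivity) k1
  have d0 : (0 : ℝ) < D.d := k0.trans_le kd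
  have n0 : (0 : ℝ) < D.n := d0.trans_le dn
  obtain ⟨F1, F2, F3, F4, F5⟩ := ctx_F D hD
  have eta0 := F4
  set G0 := rs D.F (D.Sh φ c 0) with hG0
  have s1 : G0 ⊆ D.FS φ c := by
    intro e he
    rw [hG0, rs, mem_filter] at he
    rw [Ctx.FS, rs, mem_filter]
    refine ⟨he.1, ?_⟩
    have := he.2
    unfold Ctx.Sh at this
    exact (mem_filter.1 this).1
  have s2 : G0 ⊆ D.F := by
    intro e he
    rw [hG0, rs, mem_filter] at he
    exact he.1
  have s3 : G0 ⊆ D.H.G := s2.trans hD.res.sub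
  have hmono : (mX G0 A : ℝ) ≤ mX (D.FS φ c) A := by exact_mod_cast mX_mono _ _ s1 A
  by_cases hcase : (D.κ : ℝ) * mX D.F A ≤ 10 ^ 7 * (D.d * mX G0 A)
  · refine hcase.trans ?_
    exact mul_le_mul_of_nonneg_left (mul_le_mul_of_nonneg_left hmono d0.le) (by norm_num)
  · push Not at hcase
    have dg0 : ∀ x, eta D.t * D.κ / 16 ≤ (dgX G0 x : ℝ) := by
      intro x
      rw [hG0, dgX_rs]
      exact (degFS D hD φ hG c x).2.2.2.1
    have ek : (D.t : ℝ) ^ 29 ≤ eta D.t * D.κ := F3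
    have t17 : (D.t : ℝ) ^ 17 ≤ eta D.t * D.κ / 16 := by
      have := t_pow_le D hD 17 29 (by norm_num) 16 (by norm_num)
      linarith
    have t17' : (0 : ℝ) < (D.t : ℝ) ^ 17 := by positivity
    have hX : ∀ x, dgX G0 x = 0 ∨ D.t ^ 17 ≤ dgX G0 x := by
      intro x
      right
      have : (D.t : ℝ) ^ 17 ≤ (dgX G0 x : ℝ) := t17.trans (dg0 x)
      exact_mod_cast this
    have hY : ∀ y, dgY G0 y = 0 ∨ D.t ^ 17 ≤ dgY G0 y := by
      intro y
      rw [hG0, dgY_rs]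
      split_ifs with h
      · right
        have h1 := (F2 y).1
        have h2 : (D.t : ℝ) ^ 17 ≤ (dgY D.F y : ℝ) := by
          have : 0 ≤ eta D.t * D.κ := by positivity
          linarith
        exact_mod_cast h2
      · left; rfl
    have hxne : ∀ x, dgX G0 x ≠ 0 := by
      intro x h0
      have := dg0 x
      rw [h0] at this
      push_cast at this
      linarith
    have hN : ∀ y ∈ maj G0 A, dgY G0 y ≠ 0 := by
      intro y hy h0
      unfold maj at hy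
      rw [mem_filter] at hy
      have h1 : eB G0 A {y} ≤ eB G0 univ {y} :=
        eB_mono _ _ (Finset.Subset.refl _) _ _ (subset_univ _) _ _ (Finset.Subset.refl _)
      have h2 : eB G0 univ {y} = 0 := h0
      omega
    obtain ⟨T, hT1, hT2, -⟩ := cert hD.big hD.rng D.H G0 s3 hX hY A (maj G0 A)
      (fun x _ => hxne x) hN
    rw [bd_maj] at hT2
    set AT := cX G0 D.n T with hAT
    set Δ := symmDiff A AT with hΔ
    -- the size of Δ
    have e1 : (Δ.card : ℝ) * (eta D.t * D.κ / 16) ≤ 16000 * mX G0 A := by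
      have h1 : ∑ x ∈ Δ, dgX G0 x ≤ 16 * rW * mX G0 A := le_trans (Nat.le_add_right _ _) hT2
      have h2 : (∑ x ∈ Δ, (dgX G0 x : ℝ)) ≤ 16000 * mX G0 A := by
        have h3 : ((∑ x ∈ Δ, dgX G0 x : ℕ) : ℝ) ≤ ((16 * rW * mX G0 A : ℕ) : ℝ) := by
          exact_mod_cast h1
        push_cast at h3
        have h4 : (16 : ℝ) * (rW : ℝ) = 16000 := by
          unfold rW; norm_num
        rw [h4] at h3
        exact h3
      refine le_trans ?_ h2
      calc (Δ.card : ℝ) * (eta D.t * D.κ / 16) = ∑ _x ∈ Δ, eta D.t * D.κ / 16 := by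
            rw [Finset.sum_const, nsmul_eq_mul]
        _ ≤ ∑ x ∈ Δ, (dgX G0 x : ℝ) := Finset.sum_le_sum fun x _ => dg0 x
    set mF : ℝ := (mX D.F A : ℝ) with hmF
    set m0 : ℝ := (mX G0 A : ℝ) with hm0
    have mF0 : 0 ≤ mF := Nat.cast_nonneg _
    have m00 : 0 ≤ m0 := Nat.cast_nonneg _
    set r : ℝ := (D.κ : ℝ) / D.d with hr
    have r0 : 0 < r := div_pos k0 d0
    have hrd : r * D.d = D.κ := div_mul_cancel₀ _ d0.ne'
    have e2 : m0 * 10 ^ 7 ≤ r * mF := by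
      have h1 : D.d * (m0 * 10 ^ 7) ≤ D.d * (r * mF) := by
        calc D.d * (m0 * 10 ^ 7) = 10 ^ 7 * (D.d * m0) := by ring
          _ ≤ D.κ * mF := hcase.le
          _ = D.d * (r * mF) := by rw [← hrd]; ring
      exact le_of_mul_le_mul_left h1 d0
    have e3 : (Δ.card : ℝ) * (eta D.t * D.κ) ≤ 256 / 10000 * (r * mF) := by
      linarith
    have hΔ0 : (0 : ℝ) ≤ Δ.card := Nat.cast_nonneg _
    have e4 : (Δ.card : ℝ) * (eta D.t * D.d) ≤ 256 / 10000 * mF := by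
      have h1 : r * ((Δ.card : ℝ) * (eta D.t * D.d)) ≤ r * (256 / 10000 * mF) := by
        calc r * ((Δ.card : ℝ) * (eta D.t * D.d)) = (Δ.card : ℝ) * (eta D.t * (r * D.d)) := by ring
          _ = (Δ.card : ℝ) * (eta D.t * D.κ) := by rw [hrd]
          _ ≤ 256 / 10000 * (r * mF) := e3
          _ = r * (256 / 10000 * mF) := by ring
      exact le_of_mul_le_mul_left h1 r0
    have e5 : mF ≤ mX D.F AT + 26 / 1000 * mF := by
      have h1 := mX_symm D.F A AT
      have h2 : mF ≤ (mX D.F AT : ℝ) + ∑ x ∈ Δ, (dgX D.F x : ℝ) := by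
        have h0 : ((mX D.F A : ℕ) : ℝ) ≤ ((mX D.F AT + ∑ x ∈ symmDiff A AT, dgX D.F x : ℕ) : ℝ) :=
          Nat.cast_le.2 h1
        push_cast at h0
        exact h0
      have h3 : ∑ x ∈ Δ, (dgX D.F x : ℝ) ≤ (Δ.card : ℝ) * (101 / 100 * (eta D.t * D.d)) := by
        calc ∑ x ∈ Δ, (dgX D.F x : ℝ) ≤ ∑ _x ∈ Δ, 101 / 100 * (eta D.t * D.d) :=
              Finset.sum_le_sum fun x _ => (F1 x).2
          _ = (Δ.card : ℝ) * (101 / 100 * (eta D.t * D.d)) := by
              rw [Finset.sum_const, nsmul_eq_mul]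
      linarith
    -- the number of seeds
    have e6 : (Nτ D.n : ℝ) * T.card ≤ (D.n : ℝ) ^ 3 * mX D.F AT := by
      have hA0 : (0 : ℝ) ≤ A.card := Nat.cast_nonneg _
      have h1 : (Nτ D.n : ℝ) * T.card ≤ 2 * ((A.card : ℝ) + (maj G0 A).card) := by
        exact_mod_cast hT1
      have h2 : ((maj G0 A).card : ℝ) ≤ A.card * D.n := by
        have h3 : ((maj G0 A).card : ℝ) ≤ ∑ x ∈ A, (dgX G0 x : ℝ) := by
          exact_mod_cast maj_card G0 A
        refine h3.trans ?_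
        calc ∑ x ∈ A, (dgX G0 x : ℝ) ≤ ∑ _x ∈ A, (D.n : ℝ) := by
              refine Finset.sum_le_sum fun x _ => ?_
              have : (dgX G0 x : ℝ) ≤ D.d := by exact_mod_cast dgX_le D.H G0 s3 x
              exact this.trans dn
          _ = A.card * D.n := by rw [Finset.sum_const, nsmul_eq_mul]
      have h3 : (D.n : ℝ) * A.card ≤ 2 * D.κ * mX D.H.G A := by exact_mod_cast D.H.isoX A hA
      have h4 : eta D.t * (mX D.H.G A : ℝ) ≤ 10 ^ 7 * mF := by
        have h5 := hD.res.cut A (maj D.F A)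
        rw [bd_maj] at h5
        have h6 : (mX D.H.G A : ℝ) ≤ bd D.H.G A (maj D.F A) := by
          exact_mod_cast mX_le_bd D.H.G A (maj D.F A)
        exact (mul_le_mul_of_nonneg_left h6 eta0.le).trans h5
      have h5 : (mX D.H.G A : ℝ) ≤ 10 ^ 7 * (D.t : ℝ) ^ 21 * mF := by
        have h6 : eta D.t * (D.t : ℝ) ^ 21 = 1 := by
          unfold eta
          field_simp
        calc (mX D.H.G A : ℝ) = (eta D.t * (D.t : ℝ) ^ 21) * mX D.H.G A := by rw [h6, one_mul]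
          _ = (D.t : ℝ) ^ 21 * (eta D.t * mX D.H.G A) := by ring
          _ ≤ (D.t : ℝ) ^ 21 * (10 ^ 7 * mF) := mul_le_mul_of_nonneg_left h4 (by positivity)
          _ = 10 ^ 7 * (D.t : ℝ) ^ 21 * mF := by ring
      have n1 := (ctx_n D hD).1
      have hn1 : (1 : ℝ) ≤ D.n := by
        have h6 := t_pow_le D hD 0 200 (by norm_num) 1 (by norm_num)
        rw [pow_zero, mul_one] at h6
        exact h6.trans n1
      have h6 : (Nτ D.n : ℝ) * T.card ≤ 4 * (D.n * A.card) := by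
        have h7 : (A.card : ℝ) ≤ D.n * A.card := le_mul_of_one_le_left hA0 hn1
        linarith [mul_comm (A.card : ℝ) D.n]
      have h7 : 4 * ((D.n : ℝ) * A.card) ≤ 8 * 10 ^ 7 * (D.t : ℝ) ^ 21 * (D.κ * mF) := by
        calc 4 * ((D.n : ℝ) * A.card) ≤ 4 * (2 * D.κ * mX D.H.G A) := by linarith
          _ ≤ 4 * (2 * D.κ * (10 ^ 7 * (D.t : ℝ) ^ 21 * mF)) := by
              refine mul_le_mul_of_nonneg_left ?_ (by norm_num)
              exact mul_le_mul_of_nonneg_left h5 (by positivity)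
          _ = 8 * 10 ^ 7 * (D.t : ℝ) ^ 21 * (D.κ * mF) := by ring
      have h8 : 8 * 10 ^ 7 * (D.t : ℝ) ^ 21 ≤ 9 / 10 * D.n := by
        have h9 := t_pow_le D hD 21 200 (by norm_num) (10 * 10 ^ 7) (by norm_num)
        linarith
      have h9 : 9 / 10 * mF ≤ mX D.F AT := by linarith
      calc (Nτ D.n : ℝ) * T.card ≤ 8 * 10 ^ 7 * (D.t : ℝ) ^ 21 * (D.κ * mF) := h6.trans h7
        _ ≤ 9 / 10 * D.n * (D.n * mF) := by
            refine mul_le_mul h8 ?_ (by positivity) (by positivity)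
            exact mul_le_mul_of_nonneg_right (kd.trans dn) mF0
        _ = (D.n : ℝ) ^ 2 * (9 / 10 * mF) := by ring
        _ ≤ (D.n : ℝ) ^ 2 * mX D.F AT := mul_le_mul_of_nonneg_left h9 (by positivity)
        _ ≤ (D.n : ℝ) ^ 3 * mX D.F AT :=
            mul_le_mul_of_nonneg_right (pow_le_pow_right₀ hn1 (by norm_num)) (Nat.cast_nonneg _)
    have hmac : ¬ D.mac1 φ T c := by
      intro h
      exact hG.mac T (Or.inr (Or.inr ⟨c, Or.inl h⟩))
    have e7 : (D.κ : ℝ) / (8 * D.d) * mX D.F AT ≤ mX (D.FS φ c) AT := by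
      by_contra hcon
      push Not at hcon
      exact hmac ⟨e6, hcon⟩
    have e8 : (mX (D.FS φ c) AT : ℝ) ≤ mX (D.FS φ c) A + 11 / 10 * ((Δ.card : ℝ) * (eta D.t * D.κ)) := by
      have h1 := mX_symm (D.FS φ c) AT A
      have h2 : (mX (D.FS φ c) AT : ℝ) ≤ (mX (D.FS φ c) A : ℝ) +
          ∑ x ∈ symmDiff AT A, (dgX (D.FS φ c) x : ℝ) := by exact_mod_cast h1
      rw [symmDiff_comm AT A] at h2
      have h3 : ∑ x ∈ Δ, (dgX (D.FS φ c) x : ℝ) ≤ (Δ.card : ℝ) * (11 / 10 * (eta D.t * D.κ)) := by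
        calc ∑ x ∈ Δ, (dgX (D.FS φ c) x : ℝ) ≤ ∑ _x ∈ Δ, 11 / 10 * (eta D.t * D.κ) := by
              refine Finset.sum_le_sum fun x _ => ?_
              rw [degFSX]
              exact (degFS D hD φ hG c x).2.1
          _ = (Δ.card : ℝ) * (11 / 10 * (eta D.t * D.κ)) := by
              rw [Finset.sum_const, nsmul_eq_mul]
      linarith
    have e9 : (D.κ : ℝ) / (8 * D.d) = r / 8 := by
      rw [hr]
      field_simp
    rw [e9] at e7
    have e10 : r / 8 * (97 / 100 * mF) ≤ r / 8 * mX D.F AT :=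
      mul_le_mul_of_nonneg_left (by linarith) (by positivity)
    have e11 : 9 / 100 * (r * mF) ≤ mX (D.FS φ c) A := by
      have : 0 ≤ r * mF := mul_nonneg r0.le mF0
      linarith
    calc D.κ * mF = D.d * (r * mF) := by rw [← hrd]; ring
      _ ≤ D.d * (10 ^ 7 * mX (D.FS φ c) A) := by
          refine mul_le_mul_of_nonneg_left ?_ d0.le
          have : (0 : ℝ) ≤ mX (D.FS φ c) A := Nat.cast_nonneg _
          linarith
      _ = 10 ^ 7 * (D.d * mX (D.FS φ c) A) := by ring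

theorem cut2 (hD : CtxOK D) (φ : D.Lbl) (hG : D.Good φ) (c : Fin D.B) (A : Finset X) :
    (D.κ : ℝ) * mX D.F A ≤ 10 ^ 7 * (D.d * mX (D.FS φ c) A) := by
  by_cases h : 2 * A.card ≤ Fintype.card X
  · exact cut2_half D hD φ hG c A h
  · have h1 : 2 * Aᶜ.card ≤ Fintype.card X := by
      rw [Finset.card_compl]
      have := Finset.card_le_univ A
      omega
    have h2 := cut2_half D hD φ hG c Aᶜ h1
    rwa [mX_compl, mX_compl] at h2

end Pool.SCDH
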