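import Pool.Agent.Lib.SCDH.MDefs
import Pool.Agent.Lib.SCDH.G01
import Pool.Agent.Lib.SCDH.G02
import Pool.Agent.Lib.SCDH.G03
import Pool.Agent.Lib.SCDH.G04
import Pool.Agent.Lib.SCDH.N01
import Pool.Agent.Lib.SCDH.D01

/-!
# Row D02 (paper scd_h36.md)
Comparison of all cuts with the cut β = bd (FS c) A N.
Recipe: mX (FS) A ≤ bd (FS) A N; cut2; Res.cut with N = maj F A: η mX G A ≤ η bd G A (maj F A) ≤ 10^7 bd F A (maj F A) = 10^7 mX F A; isoX: n|A| ≤ 2κ mX G A; d ≤ n.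
-/

set_option linter.unusedSectionVars false
set_option linter.unusedVariables false

namespace Pool.SCDH

open Finset Pool.MP_0ccee8_co.Lib2

variable {X Y : Type} [Fintype X] [DecidableEq X] [Fintype Y] [DecidableEq Y]
variable (D : Ctx X Y)

theorem mXF_le (hD : CtxOK D) (φ : D.Lbl) (hG : D.Good φ) (c : Fin D.B) (A : Finset X) (N : Finset Y) :
    (D.κ : ℝ) * mX D.F A ≤ 10 ^ 7 * (D.d * (bd (D.FS φ c) A N : ℝ)) := by
  refine (cut2 D hD φ hG c A).trans ?_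
  have h1 : (mX (D.FS φ c) A : ℝ) ≤ (bd (D.FS φ c) A N : ℝ) := by
    exact_mod_cast mX_le_bd (D.FS φ c) A N
  have h2 : (0 : ℝ) ≤ D.d := Nat.cast_nonneg _
  gcongr

theorem mXG_le (hD : CtxOK D) (φ : D.Lbl) (hG : D.Good φ) (c : Fin D.B) (A : Finset X) (N : Finset Y) :
    eta D.t * D.κ * mX D.H.G A ≤ 10 ^ 14 * (D.d * (bd (D.FS φ c) A N : ℝ)) := by
  have h1 := mXF_le D hD φ hG c A N
  have h2 := hD.res.cut A (maj D.F A)
  rw [bd_maj] at h2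
  have h3 : (mX D.H.G A : ℝ) ≤ (bd D.H.G A (maj D.F A) : ℝ) := by
    exact_mod_cast mX_le_bd D.H.G A (maj D.F A)
  have h4 : (0 : ℝ) < eta D.t := (ctx_F D hD).2.2.2.1
  have h5 : (0 : ℝ) ≤ D.κ := Nat.cast_nonneg _
  have h6 : eta D.t * mX D.H.G A ≤ 10 ^ 7 * (mX D.F A : ℝ) :=
    (mul_le_mul_of_nonneg_left h3 h4.le).trans h2
  have h7 : (D.κ : ℝ) * (eta D.t * mX D.H.G A) ≤ D.κ * (10 ^ 7 * (mX D.F A : ℝ)) :=
    mul_le_mul_of_nonneg_left h6 h5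
  nlinarith [h1, h7]

theorem betaLow (hD : CtxOK D) (φ : D.Lbl) (hG : D.Good φ) (c : Fin D.B) (A : Finset X) (N : Finset Y) (hA : 2 * A.card ≤ Fintype.card X) :
    eta D.t * A.card ≤ 10 ^ 15 * (bd (D.FS φ c) A N : ℝ) := by
  have h1 := mXG_le D hD φ hG c A N
  have h2 : (D.n : ℝ) * A.card ≤ 2 * D.κ * (mX D.H.G A : ℝ) := by
    exact_mod_cast D.H.isoX A hA
  have h4 : (0 : ℝ) < eta D.t := (ctx_F D hD).2.2.2.1
  have ht : (1 : ℝ) ≤ D.t := le_trans (by norm_num) (ctx_t D hD).1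
  have hn : (0 : ℝ) < D.n :=
    lt_of_lt_of_le (by positivity) (ctx_n D hD).1
  have hdn : (D.d : ℝ) ≤ D.n := (ctx_deg D hD).2.2.1
  have hb : (0 : ℝ) ≤ (bd (D.FS φ c) A N : ℝ) := Nat.cast_nonneg _
  have h5 : eta D.t * ((D.n : ℝ) * A.card) ≤ eta D.t * (2 * D.κ * (mX D.H.G A : ℝ)) :=
    mul_le_mul_of_nonneg_left h2 h4.le
  have h6 : (D.d : ℝ) * (bd (D.FS φ c) A N : ℝ) ≤ D.n * (bd (D.FS φ c) A N : ℝ) :=
    mul_le_mul_of_nonneg_right hdn hb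
  have h7 : (D.n : ℝ) * (eta D.t * A.card) ≤
      D.n * (2 * 10 ^ 14 * (bd (D.FS φ c) A N : ℝ)) := by
    nlinarith [h1, h5, h6]
  have h8 : eta D.t * A.card ≤ 2 * 10 ^ 14 * (bd (D.FS φ c) A N : ℝ) :=
    le_of_mul_le_mul_left h7 hn
  linarith

end Pool.SCDH
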