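import Pool.Agent.Lib.SCDH.MDefs
import Pool.Agent.Lib.SCDH.G01
import Pool.Agent.Lib.SCDH.G02
import Pool.Agent.Lib.SCDH.G03
import Pool.Agent.Lib.SCDH.G04
import Pool.Agent.Lib.SCDH.N01
import Pool.Agent.Lib.SCDH.W02
import Pool.Agent.Lib.SCDH.W06
import Pool.Agent.Lib.SCDH.K01
import Pool.Agent.Lib.SCDH.K02
import Pool.Agent.Lib.SCDH.D01
import Pool.Agent.Lib.SCDH.D02

/-!
# Row D03 (paper scd_h36.md)
Certificate by F alone (paper 6.3).
Recipe: W06 with Γ = F (degrees ≥ 0.99 η κ ≥ t^17, all nonzero), (A, maj F A), bd = mX F A. Σ of degrees over the symmetric differences ≤ 16000 mX F A and κ mX F A ≤ 10^7 d β: |A Δ A_T| · 0.99 η κ ≤ 1.6·10^11 β. N* = maj F A_T. y ∈ N, y ∉ N*: e_F(A_Tᶜ,y) ≥ dgY F y/2, so e_F(Aᶜ,y) ≥ dgY F y/4 (counted in β since y ∈ N) or e_F(A Δ A_T, y) ≥ dgY F y/4; y ∈ (N* ∩ Sc) ∖ N the same with A; Σ_{y ∈ Sc} e_F(AΔA_T,y) = Σ_{x} e_F(x,Sc) ≤ 1.1 ηκ |AΔA_T|. bd F A_T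 N* = mX F A_T ≤ mX F A + Σ_{AΔA_T} dgX F, Res.cut. szT: |cX|+|cY| ≤ |A|+|maj|+16000 mX F A, |maj| ≤ n|A|, mX F A ≤ eB F A univ ≤ n|A|, Nτ|T| ≤ 2(|A|+|maj|). |A_T| ≤ |A| + |AΔA_T|, η|A| ≤ 10^15 β. κ|N*|: every y ∈ N* has ≥ 0.49 ηκ F-edges into A_T: |N*| 0.49 ηκ ≤ 1.01 η d |A_T|.
-/

set_option linter.unusedSectionVars false
set_option linter.unusedVariables false

namespace Pool.SCDH

open Finset Pool.MP_0ccee8_co.Lib2

variable {X Y : Type} [Fintype X] [DecidableEq X] [Fintype Y] [DecidableEq Y]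
variable (D : Ctx X Y)

private lemma h_split (Γ : Finset (X × Y)) (A : Finset X) (y : Y) :
    dgY Γ y = eB Γ A {y} + eB Γ Aᶜ {y} := by
  rw [eB_complX]; rfl

private lemma h_rs (Γ : Finset (X × Y)) (S : Finset Y) (A : Finset X) (N : Finset Y) :
    eB (rs Γ S) A N = eB Γ A (N ∩ S) := by
  unfold eB rs
  rw [Finset.filter_filter]
  congr 1
  apply Finset.filter_congr
  intro e _
  simp only [Finset.mem_inter]
  tauto

private lemma h_symm (Γ : Finset (X × Y)) (A A' : Finset X) (N : Finset Y) :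
    eB Γ A' N ≤ eB Γ A N + eB Γ (symmDiff A A') N := by
  have h := eB_symmX Γ A' A N
  rw [eB_sumX Γ (symmDiff A A') N, symmDiff_comm]
  exact h

private lemma h_symmc (Γ : Finset (X × Y)) (A A' : Finset X) (N : Finset Y) :
    eB Γ A'ᶜ N ≤ eB Γ Aᶜ N + eB Γ (symmDiff A A') N := by
  have h := h_symm Γ Aᶜ A'ᶜ N
  rwa [compl_symmDiff_compl] at h

private lemma h_maj (Γ : Finset (X × Y)) (A : Finset X) (y : Y) (hy : y ∈ maj Γ A) :
    dgY Γ y ≤ 2 * eB Γ A {y} := by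
  have h1 := h_split Γ A y
  have h2 : eB Γ Aᶜ {y} < eB Γ A {y} := by
    simpa [maj] using hy
  omega

private lemma h_nmaj (Γ : Finset (X × Y)) (A : Finset X) (y : Y) (hy : y ∉ maj Γ A) :
    dgY Γ y ≤ 2 * eB Γ Aᶜ {y} := by
  have h1 := h_split Γ A y
  have h2 : ¬ (eB Γ Aᶜ {y} < eB Γ A {y}) := by
    simpa [maj] using hy
  omega

/-- the wrong vertices of `Y` -/
private lemma h_wrong (Γ : Finset (X × Y)) (A A' : Finset X) (N S : Finset Y) (hN : N ⊆ S) :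
    ∑ y ∈ symmDiff N (maj Γ A' ∩ S), dgY Γ y ≤ 2 * (bd (rs Γ S) A N + eB Γ (symmDiff A A') S) := by
  have hW : symmDiff N (maj Γ A' ∩ S) ⊆ S := by
    intro y hy
    rw [Finset.mem_symmDiff] at hy
    rcases hy with ⟨h, _⟩ | ⟨h, _⟩
    · exact hN h
    · exact (Finset.mem_inter.1 h).2
  have hb : bd (rs Γ S) A N = ∑ y ∈ S, (if y ∈ N then eB Γ Aᶜ {y} else eB Γ A {y}) := by
    unfold bd
    rw [h_rs, h_rs, Finset.sum_ite, eB_sumY Γ A, eB_sumY Γ Aᶜ, add_comm]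
    congr 1
    · apply Finset.sum_congr _ (fun _ _ => rfl)
      ext y
      simp [and_comm]
    · apply Finset.sum_congr _ (fun _ _ => rfl)
      ext y
      simp [and_comm]
  rw [hb, eB_sumY Γ (symmDiff A A') S, ← Finset.sum_add_distrib, Finset.mul_sum]
  refine le_trans (Finset.sum_le_sum ?_) (Finset.sum_le_sum_of_subset hW)
  intro y hy
  have hyS := hW hy
  rw [Finset.mem_symmDiff] at hy
  rcases hy with ⟨h, h'⟩ | ⟨h, h'⟩
  · have hm : y ∉ maj Γ A' := fun hm => h' (Finset.mem_inter.2 ⟨hm, hyS⟩)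
    have h1 := h_nmaj Γ A' y hm
    have h2 := h_symmc Γ A A' {y}
    rw [if_pos h]
    omega
  · have hm : y ∈ maj Γ A' := (Finset.mem_inter.1 h).1
    have h1 := h_maj Γ A' y hm
    have h2 := h_symm Γ A A' {y}
    rw [if_neg h']
    omega

theorem certF (hD : CtxOK D) (φ : D.Lbl) (hG : D.Good φ) (c : Fin D.B) (A : Finset X) (N : Finset Y) (hA : 2 * A.card ≤ Fintype.card X)
    (hN : N ⊆ D.Sc φ c) :
    ∃ T : Finset (X ⊕ Y),
      eta D.t * D.κ * ((symmDiff A (cX D.F D.n T)).card : ℝ) ≤ 10 ^ 13 * (bd (D.FS φ c) A N : ℝ) ∧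
      eta D.t * D.κ * ((symmDiff N (maj D.F (cX D.F D.n T) ∩ D.Sc φ c)).card : ℝ) ≤ 10 ^ 15 * (bd (D.FS φ c) A N : ℝ) ∧
      eta D.t * D.κ * (bd D.H.G (cX D.F D.n T) (maj D.F (cX D.F D.n T)) : ℝ) ≤ 10 ^ 21 * (D.d * (bd (D.FS φ c) A N : ℝ)) ∧
      szT D.F D.n T ≤ (D.n : ℝ) ^ 4 * A.card ∧
      eta D.t * ((cX D.F D.n T).card : ℝ) ≤ 10 ^ 16 * (bd (D.FS φ c) A N : ℝ) ∧
      eta D.t * D.κ * ((maj D.F (cX D.F D.n T)).card : ℝ) ≤ 10 ^ 17 * (D.d * (bd (D.FS φ c) A N : ℝ)) ∧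
      ∀ y ∈ maj D.F (cX D.F D.n T), eta D.t * D.κ ≤ 3 * (eB D.F (cX D.F D.n T) {y} : ℝ) := by
  classical
  obtain ⟨hFx, hFy, hηκ, hη0, hη1⟩ := ctx_F D hD
  obtain ⟨ht, -, -, -⟩ := ctx_t D hD
  obtain ⟨hκt, hκd, hdn, hnd⟩ := ctx_deg D hD
  obtain ⟨hn1, hn2⟩ := ctx_n D hD
  have hm := mXF_le D hD φ hG c A N
  have hb := betaLow D hD φ hG c A N hA
  have hFG := hD.res.sub
  set η : ℝ := eta D.t with hη
  have ht1 : (1 : ℝ) ≤ D.t := le_trans (by norm_num) ht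
  have htm : ∀ i j : ℕ, i ≤ j → (D.t : ℝ) ^ i ≤ (D.t : ℝ) ^ j := fun i j h => pow_le_pow_right₀ ht1 h
  have hκ1 : (1 : ℝ) ≤ D.κ := le_trans (le_trans (by norm_num) (htm 0 50 (by norm_num))) hκt
  have hd1 : (1 : ℝ) ≤ D.d := le_trans hκ1 hκd
  have hκ0 : (0 : ℝ) < D.κ := by linarith
  have hd0 : (0 : ℝ) < D.d := by linarith
  have hηκd : η * D.κ ≤ η * D.d := mul_le_mul_of_nonneg_left hκd hη0.le
  have hηκ0 : 0 < η * D.κ := mul_pos hη0 hκ0
  have hηd0 : 0 < η * D.d := mul_pos hη0 hd0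
  have h17 : (D.t : ℝ) ^ 17 ≤ 99 / 100 * (η * D.κ) := by
    have h1 : (D.t : ℝ) ^ 29 = (D.t : ℝ) ^ 12 * (D.t : ℝ) ^ 17 := by ring
    have h2 : (10 : ℝ) ≤ (D.t : ℝ) ^ 12 :=
      le_trans (le_trans (by norm_num) ht) (by simpa using htm 1 12 (by norm_num))
    have h3 : (0 : ℝ) ≤ (D.t : ℝ) ^ 17 := by positivity
    nlinarith [mul_le_mul_of_nonneg_right h2 h3]
  have hdX : ∀ x, D.t ^ 17 ≤ dgX D.F x := by
    intro x
    have h1 := (hFx x).1
    have h2 : ((D.t ^ 17 : ℕ) : ℝ) ≤ (dgX D.F x : ℝ) := by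
      push_cast; nlinarith
    exact_mod_cast h2
  have hdY : ∀ y, D.t ^ 17 ≤ dgY D.F y := by
    intro y
    have h1 := (hFy y).1
    have h2 : ((D.t ^ 17 : ℕ) : ℝ) ≤ (dgY D.F y : ℝ) := by
      push_cast; linarith
    exact_mod_cast h2
  have htpos : 0 < D.t ^ 17 := by
    have : 0 < D.t := by
      have : (0 : ℝ) < D.t := by linarith
      exact_mod_cast this
    positivity
  obtain ⟨T, hT1, hT2, hT3⟩ := cert hD.big hD.rng D.H D.F hFG (fun x => Or.inr (hdX x))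
    (fun y => Or.inr (hdY y)) A (maj D.F A)
    (fun x _ => (lt_of_lt_of_le htpos (hdX x)).ne') (fun y _ => (lt_of_lt_of_le htpos (hdY y)).ne')
  rw [bd_maj] at hT2 hT3
  set β : ℝ := (bd (D.FS φ c) A N : ℝ) with hβ
  have hβ0 : 0 ≤ β := by rw [hβ]; positivity
  set A' := cX D.F D.n T with hA'
  have hrW : rW = 1000 := rfl
  rw [hrW] at hT2 hT3
  have hm0 : (0 : ℝ) ≤ (mX D.F A : ℝ) := by positivity
  -- the symmetric difference in X
  have hsX : (∑ x ∈ symmDiff A A', (dgX D.F x : ℝ)) ≤ 16000 * (mX D.F A : ℝ) := by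
    have h1 : ∑ x ∈ symmDiff A A', dgX D.F x ≤ 16 * 1000 * mX D.F A := le_trans (Nat.le_add_right _ _) hT2
    have h2 : ((∑ x ∈ symmDiff A A', dgX D.F x : ℕ) : ℝ) ≤ ((16 * 1000 * mX D.F A : ℕ) : ℝ) := by
      exact_mod_cast h1
    push_cast at h2
    linarith
  set δ : ℝ := ((symmDiff A A').card : ℝ) with hδ
  have hδ0 : 0 ≤ δ := by rw [hδ]; positivity
  have hδ1 : 99 / 100 * (η * D.d) * δ ≤ 16000 * (mX D.F A : ℝ) := by
    refine le_trans ?_ hsX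
    have h1 : ∑ x ∈ symmDiff A A', (99 / 100 * (η * D.d)) ≤ ∑ x ∈ symmDiff A A', (dgX D.F x : ℝ) :=
      Finset.sum_le_sum (fun x _ => (hFx x).1)
    rw [Finset.sum_const, nsmul_eq_mul] at h1
    linarith
  have hδ2 : η * D.κ * δ ≤ 2 * 10 ^ 11 * β := by
    have h1 : D.d * (99 / 100 * (η * D.κ * δ)) ≤ D.d * (16000 * 10 ^ 7 * β) := by
      calc D.d * (99 / 100 * (η * D.κ * δ)) = D.κ * (99 / 100 * (η * D.d) * δ) := by ring
        _ ≤ D.κ * (16000 * (mX D.F A : ℝ)) := mul_le_mul_of_nonneg_left hδ1 hκ0.le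
        _ = 16000 * (D.κ * (mX D.F A : ℝ)) := by ring
        _ ≤ 16000 * (10 ^ 7 * (D.d * β)) := mul_le_mul_of_nonneg_left hm (by norm_num)
        _ = D.d * (16000 * 10 ^ 7 * β) := by ring
    have h2 := le_of_mul_le_mul_left h1 hd0
    nlinarith
  refine ⟨T, ?_, ?_, ?_, ?_, ?_, ?_, ?_⟩
  · -- (1)
    refine le_trans hδ2 ?_
    nlinarith
  · -- (2)
    have h1 := h_wrong D.F A A' N (D.Sc φ c) hN
    have h2 : (∑ y ∈ symmDiff N (maj D.F A' ∩ D.Sc φ c), (dgY D.F y : ℝ)) ≤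
        2 * (β + (eB D.F (symmDiff A A') (D.Sc φ c) : ℝ)) := by
      have h3 : ((∑ y ∈ symmDiff N (maj D.F A' ∩ D.Sc φ c), dgY D.F y : ℕ) : ℝ) ≤
        ((2 * (bd (rs D.F (D.Sc φ c)) A N + eB D.F (symmDiff A A') (D.Sc φ c)) : ℕ) : ℝ) := by
        exact_mod_cast h1
      push_cast at h3
      exact h3
    have h3 : (eB D.F (symmDiff A A') (D.Sc φ c) : ℝ) ≤ 11 / 10 * (η * D.κ) * δ := by
      rw [eB_sumX]
      push_cast
      have h4 : ∑ x ∈ symmDiff A A', (eB D.F {x} (D.Sc φ c) : ℝ) ≤ ∑ x ∈ symmDiff A A', (11 / 10 * (η * D.κ)) :=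
        Finset.sum_le_sum (fun x _ => (degFS D hD φ hG c x).2.1)
      rw [Finset.sum_const, nsmul_eq_mul] at h4
      linarith
    have h4 : 99 / 100 * (η * D.κ) * ((symmDiff N (maj D.F A' ∩ D.Sc φ c)).card : ℝ) ≤
        ∑ y ∈ symmDiff N (maj D.F A' ∩ D.Sc φ c), (dgY D.F y : ℝ) := by
      have h5 : ∑ y ∈ symmDiff N (maj D.F A' ∩ D.Sc φ c), (99 / 100 * (η * D.κ)) ≤
          ∑ y ∈ symmDiff N (maj D.F A' ∩ D.Sc φ c), (dgY D.F y : ℝ) :=
        Finset.sum_le_sum (fun y _ => (hFy y).1)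
      rw [Finset.sum_const, nsmul_eq_mul] at h5
      linarith
    nlinarith
  · -- (3)
    have h1 := hD.res.cut A' (maj D.F A')
    rw [bd_maj] at h1
    have h2 : (mX D.F A' : ℝ) ≤ 16001 * (mX D.F A : ℝ) := by
      have h3 := mX_symm D.F A' A
      rw [symmDiff_comm] at h3
      have h4 : (mX D.F A' : ℝ) ≤ (mX D.F A : ℝ) + ∑ x ∈ symmDiff A A', (dgX D.F x : ℝ) := by
        exact_mod_cast h3
      linarith
    calc η * D.κ * (bd D.H.G A' (maj D.F A') : ℝ) = D.κ * (η * (bd D.H.G A' (maj D.F A') : ℝ)) := by ring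
      _ ≤ D.κ * (10 ^ 7 * (mX D.F A' : ℝ)) := mul_le_mul_of_nonneg_left h1 hκ0.le
      _ ≤ D.κ * (10 ^ 7 * (16001 * (mX D.F A : ℝ))) := by gcongr
      _ = 10 ^ 7 * 16001 * (D.κ * (mX D.F A : ℝ)) := by ring
      _ ≤ 10 ^ 7 * 16001 * (10 ^ 7 * (D.d * β)) := mul_le_mul_of_nonneg_left hm (by norm_num)
      _ ≤ 10 ^ 21 * (D.d * β) := by
        have : 0 ≤ D.d * β := mul_nonneg hd0.le hβ0
        nlinarith
  · -- (4)
    have hdle : ∀ x, (dgX D.F x : ℝ) ≤ D.n := fun x =>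
      le_trans (by exact_mod_cast dgX_le D.H D.F hFG x) hdn
    have h1 : ∑ x ∈ A, (dgX D.F x : ℝ) ≤ D.n * A.card := by
      have h2 : ∑ x ∈ A, (dgX D.F x : ℝ) ≤ ∑ x ∈ A, (D.n : ℝ) := Finset.sum_le_sum (fun x _ => hdle x)
      rw [Finset.sum_const, nsmul_eq_mul] at h2
      linarith
    have h2 : ((maj D.F A).card : ℝ) ≤ D.n * A.card := by
      refine le_trans ?_ h1
      exact_mod_cast maj_card D.F A
    have h3 : (mX D.F A : ℝ) ≤ D.n * A.card := by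
      refine le_trans ?_ h1
      have h4 := mX_le_eB D.F A
      rw [eB_sumX] at h4
      exact_mod_cast h4
    have h4 : ((cX D.F D.n T).card : ℝ) + (cY D.F D.n T).card ≤ A.card + (maj D.F A).card + 16000 * mX D.F A := by
      have h5 : (((cX D.F D.n T).card + (cY D.F D.n T).card : ℕ) : ℝ) ≤
        ((A.card + (maj D.F A).card + 16 * 1000 * mX D.F A : ℕ) : ℝ) := by exact_mod_cast hT3
      push_cast at h5
      linarith
    have h5 : (Nτ D.n : ℝ) * T.card ≤ 2 * (A.card + (maj D.F A).card) := by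
      exact_mod_cast hT1
    have hn100 : (10 : ℝ) ^ 5 ≤ D.n := by
      refine le_trans ?_ hn1
      refine le_trans ?_ (htm 1 200 (by norm_num))
      refine le_trans ?_ (by simpa using ht)
      norm_num
    have h6 : 3 + 16003 * (D.n : ℝ) ≤ (D.n : ℝ) ^ 4 := by
      have h7 : (D.n : ℝ) ^ 4 = (D.n : ℝ) ^ 3 * D.n := by ring
      have h8 : (10 : ℝ) ^ 5 ≤ (D.n : ℝ) ^ 3 := by
        have h9 : (D.n : ℝ) ^ 1 ≤ (D.n : ℝ) ^ 3 := pow_le_pow_right₀ (by linarith) (by norm_num)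
        linarith
      nlinarith [mul_le_mul_of_nonneg_right h8 (by linarith : (0 : ℝ) ≤ D.n)]
    have hA0 : (0 : ℝ) ≤ A.card := by positivity
    calc szT D.F D.n T = ((cX D.F D.n T).card : ℝ) + (cY D.F D.n T).card + (Nτ D.n : ℝ) * T.card := rfl
      _ ≤ (3 + 16003 * (D.n : ℝ)) * A.card := by nlinarith
      _ ≤ (D.n : ℝ) ^ 4 * A.card := mul_le_mul_of_nonneg_right h6 hA0
  · -- (5)
    have h1 : (A'.card : ℝ) ≤ A.card + δ := by
      have h2 : A' ⊆ A ∪ symmDiff A A' := by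
        intro x hx
        rw [Finset.mem_union, Finset.mem_symmDiff]
        tauto
      have h3 := le_trans (Finset.card_le_card h2) (Finset.card_union_le _ _)
      rw [hδ]
      exact_mod_cast h3
    have h2 : η * δ ≤ 2 * 10 ^ 11 * β := by
      refine le_trans ?_ hδ2
      nlinarith [mul_nonneg hη0.le hδ0]
    have h3 : η * (A'.card : ℝ) ≤ η * (A.card + δ) := mul_le_mul_of_nonneg_left h1 hη0.le
    nlinarith
  · -- (6)
    have h1 : (A'.card : ℝ) ≤ A.card + δ := by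
      have h2 : A' ⊆ A ∪ symmDiff A A' := by
        intro x hx
        rw [Finset.mem_union, Finset.mem_symmDiff]
        tauto
      have h3 := le_trans (Finset.card_le_card h2) (Finset.card_union_le _ _)
      rw [hδ]
      exact_mod_cast h3
    have h2 : η * δ ≤ 2 * 10 ^ 11 * β := by
      refine le_trans ?_ hδ2
      nlinarith [mul_nonneg hη0.le hδ0]
    have h3 : η * (A'.card : ℝ) ≤ 2 * 10 ^ 15 * β := by
      have h3 : η * (A'.card : ℝ) ≤ η * (A.card + δ) := mul_le_mul_of_nonneg_left h1 hη0.le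
      nlinarith
    have h4 : 99 / 200 * (η * D.κ) * ((maj D.F A').card : ℝ) ≤ ∑ y ∈ maj D.F A', (eB D.F A' {y} : ℝ) := by
      have h5 : ∑ y ∈ maj D.F A', (99 / 200 * (η * D.κ)) ≤ ∑ y ∈ maj D.F A', (eB D.F A' {y} : ℝ) := by
        apply Finset.sum_le_sum
        intro y hy
        have h6 := h_maj D.F A' y hy
        have h7 : (dgY D.F y : ℝ) ≤ 2 * (eB D.F A' {y} : ℝ) := by exact_mod_cast h6
        have h8 := (hFy y).1
        linarith
      rw [Finset.sum_const, nsmul_eq_mul] at h5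
      linarith
    have h5 : ∑ y ∈ maj D.F A', (eB D.F A' {y} : ℝ) ≤ 101 / 100 * (η * D.d) * A'.card := by
      have h6 : ∑ y ∈ maj D.F A', eB D.F A' {y} ≤ ∑ x ∈ A', dgX D.F x := by
        rw [← eB_sumY]
        refine le_trans (eB_mono D.F D.F (Finset.Subset.refl _) A' A' (Finset.Subset.refl _) (maj D.F A') univ
          (Finset.subset_univ _)) ?_
        rw [eB_sumX]
        exact le_refl _
      have h7 : ∑ y ∈ maj D.F A', (eB D.F A' {y} : ℝ) ≤ ∑ x ∈ A', (dgX D.F x : ℝ) := by exact_mod_cast h6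
      have h8 : ∑ x ∈ A', (dgX D.F x : ℝ) ≤ ∑ x ∈ A', (101 / 100 * (η * D.d)) :=
        Finset.sum_le_sum (fun x _ => (hFx x).2)
      rw [Finset.sum_const, nsmul_eq_mul] at h8
      linarith
    have h6 : D.d * (η * (A'.card : ℝ)) ≤ D.d * (2 * 10 ^ 15 * β) := mul_le_mul_of_nonneg_left h3 hd0.le
    have h7 : 0 ≤ D.d * β := mul_nonneg hd0.le hβ0
    nlinarith
  · -- (7)
    intro y hy
    have h6 := h_maj D.F A' y hy
    have h7 : (dgY D.F y : ℝ) ≤ 2 * (eB D.F A' {y} : ℝ) := by exact_mod_cast h6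
    have h8 := (hFy y).1
    linarith

end Pool.SCDH
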