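import Pool.Agent.Lib.SCDH.MDefs
import Pool.Agent.Lib.SCDH.G01
import Pool.Agent.Lib.SCDH.G02
import Pool.Agent.Lib.SCDH.G03
import Pool.Agent.Lib.SCDH.G04
import Pool.Agent.Lib.SCDH.N01
import Pool.Agent.Lib.SCDH.K01
import Pool.Agent.Lib.SCDH.K02
import Pool.Agent.Lib.SCDH.D02
import Pool.Agent.Lib.SCDH.D03

/-!
# Row D06 (paper scd_h36.md)
Edges from the outer X-vertices to N, and from A to the outer Y-vertices.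
-/

set_option linter.unusedSectionVars false
set_option linter.unusedVariables false

namespace Pool.SCDH

open Finset Pool.MP_0ccee8_co.Lib2

variable {X Y : Type} [Fintype X] [DecidableEq X] [Fintype Y] [DecidableEq Y]
variable (D : Ctx X Y)


theorem E3o (hD : CtxOK D) (φ : D.Lbl) (hG : D.Good φ) (c : Fin D.B) (A : Finset X) (N : Finset Y) (hA : 2 * A.card ≤ Fintype.card X)
    (hN : N ⊆ D.Sc φ c) :
    (eB D.H.G (D.O.OX c) N : ℝ) ≤ 10 ^ 23 / (D.t : ℝ) ^ 5 * (bd (D.FS φ c) A N : ℝ) := by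
  obtain ⟨T, h1, h2, h3, h4, h5, h6, h7⟩ := certF D hD φ hG c A N hA hN
  have hbl := betaLow D hD φ hG c A N hA
  obtain ⟨ht, het, he0, he1⟩ := ctx_t D hD
  obtain ⟨hn1, hn2⟩ := ctx_n D hD
  obtain ⟨hk1, hk2, hk3, hk4⟩ := ctx_deg D hD
  obtain ⟨hr1, hr2, hr3, hr4, hr5, hr6⟩ := ctx_rho D hD
  have hO := hD.out
  have ht0 : (0 : ℝ) < D.t := lt_of_lt_of_le (by positivity) ht
  have hn0 : (0 : ℝ) < D.n := lt_of_lt_of_le (by positivity) hn1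
  have hk0 : (0 : ℝ) < D.κ := lt_of_lt_of_le (by positivity) hk1
  have hd0 : (0 : ℝ) < D.d := lt_of_lt_of_le hk0 hk2
  have heta : eta D.t = 1 / (D.t : ℝ) ^ 21 := rfl
  set b : ℝ := (bd (D.FS φ c) A N : ℝ) with hb
  have hb0 : 0 ≤ b := Nat.cast_nonneg _
  set AT := cX D.F D.n T with hAT
  set Ns := maj D.F AT with hNs
  -- the two sums
  have e1 : eB D.H.G (D.O.OX c) N ≤ eB D.H.G (D.O.OX c) (Ns ∩ D.Sc φ c)
      + ∑ y ∈ symmDiff N (Ns ∩ D.Sc φ c), eB D.H.G (D.O.OX c) {y} := eB_symmY _ _ _ _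
  have e1' : (eB D.H.G (D.O.OX c) N : ℝ) ≤ (eB D.H.G (D.O.OX c) (Ns ∩ D.Sc φ c) : ℝ)
      + ∑ y ∈ symmDiff N (Ns ∩ D.Sc φ c), (eB D.H.G (D.O.OX c) {y} : ℝ) := by exact_mod_cast e1
  have e2 : ∀ y, (D.t : ℝ) ^ 26 * (eB D.H.G (D.O.OX c) {y} : ℝ) ≤ D.κ := by
    intro y
    exact_mod_cast hO.o3Y c y
  have e3 : (D.t : ℝ) ^ 26 * ∑ y ∈ symmDiff N (Ns ∩ D.Sc φ c), (eB D.H.G (D.O.OX c) {y} : ℝ)
      ≤ D.κ * ((symmDiff N (Ns ∩ D.Sc φ c)).card : ℝ) := by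
    rw [Finset.mul_sum]
    calc ∑ y ∈ symmDiff N (Ns ∩ D.Sc φ c), (D.t : ℝ) ^ 26 * (eB D.H.G (D.O.OX c) {y} : ℝ)
        ≤ ∑ y ∈ symmDiff N (Ns ∩ D.Sc φ c), (D.κ : ℝ) := Finset.sum_le_sum (fun y _ => e2 y)
      _ = D.κ * ((symmDiff N (Ns ∩ D.Sc φ c)).card : ℝ) := by
        rw [Finset.sum_const, nsmul_eq_mul, mul_comm]
  -- the macroscopic statement
  have hm : ¬ D.mac3 φ T (D.arO c) c := by
    intro h
    exact hG.mac T (Or.inr (Or.inr ⟨c, Or.inr (Or.inr (Or.inr (Or.inr (Or.inr (Or.inl h)))))⟩))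
  unfold Ctx.mac3 at hm
  push Not at hm
  rw [← hAT, ← hNs] at hm
  have e4 : (eB D.H.G (D.O.OX c) (Ns ∩ D.Sc φ c) : ℝ) = ∑ y ∈ Ns ∩ D.Sc φ c, D.arO c y := by
    rw [eB_sumY]
    push_cast
    rfl
  have e5 : ∑ y ∈ Ns \ D.O.OY c, D.arO c y ≤ (eB D.H.G (D.O.OX c) Ns : ℝ) := by
    rw [eB_sumY]
    push_cast
    apply Finset.sum_le_sum_of_subset_of_nonneg Finset.sdiff_subset
    intro y _ _
    exact Nat.cast_nonneg _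
  have e6 : (D.t : ℝ) ^ 26 * (eB D.H.G (D.O.OX c) Ns : ℝ) ≤ (mY D.H.G Ns : ℝ) + (Ns.card : ℝ) := by
    exact_mod_cast hO.o5Y c Ns
  have e7 : (mY D.H.G Ns : ℝ) ≤ (bd D.H.G AT Ns : ℝ) := by
    exact_mod_cast mY_le_bd D.H.G AT Ns
  have e8 : (eB D.H.G (D.O.OX c) (Ns ∩ D.Sc φ c) : ℝ) ≤ D.rho1 * (eB D.H.G (D.O.OX c) Ns : ℝ)
      + lam D.n * szT D.F D.n T := by
    have := (abs_le.mp hm).2
    rw [e4]
    nlinarith [mul_le_mul_of_nonneg_left e5 hr5.le]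
  -- multiply all by t^26
  have hetaT : eta D.t * (D.t : ℝ) ^ 21 = 1 := by
    rw [heta]; field_simp
  have c3 : (D.κ : ℝ) * ((symmDiff N (Ns ∩ D.Sc φ c)).card : ℝ) ≤ 10 ^ 15 * ((D.t : ℝ) ^ 21 * b) := by
    have := mul_le_mul_of_nonneg_left h2 (by positivity : (0 : ℝ) ≤ (D.t : ℝ) ^ 21)
    have e : (D.t : ℝ) ^ 21 * (eta D.t * D.κ * ((symmDiff N (Ns ∩ D.Sc φ c)).card : ℝ))
        = (eta D.t * (D.t : ℝ) ^ 21) * (D.κ * ((symmDiff N (Ns ∩ D.Sc φ c)).card : ℝ)) := by ring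
    rw [e, hetaT, one_mul] at this
    calc _ ≤ _ := this
      _ = _ := by ring
  have c1 : (D.κ : ℝ) * (bd D.H.G AT Ns : ℝ) ≤ 10 ^ 21 * ((D.t : ℝ) ^ 21 * (D.d * b)) := by
    have := mul_le_mul_of_nonneg_left h3 (by positivity : (0 : ℝ) ≤ (D.t : ℝ) ^ 21)
    have e : (D.t : ℝ) ^ 21 * (eta D.t * D.κ * (bd D.H.G AT Ns : ℝ))
        = (eta D.t * (D.t : ℝ) ^ 21) * (D.κ * (bd D.H.G AT Ns : ℝ)) := by ring
    rw [e, hetaT, one_mul] at this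
    calc _ ≤ _ := this
      _ = _ := by ring
  have c2 : (D.κ : ℝ) * (Ns.card : ℝ) ≤ 10 ^ 17 * ((D.t : ℝ) ^ 21 * (D.d * b)) := by
    have := mul_le_mul_of_nonneg_left h6 (by positivity : (0 : ℝ) ≤ (D.t : ℝ) ^ 21)
    have e : (D.t : ℝ) ^ 21 * (eta D.t * D.κ * (Ns.card : ℝ))
        = (eta D.t * (D.t : ℝ) ^ 21) * (D.κ * (Ns.card : ℝ)) := by ring
    rw [e, hetaT, one_mul] at this
    calc _ ≤ _ := this
      _ = _ := by ring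
  -- rho1 * (..)
  have hr : D.rho1 * D.d ≤ D.κ := by
    have : D.rho1 ≤ (D.κ : ℝ) / D.d := le_trans hr2 hr3
    rwa [le_div_iff₀ hd0] at this
  have c4 : (D.t : ℝ) ^ 26 * (D.rho1 * (eB D.H.G (D.O.OX c) Ns : ℝ)) ≤ (10 ^ 21 + 10 ^ 17) * ((D.t : ℝ) ^ 21 * b) := by
    have g1 : (D.κ : ℝ) * ((D.t : ℝ) ^ 26 * (eB D.H.G (D.O.OX c) Ns : ℝ))
        ≤ (10 ^ 21 + 10 ^ 17) * ((D.t : ℝ) ^ 21 * (D.d * b)) := by
      have : (D.κ : ℝ) * ((D.t : ℝ) ^ 26 * (eB D.H.G (D.O.OX c) Ns : ℝ)) ≤ D.κ * ((bd D.H.G AT Ns : ℝ) + (Ns.card : ℝ)) :=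
        mul_le_mul_of_nonneg_left (by linarith) hk0.le
      linarith
    have g2 : (D.κ : ℝ) * ((D.t : ℝ) ^ 26 * (D.rho1 * (eB D.H.G (D.O.OX c) Ns : ℝ)))
        ≤ D.κ * ((10 ^ 21 + 10 ^ 17) * ((D.t : ℝ) ^ 21 * b)) := by
      have g3 := mul_le_mul_of_nonneg_left g1 hr5.le
      have g4 : D.rho1 * ((10 ^ 21 + 10 ^ 17) * ((D.t : ℝ) ^ 21 * (D.d * b)))
          = (D.rho1 * D.d) * ((10 ^ 21 + 10 ^ 17) * ((D.t : ℝ) ^ 21 * b)) := by ring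
      have g5 : (D.rho1 * D.d) * ((10 ^ 21 + 10 ^ 17) * ((D.t : ℝ) ^ 21 * b))
          ≤ D.κ * ((10 ^ 21 + 10 ^ 17) * ((D.t : ℝ) ^ 21 * b)) :=
        mul_le_mul_of_nonneg_right hr (by positivity)
      calc (D.κ : ℝ) * ((D.t : ℝ) ^ 26 * (D.rho1 * (eB D.H.G (D.O.OX c) Ns : ℝ)))
          = D.rho1 * ((D.κ : ℝ) * ((D.t : ℝ) ^ 26 * (eB D.H.G (D.O.OX c) Ns : ℝ))) := by ring
        _ ≤ _ := g3
        _ = _ := g4
        _ ≤ _ := g5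
    exact le_of_mul_le_mul_left g2 hk0
  have c5 : (D.t : ℝ) ^ 26 * (lam D.n * szT D.F D.n T) ≤ (D.t : ℝ) ^ 21 * b := by
    have g1 : lam D.n * szT D.F D.n T ≤ (A.card : ℝ) / (D.n : ℝ) ^ 2 := by
      have : lam D.n * szT D.F D.n T ≤ lam D.n * ((D.n : ℝ) ^ 4 * A.card) :=
        mul_le_mul_of_nonneg_left h4 (by unfold lam; positivity)
      refine this.trans (le_of_eq ?_)
      unfold lam
      field_simp
    have g2 : (A.card : ℝ) ≤ 10 ^ 15 * ((D.t : ℝ) ^ 21 * b) := by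
      have := mul_le_mul_of_nonneg_left hbl (by positivity : (0 : ℝ) ≤ (D.t : ℝ) ^ 21)
      have e : (D.t : ℝ) ^ 21 * (eta D.t * (A.card : ℝ))
          = (eta D.t * (D.t : ℝ) ^ 21) * (A.card : ℝ) := by ring
      rw [e, hetaT, one_mul] at this
      calc _ ≤ _ := this
        _ = _ := by ring
    have g3 : (D.t : ℝ) ^ 26 * 10 ^ 15 ≤ (D.n : ℝ) ^ 2 := by
      have : ((D.t : ℝ) ^ 200) ^ 2 ≤ (D.n : ℝ) ^ 2 := pow_le_pow_left₀ (by positivity) hn1 2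
      refine le_trans ?_ this
      have t1 : (1 : ℝ) ≤ D.t := le_trans (by norm_num) ht
      calc (D.t : ℝ) ^ 26 * 10 ^ 15 ≤ (D.t : ℝ) ^ 26 * D.t :=
            mul_le_mul_of_nonneg_left (le_trans (by norm_num) ht) (by positivity)
        _ = (D.t : ℝ) ^ 27 := by ring
        _ ≤ (D.t : ℝ) ^ 400 := pow_le_pow_right₀ t1 (by norm_num)
        _ = ((D.t : ℝ) ^ 200) ^ 2 := by ring
    have g4 : (D.t : ℝ) ^ 26 * (A.card : ℝ) ≤ (D.n : ℝ) ^ 2 * ((D.t : ℝ) ^ 21 * b) := by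
      calc (D.t : ℝ) ^ 26 * (A.card : ℝ) ≤ (D.t : ℝ) ^ 26 * (10 ^ 15 * ((D.t : ℝ) ^ 21 * b)) :=
            mul_le_mul_of_nonneg_left g2 (by positivity)
        _ = ((D.t : ℝ) ^ 26 * 10 ^ 15) * ((D.t : ℝ) ^ 21 * b) := by ring
        _ ≤ _ := mul_le_mul_of_nonneg_right g3 (by positivity)
    have g5 : (D.t : ℝ) ^ 26 * ((A.card : ℝ) / (D.n : ℝ) ^ 2) ≤ (D.t : ℝ) ^ 21 * b := by
      rw [← mul_div_assoc, div_le_iff₀ (by positivity)]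
      linarith
    exact le_trans (mul_le_mul_of_nonneg_left g1 (by positivity)) g5
  have fin : (D.t : ℝ) ^ 26 * (eB D.H.G (D.O.OX c) N : ℝ) ≤ 10 ^ 23 * ((D.t : ℝ) ^ 21 * b) := by
    have a1 : (D.t : ℝ) ^ 26 * (eB D.H.G (D.O.OX c) N : ℝ) ≤
        (D.t : ℝ) ^ 26 * ((D.rho1 * (eB D.H.G (D.O.OX c) Ns : ℝ) + lam D.n * szT D.F D.n T)
          + ∑ y ∈ symmDiff N (Ns ∩ D.Sc φ c), (eB D.H.G (D.O.OX c) {y} : ℝ)) :=
      mul_le_mul_of_nonneg_left (by linarith) (by positivity)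
    have a2 : (D.t : ℝ) ^ 26 * ((D.rho1 * (eB D.H.G (D.O.OX c) Ns : ℝ) + lam D.n * szT D.F D.n T)
          + ∑ y ∈ symmDiff N (Ns ∩ D.Sc φ c), (eB D.H.G (D.O.OX c) {y} : ℝ))
        = (D.t : ℝ) ^ 26 * (D.rho1 * (eB D.H.G (D.O.OX c) Ns : ℝ)) + (D.t : ℝ) ^ 26 * (lam D.n * szT D.F D.n T)
          + (D.t : ℝ) ^ 26 * ∑ y ∈ symmDiff N (Ns ∩ D.Sc φ c), (eB D.H.G (D.O.OX c) {y} : ℝ) := by ring
    have pb : 0 ≤ (D.t : ℝ) ^ 21 * b := by positivity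
    nlinarith [a1, a2, c3, c4, c5, e3, pb]
  rw [div_mul_eq_mul_div, le_div_iff₀ (by positivity)]
  have h : (D.t : ℝ) ^ 21 * ((eB D.H.G (D.O.OX c) N : ℝ) * (D.t : ℝ) ^ 5) ≤ (D.t : ℝ) ^ 21 * (10 ^ 23 * b) := by
    calc (D.t : ℝ) ^ 21 * ((eB D.H.G (D.O.OX c) N : ℝ) * (D.t : ℝ) ^ 5)
        = (D.t : ℝ) ^ 26 * (eB D.H.G (D.O.OX c) N : ℝ) := by ring
      _ ≤ _ := fin
      _ = _ := by ring
  exact le_of_mul_le_mul_left h (by positivity)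

theorem E3x (hD : CtxOK D) (φ : D.Lbl) (hG : D.Good φ) (c : Fin D.B) (A : Finset X) (N : Finset Y) (hA : 2 * A.card ≤ Fintype.card X) :
    (D.κ : ℝ) * (eB D.H.G A (D.O.OY c) : ℝ) ≤ 10 ^ 16 / (D.t : ℝ) ^ 5 * (D.d * (bd (D.FS φ c) A N : ℝ)) := by
  have hm := mXG_le D hD φ hG c A N
  obtain ⟨ht, het, he0, he1⟩ := ctx_t D hD
  have ht0 : (0 : ℝ) < D.t := lt_of_lt_of_le (by positivity) ht
  have heta : eta D.t = 1 / (D.t : ℝ) ^ 21 := rfl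
  have hetaT : eta D.t * (D.t : ℝ) ^ 21 = 1 := by
    rw [heta]; field_simp
  set b : ℝ := (bd (D.FS φ c) A N : ℝ) with hb
  have hb0 : 0 ≤ b := Nat.cast_nonneg _
  have h5 : (D.t : ℝ) ^ 26 * ((D.κ : ℝ) * (eB D.H.G A (D.O.OY c) : ℝ)) ≤ D.κ * (mX D.H.G A : ℝ) + D.n * (A.card : ℝ) := by
    exact_mod_cast hD.out.o5X c A
  have hi : (D.n : ℝ) * (A.card : ℝ) ≤ 2 * D.κ * (mX D.H.G A : ℝ) := by
    exact_mod_cast D.H.isoX A hA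
  have c1 : (D.κ : ℝ) * (mX D.H.G A : ℝ) ≤ 10 ^ 14 * ((D.t : ℝ) ^ 21 * (D.d * b)) := by
    have := mul_le_mul_of_nonneg_left hm (by positivity : (0 : ℝ) ≤ (D.t : ℝ) ^ 21)
    have e : (D.t : ℝ) ^ 21 * (eta D.t * D.κ * (mX D.H.G A : ℝ))
        = (eta D.t * (D.t : ℝ) ^ 21) * (D.κ * (mX D.H.G A : ℝ)) := by ring
    rw [e, hetaT, one_mul] at this
    calc _ ≤ _ := this
      _ = _ := by ring
  have fin : (D.t : ℝ) ^ 26 * ((D.κ : ℝ) * (eB D.H.G A (D.O.OY c) : ℝ)) ≤ 10 ^ 16 * ((D.t : ℝ) ^ 21 * (D.d * b)) := by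
    have pb : 0 ≤ (D.t : ℝ) ^ 21 * (D.d * b) := by positivity
    nlinarith
  rw [div_mul_eq_mul_div, le_div_iff₀ (by positivity)]
  have h : (D.t : ℝ) ^ 21 * ((D.κ : ℝ) * (eB D.H.G A (D.O.OY c) : ℝ) * (D.t : ℝ) ^ 5) ≤ (D.t : ℝ) ^ 21 * (10 ^ 16 * (D.d * b)) := by
    calc (D.t : ℝ) ^ 21 * ((D.κ : ℝ) * (eB D.H.G A (D.O.OY c) : ℝ) * (D.t : ℝ) ^ 5)
        = (D.t : ℝ) ^ 26 * ((D.κ : ℝ) * (eB D.H.G A (D.O.OY c) : ℝ)) := by ring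
      _ ≤ _ := fin
      _ = _ := by ring
  exact le_of_mul_le_mul_left h (by positivity)

end Pool.SCDH
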