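import Pool.Agent.Lib.SCDH.MDefs
import Pool.Agent.Lib.SCDH.G01
import Pool.Agent.Lib.SCDH.G02
import Pool.Agent.Lib.SCDH.G03
import Pool.Agent.Lib.SCDH.G04
import Pool.Agent.Lib.SCDH.N01
import Pool.Agent.Lib.SCDH.K01
import Pool.Agent.Lib.SCDH.K02
import Pool.Agent.Lib.SCDH.D02
import Pool.Agent.Lib.SCDH.D03

/-!
# Row D08 (paper scd_h36.md)
Free vertices near A and N.
Recipe: certF, ¬ mac5X on cX F, ¬ bX6 (≤ t) on the symmetric difference; ¬ mac5Y on maj F (cX F), ¬ bY5 (vZ ≤ t) on N ∖ N*. η κ n^-2 |A| ≤ κ n^-2 10^15 β ≤ β.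
-/

set_option linter.unusedSectionVars false
set_option linter.unusedVariables false

namespace Pool.SCDH

open Finset Pool.MP_0ccee8_co.Lib2

variable {X Y : Type} [Fintype X] [DecidableEq X] [Fintype Y] [DecidableEq Y]
variable (D : Ctx X Y)

attribute [local irreducible] rW ball

private theorem d08_num (hD : CtxOK D) (φ : D.Lbl) (hG : D.Good φ) (c : Fin D.B) (A : Finset X) (N : Finset Y)
    (hA : 2 * A.card ≤ Fintype.card X) (s : ℝ) (hs : s ≤ (D.n : ℝ) ^ 4 * A.card) :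
    eta D.t * D.κ * (lam D.n * s) ≤ (D.t : ℝ) * (bd (D.FS φ c) A N : ℝ) := by
  have hβ : (0 : ℝ) ≤ (bd (D.FS φ c) A N : ℝ) := Nat.cast_nonneg _
  have ht := (ctx_t D hD).1
  obtain ⟨hn1, hn2⟩ := ctx_n D hD
  obtain ⟨hk1, hk2, hk3, hk4⟩ := ctx_deg D hD
  have ht1 : (1 : ℝ) ≤ D.t := le_trans (by norm_num) ht
  have htn : (D.t : ℝ) ≤ D.n := le_trans (le_self_pow₀ ht1 (by norm_num)) hn1
  have hn15 : (10 : ℝ) ^ 15 ≤ D.n := le_trans (le_trans (by norm_num) ht) htn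
  have hn0 : (0 : ℝ) < D.n := lt_of_lt_of_le (by norm_num) hn15
  have hκn : (D.κ : ℝ) ≤ D.n := le_trans hk2 hk3
  have hκ0 : (0 : ℝ) ≤ D.κ := Nat.cast_nonneg _
  have he0 : 0 ≤ eta D.t := by unfold eta; positivity
  have hb := betaLow D hD φ hG c A N hA
  have h1 : lam D.n * s ≤ A.card / (D.n : ℝ) ^ 2 := by
    have hl : (0 : ℝ) ≤ lam D.n := by unfold lam; positivity
    refine le_trans (mul_le_mul_of_nonneg_left hs hl) (le_of_eq ?_)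
    unfold lam
    field_simp
  have h2 : eta D.t * D.κ * (lam D.n * s) ≤ eta D.t * D.κ * (A.card / (D.n : ℝ) ^ 2) :=
    mul_le_mul_of_nonneg_left h1 (mul_nonneg he0 hκ0)
  refine le_trans h2 ?_
  have h3 : eta D.t * D.κ * (A.card / (D.n : ℝ) ^ 2) = (eta D.t * A.card) * (D.κ / (D.n : ℝ) ^ 2) := by
    ring
  rw [h3]
  have h4 : (D.κ : ℝ) / (D.n : ℝ) ^ 2 ≤ 1 / D.n := by
    rw [div_le_div_iff₀ (by positivity) hn0]
    nlinarith
  have h5 : (1 : ℝ) / D.n ≤ 1 / 10 ^ 15 := one_div_le_one_div_of_le (by norm_num) hn15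
  calc (eta D.t * A.card) * (D.κ / (D.n : ℝ) ^ 2)
      ≤ (10 ^ 15 * (bd (D.FS φ c) A N : ℝ)) * (1 / 10 ^ 15) :=
        mul_le_mul hb (le_trans h4 h5) (by positivity) (by positivity)
    _ = (bd (D.FS φ c) A N : ℝ) := by ring
    _ ≤ (D.t : ℝ) * (bd (D.FS φ c) A N : ℝ) := le_mul_of_one_le_left hβ ht1

private theorem d08_mac5X {φ : D.Lbl} (hG : D.Good φ) (c : Fin D.B) (T : Finset (X ⊕ Y)) :
    ∑ x ∈ cX D.F D.n T, (eB D.H.G {x} (D.Zs φ c) : ℝ) ≤ lam D.n * szT D.F D.n T := by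
  by_contra hcon
  rw [not_le] at hcon
  refine hG.mac T ?_
  right; right
  refine ⟨c, ?_⟩
  iterate 8 right
  left
  exact hcon

private theorem d08_mac5Y {φ : D.Lbl} (hG : D.Good φ) (c : Fin D.B) (T : Finset (X ⊕ Y)) :
    ∑ y ∈ maj D.F (cX D.F D.n T), (D.vZ φ c y : ℝ) ≤ lam D.n * szT D.F D.n T := by
  by_contra hcon
  rw [not_le] at hcon
  refine hG.mac T ?_
  right; right
  refine ⟨c, ?_⟩
  iterate 9 right
  left
  exact hcon

private theorem d08_bX6 {φ : D.Lbl} (hG : D.Good φ) (c : Fin D.B) (x : X) :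
    (eB D.H.G {x} (D.Zs φ c) : ℝ) ≤ D.t := by
  have h := hG.loc (.inl x)
  by_contra hcon
  rw [not_le] at hcon
  refine h ⟨c, ?_⟩
  right; right; right; right; right
  unfold Ctx.bX6
  exact_mod_cast hcon

private theorem d08_bY5 {φ : D.Lbl} (hG : D.Good φ) (c : Fin D.B) (y : Y) :
    (D.vZ φ c y : ℝ) ≤ D.t := by
  have h := hG.loc (.inr y)
  by_contra hcon
  rw [not_le] at hcon
  refine h ?_
  right; right; right
  refine ⟨c, Or.inr ?_⟩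
  unfold Ctx.bY5
  exact_mod_cast hcon

private theorem d08_sum {α : Type} [DecidableEq α] (A B C : Finset α) (f : α → ℝ) (hf : ∀ a, 0 ≤ f a) (m M : ℝ)
    (hBC : B ⊆ C) (hC : ∑ a ∈ C, f a ≤ m) (hM : ∀ a, f a ≤ M) :
    ∑ a ∈ A, f a ≤ m + M * ((symmDiff A B).card : ℝ) := by
  have h1 : ∑ a ∈ A, f a ≤ ∑ a ∈ C ∪ symmDiff A B, f a := by
    refine sum_le_sum_of_subset_of_nonneg (fun a ha => ?_) (fun a _ _ => hf a)
    by_cases h : a ∈ B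
    · exact mem_union_left _ (hBC h)
    · exact mem_union_right _ (mem_symmDiff.2 (Or.inl ⟨ha, h⟩))
  have h2 : ∑ a ∈ C ∪ symmDiff A B, f a ≤ ∑ a ∈ C, f a + ∑ a ∈ symmDiff A B, f a := by
    have := sum_union_inter (s₁ := C) (s₂ := symmDiff A B) (f := f)
    have h3 : 0 ≤ ∑ a ∈ C ∩ symmDiff A B, f a := sum_nonneg (fun a _ => hf a)
    linarith
  have h4 : ∑ a ∈ symmDiff A B, f a ≤ M * ((symmDiff A B).card : ℝ) := by
    refine le_trans (sum_le_sum (fun a _ => hM a)) (le_of_eq ?_)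
    rw [sum_const, nsmul_eq_mul, mul_comm]
  linarith

theorem E5X (hD : CtxOK D) (φ : D.Lbl) (hG : D.Good φ) (c : Fin D.B) (A : Finset X) (N : Finset Y) (hA : 2 * A.card ≤ Fintype.card X)
    (hN : N ⊆ D.Sc φ c) :
    eta D.t * D.κ * ∑ x ∈ A, (eB D.H.G {x} (D.Zs φ c) : ℝ) ≤ 10 ^ 14 * (D.t * (bd (D.FS φ c) A N : ℝ)) := by
  obtain ⟨T, h1, h2, h3, h4, h5, h6, h7⟩ := certF D hD φ hG c A N hA hN
  have hn := d08_num D hD φ hG c A N hA _ h4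
  have hs := d08_sum A (cX D.F D.n T) (cX D.F D.n T) (fun x => (eB D.H.G {x} (D.Zs φ c) : ℝ))
    (fun _ => Nat.cast_nonneg _) _ (D.t : ℝ) (subset_refl _) (d08_mac5X D hG c T) (d08_bX6 D hG c)
  have he0 : 0 ≤ eta D.t * D.κ := mul_nonneg (by unfold eta; positivity) (Nat.cast_nonneg _)
  have hβ : (0 : ℝ) ≤ (bd (D.FS φ c) A N : ℝ) := Nat.cast_nonneg _
  have ht0 : (0 : ℝ) ≤ D.t := Nat.cast_nonneg _
  have h8 := mul_le_mul_of_nonneg_left hs he0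
  have h9 : (D.t : ℝ) * (eta D.t * D.κ * ((symmDiff A (cX D.F D.n T)).card : ℝ))
      ≤ D.t * (10 ^ 13 * (bd (D.FS φ c) A N : ℝ)) := mul_le_mul_of_nonneg_left h1 ht0
  have h10 : (0 : ℝ) ≤ D.t * (bd (D.FS φ c) A N : ℝ) := mul_nonneg ht0 hβ
  calc _ ≤ eta D.t * D.κ * (lam D.n * szT D.F D.n T + D.t * ((symmDiff A (cX D.F D.n T)).card : ℝ)) := h8
    _ = eta D.t * D.κ * (lam D.n * szT D.F D.n T)
        + D.t * (eta D.t * D.κ * ((symmDiff A (cX D.F D.n T)).card : ℝ)) := by ring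
    _ ≤ D.t * (bd (D.FS φ c) A N : ℝ) + D.t * (10 ^ 13 * (bd (D.FS φ c) A N : ℝ)) := add_le_add hn h9
    _ ≤ _ := by nlinarith

theorem E5Y (hD : CtxOK D) (φ : D.Lbl) (hG : D.Good φ) (c : Fin D.B) (A : Finset X) (N : Finset Y) (hA : 2 * A.card ≤ Fintype.card X)
    (hN : N ⊆ D.Sc φ c) :
    eta D.t * D.κ * ∑ y ∈ N, (D.vZ φ c y : ℝ) ≤ 10 ^ 16 * (D.t * (bd (D.FS φ c) A N : ℝ)) := by
  obtain ⟨T, h1, h2, h3, h4, h5, h6, h7⟩ := certF D hD φ hG c A N hA hN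
  have hn := d08_num D hD φ hG c A N hA _ h4
  have hs := d08_sum N (maj D.F (cX D.F D.n T) ∩ D.Sc φ c) (maj D.F (cX D.F D.n T))
    (fun y => (D.vZ φ c y : ℝ))
    (fun _ => Nat.cast_nonneg _) _ (D.t : ℝ) inter_subset_left (d08_mac5Y D hG c T) (d08_bY5 D hG c)
  have he0 : 0 ≤ eta D.t * D.κ := mul_nonneg (by unfold eta; positivity) (Nat.cast_nonneg _)
  have hβ : (0 : ℝ) ≤ (bd (D.FS φ c) A N : ℝ) := Nat.cast_nonneg _
  have ht0 : (0 : ℝ) ≤ D.t := Nat.cast_nonneg _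
  have h8 := mul_le_mul_of_nonneg_left hs he0
  have h9 : (D.t : ℝ) * (eta D.t * D.κ * ((symmDiff N (maj D.F (cX D.F D.n T) ∩ D.Sc φ c)).card : ℝ))
      ≤ D.t * (10 ^ 15 * (bd (D.FS φ c) A N : ℝ)) := mul_le_mul_of_nonneg_left h2 ht0
  have h10 : (0 : ℝ) ≤ D.t * (bd (D.FS φ c) A N : ℝ) := mul_nonneg ht0 hβ
  calc _ ≤ eta D.t * D.κ * (lam D.n * szT D.F D.n T
        + D.t * ((symmDiff N (maj D.F (cX D.F D.n T) ∩ D.Sc φ c)).card : ℝ)) := h8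
    _ = eta D.t * D.κ * (lam D.n * szT D.F D.n T)
        + D.t * (eta D.t * D.κ * ((symmDiff N (maj D.F (cX D.F D.n T) ∩ D.Sc φ c)).card : ℝ)) := by ring
    _ ≤ D.t * (bd (D.FS φ c) A N : ℝ) + D.t * (10 ^ 15 * (bd (D.FS φ c) A N : ℝ)) := add_le_add hn h9
    _ ≤ _ := by nlinarith

end Pool.SCDH
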