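import Pool.Agent.Lib.SCDH.MDefs
import Pool.Agent.Lib.SCDH.G01
import Pool.Agent.Lib.SCDH.G02
import Pool.Agent.Lib.SCDH.G03
import Pool.Agent.Lib.SCDH.G04
import Pool.Agent.Lib.SCDH.N01
import Pool.Agent.Lib.SCDH.K01
import Pool.Agent.Lib.SCDH.K02
import Pool.Agent.Lib.SCDH.D02
import Pool.Agent.Lib.SCDH.D03

/-!
# Row D04 (paper scd_h36.md)
Fluctuation of the number of edges into Sc.
Recipe: certF; macroscopic mac2 (Γ = Hb, F) on A_T: ≤ lam szT ≤ n^-6 n^4 |A| ≤ n^-2 |A|, η|A| ≤ 10^15 β; the symmetric difference has ≤ 10^13 β/(ηκ) vertices, each term ≤ √κ t (¬ bX1) resp. √(ηκ) t (¬ bX2). Final: η √κ t · 10^13/(ηκ) = 10^13 t/√κ ≤ t^-5/2; F: √(ηκ) t 10^13/(ηκ) ≤ 10^13 t/t^14 ≤ t^-5/2.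
-/

set_option linter.unusedSectionVars false
set_option linter.unusedVariables false

namespace Pool.SCDH

open Finset Pool.MP_0ccee8_co.Lib2

variable {X Y : Type} [Fintype X] [DecidableEq X] [Fintype Y] [DecidableEq Y]
variable (D : Ctx X Y)

private theorem core (f : X → ℝ) (A A' : Finset X) (M : ℝ) (hM : ∀ x, |f x| ≤ M) :
    |∑ x ∈ A, f x| ≤ |∑ x ∈ A', f x| + ((symmDiff A A').card : ℝ) * M := by
  have h1 : ∑ x ∈ A, f x = ∑ x ∈ A ∩ A', f x + ∑ x ∈ A \ A', f x := by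
    rw [← Finset.sum_union]
    · congr 1
      ext x
      simp only [mem_union, mem_inter, mem_sdiff]
      tauto
    · rw [Finset.disjoint_left]
      intro x hx hx'
      exact (mem_sdiff.mp hx').2 (mem_inter.mp hx).2
  have h2 : ∑ x ∈ A', f x = ∑ x ∈ A ∩ A', f x + ∑ x ∈ A' \ A, f x := by
    rw [← Finset.sum_union]
    · congr 1
      ext x
      simp only [mem_union, mem_inter, mem_sdiff]
      tauto
    · rw [Finset.disjoint_left]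
      intro x hx hx'
      exact (mem_sdiff.mp hx').2 (mem_inter.mp hx).1
  have h3 : |∑ x ∈ A \ A', f x| ≤ ((A \ A').card : ℝ) * M := by
    refine (Finset.abs_sum_le_sum_abs _ _).trans ?_
    refine (Finset.sum_le_sum (fun x _ => hM x)).trans ?_
    rw [Finset.sum_const, nsmul_eq_mul]
  have h4 : |∑ x ∈ A' \ A, f x| ≤ ((A' \ A).card : ℝ) * M := by
    refine (Finset.abs_sum_le_sum_abs _ _).trans ?_
    refine (Finset.sum_le_sum (fun x _ => hM x)).trans ?_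
    rw [Finset.sum_const, nsmul_eq_mul]
  have h5 : (symmDiff A A').card = (A \ A').card + (A' \ A).card := by
    rw [show symmDiff A A' = (A \ A') ∪ (A' \ A) from rfl, Finset.card_union_of_disjoint]
    rw [Finset.disjoint_left]
    intro x hx hx'
    exact (mem_sdiff.mp hx).2 (mem_sdiff.mp hx').1
  have h6 : ∑ x ∈ A, f x = ∑ x ∈ A', f x + (∑ x ∈ A \ A', f x - ∑ x ∈ A' \ A, f x) := by
    rw [h1, h2]; ring
  rw [h6, h5]
  push_cast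
  refine (abs_add_le _ _).trans ?_
  have h7 := abs_sub (∑ x ∈ A \ A', f x) (∑ x ∈ A' \ A, f x)
  nlinarith [h7, h3, h4]

/-- the macroscopic estimate at the certificate, and the comparison -/
private theorem core2 (hD : CtxOK D) (φ : D.Lbl) (hG : D.Good φ) (c : Fin D.B) (A : Finset X) (N : Finset Y)
    (hA : 2 * A.card ≤ Fintype.card X) (hN : N ⊆ D.Sc φ c) (Γ : Finset (X × Y)) (M : ℝ) (hM0 : 0 ≤ M)
    (hM : ∀ x, |(eB Γ {x} (D.Sc φ c) : ℝ) - D.rho1 * (eB Γ {x} (D.O.OY c)ᶜ : ℝ)| ≤ M)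
    (hmac : ∀ T, ¬ D.mac2 φ T Γ c) :
    eta D.t * D.κ * |∑ x ∈ A, ((eB Γ {x} (D.Sc φ c) : ℝ) - D.rho1 * (eB Γ {x} (D.O.OY c)ᶜ : ℝ))|
      ≤ (10 ^ 15 * D.κ / (D.n : ℝ) ^ 2 + 10 ^ 13 * M) * (bd (D.FS φ c) A N : ℝ) := by
  obtain ⟨T, hT1, -, -, hT4, -, -, -⟩ := certF D hD φ hG c A N hA hN
  have hb := betaLow D hD φ hG c A N hA
  have hm := hmac T
  unfold Ctx.mac2 at hm
  rw [not_lt] at hm
  obtain ⟨t1, -, -, -⟩ := ctx_t D hD
  have t0 : (0 : ℝ) < D.t := lt_of_lt_of_le (by positivity) t1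
  have n1 := (ctx_n D hD).1
  have n0 : (0 : ℝ) < D.n := lt_of_lt_of_le (by positivity) n1
  have κ0 : (0 : ℝ) < D.κ := lt_of_lt_of_le (by positivity) (ctx_deg D hD).1
  have η0 : 0 < eta D.t := (ctx_F D hD).2.2.2.1
  have hc := core (fun x => (eB Γ {x} (D.Sc φ c) : ℝ) - D.rho1 * (eB Γ {x} (D.O.OY c)ᶜ : ℝ))
    A (cX D.F D.n T) M hM
  have hl : lam D.n * szT D.F D.n T ≤ A.card / (D.n : ℝ) ^ 2 := by
    unfold lam
    rw [one_div, inv_mul_le_iff₀ (by positivity)]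
    refine hT4.trans (le_of_eq ?_)
    field_simp
  set S := |∑ x ∈ A, ((eB Γ {x} (D.Sc φ c) : ℝ) - D.rho1 * (eB Γ {x} (D.O.OY c)ᶜ : ℝ))| with hS
  set β := (bd (D.FS φ c) A N : ℝ) with hβ
  set m := ((symmDiff A (cX D.F D.n T)).card : ℝ) with hm'
  have h1 : S ≤ A.card / (D.n : ℝ) ^ 2 + m * M := hc.trans (add_le_add (hm.trans hl) le_rfl)
  have h2 : eta D.t * D.κ * S ≤ eta D.t * D.κ * (A.card / (D.n : ℝ) ^ 2 + m * M) :=
    mul_le_mul_of_nonneg_left h1 (by positivity)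
  have h3 : eta D.t * D.κ * (A.card / (D.n : ℝ) ^ 2 + m * M) =
      (eta D.t * A.card) * (D.κ / (D.n : ℝ) ^ 2) + (eta D.t * D.κ * m) * M := by ring
  have h4 : (eta D.t * A.card) * (D.κ / (D.n : ℝ) ^ 2) ≤ (10 ^ 15 * β) * (D.κ / (D.n : ℝ) ^ 2) :=
    mul_le_mul_of_nonneg_right hb (by positivity)
  have h5 : (eta D.t * D.κ * m) * M ≤ (10 ^ 13 * β) * M := mul_le_mul_of_nonneg_right hT1 hM0
  calc eta D.t * D.κ * S ≤ _ := h2
    _ = _ := h3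
    _ ≤ (10 ^ 15 * β) * (D.κ / (D.n : ℝ) ^ 2) + (10 ^ 13 * β) * M := add_le_add h4 h5
    _ = (10 ^ 15 * D.κ / (D.n : ℝ) ^ 2 + 10 ^ 13 * M) * β := by ring

private theorem num1 (t : ℝ) (ht : (10 : ℝ) ^ 100 ≤ t) (m : ℕ) (hm : 6 ≤ m) :
    10 ^ 15 * (1 / t ^ m) ≤ 1 / (2 * t ^ 5) := by
  have t0 : 0 < t := lt_of_lt_of_le (by positivity) ht
  have t1 : 1 ≤ t := le_trans (by norm_num) ht
  have h6 : t ^ 6 ≤ t ^ m := pow_le_pow_right₀ t1 hm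
  rw [mul_one_div, div_le_div_iff₀ (by positivity) (by positivity)]
  calc (10 : ℝ) ^ 15 * (2 * t ^ 5) = (2 * 10 ^ 15) * t ^ 5 := by ring
    _ ≤ t * t ^ 5 := mul_le_mul_of_nonneg_right (le_trans (by norm_num) ht) (by positivity)
    _ = t ^ 6 := by ring
    _ ≤ t ^ m := h6
    _ = 1 * t ^ m := by ring

theorem eS_H (hD : CtxOK D) (φ : D.Lbl) (hG : D.Good φ) (c : Fin D.B) (A : Finset X) (N : Finset Y) (hA : 2 * A.card ≤ Fintype.card X)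
    (hN : N ⊆ D.Sc φ c) :
    eta D.t * |∑ x ∈ A, ((eB D.Hb {x} (D.Sc φ c) : ℝ) - D.rho1 * (eB D.Hb {x} (D.O.OY c)ᶜ : ℝ))|
      ≤ (bd (D.FS φ c) A N : ℝ) / (D.t : ℝ) ^ 5 := by
  obtain ⟨t1, -, -, -⟩ := ctx_t D hD
  have t0 : (0 : ℝ) < D.t := lt_of_lt_of_le (by positivity) t1
  have t11 : (1 : ℝ) ≤ D.t := le_trans (by norm_num) t1
  have n1 := (ctx_n D hD).1
  have n0 : (0 : ℝ) < D.n := lt_of_lt_of_le (by positivity) n1
  have κ1 := (ctx_deg D hD).1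
  have κ0 : (0 : ℝ) < D.κ := lt_of_lt_of_le (by positivity) κ1
  have h := core2 D hD φ hG c A N hA hN D.Hb (Real.sqrt D.κ * D.t) (by positivity)
    (fun x => by
      have hb := hG.loc (.inl x)
      unfold Ctx.bad at hb
      simp only [not_exists, not_or] at hb
      have := (hb c).1
      unfold Ctx.bX1 at this
      exact not_lt.mp this)
    (fun T hT => hG.mac T (Or.inr (Or.inr ⟨c, Or.inr (Or.inl hT)⟩)))
  set S := |∑ x ∈ A, ((eB D.Hb {x} (D.Sc φ c) : ℝ) - D.rho1 * (eB D.Hb {x} (D.O.OY c)ᶜ : ℝ))| with hS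
  set β := (bd (D.FS φ c) A N : ℝ) with hβ
  have hβ0 : 0 ≤ β := by positivity
  have hsq : Real.sqrt D.κ * Real.sqrt D.κ = D.κ := Real.mul_self_sqrt κ0.le
  have hs25 : (D.t : ℝ) ^ 25 ≤ Real.sqrt D.κ := by
    apply Real.le_sqrt_of_sq_le
    have hh : ((D.t : ℝ) ^ 25) ^ 2 = (D.t : ℝ) ^ 50 := by ring
    rw [hh]; exact κ1
  have hs0 : 0 < Real.sqrt D.κ := lt_of_lt_of_le (by positivity) hs25
  -- first term
  have e1 : 10 ^ 15 * (D.κ : ℝ) / (D.n : ℝ) ^ 2 ≤ D.κ * (1 / (2 * (D.t : ℝ) ^ 5)) := by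
    have hn2 : (D.t : ℝ) ^ 400 ≤ (D.n : ℝ) ^ 2 := by
      calc (D.t : ℝ) ^ 400 = ((D.t : ℝ) ^ 200) ^ 2 := by ring
        _ ≤ (D.n : ℝ) ^ 2 := pow_le_pow_left₀ (by positivity) n1 2
    calc 10 ^ 15 * (D.κ : ℝ) / (D.n : ℝ) ^ 2 = D.κ * (10 ^ 15 * (1 / (D.n : ℝ) ^ 2)) := by ring
      _ ≤ D.κ * (10 ^ 15 * (1 / (D.t : ℝ) ^ 400)) := by
        gcongr
      _ ≤ D.κ * (1 / (2 * (D.t : ℝ) ^ 5)) :=
        mul_le_mul_of_nonneg_left (num1 _ t1 400 (by norm_num)) κ0.le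
  have e2 : 10 ^ 13 * (Real.sqrt D.κ * D.t) ≤ D.κ * (1 / (2 * (D.t : ℝ) ^ 5)) := by
    have h24 : 10 ^ 13 * (D.t : ℝ) ≤ Real.sqrt D.κ * (1 / (2 * (D.t : ℝ) ^ 5)) := by
      have h0 : 10 ^ 13 * (D.t : ℝ) ≤ (D.t : ℝ) ^ 25 * (1 / (2 * (D.t : ℝ) ^ 5)) := by
        rw [mul_one_div, le_div_iff₀ (by positivity)]
        calc 10 ^ 13 * (D.t : ℝ) * (2 * (D.t : ℝ) ^ 5) = (2 * 10 ^ 13) * (D.t : ℝ) ^ 6 := by ring
          _ ≤ (D.t : ℝ) * (D.t : ℝ) ^ 6 := mul_le_mul_of_nonneg_right (le_trans (by norm_num) t1) (by positivity)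
          _ = (D.t : ℝ) ^ 7 := by ring
          _ ≤ (D.t : ℝ) ^ 25 := pow_le_pow_right₀ t11 (by norm_num)
      exact h0.trans (mul_le_mul_of_nonneg_right hs25 (by positivity))
    calc 10 ^ 13 * (Real.sqrt D.κ * D.t) = Real.sqrt D.κ * (10 ^ 13 * (D.t : ℝ)) := by ring
      _ ≤ Real.sqrt D.κ * (Real.sqrt D.κ * (1 / (2 * (D.t : ℝ) ^ 5))) := mul_le_mul_of_nonneg_left h24 hs0.le
      _ = (Real.sqrt D.κ * Real.sqrt D.κ) * (1 / (2 * (D.t : ℝ) ^ 5)) := by ring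
      _ = _ := by rw [hsq]
  have e3 : D.κ * (eta D.t * S) ≤ D.κ * (β / (D.t : ℝ) ^ 5) := by
    calc D.κ * (eta D.t * S) = eta D.t * D.κ * S := by ring
      _ ≤ _ := h
      _ ≤ (D.κ * (1 / (2 * (D.t : ℝ) ^ 5)) + D.κ * (1 / (2 * (D.t : ℝ) ^ 5))) * β :=
        mul_le_mul_of_nonneg_right (add_le_add e1 e2) hβ0
      _ = D.κ * (β / (D.t : ℝ) ^ 5) := by field_simp; ring
  exact le_of_mul_le_mul_left e3 κ0

theorem eS_F (hD : CtxOK D) (φ : D.Lbl) (hG : D.Good φ) (c : Fin D.B) (A : Finset X) (N : Finset Y) (hA : 2 * A.card ≤ Fintype.card X)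
    (hN : N ⊆ D.Sc φ c) :
    |∑ x ∈ A, ((eB D.F {x} (D.Sc φ c) : ℝ) - D.rho1 * (eB D.F {x} (D.O.OY c)ᶜ : ℝ))|
      ≤ (bd (D.FS φ c) A N : ℝ) / (D.t : ℝ) ^ 5 := by
  obtain ⟨t1, -, -, -⟩ := ctx_t D hD
  have t0 : (0 : ℝ) < D.t := lt_of_lt_of_le (by positivity) t1
  have t11 : (1 : ℝ) ≤ D.t := le_trans (by norm_num) t1
  have n1 := (ctx_n D hD).1
  have n0 : (0 : ℝ) < D.n := lt_of_lt_of_le (by positivity) n1
  have κ1 := (ctx_deg D hD).1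
  have κ0 : (0 : ℝ) < D.κ := lt_of_lt_of_le (by positivity) κ1
  obtain ⟨-, -, ηκ, η0, -⟩ := ctx_F D hD
  have η0' : eta D.t = 1 / (D.t : ℝ) ^ 21 := rfl
  have h := core2 D hD φ hG c A N hA hN D.F (Real.sqrt (eta D.t * D.κ) * D.t) (by positivity)
    (fun x => by
      have hb := hG.loc (.inl x)
      unfold Ctx.bad at hb
      simp only [not_exists, not_or] at hb
      have := (hb c).2.1
      unfold Ctx.bX2 at this
      exact not_lt.mp this)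
    (fun T hT => hG.mac T (Or.inr (Or.inr ⟨c, Or.inr (Or.inr (Or.inl hT))⟩)))
  set S := |∑ x ∈ A, ((eB D.F {x} (D.Sc φ c) : ℝ) - D.rho1 * (eB D.F {x} (D.O.OY c)ᶜ : ℝ))| with hS
  set β := (bd (D.FS φ c) A N : ℝ) with hβ
  have hβ0 : 0 ≤ β := by positivity
  have hk0 : 0 < eta D.t * D.κ := by positivity
  set k := eta D.t * D.κ with hk
  have hsq : Real.sqrt k * Real.sqrt k = k := Real.mul_self_sqrt hk0.le
  have hs14 : (D.t : ℝ) ^ 14 ≤ Real.sqrt k := by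
    apply Real.le_sqrt_of_sq_le
    have hh : ((D.t : ℝ) ^ 14) ^ 2 = (D.t : ℝ) ^ 28 := by ring
    rw [hh]
    exact (pow_le_pow_right₀ t11 (by norm_num)).trans ηκ
  have hs0 : 0 < Real.sqrt k := lt_of_lt_of_le (by positivity) hs14
  have e1 : 10 ^ 15 * (D.κ : ℝ) / (D.n : ℝ) ^ 2 ≤ k * (1 / (2 * (D.t : ℝ) ^ 5)) := by
    have hκk : (D.κ : ℝ) = k * (D.t : ℝ) ^ 21 := by
      rw [hk, η0']; field_simp
    have hn2 : (D.t : ℝ) ^ 400 ≤ (D.n : ℝ) ^ 2 := by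
      calc (D.t : ℝ) ^ 400 = ((D.t : ℝ) ^ 200) ^ 2 := by ring
        _ ≤ (D.n : ℝ) ^ 2 := pow_le_pow_left₀ (by positivity) n1 2
    calc 10 ^ 15 * (D.κ : ℝ) / (D.n : ℝ) ^ 2
        = k * (10 ^ 15 * ((D.t : ℝ) ^ 21 * (1 / (D.n : ℝ) ^ 2))) := by rw [hκk]; ring
      _ ≤ k * (10 ^ 15 * ((D.t : ℝ) ^ 21 * (1 / (D.t : ℝ) ^ 400))) := by
        gcongr
      _ = k * (10 ^ 15 * (1 / (D.t : ℝ) ^ 379)) := by
        congr 2
        field_simp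
      _ ≤ k * (1 / (2 * (D.t : ℝ) ^ 5)) :=
        mul_le_mul_of_nonneg_left (num1 _ t1 379 (by norm_num)) hk0.le
  have e2 : 10 ^ 13 * (Real.sqrt k * D.t) ≤ k * (1 / (2 * (D.t : ℝ) ^ 5)) := by
    have h24 : 10 ^ 13 * (D.t : ℝ) ≤ Real.sqrt k * (1 / (2 * (D.t : ℝ) ^ 5)) := by
      have h0 : 10 ^ 13 * (D.t : ℝ) ≤ (D.t : ℝ) ^ 14 * (1 / (2 * (D.t : ℝ) ^ 5)) := by
        rw [mul_one_div, le_div_iff₀ (by positivity)]
        calc 10 ^ 13 * (D.t : ℝ) * (2 * (D.t : ℝ) ^ 5) = (2 * 10 ^ 13) * (D.t : ℝ) ^ 6 := by ring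
          _ ≤ (D.t : ℝ) * (D.t : ℝ) ^ 6 := mul_le_mul_of_nonneg_right (le_trans (by norm_num) t1) (by positivity)
          _ = (D.t : ℝ) ^ 7 := by ring
          _ ≤ (D.t : ℝ) ^ 14 := pow_le_pow_right₀ t11 (by norm_num)
      exact h0.trans (mul_le_mul_of_nonneg_right hs14 (by positivity))
    calc 10 ^ 13 * (Real.sqrt k * D.t) = Real.sqrt k * (10 ^ 13 * (D.t : ℝ)) := by ring
      _ ≤ Real.sqrt k * (Real.sqrt k * (1 / (2 * (D.t : ℝ) ^ 5))) := mul_le_mul_of_nonneg_left h24 hs0.le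
      _ = (Real.sqrt k * Real.sqrt k) * (1 / (2 * (D.t : ℝ) ^ 5)) := by ring
      _ = _ := by rw [hsq]
  have e3 : k * S ≤ k * (β / (D.t : ℝ) ^ 5) := by
    calc k * S ≤ _ := h
      _ ≤ (k * (1 / (2 * (D.t : ℝ) ^ 5)) + k * (1 / (2 * (D.t : ℝ) ^ 5))) * β :=
        mul_le_mul_of_nonneg_right (add_le_add e1 e2) hβ0
      _ = k * (β / (D.t : ℝ) ^ 5) := by field_simp; ring
  exact le_of_mul_le_mul_left e3 hk0

end Pool.SCDH
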