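import Pool.Agent.Lib.SCDH.MDefs
import Pool.Agent.Lib.SCDH.G01
import Pool.Agent.Lib.SCDH.G02
import Pool.Agent.Lib.SCDH.G03
import Pool.Agent.Lib.SCDH.G04
import Pool.Agent.Lib.SCDH.N01
import Pool.Agent.Lib.SCDH.W01
import Pool.Agent.Lib.SCDH.W02
import Pool.Agent.Lib.SCDH.W06
import Pool.Agent.Lib.SCDH.K01
import Pool.Agent.Lib.SCDH.K02
import Pool.Agent.Lib.SCDH.D02

/-!
# Row D07 (paper scd_h36.md)
Owner fluctuations (paper Q4).
-/

set_option linter.unusedSectionVars false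
set_option linter.unusedVariables false

namespace Pool.SCDH

open Finset Pool.MP_0ccee8_co.Lib2

variable {X Y : Type} [Fintype X] [DecidableEq X] [Fintype Y] [DecidableEq Y]
variable (D : Ctx X Y)

private theorem d7_abs {α : Type} [DecidableEq α] (f : α → ℝ) (A B : Finset α) (K : ℝ)
    (h : ∀ x ∈ symmDiff A B, |f x| ≤ K) :
    |∑ x ∈ A, f x| ≤ |∑ x ∈ B, f x| + K * ((symmDiff A B).card : ℝ) := by
  classical
  have e1 : ∑ x ∈ A, f x = ∑ x ∈ A ∩ B, f x + ∑ x ∈ A \ B, f x := by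
    rw [← Finset.sum_inter_add_sum_sdiff A B f]
  have e2 : ∑ x ∈ B, f x = ∑ x ∈ A ∩ B, f x + ∑ x ∈ B \ A, f x := by
    rw [Finset.inter_comm, ← Finset.sum_inter_add_sum_sdiff B A f]
  have e3 : ∑ x ∈ symmDiff A B, |f x| = ∑ x ∈ A \ B, |f x| + ∑ x ∈ B \ A, |f x| := by
    rw [symmDiff_def, Finset.sup_eq_union, Finset.sum_union]
    exact disjoint_sdiff_sdiff
  have e4 : ∑ x ∈ symmDiff A B, |f x| ≤ K * ((symmDiff A B).card : ℝ) := by
    calc ∑ x ∈ symmDiff A B, |f x| ≤ ∑ x ∈ symmDiff A B, K := Finset.sum_le_sum h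
      _ = K * ((symmDiff A B).card : ℝ) := by rw [Finset.sum_const, nsmul_eq_mul, mul_comm]
  have e5 : |∑ x ∈ A \ B, f x| ≤ ∑ x ∈ A \ B, |f x| := Finset.abs_sum_le_sum_abs _ _
  have e6 : |∑ x ∈ B \ A, f x| ≤ ∑ x ∈ B \ A, |f x| := Finset.abs_sum_le_sum_abs _ _
  have e7 : ∑ x ∈ A, f x = ∑ x ∈ B, f x + ∑ x ∈ A \ B, f x + - ∑ x ∈ B \ A, f x := by
    rw [e1, e2]; ring
  rw [e7]
  have e8 := abs_add_three (∑ x ∈ B, f x) (∑ x ∈ A \ B, f x) (- ∑ x ∈ B \ A, f x)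
  rw [abs_neg] at e8
  linarith

private theorem d7_num (t n κ η θ β S a q : ℝ) (ht : (10 : ℝ) ^ 100 ≤ t) (hn : t ^ 200 ≤ n)
    (hκ : t ^ 50 ≤ κ) (hη0 : 0 < η) (hη1 : η ≤ 1)
    (hθ0 : 0 < θ) (hθκ : t ^ 20 / 4 ≤ θ * κ) (hθn : t ^ 20 / (4 * n) ≤ θ)
    (hβ : 0 ≤ β) (ha : 0 ≤ a) (hβn : β ≤ 5 * n * a)
    (hS : S ≤ 15 * a + 16000 * β) (hlow : η * a ≤ 10 ^ 15 * β)
    (hq : 9 / 10 * (η * κ) * q ≤ 16000 * β) :
    η * (t ^ 12 * q) ≤ θ * β / t ^ 6 / 2 ∧ η * (1 / n ^ 6 * S) ≤ θ * β / t ^ 6 / 2 := by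
  have ht1 : (1 : ℝ) ≤ t := le_trans (by norm_num) ht
  have ht0 : (0 : ℝ) < t := by linarith
  have hκ0 : 0 < κ := lt_of_lt_of_le (by positivity) hκ
  have ht200 : t ≤ t ^ 200 := by
    calc t = t ^ 1 := (pow_one t).symm
      _ ≤ t ^ 200 := pow_le_pow_right₀ ht1 (by norm_num)
  have hn100 : (10 : ℝ) ^ 100 ≤ n := by linarith
  have hn0 : 0 < n := by linarith [show (0:ℝ) < 10 ^ 100 by norm_num]
  constructor
  · have h1 : η * q ≤ 18000 * β / κ := by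
      rw [le_div_iff₀ hκ0]
      nlinarith [hq]
    have h2 : t ^ 20 / (4 * κ) ≤ θ := by
      rw [div_le_iff₀ (by positivity)]
      nlinarith [hθκ]
    have h3 : η * (t ^ 12 * q) ≤ t ^ 12 * (18000 * β / κ) := by
      have : η * (t ^ 12 * q) = t ^ 12 * (η * q) := by ring
      rw [this]
      exact mul_le_mul_of_nonneg_left h1 (by positivity)
    have h4 : t ^ 20 / (4 * κ) * β / t ^ 6 / 2 ≤ θ * β / t ^ 6 / 2 := by
      have : t ^ 20 / (4 * κ) * β ≤ θ * β := mul_le_mul_of_nonneg_right h2 hβ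
      gcongr
    have h5 : t ^ 12 * (18000 * β / κ) ≤ t ^ 20 / (4 * κ) * β / t ^ 6 / 2 := by
      have e : t ^ 20 / (4 * κ) * β / t ^ 6 / 2 = (t ^ 12 * β / κ) * (t ^ 2 / 8) := by
        field_simp
        ring
      rw [e]
      have e2 : t ^ 12 * (18000 * β / κ) = (t ^ 12 * β / κ) * 18000 := by ring
      rw [e2]
      apply mul_le_mul_of_nonneg_left _ (by positivity)
      nlinarith [ht]
    linarith
  · have hS2 : S ≤ n ^ 3 * a := by
      have h1 : 15 * a + 16000 * β ≤ 80015 * n * a := by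
        have : 15 * a ≤ 15 * n * a := by
          have : 0 ≤ (n - 1) * a := mul_nonneg (by linarith) ha
          nlinarith
        nlinarith
      have h2 : 80015 * n * a ≤ n ^ 3 * a := by
        apply mul_le_mul_of_nonneg_right _ ha
        have : (80015 : ℝ) ≤ n ^ 2 := by nlinarith
        calc 80015 * n ≤ n ^ 2 * n := mul_le_mul_of_nonneg_right this hn0.le
          _ = n ^ 3 := by ring
      linarith
    have h1 : η * (1 / n ^ 6 * S) ≤ 10 ^ 15 * β / n ^ 3 := by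
      have h2 : η * (1 / n ^ 6 * S) = (1 / n ^ 6) * (η * S) := by ring
      have h3 : η * S ≤ n ^ 3 * (10 ^ 15 * β) := by
        calc η * S ≤ η * (n ^ 3 * a) := mul_le_mul_of_nonneg_left hS2 hη0.le
          _ = n ^ 3 * (η * a) := by ring
          _ ≤ n ^ 3 * (10 ^ 15 * β) := mul_le_mul_of_nonneg_left hlow (by positivity)
      rw [h2]
      calc (1 / n ^ 6) * (η * S) ≤ (1 / n ^ 6) * (n ^ 3 * (10 ^ 15 * β)) :=
            mul_le_mul_of_nonneg_left h3 (by positivity)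
        _ = 10 ^ 15 * β / n ^ 3 := by field_simp
    have h4 : t ^ 20 / (4 * n) * β / t ^ 6 / 2 ≤ θ * β / t ^ 6 / 2 := by
      have : t ^ 20 / (4 * n) * β ≤ θ * β := mul_le_mul_of_nonneg_right hθn hβ
      gcongr
    have h5 : 10 ^ 15 * β / n ^ 3 ≤ t ^ 20 / (4 * n) * β / t ^ 6 / 2 := by
      have e : t ^ 20 / (4 * n) * β / t ^ 6 / 2 = (β / n ^ 3) * (t ^ 14 * n ^ 2 / 8) := by
        field_simp
        ring
      rw [e]
      have e2 : 10 ^ 15 * β / n ^ 3 = (β / n ^ 3) * 10 ^ 15 := by ring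
      rw [e2]
      apply mul_le_mul_of_nonneg_left _ (by positivity)
      have h6 : (1 : ℝ) ≤ t ^ 14 := one_le_pow₀ ht1
      have h7 : (8 * 10 ^ 15 : ℝ) ≤ n ^ 2 := by nlinarith
      nlinarith [h6, h7]
    linarith

/-- the common core -/
private theorem d7_core (hD : CtxOK D) (φ : D.Lbl) (hG : D.Good φ) (c : Fin D.B) (A : Finset X) (N : Finset Y)
    (hA : 2 * A.card ≤ Fintype.card X) (hN : N ⊆ D.Sc φ c) (hNA : N.card ≤ 4 * A.card) :
    ∃ T : Finset (X ⊕ Y),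
      eta D.t * ((D.t : ℝ) ^ 12 * ((symmDiff A (cX (D.FS φ c) D.n T)).card : ℝ))
        ≤ D.theta * (bd (D.FS φ c) A N : ℝ) / (D.t : ℝ) ^ 6 / 2 ∧
      eta D.t * ((D.t : ℝ) ^ 12 * ((symmDiff N (cY (D.FS φ c) D.n T)).card : ℝ))
        ≤ D.theta * (bd (D.FS φ c) A N : ℝ) / (D.t : ℝ) ^ 6 / 2 ∧
      eta D.t * (lam D.n * szT (D.FS φ c) D.n T)
        ≤ D.theta * (bd (D.FS φ c) A N : ℝ) / (D.t : ℝ) ^ 6 / 2 := by
  obtain ⟨ht, -, -, -⟩ := ctx_t D hD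
  obtain ⟨hn1, -⟩ := ctx_n D hD
  obtain ⟨hκ, hκd, hdn, -⟩ := ctx_deg D hD
  obtain ⟨hθκ, -, hθ0, -, hθn, -, -⟩ := ctx_theta D hD
  obtain ⟨hFX, hFY, hηκ, hη0, hη1⟩ := ctx_F D hD
  have ht1 : (1 : ℝ) ≤ D.t := le_trans (by norm_num) ht
  have hsub : D.FS φ c ⊆ D.H.G := fun e he => hD.res.sub (Finset.mem_filter.1 he).1
  have ht17 : ((D.t : ℝ) ^ 17) ≤ 9 / 10 * (eta D.t * D.κ) := by
    have h1 : (D.t : ℝ) ^ 29 = (D.t : ℝ) ^ 17 * (D.t : ℝ) ^ 12 := by ring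
    have h2 : (2 : ℝ) ≤ (D.t : ℝ) ^ 12 := by
      calc (2 : ℝ) ≤ D.t := le_trans (by norm_num) ht
        _ = (D.t : ℝ) ^ 1 := (pow_one _).symm
        _ ≤ (D.t : ℝ) ^ 12 := pow_le_pow_right₀ ht1 (by norm_num)
    have h3 : (0 : ℝ) < (D.t : ℝ) ^ 17 := by positivity
    nlinarith
  have hdX : ∀ x, 9 / 10 * (eta D.t * D.κ) ≤ (dgX (D.FS φ c) x : ℝ) := by
    intro x
    rw [degFSX]
    exact (degFS D hD φ hG c x).1
  have hdY : ∀ y ∈ D.Sc φ c, 9 / 10 * (eta D.t * D.κ) ≤ (dgY (D.FS φ c) y : ℝ) := by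
    intro y hy
    rw [degFSY, if_pos hy]
    have := (hFY y).1
    have h0 : 0 ≤ eta D.t * D.κ := by positivity
    linarith
  have hXt : ∀ x, D.t ^ 17 ≤ dgX (D.FS φ c) x := by
    intro x
    have h1 := le_trans ht17 (hdX x)
    exact_mod_cast h1
  have hYt : ∀ y ∈ D.Sc φ c, D.t ^ 17 ≤ dgY (D.FS φ c) y := by
    intro y hy
    have h1 := le_trans ht17 (hdY y hy)
    exact_mod_cast h1
  have htpos : 0 < D.t ^ 17 := by
    have : (0 : ℝ) < (D.t : ℝ) ^ 17 := by positivity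
    exact_mod_cast this
  have hY0 : ∀ y, y ∉ D.Sc φ c → dgY (D.FS φ c) y = 0 := by
    intro y hy
    rw [degFSY, if_neg hy]
  obtain ⟨T, hT1, hT2, hT3⟩ := cert hD.big hD.rng D.H (D.FS φ c) hsub
    (fun x => Or.inr (hXt x))
    (fun y => by
      by_cases hy : y ∈ D.Sc φ c
      · exact Or.inr (hYt y hy)
      · exact Or.inl (hY0 y hy))
    A N (fun x _ => by have := hXt x; omega) (fun y hy => by have := hYt y (hN hy); omega)
  refine ⟨T, ?_⟩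
  set β : ℝ := (bd (D.FS φ c) A N : ℝ) with hβdef
  have hβ0 : 0 ≤ β := by positivity
  -- cY consists of elements of Sc
  have hcY : ∀ y ∈ cY (D.FS φ c) D.n T, y ∈ D.Sc φ c := by
    intro y hy
    by_contra hne
    have h1 := hY0 y hne
    have h2 := pT_isolY (D.FS φ c) rW (by norm_num [rW]) T y h1
    unfold cY at hy
    rw [Finset.mem_filter] at hy
    rw [h2] at hy
    have := hy.2
    norm_num at this
  have hT2' : (∑ x ∈ symmDiff A (cX (D.FS φ c) D.n T), (dgX (D.FS φ c) x : ℝ))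
      + ∑ y ∈ symmDiff N (cY (D.FS φ c) D.n T), (dgY (D.FS φ c) y : ℝ) ≤ 16000 * β := by
    have h1 : ((∑ x ∈ symmDiff A (cX (D.FS φ c) D.n T), dgX (D.FS φ c) x
      + ∑ y ∈ symmDiff N (cY (D.FS φ c) D.n T), dgY (D.FS φ c) y : ℕ) : ℝ)
      ≤ ((16 * rW * bd (D.FS φ c) A N : ℕ) : ℝ) := by exact_mod_cast hT2
    push_cast at h1
    have h2 : (16 : ℝ) * (rW : ℝ) = 16000 := by norm_num [rW]
    rw [h2] at h1
    exact h1
  have hqX : 9 / 10 * (eta D.t * D.κ) * ((symmDiff A (cX (D.FS φ c) D.n T)).card : ℝ) ≤ 16000 * β := by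
    have h1 : 9 / 10 * (eta D.t * D.κ) * ((symmDiff A (cX (D.FS φ c) D.n T)).card : ℝ)
        ≤ ∑ x ∈ symmDiff A (cX (D.FS φ c) D.n T), (dgX (D.FS φ c) x : ℝ) := by
      calc 9 / 10 * (eta D.t * D.κ) * ((symmDiff A (cX (D.FS φ c) D.n T)).card : ℝ)
          = ∑ x ∈ symmDiff A (cX (D.FS φ c) D.n T), 9 / 10 * (eta D.t * D.κ) := by
            rw [Finset.sum_const, nsmul_eq_mul, mul_comm]
        _ ≤ _ := Finset.sum_le_sum (fun x _ => hdX x)
    have h2 : (0 : ℝ) ≤ ∑ y ∈ symmDiff N (cY (D.FS φ c) D.n T), (dgY (D.FS φ c) y : ℝ) :=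
      Finset.sum_nonneg (fun _ _ => by positivity)
    linarith
  have hqY : 9 / 10 * (eta D.t * D.κ) * ((symmDiff N (cY (D.FS φ c) D.n T)).card : ℝ) ≤ 16000 * β := by
    have h1 : 9 / 10 * (eta D.t * D.κ) * ((symmDiff N (cY (D.FS φ c) D.n T)).card : ℝ)
        ≤ ∑ y ∈ symmDiff N (cY (D.FS φ c) D.n T), (dgY (D.FS φ c) y : ℝ) := by
      calc 9 / 10 * (eta D.t * D.κ) * ((symmDiff N (cY (D.FS φ c) D.n T)).card : ℝ)
          = ∑ y ∈ symmDiff N (cY (D.FS φ c) D.n T), 9 / 10 * (eta D.t * D.κ) := by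
            rw [Finset.sum_const, nsmul_eq_mul, mul_comm]
        _ ≤ _ := by
            apply Finset.sum_le_sum
            intro y hy
            rw [Finset.mem_symmDiff] at hy
            rcases hy with hy | hy
            · exact hdY y (hN hy.1)
            · exact hdY y (hcY y hy.1)
    have h2 : (0 : ℝ) ≤ ∑ x ∈ symmDiff A (cX (D.FS φ c) D.n T), (dgX (D.FS φ c) x : ℝ) :=
      Finset.sum_nonneg (fun _ _ => by positivity)
    linarith
  have hbn : β ≤ 5 * D.n * A.card := by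
    have h1 : eB (D.FS φ c) A Nᶜ ≤ D.n * A.card := by
      calc eB (D.FS φ c) A Nᶜ ≤ eB (D.FS φ c) A univ :=
            eB_mono _ _ (Finset.Subset.refl _) _ _ (Finset.Subset.refl _) _ _ (Finset.subset_univ _)
        _ = ∑ x ∈ A, eB (D.FS φ c) {x} univ := eB_sumX _ _ _
        _ ≤ ∑ x ∈ A, D.n := Finset.sum_le_sum (fun x _ =>
            le_trans (dgX_le D.H (D.FS φ c) hsub x) (by exact_mod_cast hdn))
        _ = D.n * A.card := by rw [Finset.sum_const, smul_eq_mul, mul_comm]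
    have h2 : eB (D.FS φ c) Aᶜ N ≤ D.n * N.card := by
      calc eB (D.FS φ c) Aᶜ N ≤ eB (D.FS φ c) univ N :=
            eB_mono _ _ (Finset.Subset.refl _) _ _ (Finset.subset_univ _) _ _ (Finset.Subset.refl _)
        _ = ∑ y ∈ N, eB (D.FS φ c) univ {y} := eB_sumY _ _ _
        _ ≤ ∑ y ∈ N, D.n := Finset.sum_le_sum (fun y _ =>
            le_trans (dgY_le D.H (D.FS φ c) hsub y) (by exact_mod_cast le_trans hκd hdn))
        _ = D.n * N.card := by rw [Finset.sum_const, smul_eq_mul, mul_comm]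
    have h3 : D.n * N.card ≤ D.n * (4 * A.card) := Nat.mul_le_mul_left _ hNA
    have h4 : bd (D.FS φ c) A N ≤ 5 * D.n * A.card := by
      unfold bd
      calc eB (D.FS φ c) A Nᶜ + eB (D.FS φ c) Aᶜ N ≤ D.n * A.card + D.n * (4 * A.card) :=
            Nat.add_le_add h1 (le_trans h2 h3)
        _ = 5 * D.n * A.card := by ring
    have h5 : ((bd (D.FS φ c) A N : ℕ) : ℝ) ≤ ((5 * D.n * A.card : ℕ) : ℝ) := by exact_mod_cast h4
    push_cast at h5
    exact h5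
  have hS : szT (D.FS φ c) D.n T ≤ 15 * (A.card : ℝ) + 16000 * β := by
    have h1 : (((cX (D.FS φ c) D.n T).card + (cY (D.FS φ c) D.n T).card : ℕ) : ℝ)
        ≤ ((A.card + N.card + 16 * rW * bd (D.FS φ c) A N : ℕ) : ℝ) := by exact_mod_cast hT3
    have h2 : ((Nτ D.n * T.card : ℕ) : ℝ) ≤ ((2 * (A.card + N.card) : ℕ) : ℝ) := by exact_mod_cast hT1
    have h3 : ((N.card : ℕ) : ℝ) ≤ ((4 * A.card : ℕ) : ℝ) := by exact_mod_cast hNA
    have h4 : (16 : ℝ) * (rW : ℝ) = 16000 := by norm_num [rW]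
    push_cast at h1 h2 h3
    rw [h4] at h1
    unfold szT
    linarith
  have hlow := betaLow D hD φ hG c A N hA
  have hA0 : (0 : ℝ) ≤ A.card := by positivity
  have r1 := d7_num D.t D.n D.κ (eta D.t) D.theta β (szT (D.FS φ c) D.n T) A.card
    ((symmDiff A (cX (D.FS φ c) D.n T)).card : ℝ) ht hn1 hκ hη0 hη1 hθ0 hθκ hθn hβ0 hA0 hbn hS hlow hqX
  have r2 := d7_num D.t D.n D.κ (eta D.t) D.theta β (szT (D.FS φ c) D.n T) A.card
    ((symmDiff N (cY (D.FS φ c) D.n T)).card : ℝ) ht hn1 hκ hη0 hη1 hθ0 hθκ hθn hβ0 hA0 hbn hS hlow hqY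
  exact ⟨r1.1, r2.1, by unfold lam; exact r1.2⟩

private theorem d7_eBx (Γ : Finset (X × Y)) (x : X) (S : Finset Y) (P : Y → Prop) [DecidablePred P]
    (h : ∀ y ∈ S, P y) :
    (univ.filter (fun y => y ∈ S ∧ (x, y) ∈ Γ ∧ P y)).card = eB Γ {x} S := by
  unfold eB
  apply Finset.card_bij (fun y _ => (x, y))
  · intro y hy
    simp only [Finset.mem_filter, Finset.mem_univ, true_and] at hy
    simp only [Finset.mem_filter, Finset.mem_singleton]
    exact ⟨hy.2.1, trivial, hy.1⟩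
  · intro a _ b _ hab
    exact (Prod.mk.inj hab).2
  · intro e he
    simp only [Finset.mem_filter, Finset.mem_singleton] at he
    refine ⟨e.2, ?_, ?_⟩
    · simp only [Finset.mem_filter, Finset.mem_univ, true_and]
      refine ⟨he.2.2, ?_, h _ he.2.2⟩
      rw [← he.2.1]
      exact he.1
    · rw [← he.2.1]

theorem E4X (hD : CtxOK D) (φ : D.Lbl) (hG : D.Good φ) (c : Fin D.B) (A : Finset X) (N : Finset Y) (hA : 2 * A.card ≤ Fintype.card X)
    (hN : N ⊆ D.Sc φ c)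
    (hAO : ∀ x ∈ A, x ∉ D.O.OX c) (hNA : N.card ≤ 4 * A.card) :
    eta D.t * |∑ x ∈ A, ((dgX (D.Pc φ c) x : ℝ) - D.theta * (eB D.Hb {x} (D.Sc φ c) : ℝ))|
      ≤ D.theta * (bd (D.FS φ c) A N : ℝ) / (D.t : ℝ) ^ 6 := by
  obtain ⟨T, hT1, -, hT3⟩ := d7_core D hD φ hG c A N hA hN hNA
  obtain ⟨hFX, hFY, hηκ, hη0, hη1⟩ := ctx_F D hD
  have hslot : ∀ y ∈ D.Sc φ c, D.slot φ c y < D.s + 1 := fun y hy =>
    slot_lt D hD φ hG c y (Or.inl (mem_Sc D φ c y hy).2.1)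
  have hcard : ∀ x, (univ.filter (fun y => y ∈ D.Sc φ c ∧ (x, y) ∈ D.Hb ∧ D.slot φ c y < D.s + 1)).card
      = eB D.Hb {x} (D.Sc φ c) := fun x => d7_eBx D.Hb x (D.Sc φ c) _ hslot
  set B : Finset X := cX (D.FS φ c) D.n T \ D.O.OX c with hB
  have hsd : symmDiff A B ⊆ symmDiff A (cX (D.FS φ c) D.n T) := by
    intro x hx
    rw [Finset.mem_symmDiff] at hx ⊢
    rw [hB, Finset.mem_sdiff] at hx
    rcases hx with ⟨h1, h2⟩ | ⟨h1, h2⟩
    · left
      exact ⟨h1, fun h => h2 ⟨h, hAO x h1⟩⟩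
    · right
      exact ⟨h1.1, h2⟩
  have hf : ∀ x ∈ symmDiff A B, |(dgX (D.Pc φ c) x : ℝ) - D.theta * (eB D.Hb {x} (D.Sc φ c) : ℝ)|
      ≤ (D.t : ℝ) ^ 12 := by
    intro x hx
    have hxO : x ∉ D.O.OX c := by
      rw [Finset.mem_symmDiff] at hx
      rcases hx with ⟨h1, h2⟩ | ⟨h1, h2⟩
      · exact hAO x h1
      · rw [hB, Finset.mem_sdiff] at h1
        exact h1.2
    have h1 := hG.loc (Sum.inl x)
    by_contra hcon
    apply h1
    refine ⟨c, Or.inr (Or.inr (Or.inr (Or.inl ⟨hxO, (degFS D hD φ hG c x).2.2.2.2, ?_⟩)))⟩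
    rw [hcard x]
    exact not_le.1 hcon
  have h1 := d7_abs (fun x => (dgX (D.Pc φ c) x : ℝ) - D.theta * (eB D.Hb {x} (D.Sc φ c) : ℝ)) A B
    ((D.t : ℝ) ^ 12) hf
  have h2 : |∑ x ∈ B, ((dgX (D.Pc φ c) x : ℝ) - D.theta * (eB D.Hb {x} (D.Sc φ c) : ℝ))|
      ≤ lam D.n * szT (D.FS φ c) D.n T := by
    by_contra hcon
    have hm := hG.mac T
    apply hm
    right; right
    refine ⟨c, ?_⟩
    right; right; right; right; right; right; left
    unfold Ctx.mac4X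
    rw [Finset.sum_congr rfl (fun x _ => by rw [hcard x])]
    exact not_le.1 hcon
  have h3 : ((symmDiff A B).card : ℝ) ≤ ((symmDiff A (cX (D.FS φ c) D.n T)).card : ℝ) := by
    exact_mod_cast Finset.card_le_card hsd
  have h4 : (D.t : ℝ) ^ 12 * ((symmDiff A B).card : ℝ)
      ≤ (D.t : ℝ) ^ 12 * ((symmDiff A (cX (D.FS φ c) D.n T)).card : ℝ) :=
    mul_le_mul_of_nonneg_left h3 (by positivity)
  have h5 : |∑ x ∈ A, ((dgX (D.Pc φ c) x : ℝ) - D.theta * (eB D.Hb {x} (D.Sc φ c) : ℝ))|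
      ≤ lam D.n * szT (D.FS φ c) D.n T
        + (D.t : ℝ) ^ 12 * ((symmDiff A (cX (D.FS φ c) D.n T)).card : ℝ) := by
    linarith
  have h6 := mul_le_mul_of_nonneg_left h5 hη0.le
  rw [mul_add] at h6
  linarith

theorem E4Y (hD : CtxOK D) (φ : D.Lbl) (hG : D.Good φ) (c : Fin D.B) (A : Finset X) (N : Finset Y) (hA : 2 * A.card ≤ Fintype.card X)
    (hN : N ⊆ D.Sc φ c)
    (hAO : ∀ x ∈ A, x ∉ D.O.OX c) (hNA : N.card ≤ 4 * A.card) :
    eta D.t * |∑ y ∈ N, ((dgY (D.Pc φ c) y : ℝ) - D.theta * (eB D.Hb (D.O.OX c)ᶜ {y} : ℝ))|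
      ≤ D.theta * (bd (D.FS φ c) A N : ℝ) / (D.t : ℝ) ^ 6 := by
  obtain ⟨T, -, hT2, hT3⟩ := d7_core D hD φ hG c A N hA hN hNA
  obtain ⟨hFX, hFY, hηκ, hη0, hη1⟩ := ctx_F D hD
  have hslot : ∀ y ∈ D.Sc φ c, D.slot φ c y < D.s + 1 := fun y hy =>
    slot_lt D hD φ hG c y (Or.inl (mem_Sc D φ c y hy).2.1)
  have hdg : ∀ y (hy : y ∈ D.Sc φ c), dgY (D.Pc φ c) y
      = (univ.filter (fun x => (x, y) ∈ D.Hb ∧ x ∉ D.O.OX c ∧
        D.own φ (x, y) = (⟨D.slot φ c y, hslot y hy⟩ : Fin (D.s + 1)))).card := by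
    intro y hy
    unfold dgY eB Ctx.Pc Ctx.Pv
    symm
    apply Finset.card_bij (fun x _ => (x, y))
    · intro x hx
      simp only [Finset.mem_filter, Finset.mem_univ, true_and] at hx
      simp only [Finset.mem_filter, Finset.mem_univ, Finset.mem_singleton, true_and]
      exact ⟨⟨hx.1, hx.2.1, hy, hx.2.2⟩, trivial⟩
    · intro a _ b _ hab
      exact (Prod.mk.inj hab).1
    · intro e he
      simp only [Finset.mem_filter, Finset.mem_univ, Finset.mem_singleton, true_and] at he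
      obtain ⟨⟨he1, he2, he3, he4⟩, he5⟩ := he
      refine ⟨e.1, ?_, ?_⟩
      · simp only [Finset.mem_filter, Finset.mem_univ, true_and]
        rw [← he5]
        exact ⟨he1, he2, he4⟩
      · rw [← he5]
  set B : Finset Y := cY (D.FS φ c) D.n T ∩ D.Sc φ c with hB
  have hBS : ∀ y ∈ symmDiff N B, y ∈ D.Sc φ c := by
    intro y hy
    rw [Finset.mem_symmDiff] at hy
    rcases hy with ⟨h1, h2⟩ | ⟨h1, h2⟩
    · exact hN h1
    · rw [hB, Finset.mem_inter] at h1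
      exact h1.2
  have hsd : symmDiff N B ⊆ symmDiff N (cY (D.FS φ c) D.n T) := by
    intro y hy
    rw [Finset.mem_symmDiff] at hy ⊢
    rw [hB, Finset.mem_inter] at hy
    rcases hy with ⟨h1, h2⟩ | ⟨h1, h2⟩
    · left
      exact ⟨h1, fun h => h2 ⟨h, hN h1⟩⟩
    · right
      exact ⟨h1.1, h2⟩
  have hf : ∀ y ∈ symmDiff N B, |(dgY (D.Pc φ c) y : ℝ) - D.theta * (eB D.Hb (D.O.OX c)ᶜ {y} : ℝ)|
      ≤ (D.t : ℝ) ^ 12 := by
    intro y hy
    have hyS := hBS y hy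
    have h1 := hG.loc (Sum.inr y)
    by_contra hcon
    apply h1
    refine Or.inr (Or.inr (Or.inr ⟨c, Or.inl ⟨⟨D.slot φ c y, hslot y hyS⟩, ?_⟩⟩))
    rw [← hdg y hyS]
    exact not_le.1 hcon
  have h1 := d7_abs (fun y => (dgY (D.Pc φ c) y : ℝ) - D.theta * (eB D.Hb (D.O.OX c)ᶜ {y} : ℝ)) N B
    ((D.t : ℝ) ^ 12) hf
  have h2 : |∑ y ∈ B, ((dgY (D.Pc φ c) y : ℝ) - D.theta * (eB D.Hb (D.O.OX c)ᶜ {y} : ℝ))|
      ≤ lam D.n * szT (D.FS φ c) D.n T := by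
    by_contra hcon
    have hm := hG.mac T
    apply hm
    right; right
    refine ⟨c, ?_⟩
    right; right; right; right; right; right; right; left
    unfold Ctx.mac4Y
    rw [Finset.sum_congr rfl (fun y hy => by
      rw [if_pos (hslot y (Finset.mem_inter.1 hy).2)])]
    exact not_le.1 hcon
  have h3 : ((symmDiff N B).card : ℝ) ≤ ((symmDiff N (cY (D.FS φ c) D.n T)).card : ℝ) := by
    exact_mod_cast Finset.card_le_card hsd
  have h4 : (D.t : ℝ) ^ 12 * ((symmDiff N B).card : ℝ)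
      ≤ (D.t : ℝ) ^ 12 * ((symmDiff N (cY (D.FS φ c) D.n T)).card : ℝ) :=
    mul_le_mul_of_nonneg_left h3 (by positivity)
  have h5 : |∑ y ∈ N, ((dgY (D.Pc φ c) y : ℝ) - D.theta * (eB D.Hb (D.O.OX c)ᶜ {y} : ℝ))|
      ≤ lam D.n * szT (D.FS φ c) D.n T
        + (D.t : ℝ) ^ 12 * ((symmDiff N (cY (D.FS φ c) D.n T)).card : ℝ) := by
    linarith
  have h6 := mul_le_mul_of_nonneg_left h5 hη0.le
  rw [mul_add] at h6
  linarith

end Pool.SCDH
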