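import Pool.Agent.Lib.SCDH.MDefs
import Pool.Agent.Lib.SCDH.G01
import Pool.Agent.Lib.SCDH.G02
import Pool.Agent.Lib.SCDH.G03
import Pool.Agent.Lib.SCDH.G04
import Pool.Agent.Lib.SCDH.N01
import Pool.Agent.Lib.SCDH.K01
import Pool.Agent.Lib.SCDH.K02
import Pool.Agent.Lib.SCDH.D02
import Pool.Agent.Lib.SCDH.D04
import Pool.Agent.Lib.SCDH.D06
import Pool.Agent.Lib.SCDH.D07

/-!
# Row D09 (paper scd_h36.md)
Degree sums of the private graph over A (K1X).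
Recipe: dgX Pc x - q = [dgX Pc x - θ e_H(x,Sc)] + θ[e_H(x,Sc) - ρ₁ e_H(x,OYᶜ)] + θρ₁[(D_x - avX) - e_H(x,OY)], D_x = dgX Hb x = e_H(x,OY) + e_H(x,OYᶜ), q = θρ₁ avX. Sum over A: E4X, eS_H, bulk.smX (≤ t^-5 mX G A) with mXG_le and ρ₁ ≤ κ/d, E3x (Hb ⊆ G). Total η|..| ≤ θβ(t^-6 + t^-5 + 10^14 t^-5 + 10^16 t^-5) ≤ θβ/t^4.
-/

set_option linter.unusedSectionVars false
set_option linter.unusedVariables false

namespace Pool.SCDH

open Finset Pool.MP_0ccee8_co.Lib2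

variable {X Y : Type} [Fintype X] [DecidableEq X] [Fintype Y] [DecidableEq Y]
variable (D : Ctx X Y)

private lemma d09_arith {T b th : ℝ} (hT : (10 : ℝ) ^ 100 ≤ T) (hb : 0 ≤ b) (hth : 0 ≤ th) :
    th * b / T ^ 6 + th * (b / T ^ 5) + th * (10 ^ 14 * b / T ^ 5) + th * (10 ^ 16 * b / T ^ 5)
      ≤ th * b / T ^ 4 := by
  have T0 : 0 < T := lt_of_lt_of_le (by positivity) hT
  have hc : 0 ≤ th * b := mul_nonneg hth hb
  have e1 : th * b / T ^ 6 + th * (b / T ^ 5) + th * (10 ^ 14 * b / T ^ 5) + th * (10 ^ 16 * b / T ^ 5)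
      = (th * b) * ((1 + (1 + 10 ^ 14 + 10 ^ 16) * T) / T ^ 6) := by
    field_simp
    ring
  have e2 : th * b / T ^ 4 = (th * b) * (T ^ 2 / T ^ 6) := by
    field_simp
  rw [e1, e2]
  refine mul_le_mul_of_nonneg_left ?_ hc
  refine div_le_div_of_nonneg_right ?_ (by positivity)
  have hT1 : (1 : ℝ) ≤ T := le_trans (by norm_num) hT
  have h2 : (2 + 10 ^ 14 + 10 ^ 16 : ℝ) ≤ T := le_trans (by norm_num) hT
  nlinarith

theorem K1X (hD : CtxOK D) (φ : D.Lbl) (hG : D.Good φ) (c : Fin D.B) (A : Finset X) (N : Finset Y) (hA : 2 * A.card ≤ Fintype.card X)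
    (hN : N ⊆ D.Sc φ c)
    (hAO : ∀ x ∈ A, x ∉ D.O.OX c) (hNA : N.card ≤ 4 * A.card) :
    eta D.t * |∑ x ∈ A, ((dgX (D.Pc φ c) x : ℝ) - D.q)| ≤ D.theta * (bd (D.FS φ c) A N : ℝ) / (D.t : ℝ) ^ 4 := by
  obtain ⟨-, -, -, eta0, eta1⟩ := ctx_F D hD
  obtain ⟨-, r2, r3, -, r5, -⟩ := ctx_rho D hD
  obtain ⟨-, -, th0, -, -, -, -⟩ := ctx_theta D hD
  obtain ⟨k1, kd, -, -⟩ := ctx_deg D hD
  have ht := (ctx_t D hD).1
  have t0 : (0 : ℝ) < D.t := lt_of_lt_of_le (by positivity) ht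
  have k0 : (0 : ℝ) < D.κ := lt_of_lt_of_le (by positivity) k1
  have d0 : (0 : ℝ) < D.d := lt_of_lt_of_le k0 kd
  have hr : D.rho1 ≤ (D.κ : ℝ) / D.d := r2.trans r3
  have E1 := E4X D hD φ hG c A N hA hN hAO hNA
  have E2 := eS_H D hD φ hG c A N hA hN
  have E3 := hD.bulk.smX A
  have E3b := mXG_le D hD φ hG c A N
  have E4 := E3x D hD φ hG c A N hA
  have E4b : (eB D.Hb A (D.O.OY c) : ℝ) ≤ (eB D.H.G A (D.O.OY c) : ℝ) := by
    exact_mod_cast eB_mono _ _ hD.bulk.sub _ _ (subset_refl _) _ _ (subset_refl _)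
  set S1 : ℝ := ∑ x ∈ A, ((dgX (D.Pc φ c) x : ℝ) - D.theta * (eB D.Hb {x} (D.Sc φ c) : ℝ)) with hS1
  set S2 : ℝ := ∑ x ∈ A, ((eB D.Hb {x} (D.Sc φ c) : ℝ) - D.rho1 * (eB D.Hb {x} (D.O.OY c)ᶜ : ℝ)) with hS2
  set S3 : ℝ := ∑ x ∈ A, ((dgX D.Hb x : ℝ) - avX (fun x => (dgX D.Hb x : ℝ))) with hS3
  set S4 : ℝ := (eB D.Hb A (D.O.OY c) : ℝ) with hS4
  set b : ℝ := (bd (D.FS φ c) A N : ℝ) with hb
  have b0 : 0 ≤ b := by rw [hb]; positivity
  have hS4' : S4 = ∑ x ∈ A, (eB D.Hb {x} (D.O.OY c) : ℝ) := by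
    rw [hS4, eB_sumX]
    push_cast
    rfl
  have S40 : 0 ≤ S4 := by rw [hS4]; positivity
  have key : ∑ x ∈ A, ((dgX (D.Pc φ c) x : ℝ) - D.q)
      = S1 + D.theta * S2 + D.theta * D.rho1 * (S3 - S4) := by
    rw [hS4', hS1, hS2, hS3, ← Finset.sum_sub_distrib, Finset.mul_sum, Finset.mul_sum,
      ← Finset.sum_add_distrib, ← Finset.sum_add_distrib]
    refine Finset.sum_congr rfl (fun x _ => ?_)
    have h1 : (dgX D.Hb x : ℝ) = (eB D.Hb {x} (D.O.OY c) : ℝ) + (eB D.Hb {x} (D.O.OY c)ᶜ : ℝ) := by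
      unfold dgX
      exact_mod_cast (eB_complY D.Hb {x} (D.O.OY c)).symm
    unfold Ctx.q
    rw [h1]
    ring
  have trip : |∑ x ∈ A, ((dgX (D.Pc φ c) x : ℝ) - D.q)|
      ≤ |S1| + D.theta * |S2| + D.theta * D.rho1 * |S3| + D.theta * D.rho1 * S4 := by
    rw [key]
    have hp : 0 ≤ D.theta * D.rho1 := mul_nonneg th0.le r5.le
    have a1 : |S1 + D.theta * S2 + D.theta * D.rho1 * (S3 - S4)|
        ≤ |S1| + |D.theta * S2| + |D.theta * D.rho1 * (S3 - S4)| := abs_add_three _ _ _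
    have a2 : |D.theta * S2| = D.theta * |S2| := by rw [abs_mul, abs_of_pos th0]
    have a3 : |D.theta * D.rho1 * (S3 - S4)| = D.theta * D.rho1 * |S3 - S4| := by
      rw [abs_mul, abs_of_nonneg hp]
    have a4 : |S3 - S4| ≤ |S3| + S4 := by
      calc |S3 - S4| ≤ |S3| + |S4| := abs_sub _ _
        _ = |S3| + S4 := by rw [abs_of_nonneg S40]
    have a5 : D.theta * D.rho1 * |S3 - S4| ≤ D.theta * D.rho1 * (|S3| + S4) :=
      mul_le_mul_of_nonneg_left a4 hp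
    rw [a2, a3] at a1
    linarith
  -- the four parts
  have P2 : D.theta * (eta D.t * |S2|) ≤ D.theta * (b / (D.t : ℝ) ^ 5) :=
    mul_le_mul_of_nonneg_left E2 th0.le
  have P3 : D.theta * (D.rho1 * (eta D.t * |S3|)) ≤ D.theta * (10 ^ 14 * b / (D.t : ℝ) ^ 5) := by
    refine mul_le_mul_of_nonneg_left ?_ th0.le
    have h0 : 0 ≤ eta D.t * |S3| := mul_nonneg eta0.le (abs_nonneg _)
    calc D.rho1 * (eta D.t * |S3|) ≤ (D.κ : ℝ) / D.d * (eta D.t * |S3|) :=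
          mul_le_mul_of_nonneg_right hr h0
      _ ≤ (D.κ : ℝ) / D.d * (eta D.t * (1 / (D.t : ℝ) ^ 5 * (mX D.H.G A : ℝ))) :=
          mul_le_mul_of_nonneg_left (mul_le_mul_of_nonneg_left E3 eta0.le) (by positivity)
      _ = (eta D.t * D.κ * mX D.H.G A) * (1 / (D.d * (D.t : ℝ) ^ 5)) := by
          field_simp
      _ ≤ (10 ^ 14 * (D.d * b)) * (1 / (D.d * (D.t : ℝ) ^ 5)) :=
          mul_le_mul_of_nonneg_right E3b (by positivity)
      _ = 10 ^ 14 * b / (D.t : ℝ) ^ 5 := by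
          field_simp
  have P4 : D.theta * (D.rho1 * (eta D.t * S4)) ≤ D.theta * (10 ^ 16 * b / (D.t : ℝ) ^ 5) := by
    refine mul_le_mul_of_nonneg_left ?_ th0.le
    have h0 : 0 ≤ eta D.t * S4 := mul_nonneg eta0.le S40
    calc D.rho1 * (eta D.t * S4) ≤ (D.κ : ℝ) / D.d * (eta D.t * S4) :=
          mul_le_mul_of_nonneg_right hr h0
      _ ≤ (D.κ : ℝ) / D.d * (1 * (eB D.H.G A (D.O.OY c) : ℝ)) := by
          refine mul_le_mul_of_nonneg_left ?_ (by positivity)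
          exact mul_le_mul eta1 E4b S40 zero_le_one
      _ = (D.κ * (eB D.H.G A (D.O.OY c) : ℝ)) * (1 / D.d) := by
          field_simp
      _ ≤ (10 ^ 16 / (D.t : ℝ) ^ 5 * (D.d * b)) * (1 / D.d) :=
          mul_le_mul_of_nonneg_right E4 (by positivity)
      _ = 10 ^ 16 * b / (D.t : ℝ) ^ 5 := by
          field_simp
  have fin := d09_arith (T := (D.t : ℝ)) (b := b) (th := D.theta) ht b0 th0.le
  calc eta D.t * |∑ x ∈ A, ((dgX (D.Pc φ c) x : ℝ) - D.q)|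
      ≤ eta D.t * (|S1| + D.theta * |S2| + D.theta * D.rho1 * |S3| + D.theta * D.rho1 * S4) :=
        mul_le_mul_of_nonneg_left trip eta0.le
    _ = eta D.t * |S1| + D.theta * (eta D.t * |S2|) + D.theta * (D.rho1 * (eta D.t * |S3|))
        + D.theta * (D.rho1 * (eta D.t * S4)) := by ring
    _ ≤ D.theta * b / (D.t : ℝ) ^ 6 + D.theta * (b / (D.t : ℝ) ^ 5)
        + D.theta * (10 ^ 14 * b / (D.t : ℝ) ^ 5) + D.theta * (10 ^ 16 * b / (D.t : ℝ) ^ 5) := by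
        linarith
    _ ≤ D.theta * b / (D.t : ℝ) ^ 4 := fin

end Pool.SCDH
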