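import Pool.Agent.Lib.SCDH.MDefs
import Pool.Agent.Lib.SCDH.G01
import Pool.Agent.Lib.SCDH.G02
import Pool.Agent.Lib.SCDH.G03
import Pool.Agent.Lib.SCDH.G04
import Pool.Agent.Lib.SCDH.N01
import Pool.Agent.Lib.SCDH.K01
import Pool.Agent.Lib.SCDH.K02
import Pool.Agent.Lib.SCDH.D02
import Pool.Agent.Lib.SCDH.D03

/-!
# Row D05 (paper scd_h36.md)
Old smooth arrays g (paper Q3).
Recipe: certF. |∑_N g| ≤ |∑_{N*∩Sc} g| + Φ |N Δ (N*∩Sc)|; ¬ mac3: |∑_{N*∩Sc} g| ≤ ρ₁ |∑_{N*∖OY} g| + lam szT; |∑_{N*∖OY} g| ≤ |∑_{N*} g| + Φ |N*∩OY|; |∑_{N*} g| ≤ M mY G N* ≤ M bd G A_T N* (mY_le_bd) ≤ M 10^21 d β/(ηκ). |N*∩OY|: ηκ ≤ 3 e_F(A_T,y) for y ∈ N*, so ηκ|N*∩OY| ≤ 3 e_G(A_T, OY) and by o5X κ e_G(A_T,OY) ≤ t^-26 (κ mX G A_T + n|A_T|), mX G A_T ≤ bd G A_T N*. Then with ρ₁ ≤ κ/d, n ≤ 2d: η Φ ρ₁ |N*∩OY| ≤ (Φ/κ) 10^22 t^-5 β ≤ (Φ/κ) β.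
-/

set_option linter.unusedSectionVars false
set_option linter.unusedVariables false

namespace Pool.SCDH

open Finset Pool.MP_0ccee8_co.Lib2

variable {X Y : Type} [Fintype X] [DecidableEq X] [Fintype Y] [DecidableEq Y]
variable (D : Ctx X Y)

theorem D05_symm (g : Y → ℝ) (Φ : ℝ) (hΦ : ∀ y, |g y| ≤ Φ) (P Q : Finset Y) :
    |∑ y ∈ P, g y| ≤ |∑ y ∈ Q, g y| + Φ * ((symmDiff P Q).card : ℝ) := by
  have h := Finset.sum_sdiff_sub_sum_sdiff (s₁ := P) (s₂ := Q) (f := g)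
  have hab : ∀ R : Finset Y, |∑ y ∈ R, g y| ≤ Φ * (R.card : ℝ) := by
    intro R
    refine (Finset.abs_sum_le_sum_abs _ _).trans ?_
    refine (Finset.sum_le_sum (fun i _ => hΦ i)).trans ?_
    simp [mul_comm]
  have h1 := hab (P \ Q)
  have h2 := hab (Q \ P)
  have hc : ((symmDiff P Q).card : ℝ) = ((P \ Q).card : ℝ) + ((Q \ P).card : ℝ) := by
    rw [symmDiff_def, Finset.sup_eq_union, Finset.card_union_of_disjoint disjoint_sdiff_sdiff]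
    push_cast; ring
  have e : ∑ y ∈ P, g y = ∑ y ∈ Q, g y + (∑ y ∈ P \ Q, g y - ∑ y ∈ Q \ P, g y) := by
    linarith
  rw [e, hc]
  have h3 := abs_add_le (∑ y ∈ Q, g y) (∑ y ∈ P \ Q, g y - ∑ y ∈ Q \ P, g y)
  have h4 := abs_sub (∑ y ∈ P \ Q, g y) (∑ y ∈ Q \ P, g y)
  nlinarith

theorem E3 (hD : CtxOK D) (φ : D.Lbl) (hG : D.Good φ) (c : Fin D.B) (A : Finset X) (N : Finset Y) (hA : 2 * A.card ≤ Fintype.card X)
    (hN : N ⊆ D.Sc φ c)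
    (g : Y → ℝ) (M Φ : ℝ) (hM0 : 0 ≤ M) (hM : SmY D.H.G M g) (hΦ : ∀ y, |g y| ≤ Φ) (hΦκ : Φ ≤ D.κ)
    (hmac : ∀ T, ¬ D.mac3 φ T g c) :
    eta D.t * |∑ y ∈ N, g y| ≤ (10 ^ 22 * M + 10 ^ 16 * Φ / D.κ + 1 / D.n) * (bd (D.FS φ c) A N : ℝ) := by
  obtain ⟨T, h1, h2, h3, h4, h5, h6, h7⟩ := certF D hD φ hG c A N hA hN
  have hb := betaLow D hD φ hG c A N hA
  obtain ⟨ht1, ht2, ht3, ht4⟩ := ctx_t D hD
  obtain ⟨hn1, hn2⟩ := ctx_n D hD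
  obtain ⟨hk1, hk2, hk3, hk4⟩ := ctx_deg D hD
  obtain ⟨hr1, hr2, hr3, hr4, hr5, hr6⟩ := ctx_rho D hD
  obtain ⟨hc1, hc2, hc3, -⟩ := ctx_cards D hD
  obtain ⟨_, _, hF3, hF4, hF5⟩ := ctx_F D hD
  have hm := hmac T
  unfold Ctx.mac3 at hm
  rw [not_lt] at hm
  have hmYb : mY D.H.G (maj D.F (cX D.F D.n T)) ≤ bd D.H.G (cX D.F D.n T) (maj D.F (cX D.F D.n T)) := mY_le_bd _ _ _
  have hmXb : mX D.H.G (cX D.F D.n T) ≤ bd D.H.G (cX D.F D.n T) (maj D.F (cX D.F D.n T)) := mX_le_bd _ _ _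
  have ho5 := hD.out.o5X c (cX D.F D.n T)
  have hsm := hM (maj D.F (cX D.F D.n T))
  generalize hAT : cX D.F D.n T = AT at *
  generalize hNS : maj D.F AT = NS at *
  have hβ0 : (0 : ℝ) ≤ (bd (D.FS φ c) A N : ℝ) := Nat.cast_nonneg _
  generalize hβ : (bd (D.FS φ c) A N : ℝ) = β at *
  have ht0 : (0 : ℝ) < D.t := by linarith [show (0:ℝ) < 10 ^ 100 by positivity]
  have hκ0 : (0 : ℝ) < D.κ := lt_of_lt_of_le (by positivity) hk1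
  have hd0 : (0 : ℝ) < D.d := lt_of_lt_of_le hκ0 hk2
  have hn0 : (0 : ℝ) < D.n := lt_of_lt_of_le hd0 hk3
  have ht1' : (1 : ℝ) ≤ D.t := le_trans (by norm_num) ht1
  have hn15 : (10 : ℝ) ^ 15 ≤ D.n := by
    refine le_trans ?_ hn1
    calc (10 : ℝ) ^ 15 ≤ 10 ^ 100 := by norm_num
      _ ≤ (D.t : ℝ) := ht1
      _ ≤ (D.t : ℝ) ^ 200 := le_self_pow₀ ht1' (by norm_num)
  have hΦ0 : 0 ≤ Φ := by
    have : 0 < Fintype.card Y := by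
      have : (0 : ℝ) < Fintype.card Y := lt_of_lt_of_le (lt_of_lt_of_le (by positivity) hc3) hc2
      exact_mod_cast this
    obtain ⟨y⟩ := Fintype.card_pos_iff.1 this
    exact (abs_nonneg _).trans (hΦ y)
  -- step 1
  have s1 := D05_symm g Φ hΦ N (NS ∩ D.Sc φ c)
  -- step 2
  have s2 : |∑ y ∈ NS ∩ D.Sc φ c, g y| ≤ D.rho1 * |∑ y ∈ NS \ D.O.OY c, g y| + lam D.n * szT D.F D.n T := by
    have := abs_add_le (∑ y ∈ NS ∩ D.Sc φ c, g y - D.rho1 * ∑ y ∈ NS \ D.O.OY c, g y)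
      (D.rho1 * ∑ y ∈ NS \ D.O.OY c, g y)
    rw [sub_add_cancel, abs_mul, abs_of_pos hr5] at this
    linarith
  -- step 3
  have s3 := D05_symm g Φ hΦ (NS \ D.O.OY c) NS
  have hsd : symmDiff (NS \ D.O.OY c) NS = NS ∩ D.O.OY c := by
    ext y; simp only [Finset.mem_symmDiff, Finset.mem_sdiff, Finset.mem_inter]; tauto
  rw [hsd] at s3
  -- the size term
  have s4 : eta D.t * (lam D.n * szT D.F D.n T) ≤ 1 / D.n * β := by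
    have hl0 : 0 ≤ lam D.n := by unfold lam; positivity
    calc eta D.t * (lam D.n * szT D.F D.n T) ≤ eta D.t * (lam D.n * ((D.n : ℝ) ^ 4 * A.card)) := by gcongr
      _ = (eta D.t * A.card) * (1 / (D.n : ℝ) ^ 2) := by
        unfold lam; field_simp
      _ ≤ (10 ^ 15 * β) * (1 / (D.n : ℝ) ^ 2) := by gcongr
      _ ≤ 1 / D.n * β := by
        rw [mul_one_div, div_le_iff₀ (by positivity)]
        have : 1 / (D.n : ℝ) * β * (D.n : ℝ) ^ 2 = D.n * β := by field_simp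
        rw [this]; gcongr
  -- the smooth term
  have s5 : eta D.t * (D.rho1 * |∑ y ∈ NS, g y|) ≤ 10 ^ 21 * M * β := by
    have hb' : (mY D.H.G NS : ℝ) ≤ (bd D.H.G AT NS : ℝ) := by exact_mod_cast hmYb
    have hrk : D.rho1 ≤ (D.κ : ℝ) / D.d := hr2.trans hr3
    calc eta D.t * (D.rho1 * |∑ y ∈ NS, g y|) ≤ eta D.t * ((D.κ : ℝ) / D.d * (M * (bd D.H.G AT NS : ℝ))) := by
          gcongr
          exact hsm.trans (by gcongr)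
      _ = (eta D.t * D.κ * (bd D.H.G AT NS : ℝ)) * (M / D.d) := by ring
      _ ≤ (10 ^ 21 * (D.d * β)) * (M / D.d) := by gcongr
      _ = 10 ^ 21 * M * β := by field_simp
  -- outer term
  have hcnt : eta D.t * D.κ * ((NS ∩ D.O.OY c).card : ℝ) ≤ 3 * (eB D.H.G AT (D.O.OY c) : ℝ) := by
    have e1 : eta D.t * D.κ * ((NS ∩ D.O.OY c).card : ℝ) ≤ ∑ y ∈ NS ∩ D.O.OY c, 3 * (eB D.F AT {y} : ℝ) := by
      calc eta D.t * D.κ * ((NS ∩ D.O.OY c).card : ℝ) = ∑ y ∈ NS ∩ D.O.OY c, eta D.t * D.κ := by simp [mul_comm]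
        _ ≤ _ := Finset.sum_le_sum (fun y hy => h7 y (Finset.mem_inter.1 hy).1)
    have e2 : (∑ y ∈ NS ∩ D.O.OY c, eB D.F AT {y}) ≤ eB D.H.G AT (D.O.OY c) := by
      rw [← eB_sumY]
      exact eB_mono _ _ hD.res.sub _ _ (Finset.Subset.refl _) _ _ Finset.inter_subset_right
    have e3 : (∑ y ∈ NS ∩ D.O.OY c, 3 * (eB D.F AT {y} : ℝ)) ≤ 3 * (eB D.H.G AT (D.O.OY c) : ℝ) := by
      rw [← Finset.mul_sum]
      have : (∑ y ∈ NS ∩ D.O.OY c, (eB D.F AT {y} : ℝ)) ≤ (eB D.H.G AT (D.O.OY c) : ℝ) := by exact_mod_cast e2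
      linarith
    exact e1.trans e3
  have ho5' : (D.t : ℝ) ^ 26 * (D.κ * (eB D.H.G AT (D.O.OY c) : ℝ)) ≤ D.κ * (bd D.H.G AT NS : ℝ) + D.n * (AT.card : ℝ) := by
    have e1 : (D.t : ℝ) ^ 26 * (D.κ * (eB D.H.G AT (D.O.OY c) : ℝ)) ≤ D.κ * (mX D.H.G AT : ℝ) + D.n * (AT.card : ℝ) := by
      exact_mod_cast ho5
    have e2 : (mX D.H.G AT : ℝ) ≤ (bd D.H.G AT NS : ℝ) := by exact_mod_cast hmXb
    have := mul_le_mul_of_nonneg_left e2 hκ0.le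
    linarith
  have s6 : eta D.t * (D.rho1 * (Φ * ((NS ∩ D.O.OY c).card : ℝ))) ≤ Φ / D.κ * β := by
    have hrk : D.rho1 ≤ (D.κ : ℝ) / D.d := hr2.trans hr3
    have f1 : eta D.t * ((D.t : ℝ) ^ 26 * (D.κ * (eB D.H.G AT (D.O.OY c) : ℝ))) ≤ 2 * 10 ^ 21 * (D.d * β) := by
      have g1 : eta D.t * ((D.t : ℝ) ^ 26 * (D.κ * (eB D.H.G AT (D.O.OY c) : ℝ)))
          ≤ eta D.t * (D.κ * (bd D.H.G AT NS : ℝ) + D.n * (AT.card : ℝ)) := by gcongr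
      have g2 : D.n * (eta D.t * (AT.card : ℝ)) ≤ (2 * D.d) * (10 ^ 16 * β) := by gcongr
      have g3 : 0 ≤ D.d * β := by positivity
      linarith
    have f2 : (D.t : ℝ) ^ 26 * D.κ * (eta D.t * (eta D.t * D.κ * ((NS ∩ D.O.OY c).card : ℝ))) ≤ 6 * 10 ^ 21 * (D.d * β) := by
      calc (D.t : ℝ) ^ 26 * D.κ * (eta D.t * (eta D.t * D.κ * ((NS ∩ D.O.OY c).card : ℝ)))
          ≤ (D.t : ℝ) ^ 26 * D.κ * (eta D.t * (3 * (eB D.H.G AT (D.O.OY c) : ℝ))) := by gcongr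
        _ = 3 * (eta D.t * ((D.t : ℝ) ^ 26 * (D.κ * (eB D.H.G AT (D.O.OY c) : ℝ)))) := by ring
        _ ≤ 3 * (2 * 10 ^ 21 * (D.d * β)) := by gcongr
        _ = _ := by ring
    have f3 : (D.t : ℝ) ^ 26 * eta D.t = (D.t : ℝ) ^ 5 := by
      unfold eta; field_simp
    have f4 : (D.t : ℝ) ^ 5 * D.κ ^ 2 * (eta D.t * ((NS ∩ D.O.OY c).card : ℝ)) ≤ 6 * 10 ^ 21 * (D.d * β) := by
      calc (D.t : ℝ) ^ 5 * D.κ ^ 2 * (eta D.t * ((NS ∩ D.O.OY c).card : ℝ))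
          = (D.t : ℝ) ^ 26 * D.κ * (eta D.t * (eta D.t * D.κ * ((NS ∩ D.O.OY c).card : ℝ))) := by
            rw [← f3]; ring
        _ ≤ _ := f2
    have f5 : (6 : ℝ) * 10 ^ 21 ≤ (D.t : ℝ) ^ 5 := by
      calc (6 : ℝ) * 10 ^ 21 ≤ 10 ^ 100 := by norm_num
        _ ≤ (D.t : ℝ) := ht1
        _ ≤ (D.t : ℝ) ^ 5 := le_self_pow₀ ht1' (by norm_num)
    have f6 : D.κ ^ 2 * (eta D.t * ((NS ∩ D.O.OY c).card : ℝ)) ≤ D.d * β := by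
      have g0 : 0 ≤ D.d * β := by positivity
      have g1 : 0 ≤ D.κ ^ 2 * (eta D.t * ((NS ∩ D.O.OY c).card : ℝ)) := by positivity
      by_contra hcon
      push Not at hcon
      have g2 : (D.t : ℝ) ^ 5 * (D.d * β) < (D.t : ℝ) ^ 5 * (D.κ ^ 2 * (eta D.t * ((NS ∩ D.O.OY c).card : ℝ))) := by
        gcongr
      have g3 : 6 * 10 ^ 21 * (D.d * β) ≤ (D.t : ℝ) ^ 5 * (D.d * β) := by gcongr
      linarith
    calc eta D.t * (D.rho1 * (Φ * ((NS ∩ D.O.OY c).card : ℝ)))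
        ≤ eta D.t * ((D.κ : ℝ) / D.d * (Φ * ((NS ∩ D.O.OY c).card : ℝ))) := by gcongr
      _ = (D.κ ^ 2 * (eta D.t * ((NS ∩ D.O.OY c).card : ℝ))) * (Φ / (D.κ * D.d)) := by field_simp
      _ ≤ (D.d * β) * (Φ / (D.κ * D.d)) := by gcongr
      _ = Φ / D.κ * β := by field_simp
  have s7 : eta D.t * (Φ * ((symmDiff N (NS ∩ D.Sc φ c)).card : ℝ)) ≤ 10 ^ 15 * (Φ / D.κ * β) := by
    calc eta D.t * (Φ * ((symmDiff N (NS ∩ D.Sc φ c)).card : ℝ))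
        = (eta D.t * D.κ * ((symmDiff N (NS ∩ D.Sc φ c)).card : ℝ)) * (Φ / D.κ) := by field_simp
      _ ≤ (10 ^ 15 * β) * (Φ / D.κ) := by gcongr
      _ = _ := by ring
  have s8 : eta D.t * |∑ y ∈ N, g y| ≤ eta D.t * (D.rho1 * |∑ y ∈ NS, g y|) + eta D.t * (D.rho1 * (Φ * ((NS ∩ D.O.OY c).card : ℝ)))
      + eta D.t * (lam D.n * szT D.F D.n T) + eta D.t * (Φ * ((symmDiff N (NS ∩ D.Sc φ c)).card : ℝ)) := by
    have g1 := mul_le_mul_of_nonneg_left s3 hr5.le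
    have g2 : |∑ y ∈ N, g y| ≤ D.rho1 * |∑ y ∈ NS, g y| + D.rho1 * (Φ * ((NS ∩ D.O.OY c).card : ℝ))
      + lam D.n * szT D.F D.n T + Φ * ((symmDiff N (NS ∩ D.Sc φ c)).card : ℝ) := by linarith
    calc eta D.t * |∑ y ∈ N, g y| ≤ _ := mul_le_mul_of_nonneg_left g2 hF4.le
      _ = _ := by ring
  have hP : 0 ≤ Φ / D.κ * β := by positivity
  have hQ : 0 ≤ M * β := by positivity
  have e1 : (10 ^ 22 * M + 10 ^ 16 * Φ / D.κ + 1 / D.n) * β = 10 ^ 22 * (M * β) + 10 ^ 16 * (Φ / D.κ * β) + 1 / D.n * β := by ring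
  rw [e1]
  linarith

end Pool.SCDH
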