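import Pool.Agent.Lib.SCDH.MDefs
import Pool.Agent.Lib.SCDH.G01
import Pool.Agent.Lib.SCDH.G02
import Pool.Agent.Lib.SCDH.G03
import Pool.Agent.Lib.SCDH.G04
import Pool.Agent.Lib.SCDH.N01
import Pool.Agent.Lib.SCDH.K01
import Pool.Agent.Lib.SCDH.K02
import Pool.Agent.Lib.SCDH.D02
import Pool.Agent.Lib.SCDH.D05
import Pool.Agent.Lib.SCDH.D06
import Pool.Agent.Lib.SCDH.D07
import Pool.Agent.Lib.SCDH.D08

/-!
# Row D10 (paper scd_h36.md)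
Degree sums of the private graph over N (K1Y).
Recipe: eB Pc xo {y} = dgY Pc y - eB Pc Rem {y} (Pc has no edge at OX; the part of Rem in OX does not matter), eB Pc Rem {y} ≤ vZ y: E5Y. dgY Pc y - q = [dgY Pc y - θ e_H(OXᶜ,y)] + θ[arH y - e_H(OX,y) + (κ/d - ρ₁) avX] by host_avY. E4Y; E3 for arH (M = 1/t^5 by bulk.smY, Φ = κ/t^5 by bulk.devY, ¬ mac3 arH from Good.mac); E3o; (κ/d - ρ₁) avX ≤ 3/t^26 (avX ≤ d), |N| ≤ 4|A|, η|A| ≤ 10^15 β. Total ≤ θβ (10^23 t^-5 + 10^24 t^-26·... ) ≤ θβ/t^4; the vZ part: 10^16 tβ/κ ≤ θβ 4·10^16 t/t^20.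
-/

set_option linter.unusedSectionVars false
set_option linter.unusedVariables false

namespace Pool.SCDH

open Finset Pool.MP_0ccee8_co.Lib2

variable {X Y : Type} [Fintype X] [DecidableEq X] [Fintype Y] [DecidableEq Y]
variable (D : Ctx X Y)

private lemma eB_single10 (Γ : Finset (X × Y)) (S : Finset X) (y : Y) :
    eB Γ S {y} = (univ.filter (fun x => (x, y) ∈ Γ ∧ x ∈ S)).card := by
  unfold eB
  refine card_bij' (fun e _ => e.1) (fun x _ => (x, y)) ?_ ?_ ?_ ?_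
  · rintro ⟨a, b⟩ h
    simp only [mem_filter, mem_singleton, mem_univ, true_and] at h ⊢
    obtain ⟨h1, h2, h3⟩ := h
    subst h3
    exact ⟨h1, h2⟩
  · intro x h
    simp only [mem_filter, mem_singleton, mem_univ, true_and] at h ⊢
    exact ⟨h.1, h.2, trivial⟩
  · rintro ⟨a, b⟩ h
    simp only [mem_filter, mem_singleton] at h ⊢
    rw [h.2.2]
  · intro y h
    rfl

private lemma eB_xo10 (φ : D.Lbl) (c : Fin D.B) (Rem : Finset X) (y : Y) :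
    eB (D.Pc φ c) (D.xo c Rem) {y} + eB (D.Pc φ c) Rem {y} = dgY (D.Pc φ c) y := by
  unfold dgY
  rw [← eB_complX (D.Pc φ c) Rem {y}, add_comm]
  congr 1
  rw [eB_single10, eB_single10]
  congr 1
  refine filter_congr (fun x _ => ?_)
  simp only [Ctx.xo, mem_filter, mem_univ, true_and, mem_compl]
  constructor
  · rintro ⟨h1, h2, h3⟩
    exact ⟨h1, h3⟩
  · rintro ⟨h1, h2⟩
    refine ⟨h1, ?_, h2⟩
    simp only [Ctx.Pc, Ctx.Pv, mem_filter] at h1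
    exact h1.2.1

theorem K1Y (hD : CtxOK D) (φ : D.Lbl) (hG : D.Good φ) (c : Fin D.B) (A : Finset X) (N : Finset Y) (hA : 2 * A.card ≤ Fintype.card X)
    (hN : N ⊆ D.Sc φ c)
    (hAO : ∀ x ∈ A, x ∉ D.O.OX c) (hNA : N.card ≤ 4 * A.card)
    (Rem : Finset X) (hRem : ∀ y, eB D.H.G Rem {y} ≤ D.vZ φ c y) :
    eta D.t * |∑ y ∈ N, ((eB (D.Pc φ c) (D.xo c Rem) {y} : ℝ) - D.q)| ≤ D.theta * (bd (D.FS φ c) A N : ℝ) / (D.t : ℝ) ^ 4 := by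
  obtain ⟨ht100, -, -, -⟩ := ctx_t D hD
  obtain ⟨hn1, hn2⟩ := ctx_n D hD
  obtain ⟨hκ50, hκd, hdn, hn2d⟩ := ctx_deg D hD
  obtain ⟨hθ1, hθ2, hθ0, hθ3, hθn, -, -⟩ := ctx_theta D hD
  obtain ⟨hρ1, hρ2, hρ3, hρ4, hρ5, hρ6⟩ := ctx_rho D hD
  obtain ⟨-, -, -, hη0, hη1⟩ := ctx_F D hD
  obtain ⟨-, -, hX100, -, -, -, -, -⟩ := ctx_cards D hD
  have e4 := E4Y D hD φ hG c A N hA hN hAO hNA
  have e5 := E5Y D hD φ hG c A N hA hN
  have e3o := E3o D hD φ hG c A N hA hN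
  have bl := betaLow D hD φ hG c A N hA
  have ht1 : (1 : ℝ) ≤ D.t := le_trans (by norm_num) ht100
  have ht0 : (0 : ℝ) < D.t := by linarith
  have hκ0 : (0 : ℝ) < D.κ := lt_of_lt_of_le (by positivity) hκ50
  have hd0 : (0 : ℝ) < D.d := by linarith
  have hn0 : (0 : ℝ) < D.n := by linarith
  have hXpos : (0 : ℝ) < Fintype.card X := lt_of_lt_of_le (by positivity) hX100
  have e3 := E3 D hD φ hG c A N hA hN D.arH (1 / (D.t : ℝ) ^ 5) ((D.κ : ℝ) / (D.t : ℝ) ^ 5)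
    (by positivity) hD.bulk.smY hD.bulk.devY (by
      rw [div_le_iff₀ (by positivity)]
      have : (1 : ℝ) ≤ (D.t : ℝ) ^ 5 := one_le_pow₀ ht1
      nlinarith) (by
      intro T hT
      exact hG.mac T (Or.inr (Or.inr ⟨c, Or.inr (Or.inr (Or.inr (Or.inl hT)))⟩)))
  set β : ℝ := (bd (D.FS φ c) A N : ℝ) with hβ
  have hβ0 : 0 ≤ β := by rw [hβ]; positivity
  set av : ℝ := avX (fun x => (dgX D.Hb x : ℝ)) with hav
  have hav0 : 0 ≤ av := by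
    rw [hav]; unfold avX
    exact div_nonneg (sum_nonneg (fun x _ => Nat.cast_nonneg _)) hXpos.le
  have havd : av ≤ D.d := by
    rw [hav]; unfold avX
    rw [div_le_iff₀ hXpos]
    have h1 : ∑ x : X, (dgX D.Hb x : ℝ) ≤ ∑ _x : X, (D.d : ℝ) := by
      refine sum_le_sum (fun x _ => ?_)
      exact_mod_cast dgX_le D.H D.Hb hD.bulk.sub x
    refine h1.trans (le_of_eq ?_)
    rw [sum_const, card_univ, nsmul_eq_mul, mul_comm]
  have havY : avY (fun y => (dgY D.Hb y : ℝ)) = (D.κ : ℝ) / D.d * av := by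
    have h1 := host_avY D.H D.Hb
    rw [← hav] at h1
    field_simp
    linarith
  -- the outer edges
  have hout : ∑ y ∈ N, (eB D.Hb (D.O.OX c) {y} : ℝ) ≤ (eB D.H.G (D.O.OX c) N : ℝ) := by
    have h1 : (∑ y ∈ N, eB D.Hb (D.O.OX c) {y} : ℕ) ≤ eB D.H.G (D.O.OX c) N := by
      rw [← eB_sumY]
      exact eB_mono _ _ hD.bulk.sub _ _ (Subset.refl _) _ _ (Subset.refl _)
    exact_mod_cast h1
  have hout0 : 0 ≤ ∑ y ∈ N, (eB D.Hb (D.O.OX c) {y} : ℝ) :=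
    sum_nonneg (fun y _ => Nat.cast_nonneg _)
  -- the removed vertices
  have hrem : ∑ y ∈ N, (eB (D.Pc φ c) Rem {y} : ℝ) ≤ ∑ y ∈ N, (D.vZ φ c y : ℝ) := by
    refine sum_le_sum (fun y _ => ?_)
    have h1 : eB (D.Pc φ c) Rem {y} ≤ eB D.H.G Rem {y} := by
      refine eB_mono _ _ ?_ _ _ (Subset.refl _) _ _ (Subset.refl _)
      exact (filter_subset _ _).trans hD.bulk.sub
    exact_mod_cast h1.trans (hRem y)
  have hrem0 : 0 ≤ ∑ y ∈ N, (eB (D.Pc φ c) Rem {y} : ℝ) :=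
    sum_nonneg (fun y _ => Nat.cast_nonneg _)
  -- the decomposition
  have hdec : ∑ y ∈ N, ((eB (D.Pc φ c) (D.xo c Rem) {y} : ℝ) - D.q)
      = ∑ y ∈ N, ((dgY (D.Pc φ c) y : ℝ) - D.theta * (eB D.Hb (D.O.OX c)ᶜ {y} : ℝ))
        + D.theta * (∑ y ∈ N, D.arH y - ∑ y ∈ N, (eB D.Hb (D.O.OX c) {y} : ℝ)
          + N.card * (((D.κ : ℝ) / D.d - D.rho1) * av))
        - ∑ y ∈ N, (eB (D.Pc φ c) Rem {y} : ℝ) := by
    have h1 : ∀ y, ((eB (D.Pc φ c) (D.xo c Rem) {y} : ℝ) - D.q)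
      = ((dgY (D.Pc φ c) y : ℝ) - D.theta * (eB D.Hb (D.O.OX c)ᶜ {y} : ℝ))
        + D.theta * (D.arH y - (eB D.Hb (D.O.OX c) {y} : ℝ)
          + (((D.κ : ℝ) / D.d - D.rho1) * av))
        - (eB (D.Pc φ c) Rem {y} : ℝ) := by
      intro y
      have h2 : (eB (D.Pc φ c) (D.xo c Rem) {y} : ℝ) + (eB (D.Pc φ c) Rem {y} : ℝ)
          = (dgY (D.Pc φ c) y : ℝ) := by
        exact_mod_cast eB_xo10 D φ c Rem y
      have h3 : (eB D.Hb (D.O.OX c) {y} : ℝ) + (eB D.Hb (D.O.OX c)ᶜ {y} : ℝ)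
          = (dgY D.Hb y : ℝ) := by
        unfold dgY
        exact_mod_cast eB_complX D.Hb (D.O.OX c) {y}
      have h4 : D.arH y = (dgY D.Hb y : ℝ) - (D.κ : ℝ) / D.d * av := by
        unfold Ctx.arH
        rw [havY]
      have h5 : D.q = D.theta * (D.rho1 * av) := by
        unfold Ctx.q
        rw [← hav]
      rw [h4, h5, ← h3, ← h2]
      ring
    rw [sum_congr rfl (fun y _ => h1 y)]
    simp only [sum_sub_distrib, sum_add_distrib, ← mul_sum, sum_const, nsmul_eq_mul]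
    ring
  -- the bounds
  set S1 : ℝ := ∑ y ∈ N, ((dgY (D.Pc φ c) y : ℝ) - D.theta * (eB D.Hb (D.O.OX c)ᶜ {y} : ℝ)) with hS1
  set S2 : ℝ := ∑ y ∈ N, D.arH y with hS2
  set S3 : ℝ := ∑ y ∈ N, (eB D.Hb (D.O.OX c) {y} : ℝ) with hS3
  set S4 : ℝ := N.card * (((D.κ : ℝ) / D.d - D.rho1) * av) with hS4
  set S5 : ℝ := ∑ y ∈ N, (eB (D.Pc φ c) Rem {y} : ℝ) with hS5
  set η : ℝ := eta D.t with hη
  have hκρ : 0 ≤ (D.κ : ℝ) / D.d - D.rho1 := by linarith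
  have hS40 : 0 ≤ S4 := by rw [hS4]; positivity
  have hb2 : η * |S2| ≤ (10 ^ 22 + 10 ^ 16 + 1) / (D.t : ℝ) ^ 5 * β := by
    refine e3.trans (mul_le_mul_of_nonneg_right ?_ hβ0)
    have h1 : 1 / (D.n : ℝ) ≤ 1 / (D.t : ℝ) ^ 5 := by
      refine one_div_le_one_div_of_le (by positivity) ?_
      exact (pow_le_pow_right₀ ht1 (by norm_num)).trans hn1
    have h2 : (10 : ℝ) ^ 16 * ((D.κ : ℝ) / (D.t : ℝ) ^ 5) / D.κ = 10 ^ 16 / (D.t : ℝ) ^ 5 := by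
      field_simp
    rw [h2]
    calc (10 : ℝ) ^ 22 * (1 / (D.t : ℝ) ^ 5) + 10 ^ 16 / (D.t : ℝ) ^ 5 + 1 / (D.n : ℝ)
        ≤ (10 : ℝ) ^ 22 * (1 / (D.t : ℝ) ^ 5) + 10 ^ 16 / (D.t : ℝ) ^ 5 + 1 / (D.t : ℝ) ^ 5 := by
          linarith
      _ = (10 ^ 22 + 10 ^ 16 + 1) / (D.t : ℝ) ^ 5 := by ring
  have hb3 : η * S3 ≤ 10 ^ 23 / (D.t : ℝ) ^ 5 * β := by
    have h1 : S3 ≤ 10 ^ 23 / (D.t : ℝ) ^ 5 * β := hout.trans e3o
    have h2 : η * S3 ≤ 1 * S3 := mul_le_mul_of_nonneg_right hη1 hout0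
    linarith
  have hb4 : η * S4 ≤ 1 / (D.t : ℝ) ^ 5 * β := by
    have h1 : ((D.κ : ℝ) / D.d - D.rho1) * av ≤ 3 / (D.t : ℝ) ^ 26 := by
      calc ((D.κ : ℝ) / D.d - D.rho1) * av ≤ 3 / ((D.t : ℝ) ^ 26 * D.d) * D.d :=
            mul_le_mul hρ6 havd hav0 (by positivity)
        _ = 3 / (D.t : ℝ) ^ 26 := by field_simp
    have h2 : (N.card : ℝ) ≤ 4 * A.card := by exact_mod_cast hNA
    have h3 : S4 ≤ 4 * A.card * (3 / (D.t : ℝ) ^ 26) := by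
      rw [hS4]
      exact mul_le_mul h2 h1 (mul_nonneg hκρ hav0) (by positivity)
    have h4 : η * S4 ≤ η * (4 * A.card * (3 / (D.t : ℝ) ^ 26)) :=
      mul_le_mul_of_nonneg_left h3 hη0.le
    have h5 : η * (4 * A.card * (3 / (D.t : ℝ) ^ 26)) = (12 / (D.t : ℝ) ^ 26) * (η * A.card) := by
      ring
    have h6 : (12 / (D.t : ℝ) ^ 26) * (η * A.card) ≤ (12 / (D.t : ℝ) ^ 26) * (10 ^ 15 * β) :=
      mul_le_mul_of_nonneg_left bl (by positivity)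
    have h7 : (12 : ℝ) / (D.t : ℝ) ^ 26 * 10 ^ 15 ≤ 1 / (D.t : ℝ) ^ 5 := by
      rw [div_mul_eq_mul_div, div_le_div_iff₀ (by positivity) (by positivity)]
      have h8 : (D.t : ℝ) ^ 26 = (D.t : ℝ) ^ 20 * D.t * (D.t : ℝ) ^ 5 := by ring
      have h9 : (1 : ℝ) ≤ (D.t : ℝ) ^ 20 := one_le_pow₀ ht1
      have h10 : (12 : ℝ) * 10 ^ 15 ≤ 10 ^ 100 := by norm_num
      have h11 : (12 : ℝ) * 10 ^ 15 ≤ (D.t : ℝ) ^ 20 * D.t := by nlinarith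
      rw [h8, one_mul]
      exact mul_le_mul_of_nonneg_right h11 (by positivity)
    calc η * S4 ≤ (12 / (D.t : ℝ) ^ 26) * (10 ^ 15 * β) := by linarith
      _ = ((12 : ℝ) / (D.t : ℝ) ^ 26 * 10 ^ 15) * β := by ring
      _ ≤ 1 / (D.t : ℝ) ^ 5 * β := mul_le_mul_of_nonneg_right h7 hβ0
  have hb5 : η * S5 ≤ D.theta * β / (D.t : ℝ) ^ 5 := by
    have h1 : η * D.κ * S5 ≤ 10 ^ 16 * (D.t * β) :=
      (mul_le_mul_of_nonneg_left hrem (by positivity)).trans e5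
    have h2 : η * S5 * D.κ ≤ 10 ^ 16 * (D.t * β) := by linarith [h1, mul_right_comm η (D.κ : ℝ) S5]
    have h3 : 10 ^ 16 * (D.t * β) ≤ D.theta * β / (D.t : ℝ) ^ 5 * D.κ := by
      have h4 : D.theta * β / (D.t : ℝ) ^ 5 * D.κ = (D.theta * D.κ) * β / (D.t : ℝ) ^ 5 := by ring
      rw [h4, le_div_iff₀ (by positivity)]
      have h5 : (10 : ℝ) ^ 16 * (D.t : ℝ) ^ 6 ≤ D.theta * D.κ := by
        refine le_trans ?_ hθ1
        rw [le_div_iff₀ (by norm_num)]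
        have h6 : (D.t : ℝ) ^ 20 = (D.t : ℝ) ^ 13 * D.t * (D.t : ℝ) ^ 6 := by ring
        rw [h6]
        have h9 : (1 : ℝ) ≤ (D.t : ℝ) ^ 13 := one_le_pow₀ ht1
        have h11 : (10 : ℝ) ^ 16 * 4 ≤ (D.t : ℝ) ^ 13 * D.t := by
          have : (10 : ℝ) ^ 16 * 4 ≤ 10 ^ 100 := by norm_num
          nlinarith
        calc (10 : ℝ) ^ 16 * (D.t : ℝ) ^ 6 * 4 = ((10 : ℝ) ^ 16 * 4) * (D.t : ℝ) ^ 6 := by ring
          _ ≤ (D.t : ℝ) ^ 13 * D.t * (D.t : ℝ) ^ 6 := mul_le_mul_of_nonneg_right h11 (by positivity)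
      calc 10 ^ 16 * (D.t * β) * (D.t : ℝ) ^ 5 = (10 ^ 16 * (D.t : ℝ) ^ 6) * β := by ring
        _ ≤ D.theta * D.κ * β := mul_le_mul_of_nonneg_right h5 hβ0
    exact le_of_mul_le_mul_right (h2.trans h3) hκ0
  have hb1 : η * |S1| ≤ D.theta * β / (D.t : ℝ) ^ 5 := by
    refine e4.trans ?_
    refine div_le_div_of_nonneg_left (by positivity) (by positivity) ?_
    exact pow_le_pow_right₀ ht1 (by norm_num)
  rw [hdec]
  have habs : |S1 + D.theta * (S2 - S3 + S4) - S5| ≤ |S1| + D.theta * (|S2| + S3 + S4) + S5 := by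
    have h1 : |S1 + D.theta * (S2 - S3 + S4) - S5| ≤ |S1 + D.theta * (S2 - S3 + S4)| + |S5| :=
      abs_sub _ _
    have h2 : |S1 + D.theta * (S2 - S3 + S4)| ≤ |S1| + |D.theta * (S2 - S3 + S4)| := abs_add_le _ _
    have h3 : |D.theta * (S2 - S3 + S4)| = D.theta * |S2 - S3 + S4| := by
      rw [abs_mul, abs_of_pos hθ0]
    have h4 : |S2 - S3 + S4| ≤ |S2| + S3 + S4 := by
      have h5 := abs_add_le (S2 - S3) S4
      have h6 := abs_sub S2 S3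
      rw [abs_of_nonneg hS40] at h5
      rw [abs_of_nonneg hout0] at h6
      linarith
    have h7 := mul_le_mul_of_nonneg_left h4 hθ0.le
    rw [abs_of_nonneg hrem0] at h1
    linarith
  have hfin : η * |S1 + D.theta * (S2 - S3 + S4) - S5|
      ≤ η * |S1| + D.theta * (η * |S2| + η * S3 + η * S4) + η * S5 := by
    have := mul_le_mul_of_nonneg_left habs hη0.le
    calc η * |S1 + D.theta * (S2 - S3 + S4) - S5|
        ≤ η * (|S1| + D.theta * (|S2| + S3 + S4) + S5) := this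
      _ = η * |S1| + D.theta * (η * |S2| + η * S3 + η * S4) + η * S5 := by ring
  refine hfin.trans ?_
  have hsum : η * |S2| + η * S3 + η * S4
      ≤ ((10 ^ 22 + 10 ^ 16 + 1) + 10 ^ 23 + 1) / (D.t : ℝ) ^ 5 * β := by
    have : ((10 ^ 22 + 10 ^ 16 + 1) + 10 ^ 23 + 1) / (D.t : ℝ) ^ 5 * β
      = (10 ^ 22 + 10 ^ 16 + 1) / (D.t : ℝ) ^ 5 * β + 10 ^ 23 / (D.t : ℝ) ^ 5 * β
        + 1 / (D.t : ℝ) ^ 5 * β := by ring
    rw [this]
    linarith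
  have h8 := mul_le_mul_of_nonneg_left hsum hθ0.le
  have h9 : D.theta * β / (D.t : ℝ) ^ 5
      + D.theta * (((10 ^ 22 + 10 ^ 16 + 1) + 10 ^ 23 + 1) / (D.t : ℝ) ^ 5 * β)
      + D.theta * β / (D.t : ℝ) ^ 5 ≤ D.theta * β / (D.t : ℝ) ^ 4 := by
    have h10 : D.theta * β / (D.t : ℝ) ^ 5
      + D.theta * (((10 ^ 22 + 10 ^ 16 + 1) + 10 ^ 23 + 1) / (D.t : ℝ) ^ 5 * β)
      + D.theta * β / (D.t : ℝ) ^ 5
      = ((10 ^ 22 + 10 ^ 16 + 1) + 10 ^ 23 + 1 + 2) * (D.theta * β) / (D.t : ℝ) ^ 5 := by ring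
    rw [h10, div_le_div_iff₀ (by positivity) (by positivity)]
    have h11 : (D.t : ℝ) ^ 5 = D.t * (D.t : ℝ) ^ 4 := by ring
    rw [h11]
    have h12 : ((10 ^ 22 + 10 ^ 16 + 1) + 10 ^ 23 + 1 + 2 : ℝ) ≤ D.t :=
      le_trans (by norm_num) ht100
    have h13 : 0 ≤ D.theta * β * (D.t : ℝ) ^ 4 := by positivity
    calc ((10 ^ 22 + 10 ^ 16 + 1) + 10 ^ 23 + 1 + 2) * (D.theta * β) * (D.t : ℝ) ^ 4
        = ((10 ^ 22 + 10 ^ 16 + 1) + 10 ^ 23 + 1 + 2) * (D.theta * β * (D.t : ℝ) ^ 4) := by ring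
      _ ≤ D.t * (D.theta * β * (D.t : ℝ) ^ 4) := mul_le_mul_of_nonneg_right h12 h13
      _ = D.theta * β * (D.t * (D.t : ℝ) ^ 4) := by ring
  linarith

end Pool.SCDH
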