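import Pool.Agent.Lib.SCDH.MDefs
import Pool.Agent.Lib.SCDH.G01
import Pool.Agent.Lib.SCDH.G02
import Pool.Agent.Lib.SCDH.G03
import Pool.Agent.Lib.SCDH.G04
import Pool.Agent.Lib.SCDH.N01
import Pool.Agent.Lib.SCDH.W01
import Pool.Agent.Lib.SCDH.W02
import Pool.Agent.Lib.SCDH.W06
import Pool.Agent.Lib.SCDH.K01
import Pool.Agent.Lib.SCDH.K02
import Pool.Agent.Lib.SCDH.K03
import Pool.Agent.Lib.SCDH.D02

/-!
# Row D13 (paper scd_h36.md)
crossX: a private reserve edge leaves A towards Sc ∖ N.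
Recipe: W06 with Γ = Pg on (A,N) (degrees ≥ q/2 ≥ t^17 or 0, degPgX, degPgY, degPg0; A avoids OX, N ⊆ Sin): (q/2) Δ ≤ 16000 bd Pg, Δ = number of vertices in the symmetric differences (vertices of cX, cY are not isolated: W01.pT_isolX: a vertex of cX has pT > 0). So Δ ≤ 32000 θβ/(q η t^3); with θκ ≤ q/(0.24 ε): ηκΔ ≤ 140000 β/(ε t^3) ≤ β/1000 and tΔ ≤ 32000·20 θβ/(ε t · ..) ≤ θβ/1000 (q η ≥ ε/(20 t)). f := the number of F-edges in mac6X ≥ eB FS A Nᶜ - 1.2 ηκ Δ ≥ β/9 (edges of FS from A to outside N whose ends are not in the symmetric differences; slot < s+1 by K01). Nτ|T| ≤ 2(|A|+|N|) ≤ 10|A| ≤ 10^16 β/η ≤ n^3 f. ¬ mac6X: #Rg(A_T → N_Tᶜ) ≥ θ f/2 ≥ θβ/18. Remove the edges with an end in a symmetric difference (≤ tΔ, degRg) and those with y ∈ Zs (≤ Σ_{x ∈ A_T} e_G(x,Zs) ≤ lam szT ≤ n^-2|A| ≤ θβ/1000 by ¬ mac7X, szT ≤ n^4|A|): one remains, it has x ∈ A, y ∉ N, y ∈ Sin ∖ Zs = Sc. β > 0 by betaLow.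
-/

set_option linter.unusedSectionVars false
set_option linter.unusedVariables false

namespace Pool.SCDH

open Finset Pool.MP_0ccee8_co.Lib2

variable {X Y : Type} [Fintype X] [DecidableEq X] [Fintype Y] [DecidableEq Y]
variable (D : Ctx X Y)

private lemma d13_pow {t : ℝ} (ht : (10 : ℝ) ^ 100 ≤ t) : 1 ≤ t ∧ 0 < t := by
  have h : (1 : ℝ) ≤ 10 ^ 100 := by norm_num
  exact ⟨le_trans h ht, lt_of_lt_of_le (by norm_num) ht⟩

private lemma d13_mem_cX (Γ : Finset (X × Y)) (n : ℕ) (T : Finset (X ⊕ Y)) (x : X) (hx : x ∈ cX Γ n T) :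
    dgX Γ x ≠ 0 := by
  intro h
  have h0 := pT_isolX Γ rW (by norm_num [rW]) T x h
  unfold cX at hx
  rw [Finset.mem_filter, h0, mul_zero] at hx
  exact absurd hx.2 (by norm_num)

private lemma d13_mem_cY (Γ : Finset (X × Y)) (n : ℕ) (T : Finset (X ⊕ Y)) (y : Y) (hy : y ∈ cY Γ n T) :
    dgY Γ y ≠ 0 := by
  intro h
  have h0 := pT_isolY Γ rW (by norm_num [rW]) T y h
  unfold cY at hy
  rw [Finset.mem_filter, h0, mul_zero] at hy
  exact absurd hy.2 (by norm_num)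

private lemma d13_eB_X (Γ : Finset (X × Y)) (U : Finset X) (C : ℝ) (h : ∀ x, (dgX Γ x : ℝ) ≤ C) :
    (eB Γ U univ : ℝ) ≤ C * U.card := by
  rw [eB_sumX]
  push_cast
  calc ∑ x ∈ U, (eB Γ {x} univ : ℝ) ≤ ∑ _x ∈ U, C := Finset.sum_le_sum fun x _ => h x
    _ = C * U.card := by rw [Finset.sum_const, nsmul_eq_mul]; ring

private lemma d13_eB_Y (Γ : Finset (X × Y)) (U : Finset Y) (C : ℝ) (h : ∀ y, (dgY Γ y : ℝ) ≤ C) :
    (eB Γ univ U : ℝ) ≤ C * U.card := by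
  rw [eB_sumY]
  push_cast
  calc ∑ y ∈ U, (eB Γ univ {y} : ℝ) ≤ ∑ _y ∈ U, C := Finset.sum_le_sum fun y _ => h y
    _ = C * U.card := by rw [Finset.sum_const, nsmul_eq_mul]; ring

private lemma d13_num1 {q θ κ ε η β b Δ t : ℝ} (hθ : 0 < θ) (hβ : 0 ≤ β) (ht : (10 : ℝ) ^ 100 ≤ t)
    (het : (10 : ℝ) ^ 100 ≤ ε * t) (hη : 0 < η) (hκ : 0 ≤ κ) (hΔ : 0 ≤ Δ) (hε : 0 < ε)
    (h1 : q * Δ ≤ 32000 * b) (h2 : η * b ≤ θ * β / t ^ 3) (h3 : 24 / 100 * (ε * (θ * κ)) ≤ q) :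
    η * κ * Δ ≤ β / 1000 := by
  have ht1 := (d13_pow ht).1
  have ht0 := (d13_pow ht).2
  have a1 : 24 / 100 * (ε * (θ * κ)) * (η * Δ) ≤ 32000 * (θ * β / t ^ 3) := by
    calc 24 / 100 * (ε * (θ * κ)) * (η * Δ) ≤ q * (η * Δ) := by gcongr
      _ = η * (q * Δ) := by ring
      _ ≤ η * (32000 * b) := by gcongr
      _ = 32000 * (η * b) := by ring
      _ ≤ _ := by gcongr
  have a2 : θ * (24 / 100 * (ε * t ^ 3) * (η * κ * Δ)) ≤ θ * (32000 * β) := by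
    have := mul_le_mul_of_nonneg_right a1 (by positivity : (0 : ℝ) ≤ t ^ 3)
    have e : 32000 * (θ * β / t ^ 3) * t ^ 3 = θ * (32000 * β) := by field_simp
    rw [e] at this
    calc _ = 24 / 100 * (ε * (θ * κ)) * (η * Δ) * t ^ 3 := by ring
      _ ≤ _ := this
  have a3 := le_of_mul_le_mul_left a2 hθ
  have a4 : (10 : ℝ) ^ 100 ≤ ε * t ^ 3 := by
    calc (10 : ℝ) ^ 100 ≤ ε * t := het
      _ = ε * t * 1 := by ring
      _ ≤ ε * t * t ^ 2 := by
          apply mul_le_mul_of_nonneg_left (one_le_pow₀ ht1) (by positivity)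
      _ = ε * t ^ 3 := by ring
  have a5 : 0 ≤ η * κ * Δ := by positivity
  have a6 : 24 / 100 * (10 : ℝ) ^ 100 * (η * κ * Δ) ≤ 32000 * β := by
    refine le_trans ?_ a3
    gcongr
  have a7 : (32000000 : ℝ) * (η * κ * Δ) ≤ 24 / 100 * (10 : ℝ) ^ 100 * (η * κ * Δ) := by
    apply mul_le_mul_of_nonneg_right _ a5
    norm_num
  linarith

private lemma d13_num2 {q θ ε η β b Δ t : ℝ} (hθ : 0 < θ) (hβ : 0 ≤ β) (ht : (10 : ℝ) ^ 100 ≤ t)
    (het : (10 : ℝ) ^ 100 ≤ ε * t) (hη : η = 1 / t ^ 21) (hΔ : 0 ≤ Δ) (hε : 0 < ε)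
    (h1 : q * Δ ≤ 32000 * b) (h2 : η * b ≤ θ * β / t ^ 3) (h3 : ε * t ^ 20 / 20 ≤ q) :
    t * Δ ≤ θ * β / 1000 := by
  have ht1 := (d13_pow ht).1
  have ht0 := (d13_pow ht).2
  have hη0 : 0 < η := by rw [hη]; positivity
  have a1 : ε * t ^ 20 / 20 * (η * Δ) ≤ 32000 * (θ * β / t ^ 3) := by
    calc ε * t ^ 20 / 20 * (η * Δ) ≤ q * (η * Δ) := by gcongr
      _ = η * (q * Δ) := by ring
      _ ≤ η * (32000 * b) := by gcongr
      _ = 32000 * (η * b) := by ring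
      _ ≤ _ := by gcongr
  have a2 : ε * t * (t * Δ) ≤ 640000 * (θ * β) := by
    have := mul_le_mul_of_nonneg_right a1 (by positivity : (0 : ℝ) ≤ 20 * t ^ 3)
    have e : 32000 * (θ * β / t ^ 3) * (20 * t ^ 3) = 640000 * (θ * β) := by field_simp; ring
    rw [e, hη] at this
    have e2 : ε * t ^ 20 / 20 * (1 / t ^ 21 * Δ) * (20 * t ^ 3) = ε * t * (t * Δ) := by
      field_simp
    rwa [e2] at this
  have a5 : 0 ≤ t * Δ := by positivity
  have a6 : (10 : ℝ) ^ 100 * (t * Δ) ≤ 640000 * (θ * β) := le_trans (by gcongr) a2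
  have a7 : (640000000 : ℝ) * (t * Δ) ≤ (10 : ℝ) ^ 100 * (t * Δ) := by
    apply mul_le_mul_of_nonneg_right _ a5
    norm_num
  linarith

private lemma d13_num3 {t n : ℝ} (ht : (10 : ℝ) ^ 100 ≤ t) (hn : t ^ 200 ≤ n) :
    9 * 10 ^ 16 * t ^ 21 ≤ n ^ 3 ∧ 16 * 10 ^ 18 * t ^ 21 ≤ n ^ 5 ∧ 1 ≤ n := by
  have ht1 := (d13_pow ht).1
  have ht0 := (d13_pow ht).2
  have hn1 : 1 ≤ n := le_trans (one_le_pow₀ ht1) hn
  have k : (10 : ℝ) ^ 100 * t ^ 21 ≤ n := by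
    calc (10 : ℝ) ^ 100 * t ^ 21 ≤ t * t ^ 21 := by gcongr
      _ = t ^ 22 := by ring
      _ ≤ t ^ 200 := pow_le_pow_right₀ ht1 (by norm_num)
      _ ≤ n := hn
  have k3 : n ≤ n ^ 3 := le_self_pow₀ hn1 (by norm_num)
  have k5 : n ≤ n ^ 5 := le_self_pow₀ hn1 (by norm_num)
  have hp : (0 : ℝ) ≤ t ^ 21 := by positivity
  refine ⟨?_, ?_, hn1⟩
  · refine le_trans ?_ (le_trans k k3)
    apply mul_le_mul_of_nonneg_right _ hp
    norm_num
  · refine le_trans ?_ (le_trans k k5)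
    apply mul_le_mul_of_nonneg_right _ hp
    norm_num

theorem crossX (hD : CtxOK D) (φ : D.Lbl) (hG : D.Good φ) (c : Fin D.B) (Rem : Finset X) (hRem : ∀ y, eB D.H.G Rem {y} ≤ D.vZ φ c y) (A : Finset X) (N : Finset Y)
    (hA : A ⊆ D.xo c Rem) (hN : N ⊆ D.Sc φ c) (hne : A.Nonempty) (h2 : 2 * A.card ≤ Fintype.card X)
    (hNA : N.card ≤ 4 * A.card)
    (hP : eta D.t * (bd (D.Pg φ c) A N : ℝ) ≤ D.theta * (bd (D.FS φ c) A N : ℝ) / (D.t : ℝ) ^ 3)
    (hF : (bd (D.FS φ c) A N : ℝ) ≤ 8 * (eB (D.FS φ c) A Nᶜ : ℝ)) :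
    ∃ e ∈ D.Rc φ c, e.1 ∈ A ∧ e.2 ∉ N := by
  classical
  by_contra hcon
  push Not at hcon
  obtain ⟨ht, het, hε, -⟩ := ctx_t D hD
  obtain ⟨hn, -⟩ := ctx_n D hD
  obtain ⟨-, -, hθ, hθ1, hθn, -, -⟩ := ctx_theta D hD
  obtain ⟨hq1, -, hq3⟩ := ctx_q D hD
  obtain ⟨-, hFY, -, hη, -⟩ := ctx_F D hD
  obtain ⟨hq19, hq0⟩ := q_large D hD
  obtain ⟨hPX0, hPY0⟩ := degPg0 D φ c
  obtain ⟨hRX, hRY⟩ := degRg D hD φ hG c
  have ht1 := (d13_pow ht).1
  have ht0 := (d13_pow ht).2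
  have hAO : ∀ x ∈ A, x ∉ D.O.OX c := by
    intro x hx
    have := hA hx
    unfold Ctx.xo at this
    exact (Finset.mem_filter.mp this).2.1
  have hNS : ∀ y ∈ N, y ∈ D.Sin φ c := fun y hy => (mem_Sc D φ c y (hN hy)).2.1
  have hdX : ∀ x, dgX (D.Pg φ c) x ≠ 0 → D.q / 2 ≤ (dgX (D.Pg φ c) x : ℝ) := by
    intro x hx
    by_cases h : x ∈ D.O.OX c
    · exact absurd (hPX0 x h) hx
    · exact degPgX D hD φ hG c x h
  have hdY : ∀ y, dgY (D.Pg φ c) y ≠ 0 → D.q / 2 ≤ (dgY (D.Pg φ c) y : ℝ) := by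
    intro y hy
    by_cases h : y ∈ D.Sin φ c
    · exact degPgY D hD φ hG c y h
    · exact absurd (hPY0 y h) hy
  have hq17 : (D.t : ℝ) ^ 17 ≤ D.q / 2 := by
    have : 2 * (D.t : ℝ) ^ 17 ≤ (D.t : ℝ) ^ 19 := by
      have h2 : (2 : ℝ) ≤ (D.t : ℝ) ^ 2 := by
        calc (2 : ℝ) ≤ 10 ^ 100 := by norm_num
          _ ≤ (D.t : ℝ) := ht
          _ ≤ (D.t : ℝ) ^ 2 := le_self_pow₀ ht1 (by norm_num)
      calc 2 * (D.t : ℝ) ^ 17 ≤ (D.t : ℝ) ^ 2 * (D.t : ℝ) ^ 17 := by gcongr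
        _ = (D.t : ℝ) ^ 19 := by ring
    linarith
  have hsub : D.Pg φ c ⊆ D.H.G := by
    intro e he
    unfold Ctx.Pg Ctx.Pv at he
    exact hD.bulk.sub (Finset.mem_filter.mp he).1
  have hAne : ∀ x ∈ A, dgX (D.Pg φ c) x ≠ 0 := by
    intro x hx h0
    have := degPgX D hD φ hG c x (hAO x hx)
    rw [h0] at this
    norm_num at this
    linarith
  have hNne : ∀ y ∈ N, dgY (D.Pg φ c) y ≠ 0 := by
    intro y hy h0
    have := degPgY D hD φ hG c y (hNS y hy)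
    rw [h0] at this
    norm_num at this
    linarith
  obtain ⟨T, hT1, hT2, hT3⟩ := cert hD.big hD.rng D.H (D.Pg φ c) hsub
    (fun x => by
      by_cases h : dgX (D.Pg φ c) x = 0
      · exact Or.inl h
      · right
        have := le_trans hq17 (hdX x h)
        exact_mod_cast this)
    (fun y => by
      by_cases h : dgY (D.Pg φ c) y = 0
      · exact Or.inl h
      · right
        have := le_trans hq17 (hdY y h)
        exact_mod_cast this) A N hAne hNne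
  set Γ := D.Pg φ c with hΓ
  set b : ℝ := (bd Γ A N : ℝ) with hb
  set β : ℝ := (bd (D.FS φ c) A N : ℝ) with hβ
  set U := symmDiff A (cX Γ D.n T) with hU
  set V := symmDiff N (cY Γ D.n T) with hV
  have hb0 : 0 ≤ b := by rw [hb]; positivity
  have hβ0 : 0 ≤ β := by rw [hβ]; positivity
  have hUd : ∀ x ∈ U, D.q / 2 ≤ (dgX Γ x : ℝ) := by
    intro x hx
    apply hdX
    rw [hU, Finset.mem_symmDiff] at hx
    rcases hx with ⟨hx, -⟩ | ⟨hx, -⟩
    · exact hAne x hx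
    · exact d13_mem_cX Γ D.n T x hx
  have hVd : ∀ y ∈ V, D.q / 2 ≤ (dgY Γ y : ℝ) := by
    intro y hy
    apply hdY
    rw [hV, Finset.mem_symmDiff] at hy
    rcases hy with ⟨hy, -⟩ | ⟨hy, -⟩
    · exact hNne y hy
    · exact d13_mem_cY Γ D.n T y hy
  set Δ : ℝ := (U.card : ℝ) + (V.card : ℝ) with hΔ
  have hΔ0 : 0 ≤ Δ := by rw [hΔ]; positivity
  have hT2' : ∑ x ∈ U, (dgX Γ x : ℝ) + ∑ y ∈ V, (dgY Γ y : ℝ) ≤ 16000 * b := by
    have : ((∑ x ∈ U, dgX Γ x + ∑ y ∈ V, dgY Γ y : ℕ) : ℝ) ≤ ((16 * rW * bd Γ A N : ℕ) : ℝ) := by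
      exact_mod_cast hT2
    push_cast at this
    have e : (rW : ℝ) = 1000 := by norm_num [rW]
    rw [e] at this
    linarith
  have hqΔ : D.q * Δ ≤ 32000 * b := by
    have h1 : (D.q / 2) * U.card ≤ ∑ x ∈ U, (dgX Γ x : ℝ) := by
      have := Finset.card_nsmul_le_sum U (fun x => (dgX Γ x : ℝ)) (D.q / 2) hUd
      rw [nsmul_eq_mul] at this
      linarith
    have h2 : (D.q / 2) * V.card ≤ ∑ y ∈ V, (dgY Γ y : ℝ) := by
      have := Finset.card_nsmul_le_sum V (fun y => (dgY Γ y : ℝ)) (D.q / 2) hVd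
      rw [nsmul_eq_mul] at this
      linarith
    rw [hΔ]
    linarith
  have hκ0 : (0 : ℝ) ≤ D.κ := by positivity
  have I1 : eta D.t * D.κ * Δ ≤ β / 1000 :=
    d13_num1 hθ hβ0 ht het hη hκ0 hΔ0 hε hqΔ hP hq1
  have I2 : (D.t : ℝ) * Δ ≤ D.theta * β / 1000 :=
    d13_num2 hθ hβ0 ht het rfl hΔ0 hε hqΔ hP hq3
  obtain ⟨n3, n5, n1⟩ := d13_num3 ht hn
  -- the number of reserve edges
  set Fs := D.F.filter (fun e => e.1 ∈ cX Γ D.n T ∧ e.1 ∉ D.O.OX c ∧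
    e.2 ∈ D.Sin φ c ∧ e.2 ∉ cY Γ D.n T ∧ D.slot φ c e.2 < D.s + 1) with hFs
  have I3 : β / 9 ≤ (Fs.card : ℝ) := by
    have hsub1 : (D.FS φ c).filter (fun e => e.1 ∈ A ∧ e.2 ∈ Nᶜ) ⊆
        (Fs ∪ (D.FS φ c).filter (fun e => e.1 ∈ U ∧ e.2 ∈ univ)) ∪
          (D.FS φ c).filter (fun e => e.1 ∈ univ ∧ e.2 ∈ V) := by
      intro e he
      rw [Finset.mem_filter, Finset.mem_compl] at he
      obtain ⟨heF, heA, heN⟩ := he
      by_cases hu : e.1 ∈ cX Γ D.n T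
      · by_cases hv : e.2 ∈ cY Γ D.n T
        · apply Finset.mem_union_right
          rw [Finset.mem_filter]
          exact ⟨heF, Finset.mem_univ _, by rw [hV, Finset.mem_symmDiff]; exact Or.inr ⟨hv, heN⟩⟩
        · apply Finset.mem_union_left
          apply Finset.mem_union_left
          unfold Ctx.FS rs at heF
          rw [Finset.mem_filter] at heF
          have hS := mem_Sc D φ c e.2 heF.2
          rw [hFs, Finset.mem_filter]
          exact ⟨heF.1, hu, hAO _ heA, hS.2.1, hv, slot_lt D hD φ hG c e.2 (Or.inl hS.2.1)⟩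
      · apply Finset.mem_union_left
        apply Finset.mem_union_right
        rw [Finset.mem_filter]
        exact ⟨heF, by rw [hU, Finset.mem_symmDiff]; exact Or.inl ⟨heA, hu⟩, Finset.mem_univ _⟩
    have hc1 : (eB (D.FS φ c) A Nᶜ : ℝ) ≤ Fs.card + eB (D.FS φ c) U univ + eB (D.FS φ c) univ V := by
      have := Finset.card_le_card hsub1
      have h2 := le_trans this (Finset.card_union_le _ _)
      have h3 := le_trans h2 (Nat.add_le_add_right (Finset.card_union_le _ _) _)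
      unfold eB
      exact_mod_cast h3
    have hηκ : 0 ≤ eta D.t * D.κ := by positivity
    have hc2 : (eB (D.FS φ c) U univ : ℝ) ≤ 11 / 10 * (eta D.t * D.κ) * U.card := by
      apply d13_eB_X
      intro x
      rw [degFSX]
      exact (degFS D hD φ hG c x).2.1
    have hc3 : (eB (D.FS φ c) univ V : ℝ) ≤ 11 / 10 * (eta D.t * D.κ) * V.card := by
      apply d13_eB_Y
      intro y
      rw [degFSY]
      split_ifs
      · have := (hFY y).2
        linarith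
      · push_cast
        positivity
    have : 11 / 10 * (eta D.t * D.κ) * U.card + 11 / 10 * (eta D.t * D.κ) * V.card =
        11 / 10 * (eta D.t * D.κ * Δ) := by rw [hΔ]; ring
    linarith
  have hβlow := betaLow D hD φ hG c A N h2
  rw [← hβ] at hβlow
  have hA1 : (1 : ℝ) ≤ A.card := by exact_mod_cast hne.card_pos
  have hβpos : 0 < β := by
    have : 0 < eta D.t * (A.card : ℝ) := by positivity
    linarith
  have hAβ : (A.card : ℝ) ≤ 10 ^ 15 * (D.t : ℝ) ^ 21 * β := by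
    have e : eta D.t = 1 / (D.t : ℝ) ^ 21 := rfl
    rw [e, div_mul_eq_mul_div, one_mul, div_le_iff₀ (by positivity)] at hβlow
    linarith
  have hNA' : (N.card : ℝ) ≤ 4 * A.card := by exact_mod_cast hNA
  have hT1' : (Nτ D.n : ℝ) * T.card ≤ 2 * ((A.card : ℝ) + N.card) := by exact_mod_cast hT1
  have I4 : (Nτ D.n : ℝ) * T.card ≤ (D.n : ℝ) ^ 3 * (Fs.card : ℝ) := by
    calc (Nτ D.n : ℝ) * T.card ≤ 10 * (10 ^ 15 * (D.t : ℝ) ^ 21 * β) := by linarith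
      _ = 10 ^ 16 * (D.t : ℝ) ^ 21 * β := by ring
      _ ≤ 10 ^ 16 * (D.t : ℝ) ^ 21 * (9 * Fs.card) := by
          apply mul_le_mul_of_nonneg_left (by linarith) (by positivity)
      _ = 9 * 10 ^ 16 * (D.t : ℝ) ^ 21 * Fs.card := by ring
      _ ≤ _ := by gcongr
  have hmac := hG.mac T
  have hm6 : ¬ D.mac6X φ T c := by
    intro h
    apply hmac
    unfold Ctx.macAll
    exact Or.inr (Or.inr ⟨c, Or.inr (Or.inr (Or.inr (Or.inr (Or.inr (Or.inr (Or.inr (Or.inr (Or.inr (Or.inr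
      (Or.inl h))))))))))⟩)
  have hm7 : ¬ D.mac7X φ T c := by
    intro h
    apply hmac
    unfold Ctx.macAll
    exact Or.inr (Or.inr ⟨c, Or.inr (Or.inr (Or.inr (Or.inr (Or.inr (Or.inr (Or.inr (Or.inr (Or.inr (Or.inr
      (Or.inr (Or.inr (Or.inl h))))))))))))⟩)
  have I5 : D.theta * (Fs.card : ℝ) ≤
      2 * (((D.Rg φ c).filter (fun e => e.1 ∈ cX Γ D.n T ∧ e.2 ∉ cY Γ D.n T)).card : ℝ) := by
    by_contra h
    push Not at h
    exact hm6 ⟨I4, h⟩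
  have I6 : ∑ x ∈ cX Γ D.n T, (eB D.H.G {x} (D.Zs φ c) : ℝ) ≤ lam D.n * szT Γ D.n T := by
    by_contra h
    push Not at h
    exact hm7 h
  -- upper bound for the number of private reserve edges
  have hsub2 : (D.Rg φ c).filter (fun e => e.1 ∈ cX Γ D.n T ∧ e.2 ∉ cY Γ D.n T) ⊆
      ((D.Rg φ c).filter (fun e => e.1 ∈ U ∧ e.2 ∈ univ) ∪
        (D.Rg φ c).filter (fun e => e.1 ∈ univ ∧ e.2 ∈ V)) ∪
        D.H.G.filter (fun e => e.1 ∈ cX Γ D.n T ∧ e.2 ∈ D.Zs φ c) := by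
    intro e he
    rw [Finset.mem_filter] at he
    obtain ⟨heR, hu, hv⟩ := he
    by_cases hA' : e.1 ∈ A
    · by_cases hN' : e.2 ∈ N
      · apply Finset.mem_union_left
        apply Finset.mem_union_right
        rw [Finset.mem_filter]
        exact ⟨heR, Finset.mem_univ _, by rw [hV, Finset.mem_symmDiff]; exact Or.inl ⟨hN', hv⟩⟩
      · apply Finset.mem_union_right
        unfold Ctx.Rg Ctx.Pv at heR
        rw [Finset.mem_filter] at heR
        obtain ⟨heF, heO, heS, heo⟩ := heR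
        rw [Finset.mem_filter]
        refine ⟨hD.res.sub heF, hu, ?_⟩
        by_contra hz
        refine hN' (hcon e ?_ hA')
        unfold Ctx.Rc Ctx.Pv
        rw [Finset.mem_filter]
        refine ⟨heF, heO, ?_, heo⟩
        unfold Ctx.Sc
        rw [Finset.mem_sdiff]
        exact ⟨heS, hz⟩
    · apply Finset.mem_union_left
      apply Finset.mem_union_left
      rw [Finset.mem_filter]
      exact ⟨heR, by rw [hU, Finset.mem_symmDiff]; exact Or.inr ⟨hu, hA'⟩, Finset.mem_univ _⟩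
  have I7 : (((D.Rg φ c).filter (fun e => e.1 ∈ cX Γ D.n T ∧ e.2 ∉ cY Γ D.n T)).card : ℝ) ≤
      (D.t : ℝ) * Δ + lam D.n * szT Γ D.n T := by
    have h2 := le_trans (Finset.card_le_card hsub2) (Finset.card_union_le _ _)
    have h3 := le_trans h2 (Nat.add_le_add_right (Finset.card_union_le _ _) _)
    have h4 : (((D.Rg φ c).filter (fun e => e.1 ∈ cX Γ D.n T ∧ e.2 ∉ cY Γ D.n T)).card : ℝ) ≤
        eB (D.Rg φ c) U univ + eB (D.Rg φ c) univ V + eB D.H.G (cX Γ D.n T) (D.Zs φ c) := by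
      unfold eB
      exact_mod_cast h3
    have h5 : (eB (D.Rg φ c) U univ : ℝ) ≤ D.t * U.card :=
      d13_eB_X _ _ _ (fun x => by exact_mod_cast hRX x)
    have h6 : (eB (D.Rg φ c) univ V : ℝ) ≤ D.t * V.card :=
      d13_eB_Y _ _ _ (fun y => by exact_mod_cast hRY y)
    have h7 : (eB D.H.G (cX Γ D.n T) (D.Zs φ c) : ℝ) ≤ lam D.n * szT Γ D.n T := by
      rw [eB_sumX]
      push_cast
      exact I6
    have e : (D.t : ℝ) * Δ = D.t * U.card + D.t * V.card := by rw [hΔ]; ring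
    linarith
  have hbβ : b ≤ D.theta * β * (D.t : ℝ) ^ 18 := by
    have e : eta D.t = 1 / (D.t : ℝ) ^ 21 := rfl
    rw [e, div_mul_eq_mul_div, one_mul, div_le_iff₀ (by positivity)] at hP
    have e2 : D.theta * β / (D.t : ℝ) ^ 3 * (D.t : ℝ) ^ 21 = D.theta * β * (D.t : ℝ) ^ 18 := by
      field_simp
    linarith
  have hT3' : ((cX Γ D.n T).card : ℝ) + ((cY Γ D.n T).card : ℝ) ≤ A.card + N.card + 16000 * b := by
    have : (((cX Γ D.n T).card + (cY Γ D.n T).card : ℕ) : ℝ) ≤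
        ((A.card + N.card + 16 * rW * bd Γ A N : ℕ) : ℝ) := by
      exact_mod_cast hT3
    push_cast at this
    have e : (rW : ℝ) = 1000 := by norm_num [rW]
    rw [e] at this
    linarith
  have hsz : szT Γ D.n T ≤ 16 * 10 ^ 15 * (D.t : ℝ) ^ 21 * β := by
    unfold szT
    have k1 : 16000 * b ≤ 10 ^ 15 * (D.t : ℝ) ^ 21 * β := by
      calc 16000 * b ≤ 16000 * (D.theta * β * (D.t : ℝ) ^ 18) := by gcongr
        _ ≤ 16000 * (1 * β * (D.t : ℝ) ^ 18) := by gcongr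
        _ ≤ 10 ^ 15 * (β * (D.t : ℝ) ^ 21) := by
            have : β * (D.t : ℝ) ^ 18 ≤ β * (D.t : ℝ) ^ 21 := by
              apply mul_le_mul_of_nonneg_left _ hβ0
              exact pow_le_pow_right₀ ht1 (by norm_num)
            have h0 : 0 ≤ β * (D.t : ℝ) ^ 21 := by positivity
            linarith
        _ = _ := by ring
    linarith
  have I8 : lam D.n * szT Γ D.n T ≤ D.theta * β / 1000 := by
    have hn0 : (0 : ℝ) < D.n := lt_of_lt_of_le one_pos n1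
    have hth : 1 / (D.n : ℝ) ≤ D.theta := by
      refine le_trans ?_ hθn
      rw [div_le_div_iff₀ hn0 (by positivity)]
      have : (4 : ℝ) ≤ (D.t : ℝ) ^ 20 := by
        calc (4 : ℝ) ≤ 10 ^ 100 := by norm_num
          _ ≤ (D.t : ℝ) := ht
          _ ≤ _ := le_self_pow₀ ht1 (by norm_num)
      calc 1 * (4 * (D.n : ℝ)) = 4 * D.n := by ring
        _ ≤ (D.t : ℝ) ^ 20 * D.n := by gcongr
    have hlam : lam D.n = 1 / (D.n : ℝ) ^ 6 := rfl
    have k1 : lam D.n * szT Γ D.n T ≤ 1 / (D.n : ℝ) ^ 6 * (16 * 10 ^ 15 * (D.t : ℝ) ^ 21 * β) := by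
      rw [hlam]
      gcongr
    have k2 : 1 / (D.n : ℝ) ^ 6 * (16 * 10 ^ 15 * (D.t : ℝ) ^ 21 * β) ≤ 1 / (D.n : ℝ) * β / 1000 := by
      have : 1 / (D.n : ℝ) ^ 6 * (16 * 10 ^ 15 * (D.t : ℝ) ^ 21 * β) =
          (16 * 10 ^ 18 * (D.t : ℝ) ^ 21) * (β / 1000 / (D.n : ℝ) ^ 6) := by
        field_simp
        ring
      rw [this]
      calc (16 * 10 ^ 18 * (D.t : ℝ) ^ 21) * (β / 1000 / (D.n : ℝ) ^ 6)
          ≤ (D.n : ℝ) ^ 5 * (β / 1000 / (D.n : ℝ) ^ 6) := by gcongr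
        _ = 1 / (D.n : ℝ) * β / 1000 := by field_simp
    have k3 : 1 / (D.n : ℝ) * β / 1000 ≤ D.theta * β / 1000 := by gcongr
    linarith
  have hfin : D.theta * (β / 9) ≤ D.theta * (Fs.card : ℝ) := by gcongr
  have hpos : 0 < D.theta * β := by positivity
  have : D.theta * (β / 9) = D.theta * β / 9 := by ring
  linarith

end Pool.SCDH
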