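import Pool.Agent.Lib.SCDH.MDefs
import Pool.Agent.Lib.SCDH.G01
import Pool.Agent.Lib.SCDH.G02

/-!
# Row D15 (paper scd_h36.md)
Boundary of the private graph, balance identity.
Recipe: bdPg: eB Pg A Nᶜ: y ∈ Sin is in Sc or Zs; eB Pg Aᶜ N: y ∈ N ⊆ Sc so the edge is in Pc, x ∉ OX, and x ∈ xo∖A or x ∈ Rem (≤ Σ_N eB G Rem {y}); Pg ⊆ Hb ⊆ G (hypothesis hsub). bal: both sides count edges: Σ_{x∈A} e(x,S) = e(A,N) + e(A,S∖N), Σ_{y∈N} e(X1,y) = e(A,N) + e(X1∖A,N).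
-/

set_option linter.unusedSectionVars false
set_option linter.unusedVariables false

namespace Pool.SCDH

open Finset Pool.MP_0ccee8_co.Lib2

variable {X Y : Type} [Fintype X] [DecidableEq X] [Fintype Y] [DecidableEq Y]
variable (D : Ctx X Y)

private lemma d15_cov (Γ Γ1 Γ2 : Finset (X × Y)) (A A1 A2 : Finset X) (N N1 N2 : Finset Y)
    (h : ∀ e ∈ Γ, e.1 ∈ A → e.2 ∈ N → (e ∈ Γ1 ∧ e.1 ∈ A1 ∧ e.2 ∈ N1) ∨ (e ∈ Γ2 ∧ e.1 ∈ A2 ∧ e.2 ∈ N2)) :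
    eB Γ A N ≤ eB Γ1 A1 N1 + eB Γ2 A2 N2 := by
  unfold eB
  refine le_trans (card_le_card (t := (Γ1.filter (fun e => e.1 ∈ A1 ∧ e.2 ∈ N1)) ∪
    (Γ2.filter (fun e => e.1 ∈ A2 ∧ e.2 ∈ N2))) ?_) (card_union_le _ _)
  intro e he
  rw [mem_filter] at he
  rw [mem_union, mem_filter, mem_filter]
  exact h e he.1 he.2.1 he.2.2

private lemma d15_rem (φ : D.Lbl) (c : Fin D.B) (Rem : Finset X)
    (hRem : ∀ y, eB D.H.G Rem {y} ≤ D.vZ φ c y) (N : Finset Y) :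
    eB D.H.G Rem N ≤ ∑ y ∈ N, D.vZ φ c y := by
  rw [eB_sumY]
  exact sum_le_sum (fun y _ => hRem y)

private lemma d15_splitY (Γ : Finset (X × Y)) (A : Finset X) (N S : Finset Y) (hN : N ⊆ S) :
    eB Γ A S = eB Γ A N + eB Γ A (S \ N) := by
  rw [eB_sumY Γ A S, eB_sumY Γ A N, eB_sumY Γ A (S \ N), add_comm]
  exact (sum_sdiff hN).symm

private lemma d15_splitX (Γ : Finset (X × Y)) (A X1 : Finset X) (N : Finset Y) (hA : A ⊆ X1) :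
    eB Γ X1 N = eB Γ A N + eB Γ (X1 \ A) N := by
  rw [eB_sumX Γ X1 N, eB_sumX Γ A N, eB_sumX Γ (X1 \ A) N, add_comm]
  exact (sum_sdiff hA).symm

theorem bdPg (hsub : D.Hb ⊆ D.H.G) (φ : D.Lbl) (c : Fin D.B) (Rem : Finset X) (hRem : ∀ y, eB D.H.G Rem {y} ≤ D.vZ φ c y)
    (A : Finset X) (N : Finset Y) (hA : A ⊆ D.xo c Rem) (hN : N ⊆ D.Sc φ c) :
    bd (D.Pg φ c) A N ≤ eB (D.Pc φ c) A (D.Sc φ c \ N) + eB (D.Pc φ c) (D.xo c Rem \ A) N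
      + ∑ x ∈ A, eB D.H.G {x} (D.Zs φ c) + ∑ y ∈ N, D.vZ φ c y := by
  have h1 : eB (D.Pg φ c) A Nᶜ ≤ eB (D.Pc φ c) A (D.Sc φ c \ N) + eB D.H.G A (D.Zs φ c) := by
    apply d15_cov
    intro e he hx hy
    unfold Ctx.Pg Ctx.Pv at he
    rw [mem_filter] at he
    obtain ⟨heH, hxO, hyS, how⟩ := he
    by_cases hz : e.2 ∈ D.Zs φ c
    · exact Or.inr ⟨hsub heH, hx, hz⟩
    · left
      have hsc : e.2 ∈ D.Sc φ c := by
        unfold Ctx.Sc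
        exact mem_sdiff.2 ⟨hyS, hz⟩
      refine ⟨?_, hx, mem_sdiff.2 ⟨hsc, mem_compl.1 hy⟩⟩
      unfold Ctx.Pc Ctx.Pv
      rw [mem_filter]
      exact ⟨heH, hxO, hsc, how⟩
  have h2 : eB (D.Pg φ c) Aᶜ N ≤ eB (D.Pc φ c) (D.xo c Rem \ A) N + eB D.H.G Rem N := by
    apply d15_cov
    intro e he hx hy
    unfold Ctx.Pg Ctx.Pv at he
    rw [mem_filter] at he
    obtain ⟨heH, hxO, hyS, how⟩ := he
    by_cases hr : e.1 ∈ Rem
    · exact Or.inr ⟨hsub heH, hr, hy⟩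
    · left
      refine ⟨?_, ?_, hy⟩
      · unfold Ctx.Pc Ctx.Pv
        rw [mem_filter]
        exact ⟨heH, hxO, hN hy, how⟩
      · rw [mem_sdiff]
        refine ⟨?_, mem_compl.1 hx⟩
        unfold Ctx.xo
        rw [mem_filter]
        exact ⟨mem_univ _, hxO, hr⟩
  have h3 := d15_rem D φ c Rem hRem N
  have h4 := eB_sumX D.H.G A (D.Zs φ c)
  unfold bd
  omega

theorem bal (Γ : Finset (X × Y)) (X1 : Finset X) (S : Finset Y) (A : Finset X) (N : Finset Y)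
    (hA : A ⊆ X1) (hN : N ⊆ S) (q : ℝ) :
    (eB Γ A (S \ N) : ℝ) - eB Γ (X1 \ A) N =
      ∑ x ∈ A, ((eB Γ {x} S : ℝ) - q) - ∑ y ∈ N, ((eB Γ X1 {y} : ℝ) - q)
        + q * ((A.card : ℝ) - N.card) := by
  have h1 := d15_splitY Γ A N S hN
  have h2 := d15_splitX Γ A X1 N hA
  have h3 : ∑ x ∈ A, ((eB Γ {x} S : ℝ) - q) = (eB Γ A S : ℝ) - q * A.card := by
    rw [sum_sub_distrib, eB_sumX Γ A S]
    push_cast
    rw [sum_const, nsmul_eq_mul]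
    ring
  have h4 : ∑ y ∈ N, ((eB Γ X1 {y} : ℝ) - q) = (eB Γ X1 N : ℝ) - q * N.card := by
    rw [sum_sub_distrib, eB_sumY Γ X1 N]
    push_cast
    rw [sum_const, nsmul_eq_mul]
    ring
  rw [h3, h4, h1, h2]
  push_cast
  ring

theorem Pc_deg (φ : D.Lbl) (c : Fin D.B) (x : X) : eB (D.Pc φ c) {x} (D.Sc φ c) = dgX (D.Pc φ c) x := by
  unfold dgX eB
  congr 1
  apply filter_congr
  intro e he
  unfold Ctx.Pc Ctx.Pv at he
  rw [mem_filter] at he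
  simp only [mem_univ, and_true, and_iff_left_iff_imp]
  exact fun _ => he.2.2.1

theorem FS_bd (φ : D.Lbl) (c : Fin D.B) (Rem : Finset X) (hRem : ∀ y, eB D.H.G Rem {y} ≤ D.vZ φ c y) (A : Finset X) (N : Finset Y)
    (hA : A ⊆ D.xo c Rem) (hN : N ⊆ D.Sc φ c) (hFG : D.F ⊆ D.H.G) :
    bd (D.FS φ c) A N ≤ eB D.F A (D.Sc φ c \ N) + eB D.F (D.xo c Rem \ A) N
      + eB D.H.G (D.O.OX c) N + ∑ y ∈ N, D.vZ φ c y := by
  have h1 : eB (D.FS φ c) A Nᶜ ≤ eB D.F A (D.Sc φ c \ N) := by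
    unfold eB
    apply card_le_card
    intro e he
    rw [mem_filter] at he ⊢
    obtain ⟨he1, hx, hy⟩ := he
    unfold Ctx.FS rs at he1
    rw [mem_filter] at he1
    exact ⟨he1.1, hx, mem_sdiff.2 ⟨he1.2, mem_compl.1 hy⟩⟩
  have h2 : eB (D.FS φ c) Aᶜ N ≤ eB D.F (D.xo c Rem \ A) N + eB D.H.G (D.O.OX c ∪ Rem) N := by
    apply d15_cov
    intro e he hx hy
    unfold Ctx.FS rs at he
    rw [mem_filter] at he
    by_cases ho : e.1 ∈ D.O.OX c ∪ Rem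
    · exact Or.inr ⟨hFG he.1, ho, hy⟩
    · left
      rw [mem_union, not_or] at ho
      refine ⟨he.1, ?_, hy⟩
      rw [mem_sdiff]
      refine ⟨?_, mem_compl.1 hx⟩
      unfold Ctx.xo
      rw [mem_filter]
      exact ⟨mem_univ _, ho.1, ho.2⟩
  have h5 : eB D.H.G (D.O.OX c ∪ Rem) N ≤ eB D.H.G (D.O.OX c) N + eB D.H.G Rem N := by
    apply d15_cov
    intro e he hx hy
    rcases mem_union.1 hx with h | h
    · exact Or.inl ⟨he, h, hy⟩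
    · exact Or.inr ⟨he, h, hy⟩
  have h3 := d15_rem D φ c Rem hRem N
  unfold bd
  omega

end Pool.SCDH
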