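import Pool.Agent.Lib.SCDH.MDefs
import Pool.Agent.Lib.SCDH.G01
import Pool.Agent.Lib.SCDH.G02
import Pool.Agent.Lib.SCDH.G03
import Pool.Agent.Lib.SCDH.G04
import Pool.Agent.Lib.SCDH.N01
import Pool.Agent.Lib.SCDH.K01
import Pool.Agent.Lib.SCDH.K02
import Pool.Agent.Lib.SCDH.K03
import Pool.Agent.Lib.SCDH.D02
import Pool.Agent.Lib.SCDH.D06
import Pool.Agent.Lib.SCDH.D08
import Pool.Agent.Lib.SCDH.D09
import Pool.Agent.Lib.SCDH.D10
import Pool.Agent.Lib.SCDH.D11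
import Pool.Agent.Lib.SCDH.D13
import Pool.Agent.Lib.SCDH.D15

/-!
# Row D16 (paper scd_h36.md)
Hall, case I (small A).
Recipe: D15.bal for Γ = Pc, X1 = xo, S = Sc, q: with e(forbidden direction) = 0 the other one is ≤ |Σ_A(..)| + |Σ_N(..)| ≤ 2 θβ/(η t^4) (K1X, K1Y; q(|A|-|N|) has the good sign). bdPg + E5X + E5Y: η bd Pg ≤ 2θβ/t^4 + (10^14+10^16) tβ/κ ≤ θβ/t^3 (θκ ≥ t^20/4). D15.bal for Γ = F, q = qF: e_F(forbidden) ≥ e_F(other) - 2β/t^4; with FS_bd, E3o, E5Y: 2 e_F(forbidden) ≥ β - 2β/t^4 - 10^23 t^-5 β - ... ≥ β/2, so 8 e_F(forbidden) ≥ β. Here the forbidden direction is A → Sc∖N; crossX gives an edge of Rc from A to outside N: contradiction with hE.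
-/

set_option linter.unusedSectionVars false
set_option linter.unusedVariables false

namespace Pool.SCDH

open Finset Pool.MP_0ccee8_co.Lib2

variable {X Y : Type} [Fintype X] [DecidableEq X] [Fintype Y] [DecidableEq Y]
variable (D : Ctx X Y)

theorem hall_I (hD : CtxOK D) (φ : D.Lbl) (hG : D.Good φ) (c : Fin D.B) (Rem : Finset X) (hRem : ∀ y, eB D.H.G Rem {y} ≤ D.vZ φ c y)
    (A : Finset X) (N : Finset Y) (hA : A ⊆ D.xo c Rem) (hN : N ⊆ D.Sc φ c) (h2 : 2 * A.card ≤ Fintype.card X)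
    (hlt : N.card < A.card) (hE : ∀ e ∈ D.Pc φ c ∪ D.Rc φ c, e.1 ∈ A → e.2 ∈ N) : False := by
  have hAO : ∀ x ∈ A, x ∉ D.O.OX c := by
    intro x hx
    have := hA hx
    simp only [Ctx.xo, Finset.mem_filter] at this
    exact this.2.1
  have hNA : N.card ≤ 4 * A.card := by omega
  have hne : A.Nonempty := by
    rw [← Finset.card_pos]; omega
  obtain ⟨ht1, ht2, ht3, ht4⟩ := ctx_t D hD
  obtain ⟨hk1, hk2, hk3, hk4⟩ := ctx_deg D hD
  obtain ⟨hr1, hr2, hr3, hr4, hr5, hr6⟩ := ctx_rho D hD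
  obtain ⟨hth1, hth2, hth3, hth4, -⟩ := ctx_theta D hD
  obtain ⟨-, -, hF3, hF4, hF5⟩ := ctx_F D hD
  have kX := K1X D hD φ hG c A N h2 hN hAO hNA
  have kY := K1Y D hD φ hG c A N h2 hN hAO hNA Rem hRem
  have kXF := K1XF D hD φ hG c A N h2 hN
  have kYF := K1YF D hD φ hG c A N h2 hN hNA Rem hRem
  have e5X := E5X D hD φ hG c A N h2 hN
  have e5Y := E5Y D hD φ hG c A N h2 hN
  have e3o := E3o D hD φ hG c A N h2 hN
  have b1 := bal (D.Pc φ c) (D.xo c Rem) (D.Sc φ c) A N hA hN D.q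
  have b2 := bal D.F (D.xo c Rem) (D.Sc φ c) A N hA hN D.qF
  have b3 := bdPg D (hD.bulk.sub) φ c Rem hRem A N hA hN
  have b4 := FS_bd D φ c Rem hRem A N hA hN hD.res.sub
  have b5 := crossX D hD φ hG c Rem hRem A N hA hN hne h2 hNA
  have hq := q_large D hD
  have hqF : 0 ≤ D.qF := by
    unfold Ctx.qF avX
    have : 0 ≤ D.rho1 := hr5.le
    positivity
  have h0 : eB (D.Pc φ c) A (D.Sc φ c \ N) = 0 := by
    unfold eB
    rw [Finset.card_eq_zero, Finset.filter_eq_empty_iff]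
    rintro e he ⟨h1, h3⟩
    exact (Finset.mem_sdiff.1 h3).2 (hE e (Finset.mem_union_left _ he) h1)
  have hPd : ∀ x, eB (D.Pc φ c) {x} (D.Sc φ c) = dgX (D.Pc φ c) x := Pc_deg D φ c
  have hFS : (eB D.F A (D.Sc φ c \ N) : ℝ) ≤ (eB (D.FS φ c) A Nᶜ : ℝ) := by
    have : eB D.F A (D.Sc φ c \ N) ≤ eB (D.FS φ c) A Nᶜ := by
      unfold eB
      apply Finset.card_le_card
      intro e he
      simp only [Ctx.FS, rs, Finset.mem_filter, Finset.mem_sdiff, Finset.mem_compl] at he ⊢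
      tauto
    exact_mod_cast this
  simp only [hPd] at b1
  have hAN : (0 : ℝ) ≤ (A.card : ℝ) - N.card := by
    have : (N.card : ℝ) ≤ A.card := by exact_mod_cast hlt.le
    linarith
  have hβ0 : (0 : ℝ) ≤ (bd (D.FS φ c) A N : ℝ) := Nat.cast_nonneg _
  have b3' : (bd (D.Pg φ c) A N : ℝ) ≤ (eB (D.Pc φ c) A (D.Sc φ c \ N) : ℝ) + (eB (D.Pc φ c) (D.xo c Rem \ A) N : ℝ)
      + ∑ x ∈ A, (eB D.H.G {x} (D.Zs φ c) : ℝ) + ∑ y ∈ N, (D.vZ φ c y : ℝ) := by exact_mod_cast b3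
  have b4' : (bd (D.FS φ c) A N : ℝ) ≤ (eB D.F A (D.Sc φ c \ N) : ℝ) + (eB D.F (D.xo c Rem \ A) N : ℝ)
      + (eB D.H.G (D.O.OX c) N : ℝ) + ∑ y ∈ N, (D.vZ φ c y : ℝ) := by exact_mod_cast b4
  rw [h0, Nat.cast_zero] at b3' b1
  generalize hβ : (bd (D.FS φ c) A N : ℝ) = β at *
  generalize hSA : ∑ x ∈ A, ((dgX (D.Pc φ c) x : ℝ) - D.q) = SA at *
  generalize hSN : ∑ y ∈ N, ((eB (D.Pc φ c) (D.xo c Rem) {y} : ℝ) - D.q) = SN at *
  generalize hSAF : ∑ x ∈ A, ((eB D.F {x} (D.Sc φ c) : ℝ) - D.qF) = SAF at *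
  generalize hSNF : ∑ y ∈ N, ((eB D.F (D.xo c Rem) {y} : ℝ) - D.qF) = SNF at *
  generalize hZA : ∑ x ∈ A, (eB D.H.G {x} (D.Zs φ c) : ℝ) = ZA at *
  generalize hZN : ∑ y ∈ N, (D.vZ φ c y : ℝ) = ZN at *
  generalize hEP : (eB (D.Pc φ c) (D.xo c Rem \ A) N : ℝ) = EP at *
  generalize hEF : (eB D.F (D.xo c Rem \ A) N : ℝ) = EF at *
  generalize hEA : (eB D.F A (D.Sc φ c \ N) : ℝ) = EA at *
  generalize hEO : (eB D.H.G (D.O.OX c) N : ℝ) = EO at *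
  have ht0 : (0 : ℝ) < D.t := by linarith [show (0:ℝ) < 10 ^ 100 by positivity]
  have hκ0 : (0 : ℝ) < D.κ := lt_of_lt_of_le (by positivity) hk1
  have ht1' : (1 : ℝ) ≤ D.t := le_trans (by norm_num) ht1
  have hηκ : 0 < eta D.t * D.κ := by positivity
  have hpow : ∀ m : ℕ, m ≠ 0 → (10 : ℝ) ^ 100 ≤ (D.t : ℝ) ^ m := fun m hm => ht1.trans (le_self_pow₀ ht1' hm)
  have hθβ : 0 ≤ D.theta * β := by positivity
  -- P-side
  have c1 : eta D.t * EP ≤ 2 * (D.theta * β / (D.t : ℝ) ^ 4) := by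
    have g1 : EP ≤ |SA| + |SN| := by
      have := neg_abs_le SA
      have := le_abs_self SN
      have := mul_nonneg hq.2.le hAN
      linarith
    calc eta D.t * EP ≤ eta D.t * (|SA| + |SN|) := by gcongr
      _ = eta D.t * |SA| + eta D.t * |SN| := by ring
      _ ≤ _ := by linarith
  have c2 : eta D.t * (ZA + ZN) ≤ D.theta * β / (D.t : ℝ) ^ 4 := by
    have g1 : eta D.t * D.κ * (ZA + ZN) ≤ 10 ^ 17 * (D.t * β) := by
      have : 0 ≤ D.t * β := by positivity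
      linarith
    have g2 : 10 ^ 17 * (D.t * β) ≤ D.κ * (D.theta * β / (D.t : ℝ) ^ 4) := by
      have g3 : D.κ * (D.theta * β / (D.t : ℝ) ^ 4) = (D.theta * D.κ) * (β / (D.t : ℝ) ^ 4) := by ring
      rw [g3]
      have g4 : (D.t : ℝ) ^ 20 / 4 * (β / (D.t : ℝ) ^ 4) ≤ (D.theta * D.κ) * (β / (D.t : ℝ) ^ 4) := by gcongr
      have g5 : (D.t : ℝ) ^ 20 / 4 * (β / (D.t : ℝ) ^ 4) = ((D.t : ℝ) ^ 15 / 4) * (D.t * β) := by
        field_simp
      have g6 : (10 : ℝ) ^ 17 ≤ (D.t : ℝ) ^ 15 / 4 := by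
        have := hpow 15 (by norm_num)
        linarith [show (4 : ℝ) * 10 ^ 17 ≤ 10 ^ 100 by norm_num]
      have g7 : (10 : ℝ) ^ 17 * (D.t * β) ≤ ((D.t : ℝ) ^ 15 / 4) * (D.t * β) := by gcongr
      linarith
    have g8 : D.κ * (eta D.t * (ZA + ZN)) ≤ D.κ * (D.theta * β / (D.t : ℝ) ^ 4) := by
      calc D.κ * (eta D.t * (ZA + ZN)) = eta D.t * D.κ * (ZA + ZN) := by ring
        _ ≤ _ := g1.trans g2
    exact le_of_mul_le_mul_left g8 hκ0
  have hP : eta D.t * (bd (D.Pg φ c) A N : ℝ) ≤ D.theta * β / (D.t : ℝ) ^ 3 := by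
    have g1 : eta D.t * (bd (D.Pg φ c) A N : ℝ) ≤ 3 * (D.theta * β / (D.t : ℝ) ^ 4) := by
      calc eta D.t * (bd (D.Pg φ c) A N : ℝ) ≤ eta D.t * (0 + EP + ZA + ZN) := by gcongr
        _ = eta D.t * EP + eta D.t * (ZA + ZN) := by ring
        _ ≤ _ := by linarith
    refine g1.trans ?_
    have g2 : D.theta * β / (D.t : ℝ) ^ 3 = D.t * (D.theta * β / (D.t : ℝ) ^ 4) := by field_simp
    rw [g2]
    have : (3 : ℝ) ≤ D.t := le_trans (by norm_num) ht1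
    gcongr
  -- F-side
  have c3 : EF ≤ EA + 2 * (β / (D.t : ℝ) ^ 4) := by
    have := abs_le.1 kXF
    have := abs_le.1 kYF
    have := mul_nonneg hqF hAN
    linarith
  have c4 : ZN ≤ β / 100 := by
    have g1 : (D.t : ℝ) ^ 29 * ZN ≤ 10 ^ 16 * (D.t * β) := by
      have hZN0 : 0 ≤ ZN := by rw [← hZN]; positivity
      exact (mul_le_mul_of_nonneg_right hF3 hZN0).trans e5Y
    have g2 : 10 ^ 16 * (D.t * β) ≤ (D.t : ℝ) ^ 29 * (β / 100) := by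
      have g3 : (D.t : ℝ) ^ 29 * (β / 100) = ((D.t : ℝ) ^ 28 / 100) * (D.t * β) := by ring
      rw [g3]
      have : (10 : ℝ) ^ 16 ≤ (D.t : ℝ) ^ 28 / 100 := by
        have := hpow 28 (by norm_num)
        linarith [show (100 : ℝ) * 10 ^ 16 ≤ 10 ^ 100 by norm_num]
      gcongr
    exact le_of_mul_le_mul_left (g1.trans g2) (by positivity)
  have c5 : EO ≤ β / 100 := by
    refine e3o.trans ?_
    have g1 : 10 ^ 23 / (D.t : ℝ) ^ 5 ≤ 1 / 100 := by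
      rw [div_le_div_iff₀ (by positivity) (by norm_num)]
      have := hpow 5 (by norm_num)
      linarith [show (100 : ℝ) * 10 ^ 23 ≤ 10 ^ 100 by norm_num]
    calc 10 ^ 23 / (D.t : ℝ) ^ 5 * β ≤ 1 / 100 * β := by gcongr
      _ = β / 100 := by ring
  have c6 : β / (D.t : ℝ) ^ 4 ≤ β / 100 := by
    have := hpow 4 (by norm_num)
    have h100 : (100 : ℝ) ≤ (D.t : ℝ) ^ 4 := by linarith [show (100 : ℝ) ≤ 10 ^ 100 by norm_num]
    gcongr
  have hFF : β ≤ 8 * (eB (D.FS φ c) A Nᶜ : ℝ) := by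
    have : β ≤ 4 * EA := by linarith
    have hEA0 : 0 ≤ EA := by rw [← hEA]; positivity
    linarith
  obtain ⟨e, he, he1, he2⟩ := b5 hP hFF
  exact he2 (hE e (Finset.mem_union_right _ he) he1)

end Pool.SCDH
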