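import Pool.Agent.Lib.SCDH.MDefs
import Pool.Agent.Lib.SCDH.G01
import Pool.Agent.Lib.SCDH.G02
import Pool.Agent.Lib.SCDH.G03
import Pool.Agent.Lib.SCDH.G04
import Pool.Agent.Lib.SCDH.N01
import Pool.Agent.Lib.SCDH.W01
import Pool.Agent.Lib.SCDH.W02
import Pool.Agent.Lib.SCDH.W06
import Pool.Agent.Lib.SCDH.K01
import Pool.Agent.Lib.SCDH.K02
import Pool.Agent.Lib.SCDH.K03
import Pool.Agent.Lib.SCDH.D02

/-!
# Row D14 (paper scd_h36.md)
crossY: a private reserve edge enters N from xo ∖ A.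
Recipe: W06 with Γ = Pg on (A,N) (degrees ≥ q/2 ≥ t^17 or 0, degPgX, degPgY, degPg0; A avoids OX, N ⊆ Sin): (q/2) Δ ≤ 16000 bd Pg, Δ = number of vertices in the symmetric differences (vertices of cX, cY are not isolated: W01.pT_isolX: a vertex of cX has pT > 0). So Δ ≤ 32000 θβ/(q η t^3); with θκ ≤ q/(0.24 ε): ηκΔ ≤ 140000 β/(ε t^3) ≤ β/1000 and tΔ ≤ 32000·20 θβ/(ε t · ..) ≤ θβ/1000 (q η ≥ ε/(20 t)). f := the number of F-edges in mac6Y ≥ eB FS (xo∖A) N - 1.2 ηκ Δ ≥ β/9. Nτ|T| ≤ 10|A| ≤ 10^16 β/η ≤ n^3 f. ¬ mac6Y: #Rg(A_Tᶜ → N_T) ≥ θ f/2 ≥ θβ/18 (Rg has no edge at OX). Remove the edges with an end in a symmetric difference (≤ tΔ, degRg) and those with x ∈ Rem (≤ Σ_{y ∈ N_T} eB G Rem {y} ≤ Σ vZ ≤ lam szT by ¬ mac7Y): one remains; y ∈ N ⊆ Sc.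
-/

set_option linter.unusedSectionVars false
set_option linter.unusedVariables false

namespace Pool.SCDH

open Finset Pool.MP_0ccee8_co.Lib2

variable {X Y : Type} [Fintype X] [DecidableEq X] [Fintype Y] [DecidableEq Y]
variable (D : Ctx X Y)

private theorem card_X14 (Γ : Finset (X × Y)) (S : Finset X) :
    (Γ.filter (fun e => e.1 ∈ S)).card = ∑ x ∈ S, dgX Γ x := by
  have h := eB_sumX Γ S univ
  have h2 : eB Γ S univ = (Γ.filter (fun e => e.1 ∈ S)).card := by simp [eB]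
  rw [← h2, h]; rfl

private theorem card_Y14 (Γ : Finset (X × Y)) (S : Finset Y) :
    (Γ.filter (fun e => e.2 ∈ S)).card = ∑ y ∈ S, dgY Γ y := by
  have h := eB_sumY Γ univ S
  have h2 : eB Γ univ S = (Γ.filter (fun e => e.2 ∈ S)).card := by simp [eB]
  rw [← h2, h]; rfl

private theorem nums14 {ε t η κ θ q b p Δ : ℝ} (ht : (10 : ℝ) ^ 100 ≤ t) (hεt : (10 : ℝ) ^ 100 ≤ ε * t)
    (hε : 0 < ε) (hη : η * t ^ 21 = 1) (hη0 : 0 < η) (hb : 0 ≤ b) (hθ : 0 < θ) (hκ : 0 ≤ κ)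
    (hP : η * p ≤ θ * b / t ^ 3) (hq1 : 24 / 100 * (ε * (θ * κ)) ≤ q) (hq2 : ε * t ^ 20 / 20 ≤ q)
    (hΔ0 : 0 ≤ Δ) (hΔ : q * Δ ≤ 32000 * p) :
    1000 * (η * κ * Δ) ≤ b ∧ 1000 * (t * Δ) ≤ θ * b ∧ p ≤ θ * b * t ^ 18 := by
  have ht0 : 0 < t := lt_of_lt_of_le (by positivity) ht
  have ht1 : 1 ≤ t := le_trans (by norm_num) ht
  have hp : p ≤ θ * b * t ^ 18 := by
    have h1 : η * p * t ^ 21 ≤ θ * b / t ^ 3 * t ^ 21 := mul_le_mul_of_nonneg_right hP (by positivity)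
    have h2 : θ * b / t ^ 3 * t ^ 21 = θ * b * t ^ 18 := by field_simp
    have h3 : η * p * t ^ 21 = p := by
      calc η * p * t ^ 21 = p * (η * t ^ 21) := by ring
        _ = p := by rw [hη, mul_one]
    rw [h2, h3] at h1; exact h1
  have hqp : q * Δ ≤ 32000 * (θ * b * t ^ 18) := hΔ.trans (by linarith)
  refine ⟨?_, ?_, hp⟩
  · -- ηκΔ
    have h1 : 24 / 100 * (ε * (θ * κ)) * Δ ≤ 32000 * (θ * b * t ^ 18) :=
      (mul_le_mul_of_nonneg_right hq1 hΔ0).trans hqp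
    have h2 : 24 / 100 * (ε * κ * Δ) ≤ 32000 * (b * t ^ 18) := by
      have : θ * (24 / 100 * (ε * κ * Δ)) ≤ θ * (32000 * (b * t ^ 18)) := by
        calc θ * (24 / 100 * (ε * κ * Δ)) = 24 / 100 * (ε * (θ * κ)) * Δ := by ring
          _ ≤ 32000 * (θ * b * t ^ 18) := h1
          _ = θ * (32000 * (b * t ^ 18)) := by ring
      exact le_of_mul_le_mul_left this hθ
    have hκΔ : 0 ≤ κ * Δ := mul_nonneg hκ hΔ0
    have h3 : 24 / 100 * ((10 : ℝ) ^ 100 * (κ * Δ)) ≤ 32000 * (b * t ^ 19) := by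
      calc 24 / 100 * ((10 : ℝ) ^ 100 * (κ * Δ)) ≤ 24 / 100 * ((ε * t) * (κ * Δ)) := by
            have := mul_le_mul_of_nonneg_right hεt hκΔ
            linarith
        _ = t * (24 / 100 * (ε * κ * Δ)) := by ring
        _ ≤ t * (32000 * (b * t ^ 18)) := mul_le_mul_of_nonneg_left h2 ht0.le
        _ = 32000 * (b * t ^ 19) := by ring
    have h4 : κ * Δ * 10 ^ 50 ≤ b * t ^ 21 := by
      have h5 : b * t ^ 19 ≤ b * t ^ 21 :=
        mul_le_mul_of_nonneg_left (pow_le_pow_right₀ ht1 (by norm_num)) hb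
      nlinarith
    have h6 : η * (κ * Δ * 10 ^ 50) ≤ η * (b * t ^ 21) := mul_le_mul_of_nonneg_left h4 hη0.le
    have h7 : η * (b * t ^ 21) = b := by
      calc η * (b * t ^ 21) = b * (η * t ^ 21) := by ring
        _ = b := by rw [hη, mul_one]
    rw [h7] at h6
    have h8 : 0 ≤ η * κ * Δ := by positivity
    nlinarith
  · have h1 : ε * t ^ 20 / 20 * Δ ≤ 32000 * (θ * b * t ^ 18) :=
      (mul_le_mul_of_nonneg_right hq2 hΔ0).trans hqp
    have h2 : (ε * t) * (t * Δ) ≤ 640000 * (θ * b) := by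
      have : t ^ 18 * ((ε * t) * (t * Δ)) ≤ t ^ 18 * (640000 * (θ * b)) := by
        calc t ^ 18 * ((ε * t) * (t * Δ)) = 20 * (ε * t ^ 20 / 20 * Δ) := by ring
          _ ≤ 20 * (32000 * (θ * b * t ^ 18)) := by linarith
          _ = t ^ 18 * (640000 * (θ * b)) := by ring
      exact le_of_mul_le_mul_left this (by positivity)
    have htΔ : 0 ≤ t * Δ := mul_nonneg ht0.le hΔ0
    have h3 : (10 : ℝ) ^ 100 * (t * Δ) ≤ 640000 * (θ * b) :=
      (mul_le_mul_of_nonneg_right hεt htΔ).trans h2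
    nlinarith

private theorem certPg14 (hD : CtxOK D) (φ : D.Lbl) (hG : D.Good φ) (c : Fin D.B) (A : Finset X) (N : Finset Y)
    (hA : ∀ x ∈ A, x ∉ D.O.OX c) (hN : N ⊆ D.Sin φ c) :
    ∃ T : Finset (X ⊕ Y), (Nτ D.n : ℝ) * T.card ≤ 2 * ((A.card : ℝ) + N.card) ∧
      D.q * (((symmDiff A (cX (D.Pg φ c) D.n T)).card : ℝ) + ((symmDiff N (cY (D.Pg φ c) D.n T)).card : ℝ))
        ≤ 32000 * (bd (D.Pg φ c) A N : ℝ) ∧
      ((cX (D.Pg φ c) D.n T).card : ℝ) + ((cY (D.Pg φ c) D.n T).card : ℝ)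
        ≤ (A.card : ℝ) + N.card + 16000 * (bd (D.Pg φ c) A N : ℝ) := by
  classical
  obtain ⟨hq19, hq0⟩ := q_large D hD
  obtain ⟨ht, _, _, _⟩ := ctx_t D hD
  have ht0 : (0 : ℝ) < D.t := lt_of_lt_of_le (by positivity) ht
  have hsub : D.Pg φ c ⊆ D.H.G := fun e he => hD.bulk.sub (Finset.mem_filter.mp he).1
  have hpow : (D.t : ℝ) ^ 17 ≤ D.q / 2 := by
    have h1 : (2 : ℝ) * (D.t : ℝ) ^ 17 ≤ (D.t : ℝ) ^ 19 := by
      have h2 : (2 : ℝ) ≤ (D.t : ℝ) ^ 2 := by nlinarith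
      calc (2 : ℝ) * (D.t : ℝ) ^ 17 ≤ (D.t : ℝ) ^ 2 * (D.t : ℝ) ^ 17 :=
            mul_le_mul_of_nonneg_right h2 (by positivity)
        _ = (D.t : ℝ) ^ 19 := by ring
    linarith
  obtain ⟨h0X, h0Y⟩ := degPg0 D φ c
  have hX : ∀ x, dgX (D.Pg φ c) x = 0 ∨ D.t ^ 17 ≤ dgX (D.Pg φ c) x := by
    intro x
    by_cases hx : x ∈ D.O.OX c
    · exact Or.inl (h0X x hx)
    · right
      have := degPgX D hD φ hG c x hx
      have h2 : (D.t : ℝ) ^ 17 ≤ (dgX (D.Pg φ c) x : ℝ) := hpow.trans this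
      exact_mod_cast h2
  have hY : ∀ y, dgY (D.Pg φ c) y = 0 ∨ D.t ^ 17 ≤ dgY (D.Pg φ c) y := by
    intro y
    by_cases hy : y ∈ D.Sin φ c
    · right
      have := degPgY D hD φ hG c y hy
      have h2 : (D.t : ℝ) ^ 17 ≤ (dgY (D.Pg φ c) y : ℝ) := hpow.trans this
      exact_mod_cast h2
    · exact Or.inl (h0Y y hy)
  have hA' : ∀ x ∈ A, dgX (D.Pg φ c) x ≠ 0 := by
    intro x hx h0
    have := degPgX D hD φ hG c x (hA x hx)
    rw [h0] at this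
    norm_num at this
    linarith
  have hN' : ∀ y ∈ N, dgY (D.Pg φ c) y ≠ 0 := by
    intro y hy h0
    have := degPgY D hD φ hG c y (hN hy)
    rw [h0] at this
    norm_num at this
    linarith
  obtain ⟨T, hT1, hT2, hT3⟩ := cert hD.big hD.rng D.H (D.Pg φ c) hsub hX hY A N hA' hN'
  have hn0 : (0 : ℝ) < Nτ D.n := by
    obtain ⟨hn1, _⟩ := ctx_n D hD
    have : (0 : ℝ) < D.n := lt_of_lt_of_le (by positivity) hn1
    unfold Nτ
    push_cast
    positivity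
  refine ⟨T, by exact_mod_cast hT1, ?_, ?_⟩
  · have hsx : ∀ x ∈ symmDiff A (cX (D.Pg φ c) D.n T), D.q / 2 ≤ (dgX (D.Pg φ c) x : ℝ) := by
      intro x hx
      apply degPgX D hD φ hG c x
      rw [Finset.mem_symmDiff] at hx
      rcases hx with ⟨h1, _⟩ | ⟨h1, _⟩
      · exact hA x h1
      · intro hO
        have h2 := (Finset.mem_filter.mp h1).2
        rw [pT_isolX (D.Pg φ c) rW (by norm_num [rW]) T x (h0X x hO)] at h2
        norm_num at h2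
    have hsy : ∀ y ∈ symmDiff N (cY (D.Pg φ c) D.n T), D.q / 2 ≤ (dgY (D.Pg φ c) y : ℝ) := by
      intro y hy
      apply degPgY D hD φ hG c y
      rw [Finset.mem_symmDiff] at hy
      rcases hy with ⟨h1, _⟩ | ⟨h1, _⟩
      · exact hN h1
      · by_contra hO
        have h2 := (Finset.mem_filter.mp h1).2
        rw [pT_isolY (D.Pg φ c) rW (by norm_num [rW]) T y (h0Y y hO)] at h2
        norm_num at h2
    have e1 : ((symmDiff A (cX (D.Pg φ c) D.n T)).card : ℝ) * (D.q / 2)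
        ≤ ∑ x ∈ symmDiff A (cX (D.Pg φ c) D.n T), (dgX (D.Pg φ c) x : ℝ) := by
      have := Finset.card_nsmul_le_sum _ _ _ hsx
      simpa [nsmul_eq_mul] using this
    have e2 : ((symmDiff N (cY (D.Pg φ c) D.n T)).card : ℝ) * (D.q / 2)
        ≤ ∑ y ∈ symmDiff N (cY (D.Pg φ c) D.n T), (dgY (D.Pg φ c) y : ℝ) := by
      have := Finset.card_nsmul_le_sum _ _ _ hsy
      simpa [nsmul_eq_mul] using this
    have e3 : (∑ x ∈ symmDiff A (cX (D.Pg φ c) D.n T), (dgX (D.Pg φ c) x : ℝ)) +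
        ∑ y ∈ symmDiff N (cY (D.Pg φ c) D.n T), (dgY (D.Pg φ c) y : ℝ) ≤
        16 * 1000 * (bd (D.Pg φ c) A N : ℝ) := by
      have h := hT2
      unfold rW at h
      exact_mod_cast h
    nlinarith
  · have h := hT3
    unfold rW at h
    have h2 : ((cX (D.Pg φ c) D.n T).card : ℝ) + ((cY (D.Pg φ c) D.n T).card : ℝ)
        ≤ (A.card : ℝ) + N.card + 16 * 1000 * (bd (D.Pg φ c) A N : ℝ) := by exact_mod_cast h
    linarith

theorem crossY (hD : CtxOK D) (φ : D.Lbl) (hG : D.Good φ) (c : Fin D.B) (Rem : Finset X) (hRem : ∀ y, eB D.H.G Rem {y} ≤ D.vZ φ c y) (A : Finset X) (N : Finset Y)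
    (hA : A ⊆ D.xo c Rem) (hN : N ⊆ D.Sc φ c) (hne : A.Nonempty) (h2 : 2 * A.card ≤ Fintype.card X)
    (hNA : N.card ≤ 4 * A.card)
    (hP : eta D.t * (bd (D.Pg φ c) A N : ℝ) ≤ D.theta * (bd (D.FS φ c) A N : ℝ) / (D.t : ℝ) ^ 3)
    (hF : (bd (D.FS φ c) A N : ℝ) ≤ 8 * (eB (D.FS φ c) (D.xo c Rem \ A) N : ℝ)) :
    ∃ e ∈ D.Rc φ c, e.1 ∈ D.xo c Rem \ A ∧ e.2 ∈ N := by
  classical
  obtain ⟨ht, hεt, hε, _⟩ := ctx_t D hD
  have ht0 : (0 : ℝ) < D.t := lt_of_lt_of_le (by positivity) ht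
  have ht1 : (1 : ℝ) ≤ D.t := le_trans (by norm_num) ht
  obtain ⟨hn1, hn2⟩ := ctx_n D hD
  have hn0 : (0 : ℝ) < D.n := lt_of_lt_of_le (by positivity) hn1
  obtain ⟨hθ1, hθ2, hθ0, hθle, hθn, _, _⟩ := ctx_theta D hD
  obtain ⟨hq1, hq2, hq3⟩ := ctx_q D hD
  obtain ⟨hFX, hFY, hηκ, hη0, hη1⟩ := ctx_F D hD
  obtain ⟨hκ50, _, _, _⟩ := ctx_deg D hD
  have hκ0 : (0 : ℝ) ≤ D.κ := by positivity
  have hη : eta D.t * (D.t : ℝ) ^ 21 = 1 := by
    unfold eta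
    field_simp
  have hAO : ∀ x ∈ A, x ∉ D.O.OX c := fun x hx => (Finset.mem_filter.mp (hA hx)).2.1
  have hNS : N ⊆ D.Sin φ c := fun y hy => (mem_Sc D φ c y (hN hy)).2.1
  obtain ⟨T, hT1, hT2, hT3⟩ := certPg14 D hD φ hG c A N hAO hNS
  set CX := cX (D.Pg φ c) D.n T with hCX
  set CY := cY (D.Pg φ c) D.n T with hCY
  set b : ℝ := (bd (D.FS φ c) A N : ℝ) with hb
  set p : ℝ := (bd (D.Pg φ c) A N : ℝ) with hp
  set Δ : ℝ := ((symmDiff A CX).card : ℝ) + ((symmDiff N CY).card : ℝ) with hΔ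
  have hA0 : (1 : ℝ) ≤ A.card := by exact_mod_cast hne.card_pos
  have hlow := betaLow D hD φ hG c A N h2
  rw [← hb] at hlow
  have hb0 : 0 < b := by
    have : 0 < eta D.t * (A.card : ℝ) := by positivity
    nlinarith
  obtain ⟨hn1', hn2', hn3'⟩ := nums14 (ε := D.ε) (t := D.t) (η := eta D.t) (κ := D.κ) (θ := D.theta) (q := D.q)
    (b := b) (p := p) (Δ := Δ) ht hεt hε hη hη0 hb0.le hθ0 hκ0 hP hq1 hq3 (by positivity) hT2
  -- |A| ≤ 10^15 b t^21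
  have hAb : (A.card : ℝ) ≤ 10 ^ 15 * (b * (D.t : ℝ) ^ 21) := by
    have h1 : eta D.t * A.card * (D.t : ℝ) ^ 21 ≤ 10 ^ 15 * b * (D.t : ℝ) ^ 21 :=
      mul_le_mul_of_nonneg_right hlow (by positivity)
    have h3 : eta D.t * (A.card : ℝ) * (D.t : ℝ) ^ 21 = (A.card : ℝ) := by
      calc eta D.t * (A.card : ℝ) * (D.t : ℝ) ^ 21 = (A.card : ℝ) * (eta D.t * (D.t : ℝ) ^ 21) := by ring
        _ = (A.card : ℝ) := by rw [hη, mul_one]
    rw [h3] at h1
    linarith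
  have hNA' : (N.card : ℝ) ≤ 4 * A.card := by exact_mod_cast hNA
  -- the set of reserve edges
  set f : ℝ := ((D.F.filter (fun e => e.1 ∉ CX ∧ e.1 ∉ D.O.OX c ∧
    e.2 ∈ D.Sin φ c ∧ e.2 ∈ CY ∧ D.slot φ c e.2 < D.s + 1)).card : ℝ) with hf
  have hdegX : ∀ x, (dgX (D.FS φ c) x : ℝ) ≤ 12 / 10 * (eta D.t * D.κ) := by
    intro x
    obtain ⟨_, h, _, _⟩ := degFS D hD φ hG c x
    rw [degFSX D φ c x]
    have : 0 ≤ eta D.t * D.κ := by positivity
    linarith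
  have hdegY : ∀ y, (dgY (D.FS φ c) y : ℝ) ≤ 12 / 10 * (eta D.t * D.κ) := by
    intro y
    have h0 : 0 ≤ eta D.t * D.κ := by positivity
    rw [degFSY D φ c y]
    split_ifs with h
    · have := (hFY y).2
      linarith
    · simp only [Nat.cast_zero]; positivity
  have hfb : b / 9 ≤ f := by
    have h1 : eB (D.FS φ c) (D.xo c Rem \ A) N ≤ (D.F.filter (fun e => e.1 ∉ CX ∧ e.1 ∉ D.O.OX c ∧
        e.2 ∈ D.Sin φ c ∧ e.2 ∈ CY ∧ D.slot φ c e.2 < D.s + 1)).card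
        + (((D.FS φ c).filter (fun e => e.1 ∈ symmDiff A CX)).card
          + ((D.FS φ c).filter (fun e => e.2 ∈ symmDiff N CY)).card) := by
      unfold eB
      refine le_trans (Finset.card_le_card (t := (D.F.filter (fun e => e.1 ∉ CX ∧ e.1 ∉ D.O.OX c ∧
        e.2 ∈ D.Sin φ c ∧ e.2 ∈ CY ∧ D.slot φ c e.2 < D.s + 1)) ∪
        (((D.FS φ c).filter (fun e => e.1 ∈ symmDiff A CX)) ∪
          ((D.FS φ c).filter (fun e => e.2 ∈ symmDiff N CY)))) ?_) ?_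
      · intro e he
        obtain ⟨he1, he2, he3⟩ := Finset.mem_filter.mp he
        obtain ⟨hx1, hx2⟩ := Finset.mem_sdiff.mp he2
        have hFS := he1
        obtain ⟨hef, heS⟩ := Finset.mem_filter.mp he1
        by_cases hxc : e.1 ∈ CX
        · refine Finset.mem_union_right _ (Finset.mem_union_left _ ?_)
          exact Finset.mem_filter.mpr ⟨hFS, Finset.mem_symmDiff.mpr (Or.inr ⟨hxc, hx2⟩)⟩
        · by_cases hyc : e.2 ∈ CY
          · refine Finset.mem_union_left _ (Finset.mem_filter.mpr ⟨hef, hxc, (Finset.mem_filter.mp hx1).2.1,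
              hNS he3, hyc, slot_lt D hD φ hG c e.2 (Or.inl (hNS he3))⟩)
          · refine Finset.mem_union_right _ (Finset.mem_union_right _ ?_)
            exact Finset.mem_filter.mpr ⟨hFS, Finset.mem_symmDiff.mpr (Or.inl ⟨he3, hyc⟩)⟩
      · refine (Finset.card_union_le _ _).trans ?_
        have := Finset.card_union_le ((D.FS φ c).filter (fun e => e.1 ∈ symmDiff A CX))
          ((D.FS φ c).filter (fun e => e.2 ∈ symmDiff N CY))
        omega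
    rw [card_X14, card_Y14] at h1
    have h3 : ((∑ x ∈ symmDiff A CX, dgX (D.FS φ c) x : ℕ) : ℝ)
        ≤ ((symmDiff A CX).card : ℝ) * (12 / 10 * (eta D.t * D.κ)) := by
      push_cast
      have := Finset.sum_le_card_nsmul (symmDiff A CX) (fun x => (dgX (D.FS φ c) x : ℝ)) _ (fun x _ => hdegX x)
      simpa [nsmul_eq_mul] using this
    have h4 : ((∑ y ∈ symmDiff N CY, dgY (D.FS φ c) y : ℕ) : ℝ)
        ≤ ((symmDiff N CY).card : ℝ) * (12 / 10 * (eta D.t * D.κ)) := by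
      push_cast
      have := Finset.sum_le_card_nsmul (symmDiff N CY) (fun y => (dgY (D.FS φ c) y : ℝ)) _ (fun y _ => hdegY y)
      simpa [nsmul_eq_mul] using this
    have h5 : (eB (D.FS φ c) (D.xo c Rem \ A) N : ℝ) ≤ f + (((∑ x ∈ symmDiff A CX, dgX (D.FS φ c) x : ℕ) : ℝ)
        + ((∑ y ∈ symmDiff N CY, dgY (D.FS φ c) y : ℕ) : ℝ)) := by
      rw [hf]; exact_mod_cast h1
    have h6 : ((symmDiff A CX).card : ℝ) * (12 / 10 * (eta D.t * D.κ)) +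
        ((symmDiff N CY).card : ℝ) * (12 / 10 * (eta D.t * D.κ)) = 12 / 10 * (eta D.t * D.κ * Δ) := by
      rw [hΔ]; ring
    linarith
  have hf0 : 0 < f := lt_of_lt_of_le (by positivity) hfb
  -- size of T
  have hNT : (Nτ D.n : ℝ) * T.card ≤ 10 * A.card := by linarith
  have hpn : (D.t : ℝ) ^ 200 ≤ D.n := hn1
  have h17 : (10 : ℝ) ^ 17 ≤ D.t := le_trans (by norm_num) ht
  have hn3 : 10 ^ 17 * (D.t : ℝ) ^ 21 ≤ (D.n : ℝ) := by
    calc 10 ^ 17 * (D.t : ℝ) ^ 21 ≤ D.t * (D.t : ℝ) ^ 21 := mul_le_mul_of_nonneg_right h17 (by positivity)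
      _ = (D.t : ℝ) ^ 22 := by ring
      _ ≤ (D.t : ℝ) ^ 200 := pow_le_pow_right₀ ht1 (by norm_num)
      _ ≤ D.n := hn1
  have hn1r : (1 : ℝ) ≤ D.n := le_trans (one_le_pow₀ ht1) hn1
  have hbig : (Nτ D.n : ℝ) * T.card ≤ (D.n : ℝ) ^ 3 * f := by
    have h1 : 10 * (A.card : ℝ) ≤ b / 9 * (10 ^ 17 * (D.t : ℝ) ^ 21) := by
      have : 0 ≤ b * (D.t : ℝ) ^ 21 := by positivity
      nlinarith
    have h3 : b / 9 * (10 ^ 17 * (D.t : ℝ) ^ 21) ≤ f * D.n :=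
      mul_le_mul hfb hn3 (by positivity) hf0.le
    have h4 : (D.n : ℝ) ≤ (D.n : ℝ) ^ 3 := le_self_pow₀ hn1r (by norm_num)
    have h5 : f * D.n ≤ (D.n : ℝ) ^ 3 * f := by nlinarith
    linarith
  have hmac := hG.mac T
  have hm6 : ¬ D.mac6Y φ T c := fun h => hmac (Or.inr (Or.inr ⟨c, (Or.inr (Or.inr (Or.inr (Or.inr (Or.inr (Or.inr (Or.inr (Or.inr (Or.inr (Or.inr (Or.inr (Or.inl h))))))))))))⟩))
  have hm7 : ¬ D.mac7Y φ T c := fun h => hmac (Or.inr (Or.inr ⟨c, (Or.inr (Or.inr (Or.inr (Or.inr (Or.inr (Or.inr (Or.inr (Or.inr (Or.inr (Or.inr (Or.inr (Or.inr (Or.inr h)))))))))))))⟩))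
  have hR : D.theta * f ≤ 2 * (((D.Rg φ c).filter (fun e => e.1 ∉ CX ∧ e.2 ∈ CY)).card : ℝ) := by
    by_contra hlt
    push Not at hlt
    exact hm6 ⟨hbig, hlt⟩
  have hV : ∑ y ∈ CY, (D.vZ φ c y : ℝ) ≤ lam D.n * szT (D.Pg φ c) D.n T := by
    by_contra hlt
    push Not at hlt
    exact hm7 hlt
  -- the free vertices
  have hsz : lam D.n * szT (D.Pg φ c) D.n T ≤ D.theta * b / 1000 := by
    have h1 : szT (D.Pg φ c) D.n T ≤ 15 * A.card + 16000 * p := by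
      unfold szT
      rw [← hCX, ← hCY]
      linarith
    have h3 : 15 * (A.card : ℝ) + 16000 * p ≤ 10 ^ 17 * (b * (D.t : ℝ) ^ 21) := by
      have h4 : p ≤ b * (D.t : ℝ) ^ 21 := by
        calc p ≤ D.theta * b * (D.t : ℝ) ^ 18 := hn3'
          _ ≤ 1 * b * (D.t : ℝ) ^ 21 := by
              apply mul_le_mul
              · exact mul_le_mul_of_nonneg_right hθle hb0.le
              · exact pow_le_pow_right₀ ht1 (by norm_num)
              · positivity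
              · linarith
          _ = b * (D.t : ℝ) ^ 21 := by ring
      have : 0 ≤ b * (D.t : ℝ) ^ 21 := by positivity
      nlinarith
    have h5 : 10 ^ 17 * (b * (D.t : ℝ) ^ 21) ≤ b * D.n := by
      have := mul_le_mul_of_nonneg_left hn3 hb0.le
      linarith
    have hlam0 : 0 ≤ lam D.n := by unfold lam; positivity
    have h6 : lam D.n * szT (D.Pg φ c) D.n T ≤ lam D.n * (b * D.n) :=
      mul_le_mul_of_nonneg_left (by linarith) hlam0
    have h7 : lam D.n * (b * D.n) = b / (D.n : ℝ) ^ 5 := by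
      unfold lam
      field_simp
    rw [h7] at h6
    refine h6.trans ?_
    rw [div_le_div_iff₀ (by positivity) (by norm_num)]
    have h8 : (1000 : ℝ) ≤ D.theta * (D.n : ℝ) ^ 5 := by
      have h9 : (D.t : ℝ) ^ 20 / (4 * D.n) * (D.n : ℝ) ^ 5 ≤ D.theta * (D.n : ℝ) ^ 5 :=
        mul_le_mul_of_nonneg_right hθn (by positivity)
      have h10 : (D.t : ℝ) ^ 20 / (4 * D.n) * (D.n : ℝ) ^ 5 = (D.t : ℝ) ^ 20 * (D.n : ℝ) ^ 4 / 4 := by
        field_simp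
      rw [h10] at h9
      have h11 : (1 : ℝ) ≤ (D.n : ℝ) ^ 4 := one_le_pow₀ hn1r
      have h12 : (4000 : ℝ) ≤ (D.t : ℝ) ^ 20 := by
        calc (4000 : ℝ) ≤ D.t := le_trans (by norm_num) ht
          _ ≤ (D.t : ℝ) ^ 20 := le_self_pow₀ ht1 (by norm_num)
      have h13 : (4000 : ℝ) * 1 ≤ (D.t : ℝ) ^ 20 * (D.n : ℝ) ^ 4 :=
        mul_le_mul h12 h11 (by norm_num) (by positivity)
      linarith
    calc b * 1000 ≤ b * (D.theta * (D.n : ℝ) ^ 5) := mul_le_mul_of_nonneg_left h8 hb0.le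
      _ = D.theta * b * (D.n : ℝ) ^ 5 := by ring
  -- conclusion
  by_contra hno
  push Not at hno
  obtain ⟨hrx, hry⟩ := degRg D hD φ hG c
  have hcount : ((D.Rg φ c).filter (fun e => e.1 ∉ CX ∧ e.2 ∈ CY)).card ≤
      ((D.Rg φ c).filter (fun e => e.1 ∈ symmDiff A CX)).card
        + (((D.Rg φ c).filter (fun e => e.2 ∈ symmDiff N CY)).card + eB D.H.G Rem CY) := by
    refine le_trans (Finset.card_le_card (t := ((D.Rg φ c).filter (fun e => e.1 ∈ symmDiff A CX)) ∪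
        (((D.Rg φ c).filter (fun e => e.2 ∈ symmDiff N CY)) ∪
          (D.H.G.filter (fun e => e.1 ∈ Rem ∧ e.2 ∈ CY)))) ?_) ?_
    · intro e he
      obtain ⟨he1, he2, he3⟩ := Finset.mem_filter.mp he
      obtain ⟨hef, heO, heS, hown⟩ := Finset.mem_filter.mp he1
      by_cases hxA : e.1 ∈ A
      · exact Finset.mem_union_left _ (Finset.mem_filter.mpr ⟨he1, Finset.mem_symmDiff.mpr (Or.inl ⟨hxA, he2⟩)⟩)
      · by_cases hyN : e.2 ∈ N
        · refine Finset.mem_union_right _ (Finset.mem_union_right _ ?_)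
          refine Finset.mem_filter.mpr ⟨hD.res.sub hef, ?_, he3⟩
          by_contra hRm
          have hxo : e.1 ∈ D.xo c Rem \ A :=
            Finset.mem_sdiff.mpr ⟨Finset.mem_filter.mpr ⟨Finset.mem_univ _, heO, hRm⟩, hxA⟩
          exact hno e (Finset.mem_filter.mpr ⟨hef, heO, hN hyN, hown⟩) hxo hyN
        · refine Finset.mem_union_right _ (Finset.mem_union_left _ ?_)
          exact Finset.mem_filter.mpr ⟨he1, Finset.mem_symmDiff.mpr (Or.inr ⟨he3, hyN⟩)⟩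
    · refine (Finset.card_union_le _ _).trans ?_
      have := Finset.card_union_le ((D.Rg φ c).filter (fun e => e.2 ∈ symmDiff N CY))
        (D.H.G.filter (fun e => e.1 ∈ Rem ∧ e.2 ∈ CY))
      unfold eB
      omega
  rw [card_X14, card_Y14, eB_sumY D.H.G Rem CY] at hcount
  have c1 : ((∑ x ∈ symmDiff A CX, dgX (D.Rg φ c) x : ℕ) : ℝ) ≤ ((symmDiff A CX).card : ℝ) * D.t := by
    have := Finset.sum_le_card_nsmul (symmDiff A CX) (fun x => dgX (D.Rg φ c) x) D.t (fun x _ => hrx x)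
    have h3 : ∑ x ∈ symmDiff A CX, dgX (D.Rg φ c) x ≤ (symmDiff A CX).card * D.t := by
      simpa [smul_eq_mul] using this
    exact_mod_cast h3
  have c2 : ((∑ y ∈ symmDiff N CY, dgY (D.Rg φ c) y : ℕ) : ℝ) ≤ ((symmDiff N CY).card : ℝ) * D.t := by
    have := Finset.sum_le_card_nsmul (symmDiff N CY) (fun y => dgY (D.Rg φ c) y) D.t (fun y _ => hry y)
    have h3 : ∑ y ∈ symmDiff N CY, dgY (D.Rg φ c) y ≤ (symmDiff N CY).card * D.t := by
      simpa [smul_eq_mul] using this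
    exact_mod_cast h3
  have c3 : ((∑ y ∈ CY, eB D.H.G Rem {y} : ℕ) : ℝ) ≤ D.theta * b / 1000 := by
    refine le_trans ?_ (hV.trans hsz)
    push_cast
    exact Finset.sum_le_sum fun y _ => by exact_mod_cast hRem y
  have c4 : (((D.Rg φ c).filter (fun e => e.1 ∉ CX ∧ e.2 ∈ CY)).card : ℝ) ≤
      ((∑ x ∈ symmDiff A CX, dgX (D.Rg φ c) x : ℕ) : ℝ) + (((∑ y ∈ symmDiff N CY, dgY (D.Rg φ c) y : ℕ) : ℝ)
        + ((∑ y ∈ CY, eB D.H.G Rem {y} : ℕ) : ℝ)) := by exact_mod_cast hcount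
  have c5 : ((symmDiff A CX).card : ℝ) * D.t + ((symmDiff N CY).card : ℝ) * D.t = D.t * Δ := by
    rw [hΔ]; ring
  have c6 : D.theta * (b / 9) ≤ D.theta * f := mul_le_mul_of_nonneg_left hfb hθ0.le
  have c7 : 0 < D.theta * b := mul_pos hθ0 hb0
  nlinarith

end Pool.SCDH
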