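import Pool.Agent.Lib.SCDH.MDefs
import Pool.Agent.Lib.SCDH.G01
import Pool.Agent.Lib.SCDH.G02
import Pool.Agent.Lib.SCDH.G03
import Pool.Agent.Lib.SCDH.G04
import Pool.Agent.Lib.SCDH.N01
import Pool.Agent.Lib.SCDH.K01
import Pool.Agent.Lib.SCDH.K02
import Pool.Agent.Lib.SCDH.K03
import Pool.Agent.Lib.SCDH.D02
import Pool.Agent.Lib.SCDH.D06
import Pool.Agent.Lib.SCDH.D08
import Pool.Agent.Lib.SCDH.D09
import Pool.Agent.Lib.SCDH.D10
import Pool.Agent.Lib.SCDH.D11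
import Pool.Agent.Lib.SCDH.D14
import Pool.Agent.Lib.SCDH.D15

/-!
# Row D17 (paper scd_h36.md)
Hall, case II (complement small).
First |N| ≤ 4|A|: every y ∈ N has eB Pc xo {y} ≥ 7q/8 - vZ y ≥ 7q/8 - t ≥ q/2 private edges (degPcY, ¬ bY5), all of them into A (hE), and every x ∈ A has ≤ 9q/8: |N| q/2 ≤ 9q/8 |A|; in particular A is not empty. Recipe: D15.bal for Γ = Pc, X1 = xo, S = Sc, q: with e(forbidden direction) = 0 the other one is ≤ |Σ_A(..)| + |Σ_N(..)| ≤ 2 θβ/(η t^4) (K1X, K1Y; q(|A|-|N|) has the good sign). bdPg + E5X + E5Y: η bd Pg ≤ 2θβ/t^4 + (10^14+10^16) tβ/κ ≤ θβ/t^3 (θκ ≥ t^20/4). D15.bal for Γ = F, q = qF: e_F(forbidden) ≥ e_F(other) - 2β/t^4; with FS_bd, E3o, E5Y: 2 e_F(forbidden) ≥ β - 2β/t^4 - 10^23 t^-5 β - ... ≥ β/2, so 8 e_F(forbidden) ≥ β. Here the forbidden direction is xo∖A → N; crossY gives an edge of Rc: contradiction.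
-/

set_option linter.unusedSectionVars false
set_option linter.unusedVariables false

namespace Pool.SCDH

open Finset Pool.MP_0ccee8_co.Lib2

variable {X Y : Type} [Fintype X] [DecidableEq X] [Fintype Y] [DecidableEq Y]
variable (D : Ctx X Y)

private lemma eB_zero_of {Γ : Finset (X × Y)} {A : Finset X} {N : Finset Y}
    (h : ∀ e ∈ Γ, e.1 ∈ A → e.2 ∉ N) : eB Γ A N = 0 := by
  unfold eB
  rw [Finset.card_eq_zero, Finset.filter_eq_empty_iff]
  rintro e he ⟨h1, h2⟩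
  exact h e he h1 h2

private lemma step1 (hD : CtxOK D) (φ : D.Lbl) (hG : D.Good φ) (c : Fin D.B) (Rem : Finset X)
    (hRem : ∀ y, eB D.H.G Rem {y} ≤ D.vZ φ c y)
    (A : Finset X) (N : Finset Y) (hA : A ⊆ D.xo c Rem) (hN : N ⊆ D.Sc φ c)
    (hE : ∀ e ∈ D.Pc φ c, e.1 ∈ D.xo c Rem \ A → e.2 ∉ N) : N.card ≤ 4 * A.card := by
  obtain ⟨hq19, hq0⟩ := q_large D hD
  obtain ⟨ht, -, -, -⟩ := ctx_t D hD
  have ht0 : (0 : ℝ) < D.t := lt_of_lt_of_le (by positivity) ht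
  -- one vertex of N
  have h1 : ∀ y ∈ N, D.q / 2 ≤ (eB (D.Pc φ c) A {y} : ℝ) := by
    intro y hy
    have hdeg := (abs_le.mp (degPcY D hD φ hG c y (hN hy))).1
    have hsub : (D.Pc φ c).filter (fun e => e.1 ∈ (univ : Finset X) ∧ e.2 ∈ ({y} : Finset Y)) ⊆
        (D.Pc φ c).filter (fun e => e.1 ∈ A ∧ e.2 ∈ ({y} : Finset Y)) ∪
        (D.Pc φ c).filter (fun e => e.1 ∈ Rem ∧ e.2 ∈ ({y} : Finset Y)) := by
      intro e he
      rw [Finset.mem_filter] at he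
      obtain ⟨he1, -, he2⟩ := he
      rw [Finset.mem_union, Finset.mem_filter, Finset.mem_filter]
      by_cases hR : e.1 ∈ Rem
      · exact Or.inr ⟨he1, hR, he2⟩
      · left
        refine ⟨he1, ?_, he2⟩
        have hO : e.1 ∉ D.O.OX c := by
          have := he1
          simp only [Ctx.Pc, Ctx.Pv, Finset.mem_filter] at this
          exact this.2.1
        have hx : e.1 ∈ D.xo c Rem := by
          simp only [Ctx.xo, Finset.mem_filter, Finset.mem_univ, true_and]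
          exact ⟨hO, hR⟩
        by_contra hnA
        refine hE e he1 (Finset.mem_sdiff.mpr ⟨hx, hnA⟩) ?_
        rw [Finset.mem_singleton] at he2
        rw [he2]
        exact hy
    have h2 : dgY (D.Pc φ c) y ≤ eB (D.Pc φ c) A {y} + eB (D.Pc φ c) Rem {y} := by
      unfold dgY eB
      exact (Finset.card_le_card hsub).trans (Finset.card_union_le _ _)
    have hPG : D.Pc φ c ⊆ D.H.G := (Finset.filter_subset _ _).trans hD.bulk.sub
    have h3 : eB (D.Pc φ c) Rem {y} ≤ D.t := by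
      have h4 := eB_mono (D.Pc φ c) D.H.G hPG Rem Rem (Finset.Subset.refl _) {y} {y}
        (Finset.Subset.refl _)
      have h5 : D.vZ φ c y ≤ D.t := by
        by_contra hlt
        refine hG.loc (.inr y) ?_
        exact Or.inr (Or.inr (Or.inr ⟨c, Or.inr (not_le.mp hlt)⟩))
      exact h4.trans ((hRem y).trans h5)
    have h2' : (dgY (D.Pc φ c) y : ℝ) ≤ eB (D.Pc φ c) A {y} + (D.t : ℝ) := by
      have : dgY (D.Pc φ c) y ≤ eB (D.Pc φ c) A {y} + D.t := by omega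
      exact_mod_cast this
    have h6 : (D.t : ℝ) ≤ D.q / 8 := by
      have h7 : (8 : ℝ) * D.t ≤ (D.t : ℝ) ^ 19 := by
        have h8 : (D.t : ℝ) ^ 19 = (D.t : ℝ) ^ 18 * D.t := by ring
        rw [h8]
        have h9 : (8 : ℝ) ≤ (D.t : ℝ) ^ 18 := by
          have h10 : (8 : ℝ) ≤ D.t := le_trans (by norm_num) ht
          have h11 : (D.t : ℝ) ≤ (D.t : ℝ) ^ 18 := by
            apply le_self_pow₀ (by linarith) (by norm_num)
          linarith
        nlinarith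
      linarith
    linarith
  have h2 : (N.card : ℝ) * (D.q / 2) ≤ (eB (D.Pc φ c) A N : ℝ) := by
    rw [eB_sumY]
    push_cast
    rw [← nsmul_eq_mul, ← Finset.sum_const]
    exact Finset.sum_le_sum h1
  have h3 : (eB (D.Pc φ c) A N : ℝ) ≤ A.card * (9 / 8 * D.q) := by
    rw [eB_sumX]
    push_cast
    rw [← nsmul_eq_mul, ← Finset.sum_const]
    refine Finset.sum_le_sum fun x hx => ?_
    have hO : x ∉ D.O.OX c := by
      have := hA hx
      simp only [Ctx.xo, Finset.mem_filter, Finset.mem_univ, true_and] at this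
      exact this.1
    have hdeg := (abs_le.mp (degPcX D hD φ hG c x hO)).2
    have h4 : (eB (D.Pc φ c) {x} N : ℝ) ≤ dgX (D.Pc φ c) x := by
      have := eB_mono (D.Pc φ c) (D.Pc φ c) (Finset.Subset.refl _) {x} {x}
        (Finset.Subset.refl _) N univ (Finset.subset_univ _)
      exact_mod_cast this
    linarith
  have h4 : (N.card : ℝ) * (D.q / 2) ≤ A.card * (9 / 8 * D.q) := h2.trans h3
  have h5 : (N.card : ℝ) ≤ 4 * A.card := by
    by_contra hlt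
    push Not at hlt
    have h6 : (A.card : ℝ) ≥ 0 := Nat.cast_nonneg _
    nlinarith
  exact_mod_cast h5

theorem hall_II (hD : CtxOK D) (φ : D.Lbl) (hG : D.Good φ) (c : Fin D.B) (Rem : Finset X) (hRem : ∀ y, eB D.H.G Rem {y} ≤ D.vZ φ c y)
    (A : Finset X) (N : Finset Y) (hA : A ⊆ D.xo c Rem) (hN : N ⊆ D.Sc φ c) (h2 : 2 * A.card ≤ Fintype.card X)
    (hlt : A.card < N.card) (hE : ∀ e ∈ D.Pc φ c ∪ D.Rc φ c, e.1 ∈ D.xo c Rem \ A → e.2 ∉ N) : False := by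
  have hEP : ∀ e ∈ D.Pc φ c, e.1 ∈ D.xo c Rem \ A → e.2 ∉ N :=
    fun e he => hE e (Finset.mem_union_left _ he)
  have hNA : N.card ≤ 4 * A.card := step1 D hD φ hG c Rem hRem A N hA hN hEP
  have hAne : A.Nonempty := by
    rw [← Finset.card_pos]
    omega
  have hAO : ∀ x ∈ A, x ∉ D.O.OX c := by
    intro x hx
    have := hA hx
    simp only [Ctx.xo, Finset.mem_filter, Finset.mem_univ, true_and] at this
    exact this.1
  obtain ⟨ht, -, -, -⟩ := ctx_t D hD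
  have ht0 : (0 : ℝ) < D.t := lt_of_lt_of_le (by positivity) ht
  obtain ⟨hθκ, -, hθ0, hθ1, -, -, -⟩ := ctx_theta D hD
  obtain ⟨-, -, hηκ, hη0, hη1⟩ := ctx_F D hD
  obtain ⟨hκ50, -, -, -⟩ := ctx_deg D hD
  have hκ0 : (0 : ℝ) < D.κ := lt_of_lt_of_le (by positivity) hκ50
  obtain ⟨-, hq0⟩ := q_large D hD
  set β : ℝ := (bd (D.FS φ c) A N : ℝ) with hβ
  have hβ0 : 0 ≤ β := Nat.cast_nonneg _
  have hcard : (A.card : ℝ) - N.card ≤ 0 := by
    have : (A.card : ℝ) < N.card := by exact_mod_cast hlt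
    linarith
  -- private graph
  have hzero : eB (D.Pc φ c) (D.xo c Rem \ A) N = 0 := eB_zero_of hEP
  have hb := bal (D.Pc φ c) (D.xo c Rem) (D.Sc φ c) A N hA hN D.q
  simp only [hzero, Nat.cast_zero, sub_zero, Pc_deg] at hb
  have hK1 := K1X D hD φ hG c A N h2 hN hAO hNA
  have hK2 := K1Y D hD φ hG c A N h2 hN hAO hNA Rem hRem
  rw [← hβ] at hK1 hK2
  have hPcA : eta D.t * (eB (D.Pc φ c) A (D.Sc φ c \ N) : ℝ) ≤ 2 * (D.theta * β / (D.t : ℝ) ^ 4) := by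
    have h3 : (eB (D.Pc φ c) A (D.Sc φ c \ N) : ℝ) ≤
        |∑ x ∈ A, ((dgX (D.Pc φ c) x : ℝ) - D.q)| +
        |∑ y ∈ N, ((eB (D.Pc φ c) (D.xo c Rem) {y} : ℝ) - D.q)| := by
      rw [hb]
      have h4 := le_abs_self (∑ x ∈ A, ((dgX (D.Pc φ c) x : ℝ) - D.q))
      have h5 := neg_abs_le (∑ y ∈ N, ((eB (D.Pc φ c) (D.xo c Rem) {y} : ℝ) - D.q))
      have h6 : D.q * ((A.card : ℝ) - N.card) ≤ 0 :=
        mul_nonpos_of_nonneg_of_nonpos hq0.le hcard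
      linarith
    calc eta D.t * (eB (D.Pc φ c) A (D.Sc φ c \ N) : ℝ)
        ≤ eta D.t * (|∑ x ∈ A, ((dgX (D.Pc φ c) x : ℝ) - D.q)| +
          |∑ y ∈ N, ((eB (D.Pc φ c) (D.xo c Rem) {y} : ℝ) - D.q)|) :=
          mul_le_mul_of_nonneg_left h3 hη0.le
      _ ≤ _ := by rw [mul_add]; linarith
  have h5X := E5X D hD φ hG c A N h2 hN
  have h5Y := E5Y D hD φ hG c A N h2 hN
  rw [← hβ] at h5X h5Y
  set ZX : ℝ := ∑ x ∈ A, (eB D.H.G {x} (D.Zs φ c) : ℝ) with hZX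
  set ZY : ℝ := ∑ y ∈ N, (D.vZ φ c y : ℝ) with hZY
  have hbdPg : (bd (D.Pg φ c) A N : ℝ) ≤ (eB (D.Pc φ c) A (D.Sc φ c \ N) : ℝ) + ZX + ZY := by
    have h3 := bdPg D hD.bulk.sub φ c Rem hRem A N hA hN
    rw [hzero, add_zero] at h3
    rw [hZX, hZY]
    exact_mod_cast h3
  have hκinv : (1 : ℝ) ≤ D.κ * (4 * D.theta / (D.t : ℝ) ^ 20) := by
    have h3 : (D.t : ℝ) ^ 20 / 4 ≤ D.theta * D.κ := hθκ
    have ht20 : (0 : ℝ) < (D.t : ℝ) ^ 20 := by positivity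
    rw [mul_div_assoc', le_div_iff₀ ht20]
    linarith
  have hsmall : (D.t : ℝ) ^ 20 = (D.t : ℝ) ^ 16 * (D.t : ℝ) ^ 4 := by ring
  have hP : eta D.t * (bd (D.Pg φ c) A N : ℝ) ≤ D.theta * β / (D.t : ℝ) ^ 3 := by
    -- η (ZX + ZY) ≤ (10^14 + 10^16) t β / κ
    have h3 : D.κ * (eta D.t * (ZX + ZY)) ≤ (10 ^ 14 + 10 ^ 16) * (D.t * β) := by
      have : D.κ * (eta D.t * (ZX + ZY)) = eta D.t * D.κ * ZX + eta D.t * D.κ * ZY := by ring
      rw [this]; linarith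
    have h4 : eta D.t * (ZX + ZY) ≤ (10 ^ 14 + 10 ^ 16) * (D.t * β) * (4 * D.theta / (D.t : ℝ) ^ 20) := by
      have h5 : 0 ≤ 4 * D.theta / (D.t : ℝ) ^ 20 := by positivity
      have hZ0 : 0 ≤ eta D.t * (ZX + ZY) := by
        apply mul_nonneg hη0.le
        apply add_nonneg
        · exact Finset.sum_nonneg fun _ _ => Nat.cast_nonneg _
        · exact Finset.sum_nonneg fun _ _ => Nat.cast_nonneg _
      calc eta D.t * (ZX + ZY) = 1 * (eta D.t * (ZX + ZY)) := by ring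
        _ ≤ (D.κ * (4 * D.theta / (D.t : ℝ) ^ 20)) * (eta D.t * (ZX + ZY)) :=
            mul_le_mul_of_nonneg_right hκinv hZ0
        _ = (D.κ * (eta D.t * (ZX + ZY))) * (4 * D.theta / (D.t : ℝ) ^ 20) := by ring
        _ ≤ _ := mul_le_mul_of_nonneg_right h3 h5
    have h5 : (10 ^ 14 + 10 ^ 16) * (D.t * β) * (4 * D.theta / (D.t : ℝ) ^ 20) ≤
        D.theta * β / (D.t : ℝ) ^ 4 := by
      have h6 : (10 ^ 14 + 10 ^ 16) * (D.t * β) * (4 * D.theta / (D.t : ℝ) ^ 20) =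
          (4 * (10 ^ 14 + 10 ^ 16) / (D.t : ℝ) ^ 15) * (D.theta * β / (D.t : ℝ) ^ 4) := by
        field_simp
      rw [h6]
      have h7 : 4 * (10 ^ 14 + 10 ^ 16) / (D.t : ℝ) ^ 15 ≤ 1 := by
        rw [div_le_one (by positivity)]
        have h8 : (D.t : ℝ) ≤ (D.t : ℝ) ^ 15 := by
          apply le_self_pow₀ (le_trans (by norm_num) ht) (by norm_num)
        have h9 : (4 : ℝ) * (10 ^ 14 + 10 ^ 16) ≤ 10 ^ 100 := by norm_num
        linarith
      have h8 : 0 ≤ D.theta * β / (D.t : ℝ) ^ 4 := by positivity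
      nlinarith
    have h6 : eta D.t * (bd (D.Pg φ c) A N : ℝ) ≤ 3 * (D.theta * β / (D.t : ℝ) ^ 4) := by
      calc eta D.t * (bd (D.Pg φ c) A N : ℝ)
          ≤ eta D.t * ((eB (D.Pc φ c) A (D.Sc φ c \ N) : ℝ) + ZX + ZY) :=
            mul_le_mul_of_nonneg_left hbdPg hη0.le
        _ = eta D.t * (eB (D.Pc φ c) A (D.Sc φ c \ N) : ℝ) + eta D.t * (ZX + ZY) := by ring
        _ ≤ _ := by linarith
    refine h6.trans ?_
    have h7 : 3 * (D.theta * β / (D.t : ℝ) ^ 4) = (3 / D.t) * (D.theta * β / (D.t : ℝ) ^ 3) := by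
      field_simp
    rw [h7]
    have h8 : 3 / (D.t : ℝ) ≤ 1 := by
      rw [div_le_one ht0]
      exact le_trans (by norm_num) ht
    have h9 : 0 ≤ D.theta * β / (D.t : ℝ) ^ 3 := by positivity
    nlinarith
  -- reserve
  have hbF := bal D.F (D.xo c Rem) (D.Sc φ c) A N hA hN D.qF
  have hK3 := K1XF D hD φ hG c A N h2 hN
  have hK4 := K1YF D hD φ hG c A N h2 hN hNA Rem hRem
  rw [← hβ] at hK3 hK4
  have hqF : 0 ≤ D.qF := by
    unfold Ctx.qF
    obtain ⟨-, -, -, -, hρ0, -⟩ := ctx_rho D hD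
    refine mul_nonneg hρ0.le ?_
    unfold avX
    positivity
  have hFle : (eB D.F A (D.Sc φ c \ N) : ℝ) ≤ eB D.F (D.xo c Rem \ A) N + 2 * (β / (D.t : ℝ) ^ 4) := by
    have h4 := le_abs_self (∑ x ∈ A, ((eB D.F {x} (D.Sc φ c) : ℝ) - D.qF))
    have h5 := neg_abs_le (∑ y ∈ N, ((eB D.F (D.xo c Rem) {y} : ℝ) - D.qF))
    have h6 : D.qF * ((A.card : ℝ) - N.card) ≤ 0 :=
      mul_nonpos_of_nonneg_of_nonpos hqF hcard
    linarith
  have h3o := E3o D hD φ hG c A N h2 hN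
  rw [← hβ] at h3o
  have hFS : β ≤ (eB D.F A (D.Sc φ c \ N) : ℝ) + eB D.F (D.xo c Rem \ A) N
      + eB D.H.G (D.O.OX c) N + ZY := by
    have h3 := FS_bd D φ c Rem hRem A N hA hN hD.res.sub
    rw [hβ, hZY]
    exact_mod_cast h3
  have hZYle : ZY ≤ β / 8 := by
    have h3 : (D.t : ℝ) ^ 29 * ZY ≤ 10 ^ 16 * (D.t * β) := by
      have hZ0 : 0 ≤ ZY := Finset.sum_nonneg fun _ _ => Nat.cast_nonneg _
      calc (D.t : ℝ) ^ 29 * ZY ≤ (eta D.t * D.κ) * ZY := mul_le_mul_of_nonneg_right hηκ hZ0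
        _ ≤ _ := h5Y
    have h4 : (D.t : ℝ) ^ 29 = D.t * (D.t : ℝ) ^ 28 := by ring
    rw [h4] at h3
    have h5 : (D.t : ℝ) ^ 28 * ZY ≤ 10 ^ 16 * β := by
      have : D.t * ((D.t : ℝ) ^ 28 * ZY) ≤ D.t * (10 ^ 16 * β) := by linarith
      exact le_of_mul_le_mul_left this ht0
    have h6 : (8 : ℝ) * 10 ^ 16 ≤ (D.t : ℝ) ^ 28 := by
      have h7 : (D.t : ℝ) ≤ (D.t : ℝ) ^ 28 := by
        apply le_self_pow₀ (le_trans (by norm_num) ht) (by norm_num)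
      have h8 : (8 : ℝ) * 10 ^ 16 ≤ 10 ^ 100 := by norm_num
      linarith
    have hZ0 : 0 ≤ ZY := Finset.sum_nonneg fun _ _ => Nat.cast_nonneg _
    have h7 : 8 * 10 ^ 16 * ZY ≤ 10 ^ 16 * β := (mul_le_mul_of_nonneg_right h6 hZ0).trans h5
    linarith
  have hle1 : 2 * (β / (D.t : ℝ) ^ 4) ≤ β / 8 := by
    have h3 : (16 : ℝ) ≤ (D.t : ℝ) ^ 4 := by
      have h7 : (D.t : ℝ) ≤ (D.t : ℝ) ^ 4 := by
        apply le_self_pow₀ (le_trans (by norm_num) ht) (by norm_num)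
      exact le_trans (by norm_num) (ht.trans h7)
    have h4 : β / (D.t : ℝ) ^ 4 ≤ β / 16 := div_le_div_of_nonneg_left hβ0 (by norm_num) h3
    linarith
  have hle2 : (eB D.H.G (D.O.OX c) N : ℝ) ≤ β / 8 := by
    have h3 : 10 ^ 23 / (D.t : ℝ) ^ 5 ≤ 1 / 8 := by
      rw [div_le_div_iff₀ (by positivity) (by norm_num)]
      have h7 : (D.t : ℝ) ≤ (D.t : ℝ) ^ 5 := by
        apply le_self_pow₀ (le_trans (by norm_num) ht) (by norm_num)
      have h8 : (10 : ℝ) ^ 23 * 8 ≤ 10 ^ 100 := by norm_num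
      linarith
    calc (eB D.H.G (D.O.OX c) N : ℝ) ≤ 10 ^ 23 / (D.t : ℝ) ^ 5 * β := h3o
      _ ≤ 1 / 8 * β := mul_le_mul_of_nonneg_right h3 hβ0
      _ = β / 8 := by ring
  have hFSe : eB (D.FS φ c) (D.xo c Rem \ A) N = eB D.F (D.xo c Rem \ A) N := by
    unfold eB Ctx.FS rs
    rw [Finset.filter_filter]
    congr 1
    ext e
    simp only [Finset.mem_filter]
    constructor
    · rintro ⟨h1, -, h3, h4⟩
      exact ⟨h1, h3, h4⟩
    · rintro ⟨h1, h3, h4⟩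
      exact ⟨h1, hN h4, h3, h4⟩
  have hF8 : β ≤ 8 * (eB (D.FS φ c) (D.xo c Rem \ A) N : ℝ) := by
    rw [hFSe]
    linarith
  obtain ⟨e, heR, he1, he2⟩ := crossY D hD φ hG c Rem hRem A N hA hN hAne h2 hNA hP hF8
  exact hE e (Finset.mem_union_right _ heR) he1 he2

end Pool.SCDH
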