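import Pool.Agent.Lib.SCDH.MDefs
import Pool.Agent.Lib.SCDH.G01
import Pool.Agent.Lib.SCDH.D16
import Pool.Agent.Lib.SCDH.D17

/-!
# Row D18 (paper scd_h36.md)
Perfect matching of xo and Sc.
Hall's theorem on the subtype of xo. For A ⊆ xo let N = {y ∈ Sc : some x ∈ A with (x,y) ∈ Pc ∪ Rc}. If |N| < |A|: for 2|A| ≤ |X| use hall_I; otherwise A1 = xo∖A, N1 = Sc∖N: 2|A1| ≤ |X|, |A1| < |N1| (|xo| = |Sc|), hall_II.
-/

set_option linter.unusedSectionVars false
set_option linter.unusedVariables false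

namespace Pool.SCDH

open Finset Pool.MP_0ccee8_co.Lib2

variable {X Y : Type} [Fintype X] [DecidableEq X] [Fintype Y] [DecidableEq Y]
variable (D : Ctx X Y)

private theorem d18_mem_Sc (φ : D.Lbl) (c : Fin D.B) (e : X × Y) (he : e ∈ D.Pc φ c ∪ D.Rc φ c) :
    e.2 ∈ D.Sc φ c := by
  rcases Finset.mem_union.1 he with h | h
  · simp only [Ctx.Pc, Ctx.Pv, Finset.mem_filter] at h
    exact h.2.2.1
  · simp only [Ctx.Rc, Ctx.Pv, Finset.mem_filter] at h
    exact h.2.2.1

theorem sideHall (hD : CtxOK D) (φ : D.Lbl) (hG : D.Good φ) (c : Fin D.B) (Rem : Finset X) (hRem : ∀ y, eB D.H.G Rem {y} ≤ D.vZ φ c y)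
    (hcard : (D.xo c Rem).card = (D.Sc φ c).card) :
    ∃ g : X → Y, (∀ x ∈ D.xo c Rem, g x ∈ D.Sc φ c ∧ (x, g x) ∈ D.Pc φ c ∪ D.Rc φ c) ∧
      Set.InjOn g (D.xo c Rem) := by
  classical
  have hY : Nonempty Y := by
    have h1 := hD.ha
    exact Fintype.card_pos_iff.1 (by omega)
  let nb : {x // x ∈ D.xo c Rem} → Finset Y := fun x =>
    (D.Sc φ c).filter (fun y => ((x : X), y) ∈ D.Pc φ c ∪ D.Rc φ c)
  have hall : ∀ s : Finset {x // x ∈ D.xo c Rem}, s.card ≤ (s.biUnion nb).card := by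
    intro s
    by_contra hlt
    push Not at hlt
    set A : Finset X := s.map ⟨Subtype.val, Subtype.val_injective⟩ with hAdef
    set N : Finset Y := s.biUnion nb with hNdef
    have hAc : A.card = s.card := by rw [hAdef, Finset.card_map]
    have hAsub : A ⊆ D.xo c Rem := by
      intro x hx
      rw [hAdef, Finset.mem_map] at hx
      obtain ⟨z, hz, rfl⟩ := hx
      exact z.2
    have hNsub : N ⊆ D.Sc φ c := by
      intro y hy
      rw [hNdef, Finset.mem_biUnion] at hy
      obtain ⟨z, hz, hzy⟩ := hy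
      exact (Finset.mem_filter.1 hzy).1
    have hE : ∀ e ∈ D.Pc φ c ∪ D.Rc φ c, e.1 ∈ A → e.2 ∈ N := by
      intro e he heA
      rw [hAdef, Finset.mem_map] at heA
      obtain ⟨z, hz, hze⟩ := heA
      have hze' : (z : X) = e.1 := hze
      rw [hNdef, Finset.mem_biUnion]
      refine ⟨z, hz, Finset.mem_filter.2 ⟨d18_mem_Sc D φ c e he, ?_⟩⟩
      rw [hze']
      exact he
    by_cases h2 : 2 * A.card ≤ Fintype.card X
    · exact hall_I D hD φ hG c Rem hRem A N hAsub hNsub h2 (by rw [hAc]; exact hlt) hE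
    · push Not at h2
      have hle : (D.xo c Rem).card ≤ Fintype.card X := Finset.card_le_univ _
      have hA1 : (D.xo c Rem \ A).card = (D.xo c Rem).card - A.card := Finset.card_sdiff_of_subset hAsub
      have hN1 : (D.Sc φ c \ N).card = (D.Sc φ c).card - N.card := Finset.card_sdiff_of_subset hNsub
      have hAle : A.card ≤ (D.xo c Rem).card := Finset.card_le_card hAsub
      refine hall_II D hD φ hG c Rem hRem (D.xo c Rem \ A) (D.Sc φ c \ N) Finset.sdiff_subset
        Finset.sdiff_subset (by omega) (by omega) ?_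
      intro e he heA heN
      have h3 : e.1 ∈ A := by
        rw [Finset.mem_sdiff, Finset.mem_sdiff] at heA
        by_contra h4
        exact heA.2 ⟨heA.1, h4⟩
      exact (Finset.mem_sdiff.1 heN).2 (hE e he h3)
  obtain ⟨f, hf, hfm⟩ := (Finset.all_card_le_biUnion_card_iff_exists_injective nb).1 hall
  refine ⟨fun x => if hx : x ∈ D.xo c Rem then f ⟨x, hx⟩ else Classical.arbitrary Y, ?_, ?_⟩
  · intro x hx
    have h1 := hfm ⟨x, hx⟩
    have h2 := Finset.mem_filter.1 h1
    simp only [hx, dif_pos]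
    exact ⟨h2.1, h2.2⟩
  · intro x hx x' hx' hxx
    have hx0 : x ∈ D.xo c Rem := hx
    have hx0' : x' ∈ D.xo c Rem := hx'
    simp only [hx0, hx0', dif_pos] at hxx
    have h3 := hf hxx
    exact congrArg Subtype.val h3

end Pool.SCDH
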