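import Pool.Agent.Lib.SCDH.MDefs
import Pool.Agent.Lib.SCDH.G01
import Pool.Agent.Lib.SCDH.N01
import Pool.Agent.Lib.SCDH.K01
import Pool.Agent.Lib.SCDH.D12
import Pool.Agent.Lib.SCDH.D18

/-!
# Row D19 (paper scd_h36.md)
One side of one colour.
Recipe: D12 for Z', Rem = Z'.image f; Rem avoids OX, |Rem| = |Z'|; |xo c Rem| = |X| - ω - |Z'| = NX - |Z'| = |Sc| (NX = |X| - ω, ω ≤ |X| by OutOK.om). D18 gives g on xo; on Rem put g (f y) = y. The image is contained in Sc ∪ Z' (disjoint as Z' ⊆ Zs) and has NX elements.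
-/

set_option linter.unusedSectionVars false
set_option linter.unusedVariables false

namespace Pool.SCDH

open Finset Pool.MP_0ccee8_co.Lib2

variable {X Y : Type} [Fintype X] [DecidableEq X] [Fintype Y] [DecidableEq Y]
variable (D : Ctx X Y)

theorem side (hD : CtxOK D) (φ : D.Lbl) (hG : D.Good φ) (c : Fin D.B) (Z' : Finset Y) (hZ : Z' ⊆ D.Zs φ c)
    (hcard : (D.Sc φ c).card + Z'.card = D.NX) :
    ∃ g : X → Y, (∀ x, x ∉ D.O.OX c → (x, g x) ∈ D.Hb ∪ D.F ∧ D.own φ (x, g x) = D.slot φ c (g x) ∧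
        g x ∈ D.Sc φ c ∪ Z') ∧
      (∀ x x', x ∉ D.O.OX c → x' ∉ D.O.OX c → g x = g x' → x = x') ∧
      (univ.filter (fun x => x ∉ D.O.OX c)).image g = D.Sc φ c ∪ Z' := by
  classical
  obtain ⟨f, hf1, hf2, hf3⟩ := prematch D hD φ hG c Z' hZ
  set Rem := Z'.image f with hRem
  have hRcard : Rem.card = Z'.card := card_image_of_injOn hf2
  have hOX : (D.O.OX c).card = D.ω := hD.out.cX c
  have hdisj : Disjoint (D.O.OX c) Rem := by
    rw [Finset.disjoint_left]
    intro x hx hxR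
    obtain ⟨y, hy, rfl⟩ := mem_image.1 hxR
    exact (hf1 y hy).1 hx
  have hcompl : (univ.filter (fun x => x ∉ D.O.OX c)).card + D.ω = Fintype.card X := by
    rw [← hOX]
    have h1 : univ.filter (fun x => x ∉ D.O.OX c) = (D.O.OX c)ᶜ := by
      ext x
      simp
    rw [h1]
    exact card_compl_add_card _
  have hxo : (D.xo c Rem).card + Rem.card + D.ω = Fintype.card X := by
    rw [← hOX]
    have h1 : D.xo c Rem = (D.O.OX c ∪ Rem)ᶜ := by
      ext x
      simp [Ctx.xo]
    have h2 := card_compl_add_card (D.O.OX c ∪ Rem)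
    rw [card_union_of_disjoint hdisj] at h2
    rw [h1]
    omega
  have hNX : D.NX = Fintype.card X - D.ω := rfl
  have hcard2 : (D.xo c Rem).card = (D.Sc φ c).card := by omega
  obtain ⟨g0, hg1, hg2⟩ := sideHall D hD φ hG c Rem hf3 hcard2
  have hr : ∀ x, ∃ y, x ∈ Rem → y ∈ Z' ∧ f y = x := by
    intro x
    by_cases hx : x ∈ Rem
    · obtain ⟨y, hy, hyx⟩ := mem_image.1 hx
      exact ⟨y, fun _ => ⟨hy, hyx⟩⟩
    · exact ⟨g0 x, fun h => absurd h hx⟩
  choose r hr using hr
  have hxomem : ∀ x, x ∉ D.O.OX c → x ∉ Rem → x ∈ D.xo c Rem := by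
    intro x h1 h2
    exact mem_filter.2 ⟨mem_univ _, h1, h2⟩
  have hScZs : ∀ y, y ∈ D.Sc φ c → y ∉ D.Zs φ c := by
    intro y hy
    exact (mem_sdiff.1 hy).2
  have main1 : ∀ x, x ∉ D.O.OX c → (x, if x ∈ Rem then r x else g0 x) ∈ D.Hb ∪ D.F ∧
      D.own φ (x, if x ∈ Rem then r x else g0 x) = D.slot φ c (if x ∈ Rem then r x else g0 x) ∧
        (if x ∈ Rem then r x else g0 x) ∈ D.Sc φ c ∪ Z' := by
    intro x hx
    by_cases hxR : x ∈ Rem
    · simp only [if_pos hxR]
      obtain ⟨h1, h2⟩ := hr x hxR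
      have h3 := hf1 _ h1
      rw [h2] at h3
      exact ⟨mem_union_left _ h3.2.1, h3.2.2, mem_union_right _ h1⟩
    · simp only [if_neg hxR]
      have h1 := hg1 x (hxomem x hx hxR)
      refine ⟨?_, ?_, mem_union_left _ h1.1⟩
      · rcases mem_union.1 h1.2 with h2 | h2
        · exact mem_union_left _ (mem_filter.1 h2).1
        · exact mem_union_right _ (mem_filter.1 h2).1
      · rcases mem_union.1 h1.2 with h2 | h2
        · exact (mem_filter.1 h2).2.2.2
        · exact (mem_filter.1 h2).2.2.2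
  have main2 : ∀ x x', x ∉ D.O.OX c → x' ∉ D.O.OX c →
      (if x ∈ Rem then r x else g0 x) = (if x' ∈ Rem then r x' else g0 x') → x = x' := by
    intro x x' hx hx' he
    by_cases hxR : x ∈ Rem
    · by_cases hxR' : x' ∈ Rem
      · rw [if_pos hxR, if_pos hxR'] at he
        rw [← (hr x hxR).2, ← (hr x' hxR').2, he]
      · rw [if_pos hxR, if_neg hxR'] at he
        exfalso
        have h1 := (hg1 x' (hxomem x' hx' hxR')).1
        rw [← he] at h1
        exact hScZs _ h1 (hZ (hr x hxR).1)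
    · by_cases hxR' : x' ∈ Rem
      · rw [if_neg hxR, if_pos hxR'] at he
        exfalso
        have h1 := (hg1 x (hxomem x hx hxR)).1
        rw [he] at h1
        exact hScZs _ h1 (hZ (hr x' hxR').1)
      · rw [if_neg hxR, if_neg hxR'] at he
        exact hg2 (hxomem x hx hxR) (hxomem x' hx' hxR') he
  refine ⟨fun x => if x ∈ Rem then r x else g0 x, main1, main2, ?_⟩
  apply eq_of_subset_of_card_le
  · intro y hy
    obtain ⟨x, hx, rfl⟩ := mem_image.1 hy
    exact (main1 x (mem_filter.1 hx).2).2.2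
  · rw [card_image_of_injOn (fun x hx x' hx' he =>
      main2 x x' (mem_filter.1 hx).2 (mem_filter.1 hx').2 he)]
    have h1 := card_union_le (D.Sc φ c) Z'
    omega

end Pool.SCDH
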