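import Pool.Agent.Lib.SCDH.Defs

/-!
# Row L01 (paper scd_h36.md)
Basics for E, P, Dep, mix of the library Pool.MP_0ccee8_co.Lib2 (files MP_0ccee8_co2/Prob, LLL, McD).
Recipe: P_cond is E_mix. P_pull: split W into the range of f and the rest (E over a product; e.g. count: every fibre of φ ↦ φ ∘ f has the same cardinality, K^(W minus range)). Dep lemmas: unfold.
-/

set_option linter.unusedSectionVars false
set_option linter.unusedVariables false

namespace Pool.SCDH

open Finset Pool.MP_0ccee8_co.Lib2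

variable {V K : Type} [Fintype V] [DecidableEq V] [Fintype K] [Nonempty K]

theorem P_cond (I : Finset V) (A : (V → K) → Prop) (p : ℝ) (h : ∀ ψ, P (fun φ => A (mix I φ ψ)) ≤ p) :
    P A ≤ p := by
  classical
  have h1 : P A = E (fun ψ => P (fun φ => A (mix I φ ψ))) := by
    unfold P
    exact (E_mix I (fun φ => if A φ then (1 : ℝ) else 0)).symm
  rw [h1]
  calc E (fun ψ => P (fun φ => A (mix I φ ψ))) ≤ E (fun _ : V → K => p) := E_mono h
    _ = p := E_const p

private lemma E_pull_aux {W : Type} [Fintype W] [DecidableEq W] (f : V → W)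
    (hf : Function.Injective f) (g : (V → K) → ℝ) :
    E (fun φ : W → K => g (fun v => φ (f v))) = E g := by
  classical
  have hpos := card_pos' (V := V) (κ := K)
  have hposW := card_pos' (V := W) (κ := K)
  let e : (W → K) ≃ (V → K) × ({w // ¬ (w ∈ Set.range f)} → K) :=
    (Equiv.piEquivPiSubtypeProd (fun w => w ∈ Set.range f) (fun _ => K)).trans
      (Equiv.prodCongr (Equiv.arrowCongr (Equiv.ofInjective f hf).symm (Equiv.refl K))
        (Equiv.refl _))
  have he : ∀ φ : W → K, (e φ).1 = fun v => φ (f v) := by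
    intro φ
    funext v
    simp [e, Equiv.piEquivPiSubtypeProd, Equiv.arrowCongr]
  have h1 : ∑ φ : W → K, g (fun v => φ (f v))
      = ∑ p : (V → K) × ({w // ¬ (w ∈ Set.range f)} → K), g p.1 :=
    Fintype.sum_equiv e _ _ (fun φ => by rw [he])
  have h2 : (Fintype.card (W → K) : ℝ) = (Fintype.card (V → K) : ℝ) *
      (Fintype.card ({w // ¬ (w ∈ Set.range f)} → K) : ℝ) := by
    rw [Fintype.card_congr e, Fintype.card_prod]
    push_cast
    ring
  have h3 : (0 : ℝ) < (Fintype.card ({w // ¬ (w ∈ Set.range f)} → K) : ℝ) := by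
    have h4 : (0 : ℝ) < (Fintype.card (V → K) : ℝ) *
      (Fintype.card ({w // ¬ (w ∈ Set.range f)} → K) : ℝ) := h2 ▸ hposW
    exact (pos_iff_pos_of_mul_pos h4).1 hpos
  unfold E
  rw [h1, Fintype.sum_prod_type' (f := fun (φ : V → K)
    (_ : {w // ¬ (w ∈ Set.range f)} → K) => g φ), h2]
  simp only [sum_const, card_univ, nsmul_eq_mul, ← mul_sum]
  field_simp

theorem P_pull {W : Type} [Fintype W] [DecidableEq W] (f : V → W) (hf : Function.Injective f)
    (A : (V → K) → Prop) : P (fun φ : W → K => A (fun v => φ (f v))) = P A := by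
  classical
  unfold P
  exact E_pull_aux f hf (fun φ => if A φ then (1 : ℝ) else 0)

theorem Dep_pull {W : Type} [Fintype W] [DecidableEq W] (f : V → W) (A : (V → K) → Prop) (S : Finset V)
    (hA : Dep A S) : Dep (fun φ : W → K => A (fun v => φ (f v))) (S.image f) := by
  intro φ ψ h
  exact hA _ _ (fun v hv => h (f v) (mem_image_of_mem f hv))

theorem P_exists_univ {ι : Type} [Fintype ι] (A : ι → (V → K) → Prop) :
    P (fun φ => ∃ i, A i φ) ≤ ∑ i, P (A i) := by
  refine le_trans (P_mono (fun φ h => ?_)) (P_exists univ A)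
  obtain ⟨i, hi⟩ := h
  exact ⟨i, mem_univ i, hi⟩

theorem P_exists_le {ι : Type} [Fintype ι] (A : ι → (V → K) → Prop) (p : ℝ) (h : ∀ i, P (A i) ≤ p) :
    P (fun φ => ∃ i, A i φ) ≤ Fintype.card ι * p := by
  refine (P_exists_univ A).trans ?_
  refine (sum_le_sum (fun i _ => h i)).trans ?_
  simp

theorem Dep_or (A B : (V → K) → Prop) (S : Finset V) (hA : Dep A S) (hB : Dep B S) :
    Dep (fun φ => A φ ∨ B φ) S := by
  intro φ ψ h
  show (A φ ∨ B φ) = (A ψ ∨ B ψ)
  rw [hA φ ψ h, hB φ ψ h]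

theorem Dep_and (A B : (V → K) → Prop) (S : Finset V) (hA : Dep A S) (hB : Dep B S) :
    Dep (fun φ => A φ ∧ B φ) S := by
  intro φ ψ h
  show (A φ ∧ B φ) = (A ψ ∧ B ψ)
  rw [hA φ ψ h, hB φ ψ h]

theorem Dep_exists {ι : Type} (A : ι → (V → K) → Prop) (S : Finset V) (hA : ∀ i, Dep (A i) S) :
    Dep (fun φ => ∃ i, A i φ) S := by
  intro φ ψ h
  show (∃ i, A i φ) = (∃ i, A i ψ)
  have h1 : ∀ i, A i φ = A i ψ := fun i => hA i φ ψ h
  simp only [h1]

theorem P_coord (v : V) (S : Finset K) :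
    P (fun φ : V → K => φ v ∈ S) = (S.card : ℝ) / (Fintype.card K : ℝ) := by
  classical
  have h := E_coord (κ := K) v (fun a => if a ∈ S then (1 : ℝ) else 0)
  have h2 : P (fun φ : V → K => φ v ∈ S)
      = E (fun φ : V → K => if φ v ∈ S then (1 : ℝ) else 0) := by
    unfold P
    refine E_congr (fun φ => ?_)
    by_cases h : φ v ∈ S <;> simp [h]
  rw [h2, h]
  simp

theorem E_P (A : (V → K) → Prop) [DecidablePred A] (c : ℝ) : E (fun φ => if A φ then c else 0) = c * P A := by
  unfold P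
  rw [← E_mul_left]
  refine E_congr (fun φ => ?_)
  by_cases h : A φ <;> simp [h]

end Pool.SCDH
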