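import Pool.Agent.Lib.SCDH.BDefs
import Pool.Agent.Lib.SCDH.MDefs
import Pool.Agent.Lib.SCDH.L01
import Pool.Agent.Lib.SCDH.G03
import Pool.Agent.Lib.SCDH.G04
import Pool.Agent.Lib.SCDH.W02

/-!
# Row N02 (paper scd_h36.md)
Probabilities of the label classes, supports.
Recipe: P_coord / E_coord with counting: labels are uniform on Fin (a+1) × Fin (z+1) × Fin 2 × Fin (s+1). NX ≤ a+1. near_card: ball_card (W02) style induction: |ball R {v}| ≤ (n+1)^R; B ≤ n, edges at a vertex ≤ n. In near_mult use symmetry of the ball: v ∈ ball 4 {u} iff u ∈ ball 4 {v}; for an edge variable (x,y) the events are those v with x ∈ ball 4 {v}. supT_card: B (n+1)^(rW+5)|T| + n (n+1)^(rW+5)|T| ≤ n^1020 |T| (rW = 1000). (You may copy ball_card, ball_symm from the statement of row W02: import it.)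
-/

set_option linter.unusedSectionVars false
set_option linter.unusedVariables false

namespace Pool.SCDH

open Finset Pool.MP_0ccee8_co.Lib2

variable {X Y : Type} [Fintype X] [DecidableEq X] [Fintype Y] [DecidableEq Y]
variable (D : Ctx X Y)

private lemma n02_lab_card (a z s : ℕ) (p : Fin (a + 1) → Prop) (q : Fin (z + 1) → Prop)
    (r : Fin 2 → Prop) (u : Fin (s + 1) → Prop) [DecidablePred p] [DecidablePred q]
    [DecidablePred r] [DecidablePred u] :
    (univ.filter (fun l : Fin (a + 1) × Fin (z + 1) × Fin 2 × Fin (s + 1) =>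
      p l.1 ∧ q l.2.1 ∧ r l.2.2.1 ∧ u l.2.2.2)).card =
    (univ.filter p).card * ((univ.filter q).card * ((univ.filter r).card * (univ.filter u).card)) := by
  rw [← card_product, ← card_product, ← card_product]
  congr 1
  ext ⟨l1, l2, l3, l4⟩
  simp

private lemma n02_P_gen (w : D.Var) (p : Fin (D.a + 1) → Prop) (q : Fin (D.z + 1) → Prop)
    (r : Fin 2 → Prop) (u : Fin (D.s + 1) → Prop) [DecidablePred p] [DecidablePred q]
    [DecidablePred r] [DecidablePred u] :
    P (fun φ : D.Lbl => p (φ w).1 ∧ q (φ w).2.1 ∧ r (φ w).2.2.1 ∧ u (φ w).2.2.2) =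
    (((univ.filter p).card : ℝ) / ((D.a : ℝ) + 1)) * ((((univ.filter q).card : ℝ) / ((D.z : ℝ) + 1)) *
      ((((univ.filter r).card : ℝ) / 2) * (((univ.filter u).card : ℝ) / ((D.s : ℝ) + 1)))) := by
  have h := P_coord (V := D.Var) (K := D.Lab) w (univ.filter (fun l : D.Lab =>
      p l.1 ∧ q l.2.1 ∧ r l.2.2.1 ∧ u l.2.2.2))
  have h1 : (fun φ : D.Lbl => φ w ∈ (univ.filter (fun l : D.Lab =>
      p l.1 ∧ q l.2.1 ∧ r l.2.2.1 ∧ u l.2.2.2))) =
      (fun φ : D.Lbl => p (φ w).1 ∧ q (φ w).2.1 ∧ r (φ w).2.2.1 ∧ u (φ w).2.2.2) := by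
    funext φ
    simp
  have h1' : P (fun φ : D.Lbl => p (φ w).1 ∧ q (φ w).2.1 ∧ r (φ w).2.2.1 ∧ u (φ w).2.2.2) =
      ((univ.filter (fun l : D.Lab =>
      p l.1 ∧ q l.2.1 ∧ r l.2.2.1 ∧ u l.2.2.2)).card : ℝ) / (Fintype.card D.Lab : ℝ) := by
    rw [← h1]
    exact h
  rw [h1']
  have h2 : (univ.filter (fun l : D.Lab =>
      p l.1 ∧ q l.2.1 ∧ r l.2.2.1 ∧ u l.2.2.2)).card = _ := n02_lab_card D.a D.z D.s p q r u
  rw [h2]
  have h3 : (Fintype.card D.Lab : ℝ) = ((D.a : ℝ) + 1) * (((D.z : ℝ) + 1) * (2 * ((D.s : ℝ) + 1))) := by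
    show (Fintype.card (Fin (D.a + 1) × Fin (D.z + 1) × Fin 2 × Fin (D.s + 1)) : ℝ) = _
    simp only [Fintype.card_prod, Fintype.card_fin]
    push_cast
    ring
  rw [h3]
  push_cast
  have e1 : (D.a : ℝ) + 1 ≠ 0 := by positivity
  have e2 : (D.z : ℝ) + 1 ≠ 0 := by positivity
  have e3 : (D.s : ℝ) + 1 ≠ 0 := by positivity
  field_simp

private lemma n02_card_true (m : ℕ) : ((univ.filter (fun _ : Fin m => True)).card : ℝ) = m := by
  simp

private lemma n02_card_lt (a k : ℕ) (h : k ≤ a + 1) :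
    ((univ.filter (fun i : Fin (a + 1) => (i : ℕ) < k)).card : ℝ) = k := by
  have h1 : (univ.filter (fun i : Fin (a + 1) => (i : ℕ) < k)) =
      (univ : Finset (Fin k)).map (Fin.castLEEmb h) := by
    ext i
    simp only [mem_filter, mem_univ, true_and, mem_map, Fin.castLEEmb_apply]
    constructor
    · intro hi
      exact ⟨⟨i, hi⟩, by ext; simp⟩
    · rintro ⟨j, rfl⟩
      simp
  rw [h1]
  simp

private lemma n02_card_ne (z : ℕ) :
    ((univ.filter (fun i : Fin (z + 1) => (i : ℕ) ≠ 0)).card : ℝ) = z := by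
  have h1 : (univ.filter (fun i : Fin (z + 1) => (i : ℕ) ≠ 0)) = univ.erase 0 := by
    ext i
    rw [mem_filter, mem_erase]
    constructor
    · rintro ⟨_, h⟩
      exact ⟨fun h0 => h (by rw [h0]; rfl), mem_univ _⟩
    · rintro ⟨h, _⟩
      exact ⟨mem_univ _, fun h0 => h (Fin.ext h0)⟩
  rw [h1, card_erase_of_mem (mem_univ _)]
  simp

private lemma n02_card_eq (z i : ℕ) (h : i < z + 1) :
    ((univ.filter (fun j : Fin (z + 1) => (j : ℕ) = i)).card : ℝ) = 1 := by
  have h1 : (univ.filter (fun j : Fin (z + 1) => (j : ℕ) = i)) = {⟨i, h⟩} := by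
    ext j
    simp [Fin.ext_iff]
  rw [h1]
  simp

private lemma n02_NX_le (hD : CtxOK D) : D.NX ≤ D.a + 1 := by
  have h1 := host_card D.H
  have h2 := D.H.hκd
  have h3 := D.H.hκ
  have h4 := hD.ha
  have h5 : Fintype.card X ≤ Fintype.card Y := by
    have h6 : Fintype.card X * D.d ≤ Fintype.card Y * D.d := by
      rw [h1]
      exact Nat.mul_le_mul_left _ h2
    exact Nat.le_of_mul_le_mul_right h6 (by omega)
  unfold Ctx.NX
  omega

theorem P_in (hD : CtxOK D) (w : D.Var) :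
    P (fun φ : D.Lbl => ((φ w).1 : ℕ) < D.NX) = D.rho' := by
  have h := n02_P_gen D w (fun i => (i : ℕ) < D.NX) (fun _ => True) (fun _ => True) (fun _ => True)
  rw [n02_card_lt _ _ (n02_NX_le D hD)] at h
  simp only [n02_card_true, and_true] at h
  rw [h]
  unfold Ctx.rho'
  push_cast
  have e2 : (D.z : ℝ) + 1 ≠ 0 := by positivity
  have e3 : (D.s : ℝ) + 1 ≠ 0 := by positivity
  field_simp

theorem P_z (w : D.Var) : P (fun φ : D.Lbl => ((φ w).2.1 : ℕ) = 0) = 1 / ((D.z : ℝ) + 1) := by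
  have h := n02_P_gen D w (fun _ => True) (fun i => (i : ℕ) = 0) (fun _ => True) (fun _ => True)
  rw [n02_card_eq D.z 0 (by omega)] at h
  simp only [n02_card_true, and_true, true_and] at h
  rw [h]
  push_cast
  have e1 : (D.a : ℝ) + 1 ≠ 0 := by positivity
  have e3 : (D.s : ℝ) + 1 ≠ 0 := by positivity
  field_simp

theorem P_inz (hD : CtxOK D) (w : D.Var) :
    P (fun φ : D.Lbl => ((φ w).1 : ℕ) < D.NX ∧ ((φ w).2.1 : ℕ) ≠ 0) = D.rho1 := by
  have h := n02_P_gen D w (fun i => (i : ℕ) < D.NX) (fun i => (i : ℕ) ≠ 0) (fun _ => True)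
    (fun _ => True)
  rw [n02_card_lt _ _ (n02_NX_le D hD), n02_card_ne] at h
  simp only [n02_card_true, and_true] at h
  rw [h]
  unfold Ctx.rho1 Ctx.rho'
  push_cast
  have e1 : (D.a : ℝ) + 1 ≠ 0 := by positivity
  have e2 : (D.z : ℝ) + 1 ≠ 0 := by positivity
  have e3 : (D.s : ℝ) + 1 ≠ 0 := by positivity
  field_simp
  ring

theorem P_inzb (hD : CtxOK D) (w : D.Var) (b : Fin 2) :
    P (fun φ : D.Lbl => (((φ w).1 : ℕ) < D.NX ∧ ((φ w).2.1 : ℕ) ≠ 0) ∧ (φ w).2.2.1 = b) = D.rho1 / 2 := by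
  have h := n02_P_gen D w (fun i => (i : ℕ) < D.NX) (fun i => (i : ℕ) ≠ 0) (fun i => i = b)
    (fun _ => True)
  rw [n02_card_lt _ _ (n02_NX_le D hD), n02_card_ne] at h
  simp only [n02_card_true, and_true] at h
  have h1 : (univ.filter (fun i : Fin 2 => i = b)) = {b} := by
    ext i; simp
  rw [h1, card_singleton] at h
  have h2 : (fun φ : D.Lbl => (((φ w).1 : ℕ) < D.NX ∧ ((φ w).2.1 : ℕ) ≠ 0) ∧ (φ w).2.2.1 = b) =
      (fun φ : D.Lbl => ((φ w).1 : ℕ) < D.NX ∧ ((φ w).2.1 : ℕ) ≠ 0 ∧ (φ w).2.2.1 = b) := by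
    funext φ
    rw [and_assoc]
  rw [h2, h]
  unfold Ctx.rho1 Ctx.rho'
  push_cast
  have e1 : (D.a : ℝ) + 1 ≠ 0 := by positivity
  have e2 : (D.z : ℝ) + 1 ≠ 0 := by positivity
  have e3 : (D.s : ℝ) + 1 ≠ 0 := by positivity
  field_simp
  ring

theorem P_own (w : D.Var) (i : ℕ) (hi : i < D.s + 1) : P (fun φ : D.Lbl => ((φ w).2.2.2 : ℕ) = i) = D.theta := by
  have h := n02_P_gen D w (fun _ => True) (fun _ => True) (fun _ => True) (fun j => (j : ℕ) = i)
  rw [n02_card_eq D.s i hi] at h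
  simp only [n02_card_true, true_and] at h
  rw [h]
  unfold Ctx.theta
  push_cast
  have e1 : (D.a : ℝ) + 1 ≠ 0 := by positivity
  have e2 : (D.z : ℝ) + 1 ≠ 0 := by positivity
  field_simp

private lemma n02_big (hD : CtxOK D) : 2 ^ 1006 ≤ D.n := by
  have h1 := big_t hD.big
  have h2 := (rng_real hD.rng).1
  have h3 : ((2 : ℝ) ^ 1006) ≤ (D.n : ℝ) := by
    have h4 : (2 : ℝ) ^ 300 ≤ D.t := by
      refine le_trans ?_ h1
      calc (2 : ℝ) ^ 300 = (2 ^ 3) ^ 100 := by rw [← pow_mul]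
        _ ≤ 10 ^ 100 := pow_le_pow_left₀ (by norm_num) (by norm_num) _
    have h5 : (1 : ℝ) ≤ D.t := le_trans (one_le_pow₀ (by norm_num)) h4
    calc (2 : ℝ) ^ 1006 ≤ ((2 : ℝ) ^ 300) ^ 200 := by
          rw [← pow_mul]
          exact pow_le_pow_right₀ (by norm_num) (by norm_num)
      _ ≤ (D.t : ℝ) ^ 200 := by gcongr
      _ ≤ D.n := h2
  exact_mod_cast h3

private lemma n02_gen (hD : CtxOK D) (R : ℕ) (T : Finset (X ⊕ Y)) (S : Finset D.Var)
    (hS1 : ∀ c y, Sum.inl (c, y) ∈ S → Sum.inr y ∈ ball D.H.G R T)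
    (hS2 : ∀ x y, Sum.inr (x, y) ∈ S → Sum.inl x ∈ ball D.H.G R T ∧ (x, y) ∈ D.H.G) :
    S.card ≤ 2 * D.n * ((D.n + 1) ^ R * T.card) := by
  classical
  have hb := ball_card D.H R T
  set Bl := ball D.H.G R T with hBl
  have hsub : S ⊆ ((univ : Finset (Fin D.B)) ×ˢ (univ.filter (fun y : Y => Sum.inr y ∈ Bl))).map
      ⟨Sum.inl, Sum.inl_injective⟩ ∪
      (D.H.G.filter (fun e => Sum.inl e.1 ∈ Bl)).map ⟨Sum.inr, Sum.inr_injective⟩ := by
    intro w hw
    rw [mem_union]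
    rcases w with ⟨c, y⟩ | ⟨x, y⟩
    · left
      simpa using hS1 c y hw
    · right
      have := hS2 x y hw
      simp [this.1, this.2]
  have h1 : (univ.filter (fun y : Y => Sum.inr y ∈ Bl)).card ≤ Bl.card := by
    rw [← card_map ⟨(Sum.inr : Y → X ⊕ Y), Sum.inr_injective⟩]
    refine card_le_card ?_
    intro v hv
    simp only [mem_map, mem_filter, mem_univ, true_and, Function.Embedding.coeFn_mk] at hv
    obtain ⟨y, hy, rfl⟩ := hv
    exact hy
  have h2 : (univ.filter (fun x : X => Sum.inl x ∈ Bl)).card ≤ Bl.card := by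
    rw [← card_map ⟨(Sum.inl : X → X ⊕ Y), Sum.inl_injective⟩]
    refine card_le_card ?_
    intro v hv
    simp only [mem_map, mem_filter, mem_univ, true_and, Function.Embedding.coeFn_mk] at hv
    obtain ⟨y, hy, rfl⟩ := hv
    exact hy
  have h3 : (D.H.G.filter (fun e => Sum.inl e.1 ∈ Bl)).card ≤ Bl.card * D.d := by
    have h4 : (D.H.G.filter (fun e => Sum.inl e.1 ∈ Bl)) ⊆
        (univ.filter (fun x : X => Sum.inl x ∈ Bl)).biUnion
          (fun x => D.H.G.filter (fun e => e.1 ∈ ({x} : Finset X) ∧ e.2 ∈ (univ : Finset Y))) := by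
      intro e he
      simp only [mem_biUnion, mem_filter, mem_univ, true_and, mem_singleton, and_true] at he ⊢
      exact ⟨e.1, he.2, he.1, rfl⟩
    refine (card_le_card h4).trans (card_biUnion_le.trans ?_)
    have h5 : ∀ x ∈ (univ.filter (fun x : X => Sum.inl x ∈ Bl)),
        (D.H.G.filter (fun e => e.1 ∈ ({x} : Finset X) ∧ e.2 ∈ (univ : Finset Y))).card = D.d := by
      intro x _
      exact D.H.degX x
    rw [sum_congr rfl h5, sum_const, smul_eq_mul]
    exact Nat.mul_le_mul_right _ h2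
  have hBn : D.B ≤ D.n := by
    have h6 := hD.hB
    have h7 := hD.hB2
    have h8 : 1 ≤ D.t := by
      have := big_t hD.big
      have h9 : (1 : ℝ) ≤ D.t := le_trans (one_le_pow₀ (by norm_num)) this
      exact_mod_cast h9
    calc D.B ≤ D.B0 := h6
      _ ≤ D.t ^ 20 * D.B0 := Nat.le_mul_of_pos_left _ (by positivity)
      _ ≤ D.n := h7
  have hdn := D.H.hd2
  calc S.card ≤ _ := card_le_card hsub
    _ ≤ _ := card_union_le _ _
    _ = D.B * (univ.filter (fun y : Y => Sum.inr y ∈ Bl)).card +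
        (D.H.G.filter (fun e => Sum.inl e.1 ∈ Bl)).card := by
          rw [card_map, card_map, card_product, card_univ, Fintype.card_fin]
    _ ≤ D.n * Bl.card + Bl.card * D.n := by
          refine add_le_add (Nat.mul_le_mul hBn h1) (h3.trans (Nat.mul_le_mul_left _ hdn))
    _ = 2 * D.n * Bl.card := by ring
    _ ≤ _ := Nat.mul_le_mul_left _ hb

private lemma n02_pow (hD : CtxOK D) : (D.n + 1) ^ 4 ≤ D.n ^ 17 := by
  have h1 := n02_big D hD
  have h0 : 2 ^ 4 ≤ D.n := le_trans (Nat.pow_le_pow_right (by norm_num) (by norm_num)) h1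
  have h2 : D.n + 1 ≤ 2 * D.n := by omega
  calc (D.n + 1) ^ 4 ≤ (2 * D.n) ^ 4 := Nat.pow_le_pow_left h2 4
    _ = 2 ^ 4 * D.n ^ 4 := by ring
    _ ≤ D.n * D.n ^ 4 := Nat.mul_le_mul_right _ h0
    _ = D.n ^ 5 := by ring
    _ ≤ D.n ^ 17 := Nat.pow_le_pow_right (by omega) (by norm_num)

theorem near_card (hD : CtxOK D) (v : X ⊕ Y) : (nearV D.B D.H.G v).card ≤ D.n ^ 19 := by
  classical
  have h1 := n02_big D hD
  have h0 : 2 ^ 4 ≤ D.n := le_trans (Nat.pow_le_pow_right (by norm_num) (by norm_num)) h1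
  have h := n02_gen D hD 4 {v} (nearV D.B D.H.G v) (by
      intro c y hy
      unfold nearV at hy
      rw [mem_filter] at hy
      exact hy.2) (by
      intro x y hy
      unfold nearV at hy
      rw [mem_filter] at hy
      exact hy.2)
  rw [card_singleton, mul_one] at h
  calc _ ≤ _ := h
    _ ≤ D.n * D.n * D.n ^ 17 := Nat.mul_le_mul (Nat.mul_le_mul_right _ (by omega)) (n02_pow D hD)
    _ = D.n ^ 19 := by ring

theorem near_mult (hD : CtxOK D) (w : D.Var) :
    (univ.filter (fun v : X ⊕ Y => w ∈ nearV D.B D.H.G v)).card ≤ D.n ^ 19 := by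
  classical
  have h1 := n02_big D hD
  have hpos : 1 ≤ D.n := le_trans (Nat.one_le_pow _ _ (by norm_num)) h1
  have key : ∀ u : X ⊕ Y, (∀ v, w ∈ nearV D.B D.H.G v → u ∈ ball D.H.G 4 {v}) →
      (univ.filter (fun v : X ⊕ Y => w ∈ nearV D.B D.H.G v)).card ≤ D.n ^ 19 := by
    intro u hu
    have hsub : (univ.filter (fun v : X ⊕ Y => w ∈ nearV D.B D.H.G v)) ⊆ ball D.H.G 4 {u} := by
      intro v hv
      rw [mem_filter] at hv
      exact (ball_symm D.H.G 4 u v).1 (hu v hv.2)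
    calc _ ≤ _ := card_le_card hsub
      _ ≤ (D.n + 1) ^ 4 * ({u} : Finset (X ⊕ Y)).card := ball_card D.H 4 {u}
      _ = (D.n + 1) ^ 4 := by rw [card_singleton, mul_one]
      _ ≤ D.n ^ 17 := n02_pow D hD
      _ ≤ D.n ^ 19 := Nat.pow_le_pow_right hpos (by norm_num)
  rcases w with ⟨c, y⟩ | ⟨x, y⟩
  · refine key (Sum.inr y) ?_
    intro v hv
    unfold nearV at hv
    rw [mem_filter] at hv
    exact hv.2
  · refine key (Sum.inl x) ?_
    intro v hv
    unfold nearV at hv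
    rw [mem_filter] at hv
    exact hv.2.1

theorem supT_card (hD : CtxOK D) (T : Finset (X ⊕ Y)) : (supT D.B D.H.G T).card ≤ D.n ^ 1020 * T.card := by
  classical
  have h1 := n02_big D hD
  have hpos : 1 ≤ D.n := le_trans (Nat.one_le_pow _ _ (by norm_num)) h1
  have h := n02_gen D hD (rW + 5) T (supT D.B D.H.G T) (by
      intro c y hy
      unfold supT at hy
      generalize ball D.H.G (rW + 5) T = Bl at hy ⊢
      simp only [mem_filter, mem_univ, true_and] at hy
      exact hy) (by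
      intro x y hy
      unfold supT at hy
      generalize ball D.H.G (rW + 5) T = Bl at hy ⊢
      simp only [mem_filter, mem_univ, true_and] at hy
      exact hy)
  have h2 : D.n + 1 ≤ 2 * D.n := by omega
  have hr : rW + 5 = 1005 := by simp [rW]
  rw [hr] at h
  calc _ ≤ _ := h
    _ ≤ 2 * D.n * ((2 * D.n) ^ 1005 * T.card) := by
        exact Nat.mul_le_mul_left _ (Nat.mul_le_mul_right _ (Nat.pow_le_pow_left h2 1005))
    _ = (2 * D.n) * (2 * D.n) ^ 1005 * T.card := by rw [← mul_assoc]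
    _ = (2 * D.n) ^ 1006 * T.card := by rw [← pow_succ']
    _ = 2 ^ 1006 * D.n ^ 1006 * T.card := by rw [mul_pow]
    _ ≤ D.n * D.n ^ 1006 * T.card := by
        exact Nat.mul_le_mul_right _ (Nat.mul_le_mul_right _ h1)
    _ = D.n ^ 1007 * T.card := by rw [← pow_succ']
    _ ≤ D.n ^ 1020 * T.card := Nat.mul_le_mul_right _ (Nat.pow_le_pow_right hpos (by norm_num))

end Pool.SCDH
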