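import Pool.Agent.Lib.SCDH.MDefs
import Pool.Agent.Lib.SCDH.G03
import Pool.Agent.Lib.SCDH.G04
import Pool.Agent.Lib.SCDH.N01
import Pool.Agent.Lib.SCDH.N02
import Pool.Agent.Lib.SCDH.L01

/-!
# Row GL1 (paper scd_h36.md)
The sizes: |Sc| ≤ NX ≤ |Sc| + |Zs| outside a tiny probability.
Recipe: Sc: sum over y ∉ OY c (a+1 of them) of indicators with mean ρ₁, expectation NX(1-δ), δ = n^-20: Lib2.tail_bound (W = a+1, s = δ NX): exp(-δ² NX²/(4(a+1))) with NX ≥ |Y|/(2n). Second: Sc ∪ Zs (disjoint): y is not in it iff not in and not free: mean number = (a+1)(ρ' + δ - ρ'δ) = NX + δ(a+1-NX). If κ = d then |X| = |Y|, NX = a+1 and everything is in. If κ < d then |Y| - |X| ≥ |Y|/n and the deviation δ|Y|/n is large: exp(-n^-42|Y|/4). Both ≤ exp(-|Y|/n^50)/2 with |Y| ≥ n^100.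
-/

set_option linter.unusedSectionVars false
set_option linter.unusedVariables false

namespace Pool.SCDH

open Finset Pool.MP_0ccee8_co.Lib2

variable {X Y : Type} [Fintype X] [DecidableEq X] [Fintype Y] [DecidableEq Y]
variable (D : Ctx X Y)

/-- deviations of a number of labels -/
theorem count_tail (c : Fin D.B) (Q : D.Lab → Prop) [DecidablePred Q] (p : ℝ)
    (hp : ∀ w : D.Var, P (fun φ : D.Lbl => Q (φ w)) = p) (S : Finset Y) (hS : 0 < S.card)
    (s : ℝ) (hs : 0 ≤ s) (hs2 : s ≤ 2 * S.card) :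
    P (fun φ : D.Lbl => s < |((S.filter (fun y => Q (φ (.inl (c, y))))).card : ℝ) - p * S.card|) ≤
      2 * Real.exp (-(s ^ 2 / (4 * S.card))) := by
  obtain ⟨y0, hy0⟩ := Finset.card_pos.1 hS
  have hp0 : 0 ≤ p := by rw [← hp (.inl (c, y0))]; exact P_nonneg _
  have hp1 : p ≤ 1 := by rw [← hp (.inl (c, y0))]; exact P_le_one _
  have hT : ∀ (b : Y) (ψ : D.Lbl), |(if Q (ψ (.inl (c, b))) then (1 : ℝ) else 0) - p| ≤ 1 := by
    intro b ψ
    split_ifs <;> rw [abs_le] <;> constructor <;> linarith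
  have hmix : ∀ φ ψ : D.Lbl, mix (univ : Finset D.Var) φ ψ = φ := by
    intro φ ψ
    funext v
    exact mix_in (mem_univ v)
  have key := tail_bound (univ : Finset D.Var) S (fun y => {(.inl (c, y) : D.Var)})
    (by
      intro b _ b' _ hbb
      rw [Finset.disjoint_singleton]
      intro h
      apply hbb
      simpa using h)
    (fun y φ => (if Q (φ (.inl (c, y))) then (1 : ℝ) else 0) - p)
    (by
      intro b _ ψ φ φ' h
      simp only [hmix]
      rw [h (.inl (c, b)) (by simp)])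
    1 (fun b _ ψ => hT b ψ)
    (by
      intro b _ ψ
      simp only [hmix]
      rw [E_sub, E_const]
      have h := hp (.inl (c, b))
      unfold P at h
      have h' : E (fun φ : D.Lbl => (if Q (φ (.inl (c, b))) then (1 : ℝ) else 0)) = p := by
        rw [← h]; refine E_congr fun φ => ?_; congr
      linarith)
    (fun _ _ => 1)
    (by
      intro b _ ψ
      simp only [hmix]
      rw [← E_const (V := D.Var) (κ := D.Lab) (1 : ℝ)]
      refine E_mono fun φ => ?_
      have := hT b φ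
      rw [E_const, ← sq_abs]
      nlinarith [abs_nonneg ((if Q (φ (.inl (c, b))) then (1 : ℝ) else 0) - p)])
    (S.card : ℝ) (by exact_mod_cast hS) (by intro ψ; simp) s hs (by linarith)
  refine le_trans (le_of_eq ?_) key
  congr 1
  funext φ
  have h1 : ∑ b ∈ S, ((if Q (φ (.inl (c, b))) then (1 : ℝ) else 0) - p) =
      ((S.filter (fun y => Q (φ (.inl (c, y))))).card : ℝ) - p * S.card := by
    rw [Finset.sum_sub_distrib, Finset.sum_const, nsmul_eq_mul, Finset.sum_boole]
    ring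
  rw [h1]

theorem P_notin (hD : CtxOK D) (w : D.Var) :
    P (fun φ : D.Lbl => ¬ (((φ w).1 : ℕ) < D.NX) ∧ ((φ w).2.1 : ℕ) ≠ 0) =
      (1 - D.rho') * (1 - 1 / ((D.z : ℝ) + 1)) := by
  classical
  have h1 := P_z D w
  have h2 := P_inz D hD w
  have h3 : D.rho1 = D.rho' * (1 - 1 / ((D.z : ℝ) + 1)) := rfl
  have h4 : P (fun φ : D.Lbl => ¬ (((φ w).1 : ℕ) < D.NX) ∧ ((φ w).2.1 : ℕ) ≠ 0) =
      E (fun φ : D.Lbl => (1 - (if ((φ w).2.1 : ℕ) = 0 then (1 : ℝ) else 0)) -
        (if ((φ w).1 : ℕ) < D.NX ∧ ((φ w).2.1 : ℕ) ≠ 0 then (1 : ℝ) else 0)) := by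
    refine E_congr fun φ => ?_
    by_cases a : ((φ w).1 : ℕ) < D.NX <;> by_cases b : ((φ w).2.1 : ℕ) = 0 <;> simp [a, b]
  rw [h4, E_sub, E_sub, E_const]
  have h5 : E (fun φ : D.Lbl => (if ((φ w).2.1 : ℕ) = 0 then (1 : ℝ) else 0)) =
      1 / ((D.z : ℝ) + 1) := by
    rw [← h1]; unfold P; refine E_congr fun φ => ?_; congr
  have h6 : E (fun φ : D.Lbl => (if ((φ w).1 : ℕ) < D.NX ∧ ((φ w).2.1 : ℕ) ≠ 0 then (1 : ℝ)
      else 0)) = D.rho1 := by
    rw [← h2]; unfold P; refine E_congr fun φ => ?_; congr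
  rw [h5, h6, h3]
  ring

/-- The `y` outside the outer set. -/
def Yc (c : Fin D.B) : Finset Y := univ.filter (fun y => y ∉ D.O.OY c)

theorem Yc_card (hD : CtxOK D) (c : Fin D.B) : (Yc D c).card = D.a + 1 := by
  have h1 := hD.out.cY c
  have h2 := hD.ha
  have h3 : Yc D c = (D.O.OY c)ᶜ := by
    ext y; simp [Yc]
  rw [h3, Finset.card_compl, h1]
  omega

theorem Sc_eq (φ : D.Lbl) (c : Fin D.B) : D.Sc φ c =
    (Yc D c).filter (fun y => ((φ (.inl (c, y))).1 : ℕ) < D.NX ∧ ((φ (.inl (c, y))).2.1 : ℕ) ≠ 0) := by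
  ext y
  simp only [Ctx.Sc, Ctx.Sin, Ctx.Zs, Yc, mem_sdiff, mem_filter, mem_univ, true_and]
  tauto

theorem Zs_eq (φ : D.Lbl) (c : Fin D.B) : D.Zs φ c =
    (Yc D c).filter (fun y => ((φ (.inl (c, y))).2.1 : ℕ) = 0) := by
  ext y
  simp only [Ctx.Zs, Yc, mem_filter, mem_univ, true_and]

theorem card_three (φ : D.Lbl) (c : Fin D.B) : (D.Sc φ c).card + (D.Zs φ c).card +
    ((Yc D c).filter (fun y => ¬ (((φ (.inl (c, y))).1 : ℕ) < D.NX) ∧
      ((φ (.inl (c, y))).2.1 : ℕ) ≠ 0)).card = (Yc D c).card := by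
  rw [Sc_eq, Zs_eq, ← Finset.card_union_of_disjoint, ← Finset.card_union_of_disjoint]
  · congr 1
    ext y
    simp only [mem_union, mem_filter]
    tauto
  · rw [Finset.disjoint_left]
    intro y
    simp only [mem_union, mem_filter]
    tauto
  · rw [Finset.disjoint_left]
    intro y
    simp only [mem_filter]
    tauto

/-- the numerical part -/
theorem glob_num (y n : ℝ) (hn : (10 : ℝ) ^ 100 ≤ n) (hy : n ^ 100 ≤ y) :
    2 * Real.exp (-(y / n ^ 42 / 16)) + 2 * Real.exp (-(y / n ^ 42 / 16)) ≤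
      Real.exp (-(2 * y / n ^ 51)) := by
  have hn1 : (1 : ℝ) ≤ n := le_trans (by norm_num) hn
  have hn0 : (0 : ℝ) < n := by linarith
  have hE : (100 : ℝ) ≤ y / n ^ 42 := by
    rw [le_div_iff₀ (by positivity)]
    have h1 : n ^ 100 = n ^ 57 * (n * n ^ 42) := by ring
    have h2 : (100 : ℝ) ≤ n := le_trans (by norm_num) hn
    have h3 : (1 : ℝ) ≤ n ^ 57 := one_le_pow₀ hn1
    have h4 : 100 * n ^ 42 ≤ n * n ^ 42 := mul_le_mul_of_nonneg_right h2 (by positivity)
    have h5 : n * n ^ 42 ≤ n ^ 57 * (n * n ^ 42) := le_mul_of_one_le_left (by positivity) h3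
    linarith
  have hE2 : 2 * y / n ^ 51 ≤ y / n ^ 42 / 64 := by
    have h1 : 2 * y / n ^ 51 = (y / n ^ 42) * (2 / n ^ 9) := by
      field_simp
    have h2 : 2 / n ^ 9 ≤ 1 / 64 := by
      rw [div_le_div_iff₀ (by positivity) (by norm_num)]
      have h3 : n ≤ n ^ 9 := le_self_pow₀ hn1 (by norm_num)
      have h4 : (128 : ℝ) ≤ n := le_trans (by norm_num) hn
      linarith
    rw [h1]
    have := mul_le_mul_of_nonneg_left h2 (by linarith : (0 : ℝ) ≤ y / n ^ 42)
    linarith
  have h4 : (4 : ℝ) ≤ Real.exp (y / n ^ 42 / 16 - y / n ^ 42 / 64) := by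
    have := Real.add_one_le_exp (y / n ^ 42 / 16 - y / n ^ 42 / 64)
    linarith
  have h5 : 4 * Real.exp (-(y / n ^ 42 / 16)) ≤ Real.exp (-(y / n ^ 42 / 64)) := by
    calc 4 * Real.exp (-(y / n ^ 42 / 16))
        ≤ Real.exp (y / n ^ 42 / 16 - y / n ^ 42 / 64) * Real.exp (-(y / n ^ 42 / 16)) :=
          mul_le_mul_of_nonneg_right h4 (Real.exp_pos _).le
      _ = Real.exp (-(y / n ^ 42 / 64)) := by rw [← Real.exp_add]; congr 1; ring
  have h6 : Real.exp (-(y / n ^ 42 / 64)) ≤ Real.exp (-(2 * y / n ^ 51)) :=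
    Real.exp_le_exp.2 (by linarith)
  linarith

theorem glob_ok (hD : CtxOK D) (c : Fin D.B) :
    P (fun φ : D.Lbl => ¬ D.glob φ c) ≤ Real.exp (-(2 * (Fintype.card Y : ℝ) / (D.n : ℝ) ^ 51)) := by
  classical
  obtain ⟨ht1, ht2, hε, hε1⟩ := ctx_t D hD
  obtain ⟨hn1, hn2⟩ := ctx_n D hD
  obtain ⟨hk1, hk2, hk3, hk4⟩ := ctx_deg D hD
  obtain ⟨hc1, hc2, hc3, hc4, hc5, hc6, hc7, hc8⟩ := ctx_cards D hD
  obtain ⟨hr1, hr2, hr3, hr4, hr5, hr6⟩ := ctx_rho D hD
  set t : ℝ := (D.t : ℝ) with ht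
  set n : ℝ := (D.n : ℝ) with hn
  set κ : ℝ := (D.κ : ℝ) with hκ
  set dd : ℝ := (D.d : ℝ) with hdd
  set y : ℝ := (Fintype.card Y : ℝ) with hy
  set x : ℝ := (Fintype.card X : ℝ) with hx
  set ω : ℝ := (D.ω : ℝ) with hω
  set m : ℝ := (D.a : ℝ) + 1 with hm
  have htp : (1 : ℝ) ≤ t := le_trans (by norm_num) ht1
  have hnbig : (10 : ℝ) ^ 100 ≤ n := by
    have : t ≤ t ^ 200 := le_self_pow₀ htp (by norm_num)
    linarith
  have hn0 : 0 < n := lt_of_lt_of_le (by norm_num) hnbig
  have hκ1 : 1 ≤ κ := by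
    have : (1 : ℝ) ≤ t ^ 50 := one_le_pow₀ htp
    linarith
  have hd0 : 0 < dd := by linarith
  have hd1 : 1 ≤ dd := by linarith
  have hy0 : 0 < y := by
    have : 0 < n ^ 100 := by positivity
    linarith
  have hω0 : 0 ≤ ω := Nat.cast_nonneg _
  have hωy : ω ≤ y / 2 := by
    refine hc7.trans ?_
    refine div_le_div_of_nonneg_left hy0.le (by norm_num) ?_
    have h1 : t ≤ t ^ 26 := le_self_pow₀ htp (by norm_num)
    have h2 : (2 : ℝ) ≤ t := le_trans (by norm_num) ht1
    have h3 : t ^ 26 ≤ t ^ 26 * dd := le_mul_of_one_le_right (by positivity) hd1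
    linarith
  have hm0 : 0 < m := by positivity
  have hmy : y / 2 ≤ m := by rw [hc5]; linarith
  have hmy' : m ≤ y := by rw [hc5]; linarith
  have hScard : ((Yc D c).card : ℝ) = m := by rw [Yc_card D hD c, hm]; push_cast; ring
  have hSpos : 0 < (Yc D c).card := by rw [Yc_card D hD c]; omega
  have hρm : D.rho' * m = D.NX := by
    show (D.NX : ℝ) / ((D.a : ℝ) + 1) * m = D.NX
    rw [hm]; field_simp
  have hδ : (D.z : ℝ) + 1 = n ^ 20 := hc6
  set δ : ℝ := 1 / ((D.z : ℝ) + 1) with hδd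
  have hδ' : δ = 1 / n ^ 20 := by rw [hδd, hδ]
  have hδ0 : 0 < δ := by rw [hδ']; positivity
  have hδ1 : δ ≤ 1 := by
    rw [hδ', div_le_one (by positivity)]
    exact one_le_pow₀ (by linarith)
  have hρ1 : D.rho1 = D.rho' * (1 - δ) := rfl
  have hρn : 99 / 100 / n ≤ D.rho' := by
    have h1 : 1 / n ≤ κ / dd := by
      rw [div_le_div_iff₀ hn0 hd0]
      have h2 : n ≤ κ * n := le_mul_of_one_le_left hn0.le hκ1
      linarith
    have h2 : 99 / 100 / n = 99 / 100 * (1 / n) := by ring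
    rw [h2]
    linarith
  have hρ0 : 0 ≤ D.rho' := le_trans (by positivity) hρn
  have hNXm : (D.NX : ℝ) ≤ m := by
    have h1 := mul_le_mul_of_nonneg_right hr4 hm0.le
    linarith
  have hNX0 : (0 : ℝ) ≤ D.NX := Nat.cast_nonneg _
  -- event A
  have hA : P (fun φ : D.Lbl => (D.NX : ℝ) < ((D.Sc φ c).card : ℝ)) ≤
      2 * Real.exp (-(y / n ^ 42 / 16)) := by
    have h1 := count_tail D c (fun l => ((l.1 : ℕ) < D.NX ∧ (l.2.1 : ℕ) ≠ 0)) D.rho1
      (fun w => P_inz D hD w) (Yc D c) hSpos (D.NX * δ) (by positivity) (by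
        rw [hScard]
        have h1 : (D.NX : ℝ) * δ ≤ D.NX := mul_le_of_le_one_right hNX0 hδ1
        linarith)
    refine le_trans (P_mono ?_) (h1.trans ?_)
    · intro φ hφ
      rw [hScard]
      rw [← Sc_eq D φ c]
      refine lt_of_lt_of_le ?_ (le_abs_self _)
      have h3 : D.rho1 * m = D.NX * (1 - δ) := by rw [hρ1, mul_right_comm, hρm]
      rw [h3]
      linarith
    · refine mul_le_mul_of_nonneg_left (Real.exp_le_exp.2 ?_) (by norm_num)
      rw [hScard]
      have h3 : y / n ^ 42 / 16 ≤ (D.NX * δ) ^ 2 / (4 * m) := by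
        rw [← hρm, hδ']
        have h4 : (D.rho' * m * (1 / n ^ 20)) ^ 2 / (4 * m) = D.rho' ^ 2 * m / 4 / n ^ 40 := by
          field_simp
        rw [h4]
        have h5 : (99 / 100 / n) ^ 2 ≤ D.rho' ^ 2 := pow_le_pow_left₀ (by positivity) hρn 2
        have h6 : (99 / 100 / n) ^ 2 * (y / 2) ≤ D.rho' ^ 2 * m :=
          mul_le_mul h5 hmy (by positivity) (by positivity)
        have h7 : y / n ^ 42 / 16 ≤ (99 / 100 / n) ^ 2 * (y / 2) / 4 / n ^ 40 := by
          have h8 : (99 / 100 / n) ^ 2 * (y / 2) / 4 / n ^ 40 = (y / n ^ 42) * (9801 / 80000) := by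
            field_simp
            ring
          rw [h8]
          have : 0 ≤ y / n ^ 42 := by positivity
          linarith
        refine h7.trans ?_
        gcongr
      linarith
  -- event B
  have hB : P (fun φ : D.Lbl => ((D.Sc φ c).card : ℝ) + ((D.Zs φ c).card : ℝ) < (D.NX : ℝ)) ≤
      2 * Real.exp (-(y / n ^ 42 / 16)) := by
    by_cases hκd : D.κ = D.d
    · -- everything is in
      have h1 : ∀ φ : D.Lbl, ¬ (((D.Sc φ c).card : ℝ) + ((D.Zs φ c).card : ℝ) < (D.NX : ℝ)) := by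
        intro φ h
        have h2 := card_three D φ c
        have hxy : x = y := by
          have h3 : κ = dd := by rw [hκ, hdd, hκd]
          rw [h3] at hc1
          exact mul_right_cancel₀ hd0.ne' hc1
        have hNX : (D.NX : ℝ) = m := by rw [hc4, hc5, hxy]
        have hNX' : D.NX = D.a + 1 := by
          have : (D.NX : ℝ) = ((D.a + 1 : ℕ) : ℝ) := by rw [hNX, hm]; push_cast; ring
          exact_mod_cast this
        have h4 : ((Yc D c).filter (fun y => ¬ (((φ (.inl (c, y))).1 : ℕ) < D.NX) ∧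
            ((φ (.inl (c, y))).2.1 : ℕ) ≠ 0)) = ∅ := by
          rw [Finset.filter_eq_empty_iff]
          intro y' _ h5
          exact h5.1 (by rw [hNX']; exact (φ (.inl (c, y'))).1.2)
        rw [h4, Finset.card_empty, add_zero] at h2
        have h5 : ((D.Sc φ c).card : ℝ) + ((D.Zs φ c).card : ℝ) = m := by
          rw [← hScard, ← h2]; push_cast; ring
        rw [h5, hNX] at h
        exact lt_irrefl _ h
      have h2 : P (fun φ : D.Lbl => ((D.Sc φ c).card : ℝ) + ((D.Zs φ c).card : ℝ) < (D.NX : ℝ)) ≤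
          P (fun _ : D.Lbl => False) := P_mono fun φ h => h1 φ h
      rw [P_false] at h2
      refine h2.trans (by positivity)
    · have hlt : κ + 1 ≤ dd := by
        have h1 : D.κ ≤ D.d := by
          have : (D.κ : ℝ) ≤ (D.d : ℝ) := hk2
          exact_mod_cast this
        have h2 : D.κ + 1 ≤ D.d := by omega
        rw [hκ, hdd]; exact_mod_cast h2
      have hdiff : y / n ≤ m - D.NX := by
        rw [hc4, hc5]
        have h1 : y / n ≤ y / dd := div_le_div_of_nonneg_left hy0.le hd0 hk3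
        have h2 : y / dd ≤ y - x := by
          rw [div_le_iff₀ hd0]
          have : (y - x) * dd = y * (dd - κ) := by linear_combination -hc1
          rw [this]
          exact le_mul_of_one_le_right hy0.le (by linarith)
        linarith
      have h1 := count_tail D c (fun l => (¬ ((l.1 : ℕ) < D.NX) ∧ (l.2.1 : ℕ) ≠ 0))
        ((1 - D.rho') * (1 - 1 / ((D.z : ℝ) + 1)))
        (fun w => P_notin D hD w) (Yc D c) hSpos ((m - D.NX) * δ)
        (mul_nonneg (by linarith) hδ0.le) (by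
          rw [hScard]
          have h1 : (m - D.NX) * δ ≤ m - D.NX := mul_le_of_le_one_right (by linarith) hδ1
          linarith)
      refine le_trans (P_mono ?_) (h1.trans ?_)
      · intro φ hφ
        rw [hScard]
        refine lt_of_lt_of_le ?_ (le_abs_self _)
        have h2 := card_three D φ c
        have h2' : ((D.Sc φ c).card : ℝ) + ((D.Zs φ c).card : ℝ) +
          (((Yc D c).filter (fun y => ¬ (((φ (.inl (c, y))).1 : ℕ) < D.NX) ∧
            ((φ (.inl (c, y))).2.1 : ℕ) ≠ 0)).card : ℝ) = m := by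
          rw [← hScard, ← h2]; push_cast; ring
        have h3 : (1 - D.rho') * (1 - 1 / ((D.z : ℝ) + 1)) * m = (m - D.NX) * (1 - δ) := by
          rw [← hδd]; linear_combination -(1 - δ) * hρm
        rw [h3]
        linarith
      · refine mul_le_mul_of_nonneg_left (Real.exp_le_exp.2 ?_) (by norm_num)
        rw [hScard]
        have h3 : y / n ^ 42 / 16 ≤ ((m - D.NX) * δ) ^ 2 / (4 * m) := by
          rw [hδ']
          have h4 : (y / n * (1 / n ^ 20)) ^ 2 ≤ ((m - D.NX) * (1 / n ^ 20)) ^ 2 := by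
            apply pow_le_pow_left₀ (by positivity)
            exact mul_le_mul_of_nonneg_right hdiff (by positivity)
          have h5 : y / n ^ 42 / 16 ≤ (y / n * (1 / n ^ 20)) ^ 2 / (4 * y) := by
            have h6 : (y / n * (1 / n ^ 20)) ^ 2 / (4 * y) = y / n ^ 42 / 4 := by
              field_simp
            rw [h6]
            have : 0 ≤ y / n ^ 42 := by positivity
            linarith
          refine h5.trans ?_
          refine (div_le_div_of_nonneg_left (by positivity) (by positivity)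
            (by linarith : 4 * m ≤ 4 * y)).trans ?_
          exact div_le_div_of_nonneg_right h4 (by positivity)
        linarith
  have hy100 : n ^ 100 ≤ y := hc3.trans hc2
  refine le_trans ?_ (glob_num y n hnbig hy100)
  refine le_trans (le_trans (P_mono ?_) (P_or _ _)) (add_le_add hA hB)
  intro φ h
  unfold Ctx.glob at h
  rw [not_and_or] at h
  rcases h with h | h
  · left
    push Not at h
    exact_mod_cast h
  · right
    push Not at h
    exact_mod_cast h

end Pool.SCDH
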