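import Pool.Agent.Lib.SCDH.Defs
import Pool.Agent.Lib.SCDH.L01

/-!
# Row L06 (paper scd_h36.md)
Local events, macroscopic events and global events can be avoided together.
Recipe: Lib2.lll_extra with p = exp(-(3t)), D = n^40 (an event shares a variable with at most n^20 * n^20 others; 4 p D ≤ 1 from ht), extra family χ' = {T nonempty} ⊕ χ, suppB = sM T resp. univ (Dep on univ is trivial). g(T) = exp(-(4n|T|) + |T|): number of touching events ≤ n^1042 |T| and (1-2p)^m ≥ exp(-4pm) (p ≤ 1/4), 4 p n^1042 ≤ 1. ∑_{T ≠ ∅} exp((1-4n)|T|) = (1+e^(1-4n))^|Ω| - 1 ≤ exp(2^(n+1) e^(1-4n)) - 1 ≤ 1/50 (n ≥ 2). Global: touching ≤ card ι ≤ 2N, exp(4p·2N) ≤ exp(N/(2n^51)) because 16 p n^51 ≤ 1: g = exp(-N/(2 n^51)) ≤ exp(-n^9/2), number ≤ 2n, sum ≤ 1/2.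
-/

set_option linter.unusedSectionVars false
set_option linter.unusedVariables false

namespace Pool.SCDH

open Finset Pool.MP_0ccee8_co.Lib2

variable {V K : Type} [Fintype V] [DecidableEq V] [Fintype K] [Nonempty K]

private lemma l06_exp_le {x : ℝ} (h0 : 0 ≤ x) (h1 : x ≤ 1 / 2) : Real.exp (-(2 * x)) ≤ 1 - x := by
  have h2 := Real.add_one_le_exp (2 * x)
  rw [Real.exp_neg, inv_le_comm₀ (Real.exp_pos _) (by linarith)]
  refine le_trans ?_ h2
  rw [inv_le_comm₀ (by linarith) (by linarith), inv_le_iff_one_le_mul₀ (by linarith)]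
  nlinarith

private lemma l06_pow_ge {p : ℝ} (h0 : 0 ≤ p) (h1 : 4 * p ≤ 1) (m : ℕ) (c : ℝ) (hc : 4 * p * m ≤ c) :
    Real.exp (-c) ≤ (1 - 2 * p) ^ m := by
  have h2 := l06_exp_le (x := 2 * p) (by linarith) (by linarith)
  calc Real.exp (-c) ≤ Real.exp (m * (-(2 * (2 * p)))) := Real.exp_le_exp.2 (by nlinarith)
    _ = Real.exp (-(2 * (2 * p))) ^ m := by rw [Real.exp_nat_mul]
    _ ≤ (1 - 2 * p) ^ m := pow_le_pow_left₀ (Real.exp_pos _).le h2 m

private lemma l06_touch {ι : Type} [Fintype ι] [DecidableEq ι] (supp : ι → Finset V) (c : ℕ)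
    (hm : ∀ v, (univ.filter (fun i => v ∈ supp i)).card ≤ c) (S : Finset V) :
    (univ.filter (fun j => ¬ Disjoint S (supp j))).card ≤ S.card * c := by
  classical
  calc (univ.filter (fun j => ¬ Disjoint S (supp j))).card
      ≤ (S.biUnion (fun v => univ.filter (fun i => v ∈ supp i))).card := by
        refine card_le_card (fun j hj => ?_)
        rw [mem_filter] at hj
        obtain ⟨v, h1, h2⟩ := not_disjoint_iff.1 hj.2
        exact mem_biUnion.2 ⟨v, h1, mem_filter.2 ⟨mem_univ _, h2⟩⟩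
    _ ≤ S.card * c := card_biUnion_le_card_mul _ _ _ (fun v _ => hm v)

private lemma l06_e7 : Real.exp 7 ≥ 1000 := by
  have h1 : (2.7182818283 : ℝ) < Real.exp 1 := Real.exp_one_gt_d9
  have h2 : Real.exp 7 = Real.exp 1 ^ 7 := by rw [← Real.exp_nat_mul]; norm_num
  rw [h2]
  calc (1000 : ℝ) ≤ 2.7182818283 ^ 7 := by norm_num
    _ ≤ Real.exp 1 ^ 7 := pow_le_pow_left₀ (by norm_num) h1.le 7

private lemma l06_sumT {Ω : Type} [Fintype Ω] [DecidableEq Ω] (q : ℝ) :
    ∑ T : {T : Finset Ω // T.Nonempty}, q ^ T.1.card = (1 + q) ^ (Fintype.card Ω) - 1 := by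
  classical
  have h1 : ∑ T : Finset Ω, q ^ T.card = (1 + q) ^ (Fintype.card Ω) := by
    have := (Finset.sum_pow_mul_eq_add_pow q 1 (univ : Finset Ω))
    simp only [one_pow, mul_one, powerset_univ, card_univ] at this
    rw [this, add_comm]
  have h2 : ∑ T : {T : Finset Ω // T.Nonempty}, q ^ T.1.card
      = ∑ T ∈ (univ : Finset (Finset Ω)).filter (fun T => T.Nonempty), q ^ T.card := by
    rw [Finset.sum_subtype (p := fun T : Finset Ω => T.Nonempty)]
    intro x
    simp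
  rw [h2]
  have h3 : (univ : Finset (Finset Ω)).filter (fun T => T.Nonempty) = univ.erase ∅ := by
    ext T
    simp [nonempty_iff_ne_empty]
  rw [h3, ← h1, ← Finset.sum_erase_add _ _ (mem_univ (∅ : Finset Ω))]
  simp

theorem exists_avoid {ι Ω χ : Type} [Fintype ι] [DecidableEq ι] [Fintype Ω] [DecidableEq Ω] [Fintype χ]
    (t n N : ℕ) (hn : 2 ≤ n) (ht : (n : ℝ) ^ 1100 ≤ Real.exp t)
    (A : ι → (V → K) → Prop) (supp : ι → Finset V) (hdep : ∀ i, Dep (A i) (supp i))
    (hpA : ∀ i, P (A i) ≤ Real.exp (-(3 * t)))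
    (hs : ∀ i, (supp i).card ≤ n ^ 20) (hm : ∀ v, (univ.filter (fun i => v ∈ supp i)).card ≤ n ^ 20)
    (hΩ : Fintype.card Ω ≤ 2 ^ (n + 1))
    (M : Finset Ω → (V → K) → Prop) (sM : Finset Ω → Finset V) (hdM : ∀ T, Dep (M T) (sM T))
    (hpM : ∀ T, T.Nonempty → P (M T) ≤ Real.exp (-(4 * n * T.card)))
    (hsM : ∀ T, (sM T).card ≤ n ^ 1022 * T.card)
    (hι : Fintype.card ι ≤ 2 * N) (hN : n ^ 60 ≤ N)
    (Gl : χ → (V → K) → Prop) (hχ : Fintype.card χ ≤ 2 * n)
    (hpG : ∀ x, P (Gl x) ≤ Real.exp (-((N : ℝ) / (n : ℝ) ^ 51))) :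
    ∃ φ, (∀ i, ¬ A i φ) ∧ (∀ T, T.Nonempty → ¬ M T φ) ∧ ∀ x, ¬ Gl x φ := by
  classical
  have hn2 : (2 : ℝ) ≤ n := by exact_mod_cast hn
  have hn1 : (1 : ℝ) ≤ n := by linarith
  have hn0 : (0 : ℝ) < n := by linarith
  obtain ⟨p, hp⟩ : ∃ p : ℝ, p = Real.exp (-(3 * t)) := ⟨_, rfl⟩
  have hp0 : 0 < p := by rw [hp]; exact Real.exp_pos _
  have hpn : p * (n : ℝ) ^ 3300 ≤ 1 := by
    have h1 : ((n : ℝ) ^ 1100) ^ 3 ≤ Real.exp t ^ 3 := pow_le_pow_left₀ (by positivity) ht 3
    have h2 : Real.exp t ^ 3 = Real.exp (3 * t) := by rw [← Real.exp_nat_mul]; norm_num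
    have h3 : ((n : ℝ) ^ 1100) ^ 3 = (n : ℝ) ^ 3300 := by rw [← pow_mul]
    rw [h2, h3] at h1
    calc p * (n : ℝ) ^ 3300 ≤ p * Real.exp (3 * t) := mul_le_mul_of_nonneg_left h1 hp0.le
      _ = 1 := by rw [hp, ← Real.exp_add]; simp
  have h4 : (4 : ℝ) ≤ (n : ℝ) ^ 2 := by nlinarith
  have key : ∀ k : ℕ, k + 2 ≤ 3300 → p * (4 * (n : ℝ) ^ k) ≤ 1 := by
    intro k hk
    refine le_trans (mul_le_mul_of_nonneg_left ?_ hp0.le) hpn
    calc 4 * (n : ℝ) ^ k ≤ (n : ℝ) ^ 2 * (n : ℝ) ^ k := mul_le_mul_of_nonneg_right h4 (by positivity)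
      _ = (n : ℝ) ^ (k + 2) := by rw [← pow_add, add_comm]
      _ ≤ (n : ℝ) ^ 3300 := pow_le_pow_right₀ hn1 hk
  have hp4 : 4 * p ≤ 1 := by
    have := key 0 (by norm_num)
    rw [pow_zero] at this
    linarith
  -- the extra family
  obtain ⟨B, hB⟩ : ∃ B : {T : Finset Ω // T.Nonempty} ⊕ χ → (V → K) → Prop,
      B = fun x => Sum.elim (fun T => M T.1) (fun x => Gl x) x := ⟨_, rfl⟩
  obtain ⟨sB, hsB⟩ : ∃ sB : {T : Finset Ω // T.Nonempty} ⊕ χ → Finset V,
      sB = fun x => Sum.elim (fun T => sM T.1) (fun _ => univ) x := ⟨_, rfl⟩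
  obtain ⟨g, hg⟩ : ∃ g : {T : Finset Ω // T.Nonempty} ⊕ χ → ℝ,
      g = fun x => Sum.elim (fun T => Real.exp (1 - 4 * n) ^ T.1.card)
        (fun _ => Real.exp (-((N : ℝ) / (2 * (n : ℝ) ^ 51)))) x := ⟨_, rfl⟩
  have hdB : ∀ x, Dep (B x) (sB x) := by
    rintro (T | x)
    · rw [hB, hsB]; exact hdM T.1
    · rw [hB, hsB]
      intro φ ψ h
      have : φ = ψ := funext (fun v => h v (by simp))
      rw [this]
  have hgB : ∀ x, P (B x) ≤ g x * (1 - 2 * p) ^
      (univ.filter (fun j => ¬ Disjoint (sB x) (supp j))).card := by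
    rintro (T | x)
    · have hT := hpM T.1 T.2
      have hc := l06_touch supp (n ^ 20) hm (sM T.1)
      have hc2 : ((univ.filter (fun j => ¬ Disjoint (sM T.1) (supp j))).card : ℝ)
          ≤ (n : ℝ) ^ 1042 * T.1.card := by
        have h1 : (univ.filter (fun j => ¬ Disjoint (sM T.1) (supp j))).card
            ≤ n ^ 1042 * T.1.card := by
          calc _ ≤ (sM T.1).card * n ^ 20 := hc
            _ ≤ (n ^ 1022 * T.1.card) * n ^ 20 := Nat.mul_le_mul_right _ (hsM T.1)
            _ = n ^ 1042 * T.1.card := by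
              rw [show (1042 : ℕ) = 1022 + 20 from rfl, pow_add]; ring
        exact_mod_cast h1
      have hpow := l06_pow_ge hp0.le hp4
        (univ.filter (fun j => ¬ Disjoint (sM T.1) (supp j))).card (T.1.card : ℝ) (by
          have h1 := key 1042 (by norm_num)
          have hTc : (0 : ℝ) ≤ (T.1.card : ℝ) := Nat.cast_nonneg _
          calc 4 * p * ((univ.filter (fun j => ¬ Disjoint (sM T.1) (supp j))).card : ℝ)
              ≤ 4 * p * ((n : ℝ) ^ 1042 * T.1.card) := mul_le_mul_of_nonneg_left hc2 (by positivity)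
            _ = (p * (4 * (n : ℝ) ^ 1042)) * T.1.card := by ring
            _ ≤ 1 * T.1.card := mul_le_mul_of_nonneg_right h1 hTc
            _ = T.1.card := one_mul _)
      rw [hB, hsB, hg]
      simp only [Sum.elim_inl]
      calc P (M T.1) ≤ Real.exp (-(4 * n * T.1.card)) := hT
        _ = Real.exp (1 - 4 * n) ^ T.1.card * Real.exp (-(T.1.card : ℝ)) := by
          rw [← Real.exp_nat_mul, ← Real.exp_add]
          congr 1
          ring
        _ ≤ _ := mul_le_mul_of_nonneg_left hpow (by positivity)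
    · have hx := hpG x
      have hc : ((univ.filter (fun j => ¬ Disjoint (univ : Finset V) (supp j))).card : ℝ) ≤ 2 * N := by
        have h1 : (univ.filter (fun j => ¬ Disjoint (univ : Finset V) (supp j))).card
            ≤ Fintype.card ι := card_le_univ _
        exact_mod_cast h1.trans hι
      have hpow := l06_pow_ge hp0.le hp4
        (univ.filter (fun j => ¬ Disjoint (univ : Finset V) (supp j))).card
        ((N : ℝ) / (2 * (n : ℝ) ^ 51)) (by
          have h1 := key 53 (by norm_num)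
          have hN0 : (0 : ℝ) ≤ (N : ℝ) := Nat.cast_nonneg _
          rw [le_div_iff₀ (by positivity)]
          calc 4 * p * ((univ.filter (fun j => ¬ Disjoint (univ : Finset V) (supp j))).card : ℝ)
                * (2 * (n : ℝ) ^ 51)
              ≤ 4 * p * (2 * N) * (2 * (n : ℝ) ^ 51) := by gcongr
            _ = (p * (4 * (4 * (n : ℝ) ^ 51))) * N := by ring
            _ ≤ (p * (4 * (n : ℝ) ^ 53)) * N := by
              have h5 : 4 * (n : ℝ) ^ 51 ≤ (n : ℝ) ^ 53 := by
                calc 4 * (n : ℝ) ^ 51 ≤ (n : ℝ) ^ 2 * (n : ℝ) ^ 51 :=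
                      mul_le_mul_of_nonneg_right h4 (by positivity)
                  _ = (n : ℝ) ^ 53 := by rw [← pow_add]
              gcongr
            _ ≤ 1 * N := mul_le_mul_of_nonneg_right h1 hN0
            _ = N := one_mul _)
      rw [hB, hsB, hg]
      simp only [Sum.elim_inr]
      calc P (Gl x) ≤ Real.exp (-((N : ℝ) / (n : ℝ) ^ 51)) := hx
        _ = Real.exp (-((N : ℝ) / (2 * (n : ℝ) ^ 51))) * Real.exp (-((N : ℝ) / (2 * (n : ℝ) ^ 51))) := by
          rw [← Real.exp_add]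
          congr 1
          field_simp
          ring
        _ ≤ _ := mul_le_mul_of_nonneg_left hpow (Real.exp_pos _).le
  have hsum : ∑ x, g x < 1 := by
    rw [hg, Fintype.sum_sum_type]
    simp only [Sum.elim_inl, Sum.elim_inr, sum_const, card_univ, nsmul_eq_mul]
    rw [l06_sumT]
    have hq0 : 0 < Real.exp (1 - 4 * (n : ℝ)) := Real.exp_pos _
    have hq : (2 : ℝ) ^ (n + 1) * Real.exp (1 - 4 * (n : ℝ)) ≤ 1 / 100 := by
      -- by monotonicity in `n`
      have hind : ∀ m : ℕ, (2 : ℝ) ^ (m + 2 + 1) * Real.exp (1 - 4 * ((m : ℝ) + 2))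
          ≤ 1 / 100 := by
        intro m
        induction m with
        | zero =>
          have h7 := l06_e7
          have : Real.exp (1 - 4 * (((0 : ℕ) : ℝ) + 2)) = (Real.exp 7)⁻¹ := by
            rw [← Real.exp_neg]; norm_num
          rw [this]
          have h8 : (Real.exp 7)⁻¹ ≤ 1 / 1000 := by
            rw [inv_le_comm₀ (Real.exp_pos _) (by norm_num)]
            simpa using h7
          norm_num at h8 ⊢
          linarith
        | succ m ih =>
          have h1 : Real.exp (1 - 4 * (((m + 1 : ℕ) : ℝ) + 2))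
              = Real.exp (1 - 4 * ((m : ℝ) + 2)) * Real.exp (-4) := by
            rw [← Real.exp_add]
            congr 1
            push_cast
            ring
          have h2 : Real.exp (-4 : ℝ) ≤ 1 / 2 := by
            rw [Real.exp_neg, inv_le_comm₀ (Real.exp_pos _) (by norm_num)]
            have := Real.add_one_le_exp (4 : ℝ)
            norm_num at this ⊢
            linarith
          rw [h1, show m + 1 + 2 + 1 = (m + 2 + 1) + 1 by ring, pow_succ]
          have h3 : 0 ≤ (2 : ℝ) ^ (m + 2 + 1) * Real.exp (1 - 4 * ((m : ℝ) + 2)) := by positivity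
          calc (2 : ℝ) ^ (m + 2 + 1) * 2 * (Real.exp (1 - 4 * ((m : ℝ) + 2)) * Real.exp (-4))
              = ((2 : ℝ) ^ (m + 2 + 1) * Real.exp (1 - 4 * ((m : ℝ) + 2))) * (2 * Real.exp (-4)) := by
                ring
            _ ≤ ((2 : ℝ) ^ (m + 2 + 1) * Real.exp (1 - 4 * ((m : ℝ) + 2))) * 1 :=
                mul_le_mul_of_nonneg_left (by linarith) h3
            _ ≤ 1 / 100 := by linarith
      have := hind (n - 2)
      have h1 : n - 2 + 2 = n := by omega
      have h2 : ((n - 2 : ℕ) : ℝ) + 2 = n := by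
        have : ((n - 2 + 2 : ℕ) : ℝ) = n := by rw [h1]
        push_cast at this
        linarith
      rwa [h1, h2] at this
    have h1 : (1 + Real.exp (1 - 4 * (n : ℝ))) ^ (Fintype.card Ω) ≤ Real.exp (1 / 100) := by
      calc (1 + Real.exp (1 - 4 * (n : ℝ))) ^ (Fintype.card Ω)
          ≤ (Real.exp (Real.exp (1 - 4 * (n : ℝ)))) ^ (Fintype.card Ω) := by
            refine pow_le_pow_left₀ (by positivity) ?_ _
            have := Real.add_one_le_exp (Real.exp (1 - 4 * (n : ℝ)))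
            linarith
        _ = Real.exp ((Fintype.card Ω : ℝ) * Real.exp (1 - 4 * (n : ℝ))) := by
            rw [Real.exp_nat_mul]
        _ ≤ Real.exp (1 / 100) := by
            apply Real.exp_le_exp.2
            refine le_trans (mul_le_mul_of_nonneg_right ?_ hq0.le) hq
            exact_mod_cast hΩ
    have h2 : Real.exp (1 / 100 : ℝ) ≤ 1 + 1 / 50 := by
      have h3 := l06_exp_le (x := 1 / 200) (by norm_num) (by norm_num)
      have h4 : Real.exp (-(2 * (1 / 200) : ℝ)) ≤ 199 / 200 := by linarith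
      have h5 := Real.add_one_le_exp (-(1 / 100) : ℝ)
      have h6 : Real.exp (1 / 100 : ℝ) * Real.exp (-(1 / 100)) = 1 := by
        rw [← Real.exp_add]; simp
      nlinarith [Real.exp_pos (1 / 100 : ℝ)]
    have h3 : (Fintype.card χ : ℝ) * Real.exp (-((N : ℝ) / (2 * (n : ℝ) ^ 51))) ≤ 1 / 64 := by
      have hy : (n : ℝ) ^ 9 / 2 ≤ (N : ℝ) / (2 * (n : ℝ) ^ 51) := by
        rw [div_le_div_iff₀ (by norm_num) (by positivity)]
        have : (n : ℝ) ^ 60 ≤ N := by exact_mod_cast hN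
        calc (n : ℝ) ^ 9 * (2 * (n : ℝ) ^ 51) = (n : ℝ) ^ 60 * 2 := by
              rw [show (60 : ℕ) = 9 + 51 from rfl, pow_add]; ring
          _ ≤ (N : ℝ) * 2 := by linarith
      have h9 : 0 < (n : ℝ) ^ 9 / 2 := by positivity
      have h5 : Real.exp (-((N : ℝ) / (2 * (n : ℝ) ^ 51))) ≤ 2 / (n : ℝ) ^ 9 := by
        calc Real.exp (-((N : ℝ) / (2 * (n : ℝ) ^ 51))) ≤ Real.exp (-((n : ℝ) ^ 9 / 2)) :=
              Real.exp_le_exp.2 (by linarith)
          _ = (Real.exp ((n : ℝ) ^ 9 / 2))⁻¹ := Real.exp_neg _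
          _ ≤ ((n : ℝ) ^ 9 / 2)⁻¹ := by
              apply inv_anti₀ h9
              have := Real.add_one_le_exp ((n : ℝ) ^ 9 / 2)
              linarith
          _ = 2 / (n : ℝ) ^ 9 := by rw [inv_div]
      have hχ' : (Fintype.card χ : ℝ) ≤ 2 * n := by exact_mod_cast hχ
      calc (Fintype.card χ : ℝ) * Real.exp (-((N : ℝ) / (2 * (n : ℝ) ^ 51)))
          ≤ (2 * n) * (2 / (n : ℝ) ^ 9) := by gcongr
        _ = 4 / (n : ℝ) ^ 8 := by
          field_simp
          ring
        _ ≤ 4 / 2 ^ 8 := by gcongr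
        _ = 1 / 64 := by norm_num
    linarith
  obtain ⟨ψ, hψ1, hψ2⟩ := lll_extra A supp hdep p (n ^ 40) (Nat.one_le_pow _ _ (by omega))
    (fun i => by rw [hp]; exact hpA i) hp0.le
    (fun i => by
      refine (l06_touch supp (n ^ 20) hm (supp i)).trans ?_
      calc (supp i).card * n ^ 20 ≤ n ^ 20 * n ^ 20 := Nat.mul_le_mul_right _ (hs i)
        _ = n ^ 40 := by rw [← pow_add])
    (by
      have := key 40 (by norm_num)
      push_cast
      linarith) B sB hdB g hgB hsum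
  refine ⟨ψ, hψ1, fun T hT => ?_, fun x => ?_⟩
  · have := hψ2 (Sum.inl ⟨T, hT⟩)
    rw [hB] at this
    exact this
  · have := hψ2 (Sum.inr x)
    rw [hB] at this
    exact this

end Pool.SCDH
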