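import Pool.Agent.Lib.SCDH.Defs
import Pool.Agent.Lib.SCDH.L01

/-!
# Row L02 (paper scd_h36.md)
Tail bounds for macroscopic events (conditional on the variables outside I, one term per variable).
Recipe: P_cond with I; for fixed ψ the set {sz φ / n^6 < |sum|} becomes {sz ψ / n^6 < |∑ T b (mix I φ ψ)|}; apply Lib2.tail_bound with its I := univ, blocks {b}, terms φ ↦ T b (mix I φ ψ), M = n^8, Vt = n^16 sz ψ (positive), s = sz ψ / n^6: s M ≤ 2 Vt, s²/(4 Vt) = sz/(4 n^28) ≥ n^12 k / 8 ≥ 6nk + 1. Careful: mix univ φ ψ' = φ. macro_rare: T b = w b (1[A b] - P), mean part ≤ n^-20 n^8 sz ≤ sz/(2 n^6) and threshold sz/(2n^6), i.e. apply the first with sz/2.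
-/

set_option linter.unusedSectionVars false
set_option linter.unusedVariables false

namespace Pool.SCDH

open Finset Pool.MP_0ccee8_co.Lib2

variable {V K : Type} [Fintype V] [DecidableEq V] [Fintype K] [Nonempty K]

private theorem mix_univ (φ ψ : V → K) : mix univ φ ψ = φ := by
  funext v
  simp [mix]

private theorem mix_mix (I : Finset V) (φ φ' ψ : V → K) : mix I φ' (mix I φ ψ) = mix I φ' ψ := by
  funext v
  by_cases h : v ∈ I <;> simp [mix, h]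

private theorem num_bound (n k : ℕ) (hn : 3 ≤ n) (hk : 1 ≤ k) :
    6 * (n : ℝ) * k + 1 ≤ (n : ℝ) ^ 12 * k / 8 := by
  have hn' : (3 : ℝ) ≤ n := by exact_mod_cast hn
  have hk' : (1 : ℝ) ≤ k := by exact_mod_cast hk
  have h1 : (3 : ℝ) ^ 11 ≤ (n : ℝ) ^ 11 := pow_le_pow_left₀ (by norm_num) hn' 11
  have h2 : (n : ℝ) ^ 12 = n ^ 11 * n := by ring
  have h3 : (177147 : ℝ) * n ≤ (n : ℝ) ^ 12 := by
    rw [h2]
    have : (177147 : ℝ) ≤ (n : ℝ) ^ 11 := by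
      refine le_trans ?_ h1
      norm_num
    nlinarith
  have h4 : (177147 : ℝ) * n * k ≤ (n : ℝ) ^ 12 * k := by
    have : (0 : ℝ) ≤ k := by linarith
    exact mul_le_mul_of_nonneg_right h3 this
  have h5 : (3 : ℝ) ≤ (n : ℝ) * k := by nlinarith
  nlinarith

theorem macro_tail (n k : ℕ) (hn : 3 ≤ n) (hk : 1 ≤ k) (I : Finset V) (T : V → (V → K) → ℝ)
    (hdep : ∀ b ∈ I, ∀ ψ, Dep (fun φ => T b (mix I φ ψ)) {b})
    (hM : ∀ b ∈ I, ∀ ψ, |T b ψ| ≤ (n : ℝ) ^ 8)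
    (hmean : ∀ b ∈ I, ∀ ψ, E (fun φ => T b (mix I φ ψ)) = 0)
    (sz : (V → K) → ℝ) (hsz : ∀ φ ψ, sz (mix I φ ψ) = sz ψ)
    (hsz1 : ∀ ψ, (n : ℝ) ^ 40 * k ≤ 2 * sz ψ)
    (hV : ∀ ψ, ∑ b ∈ I, E (fun φ => (T b (mix I φ ψ)) ^ 2) ≤ (n : ℝ) ^ 16 * sz ψ) :
    P (fun φ => sz φ / (n : ℝ) ^ 6 < |∑ b ∈ I, T b φ|) ≤ Real.exp (-(6 * n * k)) := by
  have hn' : (3 : ℝ) ≤ n := by exact_mod_cast hn
  have hn0 : (0 : ℝ) < n := by linarith
  have hk' : (1 : ℝ) ≤ k := by exact_mod_cast hk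
  refine P_cond I _ _ fun ψ => ?_
  simp only [hsz]
  have hs0 : 0 < sz ψ := by
    have h1 := hsz1 ψ
    have h2 : (0 : ℝ) < (n : ℝ) ^ 40 * k := by positivity
    linarith
  have h := tail_bound (univ : Finset V) I (fun b => {b})
    (fun b _ c _ hbc => by rw [disjoint_singleton]; exact hbc)
    (fun b φ => T b (mix I φ ψ))
    (fun b hb ψ' => by
      simp only [mix_univ]
      exact hdep b hb ψ)
    ((n : ℝ) ^ 8) (fun b hb ψ' => hM b hb _)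
    (fun b hb ψ' => by
      simp only [mix_univ]
      exact hmean b hb ψ)
    (fun b _ => E (fun φ => (T b (mix I φ ψ)) ^ 2))
    (fun b hb ψ' => by simp only [mix_univ]; exact le_rfl)
    ((n : ℝ) ^ 16 * sz ψ) (by positivity) (fun _ => hV ψ)
    (sz ψ / (n : ℝ) ^ 6) (by positivity) (by
      have e : sz ψ / (n : ℝ) ^ 6 * (n : ℝ) ^ 8 = sz ψ * n ^ 2 := by
        field_simp
      rw [e]
      have h1 : (n : ℝ) ^ 2 ≤ (n : ℝ) ^ 16 := pow_le_pow_right₀ (by linarith) (by norm_num)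
      nlinarith [mul_le_mul_of_nonneg_left h1 hs0.le, pow_pos hn0 16])
  refine h.trans ?_
  have e : (sz ψ / (n : ℝ) ^ 6) ^ 2 / (4 * ((n : ℝ) ^ 16 * sz ψ)) = sz ψ / (4 * (n : ℝ) ^ 28) := by
    field_simp
  rw [e]
  have h1 : 6 * (n : ℝ) * k + 1 ≤ sz ψ / (4 * (n : ℝ) ^ 28) := by
    refine (num_bound n k hn hk).trans ?_
    rw [le_div_iff₀ (by positivity)]
    have h2 := hsz1 ψ
    have e2 : (n : ℝ) ^ 12 * k / 8 * (4 * (n : ℝ) ^ 28) = (n : ℝ) ^ 40 * k / 2 := by ring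
    rw [e2]
    linarith
  have h2 : (2 : ℝ) ≤ Real.exp 1 := by
    have := Real.add_one_le_exp (1 : ℝ)
    linarith
  calc 2 * Real.exp (-(sz ψ / (4 * (n : ℝ) ^ 28)))
      ≤ Real.exp 1 * Real.exp (-(6 * (n : ℝ) * k + 1)) := by
        refine mul_le_mul h2 (Real.exp_le_exp.2 (by linarith)) (Real.exp_pos _).le
          (Real.exp_pos _).le
    _ = Real.exp (-(6 * n * k)) := by
        rw [← Real.exp_add]
        congr 1
        ring

theorem macro_rare (n k : ℕ) (hn : 3 ≤ n) (hk : 1 ≤ k) (I : Finset V) (A : V → (V → K) → Prop)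
    [∀ b, DecidablePred (A b)] (w : V → (V → K) → ℝ)
    (hA : ∀ b ∈ I, ∀ ψ, Dep (fun φ => A b (mix I φ ψ)) {b})
    (hw : ∀ b ∈ I, ∀ φ ψ, w b (mix I φ ψ) = w b ψ)
    (hw0 : ∀ b ∈ I, ∀ ψ, 0 ≤ w b ψ) (hM : ∀ b ∈ I, ∀ ψ, w b ψ ≤ (n : ℝ) ^ 7)
    (hp : ∀ b ∈ I, ∀ ψ, P (fun φ => A b (mix I φ ψ)) ≤ 1 / (n : ℝ) ^ 20)
    (sz : (V → K) → ℝ) (hsz : ∀ φ ψ, sz (mix I φ ψ) = sz ψ)
    (hsz1 : ∀ ψ, (n : ℝ) ^ 40 * k ≤ sz ψ)
    (hW : ∀ ψ, ∑ b ∈ I, w b ψ ≤ (n : ℝ) ^ 8 * sz ψ) :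
    P (fun φ => sz φ / (n : ℝ) ^ 6 < ∑ b ∈ I, if A b φ then w b φ else 0) ≤ Real.exp (-(6 * n * k)) := by
  have hn' : (3 : ℝ) ≤ n := by exact_mod_cast hn
  have hn0 : (0 : ℝ) < n := by linarith
  have hk' : (1 : ℝ) ≤ k := by exact_mod_cast hk
  set p : V → (V → K) → ℝ := fun b ψ => P (fun φ => A b (mix I φ ψ)) with hpdef
  have hp0 : ∀ b ψ, 0 ≤ p b ψ := fun b ψ => P_nonneg _
  have hp1 : ∀ b ∈ I, ∀ ψ, p b ψ ≤ 1 := by
    intro b hb ψ
    refine (hp b hb ψ).trans ?_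
    rw [div_le_one (by positivity)]
    exact one_le_pow₀ (by linarith)
  have hpm : ∀ b φ ψ, p b (mix I φ ψ) = p b ψ := by
    intro b φ ψ
    simp only [hpdef, mix_mix]
  set T : V → (V → K) → ℝ := fun b φ => w b φ * ((if A b φ then 1 else 0) - p b φ) with hT
  have hTm : ∀ b ∈ I, ∀ φ ψ, T b (mix I φ ψ) =
      w b ψ * ((if A b (mix I φ ψ) then 1 else 0) - p b ψ) := by
    intro b hb φ ψ
    simp only [hT, hw b hb, hpm]
  have hbr : ∀ b ∈ I, ∀ φ ψ, |(if A b φ then (1 : ℝ) else 0) - p b ψ| ≤ 1 := by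
    intro b hb φ ψ
    have h1 := hp0 b ψ
    have h2 := hp1 b hb ψ
    rw [abs_le]
    split_ifs <;> constructor <;> linarith
  have hmain := macro_tail n k hn hk I T
    (by
      intro b hb ψ φ φ' h
      simp only [hTm b hb]
      have : A b (mix I φ ψ) = A b (mix I φ' ψ) := hA b hb ψ φ φ' h
      simp only [this])
    (by
      intro b hb ψ
      rw [hT]
      simp only
      rw [abs_mul, abs_of_nonneg (hw0 b hb ψ)]
      have h1 : (n : ℝ) ^ 7 ≤ (n : ℝ) ^ 8 := pow_le_pow_right₀ (by linarith) (by norm_num)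
      calc w b ψ * |(if A b ψ then (1 : ℝ) else 0) - p b ψ| ≤ w b ψ * 1 :=
            mul_le_mul_of_nonneg_left (hbr b hb _ _) (hw0 b hb ψ)
        _ ≤ (n : ℝ) ^ 8 := by rw [mul_one]; exact (hM b hb ψ).trans h1)
    (by
      intro b hb ψ
      simp only [hTm b hb]
      rw [E_mul_left, E_sub, E_const, E_P]
      simp only [hpdef]
      ring)
    (fun φ => sz φ / 2) (by intro φ ψ; simp only [hsz])
    (by
      intro ψ
      have := hsz1 ψ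
      linarith)
    (by
      intro ψ
      have h0 : 0 ≤ sz ψ := le_trans (by positivity) (hsz1 ψ)
      have h1 : ∀ b ∈ I, E (fun φ => (T b (mix I φ ψ)) ^ 2) ≤ (n : ℝ) ^ 7 * w b ψ := by
        intro b hb
        have : E (fun φ => (T b (mix I φ ψ)) ^ 2) ≤ E (fun _ : V → K => (n : ℝ) ^ 7 * w b ψ) := by
          refine E_mono fun φ => ?_
          rw [hTm b hb, mul_pow]
          have h2 : ((if A b (mix I φ ψ) then (1 : ℝ) else 0) - p b ψ) ^ 2 ≤ 1 := by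
            rw [sq_le_one_iff_abs_le_one]
            exact hbr b hb _ _
          have h3 : w b ψ ^ 2 ≤ (n : ℝ) ^ 7 * w b ψ := by
            rw [sq]
            exact mul_le_mul_of_nonneg_right (hM b hb ψ) (hw0 b hb ψ)
          calc w b ψ ^ 2 * ((if A b (mix I φ ψ) then (1 : ℝ) else 0) - p b ψ) ^ 2
              ≤ w b ψ ^ 2 * 1 := mul_le_mul_of_nonneg_left h2 (sq_nonneg _)
            _ ≤ _ := by rw [mul_one]; exact h3
        rwa [E_const] at this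
      refine (sum_le_sum h1).trans ?_
      rw [← mul_sum]
      have h2 := hW ψ
      have h3 : (n : ℝ) ^ 7 * ∑ b ∈ I, w b ψ ≤ (n : ℝ) ^ 7 * ((n : ℝ) ^ 8 * sz ψ) :=
        mul_le_mul_of_nonneg_left h2 (by positivity)
      refine h3.trans ?_
      have h4 : (n : ℝ) ^ 16 * (sz ψ / 2) = (n : ℝ) ^ 7 * ((n : ℝ) ^ 8 * sz ψ) * (n / 2) := by ring
      rw [h4]
      have h5 : 0 ≤ (n : ℝ) ^ 7 * ((n : ℝ) ^ 8 * sz ψ) := by positivity
      nlinarith)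
  refine le_trans (P_mono fun φ hφ => ?_) hmain
  have h0 : 0 ≤ sz φ := le_trans (by positivity) (hsz1 φ)
  have e1 : ∑ b ∈ I, T b φ = (∑ b ∈ I, if A b φ then w b φ else 0) - ∑ b ∈ I, w b φ * p b φ := by
    rw [← sum_sub_distrib]
    refine sum_congr rfl fun b _ => ?_
    simp only [hT]
    split_ifs <;> ring
  have h1 : ∑ b ∈ I, w b φ * p b φ ≤ (1 / (n : ℝ) ^ 20) * ((n : ℝ) ^ 8 * sz φ) := by
    calc ∑ b ∈ I, w b φ * p b φ ≤ ∑ b ∈ I, (1 / (n : ℝ) ^ 20) * w b φ := by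
          refine sum_le_sum fun b hb => ?_
          rw [mul_comm]
          exact mul_le_mul_of_nonneg_right (hp b hb φ) (hw0 b hb φ)
      _ = (1 / (n : ℝ) ^ 20) * ∑ b ∈ I, w b φ := by rw [mul_sum]
      _ ≤ _ := mul_le_mul_of_nonneg_left (hW φ) (by positivity)
  have h2 : (1 / (n : ℝ) ^ 20) * ((n : ℝ) ^ 8 * sz φ) ≤ sz φ / 2 / (n : ℝ) ^ 6 := by
    have e : (1 / (n : ℝ) ^ 20) * ((n : ℝ) ^ 8 * sz φ) = sz φ / (n : ℝ) ^ 6 / (n : ℝ) ^ 6 := by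
      field_simp
    have h3 : (2 : ℝ) ≤ (n : ℝ) ^ 6 := by
      have : (3 : ℝ) ^ 6 ≤ (n : ℝ) ^ 6 := pow_le_pow_left₀ (by norm_num) hn' 6
      norm_num at this
      linarith
    rw [e]
    refine div_le_div_of_nonneg_right ?_ (by positivity)
    exact div_le_div_of_nonneg_left h0 (by norm_num) h3
  have h3 : sz φ / (n : ℝ) ^ 6 = sz φ / 2 / (n : ℝ) ^ 6 + sz φ / 2 / (n : ℝ) ^ 6 := by ring
  refine lt_of_lt_of_le ?_ (le_abs_self _)
  rw [e1]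
  linarith

end Pool.SCDH
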