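import Pool.Agent.Lib.SCDH.Defs
import Pool.Agent.Lib.SCDH.L01

/-!
# Row L04 (paper scd_h36.md)
The halves lemma: `S0` = set of labels in k0, `S1` = set of labels in k1 ⊇ k0. If the weights m are a function of S0 then S1 has at least the fraction p/2 of the total weight.
Recipe: P(event) = ∑ over S ⊆ I of P(S0 φ = S ∧ event_S). For fixed S with R ≤ ∑ m S v put l = 1/M: indicator of (2 ∑_{k1} m < p ∑ m) ≤ exp(l (p/2 ∑ m - ∑_{k1} m)). Product over v ∈ I (E_prod, blocks {v}, E_coord) of E[1(φ v ∈ k0 ↔ v ∈ S) exp(-l m_v 1(φ v ∈ k1))] and every factor is ≤ P(φ v ∈ k0 ↔ v ∈ S) (1 - p (1 - exp(-l m_v))): for v ∈ S it is P e^(-l m_v) (p ≤ 1); for v ∉ S it is P(∉ k0) - P(k1∖k0)(1 - e^(-l m_v)) with P(k1∖k0) ≥ p. 1 - e^(-x) ≥ 0.632 x on [0,1] (convexity / Real.exp bounds; any constant ≥ 5/8 is enough) so the product is ≤ P(S0 = S) exp(-(5/8) p ∑ m / M), and 5/8 - 1/2 = 1/8. Sum over S: ∑ P(S0 = S) = 1.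
-/

set_option linter.unusedSectionVars false
set_option linter.unusedVariables false

namespace Pool.SCDH

open Finset Pool.MP_0ccee8_co.Lib2

variable {V K : Type} [Fintype V] [DecidableEq V] [Fintype K] [Nonempty K]
variable [DecidableEq K]

private lemma exp_neg_bound {x : ℝ} (h0 : 0 ≤ x) (h1 : x ≤ 1) :
    Real.exp (-x) ≤ 1 - 5 / 8 * x := by
  have hc := convexOn_exp.2 (Set.mem_univ (0:ℝ)) (Set.mem_univ (-1:ℝ))
    (sub_nonneg.2 h1) h0 (by ring)
  simp only [smul_eq_mul, mul_zero, zero_add, Real.exp_zero, mul_one, mul_neg] at hc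
  have he : Real.exp (-1) ≤ 3 / 8 := by
    rw [Real.exp_neg]
    have := Real.exp_one_gt_d9
    rw [inv_le_comm₀ (Real.exp_pos 1) (by norm_num)]
    linarith
  nlinarith

private lemma sum_powerset_prod (I : Finset V) (a b : ℝ) (hab : a + b = 1) :
    ∑ S ∈ I.powerset, ∏ v ∈ I, (if v ∈ S then a else b) = 1 := by
  have h := Finset.prod_add (fun _ : V => a) (fun _ => b) I
  rw [hab] at h
  rw [prod_const_one] at h
  rw [h]
  refine sum_congr rfl fun S hS => ?_
  rw [mem_powerset] at hS
  rw [← Finset.prod_sdiff hS, mul_comm]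
  congr 1
  · exact prod_congr rfl fun v hv => if_pos hv
  · exact prod_congr rfl fun v hv => if_neg (mem_sdiff.1 hv).2

private lemma factor_bound (k0 k1 : Finset K) (h01 : k0 ⊆ k1) (p : ℝ) (hp0 : 0 ≤ p)
    (hp : p * Fintype.card K ≤ ((k1 \ k0).card : ℝ)) {x : ℝ} (h0 : 0 ≤ x) (h1 : x ≤ 1)
    (B : Prop) [Decidable B] :
    (∑ a : K, (if (a ∈ k0 ↔ B) then (1:ℝ) else 0) *
        Real.exp (p / 2 * x - if a ∈ k1 then x else 0)) / (Fintype.card K : ℝ)
      ≤ (if B then (k0.card : ℝ) / (Fintype.card K : ℝ)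
          else 1 - (k0.card : ℝ) / (Fintype.card K : ℝ)) * Real.exp (-(p * x / 8)) := by
  have hK : (0:ℝ) < (Fintype.card K : ℝ) := by exact_mod_cast Fintype.card_pos
  have hp1 : p ≤ 1 := by
    have h2 : ((k1 \ k0).card : ℝ) ≤ (Fintype.card K : ℝ) := by
      exact_mod_cast card_le_univ _
    by_contra hcon
    push Not at hcon
    nlinarith
  rw [div_le_iff₀ hK]
  by_cases hB : B
  · simp only [hB, iff_true, if_true]
    have e1 : ∑ a : K, (if a ∈ k0 then (1:ℝ) else 0) *
        Real.exp (p / 2 * x - if a ∈ k1 then x else 0)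
        = ∑ a ∈ k0, Real.exp (p / 2 * x - x) := by
      rw [← sum_filter_add_sum_filter_not univ (fun a => a ∈ k0)]
      have h3 : ∑ a ∈ univ.filter (fun a => ¬ a ∈ k0), (if a ∈ k0 then (1:ℝ) else 0) *
        Real.exp (p / 2 * x - if a ∈ k1 then x else 0) = 0 := by
        refine sum_eq_zero fun a ha => ?_
        rw [if_neg (mem_filter.1 ha).2, zero_mul]
      rw [h3, add_zero]
      have h4 : univ.filter (fun a => a ∈ k0) = k0 := by
        ext a
        simp
      rw [h4]
      refine sum_congr rfl fun a ha => ?_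
      rw [if_pos ha, if_pos (h01 ha), one_mul]
    rw [e1, sum_const, nsmul_eq_mul]
    have e2 : (k0.card : ℝ) / (Fintype.card K : ℝ) * Real.exp (-(p * x / 8)) *
        (Fintype.card K : ℝ) = (k0.card : ℝ) * Real.exp (-(p * x / 8)) := by
      field_simp
    rw [e2]
    refine mul_le_mul_of_nonneg_left ?_ (Nat.cast_nonneg _)
    rw [Real.exp_le_exp]
    nlinarith [mul_nonneg h0 (sub_nonneg.2 hp1)]
  · simp only [hB, iff_false, if_false]
    have e1 : ∑ a : K, (if ¬ a ∈ k0 then (1:ℝ) else 0) *
        Real.exp (p / 2 * x - if a ∈ k1 then x else 0)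
        = Real.exp (p / 2 * x) * (((k1 \ k0).card : ℝ) * Real.exp (-x) +
          ((Fintype.card K : ℝ) - k0.card - (k1 \ k0).card)) := by
      have h5 : ∀ a : K, (if ¬ a ∈ k0 then (1:ℝ) else 0) *
        Real.exp (p / 2 * x - if a ∈ k1 then x else 0)
        = Real.exp (p / 2 * x) * ((if a ∈ k1 \ k0 then Real.exp (-x) else 0) +
          (1 - (if a ∈ k0 then (1:ℝ) else 0) - (if a ∈ k1 \ k0 then (1:ℝ) else 0))) := by
        intro a
        by_cases ha0 : a ∈ k0
        · simp [ha0]
        · by_cases ha1 : a ∈ k1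
          · simp [ha0, ha1, sub_eq_add_neg, Real.exp_add]
          · simp [ha0, ha1]
      rw [sum_congr rfl fun a _ => h5 a, ← mul_sum, sum_add_distrib, sum_sub_distrib,
        sum_sub_distrib]
      congr 1
      congr 1
      · have h11 : univ.filter (fun a => a ∈ k1 \ k0) = k1 \ k0 := by
          ext a
          simp
        rw [← sum_filter, h11, sum_const, nsmul_eq_mul]
      · congr 1
        · congr 1
          · simp
          · simp
        · have h11 : univ.filter (fun a => a ∈ k1 \ k0) = k1 \ k0 := by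
            ext a
            simp
          rw [← sum_filter, h11, sum_const, nsmul_eq_mul, mul_one]
    rw [e1]
    have hx := exp_neg_bound h0 h1
    have hc0 : (0:ℝ) ≤ (k0.card : ℝ) := Nat.cast_nonneg _
    have hcle : (k0.card : ℝ) ≤ (Fintype.card K : ℝ) := by exact_mod_cast card_le_univ _
    have h6 : ((k1 \ k0).card : ℝ) * Real.exp (-x) +
          ((Fintype.card K : ℝ) - k0.card - (k1 \ k0).card)
        ≤ ((Fintype.card K : ℝ) - k0.card) * (1 - 5 / 8 * (p * x)) := by
      have h7 : ((k1 \ k0).card : ℝ) * (1 - Real.exp (-x)) ≥ p * Fintype.card K * (5 / 8 * x) :=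
        mul_le_mul hp (by linarith) (by positivity) (Nat.cast_nonneg _)
      have h8 : (0:ℝ) ≤ (k0.card : ℝ) * (5 / 8 * (p * x)) := by positivity
      nlinarith
    have h9 : (1 - 5 / 8 * (p * x)) ≤ Real.exp (-(5 / 8 * (p * x))) := by
      have := Real.add_one_le_exp (-(5 / 8 * (p * x)))
      linarith
    have h10 : Real.exp (p / 2 * x) * Real.exp (-(5 / 8 * (p * x))) = Real.exp (-(p * x / 8)) := by
      rw [← Real.exp_add]
      congr 1
      ring
    calc Real.exp (p / 2 * x) * (((k1 \ k0).card : ℝ) * Real.exp (-x) +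
          ((Fintype.card K : ℝ) - k0.card - (k1 \ k0).card))
        ≤ Real.exp (p / 2 * x) * (((Fintype.card K : ℝ) - k0.card) * (1 - 5 / 8 * (p * x))) :=
          mul_le_mul_of_nonneg_left h6 (Real.exp_pos _).le
      _ ≤ Real.exp (p / 2 * x) *
          (((Fintype.card K : ℝ) - k0.card) * Real.exp (-(5 / 8 * (p * x)))) :=
          mul_le_mul_of_nonneg_left (mul_le_mul_of_nonneg_left h9 (by linarith))
            (Real.exp_pos _).le
      _ = (1 - (k0.card : ℝ) / (Fintype.card K : ℝ)) * Real.exp (-(p * x / 8)) *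
          (Fintype.card K : ℝ) := by
          rw [← h10]
          field_simp

theorem halves (I : Finset V) (k0 k1 : Finset K) (h01 : k0 ⊆ k1) (p : ℝ) (hp0 : 0 ≤ p)
    (hp : p * Fintype.card K ≤ ((k1 \ k0).card : ℝ)) (m : Finset V → V → ℝ) (M : ℝ) (hM : 0 < M)
    (hm : ∀ S v, 0 ≤ m S v ∧ m S v ≤ M) (R : ℝ) :
    P (fun φ : V → K => R ≤ ∑ v ∈ I, m (I.filter (fun v => φ v ∈ k0)) v ∧
      2 * ∑ v ∈ I, (if φ v ∈ k1 then m (I.filter (fun v => φ v ∈ k0)) v else 0)
        < p * ∑ v ∈ I, m (I.filter (fun v => φ v ∈ k0)) v) ≤ Real.exp (-(p * R / (8 * M))) := by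
  classical
  let h : Finset V → V → K → ℝ := fun S v a => (if (a ∈ k0 ↔ v ∈ S) then (1:ℝ) else 0) *
    Real.exp (p / 2 * (m S v / M) - if a ∈ k1 then (m S v / M) else 0)
  let q : Finset V → V → ℝ := fun S v => if v ∈ S then (k0.card : ℝ) / (Fintype.card K : ℝ)
          else 1 - (k0.card : ℝ) / (Fintype.card K : ℝ)
  have hh0 : ∀ S v a, 0 ≤ h S v a := by
    intro S v a
    refine mul_nonneg ?_ (Real.exp_pos _).le
    split_ifs <;> norm_num
  have hK : (0:ℝ) < (Fintype.card K : ℝ) := by exact_mod_cast Fintype.card_pos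
  have hq0 : ∀ S v, 0 ≤ q S v := by
    intro S v
    have hcle : (k0.card : ℝ) ≤ (Fintype.card K : ℝ) := by exact_mod_cast card_le_univ _
    simp only [q]
    split_ifs
    · positivity
    · rw [sub_nonneg, div_le_one hK]
      exact hcle
  have hfac : ∀ S v, E (fun φ : V → K => h S v (φ v)) ≤
      q S v * Real.exp (-(p * (m S v / M) / 8)) := by
    intro S v
    rw [E_coord]
    exact factor_bound k0 k1 h01 p hp0 hp (div_nonneg (hm S v).1 hM.le)
      ((div_le_one hM).2 (hm S v).2) (v ∈ S)
  have hE : ∀ S, R ≤ ∑ v ∈ I, m S v → E (fun φ : V → K => ∏ v ∈ I, h S v (φ v)) ≤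
      (∏ v ∈ I, q S v) * Real.exp (-(p * R / (8 * M))) := by
    intro S hS
    rw [E_prod I (fun v => {v}) (fun b _ c _ hbc => by simpa using hbc)
      (fun v φ => h S v (φ v)) (fun v _ φ ψ hv => by
        have := hv v (mem_singleton_self v)
        simp only [this])]
    calc ∏ v ∈ I, E (fun φ : V → K => h S v (φ v))
        ≤ ∏ v ∈ I, (q S v * Real.exp (-(p * (m S v / M) / 8))) :=
          prod_le_prod (fun v _ => E_nonneg (fun φ => hh0 S v _)) (fun v _ => hfac S v)
      _ = (∏ v ∈ I, q S v) * Real.exp (∑ v ∈ I, -(p * (m S v / M) / 8)) := by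
          rw [prod_mul_distrib, Real.exp_sum]
      _ ≤ (∏ v ∈ I, q S v) * Real.exp (-(p * R / (8 * M))) := by
          refine mul_le_mul_of_nonneg_left ?_ (prod_nonneg fun v _ => hq0 S v)
          rw [Real.exp_le_exp, sum_neg_distrib, neg_le_neg_iff]
          have e1 : ∑ v ∈ I, p * (m S v / M) / 8 = p * (∑ v ∈ I, m S v) / (8 * M) := by
            rw [mul_sum, sum_div]
            refine sum_congr rfl fun v _ => ?_
            field_simp
          rw [e1]
          gcongr
  calc P (fun φ : V → K => R ≤ ∑ v ∈ I, m (I.filter (fun v => φ v ∈ k0)) v ∧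
      2 * ∑ v ∈ I, (if φ v ∈ k1 then m (I.filter (fun v => φ v ∈ k0)) v else 0)
        < p * ∑ v ∈ I, m (I.filter (fun v => φ v ∈ k0)) v)
      ≤ E (fun φ : V → K => ∑ S ∈ I.powerset,
          if R ≤ ∑ v ∈ I, m S v then ∏ v ∈ I, h S v (φ v) else 0) := by
        unfold P
        refine E_mono fun φ => ?_
        have hterm : ∀ S ∈ I.powerset,
            (0:ℝ) ≤ if R ≤ ∑ v ∈ I, m S v then ∏ v ∈ I, h S v (φ v) else 0 := by
          intro S _
          split_ifs
          · exact prod_nonneg fun v _ => hh0 S v _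
          · exact le_rfl
        split_ifs with hev
        · obtain ⟨hR, h2⟩ := hev
          set S := I.filter (fun v => φ v ∈ k0) with hSdef
          have hSmem : S ∈ I.powerset := mem_powerset.2 (filter_subset _ _)
          refine le_trans ?_ (single_le_sum hterm hSmem)
          rw [if_pos hR]
          have e1 : ∏ v ∈ I, h S v (φ v) = Real.exp (∑ v ∈ I,
              (p / 2 * (m S v / M) - if φ v ∈ k1 then (m S v / M) else 0)) := by
            rw [Real.exp_sum]
            refine prod_congr rfl fun v hv => ?_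
            have : (φ v ∈ k0 ↔ v ∈ S) := by
              rw [hSdef, mem_filter]
              exact ⟨fun h => ⟨hv, h⟩, fun h => h.2⟩
            simp only [h, if_pos this, one_mul]
          rw [e1]
          apply Real.one_le_exp
          have e2 : ∑ v ∈ I, (p / 2 * (m S v / M) - if φ v ∈ k1 then (m S v / M) else 0)
              = (p * ∑ v ∈ I, m S v - 2 * ∑ v ∈ I, (if φ v ∈ k1 then m S v else 0)) / (2 * M) := by
            rw [mul_sum, mul_sum, ← sum_sub_distrib, sum_div]
            refine sum_congr rfl fun v _ => ?_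
            split_ifs
            · field_simp
            · field_simp
              ring
          rw [e2]
          apply div_nonneg (by linarith) (by linarith)
        · exact sum_nonneg hterm
    _ = ∑ S ∈ I.powerset, E (fun φ : V → K =>
          if R ≤ ∑ v ∈ I, m S v then ∏ v ∈ I, h S v (φ v) else 0) := E_sum _ _
    _ ≤ ∑ S ∈ I.powerset, (∏ v ∈ I, q S v) * Real.exp (-(p * R / (8 * M))) := by
        refine sum_le_sum fun S _ => ?_
        by_cases hS : R ≤ ∑ v ∈ I, m S v
        · simp only [if_pos hS]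
          exact hE S hS
        · simp only [if_neg hS]
          rw [E_const]
          exact mul_nonneg (prod_nonneg fun v _ => hq0 S v) (Real.exp_pos _).le
    _ = Real.exp (-(p * R / (8 * M))) := by
        rw [← sum_mul]
        simp only [q]
        rw [sum_powerset_prod I _ _ (by ring), one_mul]

end Pool.SCDH
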