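import Pool.Agent.Lib.SCDH.Defs
import Pool.Agent.Lib.SCDH.G02

/-!
# Row T01 (paper scd_h36.md)
Smooth arrays: bookkeeping.
Recipe: unfold SmX, abs_add; *_half: for 2|A| > |X| use the complement (sum over A = minus sum over Aᶜ, mX_compl).
-/

set_option linter.unusedSectionVars false
set_option linter.unusedVariables false

namespace Pool.SCDH

open Finset Pool.MP_0ccee8_co.Lib2

variable {X Y : Type} [Fintype X] [DecidableEq X] [Fintype Y] [DecidableEq Y]

theorem SmX_add (G : Finset (X × Y)) (M M' : ℝ) (f g : X → ℝ) (hf : SmX G M f) (hg : SmX G M' g) :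
    SmX G (M + M') (fun x => f x + g x) := by
  intro A
  rw [Finset.sum_add_distrib, add_mul]
  exact (abs_add_le _ _).trans (add_le_add (hf A) (hg A))

theorem SmY_add (G : Finset (X × Y)) (M M' : ℝ) (f g : Y → ℝ) (hf : SmY G M f) (hg : SmY G M' g) :
    SmY G (M + M') (fun y => f y + g y) := by
  intro A
  rw [Finset.sum_add_distrib, add_mul]
  exact (abs_add_le _ _).trans (add_le_add (hf A) (hg A))

theorem SmX_smul (G : Finset (X × Y)) (M a : ℝ) (f : X → ℝ) (hf : SmX G M f) :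
    SmX G (|a| * M) (fun x => a * f x) := by
  intro A
  rw [← Finset.mul_sum, abs_mul, mul_assoc]
  exact mul_le_mul_of_nonneg_left (hf A) (abs_nonneg a)

theorem SmY_smul (G : Finset (X × Y)) (M a : ℝ) (f : Y → ℝ) (hf : SmY G M f) :
    SmY G (|a| * M) (fun y => a * f y) := by
  intro A
  rw [← Finset.mul_sum, abs_mul, mul_assoc]
  exact mul_le_mul_of_nonneg_left (hf A) (abs_nonneg a)

theorem SmX_sum (G : Finset (X × Y)) {ι : Type} (s : Finset ι) (M : ι → ℝ) (f : ι → X → ℝ)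
    (hf : ∀ i ∈ s, SmX G (M i) (f i)) : SmX G (∑ i ∈ s, M i) (fun x => ∑ i ∈ s, f i x) := by
  intro A
  rw [Finset.sum_comm, Finset.sum_mul]
  exact (Finset.abs_sum_le_sum_abs _ _).trans (Finset.sum_le_sum fun i hi => hf i hi A)

theorem SmY_sum (G : Finset (X × Y)) {ι : Type} (s : Finset ι) (M : ι → ℝ) (f : ι → Y → ℝ)
    (hf : ∀ i ∈ s, SmY G (M i) (f i)) : SmY G (∑ i ∈ s, M i) (fun y => ∑ i ∈ s, f i y) := by
  intro A
  rw [Finset.sum_comm, Finset.sum_mul]
  exact (Finset.abs_sum_le_sum_abs _ _).trans (Finset.sum_le_sum fun i hi => hf i hi A)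

theorem SmX_mono (G : Finset (X × Y)) (M M' : ℝ) (h : M ≤ M') (f : X → ℝ) (hf : SmX G M f) : SmX G M' f := by
  intro A
  exact (hf A).trans (mul_le_mul_of_nonneg_right h (Nat.cast_nonneg _))

theorem SmY_mono (G : Finset (X × Y)) (M M' : ℝ) (h : M ≤ M') (f : Y → ℝ) (hf : SmY G M f) : SmY G M' f := by
  intro A
  exact (hf A).trans (mul_le_mul_of_nonneg_right h (Nat.cast_nonneg _))

theorem SmX_half (G : Finset (X × Y)) (M : ℝ) (f : X → ℝ) (h0 : ∑ x, f x = 0)
    (h : ∀ A : Finset X, 2 * A.card ≤ Fintype.card X → |∑ x ∈ A, f x| ≤ M * mX G A) : SmX G M f := by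
  intro A
  by_cases h2 : 2 * A.card ≤ Fintype.card X
  · exact h A h2
  · have hc : A.card + Aᶜ.card = Fintype.card X := Finset.card_add_card_compl A
    have h3 := h Aᶜ (by omega)
    have h4 : ∑ x ∈ A, f x + ∑ x ∈ Aᶜ, f x = 0 := by
      rw [Finset.sum_add_sum_compl]; exact h0
    have h5 : ∑ x ∈ Aᶜ, f x = - ∑ x ∈ A, f x := by linarith
    rw [h5, abs_neg, mX_compl] at h3
    exact h3

theorem SmY_half (G : Finset (X × Y)) (M : ℝ) (f : Y → ℝ) (h0 : ∑ y, f y = 0)
    (h : ∀ N : Finset Y, 2 * N.card ≤ Fintype.card Y → |∑ y ∈ N, f y| ≤ M * mY G N) : SmY G M f := by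
  intro A
  by_cases h2 : 2 * A.card ≤ Fintype.card Y
  · exact h A h2
  · have hc : A.card + Aᶜ.card = Fintype.card Y := Finset.card_add_card_compl A
    have h3 := h Aᶜ (by omega)
    have h4 : ∑ x ∈ A, f x + ∑ x ∈ Aᶜ, f x = 0 := by
      rw [Finset.sum_add_sum_compl]; exact h0
    have h5 : ∑ x ∈ Aᶜ, f x = - ∑ x ∈ A, f x := by linarith
    rw [h5, abs_neg, mY_compl] at h3
    exact h3

theorem avX_add (f g : X → ℝ) : avX (fun x => f x + g x) = avX f + avX g := by
  unfold avX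
  rw [Finset.sum_add_distrib, add_div]

theorem avY_add (f g : Y → ℝ) : avY (fun y => f y + g y) = avY f + avY g := by
  unfold avY
  rw [Finset.sum_add_distrib, add_div]

theorem avX_smul (a : ℝ) (f : X → ℝ) : avX (fun x => a * f x) = a * avX f := by
  unfold avX
  rw [← Finset.mul_sum, mul_div_assoc]

theorem avY_smul (a : ℝ) (f : Y → ℝ) : avY (fun y => a * f y) = a * avY f := by
  unfold avY
  rw [← Finset.mul_sum, mul_div_assoc]

theorem avX_sum {ι : Type} (s : Finset ι) (f : ι → X → ℝ) : avX (fun x => ∑ i ∈ s, f i x) = ∑ i ∈ s, avX (f i) := by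
  unfold avX
  rw [Finset.sum_comm, Finset.sum_div]

theorem avY_sum {ι : Type} (s : Finset ι) (f : ι → Y → ℝ) : avY (fun y => ∑ i ∈ s, f i y) = ∑ i ∈ s, avY (f i) := by
  unfold avY
  rw [Finset.sum_comm, Finset.sum_div]

theorem sum_sub_avX (f : X → ℝ) : ∑ x, (f x - avX f) = 0 := by
  rw [Finset.sum_sub_distrib, Finset.sum_const, Finset.card_univ, nsmul_eq_mul]
  unfold avX
  by_cases h0 : Fintype.card X = 0
  · haveI := Fintype.card_eq_zero_iff.mp h0
    simp
  · have h1 : (Fintype.card X : ℝ) ≠ 0 := by exact_mod_cast h0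
    rw [mul_div_cancel₀ _ h1, sub_self]

theorem sum_sub_avY (f : Y → ℝ) : ∑ y, (f y - avY f) = 0 := by
  rw [Finset.sum_sub_distrib, Finset.sum_const, Finset.card_univ, nsmul_eq_mul]
  unfold avY
  by_cases h0 : Fintype.card Y = 0
  · haveI := Fintype.card_eq_zero_iff.mp h0
    simp
  · have h1 : (Fintype.card Y : ℝ) ≠ 0 := by exact_mod_cast h0
    rw [mul_div_cancel₀ _ h1, sub_self]

end Pool.SCDH
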