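import Pool.Agent.Lib.SCDH.Defs
import Pool.Agent.Lib.SCDH.G01
import Pool.Agent.Lib.SCDH.G02
import Pool.Agent.Lib.SCDH.T01

/-!
# Row O01 (paper scd_h36.md)
The outer data: sub-collections, smoothness of the number of outer chains, the outer edges are at most half of every cut.
Recipe: comap: every field is monotone in the set of colours (uX, uY, U get smaller; cardinalities under injective f). outer_smX: for 2|A| ≤ |X|: ∑_A uX ≤ ζ(m + (n/κ)|A|) ≤ 3 ζ m by o6X and isoX; avX uX ≤ ζ n/κ (o6X with A = univ, mX G univ = 0), so avX·|A| ≤ 2 ζ m; SmX_half. outer_smY the same with o6Y and isoY.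
-/

set_option linter.unusedSectionVars false
set_option linter.unusedVariables false

namespace Pool.SCDH

open Finset Pool.MP_0ccee8_co.Lib2

variable {X Y : Type} [Fintype X] [DecidableEq X] [Fintype Y] [DecidableEq Y]

private lemma o01_uX {C C' : Type} [Fintype C] [Fintype C'] (O : Outer X Y C) (f : C' → C)
    (hf : Function.Injective f) (x : X) : uX (O.comap f) x ≤ uX O x := by
  classical
  unfold uX
  refine card_le_card_of_injOn f (fun c hc => ?_) (hf.injOn)
  simp only [coe_filter, mem_univ, true_and, Set.mem_ofPred_eq, Outer.comap] at hc ⊢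
  exact hc

private lemma o01_uY {C C' : Type} [Fintype C] [Fintype C'] (O : Outer X Y C) (f : C' → C)
    (hf : Function.Injective f) (y : Y) : uY (O.comap f) y ≤ uY O y := by
  classical
  unfold uY
  refine card_le_card_of_injOn f (fun c hc => ?_) (hf.injOn)
  simp only [coe_filter, mem_univ, true_and, Set.mem_ofPred_eq, Outer.comap] at hc ⊢
  exact hc

private lemma o01_U {C C' : Type} [Fintype C] [Fintype C'] (O : Outer X Y C) (f : C' → C) :
    (O.comap f).U ⊆ O.U := by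
  intro e he
  unfold Outer.U at he ⊢
  rw [mem_filter] at he ⊢
  obtain ⟨c, h1, h2⟩ := he.2
  exact ⟨mem_univ _, f c, h1, h2⟩

theorem OutOK_comap {n d κ : ℕ} (H : Host X Y n d κ) (t ω : ℕ) {C C' : Type} [Fintype C] [Fintype C']
    (O : Outer X Y C) (f : C' → C) (hf : Function.Injective f) (h : OutOK H t ω O) : OutOK H t ω (O.comap f) where
  adj := fun c => h.adj (f c)
  mem := fun c => h.mem (f c)
  inj := fun c => h.inj (f c)
  cX := fun c => h.cX (f c)
  cY := fun c => h.cY (f c)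
  om := h.om
  dis := fun c c' hc => h.dis (f c) (f c') (fun he => hc (hf he))
  o3Y := fun c => h.o3Y (f c)
  o3X := fun c => h.o3X (f c)
  o4X := fun x => (Nat.mul_le_mul_left _ (o01_uX O f hf x)).trans (h.o4X x)
  o4Y := fun y => (Nat.mul_le_mul_left _ (o01_uY O f hf y)).trans (h.o4Y y)
  o5X := fun c => h.o5X (f c)
  o5Y := fun c => h.o5Y (f c)
  o6X := fun A => (Nat.mul_le_mul_left _ (Nat.mul_le_mul_left _
    (sum_le_sum (fun x _ => o01_uX O f hf x)))).trans (h.o6X A)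
  o6Y := fun N => (Nat.mul_le_mul_left _
    (sum_le_sum (fun y _ => o01_uY O f hf y))).trans (h.o6Y N)
  o7 := fun A N => (Nat.mul_le_mul_left _ (bd_mono _ _ (o01_U O f) A N)).trans (h.o7 A N)

private lemma o01_mX (G : Finset (X × Y)) : mX G univ = 0 := by
  unfold mX
  refine sum_eq_zero (fun y _ => ?_)
  have : eB G (univ : Finset X)ᶜ {y} = 0 := by
    rw [compl_univ, eB_sumX, sum_empty]
  rw [this]
  simp

private lemma o01_mY (G : Finset (X × Y)) : mY G univ = 0 := by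
  unfold mY
  refine sum_eq_zero (fun y _ => ?_)
  have : eB G {y} (univ : Finset Y)ᶜ = 0 := by
    rw [compl_univ, eB_sumY, sum_empty]
  rw [this]
  simp

theorem outer_avX {n d κ : ℕ} (H : Host X Y n d κ) (t ω : ℕ) (ht : 1 ≤ t) {C : Type} [Fintype C]
    (O : Outer X Y C) (h : OutOK H t ω O) :
    (t : ℝ) ^ 26 * (κ * avX (fun x => (uX O x : ℝ))) ≤ n ∧ (t : ℝ) ^ 26 * avY (fun y => (uY O y : ℝ)) ≤ 1 := by
  constructor
  · have h1 := h.o6X univ
    rw [o01_mX, mul_zero, zero_add, card_univ] at h1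
    have h2 : (t : ℝ) ^ 26 * (κ * ∑ x, (uX O x : ℝ)) ≤ n * Fintype.card X := by exact_mod_cast h1
    unfold avX
    rcases Nat.eq_zero_or_pos (Fintype.card X) with h0 | h0
    · rw [h0]; simp
    · have h3 : (0 : ℝ) < Fintype.card X := by exact_mod_cast h0
      rw [← mul_div_assoc, ← mul_div_assoc, div_le_iff₀ h3]
      exact h2
  · have h1 := h.o6Y univ
    rw [o01_mY, zero_add, card_univ] at h1
    have h2 : (t : ℝ) ^ 26 * ∑ y, (uY O y : ℝ) ≤ Fintype.card Y := by exact_mod_cast h1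
    unfold avY
    rcases Nat.eq_zero_or_pos (Fintype.card Y) with h0 | h0
    · rw [h0]; simp
    · have h3 : (0 : ℝ) < Fintype.card Y := by exact_mod_cast h0
      rw [← mul_div_assoc, div_le_iff₀ h3, one_mul]
      exact h2

theorem outer_smX {n d κ : ℕ} (H : Host X Y n d κ) (t ω : ℕ) (ht : 1 ≤ t) {C : Type} [Fintype C]
    (O : Outer X Y C) (h : OutOK H t ω O) :
    SmX H.G (6 / (t : ℝ) ^ 26) (fun x => (uX O x : ℝ) - avX (fun x => (uX O x : ℝ))) := by
  refine SmX_half _ _ _ (sum_sub_avX _) (fun A hA => ?_)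
  have hT : (0 : ℝ) < (t : ℝ) ^ 26 := by
    have : (0 : ℝ) < t := by exact_mod_cast ht
    positivity
  have hκ : (0 : ℝ) < κ := by exact_mod_cast H.hκ
  obtain ⟨a, ha⟩ : ∃ a : ℝ, a = avX (fun x => (uX O x : ℝ)) := ⟨_, rfl⟩
  have ha0 : 0 ≤ a := by rw [ha]; unfold avX; positivity
  obtain ⟨m, hm⟩ : ∃ m : ℝ, m = (mX H.G A : ℝ) := ⟨_, rfl⟩
  have hm0 : 0 ≤ m := by rw [hm]; exact Nat.cast_nonneg _
  obtain ⟨s, hs⟩ : ∃ s : ℝ, s = ∑ x ∈ A, (uX O x : ℝ) := ⟨_, rfl⟩
  have hs0 : 0 ≤ s := by rw [hs]; positivity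
  obtain ⟨c, hc⟩ : ∃ c : ℝ, c = (A.card : ℝ) := ⟨_, rfl⟩
  have hc0 : 0 ≤ c := by rw [hc]; exact Nat.cast_nonneg _
  have h1 : (n : ℝ) * c ≤ 2 * κ * m := by rw [hc, hm]; exact_mod_cast H.isoX A hA
  have h2 : (t : ℝ) ^ 26 * (κ * s) ≤ κ * m + n * c := by
    rw [hs, hm, hc]; exact_mod_cast h.o6X A
  have h3 : (t : ℝ) ^ 26 * (κ * a) ≤ n := by rw [ha]; exact (outer_avX H t ω ht O h).1
  have h4 : (t : ℝ) ^ 26 * s ≤ 3 * m := by
    refine le_of_mul_le_mul_left ?_ hκ
    calc (κ : ℝ) * ((t : ℝ) ^ 26 * s) = (t : ℝ) ^ 26 * (κ * s) := by ring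
      _ ≤ κ * m + n * c := h2
      _ ≤ κ * (3 * m) := by linarith
  have h5 : (t : ℝ) ^ 26 * (c * a) ≤ 2 * m := by
    refine le_of_mul_le_mul_left ?_ hκ
    calc (κ : ℝ) * ((t : ℝ) ^ 26 * (c * a)) = ((t : ℝ) ^ 26 * (κ * a)) * c := by ring
      _ ≤ n * c := mul_le_mul_of_nonneg_right h3 hc0
      _ ≤ κ * (2 * m) := by linarith
  rw [sum_sub_distrib, sum_const, nsmul_eq_mul, ← ha, ← hs, ← hc, ← hm]
  rw [div_mul_eq_mul_div, le_div_iff₀ hT]
  have h6 : 0 ≤ (t : ℝ) ^ 26 * (c * a) := by positivity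
  have h7 : 0 ≤ (t : ℝ) ^ 26 * s := by positivity
  rw [← abs_of_pos hT, ← abs_mul, abs_le]
  constructor
  · nlinarith
  · nlinarith

theorem outer_smY {n d κ : ℕ} (H : Host X Y n d κ) (t ω : ℕ) (ht : 1 ≤ t) {C : Type} [Fintype C]
    (O : Outer X Y C) (h : OutOK H t ω O) :
    SmY H.G (6 / (t : ℝ) ^ 26) (fun y => (uY O y : ℝ) - avY (fun y => (uY O y : ℝ))) := by
  refine SmY_half _ _ _ (sum_sub_avY _) (fun N hN => ?_)
  have hT : (0 : ℝ) < (t : ℝ) ^ 26 := by
    have : (0 : ℝ) < t := by exact_mod_cast ht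
    positivity
  obtain ⟨a, ha⟩ : ∃ a : ℝ, a = avY (fun y => (uY O y : ℝ)) := ⟨_, rfl⟩
  have ha0 : 0 ≤ a := by rw [ha]; unfold avY; positivity
  obtain ⟨m, hm⟩ : ∃ m : ℝ, m = (mY H.G N : ℝ) := ⟨_, rfl⟩
  have hm0 : 0 ≤ m := by rw [hm]; exact Nat.cast_nonneg _
  obtain ⟨s, hs⟩ : ∃ s : ℝ, s = ∑ y ∈ N, (uY O y : ℝ) := ⟨_, rfl⟩
  have hs0 : 0 ≤ s := by rw [hs]; positivity
  obtain ⟨c, hc⟩ : ∃ c : ℝ, c = (N.card : ℝ) := ⟨_, rfl⟩
  have hc0 : 0 ≤ c := by rw [hc]; exact Nat.cast_nonneg _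
  have h1 : c ≤ 2 * m := by rw [hc, hm]; exact_mod_cast H.isoY N hN
  have h2 : (t : ℝ) ^ 26 * s ≤ m + c := by
    rw [hs, hm, hc]; exact_mod_cast h.o6Y N
  have h3 : (t : ℝ) ^ 26 * a ≤ 1 := by rw [ha]; exact (outer_avX H t ω ht O h).2
  have h4 : (t : ℝ) ^ 26 * s ≤ 3 * m := by linarith
  have h5 : (t : ℝ) ^ 26 * (c * a) ≤ 2 * m := by
    calc (t : ℝ) ^ 26 * (c * a) = ((t : ℝ) ^ 26 * a) * c := by ring
      _ ≤ 1 * c := mul_le_mul_of_nonneg_right h3 hc0
      _ ≤ 2 * m := by linarith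
  rw [sum_sub_distrib, sum_const, nsmul_eq_mul, ← ha, ← hs, ← hc, ← hm]
  rw [div_mul_eq_mul_div, le_div_iff₀ hT]
  have h6 : 0 ≤ (t : ℝ) ^ 26 * (c * a) := by positivity
  have h7 : 0 ≤ (t : ℝ) ^ 26 * s := by positivity
  rw [← abs_of_pos hT, ← abs_mul, abs_le]
  constructor
  · nlinarith
  · nlinarith

private lemma o01_sub {n d κ : ℕ} (H : Host X Y n d κ) (t ω : ℕ) {C : Type} [Fintype C]
    (O : Outer X Y C) (h : OutOK H t ω O) : O.U ⊆ H.G := by
  intro e he
  unfold Outer.U at he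
  rw [mem_filter] at he
  obtain ⟨c, h1, h2⟩ := he.2
  have := h.adj c e.1 h1
  rw [← h2] at this
  exact this

private lemma o01_split (G U : Finset (X × Y)) (hU : U ⊆ G) (A : Finset X) (N : Finset Y) :
    eB (G \ U) A N + eB U A N = eB G A N := by
  unfold eB
  have h1 : (G.filter (fun e => e.1 ∈ A ∧ e.2 ∈ N)) =
      ((G \ U).filter (fun e => e.1 ∈ A ∧ e.2 ∈ N)) ∪ (U.filter (fun e => e.1 ∈ A ∧ e.2 ∈ N)) := by
    rw [← filter_union, sdiff_union_of_subset hU]
  rw [h1, card_union_of_disjoint]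
  exact disjoint_filter_filter sdiff_disjoint

theorem outer_bd {n d κ : ℕ} (H : Host X Y n d κ) (t ω : ℕ) {C : Type} [Fintype C]
    (O : Outer X Y C) (h : OutOK H t ω O) (A : Finset X) (N : Finset Y) :
    bd H.G A N ≤ 2 * bd (H.G \ O.U) A N := by
  have h1 := h.o7 A N
  have h2 := o01_split H.G O.U (o01_sub H t ω O h) A Nᶜ
  have h3 := o01_split H.G O.U (o01_sub H t ω O h) Aᶜ N
  unfold bd at h1 ⊢
  omega

theorem outer_deg {n d κ : ℕ} (H : Host X Y n d κ) (t ω : ℕ) {C : Type} [Fintype C]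
    (O : Outer X Y C) (h : OutOK H t ω O) :
    (∀ x, dgX (H.G \ O.U) x + uX O x = d) ∧ (∀ y, dgY (H.G \ O.U) y + uY O y = κ) := by
  classical
  constructor
  · intro x
    have h1 := o01_split H.G O.U (o01_sub H t ω O h) {x} univ
    have h2 := H.degX x
    unfold dgX at h2 ⊢
    have h3 : uX O x = eB O.U {x} univ := by
      unfold uX eB
      refine card_bij (fun c _ => (x, O.mu c x)) ?_ ?_ ?_
      · intro c hc
        rw [mem_filter] at hc
        simp only [mem_filter, mem_singleton, mem_univ, and_true, Outer.U, true_and]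
        exact ⟨c, hc.2, rfl⟩
      · intro c hc c' hc' he
        rw [mem_filter] at hc hc'
        by_contra hne
        exact h.dis c c' hne x hc.2 hc'.2 (Prod.mk.inj he).2
      · intro e he
        simp only [mem_filter, mem_singleton, mem_univ, and_true, Outer.U, true_and] at he
        obtain ⟨⟨c, h4, h5⟩, h6⟩ := he
        refine ⟨c, mem_filter.2 ⟨mem_univ _, h6 ▸ h4⟩, ?_⟩
        ext
        · exact h6.symm
        · rw [h5, h6]
    rw [h3]
    omega
  · intro y
    have h1 := o01_split H.G O.U (o01_sub H t ω O h) univ {y}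
    have h2 := H.degY y
    unfold dgY at h2 ⊢
    have hsurj : ∀ c, y ∈ O.OY c → ∃ x ∈ O.OX c, O.mu c x = y := by
      intro c hc
      have hsub : (O.OX c).image (O.mu c) ⊆ O.OY c := by
        intro z hz
        obtain ⟨x, hx, rfl⟩ := mem_image.1 hz
        exact h.mem c x hx
      have hcard : (O.OY c).card ≤ ((O.OX c).image (O.mu c)).card := by
        rw [card_image_of_injOn (h.inj c), h.cX, h.cY]
      have := eq_of_subset_of_card_le hsub hcard
      rw [← this] at hc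
      exact mem_image.1 hc
    choose g hg1 hg2 using hsurj
    have h3 : uY O y = eB O.U univ {y} := by
      unfold uY eB
      refine card_bij (fun c hc => (g c (mem_filter.1 hc).2, y)) ?_ ?_ ?_
      · intro c hc
        rw [mem_filter] at hc
        simp only [mem_filter, mem_singleton, mem_univ, and_true, Outer.U, true_and]
        exact ⟨c, hg1 c _, (hg2 c _).symm⟩
      · intro c hc c' hc' he
        have hc2 := (mem_filter.1 hc).2
        have hc2' := (mem_filter.1 hc').2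
        by_contra hne
        have h4 : g c hc2 = g c' hc2' := (Prod.mk.inj he).1
        refine h.dis c c' hne (g c hc2) (hg1 c hc2) (h4 ▸ hg1 c' hc2') ?_
        rw [hg2 c hc2, h4, hg2 c' hc2']
      · intro e he
        simp only [mem_filter, mem_singleton, mem_univ, Outer.U, true_and] at he
        obtain ⟨⟨c, h4, h5⟩, h6⟩ := he
        have hy : y ∈ O.OY c := by
          rw [← h6, h5]
          exact h.mem c _ h4
        refine ⟨c, mem_filter.2 ⟨mem_univ _, hy⟩, ?_⟩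
        ext
        · exact h.inj c (hg1 c hy) h4 (by rw [hg2 c hy, ← h5, h6])
        · exact h6.symm
    rw [h3]
    omega

end Pool.SCDH
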