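import Pool.Agent.Lib.SCDH.MDefs
import Pool.Agent.Lib.SCDH.G01
import Pool.Agent.Lib.SCDH.G02
import Pool.Agent.Lib.SCDH.G03
import Pool.Agent.Lib.SCDH.G04
import Pool.Agent.Lib.SCDH.N01
import Pool.Agent.Lib.SCDH.N02
import Pool.Agent.Lib.SCDH.L01
import Pool.Agent.Lib.SCDH.L02
import Pool.Agent.Lib.SCDH.W01
import Pool.Agent.Lib.SCDH.W02
import Pool.Agent.Lib.SCDH.L04
import Pool.Agent.Lib.SCDH.O01

/-!
# Row M1 (paper scd_h36.md)
mac1: Sc sees the cuts certified by its half Sh c 0.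
Recipe: halves (L04) with V = variables, I = {inl (c,y) : y ∉ OY c}, k0 = labels in, not free, bit 0; k1 = labels in, not free; p = ρ₁/2 (k1∖k0 has ρ₁/2 of the labels, P_inzb), m S v = for v = inl (c,y): min(e_F(A,y), e_F(Aᶜ,y)) with A = cX (rs F {y : inl (c,y) ∈ S}) n T; M = κ, R = n^36 |T|. Then Sh c 0 = {y : inl(c,y) ∈ S0}, mX (FS c) A = ∑_{y ∈ Sc} m, and ∑_{y ∉ OY c} m ≥ (3/4) mX F A: the part y ∈ OY c is ≤ e_G(A', OY c) with A' = A or Aᶜ (the one with 2|A'| ≤ |X|) ≤ t^-26 (mX G A + (n/κ)|A'|) ≤ 3 t^-26 mX G A (isoX) ≤ 3·10^7 t^-5 mX F A (Res.cut with N = maj F A: η mX G ≤ 10^7 mX F). So on mac1: ∑_I m ≥ (3/4) n^37|T| ≥ n^36 |T| and 2 ∑_{Sc} m < (κ/(4d)) mX F A ≤ p ∑_I m. P ≤ exp(-p n^36|T|/(8κ)) ≤ exp(-5n|T|). Dependence: cX is local (W02.cX_local) and every variable used lies in supT. T = ∅: both sides 0.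
-/

set_option linter.unusedSectionVars false
set_option linter.unusedVariables false

namespace Pool.SCDH

open Finset Pool.MP_0ccee8_co.Lib2

variable {X Y : Type} [Fintype X] [DecidableEq X] [Fintype Y] [DecidableEq Y]
variable (D : Ctx X Y)

private lemma m1_eB_rs (Γ : Finset (X × Y)) (S : Finset Y) (A : Finset X) (y : Y) :
    eB (rs Γ S) A {y} = if y ∈ S then eB Γ A {y} else 0 := by
  unfold eB rs
  split_ifs with h
  · congr 1
    ext e
    simp only [mem_filter, mem_singleton]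
    constructor
    · rintro ⟨⟨h1, _⟩, h2⟩
      exact ⟨h1, h2⟩
    · rintro ⟨h1, h2, h3⟩
      exact ⟨⟨h1, h3 ▸ h⟩, h2, h3⟩
  · rw [card_eq_zero, filter_eq_empty_iff]
    intro e he hc
    rw [mem_filter] at he
    have := mem_singleton.1 hc.2
    exact h (this ▸ he.2)

private lemma m1_mX_rs (Γ : Finset (X × Y)) (S : Finset Y) (A : Finset X) :
    mX (rs Γ S) A = ∑ y ∈ S, min (eB Γ A {y}) (eB Γ Aᶜ {y}) := by
  unfold mX
  rw [← Finset.sum_filter_add_sum_filter_not univ (fun y => y ∈ S)]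
  have h2 : ∑ y ∈ univ.filter (fun y => ¬ y ∈ S),
      min (eB (rs Γ S) A {y}) (eB (rs Γ S) Aᶜ {y}) = 0 := by
    apply sum_eq_zero
    intro y hy
    rw [m1_eB_rs, if_neg (mem_filter.1 hy).2]
    simp
  rw [h2, add_zero, Finset.filter_mem_eq_inter, Finset.univ_inter]
  apply sum_congr rfl
  intro y hy
  rw [m1_eB_rs, m1_eB_rs, if_pos hy, if_pos hy]

/-- the part of a cut which goes to the outer set is at most a quarter -/
private lemma m1_out (hD : CtxOK D) (c : Fin D.B) (A : Finset X) :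
    4 * ∑ y ∈ D.O.OY c, (min (eB D.F A {y}) (eB D.F Aᶜ {y}) : ℝ) ≤ mX D.F A := by
  -- a half set
  obtain ⟨A', hA', hmin, hmX, hmG⟩ : ∃ A' : Finset X, 2 * A'.card ≤ Fintype.card X ∧
      (∀ y, min (eB D.F A {y}) (eB D.F Aᶜ {y}) ≤ eB D.F A' {y}) ∧ mX D.F A' = mX D.F A ∧
      mX D.H.G A' = mX D.H.G A := by
    by_cases h : 2 * A.card ≤ Fintype.card X
    · exact ⟨A, h, fun y => min_le_left _ _, rfl, rfl⟩
    · refine ⟨Aᶜ, ?_, fun y => min_le_right _ _, mX_compl _ _, mX_compl _ _⟩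
      have := card_compl_add_card A
      omega
  have ht := (ctx_t D hD).1
  have hκ : (0 : ℝ) < D.κ := by
    have := D.H.hκ
    exact_mod_cast this
  have h5 := hD.out.o5X c A'
  have hiso := D.H.isoX A' hA'
  have hcut := hD.res.cut A' (maj D.F A')
  have hmb := mX_le_bd D.H.G A' (maj D.F A')
  rw [bd_maj] at hcut
  have hsum : ∑ y ∈ D.O.OY c, (min (eB D.F A {y}) (eB D.F Aᶜ {y}) : ℝ) ≤ eB D.H.G A' (D.O.OY c) := by
    have h1 : ∑ y ∈ D.O.OY c, min (eB D.F A {y}) (eB D.F Aᶜ {y}) ≤ eB D.H.G A' (D.O.OY c) := by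
      rw [eB_sumY]
      apply sum_le_sum
      intro y hy
      exact (hmin y).trans (eB_mono _ _ hD.res.sub _ _ (Subset.refl _) _ _ (Subset.refl _))
    have h2 : ((∑ y ∈ D.O.OY c, min (eB D.F A {y}) (eB D.F Aᶜ {y}) : ℕ) : ℝ)
        ≤ eB D.H.G A' (D.O.OY c) := by exact_mod_cast h1
    push_cast at h2
    exact h2
  have h5' : (D.t : ℝ) ^ 26 * (D.κ * eB D.H.G A' (D.O.OY c)) ≤ 3 * (D.κ * mX D.H.G A') := by
    have : D.t ^ 26 * (D.κ * eB D.H.G A' (D.O.OY c)) ≤ 3 * (D.κ * mX D.H.G A') := by nlinarith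
    exact_mod_cast this
  have h6 : (D.t : ℝ) ^ 26 * eB D.H.G A' (D.O.OY c) ≤ 3 * mX D.H.G A' := by
    have : (D.κ : ℝ) * ((D.t : ℝ) ^ 26 * eB D.H.G A' (D.O.OY c)) ≤ D.κ * (3 * mX D.H.G A') := by
      linarith
    exact le_of_mul_le_mul_left this hκ
  have h7 : (mX D.H.G A' : ℝ) ≤ (D.t : ℝ) ^ 21 * (10 ^ 7 * mX D.F A) := by
    have h8 : (mX D.H.G A' : ℝ) ≤ bd D.H.G A' (maj D.F A') := by exact_mod_cast hmb
    rw [hmX] at hcut
    have ht21 : (0 : ℝ) < (D.t : ℝ) ^ 21 := by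
      apply pow_pos
      linarith [pow_pos (by norm_num : (0 : ℝ) < 10) 100]
    have h9 : (bd D.H.G A' (maj D.F A') : ℝ) = (D.t : ℝ) ^ 21 * (eta D.t * bd D.H.G A' (maj D.F A')) := by
      unfold eta
      field_simp
    rw [h9] at h8
    exact h8.trans (mul_le_mul_of_nonneg_left hcut ht21.le)
  have ht1 : (10 : ℝ) ^ 100 ≤ D.t := ht
  have ht0 : (0 : ℝ) < D.t := lt_of_lt_of_le (by positivity) ht1
  have ht5 : (12 * 10 ^ 7 : ℝ) ≤ (D.t : ℝ) ^ 5 := by
    calc (12 * 10 ^ 7 : ℝ) ≤ ((10 : ℝ) ^ 100) ^ 5 := by norm_num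
      _ ≤ (D.t : ℝ) ^ 5 := pow_le_pow_left₀ (by positivity) ht1 5
  have h10 : (D.t : ℝ) ^ 26 * (4 * eB D.H.G A' (D.O.OY c)) ≤ (D.t : ℝ) ^ 26 * mX D.F A := by
    have hm0 : (0 : ℝ) ≤ mX D.F A := Nat.cast_nonneg _
    have e1 : (D.t : ℝ) ^ 26 = (D.t : ℝ) ^ 21 * (D.t : ℝ) ^ 5 := by ring
    calc (D.t : ℝ) ^ 26 * (4 * eB D.H.G A' (D.O.OY c)) = 4 * ((D.t : ℝ) ^ 26 * eB D.H.G A' (D.O.OY c)) := by ring
      _ ≤ 4 * (3 * ((D.t : ℝ) ^ 21 * (10 ^ 7 * mX D.F A))) := by linarith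
      _ = (D.t : ℝ) ^ 21 * ((12 * 10 ^ 7) * mX D.F A) := by ring
      _ ≤ (D.t : ℝ) ^ 21 * ((D.t : ℝ) ^ 5 * mX D.F A) := by gcongr
      _ = (D.t : ℝ) ^ 26 * mX D.F A := by rw [e1]; ring
  have h11 : (4 * eB D.H.G A' (D.O.OY c) : ℝ) ≤ mX D.F A :=
    le_of_mul_le_mul_left h10 (by positivity)
  linarith

private lemma m1_mem_Sc (φ : D.Lbl) (c : Fin D.B) (y : Y) :
    y ∈ D.Sc φ c ↔ y ∉ D.O.OY c ∧ (((φ (.inl (c, y))).1 : ℕ) < D.NX ∧
      ((φ (.inl (c, y))).2.1 : ℕ) ≠ 0) := by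
  unfold Ctx.Sc Ctx.Sin Ctx.Zs
  simp only [mem_sdiff, mem_filter, mem_univ, true_and]
  tauto

private lemma m1_mem_Sh (φ : D.Lbl) (c : Fin D.B) (b : Fin 2) (y : Y) :
    y ∈ D.Sh φ c b ↔ y ∉ D.O.OY c ∧ ((((φ (.inl (c, y))).1 : ℕ) < D.NX ∧
      ((φ (.inl (c, y))).2.1 : ℕ) ≠ 0) ∧ (φ (.inl (c, y))).2.2.1 = b) := by
  unfold Ctx.Sh
  rw [mem_filter, m1_mem_Sc]
  tauto

/-- label classes -/
private def m1k1 : Finset D.Lab := univ.filter (fun l => (l.1 : ℕ) < D.NX ∧ (l.2.1 : ℕ) ≠ 0)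
private def m1k0 : Finset D.Lab :=
  univ.filter (fun l => ((l.1 : ℕ) < D.NX ∧ (l.2.1 : ℕ) ≠ 0) ∧ l.2.2.1 = 0)
/-- the variables of the colour `c` -/
private def m1I (c : Fin D.B) : Finset D.Var :=
  (univ.filter (fun y => y ∉ D.O.OY c)).map ⟨fun y => Sum.inl (c, y), by
    intro y y' h
    simpa using h⟩
/-- the certified set -/
private noncomputable def m1A (c : Fin D.B) (T : Finset (X ⊕ Y)) (S : Finset D.Var) : Finset X :=
  cX (rs D.F (univ.filter (fun y => (Sum.inl (c, y) : D.Var) ∈ S))) D.n T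
/-- the weights -/
private noncomputable def m1m (c : Fin D.B) (T : Finset (X ⊕ Y)) (S : Finset D.Var) : D.Var → ℝ
  | .inl (_, y) => min (eB D.F (m1A D c T S) {y} : ℝ) (eB D.F (m1A D c T S)ᶜ {y} : ℝ)
  | .inr _ => 0

private lemma m1_Sh (φ : D.Lbl) (c : Fin D.B) :
    univ.filter (fun y => (Sum.inl (c, y) : D.Var) ∈ (m1I D c).filter (fun v => φ v ∈ m1k0 D))
      = D.Sh φ c 0 := by
  ext y
  rw [m1_mem_Sh]
  simp only [mem_filter, mem_univ, true_and, m1I, mem_map, Function.Embedding.coeFn_mk, m1k0]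
  constructor
  · rintro ⟨⟨y', h1, h2⟩, h3⟩
    have : y' = y := by simpa using h2
    subst this
    exact ⟨h1, h3⟩
  · rintro ⟨h1, h3⟩
    exact ⟨⟨y, h1, rfl⟩, h3⟩

private lemma m1_sumI (c : Fin D.B) (g : D.Var → ℝ) :
    ∑ v ∈ m1I D c, g v = ∑ y ∈ univ.filter (fun y => y ∉ D.O.OY c), g (.inl (c, y)) := by
  unfold m1I
  rw [sum_map]
  rfl

private lemma m1_prob (hD : CtxOK D) (c : Fin D.B) :
    D.rho1 / 2 * Fintype.card D.Lab ≤ (((m1k1 D) \ (m1k0 D)).card : ℝ) := by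
  have hY : Nonempty Y := by
    have : 0 < Fintype.card Y := by
      have := hD.ha
      omega
    exact Fintype.card_pos_iff.1 this
  obtain ⟨y⟩ := hY
  have h1 := P_inzb D hD (.inl (c, y)) 1
  have h2 := P_coord (V := D.Var) (K := D.Lab) (.inl (c, y)) ((m1k1 D) \ (m1k0 D))
  have h3 : (fun φ : D.Lbl => (((φ (.inl (c, y))).1 : ℕ) < D.NX ∧ ((φ (.inl (c, y))).2.1 : ℕ) ≠ 0) ∧
      (φ (.inl (c, y))).2.2.1 = 1) = fun φ : D.Lbl => φ (.inl (c, y)) ∈ (m1k1 D) \ (m1k0 D) := by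
    funext φ
    apply propext
    have h4 : ∀ b : Fin 2, b = 1 ↔ ¬ b = 0 := by decide
    simp only [m1k1, m1k0, mem_sdiff, mem_filter, mem_univ, true_and, h4]
    tauto
  rw [h3, h2] at h1
  have hpos : (0 : ℝ) < Fintype.card D.Lab := by
    exact_mod_cast Fintype.card_pos
  rw [div_eq_iff hpos.ne'] at h1
  exact h1.ge

/-- the variables of the vertices near `T` are in the support -/
private lemma m1_supT (B : ℕ) (G : Finset (X × Y)) (T : Finset (X ⊕ Y)) (R : ℕ) (hR : R = rW)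
    (c : Fin B) (y : Y) (hy : Sum.inr y ∈ ball G (R + 1) T) :
    (Sum.inl (c, y) : (Fin B × Y) ⊕ (X × Y)) ∈ supT B G T := by
  classical
  unfold supT
  rw [mem_filter, ← hR]
  exact ⟨mem_univ _, ball_mono _ _ _ (by omega) _ _ (Subset.refl _) hy⟩

theorem mac1_ok (hD : CtxOK D) (c : Fin D.B) : MacOK D (fun T φ => D.mac1 φ T c) := by
  classical
  have ht := (ctx_t D hD).1
  have ht0 : (0 : ℝ) < D.t := lt_of_lt_of_le (by positivity) ht
  obtain ⟨hn1, hn2⟩ := ctx_n D hD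
  obtain ⟨hκ1, hκd, hdn, hnd⟩ := ctx_deg D hD
  obtain ⟨hr1, hr2, hr3, hr4, hr5, -⟩ := ctx_rho D hD
  have hn : (10 : ℝ) ^ 100 ≤ D.n := by
    calc (10 : ℝ) ^ 100 ≤ D.t := ht
      _ = (D.t : ℝ) ^ 1 := (pow_one _).symm
      _ ≤ (D.t : ℝ) ^ 200 := pow_le_pow_right₀ (le_trans (by norm_num) ht) (by norm_num)
      _ ≤ D.n := hn1
  have hn0 : (0 : ℝ) < D.n := lt_of_lt_of_le (by positivity) hn
  have hκ0 : (0 : ℝ) < D.κ := lt_of_lt_of_le (by positivity) hκ1
  have hd0 : (0 : ℝ) < D.d := lt_of_lt_of_le hκ0 hκd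
  refine ⟨?_, ?_, ?_⟩
  · -- the empty set
    rintro φ ⟨-, h2⟩
    rw [(cX_empty _ _).1] at h2
    have h3 : mX D.F (∅ : Finset X) = 0 := by
      unfold mX
      apply sum_eq_zero
      intro y _
      have : eB D.F (∅ : Finset X) {y} = 0 := by
        unfold eB
        rw [card_eq_zero, filter_eq_empty_iff]
        intro e _ h
        exact absurd h.1 (notMem_empty _)
      rw [this]
      simp
    rw [h3, Nat.cast_zero, mul_zero] at h2
    exact absurd h2 (not_lt.2 (Nat.cast_nonneg _))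
  · -- dependence
    intro T φ ψ hag
    obtain ⟨R, hR⟩ : ∃ R, R = rW := ⟨_, rfl⟩
    have hvar : ∀ y, Sum.inr y ∈ ball D.H.G (R + 1) T → φ (.inl (c, y)) = ψ (.inl (c, y)) := by
      intro y hy
      apply hag
      exact m1_supT D.B D.H.G T R hR c y hy
    have hsubF : ∀ S : Finset Y, rs D.F S ⊆ D.H.G := fun S =>
      (filter_subset _ _).trans hD.res.sub
    have hA : cX (rs D.F (D.Sh φ c 0)) D.n T = cX (rs D.F (D.Sh ψ c 0)) D.n T := by
      have hcl := cX_local D.H.G _ _ (hsubF (D.Sh φ c 0)) (hsubF (D.Sh ψ c 0)) D.n T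
      rw [← hR] at hcl
      refine (hcl ?_).1
      intro e he
      unfold rs
      rw [mem_filter, mem_filter]
      refine and_congr_right fun heF => ?_
      have heG := hD.res.sub heF
      have hy : Sum.inr e.2 ∈ ball D.H.G (R + 1) T := by
        rcases he with he | he
        · exact (ball_edge _ _ _ e heG).1 he
        · exact ball_mono _ _ _ (by omega) _ _ (Subset.refl _) he
      rw [m1_mem_Sh, m1_mem_Sh, hvar _ hy]
    have hM : mX (D.FS φ c) (cX (rs D.F (D.Sh ψ c 0)) D.n T)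
        = mX (D.FS ψ c) (cX (rs D.F (D.Sh ψ c 0)) D.n T) := by
      unfold mX Ctx.FS
      apply sum_congr rfl
      intro y _
      by_cases hy : Sum.inr y ∈ ball D.H.G (R + 1) T
      · have h1 : y ∈ D.Sc φ c ↔ y ∈ D.Sc ψ c := by
          rw [m1_mem_Sc, m1_mem_Sc, hvar y hy]
        simp only [m1_eB_rs, h1]
      · have h2 : eB D.F (cX (rs D.F (D.Sh ψ c 0)) D.n T) {y} = 0 := by
          unfold eB
          rw [card_eq_zero, filter_eq_empty_iff]
          intro e he hc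
          apply hy
          have hcb := cX_ball D.H.G _ (hsubF (D.Sh ψ c 0)) D.n T
          rw [← hR] at hcb
          have h3 := hcb.1 _ hc.1
          have h4 := (ball_edge _ _ _ e (hD.res.sub he)).1 h3
          rwa [mem_singleton.1 hc.2] at h4
        simp only [m1_eB_rs, h2]
        simp
    change (D.mac1 φ T c) = (D.mac1 ψ T c)
    unfold Ctx.mac1
    rw [hA, hM]
  · -- probability
    intro T hT
    have hTc : (1 : ℝ) ≤ T.card := by
      exact_mod_cast hT.card_pos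
    have key := halves (V := D.Var) (K := D.Lab) (m1I D c) (m1k0 D) (m1k1 D)
      (by
        intro l hl
        simp only [m1k0, m1k1, mem_filter, mem_univ, true_and] at hl ⊢
        exact hl.1) (D.rho1 / 2) (by positivity) (m1_prob D hD c) (m1m D c T) D.κ hκ0
      (by
        intro S v
        rcases v with ⟨c', y⟩ | e
        · constructor
          · exact le_min (Nat.cast_nonneg _) (Nat.cast_nonneg _)
          · refine (min_le_left _ _).trans ?_
            have h1 : eB D.F (m1A D c T S) {y} ≤ dgY D.F y :=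
              eB_mono _ _ (Subset.refl _) _ _ (subset_univ _) _ _ (Subset.refl _)
            have h2 := dgY_le D.H D.F hD.res.sub y
            exact_mod_cast h1.trans h2
        · exact ⟨le_refl _, hκ0.le⟩) ((D.n : ℝ) ^ 36 * T.card)
    refine (P_mono ?_).trans (key.trans ?_)
    · intro φ hφ
      obtain ⟨h1, h2⟩ := hφ
      have hAeq : m1A D c T ((m1I D c).filter (fun v => φ v ∈ m1k0 D))
          = cX (rs D.F (D.Sh φ c 0)) D.n T := by
        unfold m1A
        rw [m1_Sh]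
      set A := cX (rs D.F (D.Sh φ c 0)) D.n T with hAdef
      have hsumI : ∑ v ∈ m1I D c, m1m D c T ((m1I D c).filter (fun v => φ v ∈ m1k0 D)) v
          = ∑ y ∈ univ.filter (fun y => y ∉ D.O.OY c), (min (eB D.F A {y}) (eB D.F Aᶜ {y}) : ℝ) := by
        rw [m1_sumI]
        apply sum_congr rfl
        intro y _
        simp only [m1m]
        rw [hAeq]
      have hsplit : (mX D.F A : ℝ) = ∑ y ∈ univ.filter (fun y => y ∉ D.O.OY c), (min (eB D.F A {y}) (eB D.F Aᶜ {y}) : ℝ)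
          + ∑ y ∈ D.O.OY c, (min (eB D.F A {y}) (eB D.F Aᶜ {y}) : ℝ) := by
        unfold mX
        push_cast
        rw [← Finset.sum_filter_add_sum_filter_not univ (fun y => y ∉ D.O.OY c)]
        congr 1
        apply sum_congr _ (fun _ _ => rfl)
        ext y
        simp
      have hout := m1_out D hD c A
      have hsumK : ∑ v ∈ m1I D c, (if φ v ∈ m1k1 D then
          m1m D c T ((m1I D c).filter (fun v => φ v ∈ m1k0 D)) v else 0) = (mX (D.FS φ c) A : ℝ) := by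
        rw [m1_sumI]
        unfold Ctx.FS
        rw [m1_mX_rs]
        push_cast
        rw [← Finset.sum_filter]
        have h3 : (univ.filter (fun y => y ∉ D.O.OY c)).filter (fun y => φ (.inl (c, y)) ∈ m1k1 D)
            = D.Sc φ c := by
          ext y
          rw [m1_mem_Sc]
          simp only [m1k1, mem_filter, mem_univ, true_and]
        rw [h3]
        apply sum_congr rfl
        intro y _
        simp only [m1m]
        rw [hAeq]
      rw [hsumI, hsumK]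
      have hm0 : (0 : ℝ) ≤ mX D.F A := Nat.cast_nonneg _
      constructor
      · have hN : (Nτ D.n : ℝ) = (D.n : ℝ) ^ 3 * (D.n : ℝ) ^ 37 := by
          unfold Nτ
          push_cast
          ring
        rw [hN, mul_assoc] at h1
        have h4 := le_of_mul_le_mul_left h1 (by positivity)
        have h5 : (D.n : ℝ) ^ 36 * T.card * 2 ≤ (D.n : ℝ) ^ 37 * T.card := by
          have e1 : (D.n : ℝ) ^ 37 = (D.n : ℝ) ^ 36 * D.n := by ring
          rw [e1]
          have : (2 : ℝ) ≤ D.n := le_trans (by norm_num) hn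
          calc (D.n : ℝ) ^ 36 * T.card * 2 = (D.n : ℝ) ^ 36 * 2 * T.card := by ring
            _ ≤ (D.n : ℝ) ^ 36 * D.n * T.card := by gcongr
        linarith
      · have h6 : (D.κ : ℝ) / (8 * D.d) * mX D.F A * 2 ≤ D.rho1 / 2 *
            (∑ y ∈ univ.filter (fun y => y ∉ D.O.OY c), (min (eB D.F A {y}) (eB D.F Aᶜ {y}) : ℝ)) := by
          have h7 : (3 : ℝ) / 4 * mX D.F A ≤ ∑ y ∈ univ.filter (fun y => y ∉ D.O.OY c), (min (eB D.F A {y}) (eB D.F Aᶜ {y}) : ℝ) := by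
            linarith
          have hkd : (0 : ℝ) ≤ (D.κ : ℝ) / D.d := by positivity
          calc (D.κ : ℝ) / (8 * D.d) * mX D.F A * 2 = 1 / 4 * ((D.κ : ℝ) / D.d) * mX D.F A := by
                field_simp
                ring
            _ ≤ 1 / 2 * (99 / 100 * ((D.κ : ℝ) / D.d)) * (3 / 4 * mX D.F A) := by
                have := mul_nonneg hkd hm0
                nlinarith
            _ ≤ D.rho1 / 2 * (3 / 4 * mX D.F A) := by
                have : 1 / 2 * (99 / 100 * ((D.κ : ℝ) / D.d)) ≤ D.rho1 / 2 := by linarith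
                gcongr
            _ ≤ _ := by
                gcongr
        linarith
    · apply Real.exp_le_exp.2
      apply neg_le_neg
      rw [le_div_iff₀ (by positivity)]
      have h8 : 99 / 100 * (D.κ : ℝ) ≤ D.rho1 * D.d := by
        have := mul_le_mul_of_nonneg_right hr1 hd0.le
        rwa [mul_assoc, div_mul_cancel₀ _ hd0.ne'] at this
      have h9 : 99 / 100 * (D.κ : ℝ) ≤ D.rho1 * D.n :=
        h8.trans (mul_le_mul_of_nonneg_left hdn hr5.le)
      have h10 : (10 : ℝ) ^ 100 ≤ (D.n : ℝ) ^ 34 := by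
        calc (10 : ℝ) ^ 100 ≤ D.n := hn
          _ = (D.n : ℝ) ^ 1 := (pow_one _).symm
          _ ≤ (D.n : ℝ) ^ 34 := pow_le_pow_right₀ (le_trans (by norm_num) hn) (by norm_num)
      have h11 : 5 * (D.n : ℝ) * T.card * (8 * D.κ) ≤ D.n * T.card * (99 / 200 * D.κ) * (D.n : ℝ) ^ 34 := by
        have h12 : (100 : ℝ) ≤ (D.n : ℝ) ^ 34 := le_trans (by norm_num) h10
        have h13 : (0 : ℝ) ≤ D.n * T.card * (99 / 200 * D.κ) := by positivity
        calc 5 * (D.n : ℝ) * T.card * (8 * D.κ) ≤ D.n * T.card * (99 / 200 * D.κ) * 100 := by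
              have : (0 : ℝ) ≤ D.n * T.card * D.κ := by positivity
              nlinarith
          _ ≤ _ := mul_le_mul_of_nonneg_left h12 h13
      calc 5 * (D.n : ℝ) * T.card * (8 * D.κ) ≤ D.n * T.card * (99 / 200 * D.κ) * (D.n : ℝ) ^ 34 := h11
        _ = (D.n : ℝ) ^ 35 * T.card * (99 / 100 * D.κ) / 2 := by ring
        _ ≤ (D.n : ℝ) ^ 35 * T.card * (D.rho1 * D.n) / 2 := by gcongr
        _ = D.rho1 / 2 * ((D.n : ℝ) ^ 36 * T.card) := by ring

end Pool.SCDH
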