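import Pool.Agent.Lib.SCDH.MDefs
import Pool.Agent.Lib.SCDH.G01
import Pool.Agent.Lib.SCDH.G02
import Pool.Agent.Lib.SCDH.G03
import Pool.Agent.Lib.SCDH.G04
import Pool.Agent.Lib.SCDH.N01
import Pool.Agent.Lib.SCDH.N02
import Pool.Agent.Lib.SCDH.L01
import Pool.Agent.Lib.SCDH.L02
import Pool.Agent.Lib.SCDH.W01
import Pool.Agent.Lib.SCDH.W02

/-!
# Row M2 (paper scd_h36.md)
mac2: Γ-edges from certified sets (certificates by F, deterministic) into Sc.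
Recipe: A = cX F n T does not depend on φ. The sum is ∑_y eB Γ A {y} (1[y ∈ Sc] - ρ₁ 1[y ∉ OY c]) = ∑_{y ∉ OY c} eB Γ A {y}(1[y∈Sc] - ρ₁): macro_tail with I = {inl (c,y)}, |T b| ≤ κ ≤ n ≤ n^8, second moments ≤ ∑ (eB Γ A {y})² ≤ n · ∑ eB = n eB Γ A univ ≤ n² |A| ≤ n^16 sz, sz = szT F n T constant ≥ n^40|T|. Here lam n * szT = sz / n^6.
-/

set_option linter.unusedSectionVars false
set_option linter.unusedVariables false

namespace Pool.SCDH

open Finset Pool.MP_0ccee8_co.Lib2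

variable {X Y : Type} [Fintype X] [DecidableEq X] [Fintype Y] [DecidableEq Y]
variable (D : Ctx X Y)

private lemma m2_memSc (φ : D.Lbl) (c : Fin D.B) (y : Y) : y ∈ D.Sc φ c ↔
    y ∉ D.O.OY c ∧ ((φ (.inl (c, y))).1 : ℕ) < D.NX ∧ ((φ (.inl (c, y))).2.1 : ℕ) ≠ 0 := by
  unfold Ctx.Sc Ctx.Sin Ctx.Zs
  simp only [mem_sdiff, mem_filter, mem_univ, true_and]
  tauto

private lemma m2_n3 (hD : CtxOK D) : 3 ≤ D.n := by
  have h1 := ctx_t D hD
  have h2 := ctx_n D hD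
  have h3 : (3 : ℝ) ≤ D.t := le_trans (by norm_num) h1.1
  have h4 : (3 : ℝ) ≤ (D.t : ℝ) ^ 200 := by
    calc (3 : ℝ) ≤ D.t := h3
      _ = (D.t : ℝ) ^ 1 := (pow_one _).symm
      _ ≤ (D.t : ℝ) ^ 200 := pow_le_pow_right₀ (by linarith) (by norm_num)
  have h5 : (3 : ℝ) ≤ D.n := h4.trans h2.1
  exact_mod_cast h5

private lemma m2_ball (G : Finset (X × Y)) (T : Finset (X ⊕ Y)) (e : X × Y) (he : e ∈ G) (r : ℕ)
    (h : (Sum.inl e.1 : X ⊕ Y) ∈ ball G r T) : (Sum.inr e.2 : X ⊕ Y) ∈ ball G (r + 5) T :=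
  ball_mono G (r + 1) (r + 5) (by omega) T T (Finset.Subset.refl _) ((ball_edge G r T e he).1 h)

private lemma m2_sup (T : Finset (X ⊕ Y)) (e : X × Y) (he : e ∈ D.H.G) (r : ℕ) (hr : r = rW)
    (h : (Sum.inl e.1 : X ⊕ Y) ∈ ball D.H.G r T) (c : Fin D.B) :
    (Sum.inl (c, e.2) : D.Var) ∈ supT D.B D.H.G T := by
  classical
  unfold supT
  rw [← hr]
  refine Finset.mem_filter.2 ⟨Finset.mem_univ _, ?_⟩
  exact m2_ball D.H.G T e he r h

private lemma m2_cX (hD : CtxOK D) (T : Finset (X ⊕ Y)) (r : ℕ) (hr : r = rW) :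
    ∀ x ∈ cX D.F D.n T, (Sum.inl x : X ⊕ Y) ∈ ball D.H.G r T := by
  have h0 := cX_ball D.H.G D.F hD.res.sub D.n T
  rw [← hr] at h0
  exact h0.1

/-- deviation of a weighted sum over `Sc` -/
private theorem m2_tail (hD : CtxOK D) (c : Fin D.B) (h : Y → ℝ) (hM : ∀ y, |h y| ≤ (D.n : ℝ) ^ 8)
    (k : ℕ) (hk : 1 ≤ k) (sz : ℝ) (hsz : (D.n : ℝ) ^ 40 * k ≤ 2 * sz)
    (hV : ∑ y, (h y) ^ 2 ≤ (D.n : ℝ) ^ 16 * sz) :
    P (fun φ : D.Lbl => sz / (D.n : ℝ) ^ 6 <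
      |∑ y ∈ (D.O.OY c)ᶜ, h y * ((if y ∈ D.Sc φ c then (1 : ℝ) else 0) - D.rho1)|) ≤
      Real.exp (-(6 * D.n * k)) := by
  classical
  obtain ⟨hr1, hr2, hr3, hr4, hr5, -⟩ := ctx_rho D hD
  have hr6 : D.rho1 ≤ 1 := hr2.trans hr4
  let f : Y → D.Var := fun y => Sum.inl (c, y)
  have hf : Function.Injective f := by
    intro y y' hy
    have := Sum.inl_injective hy
    exact (Prod.mk.inj this).2
  let I : Finset D.Var := (D.O.OY c)ᶜ.image f
  let Tm : D.Var → D.Lbl → ℝ := fun w φ => match w with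
    | .inl (_, y) => h y * ((if ((φ (.inl (c, y))).1 : ℕ) < D.NX ∧ ((φ (.inl (c, y))).2.1 : ℕ) ≠ 0
        then (1 : ℝ) else 0) - D.rho1)
    | .inr _ => 0
  have hTm : ∀ (y : Y) (φ : D.Lbl), Tm (f y) φ = h y *
      ((if ((φ (f y)).1 : ℕ) < D.NX ∧ ((φ (f y)).2.1 : ℕ) ≠ 0 then (1 : ℝ) else 0) - D.rho1) :=
    fun y φ => rfl
  have hI : ∀ b ∈ I, ∃ y, y ∉ D.O.OY c ∧ f y = b := by
    intro b hb
    obtain ⟨y, hy, rfl⟩ := Finset.mem_image.1 hb
    exact ⟨y, by simpa using hy, rfl⟩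
  have hsum : ∀ φ : D.Lbl, ∑ b ∈ I, Tm b φ =
      ∑ y ∈ (D.O.OY c)ᶜ, h y * ((if y ∈ D.Sc φ c then (1 : ℝ) else 0) - D.rho1) := by
    intro φ
    rw [Finset.sum_image (fun y _ y' _ hyy => hf hyy)]
    refine Finset.sum_congr rfl fun y hy => ?_
    rw [hTm]
    have hy' : y ∉ D.O.OY c := by simpa using hy
    have : y ∈ D.Sc φ c ↔ ((φ (f y)).1 : ℕ) < D.NX ∧ ((φ (f y)).2.1 : ℕ) ≠ 0 := by
      rw [m2_memSc]
      exact ⟨fun hh => hh.2, fun hh => ⟨hy', hh⟩⟩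
    simp only [this]
  have hmain := macro_tail (V := D.Var) (K := D.Lab) D.n k (m2_n3 D hD) hk I Tm ?_ ?_ ?_
    (fun _ => sz) (fun _ _ => rfl) (fun _ => hsz) ?_
  · simp only [hsum] at hmain
    exact hmain
  · intro b hb ψ φ φ' hφ
    obtain ⟨y, hy, rfl⟩ := hI b hb
    simp only [hTm, mix_in hb, hφ (f y) (Finset.mem_singleton_self _)]
  · intro b hb ψ
    obtain ⟨y, hy, rfl⟩ := hI b hb
    rw [hTm, abs_mul]
    have h1 : |(if ((ψ (f y)).1 : ℕ) < D.NX ∧ ((ψ (f y)).2.1 : ℕ) ≠ 0 then (1 : ℝ) else 0) - D.rho1|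
        ≤ 1 := by
      rw [abs_le]
      split_ifs <;> constructor <;> linarith
    calc |h y| * _ ≤ |h y| * 1 := mul_le_mul_of_nonneg_left h1 (abs_nonneg _)
      _ = |h y| := mul_one _
      _ ≤ (D.n : ℝ) ^ 8 := hM y
  · intro b hb ψ
    obtain ⟨y, hy, rfl⟩ := hI b hb
    have h1 : ∀ φ : D.Lbl, Tm (f y) (mix I φ ψ) = h y *
        ((if ((φ (f y)).1 : ℕ) < D.NX ∧ ((φ (f y)).2.1 : ℕ) ≠ 0 then (1 : ℝ) else 0) - D.rho1) := by
      intro φ
      rw [hTm, mix_in hb]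
    rw [E_congr h1, E_mul_left, E_sub, E_const]
    have h2 : E (fun φ : D.Lbl => if ((φ (f y)).1 : ℕ) < D.NX ∧ ((φ (f y)).2.1 : ℕ) ≠ 0
        then (1 : ℝ) else 0) = D.rho1 := by
      have h3 := P_inz D hD (f y)
      rw [← h3]
      unfold P
      exact E_congr fun φ => by split_ifs <;> rfl
    rw [h2, sub_self, mul_zero]
  · intro ψ
    have h1 : ∑ b ∈ I, E (fun φ => (Tm b (mix I φ ψ)) ^ 2) ≤ ∑ y, (h y) ^ 2 := by
      rw [Finset.sum_image (fun y _ y' _ hyy => hf hyy)]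
      refine (Finset.sum_le_sum fun y hy => ?_).trans
        (Finset.sum_le_sum_of_subset_of_nonneg (Finset.subset_univ _) fun y _ _ => sq_nonneg _)
      refine (E_mono (g := fun _ => (h y) ^ 2) fun φ => ?_).trans (le_of_eq (E_const _))
      rw [hTm, mul_pow]
      refine mul_le_of_le_one_right (sq_nonneg _) ?_
      split_ifs <;> nlinarith
    exact h1.trans hV

theorem mac2_ok (hD : CtxOK D) (Γ : Finset (X × Y)) (hΓ : Γ ⊆ D.H.G) (c : Fin D.B) :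
    MacOK D (fun T φ => D.mac2 φ T Γ c) := by
  classical
  have hn3 := m2_n3 D hD
  have hnpos : (0 : ℝ) < D.n := by
    have : (3 : ℝ) ≤ D.n := by exact_mod_cast hn3
    linarith
  have hn1 : (1 : ℝ) ≤ D.n := by
    have : (3 : ℝ) ≤ D.n := by exact_mod_cast hn3
    linarith
  have hszT : ∀ T : Finset (X ⊕ Y), 0 ≤ szT D.F D.n T := by
    intro T
    unfold szT
    positivity
  refine ⟨?_, ?_, ?_⟩
  · intro φ hbad
    unfold Ctx.mac2 at hbad
    rw [(cX_empty D.F D.n).1, Finset.sum_empty, abs_zero] at hbad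
    have h1 := hszT ∅
    have h2 : 0 ≤ lam D.n := by unfold lam; positivity
    exact absurd hbad (not_lt.2 (mul_nonneg h2 h1))
  · intro T φ ψ hφ
    obtain ⟨r, hr⟩ : ∃ r, r = rW := ⟨_, rfl⟩
    unfold Ctx.mac2
    have h1 : ∀ x ∈ cX D.F D.n T, eB Γ {x} (D.Sc φ c) = eB Γ {x} (D.Sc ψ c) := by
      intro x hx
      unfold eB
      congr 1
      refine Finset.filter_congr fun e he => ?_
      refine and_congr_right fun hex => ?_
      have hex' : e.1 = x := by simpa using hex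
      have hball := m2_cX D hD T r hr x hx
      rw [← hex'] at hball
      have hv := m2_sup D T e (hΓ he) r hr hball c
      rw [m2_memSc, m2_memSc, hφ _ hv]
    have h2 : ∑ x ∈ cX D.F D.n T, ((eB Γ {x} (D.Sc φ c) : ℝ) - D.rho1 * (eB Γ {x} (D.O.OY c)ᶜ : ℝ)) =
        ∑ x ∈ cX D.F D.n T, ((eB Γ {x} (D.Sc ψ c) : ℝ) - D.rho1 * (eB Γ {x} (D.O.OY c)ᶜ : ℝ)) :=
      Finset.sum_congr rfl fun x hx => by rw [h1 x hx]
    simp only [h2]
  · intro T hT
    set A := cX D.F D.n T with hA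
    have hk : 1 ≤ T.card := Finset.card_pos.2 hT
    have hdegX : ∀ x, (dgX Γ x : ℝ) ≤ D.n := by
      intro x
      have h1 := dgX_le D.H Γ hΓ x
      have h2 := (ctx_deg D hD).2.2.1
      have h3 : (dgX Γ x : ℝ) ≤ D.d := by exact_mod_cast h1
      exact h3.trans h2
    have hdegY : ∀ y, (eB Γ A {y} : ℝ) ≤ D.n := by
      intro y
      have h1 := dgY_le D.H Γ hΓ y
      have h0 : eB Γ A {y} ≤ dgY Γ y :=
        eB_mono Γ Γ (Finset.Subset.refl _) A univ (Finset.subset_univ _) {y} {y}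
          (Finset.Subset.refl _)
      have h2 := (ctx_deg D hD).2.1
      have h2' := (ctx_deg D hD).2.2.1
      have h3 : (eB Γ A {y} : ℝ) ≤ D.κ := by exact_mod_cast h0.trans h1
      linarith
    have hsum : ∑ y, (eB Γ A {y} : ℝ) ≤ D.n * A.card := by
      have h1 : (∑ y, (eB Γ A {y} : ℝ)) = ∑ x ∈ A, (dgX Γ x : ℝ) := by
        have h2 : (eB Γ A univ : ℕ) = ∑ y, eB Γ A {y} := eB_sumY Γ A univ
        have h3 : (eB Γ A univ : ℕ) = ∑ x ∈ A, dgX Γ x := eB_sumX Γ A univ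
        have h4 : ∑ y, eB Γ A {y} = ∑ x ∈ A, dgX Γ x := h2.symm.trans h3
        exact_mod_cast h4
      rw [h1]
      calc ∑ x ∈ A, (dgX Γ x : ℝ) ≤ ∑ x ∈ A, (D.n : ℝ) := Finset.sum_le_sum fun x _ => hdegX x
        _ = D.n * A.card := by rw [Finset.sum_const, nsmul_eq_mul, mul_comm]
    have hszA : (A.card : ℝ) ≤ szT D.F D.n T := by
      unfold szT
      have h1 : (0 : ℝ) ≤ (cY D.F D.n T).card := Nat.cast_nonneg _
      have h2 : (0 : ℝ) ≤ (Nτ D.n : ℝ) * T.card := by positivity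
      rw [← hA]
      linarith
    have hszT1 : (D.n : ℝ) ^ 40 * (T.card : ℝ) ≤ 2 * szT D.F D.n T := by
      unfold szT Nτ
      have h1 : (0 : ℝ) ≤ (cY D.F D.n T).card := Nat.cast_nonneg _
      have h2 : (0 : ℝ) ≤ (cX D.F D.n T).card := Nat.cast_nonneg _
      have h3 : (0 : ℝ) ≤ (D.n : ℝ) ^ 40 * (T.card : ℝ) := by positivity
      push_cast
      linarith
    have htail := m2_tail D hD c (fun y => (eB Γ A {y} : ℝ)) ?_ T.card hk (szT D.F D.n T) hszT1 ?_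
    · refine le_trans (P_mono fun φ hφ => ?_) (htail.trans ?_)
      · unfold Ctx.mac2 at hφ
        have h1 : ∑ x ∈ cX D.F D.n T,
            ((eB Γ {x} (D.Sc φ c) : ℝ) - D.rho1 * (eB Γ {x} (D.O.OY c)ᶜ : ℝ)) =
            ∑ y ∈ (D.O.OY c)ᶜ, (eB Γ A {y} : ℝ) *
              ((if y ∈ D.Sc φ c then (1 : ℝ) else 0) - D.rho1) := by
          rw [← hA, Finset.sum_sub_distrib, ← Finset.mul_sum]
          have h2 : ∀ S : Finset Y, (∑ x ∈ A, (eB Γ {x} S : ℝ)) = ∑ y ∈ S, (eB Γ A {y} : ℝ) := by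
            intro S
            have h3 := (eB_sumX Γ A S).symm.trans (eB_sumY Γ A S)
            exact_mod_cast h3
          rw [h2, h2]
          have h4 : (D.O.OY c)ᶜ.filter (fun y => y ∈ D.Sc φ c) = D.Sc φ c := by
            ext y
            simp only [mem_filter, mem_compl]
            refine ⟨fun h => h.2, fun h => ⟨((m2_memSc D φ c y).1 h).1, h⟩⟩
          rw [← h4, Finset.sum_filter, h4, Finset.mul_sum, ← Finset.sum_sub_distrib]
          refine Finset.sum_congr rfl fun y _ => ?_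
          split_ifs <;> ring
        rw [h1] at hφ
        refine lt_of_le_of_lt (le_of_eq ?_) hφ
        unfold lam
        ring
      · refine Real.exp_le_exp.2 ?_
        have : (0 : ℝ) ≤ D.n * T.card := by positivity
        nlinarith
    · intro y
      rw [abs_of_nonneg (Nat.cast_nonneg _)]
      calc (eB Γ A {y} : ℝ) ≤ D.n := hdegY y
        _ = (D.n : ℝ) ^ 1 := (pow_one _).symm
        _ ≤ (D.n : ℝ) ^ 8 := pow_le_pow_right₀ hn1 (by norm_num)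
    · have h1 : ∑ y, ((eB Γ A {y} : ℝ)) ^ 2 ≤ D.n * ∑ y, (eB Γ A {y} : ℝ) := by
        rw [Finset.mul_sum]
        refine Finset.sum_le_sum fun y _ => ?_
        rw [sq]
        exact mul_le_mul_of_nonneg_right (hdegY y) (Nat.cast_nonneg _)
      have h2 : (D.n : ℝ) * ∑ y, (eB Γ A {y} : ℝ) ≤ D.n * (D.n * szT D.F D.n T) := by
        refine mul_le_mul_of_nonneg_left (hsum.trans ?_) hnpos.le
        exact mul_le_mul_of_nonneg_left hszA hnpos.le
      have h3 : (D.n : ℝ) * (D.n * szT D.F D.n T) = (D.n : ℝ) ^ 2 * szT D.F D.n T := by ring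
      have h4 : (D.n : ℝ) ^ 2 * szT D.F D.n T ≤ (D.n : ℝ) ^ 16 * szT D.F D.n T :=
        mul_le_mul_of_nonneg_right (pow_le_pow_right₀ hn1 (by norm_num)) (hszT T)
      linarith

end Pool.SCDH
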