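import Pool.Agent.Lib.SCDH.MDefs
import Pool.Agent.Lib.SCDH.G01
import Pool.Agent.Lib.SCDH.G02
import Pool.Agent.Lib.SCDH.G03
import Pool.Agent.Lib.SCDH.G04
import Pool.Agent.Lib.SCDH.N01
import Pool.Agent.Lib.SCDH.N02
import Pool.Agent.Lib.SCDH.L01
import Pool.Agent.Lib.SCDH.L02
import Pool.Agent.Lib.SCDH.W01
import Pool.Agent.Lib.SCDH.W02

/-!
# Row M3 (paper scd_h36.md)
mac3: an old array g, |g| ≤ n, on certified sets.
Recipe: N = maj F (cX F n T) is deterministic, |N| ≤ n |cX| (maj_card, degrees ≤ n). macro_tail with terms g y (1[y ∈ Sc] - ρ₁), y ∈ N ∖ OY c.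
-/

set_option linter.unusedSectionVars false
set_option linter.unusedVariables false

namespace Pool.SCDH

open Finset Pool.MP_0ccee8_co.Lib2

variable {X Y : Type} [Fintype X] [DecidableEq X] [Fintype Y] [DecidableEq Y]
variable (D : Ctx X Y)

private theorem m3_mem_Sc (φ : D.Lbl) (c : Fin D.B) (y : Y) :
    y ∈ D.Sc φ c ↔ y ∉ D.O.OY c ∧
      (((φ (.inl (c, y))).1 : ℕ) < D.NX ∧ ((φ (.inl (c, y))).2.1 : ℕ) ≠ 0) := by
  simp only [Ctx.Sc, Ctx.Sin, Ctx.Zs, mem_sdiff, mem_filter, mem_univ, true_and]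
  tauto

private theorem m3_nb (Γ : Finset (X × Y)) (A : Finset X) (y : Y) (hy : y ∈ maj Γ A) :
    ∃ x ∈ A, (x, y) ∈ Γ := by
  rw [maj, mem_filter] at hy
  have h2 : 0 < eB Γ A {y} := by omega
  rw [eB, card_pos] at h2
  obtain ⟨e, he⟩ := h2
  rw [mem_filter, mem_singleton] at he
  refine ⟨e.1, he.2.1, ?_⟩
  rw [← he.2.2]
  exact he.1

open Classical in
/-- one term -/
private noncomputable def m3T (g : Y → ℝ) : D.Var → D.Lbl → ℝ := fun b φ =>
  match b with
  | .inl (c, y) => g y * ((if ((φ (.inl (c, y))).1 : ℕ) < D.NX ∧ ((φ (.inl (c, y))).2.1 : ℕ) ≠ 0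
      then 1 else 0) - D.rho1)
  | .inr _ => 0

private theorem m3_sum (g : Y → ℝ) (c : Fin D.B) (N : Finset Y) (φ : D.Lbl) :
    ∑ y ∈ N ∩ D.Sc φ c, g y - D.rho1 * ∑ y ∈ N \ D.O.OY c, g y =
      ∑ b ∈ (N \ D.O.OY c).map ⟨fun y => (Sum.inl (c, y) : D.Var), fun y y' h => by
        simpa using h⟩, m3T D g b φ := by
  classical
  rw [sum_map, mul_sum]
  have h1 : ∑ y ∈ N ∩ D.Sc φ c, g y = ∑ y ∈ N \ D.O.OY c,
      g y * (if ((φ (.inl (c, y))).1 : ℕ) < D.NX ∧ ((φ (.inl (c, y))).2.1 : ℕ) ≠ 0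
        then 1 else 0) := by
    have h2 : N ∩ D.Sc φ c = (N \ D.O.OY c).filter (fun y =>
        ((φ (.inl (c, y))).1 : ℕ) < D.NX ∧ ((φ (.inl (c, y))).2.1 : ℕ) ≠ 0) := by
      ext y
      rw [mem_inter, m3_mem_Sc, mem_filter, mem_sdiff]
      tauto
    rw [h2, sum_filter]
    refine sum_congr rfl fun y _ => ?_
    split_ifs <;> simp
  rw [h1, ← sum_sub_distrib]
  refine sum_congr rfl fun y _ => ?_
  show _ = g y * ((if ((φ (.inl (c, y))).1 : ℕ) < D.NX ∧ ((φ (.inl (c, y))).2.1 : ℕ) ≠ 0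
      then 1 else 0) - D.rho1)
  ring

set_option maxRecDepth 100000 in
theorem mac3_ok (hD : CtxOK D) (g : Y → ℝ) (hg : ∀ y, |g y| ≤ D.n) (c : Fin D.B) :
    MacOK D (fun T φ => D.mac3 φ T g c) := by
  have hF : D.F ⊆ D.H.G := hD.res.sub
  constructor
  · intro φ h
    have h1 : maj D.F (cX D.F D.n ∅) = ∅ := by
      rw [(cX_empty D.F D.n).1]
      rw [eq_empty_iff_forall_notMem]
      intro y hy
      obtain ⟨x, hx, -⟩ := m3_nb D.F ∅ y hy
      exact absurd hx (notMem_empty x)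
    have h2 : szT D.F D.n ∅ = 0 := by
      simp [szT, (cX_empty D.F D.n).1, (cX_empty D.F D.n).2]
    simp only [Ctx.mac3, h1, h2] at h
    simp at h
  · intro T φ ψ hφ
    have h1 : ∀ y ∈ maj D.F (cX D.F D.n T), φ (.inl (c, y)) = ψ (.inl (c, y)) := by
      intro y hy
      refine hφ _ ?_
      simp only [supT, mem_filter, mem_univ, true_and]
      -- `y` has a neighbour in `cX`
      have h0 := m3_nb D.F (cX D.F D.n T) y hy
      have h3 := (cX_ball D.H.G D.F hF D.n T).1 h0.choose h0.choose_spec.1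
      have h4 := (ball_edge D.H.G rW T (h0.choose, y) (hF h0.choose_spec.2)).1 h3
      exact ball_mono D.H.G (rW + 1) (rW + 5) (Nat.add_le_add_left (by norm_num) rW) T T subset_rfl h4
    have h2 : maj D.F (cX D.F D.n T) ∩ D.Sc φ c = maj D.F (cX D.F D.n T) ∩ D.Sc ψ c := by
      ext y
      rw [mem_inter, mem_inter, m3_mem_Sc, m3_mem_Sc]
      constructor
      · rintro ⟨h3, h4⟩
        rw [h1 y h3] at h4
        exact ⟨h3, h4⟩
      · rintro ⟨h3, h4⟩
        rw [← h1 y h3] at h4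
        exact ⟨h3, h4⟩
    simp only [Ctx.mac3, h2]
  · intro T hT
    obtain ⟨ht1, -, -, -⟩ := ctx_t D hD
    obtain ⟨hn1, -⟩ := ctx_n D hD
    obtain ⟨-, -, -, hr1, hr2, -⟩ := ctx_rho D hD
    obtain ⟨-, hr0, -, -, -, -⟩ := ctx_rho D hD
    have hn3 : (3 : ℝ) ≤ D.n := by
      refine le_trans ?_ hn1
      have h1 : (3 : ℝ) ≤ D.t := le_trans (by norm_num) ht1
      refine h1.trans ?_
      have h2 : (1 : ℝ) ≤ D.t := le_trans (by norm_num) h1
      exact le_self_pow₀ h2 (by norm_num)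
    have hn3' : 3 ≤ D.n := by exact_mod_cast hn3
    have hk : 1 ≤ T.card := card_pos.2 hT
    set N := maj D.F (cX D.F D.n T) with hN
    set I : Finset D.Var := (N \ D.O.OY c).map ⟨fun y => (Sum.inl (c, y) : D.Var), fun y y' h => by
        simpa using h⟩ with hI
    set sz : ℝ := szT D.F D.n T with hsz
    have hbI : ∀ b ∈ I, ∃ y, b = Sum.inl (c, y) := by
      intro b hb
      obtain ⟨y, -, rfl⟩ := mem_map.1 hb
      exact ⟨y, rfl⟩
    have hrho : 0 < D.rho1 ∧ D.rho1 ≤ 1 := ⟨hr2, hr0.trans hr1⟩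
    have hT1 : ∀ b φ, |m3T D g b φ| ≤ D.n := by
      intro b φ
      rcases b with ⟨c', y⟩ | e
      · simp only [m3T, abs_mul]
        have h1 : |(if ((φ (.inl (c', y))).1 : ℕ) < D.NX ∧ ((φ (.inl (c', y))).2.1 : ℕ) ≠ 0
            then (1 : ℝ) else 0) - D.rho1| ≤ 1 := by
          rw [abs_le]
          split_ifs <;> constructor <;> linarith [hrho.1, hrho.2]
        calc |g y| * _ ≤ D.n * 1 := mul_le_mul (hg y) h1 (abs_nonneg _) (by positivity)
          _ = D.n := mul_one _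
      · simp only [m3T, abs_zero]
        positivity
    have hszge : (D.n : ℝ) ^ 40 * T.card ≤ sz := by
      rw [hsz, szT]
      have h1 : ((Nτ D.n : ℕ) : ℝ) = (D.n : ℝ) ^ 40 := by simp [Nτ]
      rw [h1]
      have h2 : (0 : ℝ) ≤ ((cX D.F D.n T).card : ℝ) := by positivity
      have h3 : (0 : ℝ) ≤ ((cY D.F D.n T).card : ℝ) := by positivity
      linarith
    have hsz0 : 0 ≤ sz := le_trans (by positivity) hszge
    have hcX : ((cX D.F D.n T).card : ℝ) ≤ sz := by
      rw [hsz, szT]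
      have h3 : (0 : ℝ) ≤ ((cY D.F D.n T).card : ℝ) := by positivity
      have h4 : (0 : ℝ) ≤ (Nτ D.n : ℝ) * T.card := by positivity
      linarith
    have hIcard : (I.card : ℝ) ≤ D.n * sz := by
      have h1 : I.card ≤ N.card := by
        rw [hI, card_map]
        exact card_le_card sdiff_subset
      have h2 : N.card ≤ ∑ x ∈ cX D.F D.n T, dgX D.F x := maj_card _ _
      have h3 : ∑ x ∈ cX D.F D.n T, dgX D.F x ≤ ∑ x ∈ cX D.F D.n T, D.d :=
        sum_le_sum fun x _ => dgX_le D.H D.F hF x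
      rw [sum_const, smul_eq_mul] at h3
      have h4 : I.card ≤ (cX D.F D.n T).card * D.n :=
        (h1.trans (h2.trans h3)).trans (Nat.mul_le_mul_left _ D.H.hd2)
      calc (I.card : ℝ) ≤ ((cX D.F D.n T).card : ℝ) * D.n := by exact_mod_cast h4
        _ = D.n * ((cX D.F D.n T).card : ℝ) := by ring
        _ ≤ D.n * sz := mul_le_mul_of_nonneg_left hcX (by positivity)
    have hmain := macro_tail (V := D.Var) (K := D.Lab) D.n T.card hn3' hk I (m3T D g)
      (by
        intro b hb ψ φ φ' hφ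
        obtain ⟨y, rfl⟩ := hbI b hb
        have h1 := hφ (.inl (c, y)) (mem_singleton_self _)
        simp only [m3T, mix_in hb, h1])
      (by
        intro b _ ψ
        refine (hT1 b ψ).trans ?_
        exact le_self_pow₀ (by linarith) (by norm_num))
      (by
        intro b hb ψ
        obtain ⟨y, rfl⟩ := hbI b hb
        simp only [m3T, mix_in hb]
        rw [E_mul_left, E_sub, E_const]
        have h1 := P_inz D hD (.inl (c, y))
        have h2 : E (fun φ : D.Lbl => if ((φ (.inl (c, y))).1 : ℕ) < D.NX ∧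
            ((φ (.inl (c, y))).2.1 : ℕ) ≠ 0 then (1 : ℝ) else 0) = D.rho1 := by
          rw [← h1]
          unfold P
          refine E_congr fun φ => ?_
          split_ifs <;> rfl
        rw [h2]
        ring)
      (fun _ => sz) (fun _ _ => rfl)
      (by
        intro _
        linarith)
      (by
        intro ψ
        have h1 : ∀ b ∈ I, E (fun φ => (m3T D g b (mix I φ ψ)) ^ 2) ≤ (D.n : ℝ) ^ 2 := by
          intro b _
          rw [← E_const (V := D.Var) (κ := D.Lab) ((D.n : ℝ) ^ 2)]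
          refine E_mono fun φ => ?_
          rw [← sq_abs]
          exact pow_le_pow_left₀ (abs_nonneg _) (hT1 b _) 2
        calc ∑ b ∈ I, E (fun φ => (m3T D g b (mix I φ ψ)) ^ 2) ≤ ∑ b ∈ I, (D.n : ℝ) ^ 2 :=
              sum_le_sum h1
          _ = I.card * (D.n : ℝ) ^ 2 := by rw [sum_const, nsmul_eq_mul]
          _ ≤ (D.n * sz) * (D.n : ℝ) ^ 2 := mul_le_mul_of_nonneg_right hIcard (by positivity)
          _ = (D.n : ℝ) ^ 3 * sz := by ring
          _ ≤ (D.n : ℝ) ^ 16 * sz :=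
              mul_le_mul_of_nonneg_right (pow_le_pow_right₀ (by linarith) (by norm_num)) hsz0)
    refine le_trans (P_mono (B := fun φ : D.Lbl => sz / (D.n : ℝ) ^ 6 < |∑ b ∈ I, m3T D g b φ|) ?_)
      (hmain.trans ?_)
    · intro φ h
      have h1 : D.mac3 φ T g c := h
      simp only [Ctx.mac3] at h1
      rw [m3_sum] at h1
      have h2 : lam D.n * szT D.F D.n T = sz / (D.n : ℝ) ^ 6 := by
        rw [lam, hsz]
        ring
      rw [h2] at h1
      exact h1
    · refine Real.exp_le_exp.2 ?_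
      have h1 : (0 : ℝ) ≤ (D.n : ℝ) * T.card := by positivity
      linarith

end Pool.SCDH
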