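import Pool.Agent.Lib.SCDH.MDefs
import Pool.Agent.Lib.SCDH.G01
import Pool.Agent.Lib.SCDH.G02
import Pool.Agent.Lib.SCDH.G03
import Pool.Agent.Lib.SCDH.G04
import Pool.Agent.Lib.SCDH.N01
import Pool.Agent.Lib.SCDH.N02
import Pool.Agent.Lib.SCDH.L01
import Pool.Agent.Lib.SCDH.L02
import Pool.Agent.Lib.SCDH.W01
import Pool.Agent.Lib.SCDH.W02

/-!
# Row M4X (paper scd_h36.md)
mac4X: owner fluctuation, certificates by FS c (old), edge labels fresh.
Recipe: I = all edge variables inr e; FS c, Sc, slot depend only on the vertex variables. The sum over x ∈ cX ∖ OX c of dgX (Pc) x - θ #{...} equals ∑ over e = (x,y) ∈ Hb, x ∈ cX (FS) n T ∖ OX c, y ∈ Sc, slot c y < s+1 of (1[own e = slot] - θ) (for slot ≥ s+1 no edge is owned). macro_tail: |T b| ≤ 1, number of edges ≤ n |cX| ≤ n sz.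
-/

set_option linter.unusedSectionVars false
set_option linter.unusedVariables false

namespace Pool.SCDH

open Finset Pool.MP_0ccee8_co.Lib2

variable {X Y : Type} [Fintype X] [DecidableEq X] [Fintype Y] [DecidableEq Y]
variable (D : Ctx X Y)

attribute [local irreducible] ball rW

/-! vertex-measurable objects -/

private theorem mem_Sin_congr (c : Fin D.B) (y : Y) (φ ψ : D.Lbl)
    (h : φ (.inl (c, y)) = ψ (.inl (c, y))) : y ∈ D.Sin φ c ↔ y ∈ D.Sin ψ c := by
  simp only [Ctx.Sin, mem_filter, mem_univ, true_and, h]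

private theorem mem_Zs_congr (c : Fin D.B) (y : Y) (φ ψ : D.Lbl)
    (h : φ (.inl (c, y)) = ψ (.inl (c, y))) : y ∈ D.Zs φ c ↔ y ∈ D.Zs ψ c := by
  simp only [Ctx.Zs, mem_filter, mem_univ, true_and, h]

private theorem mem_Sc_congr (c : Fin D.B) (y : Y) (φ ψ : D.Lbl)
    (h : φ (.inl (c, y)) = ψ (.inl (c, y))) : y ∈ D.Sc φ c ↔ y ∈ D.Sc ψ c := by
  simp only [Ctx.Sc, mem_sdiff, mem_Sin_congr D c y φ ψ h, mem_Zs_congr D c y φ ψ h]

private theorem slot_congr (c : Fin D.B) (y : Y) (φ ψ : D.Lbl)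
    (h : ∀ c', φ (.inl (c', y)) = ψ (.inl (c', y))) : D.slot φ c y = D.slot ψ c y := by
  unfold Ctx.slot
  congr 1
  ext c'
  simp only [mem_filter, mem_univ, true_and, mem_Sin_congr D c' y φ ψ (h c'),
    mem_Zs_congr D c' y φ ψ (h c')]

private theorem own_lt (φ : D.Lbl) (e : X × Y) : D.own φ e < D.s + 1 := (φ (.inr e)).2.2.2.isLt

private theorem FS_sub (hD : CtxOK D) (φ : D.Lbl) (c : Fin D.B) : D.FS φ c ⊆ D.H.G :=
  (filter_subset _ _).trans hD.res.sub

/-- the certified sets of `FS` depend on the labels near `T` -/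
private theorem cXY_congr (hD : CtxOK D) (c : Fin D.B) (T : Finset (X ⊕ Y)) (φ ψ : D.Lbl)
    (h : ∀ w ∈ supT D.B D.H.G T, φ w = ψ w) :
    cX (D.FS φ c) D.n T = cX (D.FS ψ c) D.n T ∧ cY (D.FS φ c) D.n T = cY (D.FS ψ c) D.n T := by
  refine cX_local D.H.G _ _ (FS_sub D hD φ c) (FS_sub D hD ψ c) D.n T (fun e he => ?_)
  by_cases heF : e ∈ D.F
  · have heG : e ∈ D.H.G := hD.res.sub heF
    have hy : Sum.inr e.2 ∈ ball D.H.G (rW + 5) T := by
      rcases he with he | he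
      · exact ball_mono D.H.G (rW + 1) (rW + 5) (by omega) T T (Subset.refl T)
          ((ball_edge D.H.G rW T e heG).1 he)
      · exact ball_mono D.H.G rW (rW + 5) (by omega) T T (Subset.refl T) he
    have hl : φ (.inl (c, e.2)) = ψ (.inl (c, e.2)) := by
      refine h _ ?_
      simp only [supT, mem_filter, mem_univ, true_and]
      exact hy
    simp only [Ctx.FS, rs, mem_filter, mem_Sc_congr D c e.2 φ ψ hl]
  · simp only [Ctx.FS, rs, mem_filter, heF, false_and]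

private theorem lab_near (T : Finset (X ⊕ Y)) (φ ψ : D.Lbl)
    (h : ∀ w ∈ supT D.B D.H.G T, φ w = ψ w) (y : Y) (hy : Sum.inr y ∈ ball D.H.G (rW + 5) T)
    (c' : Fin D.B) : φ (.inl (c', y)) = ψ (.inl (c', y)) := by
  refine h _ ?_
  simp only [supT, mem_filter, mem_univ, true_and]
  exact hy

private theorem own_near (T : Finset (X ⊕ Y)) (φ ψ : D.Lbl)
    (h : ∀ w ∈ supT D.B D.H.G T, φ w = ψ w) (e : X × Y) (heG : e ∈ D.H.G)
    (hx : Sum.inl e.1 ∈ ball D.H.G (rW + 5) T) : D.own φ e = D.own ψ e := by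
  have : φ (.inr e) = ψ (.inr e) := by
    refine h _ ?_
    obtain ⟨x, y⟩ := e
    simp only [supT, mem_filter, mem_univ, true_and]
    exact ⟨hx, heG⟩
  simp only [Ctx.own, this]

/-! the tail bound -/

private theorem own_tail (hD : CtxOK D) (c : Fin D.B) (T : Finset (X ⊕ Y)) (hT : T.Nonempty)
    (W : D.Lbl → Finset (X × Y))
    (hW : ∀ φ ψ : D.Lbl, (∀ u, φ (.inl u) = ψ (.inl u)) → W φ = W ψ)
    (hWs : ∀ φ, ∀ e ∈ W φ, D.slot φ c e.2 < D.s + 1)
    (hWc : ∀ φ, ((W φ).card : ℝ) ≤ D.n * szT (D.FS φ c) D.n T) :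
    P (fun φ : D.Lbl => lam D.n * szT (D.FS φ c) D.n T <
      |∑ e ∈ W φ, ((if D.own φ e = D.slot φ c e.2 then (1 : ℝ) else 0) - D.theta)|)
      ≤ Real.exp (-(5 * D.n * T.card)) := by
  obtain ⟨hθ1, hθ2, hθ0, hθle, -, -, -⟩ := ctx_theta D hD
  have hn3 : 3 ≤ D.n := by
    have h1 := (ctx_n D hD).1
    have h2 := (ctx_t D hD).1
    have h3 : (10 : ℝ) ^ 100 ≤ (D.t : ℝ) ^ 200 := by
      refine h2.trans ?_
      have h4 : (1 : ℝ) ≤ D.t := le_trans (by norm_num) h2
      calc (D.t : ℝ) = (D.t : ℝ) ^ 1 := (pow_one _).symm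
        _ ≤ (D.t : ℝ) ^ 200 := pow_le_pow_right₀ h4 (by norm_num)
    have h5 : (3 : ℝ) ≤ D.n := le_trans (by norm_num) (h3.trans h1)
    exact_mod_cast h5
  have hn1 : (1 : ℝ) ≤ D.n := by
    have : 1 ≤ D.n := by omega
    exact_mod_cast this
  have hk : 1 ≤ T.card := hT.card_pos
  -- the vertex part of mixed labels
  have hmixl : ∀ (φ ψ : D.Lbl) (u : Fin D.B × Y),
      mix (univ.map ⟨Sum.inr, Sum.inr_injective⟩) φ ψ (Sum.inl u) = ψ (Sum.inl u) := by
    intro φ ψ u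
    refine mix_out ?_
    simp
  have hmixr : ∀ (φ ψ : D.Lbl) (e : X × Y),
      mix (univ.map ⟨Sum.inr, Sum.inr_injective⟩) φ ψ (Sum.inr e) = φ (Sum.inr e) := by
    intro φ ψ e
    refine mix_in ?_
    simp
  set I : Finset D.Var := univ.map ⟨Sum.inr, Sum.inr_injective⟩ with hI
  have hslot : ∀ (φ ψ : D.Lbl) (y : Y), D.slot (mix I φ ψ) c y = D.slot ψ c y := by
    intro φ ψ y
    exact slot_congr D c y _ _ (fun c' => hmixl φ ψ _)
  have hWm : ∀ φ ψ : D.Lbl, W (mix I φ ψ) = W ψ := fun φ ψ => hW _ _ (fun u => hmixl φ ψ u)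
  have hFSm : ∀ φ ψ : D.Lbl, D.FS (mix I φ ψ) c = D.FS ψ c := by
    intro φ ψ
    ext e
    simp only [Ctx.FS, rs, mem_filter, mem_Sc_congr D c e.2 _ _ (hmixl φ ψ (c, e.2))]
  have hown : ∀ (φ ψ : D.Lbl) (e : X × Y), D.own (mix I φ ψ) e = D.own φ e := by
    intro φ ψ e
    simp only [Ctx.own, hmixr φ ψ e]
  -- the terms
  set Tm : D.Var → D.Lbl → ℝ := fun w φ => match w with
    | .inl _ => 0
    | .inr e => if e ∈ W φ then (if D.own φ e = D.slot φ c e.2 then (1 : ℝ) else 0) - D.theta else 0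
    with hTm
  have hTmr : ∀ (e : X × Y) (φ : D.Lbl), Tm (.inr e) φ =
      if e ∈ W φ then (if D.own φ e = D.slot φ c e.2 then (1 : ℝ) else 0) - D.theta else 0 :=
    fun e φ => rfl
  have hTmix : ∀ (e : X × Y) (φ ψ : D.Lbl), Tm (.inr e) (mix I φ ψ) =
      if e ∈ W ψ then (if D.own φ e = D.slot ψ c e.2 then (1 : ℝ) else 0) - D.theta else 0 := by
    intro e φ ψ
    rw [hTmr, hWm, hown, hslot]
  have hIr : ∀ b ∈ I, ∃ e : X × Y, b = Sum.inr e := by
    intro b hb
    rw [hI, mem_map] at hb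
    obtain ⟨e, -, rfl⟩ := hb
    exact ⟨e, rfl⟩
  have habs : ∀ (e : X × Y) (φ : D.Lbl), |Tm (.inr e) φ| ≤ 1 := by
    intro e φ
    rw [hTmr]
    split_ifs
    · rw [abs_le]; constructor <;> linarith
    · rw [abs_le]; constructor <;> linarith
    · simp
  have hsum : ∀ φ : D.Lbl, ∑ b ∈ I, Tm b φ =
      ∑ e ∈ W φ, ((if D.own φ e = D.slot φ c e.2 then (1 : ℝ) else 0) - D.theta) := by
    intro φ
    rw [hI, sum_map]
    simp only [Function.Embedding.coeFn_mk, hTmr]
    rw [← sum_filter]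
    congr 1
    ext e
    simp
  have hsz0 : ∀ φ : D.Lbl, ((D.n : ℝ) ^ 40) * T.card ≤ szT (D.FS φ c) D.n T := by
    intro φ
    unfold szT Nτ
    push_cast
    have h1 : (0 : ℝ) ≤ ((cX (D.FS φ c) D.n T).card : ℝ) := Nat.cast_nonneg _
    have h2 : (0 : ℝ) ≤ ((cY (D.FS φ c) D.n T).card : ℝ) := Nat.cast_nonneg _
    linarith
  have hszp : ∀ φ : D.Lbl, 0 ≤ szT (D.FS φ c) D.n T := fun φ =>
    le_trans (by positivity) (hsz0 φ)
  have hmean : ∀ b ∈ I, ∀ ψ : D.Lbl, E (fun φ => Tm b (mix I φ ψ)) = 0 := by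
    intro b hb ψ
    obtain ⟨e, rfl⟩ := hIr b hb
    simp only [hTmix]
    by_cases he : e ∈ W ψ
    · simp only [he, if_true]
      rw [E_sub, E_const]
      have h1 := P_own D (.inr e) (D.slot ψ c e.2) (hWs ψ e he)
      have h2 : E (fun φ : D.Lbl => if D.own φ e = D.slot ψ c e.2 then (1 : ℝ) else 0) =
          1 * P (fun φ : D.Lbl => ((φ (.inr e)).2.2.2 : ℕ) = D.slot ψ c e.2) := by
        rw [← E_P]
        rfl
      rw [h2, h1]
      ring
    · simp only [he, if_false]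
      exact E_const 0
  have hmain := macro_tail D.n T.card hn3 hk I Tm
    (by
      intro b hb ψ φ φ' hφ
      obtain ⟨e, rfl⟩ := hIr b hb
      simp only [hTmix]
      have h1 : φ (.inr e) = φ' (.inr e) := hφ _ (mem_singleton_self _)
      have h2 : D.own φ e = D.own φ' e := by simp only [Ctx.own, h1]
      rw [h2])
    (by
      intro b hb ψ
      obtain ⟨e, rfl⟩ := hIr b hb
      exact (habs e ψ).trans (one_le_pow₀ hn1))
    hmean
    (fun φ => szT (D.FS φ c) D.n T)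
    (by
      intro φ ψ
      simp only [hFSm])
    (by
      intro ψ
      have h1 := hsz0 ψ
      have h2 := hszp ψ
      linarith)
    (by
      intro ψ
      have h1 : ∑ b ∈ I, E (fun φ => (Tm b (mix I φ ψ)) ^ 2) ≤ ((W ψ).card : ℝ) := by
        rw [hI, sum_map, ← hI]
        simp only [Function.Embedding.coeFn_mk, hTmix]
        have h3 : ((W ψ).card : ℝ) = ∑ e : X × Y, if e ∈ W ψ then (1 : ℝ) else 0 := by
          rw [← sum_filter]
          simp
        rw [h3]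
        refine sum_le_sum (fun e _ => ?_)
        by_cases he : e ∈ W ψ
        · simp only [he, if_true]
          have h5 : E (fun φ : D.Lbl => ((if D.own φ e = D.slot ψ c e.2 then (1 : ℝ) else 0)
              - D.theta) ^ 2) ≤ E (fun _ : D.Lbl => (1 : ℝ)) := by
            refine E_mono (fun φ => ?_)
            rw [sq_le_one_iff_abs_le_one]
            split_ifs <;> rw [abs_le] <;> constructor <;> linarith
          exact h5.trans (E_const (1 : ℝ)).le
        · simp only [he, if_false]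
          have : E (fun φ : D.Lbl => ((0 : ℝ)) ^ 2) = 0 := by
            rw [E_const]; norm_num
          exact this.le
      refine h1.trans ((hWc ψ).trans ?_)
      refine mul_le_mul_of_nonneg_right ?_ (hszp ψ)
      calc (D.n : ℝ) = (D.n : ℝ) ^ 1 := (pow_one _).symm
        _ ≤ (D.n : ℝ) ^ 16 := pow_le_pow_right₀ hn1 (by norm_num))
  refine (P_mono (fun φ hφ => ?_)).trans (hmain.trans ?_)
  · rw [hsum]
    have : lam D.n * szT (D.FS φ c) D.n T = szT (D.FS φ c) D.n T / (D.n : ℝ) ^ 6 := by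
      unfold lam
      ring
    rw [← this]
    exact hφ
  · apply Real.exp_le_exp.2
    have h1 : (0 : ℝ) ≤ (D.n : ℝ) * T.card := by positivity
    nlinarith

/-- the sum over vertices is a sum over edges -/
private theorem sum_eq (c : Fin D.B) (φ : D.Lbl) (A : Finset X) :
    ∑ x ∈ A \ D.O.OX c, ((dgX (D.Pc φ c) x : ℝ) -
      D.theta * ((univ.filter (fun y => y ∈ D.Sc φ c ∧ (x, y) ∈ D.Hb ∧
        D.slot φ c y < D.s + 1)).card : ℝ)) =
    ∑ e ∈ D.Hb.filter (fun e => e.1 ∈ A \ D.O.OX c ∧ e.2 ∈ D.Sc φ c ∧ D.slot φ c e.2 < D.s + 1),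
      ((if D.own φ e = D.slot φ c e.2 then (1 : ℝ) else 0) - D.theta) := by
  have h1 : ∀ x ∈ A \ D.O.OX c, ((dgX (D.Pc φ c) x : ℝ) -
      D.theta * ((univ.filter (fun y => y ∈ D.Sc φ c ∧ (x, y) ∈ D.Hb ∧
        D.slot φ c y < D.s + 1)).card : ℝ)) =
      ∑ y : Y, if (y ∈ D.Sc φ c ∧ (x, y) ∈ D.Hb ∧ D.slot φ c y < D.s + 1) then
        ((if D.own φ (x, y) = D.slot φ c y then (1 : ℝ) else 0) - D.theta) else 0 := by
    intro x hx
    have hx' : x ∉ D.O.OX c := (mem_sdiff.1 hx).2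
    rw [← sum_filter, sum_sub_distrib, sum_const, nsmul_eq_mul, mul_comm D.theta]
    congr 1
    rw [← sum_filter, filter_filter, sum_const, nsmul_eq_mul, mul_one]
    congr 1
    unfold dgX eB
    refine card_bij (fun e _ => e.2) ?_ ?_ ?_
    · rintro ⟨x', y⟩ he
      simp only [Ctx.Pc, Ctx.Pv, mem_filter, mem_univ, true_and, mem_singleton, and_true] at he ⊢
      obtain ⟨⟨hb, -, hs, ho⟩, rfl⟩ := he
      refine ⟨⟨hs, hb, ?_⟩, ho⟩
      rw [← ho]
      exact own_lt D φ _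
    · rintro ⟨x1, y1⟩ h1 ⟨x2, y2⟩ h2 h
      simp only [mem_filter, mem_singleton] at h1 h2 h
      obtain ⟨-, rfl, -⟩ := h1
      obtain ⟨-, rfl, -⟩ := h2
      rw [h]
    · intro y hy
      simp only [mem_filter, mem_univ, true_and] at hy
      refine ⟨(x, y), ?_, rfl⟩
      simp only [Ctx.Pc, Ctx.Pv, mem_filter, mem_univ, true_and, mem_singleton, and_true]
      exact ⟨hy.1.2.1, hx', hy.1.1, hy.2⟩
  rw [sum_congr rfl h1, ← sum_product', ← sum_filter]
  refine sum_congr ?_ (fun _ _ => rfl)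
  ext ⟨x, y⟩
  simp only [mem_filter, mem_product, mem_univ, and_true]
  tauto

theorem mac4X_ok (hD : CtxOK D) (c : Fin D.B) : MacOK D (fun T φ => D.mac4X φ T c) := by
  refine ⟨?_, ?_, ?_⟩
  · intro φ h
    simp only [Ctx.mac4X] at h
    rw [(cX_empty (D.FS φ c) D.n).1] at h
    simp only [empty_sdiff, sum_empty, abs_zero] at h
    have h1 : 0 ≤ lam D.n * szT (D.FS φ c) D.n (∅ : Finset (X ⊕ Y)) := by
      unfold lam szT
      positivity
    linarith
  · intro T φ ψ h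
    obtain ⟨hcX, hcY⟩ := cXY_congr D hD c T φ ψ h
    have hball : ∀ x ∈ cX (D.FS ψ c) D.n T, Sum.inl x ∈ ball D.H.G rW T :=
      (cX_ball D.H.G (D.FS ψ c) (FS_sub D hD ψ c) D.n T).1
    simp only [Ctx.mac4X]
    rw [sum_eq, sum_eq]
    unfold szT
    rw [hcX, hcY]
    have hset : D.Hb.filter (fun e => e.1 ∈ cX (D.FS ψ c) D.n T \ D.O.OX c ∧ e.2 ∈ D.Sc φ c ∧
        D.slot φ c e.2 < D.s + 1) = D.Hb.filter (fun e => e.1 ∈ cX (D.FS ψ c) D.n T \ D.O.OX c ∧
        e.2 ∈ D.Sc ψ c ∧ D.slot ψ c e.2 < D.s + 1) := by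
      refine filter_congr (fun e he => ?_)
      by_cases hx : e.1 ∈ cX (D.FS ψ c) D.n T \ D.O.OX c
      · have hb := (ball_edge D.H.G rW T e (hD.bulk.sub he)).1 (hball _ (mem_sdiff.1 hx).1)
        have hb' := ball_mono D.H.G (rW + 1) (rW + 5) (by omega) T T (Subset.refl T) hb
        have hl := lab_near D T φ ψ h e.2 hb'
        rw [mem_Sc_congr D c e.2 φ ψ (hl c), slot_congr D c e.2 φ ψ hl]
      · simp only [hx, false_and]
    rw [hset]
    have hsum : ∑ e ∈ D.Hb.filter (fun e => e.1 ∈ cX (D.FS ψ c) D.n T \ D.O.OX c ∧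
        e.2 ∈ D.Sc ψ c ∧ D.slot ψ c e.2 < D.s + 1),
        ((if D.own φ e = D.slot φ c e.2 then (1 : ℝ) else 0) - D.theta) =
        ∑ e ∈ D.Hb.filter (fun e => e.1 ∈ cX (D.FS ψ c) D.n T \ D.O.OX c ∧
        e.2 ∈ D.Sc ψ c ∧ D.slot ψ c e.2 < D.s + 1),
        ((if D.own ψ e = D.slot ψ c e.2 then (1 : ℝ) else 0) - D.theta) := by
      refine sum_congr rfl (fun e he => ?_)
      rw [mem_filter] at he
      obtain ⟨heH, hx, -⟩ := he
      have heG := hD.bulk.sub heH
      have hbx := hball _ (mem_sdiff.1 hx).1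
      have hb := (ball_edge D.H.G rW T e heG).1 hbx
      have hb' := ball_mono D.H.G (rW + 1) (rW + 5) (by omega) T T (Subset.refl T) hb
      have hl := lab_near D T φ ψ h e.2 hb'
      rw [slot_congr D c e.2 φ ψ hl, own_near D T φ ψ h e heG
        (ball_mono D.H.G rW (rW + 5) (by omega) T T (Subset.refl T) hbx)]
    rw [hsum]
  · intro T hT
    have hmain := own_tail D hD c T hT
      (fun φ => D.Hb.filter (fun e => e.1 ∈ cX (D.FS φ c) D.n T \ D.O.OX c ∧ e.2 ∈ D.Sc φ c ∧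
        D.slot φ c e.2 < D.s + 1))
      (by
        intro φ ψ h
        have hFS : D.FS φ c = D.FS ψ c := by
          ext e
          simp only [Ctx.FS, rs, mem_filter, mem_Sc_congr D c e.2 _ _ (h (c, e.2))]
        simp only [hFS]
        refine filter_congr (fun e he => ?_)
        rw [mem_Sc_congr D c e.2 φ ψ (h _), slot_congr D c e.2 φ ψ (fun c' => h _)])
      (by
        intro φ e he
        rw [mem_filter] at he
        exact he.2.2.2)
      (by
        intro φ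
        have h1 : (D.Hb.filter (fun e => e.1 ∈ cX (D.FS φ c) D.n T \ D.O.OX c ∧ e.2 ∈ D.Sc φ c ∧
            D.slot φ c e.2 < D.s + 1)).card ≤ ∑ x ∈ cX (D.FS φ c) D.n T, dgX D.Hb x := by
          have h2 : ∑ x ∈ cX (D.FS φ c) D.n T, dgX D.Hb x = eB D.Hb (cX (D.FS φ c) D.n T) univ := by
            rw [eB_sumX]
            rfl
          rw [h2]
          refine card_le_card (fun e he => ?_)
          rw [mem_filter] at he ⊢
          exact ⟨he.1, (mem_sdiff.1 he.2.1).1, mem_univ _⟩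
        have h3 : ∑ x ∈ cX (D.FS φ c) D.n T, dgX D.Hb x ≤ D.n * (cX (D.FS φ c) D.n T).card := by
          calc ∑ x ∈ cX (D.FS φ c) D.n T, dgX D.Hb x ≤ ∑ x ∈ cX (D.FS φ c) D.n T, D.n :=
                sum_le_sum (fun x _ => (dgX_le D.H D.Hb hD.bulk.sub x).trans D.H.hd2)
            _ = D.n * (cX (D.FS φ c) D.n T).card := by
                rw [sum_const, smul_eq_mul, mul_comm]
        have h4 : (((D.Hb.filter (fun e => e.1 ∈ cX (D.FS φ c) D.n T \ D.O.OX c ∧ e.2 ∈ D.Sc φ c ∧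
            D.slot φ c e.2 < D.s + 1)).card : ℕ) : ℝ) ≤ ((D.n * (cX (D.FS φ c) D.n T).card : ℕ) : ℝ) := by
          exact_mod_cast h1.trans h3
        refine h4.trans ?_
        push_cast
        refine mul_le_mul_of_nonneg_left ?_ (Nat.cast_nonneg _)
        unfold szT
        have h5 : (0 : ℝ) ≤ ((cY (D.FS φ c) D.n T).card : ℝ) := Nat.cast_nonneg _
        have h6 : (0 : ℝ) ≤ (Nτ D.n : ℝ) * T.card := by positivity
        linarith)
    refine le_trans (P_mono (fun φ hφ => ?_)) hmain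
    simp only [Ctx.mac4X] at hφ
    rw [sum_eq] at hφ
    exact hφ

end Pool.SCDH
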