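import Pool.Agent.Lib.SCDH.MDefs
import Pool.Agent.Lib.SCDH.G01
import Pool.Agent.Lib.SCDH.G02
import Pool.Agent.Lib.SCDH.G03
import Pool.Agent.Lib.SCDH.G04
import Pool.Agent.Lib.SCDH.N01
import Pool.Agent.Lib.SCDH.N02
import Pool.Agent.Lib.SCDH.L01
import Pool.Agent.Lib.SCDH.L02
import Pool.Agent.Lib.SCDH.W01
import Pool.Agent.Lib.SCDH.W02

/-!
# Row M5X (paper scd_h36.md)
mac5X: free vertices near sets certified by F (deterministic).
Recipe: ∑_{x ∈ A} eB G {x} Zs = ∑_y 1[y ∈ Zs] eB G A {y}: macro_rare with weights eB G A {y} ≤ n, total ≤ n |A| ≤ n^8 sz, probability 1/(z+1) = 1/n^20.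
-/

set_option linter.unusedSectionVars false
set_option linter.unusedVariables false

namespace Pool.SCDH

open Finset Pool.MP_0ccee8_co.Lib2

variable {X Y : Type} [Fintype X] [DecidableEq X] [Fintype Y] [DecidableEq Y]
variable (D : Ctx X Y)

attribute [local irreducible] rW ball

omit [Fintype X] [DecidableEq X] [Fintype Y] [DecidableEq Y] in
private lemma Zs_iff5 {X Y : Type} [Fintype X] [DecidableEq X] [Fintype Y] [DecidableEq Y]
    (D : Ctx X Y) (φ : D.Lbl) (c : Fin D.B) (y : Y) :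
    y ∈ D.Zs φ c ↔ y ∉ D.O.OY c ∧ ((φ (.inl (c, y))).2.1 : ℕ) = 0 := by
  simp [Ctx.Zs]

private lemma sum_eq5 (φ : D.Lbl) (c : Fin D.B) (A : Finset X) :
    ∑ x ∈ A, (eB D.H.G {x} (D.Zs φ c) : ℝ) =
      ∑ b ∈ (univ.filter (fun y => y ∉ D.O.OY c)).image (fun y => (Sum.inl (c, y) : D.Var)),
        if ((φ b).2.1 : ℕ) = 0 then
          (Sum.elim (fun p : Fin D.B × Y => (eB D.H.G A {p.2} : ℝ)) (fun _ => 0) b) else 0 := by
  classical
  have h1 : ∑ x ∈ A, (eB D.H.G {x} (D.Zs φ c) : ℝ) =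
      ∑ y ∈ D.Zs φ c, (eB D.H.G A {y} : ℝ) := by
    have h2 := eB_sumX D.H.G A (D.Zs φ c)
    have h3 := eB_sumY D.H.G A (D.Zs φ c)
    rw [h2] at h3
    exact_mod_cast h3
  rw [h1, Finset.sum_image]
  · rw [← Finset.sum_filter]
    refine Finset.sum_congr ?_ (fun y _ => rfl)
    ext y
    simp [Ctx.Zs]
  · intro y _ y' _ h
    simpa using h

theorem mac5X_ok (hD : CtxOK D) (c : Fin D.B) : MacOK D (fun T φ => D.mac5X φ T c) := by
  classical
  obtain ⟨ht1, -, -, -⟩ := ctx_t D hD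
  obtain ⟨hn1, -⟩ := ctx_n D hD
  obtain ⟨-, hκd, hdn, -⟩ := ctx_deg D hD
  have hn3 : (3 : ℝ) ≤ D.n := by
    have h1 : (1 : ℝ) ≤ D.t := by
      refine le_trans ?_ ht1
      norm_num
    have h2 : (D.t : ℝ) ≤ (D.t : ℝ) ^ 200 := by
      calc (D.t : ℝ) = (D.t : ℝ) ^ 1 := (pow_one _).symm
        _ ≤ (D.t : ℝ) ^ 200 := pow_le_pow_right₀ h1 (by norm_num)
    have h3 : (3 : ℝ) ≤ D.t := by
      refine le_trans ?_ ht1
      norm_num
    linarith
  have hn1' : (1 : ℝ) ≤ D.n := by linarith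
  refine ⟨?_, ?_, ?_⟩
  · intro φ h
    unfold Ctx.mac5X szT at h
    rw [(cX_empty D.F D.n).1, (cX_empty D.F D.n).2] at h
    simp at h
  · intro T φ ψ hv
    have hkey : ∀ x ∈ cX D.F D.n T, eB D.H.G {x} (D.Zs φ c) = eB D.H.G {x} (D.Zs ψ c) := by
      intro x hx
      unfold eB
      congr 1
      apply Finset.filter_congr
      intro e he
      have hx1 : (Sum.inl x : X ⊕ Y) ∈ ball D.H.G rW T :=
        (cX_ball D.H.G D.F hD.res.sub D.n T).1 x hx
      constructor
      · rintro ⟨h1, h2⟩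
        refine ⟨h1, ?_⟩
        rw [Finset.mem_singleton] at h1
        rw [Zs_iff5] at h2 ⊢
        have h3 : (Sum.inr e.2 : X ⊕ Y) ∈ ball D.H.G (rW + 5) T :=
          ball_mono D.H.G (rW + 1) (rW + 5) (by omega) T T (Finset.Subset.refl _)
            ((ball_edge D.H.G rW T e he).1 (by rw [h1]; exact hx1))
        have h4 : φ (.inl (c, e.2)) = ψ (.inl (c, e.2)) := by
          apply hv
          simp [supT, h3]
        rwa [← h4]
      · rintro ⟨h1, h2⟩
        refine ⟨h1, ?_⟩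
        rw [Finset.mem_singleton] at h1
        rw [Zs_iff5] at h2 ⊢
        have h3 : (Sum.inr e.2 : X ⊕ Y) ∈ ball D.H.G (rW + 5) T :=
          ball_mono D.H.G (rW + 1) (rW + 5) (by omega) T T (Finset.Subset.refl _)
            ((ball_edge D.H.G rW T e he).1 (by rw [h1]; exact hx1))
        have h4 : φ (.inl (c, e.2)) = ψ (.inl (c, e.2)) := by
          apply hv
          simp [supT, h3]
        rwa [h4]
    have hsum : ∑ x ∈ cX D.F D.n T, (eB D.H.G {x} (D.Zs φ c) : ℝ) =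
        ∑ x ∈ cX D.F D.n T, (eB D.H.G {x} (D.Zs ψ c) : ℝ) :=
      Finset.sum_congr rfl fun x hx => by rw [hkey x hx]
    show D.mac5X φ T c = D.mac5X ψ T c
    unfold Ctx.mac5X
    rw [hsum]
  · intro T hT
    set A := cX D.F D.n T with hA
    set I := (univ.filter (fun y => y ∉ D.O.OY c)).image (fun y => (Sum.inl (c, y) : D.Var))
      with hI
    have hTc : 1 ≤ T.card := Finset.card_pos.2 hT
    have hk0 : (1 : ℝ) ≤ T.card := by exact_mod_cast hTc
    have hmain := macro_rare (V := D.Var) (K := D.Lab) D.n T.card (by exact_mod_cast hn3) hTc I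
      (fun b φ => ((φ b).2.1 : ℕ) = 0)
      (fun b _ => Sum.elim (fun p : Fin D.B × Y => (eB D.H.G A {p.2} : ℝ)) (fun _ => 0) b)
      ?_ ?_ ?_ ?_ ?_ (fun _ => szT D.F D.n T) ?_ ?_ ?_
    · have h1 : P (fun φ : D.Lbl => D.mac5X φ T c) ≤ Real.exp (-(6 * D.n * T.card)) := by
        refine le_trans (P_mono ?_) hmain
        intro φ hφ
        unfold Ctx.mac5X at hφ
        rw [← hA, sum_eq5 D φ c A] at hφ
        refine lt_of_eq_of_lt ?_ hφ
        unfold lam
        ring
      refine h1.trans (Real.exp_le_exp.2 ?_)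
      have h2 : (0 : ℝ) ≤ D.n * T.card := by positivity
      nlinarith
    · intro b hb ψ φ φ' h
      have h1 : mix I φ ψ b = mix I φ' ψ b := by
        rw [mix_in hb, mix_in hb]
        exact h b (Finset.mem_singleton_self b)
      simp only [h1]
    · intro b _ φ ψ
      rfl
    · intro b _ ψ
      rcases b with p | p
      · exact Nat.cast_nonneg _
      · exact le_rfl
    · intro b _ ψ
      rcases b with p | p
      · show (eB D.H.G A {p.2} : ℝ) ≤ (D.n : ℝ) ^ 7
        have h1 : eB D.H.G A {p.2} ≤ dgY D.H.G p.2 :=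
          eB_mono _ _ (Finset.Subset.refl _) _ _ (Finset.subset_univ _) _ _
            (Finset.Subset.refl _)
        rw [D.H.degY] at h1
        have h2 : (eB D.H.G A {p.2} : ℝ) ≤ D.κ := by exact_mod_cast h1
        have h3 : (D.n : ℝ) ≤ (D.n : ℝ) ^ 7 := by
          calc (D.n : ℝ) = (D.n : ℝ) ^ 1 := (pow_one _).symm
            _ ≤ (D.n : ℝ) ^ 7 := pow_le_pow_right₀ hn1' (by norm_num)
        linarith
      · show (0 : ℝ) ≤ (D.n : ℝ) ^ 7
        positivity
    · intro b hb ψ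
      have h1 : P (fun φ : D.Lbl => ((mix I φ ψ b).2.1 : ℕ) = 0) =
          P (fun φ : D.Lbl => ((φ b).2.1 : ℕ) = 0) := by
        congr 1
        funext φ
        rw [mix_in hb]
      have h2 : (D.z : ℝ) + 1 = (D.n : ℝ) ^ 20 := (ctx_cards D hD).2.2.2.2.2.1
      show P (fun φ : D.Lbl => ((mix I φ ψ b).2.1 : ℕ) = 0) ≤ _
      rw [h1, P_z D b, h2]
    · intro φ ψ
      rfl
    · intro ψ
      unfold szT Nτ
      push_cast
      have h1 : (0 : ℝ) ≤ (cX D.F D.n T).card := Nat.cast_nonneg _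
      have h2 : (0 : ℝ) ≤ (cY D.F D.n T).card := Nat.cast_nonneg _
      linarith
    · intro ψ
      rw [hI, Finset.sum_image (by intro y _ y' _ h; simpa using h)]
      have h1 : ∑ y ∈ univ.filter (fun y => y ∉ D.O.OY c),
          Sum.elim (fun p : Fin D.B × Y => (eB D.H.G A {p.2} : ℝ)) (fun _ => 0)
            (Sum.inl (c, y) : D.Var) ≤ ∑ y, (eB D.H.G A {y} : ℝ) :=
        Finset.sum_le_sum_of_subset_of_nonneg (Finset.subset_univ _)
          (fun y _ _ => Nat.cast_nonneg _)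
      have h2 : ∑ y, (eB D.H.G A {y} : ℝ) = (A.card : ℝ) * D.d := by
        have h3 := eB_sumY D.H.G A univ
        rw [eB_sumX D.H.G A univ] at h3
        have h4 : ∑ x ∈ A, eB D.H.G {x} univ = A.card * D.d := by
          have h5 : ∀ x ∈ A, eB D.H.G {x} univ = D.d := fun x _ => D.H.degX x
          rw [Finset.sum_congr rfl h5, Finset.sum_const, smul_eq_mul]
        rw [h4] at h3
        exact_mod_cast h3.symm
      have h5 : (A.card : ℝ) ≤ szT D.F D.n T := by
        unfold szT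
        rw [← hA]
        have h6 : (0 : ℝ) ≤ (cY D.F D.n T).card := Nat.cast_nonneg _
        have h7 : (0 : ℝ) ≤ (Nτ D.n : ℝ) * T.card := by positivity
        linarith
      have h8 : (D.d : ℝ) ≤ (D.n : ℝ) ^ 8 := by
        refine hdn.trans ?_
        calc (D.n : ℝ) = (D.n : ℝ) ^ 1 := (pow_one _).symm
          _ ≤ (D.n : ℝ) ^ 8 := pow_le_pow_right₀ hn1' (by norm_num)
      calc _ ≤ (A.card : ℝ) * D.d := h1.trans h2.le
        _ ≤ szT D.F D.n T * (D.n : ℝ) ^ 8 := by
            apply mul_le_mul h5 h8 (Nat.cast_nonneg _)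
            exact (Nat.cast_nonneg _ : (0 : ℝ) ≤ A.card).trans h5
        _ = (D.n : ℝ) ^ 8 * szT D.F D.n T := mul_comm _ _

end Pool.SCDH
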