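import Pool.Agent.Lib.SCDH.MDefs
import Pool.Agent.Lib.SCDH.G01
import Pool.Agent.Lib.SCDH.G02
import Pool.Agent.Lib.SCDH.G03
import Pool.Agent.Lib.SCDH.G04
import Pool.Agent.Lib.SCDH.N01
import Pool.Agent.Lib.SCDH.N02
import Pool.Agent.Lib.SCDH.L01
import Pool.Agent.Lib.SCDH.L02
import Pool.Agent.Lib.SCDH.W01
import Pool.Agent.Lib.SCDH.W02

/-!
# Row M5Y (paper scd_h36.md)
mac5Y: ∑ of vZ over maj F (cX F n T).
Recipe: = ∑_{y'} 1[y' ∈ Zs] #{y ∈ N : y, y' have a common G-neighbour}; weights ≤ n², total ≤ n² |N| ≤ n³ |cX|: macro_rare.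
-/

set_option linter.unusedSectionVars false
set_option linter.unusedVariables false

namespace Pool.SCDH

open Finset Pool.MP_0ccee8_co.Lib2

variable {X Y : Type} [Fintype X] [DecidableEq X] [Fintype Y] [DecidableEq Y]
variable (D : Ctx X Y)

private theorem card_nbY5 (Γ : Finset (X × Y)) (x : X) :
    (univ.filter (fun y => (x, y) ∈ Γ)).card = dgX Γ x := by
  unfold dgX eB
  refine Finset.card_bij (fun y _ => (x, y)) ?_ ?_ ?_
  · intro y hy
    simpa using hy
  · intro y _ y' _ h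
    exact (Prod.mk.inj h).2
  · rintro ⟨x', y⟩ h
    simp only [mem_filter, mem_singleton, mem_univ, and_true] at h
    obtain ⟨h1, h2⟩ := h
    subst h2
    exact ⟨y, by simpa using h1, rfl⟩

private theorem card_nbX5 (Γ : Finset (X × Y)) (y : Y) :
    (univ.filter (fun x => (x, y) ∈ Γ)).card = dgY Γ y := by
  unfold dgY eB
  refine Finset.card_bij (fun x _ => (x, y)) ?_ ?_ ?_
  · intro x hx
    simpa using hx
  · intro x _ x' _ h
    exact (Prod.mk.inj h).1
  · rintro ⟨x, y'⟩ h
    simp only [mem_filter, mem_singleton, mem_univ, true_and] at h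
    obtain ⟨h1, h2⟩ := h
    subst h2
    exact ⟨x, by simpa using h1, rfl⟩

/-- the second neighbourhood is small -/
private theorem card_N2 {n d κ : ℕ} (H : Host X Y n d κ) (y' : Y) :
    (univ.filter (fun y => ∃ x, (x, y) ∈ H.G ∧ (x, y') ∈ H.G)).card ≤ n ^ 2 := by
  have hsub : (univ.filter (fun y => ∃ x, (x, y) ∈ H.G ∧ (x, y') ∈ H.G)) ⊆
      (univ.filter (fun x => (x, y') ∈ H.G)).biUnion (fun x => univ.filter (fun y => (x, y) ∈ H.G)) := by
    intro y hy
    obtain ⟨x, h1, h2⟩ := (Finset.mem_filter.1 hy).2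
    exact Finset.mem_biUnion.2 ⟨x, by simpa using h2, by simpa using h1⟩
  refine le_trans (Finset.card_le_card hsub) (le_trans Finset.card_biUnion_le ?_)
  have h3 : ∀ x ∈ (univ.filter (fun x => (x, y') ∈ H.G)),
      (univ.filter (fun y => (x, y) ∈ H.G)).card ≤ n := by
    intro x _
    rw [card_nbY5, H.degX x]
    exact H.hd2
  refine le_trans (Finset.sum_le_sum h3) ?_
  rw [Finset.sum_const, smul_eq_mul, card_nbX5, H.degY y', pow_two]
  exact Nat.mul_le_mul_right _ (le_trans H.hκd H.hd2)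

private theorem sum_vZ (φ : D.Lbl) (c : Fin D.B) (M : Finset Y) :
    (∑ y ∈ M, (D.vZ φ c y : ℝ)) = ∑ b : D.Var, if ((φ b).2.1 : ℕ) = 0 then
      (match b with
        | .inl (c', y') => if c' = c ∧ y' ∉ D.O.OY c then
          ((M.filter (fun y => ∃ x, (x, y) ∈ D.H.G ∧ (x, y') ∈ D.H.G)).card : ℝ) else 0
        | .inr _ => 0) else 0 := by
  rw [Fintype.sum_sum_type]
  have h2 : (∑ e : X × Y, if ((φ (Sum.inr e)).2.1 : ℕ) = 0 then (0 : ℝ) else 0) = 0 := by
    refine Finset.sum_eq_zero (fun e _ => ?_)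
    split_ifs <;> rfl
  simp only at h2 ⊢
  rw [h2, add_zero, Fintype.sum_prod_type, Finset.sum_eq_single c]
  · have h3 : ∀ y' : Y, (if ((φ (Sum.inl (c, y'))).2.1 : ℕ) = 0 then
        (if c = c ∧ y' ∉ D.O.OY c then
          ((M.filter (fun y => ∃ x, (x, y) ∈ D.H.G ∧ (x, y') ∈ D.H.G)).card : ℝ) else 0) else 0)
        = if y' ∈ D.Zs φ c then
          ∑ y ∈ M, (if ∃ x, (x, y) ∈ D.H.G ∧ (x, y') ∈ D.H.G then (1 : ℝ) else 0) else 0 := by
      intro y'
      have hz : y' ∈ D.Zs φ c ↔ (y' ∉ D.O.OY c ∧ ((φ (Sum.inl (c, y'))).2.1 : ℕ) = 0) := by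
        simp [Ctx.Zs]
      rw [Finset.sum_boole]
      by_cases h4 : ((φ (Sum.inl (c, y'))).2.1 : ℕ) = 0
      · by_cases h5 : y' ∈ D.O.OY c
        · rw [if_pos h4, if_neg (by tauto), if_neg (by rw [hz]; tauto)]
        · rw [if_pos h4, if_pos ⟨rfl, h5⟩, if_pos (hz.2 ⟨h5, h4⟩)]
      · rw [if_neg h4, if_neg (by rw [hz]; tauto)]
    rw [Finset.sum_congr rfl (fun y' _ => h3 y'), Finset.sum_ite_mem, Finset.univ_inter,
      Finset.sum_comm]
    refine Finset.sum_congr rfl (fun y _ => ?_)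
    rw [Finset.sum_boole]
    rfl
  · intro c' _ hc'
    refine Finset.sum_eq_zero (fun y' _ => ?_)
    rw [if_neg (show ¬ (c' = c ∧ y' ∉ D.O.OY c) by tauto)]
    split_ifs <;> rfl
  · intro h
    exact absurd (Finset.mem_univ c) h

private theorem maj_ball (hD : CtxOK D) (T : Finset (X ⊕ Y)) (y : Y)
    (hy : y ∈ maj D.F (cX D.F D.n T)) (R : ℕ) (hR : R = rW + 1) : Sum.inr y ∈ ball D.H.G R T := by
  obtain ⟨h3, _⟩ := cX_ball D.H.G D.F hD.res.sub D.n T
  generalize cX D.F D.n T = A at hy h3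
  generalize rW = r at h3 hR
  have h1 := (Finset.mem_filter.1 hy).2
  have h2 : 0 < eB D.F A {y} := by omega
  unfold eB at h2
  obtain ⟨e, he⟩ := Finset.card_pos.1 h2
  simp only [mem_filter, mem_singleton] at he
  obtain ⟨he1, he2, he3⟩ := he
  have h3' := h3 e.1 he2
  subst hR
  have h4 := (ball_edge D.H.G r T e (hD.res.sub he1)).1 h3'
  rw [he3] at h4
  exact h4

private theorem mem_supT5 (T : Finset (X ⊕ Y)) (c : Fin D.B) (y' : Y) (R : ℕ) (hR : R ≤ rW + 5)
    (h : Sum.inr y' ∈ ball D.H.G R T) : Sum.inl (c, y') ∈ supT D.B D.H.G T := by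
  classical
  unfold supT
  refine Finset.mem_filter.2 ⟨Finset.mem_univ _, ?_⟩
  generalize rW + 5 = m at hR ⊢
  exact ball_mono D.H.G R m hR T T (Finset.Subset.refl _) h

theorem mac5Y_ok (hD : CtxOK D) (c : Fin D.B) : MacOK D (fun T φ => D.mac5Y φ T c) := by
  have hn := ctx_n D hD
  have ht := (ctx_t D hD).1
  have hn3 : 3 ≤ D.n := by
    have h1 : (3 : ℝ) ≤ (D.t : ℝ) := le_trans (by norm_num) ht
    have h2 : (D.t : ℝ) ≤ (D.t : ℝ) ^ 200 := le_self_pow₀ (by linarith) (by norm_num)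
    have h3 : (3 : ℝ) ≤ (D.n : ℝ) := by linarith [hn.1]
    exact_mod_cast h3
  have hn1 : (1 : ℝ) ≤ (D.n : ℝ) := by exact_mod_cast (by omega : 1 ≤ D.n)
  constructor
  · intro φ h
    simp only [Ctx.mac5Y] at h
    have he := (cX_empty D.F D.n).1
    have hm : maj D.F (cX D.F D.n (∅ : Finset (X ⊕ Y))) = ∅ := by
      rw [he]
      refine Finset.filter_eq_empty_iff.2 (fun y _ => ?_)
      have : eB D.F ∅ {y} = 0 := by simp [eB]
      rw [this]; exact Nat.not_lt_zero _
    rw [hm, Finset.sum_empty] at h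
    have h0 : 0 ≤ lam D.n * szT D.F D.n (∅ : Finset (X ⊕ Y)) := by
      unfold lam szT
      positivity
    linarith
  · intro T φ ψ h
    have hv : ∀ y ∈ maj D.F (cX D.F D.n T), D.vZ φ c y = D.vZ ψ c y := by
      intro y hy
      obtain ⟨R, hR⟩ : ∃ R, R = rW + 1 := ⟨_, rfl⟩
      have hyb := maj_ball D hD T y hy R hR
      have hR5 : R + 1 + 1 ≤ rW + 5 := by omega
      unfold Ctx.vZ
      congr 1
      ext y'
      simp only [Ctx.Zs, mem_filter, mem_univ, true_and]
      constructor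
      · rintro ⟨⟨h1, h2⟩, x, h3, h4⟩
        have hx := (ball_edge D.H.G R T (x, y) h3).2 hyb
        have hy' := (ball_edge D.H.G (R + 1) T (x, y') h4).1 hx
        have := h (Sum.inl (c, y')) (mem_supT5 D T c y' (R + 1 + 1) hR5 hy')
        rw [this] at h2
        exact ⟨⟨h1, h2⟩, x, h3, h4⟩
      · rintro ⟨⟨h1, h2⟩, x, h3, h4⟩
        have hx := (ball_edge D.H.G R T (x, y) h3).2 hyb
        have hy' := (ball_edge D.H.G (R + 1) T (x, y') h4).1 hx
        have := h (Sum.inl (c, y')) (mem_supT5 D T c y' (R + 1 + 1) hR5 hy')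
        rw [← this] at h2
        exact ⟨⟨h1, h2⟩, x, h3, h4⟩
    have hs : (∑ y ∈ maj D.F (cX D.F D.n T), (D.vZ φ c y : ℝ))
        = ∑ y ∈ maj D.F (cX D.F D.n T), (D.vZ ψ c y : ℝ) :=
      Finset.sum_congr rfl (fun y hy => by rw [hv y hy])
    simp only [Ctx.mac5Y]
    rw [hs]
  · intro T hT
    set M : Finset Y := maj D.F (cX D.F D.n T) with hM
    let w : D.Var → D.Lbl → ℝ := fun b _ => match b with
        | .inl (c', y') => if c' = c ∧ y' ∉ D.O.OY c then
          ((M.filter (fun y => ∃ x, (x, y) ∈ D.H.G ∧ (x, y') ∈ D.H.G)).card : ℝ) else 0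
        | .inr _ => 0
    have hk : 1 ≤ T.card := Finset.card_pos.2 hT
    have hwn : ∀ y' : Y, ((M.filter (fun y => ∃ x, (x, y) ∈ D.H.G ∧ (x, y') ∈ D.H.G)).card : ℝ)
        ≤ (D.n : ℝ) ^ 2 := by
      intro y'
      have h1 : (M.filter (fun y => ∃ x, (x, y) ∈ D.H.G ∧ (x, y') ∈ D.H.G)).card ≤ D.n ^ 2 :=
        le_trans (Finset.card_le_card (Finset.filter_subset_filter _ (Finset.subset_univ _)))
          (card_N2 D.H y')
      exact_mod_cast h1
    have hn7 : (D.n : ℝ) ^ 2 ≤ (D.n : ℝ) ^ 7 := pow_le_pow_right₀ hn1 (by norm_num)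
    have hmain := macro_rare (V := D.Var) (K := D.Lab) D.n T.card hn3 hk univ
      (fun b φ => ((φ b).2.1 : ℕ) = 0) w
      (by
        intro b _ ψ φ φ' h
        have h1 : φ b = φ' b := h b (Finset.mem_singleton_self b)
        simp only [mix, Finset.mem_univ, if_true]
        rw [h1])
      (by intro b _ φ ψ; rfl)
      (by
        intro b _ ψ
        rcases b with ⟨c', y'⟩ | e
        · simp only [w]
          split_ifs
          · positivity
          · exact le_rfl
        · exact le_rfl)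
      (by
        intro b _ ψ
        rcases b with ⟨c', y'⟩ | e
        · simp only [w]
          split_ifs
          · exact le_trans (hwn y') hn7
          · positivity
        · simp only [w]; positivity)
      (by
        intro b _ ψ
        have h1 := P_z D b
        have h2 : (fun φ : D.Lbl => ((mix univ φ ψ b).2.1 : ℕ) = 0) = fun φ : D.Lbl => ((φ b).2.1 : ℕ) = 0 := by
          funext φ
          simp only [mix, Finset.mem_univ, if_true]
        have h3 := (ctx_cards D hD).2.2.2.2.2.1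
        rw [h2, h1, h3])
      (fun _ => szT D.F D.n T)
      (by intro φ ψ; rfl)
      (by
        intro ψ
        unfold szT Nτ
        push_cast
        have : (0 : ℝ) ≤ ((cX D.F D.n T).card : ℝ) + ((cY D.F D.n T).card : ℝ) := by positivity
        linarith)
      (by
        intro ψ
        have h1 : (∑ b : D.Var, w b ψ) ≤ ∑ y' : Y,
            ((M.filter (fun y => ∃ x, (x, y) ∈ D.H.G ∧ (x, y') ∈ D.H.G)).card : ℝ) := by
          rw [Fintype.sum_sum_type]
          have h2 : (∑ e : X × Y, w (Sum.inr e) ψ) = 0 := Finset.sum_eq_zero (fun e _ => rfl)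
          rw [h2, add_zero, Fintype.sum_prod_type, Finset.sum_eq_single c]
          · refine Finset.sum_le_sum (fun y' _ => ?_)
            simp only [w]
            split_ifs
            · exact le_rfl
            · positivity
          · intro c' _ hc'
            refine Finset.sum_eq_zero (fun y' _ => ?_)
            simp only [w]
            rw [if_neg (show ¬ (c' = c ∧ y' ∉ D.O.OY c) by tauto)]
          · intro h
            exact absurd (Finset.mem_univ c) h
        have h3 : (∑ y' : Y, ((M.filter (fun y => ∃ x, (x, y) ∈ D.H.G ∧ (x, y') ∈ D.H.G)).card : ℝ))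
            = ∑ y ∈ M, ((univ.filter (fun y' => ∃ x, (x, y') ∈ D.H.G ∧ (x, y) ∈ D.H.G)).card : ℝ) := by
          have h4 : ∀ y' : Y, ((M.filter (fun y => ∃ x, (x, y) ∈ D.H.G ∧ (x, y') ∈ D.H.G)).card : ℝ)
              = ∑ y ∈ M, (if ∃ x, (x, y) ∈ D.H.G ∧ (x, y') ∈ D.H.G then (1 : ℝ) else 0) := by
            intro y'
            rw [Finset.sum_boole]
          rw [Finset.sum_congr rfl (fun y' _ => h4 y'), Finset.sum_comm]
          refine Finset.sum_congr rfl (fun y _ => ?_)
          rw [Finset.sum_boole]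
          congr 2
          ext y'
          simp only [mem_filter, mem_univ, true_and]
          constructor
          · rintro ⟨x, h5, h6⟩; exact ⟨x, h6, h5⟩
          · rintro ⟨x, h5, h6⟩; exact ⟨x, h6, h5⟩
        have h5 : (∑ y ∈ M, ((univ.filter (fun y' => ∃ x, (x, y') ∈ D.H.G ∧ (x, y) ∈ D.H.G)).card : ℝ))
            ≤ (M.card : ℝ) * (D.n : ℝ) ^ 2 := by
          rw [← nsmul_eq_mul]
          refine Finset.sum_le_card_nsmul _ _ _ (fun y _ => ?_)
          exact_mod_cast card_N2 D.H y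
        have h6 : (M.card : ℝ) ≤ (D.n : ℝ) * ((cX D.F D.n T).card : ℝ) := by
          have h7 := maj_card D.F (cX D.F D.n T)
          have h8 : (∑ x ∈ cX D.F D.n T, dgX D.F x) ≤ (cX D.F D.n T).card * D.n := by
            rw [← smul_eq_mul]
            refine Finset.sum_le_card_nsmul _ _ _ (fun x _ => ?_)
            exact le_trans (dgX_le D.H D.F hD.res.sub x) D.H.hd2
          have h9 : M.card ≤ (cX D.F D.n T).card * D.n := le_trans h7 h8
          have h10 : (M.card : ℝ) ≤ ((cX D.F D.n T).card : ℝ) * (D.n : ℝ) := by exact_mod_cast h9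
          linarith
        have h11 : ((cX D.F D.n T).card : ℝ) ≤ szT D.F D.n T := by
          unfold szT
          have : (0 : ℝ) ≤ ((cY D.F D.n T).card : ℝ) + (Nτ D.n : ℝ) * (T.card : ℝ) := by positivity
          linarith
        have h12 : (M.card : ℝ) * (D.n : ℝ) ^ 2 ≤ (D.n : ℝ) ^ 3 * szT D.F D.n T := by
          calc (M.card : ℝ) * (D.n : ℝ) ^ 2 ≤ ((D.n : ℝ) * ((cX D.F D.n T).card : ℝ)) * (D.n : ℝ) ^ 2 :=
                mul_le_mul_of_nonneg_right h6 (by positivity)
            _ = (D.n : ℝ) ^ 3 * ((cX D.F D.n T).card : ℝ) := by ring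
            _ ≤ (D.n : ℝ) ^ 3 * szT D.F D.n T := mul_le_mul_of_nonneg_left h11 (by positivity)
        have h13 : (D.n : ℝ) ^ 3 * szT D.F D.n T ≤ (D.n : ℝ) ^ 8 * szT D.F D.n T :=
          mul_le_mul_of_nonneg_right (pow_le_pow_right₀ hn1 (by norm_num))
            (le_trans (by positivity) h11)
        calc (∑ b ∈ (univ : Finset D.Var), w b ψ) ≤ _ := h1
          _ = _ := h3
          _ ≤ _ := h5
          _ ≤ _ := h12
          _ ≤ _ := h13)
    have hconv : (fun φ : D.Lbl => D.mac5Y φ T c) = fun φ : D.Lbl => szT D.F D.n T / (D.n : ℝ) ^ 6 <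
        ∑ b ∈ (univ : Finset D.Var), if ((φ b).2.1 : ℕ) = 0 then w b φ else 0 := by
      funext φ
      simp only [Ctx.mac5Y]
      rw [sum_vZ D φ c M]
      have : lam D.n * szT D.F D.n T = szT D.F D.n T / (D.n : ℝ) ^ 6 := by
        unfold lam
        ring
      rw [this]
    rw [hconv]
    refine le_trans hmain (Real.exp_le_exp.2 ?_)
    have : (0 : ℝ) ≤ (D.n : ℝ) * (T.card : ℝ) := by positivity
    nlinarith

end Pool.SCDH
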