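import Pool.Agent.Lib.SCDH.MDefs
import Pool.Agent.Lib.SCDH.G01
import Pool.Agent.Lib.SCDH.G02
import Pool.Agent.Lib.SCDH.G03
import Pool.Agent.Lib.SCDH.G04
import Pool.Agent.Lib.SCDH.N01
import Pool.Agent.Lib.SCDH.N02
import Pool.Agent.Lib.SCDH.L01
import Pool.Agent.Lib.SCDH.L02
import Pool.Agent.Lib.SCDH.W01
import Pool.Agent.Lib.SCDH.W02

/-!
# Row M6X (paper scd_h36.md)
mac6X: the private reserve edges leaving a set certified by Pg (old with respect to the labels of the F-edges, as Hb and F are disjoint).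
-/

set_option linter.unusedSectionVars false
set_option linter.unusedVariables false

namespace Pool.SCDH

open Finset Pool.MP_0ccee8_co.Lib2

variable {X Y : Type} [Fintype X] [DecidableEq X] [Fintype Y] [DecidableEq Y]
variable (D : Ctx X Y)

attribute [local irreducible] rW

theorem m6_ball_le {G : Finset (X × Y)} {R R' : ℕ} (h : R ≤ R') {T : Finset (X ⊕ Y)} {v : X ⊕ Y}
    (hv : v ∈ ball G R T) : v ∈ ball G R' T :=
  Finset.mem_of_subset (ball_mono G R R' h T T (Finset.Subset.refl _)) hv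

/-- the slot only depends on the vertex labels at `y` -/
theorem m6_slot_congr {φ φ' : D.Lbl} (c : Fin D.B) (y : Y)
    (h : ∀ c' : Fin D.B, φ (.inl (c', y)) = φ' (.inl (c', y))) : D.slot φ c y = D.slot φ' c y := by
  unfold Ctx.slot
  congr 1
  ext c'
  simp only [mem_filter, mem_univ, true_and, Ctx.Sin, Ctx.Zs, h c']

theorem m6_Sin_congr {φ φ' : D.Lbl} (c : Fin D.B) (y : Y)
    (h : φ (.inl (c, y)) = φ' (.inl (c, y))) : y ∈ D.Sin φ c ↔ y ∈ D.Sin φ' c := by
  simp only [Ctx.Sin, mem_filter, mem_univ, true_and, h]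

/-- membership in the private graph only depends on the labels at `e` -/
theorem m6_Pg_congr {φ φ' : D.Lbl} (c : Fin D.B) (e : X × Y)
    (h : ∀ c' : Fin D.B, φ (.inl (c', e.2)) = φ' (.inl (c', e.2)))
    (h2 : e ∈ D.Hb → φ (.inr e) = φ' (.inr e)) : e ∈ D.Pg φ c ↔ e ∈ D.Pg φ' c := by
  unfold Ctx.Pg Ctx.Pv Ctx.own
  simp only [mem_filter]
  rw [m6_Sin_congr D c e.2 (h c), m6_slot_congr D c e.2 h]
  constructor
  · rintro ⟨h3, h4⟩
    rw [h2 h3] at h4
    exact ⟨h3, h4⟩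
  · rintro ⟨h3, h4⟩
    rw [← h2 h3] at h4
    exact ⟨h3, h4⟩

theorem m6_Pg_sub (hD : CtxOK D) (φ : D.Lbl) (c : Fin D.B) : D.Pg φ c ⊆ D.H.G := by
  intro e he
  unfold Ctx.Pg Ctx.Pv at he
  exact hD.bulk.sub (mem_filter.1 he).1

/-- the labels of the `F`-edges -/
noncomputable def m6I : Finset D.Var := D.F.map ⟨Sum.inr, Sum.inr_injective⟩

theorem m6_mix_inl (φ ψ : D.Lbl) (w : Fin D.B × Y) : mix (m6I D) φ ψ (.inl w) = ψ (.inl w) := by
  apply mix_out
  simp [m6I]

theorem m6_mix_F (φ ψ : D.Lbl) (e : X × Y) (he : e ∈ D.F) : mix (m6I D) φ ψ (.inr e) = φ (.inr e) := by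
  apply mix_in
  simpa [m6I] using he

theorem m6_mix_nF (φ ψ : D.Lbl) (e : X × Y) (he : e ∉ D.F) : mix (m6I D) φ ψ (.inr e) = ψ (.inr e) := by
  apply mix_out
  simpa [m6I] using he

theorem m6_mix_Pg (hD : CtxOK D) (φ ψ : D.Lbl) (c : Fin D.B) :
    D.Pg (mix (m6I D) φ ψ) c = D.Pg ψ c := by
  ext e
  apply m6_Pg_congr
  · intro c'
    exact m6_mix_inl D φ ψ _
  · intro he
    exact m6_mix_nF D φ ψ e (fun h => (Finset.disjoint_left.1 hD.dis he h))

/-- labels agree near `T`: the certified sets agree -/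
theorem m6_cX_congr (hD : CtxOK D) (T : Finset (X ⊕ Y)) (φ φ' : D.Lbl) (c : Fin D.B)
    (h : ∀ w ∈ supT D.B D.H.G T, φ w = φ' w) :
    cX (D.Pg φ c) D.n T = cX (D.Pg φ' c) D.n T ∧ cY (D.Pg φ c) D.n T = cY (D.Pg φ' c) D.n T := by
  apply cX_local D.H.G _ _ (m6_Pg_sub D hD φ c) (m6_Pg_sub D hD φ' c)
  intro e he
  by_cases heH : e ∈ D.Hb
  · have heG : e ∈ D.H.G := hD.bulk.sub heH
    have h1 : Sum.inr e.2 ∈ ball D.H.G (rW + 1) T := by
      rcases he with he | he
      · exact (ball_edge D.H.G rW T e heG).1 he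
      · exact m6_ball_le (R := rW) (R' := (rW + 1)) (by omega) he
    have h2 : Sum.inl e.1 ∈ ball D.H.G (rW + 1) T := by
      rcases he with he | he
      · exact m6_ball_le (R := rW) (R' := (rW + 1)) (by omega) he
      · exact (ball_edge D.H.G rW T e heG).2 he
    apply m6_Pg_congr
    · intro c'
      apply h
      simp only [supT, mem_filter, mem_univ, true_and]
      exact m6_ball_le (R := (rW + 1)) (R' := (rW + 5)) (by omega) h1
    · intro _
      apply h
      simp only [supT, mem_filter, mem_univ, true_and]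
      exact ⟨m6_ball_le (R := (rW + 1)) (R' := (rW + 5)) (by omega) h2, heG⟩
  · simp only [Ctx.Pg, Ctx.Pv, mem_filter, heH, false_and]

/-- the common probability estimate -/
theorem m6_prob (hD : CtxOK D) (c : Fin D.B) (T : Finset (X ⊕ Y)) (hT : T.Nonempty)
    (L : D.Lbl → Finset (X × Y)) (hLF : ∀ φ, L φ ⊆ D.F) (hLm : ∀ φ ψ, L (mix (m6I D) φ ψ) = L ψ)
    (hLs : ∀ φ, ∀ e ∈ L φ, D.slot φ c e.2 < D.s + 1) :
    P (fun φ : D.Lbl => (Nτ D.n : ℝ) * T.card ≤ (D.n : ℝ) ^ 3 * ((L φ).card : ℝ) ∧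
      2 * (((L φ).filter (fun e => D.own φ e = D.slot φ c e.2)).card : ℝ) < D.theta * ((L φ).card : ℝ))
      ≤ Real.exp (-(5 * D.n * T.card)) := by
  classical
  obtain ⟨ht, -, -, -⟩ := ctx_t D hD
  obtain ⟨hn1, -⟩ := ctx_n D hD
  obtain ⟨-, -, hθ0, hθ1, hθn, -, -⟩ := ctx_theta D hD
  have hn : (384 : ℝ) ≤ D.n := by
    have h1 : (10 : ℝ) ^ 100 ≤ (D.t : ℝ) ^ 200 := by
      calc (10 : ℝ) ^ 100 ≤ D.t := ht
        _ = (D.t : ℝ) ^ 1 := (pow_one _).symm
        _ ≤ (D.t : ℝ) ^ 200 := pow_le_pow_right₀ (le_trans (by norm_num) ht) (by norm_num)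
    have h2 : (384 : ℝ) ≤ (10 : ℝ) ^ 100 := by norm_num
    linarith
  have hk : (1 : ℝ) ≤ T.card := by exact_mod_cast hT.card_pos
  refine P_cond (m6I D) _ _ (fun ψ => ?_)
  by_cases h1 : (Nτ D.n : ℝ) * T.card ≤ (D.n : ℝ) ^ 3 * ((L ψ).card : ℝ)
  swap
  · have h2 : P (fun φ : D.Lbl => (Nτ D.n : ℝ) * T.card ≤ (D.n : ℝ) ^ 3 * ((L (mix (m6I D) φ ψ)).card : ℝ) ∧
      2 * (((L (mix (m6I D) φ ψ)).filter (fun e => D.own (mix (m6I D) φ ψ) e =
        D.slot (mix (m6I D) φ ψ) c e.2)).card : ℝ) < D.theta * ((L (mix (m6I D) φ ψ)).card : ℝ)) ≤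
        P (fun _ : D.Lbl => False) := by
      refine P_mono (fun φ h => ?_)
      rw [hLm] at h
      exact h1 h.1
    rw [P_false] at h2
    exact h2.trans (Real.exp_pos _).le
  -- the size of the old set
  set f : ℝ := ((L ψ).card : ℝ) with hf
  have hf1 : (D.n : ℝ) ^ 37 * T.card ≤ f := by
    have h2 : (Nτ D.n : ℝ) = (D.n : ℝ) ^ 3 * (D.n : ℝ) ^ 37 := by
      unfold Nτ
      push_cast
      ring
    rw [h2, mul_assoc] at h1
    exact le_of_mul_le_mul_left h1 (by positivity)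
  have hf0 : 0 < f := lt_of_lt_of_le (by positivity) hf1
  -- the centred terms
  have key := tail_bound (V := D.Var) (κ := D.Lab) univ (L ψ) (fun e => {Sum.inr e})
    (by
      intro b _ b' _ hbb
      rw [Finset.disjoint_singleton]
      exact fun h => hbb (Sum.inr_injective h))
    (fun e φ => (if D.own φ e = D.slot ψ c e.2 then (1 : ℝ) else 0) - D.theta)
    (by
      intro b _ ψ' φ φ' h
      have h2 := h (Sum.inr b) (mem_singleton_self _)
      simp only [Ctx.own, mix, mem_univ, if_true]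
      rw [h2])
    1
    (by
      intro b _ φ
      split_ifs
      · rw [abs_of_nonneg (by linarith)]
        linarith
      · rw [zero_sub, abs_neg, abs_of_pos hθ0]
        exact hθ1)
    (by
      intro b hb ψ'
      have h2 : ∀ φ : D.Lbl, (if D.own (mix univ φ ψ') b = D.slot ψ c b.2 then (1 : ℝ) else 0) - D.theta
          = (if D.own φ b = D.slot ψ c b.2 then (1 : ℝ) else 0) - D.theta := by
        intro φ
        simp only [Ctx.own, mix, mem_univ, if_true]
        rfl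
      rw [E_congr h2, E_sub, E_const, E_P (fun φ : D.Lbl => D.own φ b = D.slot ψ c b.2) 1]
      have h3 : P (fun φ : D.Lbl => D.own φ b = D.slot ψ c b.2) = D.theta :=
        P_own D (Sum.inr b) (D.slot ψ c b.2) (hLs ψ b hb)
      rw [h3]
      ring)
    (fun _ _ => D.theta)
    (by
      intro b hb ψ'
      have h2 : ∀ φ : D.Lbl, ((if D.own (mix univ φ ψ') b = D.slot ψ c b.2 then (1 : ℝ) else 0) - D.theta) ^ 2
          ≤ (if D.own φ b = D.slot ψ c b.2 then (1 - 2 * D.theta) else 0) + D.theta ^ 2 := by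
        intro φ
        simp only [Ctx.own, mix, mem_univ, if_true]
        split_ifs
        · nlinarith
        · nlinarith
      refine (E_mono h2).trans ?_
      rw [E_add, E_const, E_P (fun φ : D.Lbl => D.own φ b = D.slot ψ c b.2) (1 - 2 * D.theta)]
      have h3 : P (fun φ : D.Lbl => D.own φ b = D.slot ψ c b.2) = D.theta :=
        P_own D (Sum.inr b) (D.slot ψ c b.2) (hLs ψ b hb)
      rw [h3]
      nlinarith)
    (D.theta * f) (by positivity)
    (by
      intro ψ'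
      rw [sum_const, nsmul_eq_mul]
      exact le_of_eq (by ring))
    (D.theta * f / 2) (by positivity)
    (by
      have : 0 ≤ D.theta * f := by positivity
      linarith)
  have hsub : P (fun φ : D.Lbl => (Nτ D.n : ℝ) * T.card ≤ (D.n : ℝ) ^ 3 * ((L (mix (m6I D) φ ψ)).card : ℝ) ∧
      2 * (((L (mix (m6I D) φ ψ)).filter (fun e => D.own (mix (m6I D) φ ψ) e =
        D.slot (mix (m6I D) φ ψ) c e.2)).card : ℝ) < D.theta * ((L (mix (m6I D) φ ψ)).card : ℝ)) ≤
      P (fun φ : D.Lbl => D.theta * f / 2 < |∑ e ∈ L ψ,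
        ((if D.own φ e = D.slot ψ c e.2 then (1 : ℝ) else 0) - D.theta)|) := by
    refine P_mono (fun φ h => ?_)
    rw [hLm] at h
    have h2 : ((L ψ).filter (fun e => D.own (mix (m6I D) φ ψ) e =
        D.slot (mix (m6I D) φ ψ) c e.2)) = (L ψ).filter (fun e => D.own φ e = D.slot ψ c e.2) := by
      apply Finset.filter_congr
      intro e he
      have h3 : D.own (mix (m6I D) φ ψ) e = D.own φ e := by
        unfold Ctx.own
        rw [m6_mix_F D φ ψ e (hLF ψ he)]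
      have h4 : D.slot (mix (m6I D) φ ψ) c e.2 = D.slot ψ c e.2 :=
        m6_slot_congr D c e.2 (fun c' => m6_mix_inl D φ ψ _)
      rw [h3, h4]
    rw [h2] at h
    have h5 : ∑ e ∈ L ψ, ((if D.own φ e = D.slot ψ c e.2 then (1 : ℝ) else 0) - D.theta)
        = (((L ψ).filter (fun e => D.own φ e = D.slot ψ c e.2)).card : ℝ) - D.theta * f := by
      rw [sum_sub_distrib, sum_const, nsmul_eq_mul, ← Finset.sum_filter, sum_const, nsmul_eq_mul]
      ring
    rw [h5, lt_abs]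
    right
    have h6 := h.2
    linarith
  refine (hsub.trans key).trans ?_
  have h7 : (D.theta * f / 2) ^ 2 / (4 * (D.theta * f)) = D.theta * f / 16 := by
    field_simp
    ring
  rw [h7]
  -- numbers
  have h8 : (1 : ℝ) / (4 * D.n) ≤ D.theta := by
    refine le_trans ?_ hθn
    have : (1 : ℝ) ≤ (D.t : ℝ) ^ 20 := one_le_pow₀ (le_trans (by norm_num) ht)
    gcongr
  have h9 : 6 * (D.n : ℝ) * T.card ≤ D.theta * f / 16 := by
    have h10 : (1 : ℝ) / (4 * D.n) * ((D.n : ℝ) ^ 37 * T.card) ≤ D.theta * f := by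
      gcongr
    have h11 : (1 : ℝ) / (4 * D.n) * ((D.n : ℝ) ^ 37 * T.card) = (D.n : ℝ) ^ 35 * (D.n * T.card) / 4 := by
      have : (D.n : ℝ) ≠ 0 := by linarith
      field_simp
    have h12 : (384 : ℝ) ≤ (D.n : ℝ) ^ 35 := by
      calc (384 : ℝ) ≤ D.n := hn
        _ = (D.n : ℝ) ^ 1 := (pow_one _).symm
        _ ≤ (D.n : ℝ) ^ 35 := pow_le_pow_right₀ (by linarith) (by norm_num)
    rw [h11] at h10
    have h13 : (0 : ℝ) ≤ D.n * T.card := by positivity
    have h14 : 384 * (D.n * T.card : ℝ) ≤ (D.n : ℝ) ^ 35 * (D.n * T.card) :=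
      mul_le_mul_of_nonneg_right h12 h13
    nlinarith
  have h15 : (1 : ℝ) ≤ D.n * T.card := by nlinarith
  have h16 : (2 : ℝ) ≤ Real.exp (D.n * T.card) := by
    have := Real.add_one_le_exp (D.n * T.card : ℝ)
    linarith
  calc 2 * Real.exp (-(D.theta * f / 16))
      ≤ Real.exp (D.n * T.card) * Real.exp (-(6 * (D.n : ℝ) * T.card)) := by
        gcongr
    _ = Real.exp (-(5 * D.n * T.card)) := by
        rw [← Real.exp_add]
        congr 1
        ring

theorem mac6X_ok (hD : CtxOK D) (c : Fin D.B) : MacOK D (fun T φ => D.mac6X φ T c) := by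
  classical
  -- the private reserve edges are the owned ones
  have hRg : ∀ (φ : D.Lbl) (T : Finset (X ⊕ Y)),
      (D.Rg φ c).filter (fun e => e.1 ∈ cX (D.Pg φ c) D.n T ∧ e.2 ∉ cY (D.Pg φ c) D.n T)
      = (D.F.filter (fun e => e.1 ∈ cX (D.Pg φ c) D.n T ∧ e.1 ∉ D.O.OX c ∧
        e.2 ∈ D.Sin φ c ∧ e.2 ∉ cY (D.Pg φ c) D.n T ∧ D.slot φ c e.2 < D.s + 1)).filter
          (fun e => D.own φ e = D.slot φ c e.2) := by
    intro φ T
    ext e
    simp only [Ctx.Rg, Ctx.Pv, mem_filter]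
    constructor
    · rintro ⟨⟨h1, h2, h3, h4⟩, h5, h6⟩
      refine ⟨⟨h1, h5, h2, h3, h6, ?_⟩, h4⟩
      rw [← h4]
      exact (φ (.inr e)).2.2.2.isLt
    · rintro ⟨⟨h1, h5, h2, h3, h6, h7⟩, h4⟩
      exact ⟨⟨h1, h2, h3, h4⟩, h5, h6⟩
  refine ⟨?_, ?_, ?_⟩
  · intro φ h
    have h1 := h.2
    have h2 : D.F.filter (fun e => e.1 ∈ cX (D.Pg φ c) D.n (∅ : Finset (X ⊕ Y)) ∧ e.1 ∉ D.O.OX c ∧
        e.2 ∈ D.Sin φ c ∧ e.2 ∉ cY (D.Pg φ c) D.n (∅ : Finset (X ⊕ Y)) ∧ D.slot φ c e.2 < D.s + 1) = ∅ := by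
      apply Finset.filter_false_of_mem
      intro e _ h3
      rw [(cX_empty (D.Pg φ c) D.n).1] at h3
      exact absurd h3.1 (Finset.notMem_empty _)
    rw [hRg, h2] at h1
    simp at h1
  · intro T φ φ' h
    obtain ⟨hc1, hc2⟩ := m6_cX_congr D hD T φ φ' c h
    have hb := cX_ball D.H.G (D.Pg φ c) (m6_Pg_sub D hD φ c) D.n T
    have hset : D.F.filter (fun e => e.1 ∈ cX (D.Pg φ c) D.n T ∧ e.1 ∉ D.O.OX c ∧
        e.2 ∈ D.Sin φ c ∧ e.2 ∉ cY (D.Pg φ c) D.n T ∧ D.slot φ c e.2 < D.s + 1)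
        = D.F.filter (fun e => e.1 ∈ cX (D.Pg φ' c) D.n T ∧ e.1 ∉ D.O.OX c ∧
        e.2 ∈ D.Sin φ' c ∧ e.2 ∉ cY (D.Pg φ' c) D.n T ∧ D.slot φ' c e.2 < D.s + 1) := by
      rw [← hc1, ← hc2]
      apply Finset.filter_congr
      intro e heF
      have heG : e ∈ D.H.G := hD.res.sub heF
      by_cases h1 : e.1 ∈ cX (D.Pg φ c) D.n T
      · have h2 : Sum.inr e.2 ∈ ball D.H.G (rW + 1) T := (ball_edge D.H.G rW T e heG).1 (hb.1 _ h1)
        have h3 : ∀ c' : Fin D.B, φ (.inl (c', e.2)) = φ' (.inl (c', e.2)) := by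
          intro c'
          apply h
          simp only [supT, mem_filter, mem_univ, true_and]
          exact m6_ball_le (R := (rW + 1)) (R' := (rW + 5)) (by omega) h2
        rw [m6_Sin_congr D c e.2 (h3 c), m6_slot_congr D c e.2 h3]
      · simp only [h1, false_and]
    have hset2 : (D.F.filter (fun e => e.1 ∈ cX (D.Pg φ c) D.n T ∧ e.1 ∉ D.O.OX c ∧
        e.2 ∈ D.Sin φ c ∧ e.2 ∉ cY (D.Pg φ c) D.n T ∧ D.slot φ c e.2 < D.s + 1)).filter
          (fun e => D.own φ e = D.slot φ c e.2)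
        = (D.F.filter (fun e => e.1 ∈ cX (D.Pg φ c) D.n T ∧ e.1 ∉ D.O.OX c ∧
        e.2 ∈ D.Sin φ c ∧ e.2 ∉ cY (D.Pg φ c) D.n T ∧ D.slot φ c e.2 < D.s + 1)).filter
          (fun e => D.own φ' e = D.slot φ' c e.2) := by
      apply Finset.filter_congr
      intro e he
      have heF := (mem_filter.1 he).1
      have h1 := (mem_filter.1 he).2.1
      have heG : e ∈ D.H.G := hD.res.sub heF
      have h2 : Sum.inr e.2 ∈ ball D.H.G (rW + 1) T := (ball_edge D.H.G rW T e heG).1 (hb.1 _ h1)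
      have h3 : ∀ c' : Fin D.B, φ (.inl (c', e.2)) = φ' (.inl (c', e.2)) := by
        intro c'
        apply h
        simp only [supT, mem_filter, mem_univ, true_and]
        exact m6_ball_le (R := (rW + 1)) (R' := (rW + 5)) (by omega) h2
      have h4 : φ (.inr e) = φ' (.inr e) := by
        apply h
        simp only [supT, mem_filter, mem_univ, true_and]
        exact ⟨m6_ball_le (R := rW) (R' := (rW + 5)) (by omega) (hb.1 _ h1), heG⟩
      rw [m6_slot_congr D c e.2 h3]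
      unfold Ctx.own
      rw [h4]
    simp only [Ctx.mac6X]
    rw [hRg φ T, hRg φ' T, hset2, hset]
  · intro T hT
    have h1 := m6_prob D hD c T hT
      (fun φ => D.F.filter (fun e => e.1 ∈ cX (D.Pg φ c) D.n T ∧ e.1 ∉ D.O.OX c ∧
        e.2 ∈ D.Sin φ c ∧ e.2 ∉ cY (D.Pg φ c) D.n T ∧ D.slot φ c e.2 < D.s + 1))
      (fun φ => Finset.filter_subset _ _)
      (by
        intro φ ψ
        rw [m6_mix_Pg D hD φ ψ c]
        apply Finset.filter_congr
        intro e _
        rw [m6_Sin_congr D c e.2 (m6_mix_inl D φ ψ _), m6_slot_congr D c e.2 (fun c' => m6_mix_inl D φ ψ _)])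
      (by
        intro φ e he
        exact (mem_filter.1 he).2.2.2.2.2)
    refine le_trans (P_mono (fun φ h => ?_)) h1
    refine ⟨h.1, ?_⟩
    rw [← hRg φ T]
    exact h.2

end Pool.SCDH
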