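import Pool.Agent.Lib.SCDH.Defs
import Pool.Agent.Lib.SCDH.L01

/-!
# Row L05 (paper scd_h36.md)
Re-randomising one component of the labels.
Recipe: bijection of (V → K) × (V → Z) given by e on the coordinates in I and the identity on the others, as Lib2.E_mix is proved from swapEquiv; f ∘ (first component after the bijection) = f of the re-randomised labelling.
-/

set_option linter.unusedSectionVars false
set_option linter.unusedVariables false

namespace Pool.SCDH

open Finset Pool.MP_0ccee8_co.Lib2

variable {V K : Type} [Fintype V] [DecidableEq V] [Fintype K] [Nonempty K]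

private def reEquiv {Z : Type} (I : Finset V) (e : K × Z ≃ K × Z) :
    ((V → K) × (V → Z)) ≃ ((V → K) × (V → Z)) where
  toFun p := (fun v => if v ∈ I then (e (p.1 v, p.2 v)).1 else p.1 v,
    fun v => if v ∈ I then (e (p.1 v, p.2 v)).2 else p.2 v)
  invFun p := (fun v => if v ∈ I then (e.symm (p.1 v, p.2 v)).1 else p.1 v,
    fun v => if v ∈ I then (e.symm (p.1 v, p.2 v)).2 else p.2 v)
  left_inv p := by
    refine Prod.ext ?_ ?_
    · funext v
      by_cases h : v ∈ I
      · simp [h]
      · simp [h]
    · funext v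
      by_cases h : v ∈ I
      · simp [h]
      · simp [h]
  right_inv p := by
    refine Prod.ext ?_ ?_
    · funext v
      by_cases h : v ∈ I
      · simp [h]
      · simp [h]
    · funext v
      by_cases h : v ∈ I
      · simp [h]
      · simp [h]

theorem E_resample {Z : Type} [Fintype Z] [Nonempty Z] (I : Finset V) (r : K → Z → K) (e : K × Z ≃ K × Z)
    (he : ∀ k z, (e (k, z)).1 = r k z) (f : (V → K) → ℝ) :
    E (fun φ : V → K => E (fun ζ : V → Z => f (fun v => if v ∈ I then r (φ v) (ζ v) else φ v))) = E f := by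
  classical
  have hpos := card_pos' (V := V) (κ := Z)
  have hpos' := card_pos' (V := V) (κ := K)
  have h1 : ∑ p : (V → K) × (V → Z), f (fun v => if v ∈ I then r (p.1 v) (p.2 v) else p.1 v)
      = ∑ p : (V → K) × (V → Z), f p.1 := by
    refine Fintype.sum_equiv (reEquiv I e) _ _ (fun p => ?_)
    congr 1
    funext v
    change _ = if v ∈ I then (e (p.1 v, p.2 v)).1 else p.1 v
    rw [he]
  rw [Fintype.sum_prod_type' (f := fun (φ : V → K) (ζ : V → Z) =>
      f (fun v => if v ∈ I then r (φ v) (ζ v) else φ v)),
    Fintype.sum_prod_type' (f := fun (φ : V → K) (_ : V → Z) => f φ)] at h1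
  simp only [sum_const, card_univ, nsmul_eq_mul, ← mul_sum] at h1
  simp only [E, ← sum_div]
  rw [h1]
  field_simp

theorem P_resample {Z : Type} [Fintype Z] [Nonempty Z] (I : Finset V) (r : K → Z → K) (e : K × Z ≃ K × Z)
    (he : ∀ k z, (e (k, z)).1 = r k z) (A : (V → K) → Prop) (p : ℝ)
    (h : ∀ φ : V → K, P (fun ζ : V → Z => A (fun v => if v ∈ I then r (φ v) (ζ v) else φ v)) ≤ p) :
    P A ≤ p := by
  classical
  have h1 : P A = E (fun φ : V → K => P (fun ζ : V → Z =>
      A (fun v => if v ∈ I then r (φ v) (ζ v) else φ v))) := by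
    unfold P
    exact (E_resample I r e he (fun φ => if A φ then (1 : ℝ) else 0)).symm
  rw [h1]
  calc E (fun φ : V → K => P (fun ζ : V → Z =>
      A (fun v => if v ∈ I then r (φ v) (ζ v) else φ v))) ≤ E (fun _ : V → K => p) := E_mono h
    _ = p := E_const p

end Pool.SCDH
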