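import Pool.Agent.Lib.SCDH.MDefs
import Pool.Agent.Lib.SCDH.G01
import Pool.Agent.Lib.SCDH.G02
import Pool.Agent.Lib.SCDH.G03
import Pool.Agent.Lib.SCDH.G04
import Pool.Agent.Lib.SCDH.N01
import Pool.Agent.Lib.SCDH.N02
import Pool.Agent.Lib.SCDH.L01
import Pool.Agent.Lib.SCDH.L02
import Pool.Agent.Lib.SCDH.W01
import Pool.Agent.Lib.SCDH.W02
import Pool.Agent.Lib.SCDH.L05

/-!
# Row M7X (paper scd_h36.md)
mac7X: free vertices near the sets certified by Pg.
Recipe: Pg uses the in-labels (first component), the slots and the own-labels. CAREFUL: slot c y counts c' < c with y in Sin or Zs of c', so Pg depends on the free-labels of the colours c' < c at y, but NOT on the free-label of the colour c itself. The free-label and the in-label of colour c sit in the same variable inl (c,y). Use L05.P_resample with I = {inl (c,y)}, Z = Fin (z+1), r (a,_,b,s) z = (a,z,b,s): after the replacement Pg does not depend on ζ, and Zs = {y ∉ OY c : ζ = 0}. Then macro_rare for the fresh ζ (same I, K := Fin (z+1)): weights eB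 G A {y} ≤ n, total ≤ n|A|, sz = szT (Pg) n T constant in ζ.
-/

set_option linter.unusedSectionVars false
set_option linter.unusedVariables false

namespace Pool.SCDH

open Finset Pool.MP_0ccee8_co.Lib2

variable {X Y : Type} [Fintype X] [DecidableEq X] [Fintype Y] [DecidableEq Y]
variable (D : Ctx X Y)

attribute [local irreducible] rW ball

private theorem Pg_congr (c : Fin D.B) (φ φ' : D.Lbl) (e : X × Y)
    (h1 : ∀ c' : Fin D.B, c' ≤ c → (φ (.inl (c', e.2))).1 = (φ' (.inl (c', e.2))).1)
    (h2 : ∀ c' : Fin D.B, c' < c → (φ (.inl (c', e.2))).2.1 = (φ' (.inl (c', e.2))).2.1)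
    (h3 : (φ (.inr e)).2.2.2 = (φ' (.inr e)).2.2.2) : e ∈ D.Pg φ c ↔ e ∈ D.Pg φ' c := by
  have hSin : ∀ c' : Fin D.B, c' ≤ c → (e.2 ∈ D.Sin φ c' ↔ e.2 ∈ D.Sin φ' c') := by
    intro c' hc'
    unfold Ctx.Sin
    simp only [mem_filter, mem_univ, true_and, h1 c' hc']
  have hZs : ∀ c' : Fin D.B, c' < c → (e.2 ∈ D.Zs φ c' ↔ e.2 ∈ D.Zs φ' c') := by
    intro c' hc'
    unfold Ctx.Zs
    simp only [mem_filter, mem_univ, true_and, h2 c' hc']
  have hslot : D.slot φ c e.2 = D.slot φ' c e.2 := by
    unfold Ctx.slot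
    congr 1
    ext c'
    simp only [mem_filter, mem_univ, true_and]
    constructor
    · rintro ⟨h, h'⟩
      exact ⟨h, by rwa [← hSin c' h.le, ← hZs c' h]⟩
    · rintro ⟨h, h'⟩
      exact ⟨h, by rwa [hSin c' h.le, hZs c' h]⟩
  have hown : D.own φ e = D.own φ' e := by
    unfold Ctx.own
    rw [h3]
  unfold Ctx.Pg Ctx.Pv
  rw [mem_filter, mem_filter, hSin c le_rfl, hslot, hown]

theorem mac7X_ok (hD : CtxOK D) (c : Fin D.B) : MacOK D (fun T φ => D.mac7X φ T c) := by
  classical
  have hsub : ∀ φ : D.Lbl, D.Pg φ c ⊆ D.H.G := by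
    intro φ e he
    unfold Ctx.Pg Ctx.Pv at he
    exact hD.bulk.sub (mem_filter.1 he).1
  have hn1 := ctx_n D hD
  have ht1 := ctx_t D hD
  have hn3 : (3 : ℝ) ≤ D.n := by
    have h1 : (1 : ℝ) ≤ (D.t : ℝ) := le_trans (by norm_num) ht1.1
    have h2 : (D.t : ℝ) ≤ (D.t : ℝ) ^ 200 := le_self_pow₀ h1 (by norm_num)
    have h3 : (3 : ℝ) ≤ (10 : ℝ) ^ 100 := by norm_num
    linarith [ht1.1, hn1.1]
  have hn3' : 3 ≤ D.n := by exact_mod_cast hn3
  refine ⟨?_, ?_, ?_⟩
  · intro φ h
    unfold Ctx.mac7X szT at h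
    rw [(cX_empty (D.Pg φ c) D.n).1, (cX_empty (D.Pg φ c) D.n).2] at h
    simp at h
  · intro T φ φ' hφ
    have hv : ∀ (c' : Fin D.B) (y : Y), Sum.inr y ∈ ball D.H.G (rW + 5) T →
        φ (.inl (c', y)) = φ' (.inl (c', y)) := by
      intro c' y hy
      apply hφ
      unfold supT
      simp only [mem_filter, mem_univ, true_and]
      exact hy
    have he : ∀ (x : X) (y : Y), Sum.inl x ∈ ball D.H.G (rW + 5) T → (x, y) ∈ D.H.G →
        φ (.inr (x, y)) = φ' (.inr (x, y)) := by
      intro x y hx hxy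
      apply hφ
      unfold supT
      simp only [mem_filter, mem_univ, true_and]
      exact ⟨hx, hxy⟩
    have hloc : ∀ e : X × Y, (Sum.inl e.1 ∈ ball D.H.G rW T ∨ Sum.inr e.2 ∈ ball D.H.G rW T) →
        (e ∈ D.Pg φ c ↔ e ∈ D.Pg φ' c) := by
      intro e hb
      by_cases heG : e ∈ D.H.G
      · have hb1 : Sum.inl e.1 ∈ ball D.H.G (rW + 5) T := by
          rcases hb with hb | hb
          · exact ball_mono D.H.G rW (rW + 5) (by omega) T T (Subset.refl _) hb
          · exact ball_mono D.H.G (rW + 1) (rW + 5) (by omega) T T (Subset.refl _)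
              ((ball_edge D.H.G rW T e heG).2 hb)
        have hb2 : Sum.inr e.2 ∈ ball D.H.G (rW + 5) T := by
          rcases hb with hb | hb
          · exact ball_mono D.H.G (rW + 1) (rW + 5) (by omega) T T (Subset.refl _)
              ((ball_edge D.H.G rW T e heG).1 hb)
          · exact ball_mono D.H.G rW (rW + 5) (by omega) T T (Subset.refl _) hb
        exact Pg_congr D c φ φ' e (fun c' _ => by rw [hv c' e.2 hb2])
          (fun c' _ => by rw [hv c' e.2 hb2]) (by
            have := he e.1 e.2 hb1 heG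
            rw [Prod.mk.eta] at this
            rw [this])
      · constructor
        · intro h; exact absurd (hsub φ h) heG
        · intro h; exact absurd (hsub φ' h) heG
    obtain ⟨h1, h2⟩ := cX_local D.H.G (D.Pg φ c) (D.Pg φ' c) (hsub φ) (hsub φ') D.n T hloc
    have h3 : ∀ x ∈ cX (D.Pg φ' c) D.n T, eB D.H.G {x} (D.Zs φ c) = eB D.H.G {x} (D.Zs φ' c) := by
      intro x hx
      have hxb := (cX_ball D.H.G (D.Pg φ' c) (hsub φ') D.n T).1 x hx
      unfold eB
      congr 1
      ext e
      simp only [mem_filter, mem_singleton, and_congr_right_iff]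
      intro heG hex
      have hb2 : Sum.inr e.2 ∈ ball D.H.G (rW + 5) T := by
        refine ball_mono D.H.G (rW + 1) (rW + 5) (by omega) T T (Subset.refl _)
              ((ball_edge D.H.G rW T e heG).1 ?_)
        rw [hex]
        exact hxb
      unfold Ctx.Zs
      simp only [mem_filter, mem_univ, true_and, hv c e.2 hb2]
    change D.mac7X φ T c = D.mac7X φ' T c
    unfold Ctx.mac7X szT
    rw [h1, h2, sum_congr rfl fun x hx => by rw [h3 x hx]]
  · intro T hT
    -- resample the free labels of the colour `c`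
    set I : Finset D.Var := univ.filter (fun w => ∃ y, w = Sum.inl (c, y)) with hI
    let e : D.Lab × Fin (D.z + 1) ≃ D.Lab × Fin (D.z + 1) :=
      { toFun := fun p => ((p.1.1, p.2, p.1.2.2.1, p.1.2.2.2), p.1.2.1)
        invFun := fun p => ((p.1.1, p.2, p.1.2.2.1, p.1.2.2.2), p.1.2.1)
        left_inv := fun p => rfl
        right_inv := fun p => rfl }
    refine P_resample I (fun (k : D.Lab) (z : Fin (D.z + 1)) => ((k.1, z, k.2.2.1, k.2.2.2) : D.Lab)) e
      (fun k z => rfl) _ _ fun φ => ?_
    set A := cX (D.Pg φ c) D.n T with hA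
    set S := szT (D.Pg φ c) D.n T with hS
    have hPg : ∀ ζ : D.Var → Fin (D.z + 1),
        D.Pg (fun v => if v ∈ I then ((φ v).1, ζ v, (φ v).2.2.1, (φ v).2.2.2) else φ v) c =
          D.Pg φ c := by
      intro ζ
      ext e
      refine Pg_congr D c _ φ e (fun c' _ => ?_) (fun c' hc' => ?_) ?_
      · change (if _ then _ else _ : D.Lab).1 = _
        split_ifs <;> rfl
      · have : (Sum.inl (c', e.2) : D.Var) ∉ I := by
          rw [hI, mem_filter]
          rintro ⟨-, y, hy⟩
          rw [Sum.inl.injEq, Prod.mk.injEq] at hy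
          exact hc'.ne hy.1
        simp only [if_neg this]
      · have : (Sum.inr e : D.Var) ∉ I := by
          rw [hI, mem_filter]
          rintro ⟨-, y, hy⟩
          exact absurd hy (by simp)
        simp only [if_neg this]
    have hZ : ∀ (ζ : D.Var → Fin (D.z + 1)) (y : Y),
        y ∈ D.Zs (fun v => if v ∈ I then ((φ v).1, ζ v, (φ v).2.2.1, (φ v).2.2.2) else φ v) c ↔
          y ∉ D.O.OY c ∧ ζ (.inl (c, y)) = 0 := by
      intro ζ y
      unfold Ctx.Zs
      have : (Sum.inl (c, y) : D.Var) ∈ I := by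
        rw [hI, mem_filter]
        exact ⟨mem_univ _, y, rfl⟩
      simp only [mem_filter, mem_univ, true_and, if_pos this]
      rw [Fin.ext_iff]
      rfl
    have hsumI : ∀ g : D.Var → ℝ, ∑ b ∈ I, g b = ∑ y : Y, g (.inl (c, y)) := by
      intro g
      symm
      refine sum_bij (fun y _ => (Sum.inl (c, y) : D.Var)) ?_ ?_ ?_ ?_
      · intro y _
        rw [hI, mem_filter]
        exact ⟨mem_univ _, y, rfl⟩
      · intro y _ y' _ h
        rw [Sum.inl.injEq, Prod.mk.injEq] at h
        exact h.2
      · intro b hb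
        rw [hI, mem_filter] at hb
        obtain ⟨-, y, rfl⟩ := hb
        exact ⟨y, mem_univ _, rfl⟩
      · intro y _
        rfl
    have hk1 : 1 ≤ T.card := hT.card_pos
    let w : D.Var → (D.Var → Fin (D.z + 1)) → ℝ := fun b _ =>
      match b with
      | .inl (_, y) => if y ∉ D.O.OY c then (eB D.H.G A {y} : ℝ) else 0
      | .inr _ => 0
    have hSpos : (D.n : ℝ) ^ 40 * T.card ≤ S := by
      rw [hS]
      unfold szT Nτ
      push_cast
      have h1 : (0 : ℝ) ≤ ((cX (D.Pg φ c) D.n T).card : ℝ) := by positivity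
      have h2 : (0 : ℝ) ≤ ((cY (D.Pg φ c) D.n T).card : ℝ) := by positivity
      linarith
    have hS0 : 0 ≤ S := le_trans (by positivity) hSpos
    have hmain := macro_rare (V := D.Var) (K := Fin (D.z + 1)) D.n T.card hn3' hk1 I
      (fun b ζ => ζ b = 0) w
      (by
        intro b hb ψ ζ ζ' h
        simp only [mix, if_pos hb]
        rw [h b (mem_singleton_self b)])
      (fun b _ _ _ => rfl)
      (by
        intro b hb ψ
        rcases b with ⟨c', y⟩ | b
        · change (0 : ℝ) ≤ if y ∉ D.O.OY c then (eB D.H.G A {y} : ℝ) else 0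
          split_ifs <;> positivity
        · exact le_rfl)
      (by
        intro b hb ψ
        have h7 : (D.n : ℝ) ≤ (D.n : ℝ) ^ 7 := le_self_pow₀ (by linarith) (by norm_num)
        rcases b with ⟨c', y⟩ | b
        · change (if y ∉ D.O.OY c then (eB D.H.G A {y} : ℝ) else 0) ≤ _
          by_cases hy : y ∈ D.O.OY c
          · rw [if_neg (not_not.2 hy)]
            positivity
          · rw [if_pos hy]
            have h1 : eB D.H.G A {y} ≤ eB D.H.G univ {y} :=
              eB_mono _ _ (Subset.refl _) _ _ (subset_univ _) _ _ (Subset.refl _)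
            have h2 : eB D.H.G univ {y} = D.κ := D.H.degY y
            have h3 : D.κ ≤ D.n := le_trans D.H.hκd D.H.hd2
            have h4 : ((eB D.H.G A {y} : ℕ) : ℝ) ≤ D.n := by
              exact_mod_cast (h1.trans h2.le).trans h3
            linarith
        · change (0 : ℝ) ≤ _
          positivity)
      (by
        intro b hb ψ
        have h1 : (fun ζ : D.Var → Fin (D.z + 1) => mix I ζ ψ b = 0) =
            fun ζ => ζ b ∈ ({0} : Finset (Fin (D.z + 1))) := by
          funext ζ
          simp only [mix, if_pos hb, mem_singleton]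
        rw [h1, P_coord]
        rw [card_singleton, Fintype.card_fin, hD.hz]
        push_cast
        exact le_rfl)
      (fun _ => S) (fun _ _ => rfl) (fun _ => hSpos)
      (by
        intro ψ
        have h1 : ∑ b ∈ I, w b ψ ≤ ∑ y : Y, (eB D.H.G A {y} : ℝ) := by
          rw [hsumI]
          refine sum_le_sum fun y _ => ?_
          change (if y ∉ D.O.OY c then (eB D.H.G A {y} : ℝ) else 0) ≤ _
          by_cases hy : y ∈ D.O.OY c
          · rw [if_neg (not_not.2 hy)]
            positivity
          · rw [if_pos hy]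
        refine h1.trans ?_
        have h3 : (∑ y : Y, (eB D.H.G A {y} : ℝ)) = (eB D.H.G A univ : ℝ) := by
          rw [eB_sumY D.H.G A univ]
          push_cast
          rfl
        rw [h3, eB_sumX D.H.G A univ]
        push_cast
        have h4 : (∑ x ∈ A, (eB D.H.G {x} univ : ℝ)) = A.card * D.d := by
          rw [sum_congr rfl fun x _ => by
            rw [show eB D.H.G {x} univ = D.d from D.H.degX x], sum_const, nsmul_eq_mul]
        rw [h4]
        have h5 : (A.card : ℝ) ≤ S := by
          rw [hS]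
          unfold szT
          have h1 : (0 : ℝ) ≤ ((cY (D.Pg φ c) D.n T).card : ℝ) := by positivity
          have h2 : (0 : ℝ) ≤ (Nτ D.n : ℝ) * T.card := by positivity
          linarith
        have h6 : (D.d : ℝ) ≤ D.n := by exact_mod_cast D.H.hd2
        have h8 : (D.n : ℝ) ≤ (D.n : ℝ) ^ 8 := le_self_pow₀ (by linarith) (by norm_num)
        calc (A.card : ℝ) * D.d ≤ S * D.n := mul_le_mul h5 h6 (by positivity) hS0
          _ ≤ S * (D.n : ℝ) ^ 8 := mul_le_mul_of_nonneg_left h8 hS0
          _ = _ := by ring)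
    refine le_trans (P_mono fun ζ hζ => ?_) (hmain.trans ?_)
    · unfold Ctx.mac7X at hζ
      rw [hPg ζ] at hζ
      have e1 : S / (D.n : ℝ) ^ 6 = lam D.n * szT (D.Pg φ c) D.n T := by
        unfold lam
        rw [hS]
        ring
      change S / (D.n : ℝ) ^ 6 < ∑ b ∈ I, if ζ b = 0 then w b ζ else 0
      rw [e1]
      refine lt_of_lt_of_le hζ (le_of_eq ?_)
      rw [hsumI]
      have h3 : (∑ x ∈ A, (eB D.H.G {x} (D.Zs (fun v => if v ∈ I then
          ((φ v).1, ζ v, (φ v).2.2.1, (φ v).2.2.2) else φ v) c) : ℝ)) =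
          (eB D.H.G A (D.Zs (fun v => if v ∈ I then
          ((φ v).1, ζ v, (φ v).2.2.1, (φ v).2.2.2) else φ v) c) : ℝ) := by
        rw [eB_sumX D.H.G A]
        push_cast
        rfl
      have h4 := h3
      rw [eB_sumY D.H.G A] at h4
      push_cast at h4
      rw [h4, ← sum_filter_add_sum_filter_not univ (fun y => y ∉ D.O.OY c ∧ ζ (.inl (c, y)) = 0)
        (fun y => if ζ (.inl (c, y)) = 0 then w (.inl (c, y)) ζ else 0)]
      have h5 : ∑ y ∈ univ.filter (fun y => ¬ (y ∉ D.O.OY c ∧ ζ (.inl (c, y)) = 0)),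
          (if ζ (.inl (c, y)) = 0 then w (.inl (c, y)) ζ else 0) = 0 := by
        refine sum_eq_zero fun y hy => ?_
        have hy' := (mem_filter.1 hy).2
        split_ifs with h6
        · change (if y ∉ D.O.OY c then (eB D.H.G A {y} : ℝ) else 0) = 0
          rw [if_neg]
          intro h7
          exact hy' ⟨h7, h6⟩
        · rfl
      rw [h5, add_zero]
      refine sum_congr ?_ fun y hy => ?_
      · ext y
        rw [hZ, mem_filter]
        simp
      · have hy' := (mem_filter.1 hy).2
        rw [if_pos hy'.2]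
        change _ = if y ∉ D.O.OY c then (eB D.H.G A {y} : ℝ) else 0
        rw [if_pos hy'.1]
    · rw [Real.exp_le_exp]
      have : (0 : ℝ) ≤ D.n * T.card := by positivity
      nlinarith

end Pool.SCDH
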