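import Pool.Agent.Lib.SCDH.MDefs
import Pool.Agent.Lib.SCDH.G01
import Pool.Agent.Lib.SCDH.G02
import Pool.Agent.Lib.SCDH.G03
import Pool.Agent.Lib.SCDH.G04
import Pool.Agent.Lib.SCDH.N01
import Pool.Agent.Lib.SCDH.N02
import Pool.Agent.Lib.SCDH.L01
import Pool.Agent.Lib.SCDH.L02
import Pool.Agent.Lib.SCDH.W01
import Pool.Agent.Lib.SCDH.W02
import Pool.Agent.Lib.SCDH.L05

/-!
# Row M7Y (paper scd_h36.md)
mac7Y: ∑ of vZ over cY (Pg) n T.
Recipe: as M7X with weights #{y ∈ cY : y, y' have a common G-neighbour} ≤ n², total ≤ n²|cY|.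
-/

set_option linter.unusedSectionVars false
set_option linter.unusedVariables false

namespace Pool.SCDH

open Finset Pool.MP_0ccee8_co.Lib2

variable {X Y : Type} [Fintype X] [DecidableEq X] [Fintype Y] [DecidableEq Y]
variable (D : Ctx X Y)

attribute [local irreducible] ball

section aux

private theorem nbrY_card {n d κ : ℕ} (H : Host X Y n d κ) (x : X) :
    (univ.filter (fun y => (x, y) ∈ H.G)).card ≤ d := by
  refine le_trans ?_ (H.degX x).le
  rw [dgX, eB]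
  refine card_le_card_of_injOn (fun y => (x, y)) (fun y hy => ?_) (fun y _ y' _ h => ?_)
  · have hy' : (x, y) ∈ H.G := (mem_filter.1 (mem_coe.1 hy)).2
    simp [hy']
  · exact (Prod.mk.inj h).2

private theorem nbrX_card {n d κ : ℕ} (H : Host X Y n d κ) (y : Y) :
    (univ.filter (fun x => (x, y) ∈ H.G)).card ≤ κ := by
  refine le_trans ?_ (H.degY y).le
  rw [dgY, eB]
  refine card_le_card_of_injOn (fun x => (x, y)) (fun x hx => ?_) (fun x _ x' _ h => ?_)
  · have hx' : (x, y) ∈ H.G := (mem_filter.1 (mem_coe.1 hx)).2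
    simp [hx']
  · exact (Prod.mk.inj h).1

private theorem two_card {n d κ : ℕ} (H : Host X Y n d κ) (y' : Y) (N : Finset Y) :
    (N.filter (fun y => ∃ x, (x, y) ∈ H.G ∧ (x, y') ∈ H.G)).card ≤ n ^ 2 := by
  classical
  have h1 : N.filter (fun y => ∃ x, (x, y) ∈ H.G ∧ (x, y') ∈ H.G) ⊆
      (univ.filter (fun x => (x, y') ∈ H.G)).biUnion
        (fun x => univ.filter (fun y => (x, y) ∈ H.G)) := by
    intro y hy
    obtain ⟨x, h2, h3⟩ := (mem_filter.1 hy).2
    exact mem_biUnion.2 ⟨x, mem_filter.2 ⟨mem_univ _, h3⟩, mem_filter.2 ⟨mem_univ _, h2⟩⟩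
  refine (card_le_card h1).trans ((card_biUnion_le_card_mul _ _ d fun x _ => nbrY_card H x).trans ?_)
  have h2 := nbrX_card H y'
  have h3 := H.hκd
  have h4 := H.hd2
  calc _ ≤ n * n := Nat.mul_le_mul (h2.trans (h3.trans h4)) h4
    _ = n ^ 2 := (sq n).symm

private theorem two_card' {n d κ : ℕ} (H : Host X Y n d κ) (y : Y) (N : Finset Y) :
    (N.filter (fun y' => ∃ x, (x, y) ∈ H.G ∧ (x, y') ∈ H.G)).card ≤ n ^ 2 := by
  have h := two_card H y N
  have e : N.filter (fun y' => ∃ x, (x, y) ∈ H.G ∧ (x, y') ∈ H.G) =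
      N.filter (fun y' => ∃ x, (x, y') ∈ H.G ∧ (x, y) ∈ H.G) :=
    filter_congr fun y' _ => exists_congr fun x => and_comm
  rw [e]
  exact h

private theorem near_aux (G : Finset (X × Y)) (R : ℕ) (T : Finset (X ⊕ Y)) (e : X × Y)
    (he : e ∈ G) (h : Sum.inl e.1 ∈ ball G R T ∨ Sum.inr e.2 ∈ ball G R T) :
    Sum.inl e.1 ∈ ball G (R + 5) T ∧ Sum.inr e.2 ∈ ball G (R + 5) T := by
  have hb := ball_edge G R T e he
  rcases h with h | h
  · exact ⟨ball_mono G R (R + 5) (by omega) T T subset_rfl h,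
      ball_mono G (R + 1) (R + 5) (by omega) T T subset_rfl (hb.1 h)⟩
  · exact ⟨ball_mono G (R + 1) (R + 5) (by omega) T T subset_rfl (hb.2 h),
      ball_mono G R (R + 5) (by omega) T T subset_rfl h⟩

private theorem near_aux2 (G : Finset (X × Y)) (R : ℕ) (T : Finset (X ⊕ Y)) (x : X) (y y' : Y)
    (h1 : (x, y) ∈ G) (h2 : (x, y') ∈ G) (h : Sum.inr y ∈ ball G R T) :
    Sum.inr y' ∈ ball G (R + 5) T := by
  have h8 := (ball_edge G R T (x, y) h1).2 h
  have h9 := (ball_edge G (R + 1) T (x, y') h2).1 h8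
  exact ball_mono G (R + 1 + 1) (R + 5) (by omega) T T subset_rfl h9

private theorem mem_sup_inl {T : Finset (X ⊕ Y)} {c : Fin D.B} {y : Y}
    (h : Sum.inr y ∈ ball D.H.G (rW + 5) T) : (Sum.inl (c, y) : D.Var) ∈ supT D.B D.H.G T := by
  classical
  rw [supT, mem_filter]
  refine ⟨mem_univ _, ?_⟩
  generalize ball D.H.G (rW + 5) T = W at h ⊢
  exact h

private theorem mem_sup_inr {T : Finset (X ⊕ Y)} {e : X × Y}
    (h : Sum.inl e.1 ∈ ball D.H.G (rW + 5) T) (he : e ∈ D.H.G) :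
    (Sum.inr e : D.Var) ∈ supT D.B D.H.G T := by
  classical
  rw [supT, mem_filter]
  refine ⟨mem_univ _, ?_⟩
  generalize ball D.H.G (rW + 5) T = W at h ⊢
  exact ⟨h, he⟩

private theorem Sin_iff {φ ψ : D.Lbl} {c : Fin D.B} {y : Y}
    (h : φ (.inl (c, y)) = ψ (.inl (c, y))) : y ∈ D.Sin φ c ↔ y ∈ D.Sin ψ c := by
  simp only [Ctx.Sin, mem_filter, mem_univ, true_and, h]

private theorem Zs_iff {φ ψ : D.Lbl} {c : Fin D.B} {y : Y}
    (h : φ (.inl (c, y)) = ψ (.inl (c, y))) : y ∈ D.Zs φ c ↔ y ∈ D.Zs ψ c := by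
  simp only [Ctx.Zs, mem_filter, mem_univ, true_and, h]

private theorem slot_eq {φ ψ : D.Lbl} (c : Fin D.B) {y : Y}
    (h : ∀ c', φ (.inl (c', y)) = ψ (.inl (c', y))) : D.slot φ c y = D.slot ψ c y := by
  rw [Ctx.slot, Ctx.slot]
  congr 1
  refine filter_congr fun c' _ => ?_
  rw [Sin_iff D (h c'), Zs_iff D (h c')]

private theorem Pg_iff (hD : CtxOK D) {φ ψ : D.Lbl} (c : Fin D.B) (T : Finset (X ⊕ Y))
    (h : ∀ v ∈ supT D.B D.H.G T, φ v = ψ v) (e : X × Y)
    (he : Sum.inl e.1 ∈ ball D.H.G rW T ∨ Sum.inr e.2 ∈ ball D.H.G rW T) :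
    e ∈ D.Pg φ c ↔ e ∈ D.Pg ψ c := by
  by_cases heH : e ∈ D.Hb
  · have heG : e ∈ D.H.G := hD.bulk.sub heH
    obtain ⟨h1, h2⟩ := near_aux D.H.G rW T e heG he
    have h3 : ∀ c', φ (.inl (c', e.2)) = ψ (.inl (c', e.2)) := fun c' =>
      h _ (mem_sup_inl D h2)
    have h4 : φ (.inr e) = ψ (.inr e) := h _ (mem_sup_inr D h1 heG)
    have h5 := slot_eq D c h3
    simp only [Ctx.Pg, Ctx.Pv, mem_filter, Ctx.own]
    rw [Sin_iff D (h3 c), h4, h5]
  · simp only [Ctx.Pg, Ctx.Pv, mem_filter, heH, false_and]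

/-- the variables which carry the free labels of the colour `c` -/
private noncomputable def IV (c : Fin D.B) : Finset D.Var := by
  classical
  exact univ.image (fun y : Y => (Sum.inl (c, y) : D.Var))

private theorem mem_IV {c : Fin D.B} {v : D.Var} : v ∈ IV D c ↔ ∃ y, v = .inl (c, y) := by
  classical
  simp only [IV, mem_image, mem_univ, true_and]
  exact exists_congr fun y => eq_comm

private theorem sum_IV (c : Fin D.B) (f : D.Var → ℝ) :
    ∑ b ∈ IV D c, f b = ∑ y, f (.inl (c, y)) := by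
  classical
  rw [IV, sum_image]
  intro y _ y' _ h
  exact (Prod.mk.inj (Sum.inl.inj h)).2

/-- replace the free label -/
private def rz (k : D.Lab) (z : Fin (D.z + 1)) : D.Lab := (k.1, z, k.2.2.1, k.2.2.2)

private def eqz : D.Lab × Fin (D.z + 1) ≃ D.Lab × Fin (D.z + 1) where
  toFun p := (rz D p.1 p.2, p.1.2.1)
  invFun p := (rz D p.1 p.2, p.1.2.1)
  left_inv p := rfl
  right_inv p := rfl

private noncomputable def upd (c : Fin D.B) (φ : D.Lbl) (ζ : D.Var → Fin (D.z + 1)) : D.Lbl :=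
  fun v => if v ∈ IV D c then rz D (φ v) (ζ v) else φ v

private theorem upd_1 (c : Fin D.B) (φ : D.Lbl) (ζ : D.Var → Fin (D.z + 1)) (v : D.Var) :
    (upd D c φ ζ v).1 = (φ v).1 := by
  rw [upd]; split_ifs <;> rfl

private theorem upd_22 (c : Fin D.B) (φ : D.Lbl) (ζ : D.Var → Fin (D.z + 1)) (v : D.Var) :
    (upd D c φ ζ v).2.2 = (φ v).2.2 := by
  rw [upd]; split_ifs <;> rfl

private theorem upd_out {c c' : Fin D.B} (h : c' ≠ c) (φ : D.Lbl) (ζ : D.Var → Fin (D.z + 1))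
    (y : Y) : upd D c φ ζ (.inl (c', y)) = φ (.inl (c', y)) := by
  rw [upd, if_neg]
  rw [mem_IV]
  rintro ⟨y', h'⟩
  exact h (Prod.mk.inj (Sum.inl.inj h')).1

private theorem upd_in (c : Fin D.B) (φ : D.Lbl) (ζ : D.Var → Fin (D.z + 1)) (y : Y) :
    (upd D c φ ζ (.inl (c, y))).2.1 = ζ (.inl (c, y)) := by
  rw [upd, if_pos ((mem_IV D).2 ⟨y, rfl⟩)]
  rfl

private theorem Sin_upd (c : Fin D.B) (φ : D.Lbl) (ζ : D.Var → Fin (D.z + 1)) (c' : Fin D.B) :
    D.Sin (upd D c φ ζ) c' = D.Sin φ c' := by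
  rw [Ctx.Sin, Ctx.Sin]
  refine filter_congr fun y _ => ?_
  rw [upd_1]

private theorem slot_upd (c : Fin D.B) (φ : D.Lbl) (ζ : D.Var → Fin (D.z + 1)) (y : Y) :
    D.slot (upd D c φ ζ) c y = D.slot φ c y := by
  rw [Ctx.slot, Ctx.slot]
  congr 1
  refine filter_congr fun c' _ => ?_
  refine and_congr_right fun hc => ?_
  rw [Sin_upd, Zs_iff D (upd_out D hc.ne φ ζ y)]

private theorem Pg_upd (c : Fin D.B) (φ : D.Lbl) (ζ : D.Var → Fin (D.z + 1)) :
    D.Pg (upd D c φ ζ) c = D.Pg φ c := by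
  rw [Ctx.Pg, Ctx.Pg, Ctx.Pv, Ctx.Pv, Sin_upd]
  refine filter_congr fun e _ => ?_
  rw [slot_upd, Ctx.own, Ctx.own, upd_22]

/-- second neighbours -/
private noncomputable def nn (N : Finset Y) (y' : Y) : ℕ :=
  (N.filter (fun y => ∃ x, (x, y) ∈ D.H.G ∧ (x, y') ∈ D.H.G)).card

private def AV (c : Fin D.B) (b : D.Var) (ζ : D.Var → Fin (D.z + 1)) : Prop :=
  (∃ y', b = .inl (c, y') ∧ y' ∉ D.O.OY c) ∧ (ζ b : ℕ) = 0

private noncomputable def wV (N : Finset Y) (b : D.Var) : ℝ :=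
  match b with
  | .inl (_, y') => (nn D N y' : ℝ)
  | .inr _ => 0

open Classical in
private theorem sum_vZ (c : Fin D.B) (φ : D.Lbl) (ζ : D.Var → Fin (D.z + 1)) (N : Finset Y) :
    ∑ y ∈ N, (D.vZ (upd D c φ ζ) c y : ℝ) =
      ∑ b ∈ IV D c, if AV D c b ζ then wV D N b else 0 := by
  rw [sum_IV]
  have h1 : ∀ y, (D.vZ (upd D c φ ζ) c y : ℝ) = ∑ y' : Y,
      if (y' ∉ D.O.OY c ∧ (ζ (.inl (c, y')) : ℕ) = 0) ∧
        (∃ x, (x, y) ∈ D.H.G ∧ (x, y') ∈ D.H.G) then (1 : ℝ) else 0 := by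
    intro y
    rw [sum_boole, Ctx.vZ, Ctx.Zs, filter_filter]
    congr 2
    refine filter_congr fun y' _ => ?_
    rw [upd_in]
  have h2 : ∀ y', (if AV D c (.inl (c, y')) ζ then wV D N (.inl (c, y')) else 0) =
      ∑ y ∈ N, if (y' ∉ D.O.OY c ∧ (ζ (.inl (c, y')) : ℕ) = 0) ∧
        (∃ x, (x, y) ∈ D.H.G ∧ (x, y') ∈ D.H.G) then (1 : ℝ) else 0 := by
    intro y'
    have h3 : AV D c (.inl (c, y')) ζ ↔ (y' ∉ D.O.OY c ∧ (ζ (.inl (c, y')) : ℕ) = 0) := by
      rw [AV]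
      refine and_congr_left fun _ => ⟨?_, fun h => ⟨y', rfl, h⟩⟩
      rintro ⟨y'', h4, h5⟩
      rw [(Prod.mk.inj (Sum.inl.inj h4)).2]
      exact h5
    by_cases h4 : y' ∉ D.O.OY c ∧ (ζ (.inl (c, y')) : ℕ) = 0
    · rw [if_pos (h3.2 h4)]
      simp only [h4, true_and, not_false_eq_true, and_self]
      rw [sum_boole]
      rfl
    · rw [if_neg (fun h => h4 (h3.1 h))]
      simp only [h4, false_and, if_false, sum_const_zero]
  rw [sum_congr rfl fun y _ => h1 y, sum_congr rfl fun y _ => h2 y, sum_comm]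

end aux

theorem mac7Y_ok (hD : CtxOK D) (c : Fin D.B) : MacOK D (fun T φ => D.mac7Y φ T c) := by
  classical
  refine ⟨?_, ?_, ?_⟩
  · intro φ h
    have h1 := cX_empty (D.Pg φ c) D.n
    rw [Ctx.mac7Y, szT, h1.1, h1.2] at h
    simp at h
  · intro T φ ψ h
    have hsubφ : D.Pg φ c ⊆ D.H.G := (filter_subset _ _).trans hD.bulk.sub
    have hsubψ : D.Pg ψ c ⊆ D.H.G := (filter_subset _ _).trans hD.bulk.sub
    have h1 := cX_local D.H.G (D.Pg φ c) (D.Pg ψ c) hsubφ hsubψ D.n T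
      (fun e he => Pg_iff D hD c T h e he)
    have h2 : szT (D.Pg φ c) D.n T = szT (D.Pg ψ c) D.n T := by
      rw [szT, szT, h1.1, h1.2]
    have h3 : ∑ y ∈ cY (D.Pg φ c) D.n T, (D.vZ φ c y : ℝ) =
        ∑ y ∈ cY (D.Pg ψ c) D.n T, (D.vZ ψ c y : ℝ) := by
      rw [← h1.2]
      refine sum_congr rfl fun y hy => ?_
      have h4 := (cX_ball D.H.G (D.Pg φ c) hsubφ D.n T).2 y hy
      rw [Ctx.vZ, Ctx.vZ]
      congr 2
      ext y'
      rw [mem_filter, mem_filter]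
      refine and_congr_left fun h5 => ?_
      obtain ⟨x, h6, h7⟩ := h5
      have h10 := near_aux2 D.H.G rW T x y y' h6 h7 h4
      exact Zs_iff D (h _ (mem_sup_inl D h10))
    change D.mac7Y φ T c = D.mac7Y ψ T c
    rw [Ctx.mac7Y, Ctx.mac7Y, h2, h3]
  · intro T hT
    have ht := ctx_t D hD
    have hn := ctx_n D hD
    have ht1 : (1 : ℝ) ≤ D.t := le_trans (by norm_num) ht.1
    have hn3 : (3 : ℝ) ≤ D.n := by
      refine le_trans ?_ hn.1
      refine le_trans (le_trans (by norm_num) ht.1) (le_self_pow₀ ht1 (by norm_num))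
    have hn3' : 3 ≤ D.n := by exact_mod_cast hn3
    have hn1 : (1 : ℝ) ≤ D.n := by linarith
    have hz : (D.z : ℝ) + 1 = (D.n : ℝ) ^ 20 := by
      exact_mod_cast hD.hz
    refine P_resample (IV D c) (rz D) (eqz D) (fun k z => rfl) _ _ fun φ => ?_
    obtain ⟨N, hN⟩ : ∃ N, N = cY (D.Pg φ c) D.n T := ⟨_, rfl⟩
    obtain ⟨S, hS⟩ : ∃ S, S = szT (D.Pg φ c) D.n T := ⟨_, rfl⟩
    have hS1 : (D.n : ℝ) ^ 40 * T.card ≤ S := by
      rw [hS, szT, Nτ]
      push_cast
      have h1 : (0 : ℝ) ≤ ((cX (D.Pg φ c) D.n T).card : ℝ) := Nat.cast_nonneg _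
      have h2 : (0 : ℝ) ≤ ((cY (D.Pg φ c) D.n T).card : ℝ) := Nat.cast_nonneg _
      linarith
    have hS2 : (N.card : ℝ) ≤ S := by
      rw [hS, hN, szT]
      have h1 : (0 : ℝ) ≤ ((cX (D.Pg φ c) D.n T).card : ℝ) := Nat.cast_nonneg _
      have h2 : (0 : ℝ) ≤ (Nτ D.n : ℝ) * T.card := by positivity
      linarith
    have hS0 : 0 ≤ S := le_trans (Nat.cast_nonneg _) hS2
    have h0 := macro_rare (V := D.Var) (K := Fin (D.z + 1)) D.n T.card hn3'
      (Finset.card_pos.2 hT) (IV D c) (AV D c) (fun b _ => wV D N b)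
      (by
        intro b hb ψ ζ ζ' hζ
        have h1 : mix (IV D c) ζ ψ b = mix (IV D c) ζ' ψ b := by
          rw [mix_in hb, mix_in hb]
          exact hζ b (mem_singleton_self b)
        change AV D c b _ = AV D c b _
        rw [AV, AV, h1])
      (fun _ _ _ _ => rfl)
      (by
        intro b hb ψ
        obtain ⟨y', rfl⟩ := (mem_IV D).1 hb
        exact Nat.cast_nonneg _)
      (by
        intro b hb ψ
        obtain ⟨y', rfl⟩ := (mem_IV D).1 hb
        change ((nn D N y' : ℕ) : ℝ) ≤ _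
        have h1 : ((nn D N y' : ℕ) : ℝ) ≤ (D.n : ℝ) ^ 2 := by
          exact_mod_cast two_card D.H y' N
        exact h1.trans (pow_le_pow_right₀ hn1 (by norm_num)))
      (by
        intro b hb ψ
        have h1 : P (fun ζ : D.Var → Fin (D.z + 1) => AV D c b (mix (IV D c) ζ ψ)) ≤
            P (fun ζ : D.Var → Fin (D.z + 1) => ζ b ∈ ({0} : Finset (Fin (D.z + 1)))) := by
          refine P_mono fun ζ hζ => ?_
          have h2 := hζ.2
          rw [mix_in hb] at h2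
          rw [mem_singleton]
          exact Fin.ext h2
        refine h1.trans (le_of_eq ?_)
        rw [P_coord, card_singleton, Fintype.card_fin]
        push_cast
        rw [hz])
      (fun _ => S) (fun _ _ => rfl) (fun _ => hS1)
      (by
        intro ψ
        rw [sum_IV]
        have h1 : ∑ y' : Y, wV D N (.inl (c, y')) =
            ∑ y ∈ N, ((univ.filter (fun y' => ∃ x, (x, y) ∈ D.H.G ∧ (x, y') ∈ D.H.G)).card : ℝ) := by
          have h2 : ∀ y', wV D N (.inl (c, y')) = ∑ y ∈ N,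
              if (∃ x, (x, y) ∈ D.H.G ∧ (x, y') ∈ D.H.G) then (1 : ℝ) else 0 := by
            intro y'
            rw [sum_boole]
            rfl
          rw [sum_congr rfl fun y' _ => h2 y', sum_comm]
          refine sum_congr rfl fun y _ => ?_
          rw [sum_boole]
        rw [h1]
        have h2 : ∑ y ∈ N, ((univ.filter
            (fun y' => ∃ x, (x, y) ∈ D.H.G ∧ (x, y') ∈ D.H.G)).card : ℝ) ≤
            ∑ _y ∈ N, (D.n : ℝ) ^ 2 := by
          refine sum_le_sum fun y _ => ?_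
          exact_mod_cast two_card' D.H y univ
        refine h2.trans ?_
        rw [sum_const, nsmul_eq_mul, mul_comm]
        refine mul_le_mul (pow_le_pow_right₀ hn1 (by norm_num)) hS2 (Nat.cast_nonneg _) ?_
        positivity)
    have h1 : P (fun ζ : D.Var → Fin (D.z + 1) => D.mac7Y (upd D c φ ζ) T c) ≤
        P (fun ζ : D.Var → Fin (D.z + 1) => S / (D.n : ℝ) ^ 6 <
          ∑ b ∈ IV D c, if AV D c b ζ then wV D N b else 0) := by
      refine P_mono fun ζ hζ => ?_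
      rw [Ctx.mac7Y, Pg_upd, ← hN, ← hS, sum_vZ, lam] at hζ
      have h2 : 1 / (D.n : ℝ) ^ 6 * S = S / (D.n : ℝ) ^ 6 := by ring
      rw [h2] at hζ
      exact hζ
    refine h1.trans (h0.trans ?_)
    refine Real.exp_le_exp.2 ?_
    have h2 : (0 : ℝ) ≤ (D.n : ℝ) * T.card := by positivity
    nlinarith

end Pool.SCDH
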