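import Pool.Agent.Lib.SCDH.MDefs
import Pool.Agent.Lib.SCDH.G01
import Pool.Agent.Lib.SCDH.G02
import Pool.Agent.Lib.SCDH.G03
import Pool.Agent.Lib.SCDH.G04
import Pool.Agent.Lib.SCDH.N01
import Pool.Agent.Lib.SCDH.N02
import Pool.Agent.Lib.SCDH.L01
import Pool.Agent.Lib.SCDH.L02
import Pool.Agent.Lib.SCDH.W01
import Pool.Agent.Lib.SCDH.W02

/-!
# Row M8 (paper scd_h36.md)
mac8: usage on sets certified by G (deterministic).
Recipe: the sum equals ∑_{y ∈ cY G n T} ∑_{c : y ∉ OY c} (1[y ∈ Sin c] - ρ'): macro_tail with I = all inl (c,y), number ≤ n |cY|, |T b| ≤ 1, P_in.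
-/

set_option linter.unusedSectionVars false
set_option linter.unusedVariables false

namespace Pool.SCDH

open Finset Pool.MP_0ccee8_co.Lib2

variable {X Y : Type} [Fintype X] [DecidableEq X] [Fintype Y] [DecidableEq Y]
variable (D : Ctx X Y)

private noncomputable def m8I (T : Finset (X ⊕ Y)) : Finset D.Var :=
  ((univ : Finset (Fin D.B)) ×ˢ cY D.H.G D.n T).map ⟨Sum.inl, Sum.inl_injective⟩

private noncomputable def m8T (b : D.Var) (φ : D.Lbl) : ℝ :=
  match b with
  | .inl (c, y) => if y ∈ D.O.OY c then 0 else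
      (if ((φ (.inl (c, y))).1 : ℕ) < D.NX then 1 else 0) - D.rho'
  | .inr _ => 0

private noncomputable def m8w (b : D.Var) : ℝ :=
  match b with
  | .inl (c, y) => if y ∈ D.O.OY c then 0 else 1
  | .inr _ => 0

private lemma m8_n (hD : CtxOK D) : (100 : ℝ) ≤ D.n := by
  have ht := (ctx_t D hD).1
  have ht1 : (1 : ℝ) ≤ D.t := le_trans (by norm_num) ht
  have h1 := (ctx_n D hD).1
  have h2 : (D.t : ℝ) ^ 1 ≤ (D.t : ℝ) ^ 200 := pow_le_pow_right₀ ht1 (by norm_num)
  have h3 : (100 : ℝ) ≤ (10 : ℝ) ^ 100 := by norm_num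
  rw [pow_one] at h2
  linarith

private lemma m8_Bn (hD : CtxOK D) : (D.B : ℝ) ≤ D.n := by
  have ht := (ctx_t D hD).1
  have ht1 : (1 : ℝ) ≤ D.t := le_trans (by norm_num) ht
  obtain ⟨_, h1, h2⟩ := ctx_B0 D hD
  refine (h2.trans h1).trans (div_le_self (by positivity) ?_)
  exact one_le_pow₀ ht1

private lemma m8_mem (T : Finset (X ⊕ Y)) (c : Fin D.B) (y : Y) (hy : y ∈ cY D.H.G D.n T) :
    (Sum.inl (c, y) : D.Var) ∈ m8I D T := by
  unfold m8I
  rw [mem_map]
  exact ⟨(c, y), by simp [hy], rfl⟩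

attribute [local irreducible] ball in
private lemma m8_sup (T : Finset (X ⊕ Y)) (c : Fin D.B) (y : Y) (hy : y ∈ cY D.H.G D.n T) :
    (Sum.inl (c, y) : D.Var) ∈ supT D.B D.H.G T := by
  classical
  unfold supT
  rw [mem_filter]
  have h1 := (cX_ball D.H.G D.H.G (subset_refl _) D.n T).2 y hy
  have h2 := ball_mono D.H.G rW (rW + 5) (Nat.le_add_right _ _) T T (subset_refl _)
  exact ⟨mem_univ _, h2 h1⟩

private lemma m8_sumT (T : Finset (X ⊕ Y)) (φ : D.Lbl) :
    ∑ b ∈ m8I D T, m8T D b φ = ∑ y ∈ cY D.H.G D.n T, (((univ.filter (fun c => y ∈ D.Sin φ c)).card : ℝ)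
      - D.rho' * ((univ.filter (fun c => y ∉ D.O.OY c)).card : ℝ)) := by
  unfold m8I
  rw [sum_map, sum_product, sum_comm]
  refine sum_congr rfl (fun y _ => ?_)
  rw [card_filter, card_filter]
  push_cast
  rw [mul_sum, ← sum_sub_distrib]
  refine sum_congr rfl (fun c _ => ?_)
  simp only [Function.Embedding.coeFn_mk, m8T, Ctx.Sin, mem_filter, mem_univ, true_and]
  by_cases h : y ∈ D.O.OY c
  · simp [h]
  · by_cases h2 : ((φ (.inl (c, y))).1 : ℕ) < D.NX
    · simp [h, h2]
    · simp [h, h2]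

private lemma m8_cardI (hD : CtxOK D) (T : Finset (X ⊕ Y)) :
    ((m8I D T).card : ℝ) ≤ D.n * ((cY D.H.G D.n T).card : ℝ) := by
  unfold m8I
  rw [card_map, card_product, card_univ, Fintype.card_fin]
  push_cast
  exact mul_le_mul_of_nonneg_right (m8_Bn D hD) (Nat.cast_nonneg _)

private lemma m8_sz (T : Finset (X ⊕ Y)) :
    (D.n : ℝ) ^ 40 * T.card ≤ szT D.H.G D.n T ∧ ((cY D.H.G D.n T).card : ℝ) ≤ szT D.H.G D.n T := by
  unfold szT Nτ
  push_cast
  have h1 : (0 : ℝ) ≤ ((cX D.H.G D.n T).card : ℝ) := Nat.cast_nonneg _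
  have h2 : (0 : ℝ) ≤ ((cY D.H.G D.n T).card : ℝ) := Nat.cast_nonneg _
  have h3 : (0 : ℝ) ≤ (D.n : ℝ) ^ 40 * T.card := by positivity
  constructor <;> linarith

theorem mac8_ok (hD : CtxOK D) : MacOK D (fun T φ => D.mac8 φ T) where
  emp := by
    intro φ h
    unfold Ctx.mac8 at h
    rw [(cX_empty D.H.G D.n).2] at h
    unfold szT at h
    rw [(cX_empty D.H.G D.n).1, (cX_empty D.H.G D.n).2] at h
    simp at h
  dep := by
    intro T φ ψ h
    have h1 : ∀ y ∈ cY D.H.G D.n T, (univ.filter (fun c => y ∈ D.Sin φ c))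
        = (univ.filter (fun c => y ∈ D.Sin ψ c)) := by
      intro y hy
      refine filter_congr (fun c _ => ?_)
      unfold Ctx.Sin
      rw [mem_filter, mem_filter, h _ (m8_sup D T c y hy)]
    change D.mac8 φ T = D.mac8 ψ T
    unfold Ctx.mac8
    rw [sum_congr rfl (fun y hy => by rw [h1 y hy])]
  pr := by
    intro T hT
    have hn := m8_n D hD
    have hn1 : (1 : ℝ) ≤ D.n := by linarith
    have hρ := (ctx_rho D hD)
    have hρ0 : 0 ≤ D.rho' := hρ.2.2.2.2.1.le.trans hρ.2.1
    have hρ1 : D.rho' ≤ 1 := hρ.2.2.2.1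
    have hTb : ∀ b ψ, |m8T D b ψ| ≤ 1 := by
      intro b ψ
      rcases b with ⟨c, y⟩ | e
      · simp only [m8T]
        split_ifs
        · simp
        · rw [abs_le]; constructor <;> linarith
        · rw [abs_le]; constructor <;> linarith
      · simp [m8T]
    have hmix : ∀ b ∈ m8I D T, ∀ φ ψ : D.Lbl, m8T D b (mix (m8I D T) φ ψ) = m8T D b φ := by
      intro b hb φ ψ
      rcases b with ⟨c, y⟩ | e
      · simp only [m8T, mix_in hb]
      · simp [m8T]
    have key := macro_tail (V := D.Var) (K := D.Lab) D.n T.card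
      (by have : (3 : ℝ) ≤ D.n := by linarith
          exact_mod_cast this) hT.card_pos (m8I D T) (m8T D)
      (by
        intro b hb ψ φ φ' h
        change m8T D b (mix (m8I D T) φ ψ) = m8T D b (mix (m8I D T) φ' ψ)
        rw [hmix b hb, hmix b hb]
        rcases b with ⟨c, y⟩ | e
        · simp only [m8T]
          rw [h _ (mem_singleton_self _)]
        · simp [m8T])
      (fun b _ ψ => (hTb b ψ).trans (one_le_pow₀ hn1))
      (by
        intro b hb ψ
        rw [E_congr (g := m8T D b) (fun φ => hmix b hb φ ψ)]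
        rcases b with ⟨c, y⟩ | e
        · by_cases hy : y ∈ D.O.OY c
          · rw [E_congr (g := fun _ => (0 : ℝ)) (fun φ => by simp [m8T, hy]), E_const]
          · rw [E_congr (g := fun φ : D.Lbl =>
              (if ((φ (.inl (c, y))).1 : ℕ) < D.NX then (1 : ℝ) else 0) - D.rho')
              (fun φ => by simp [m8T, hy]), E_sub, E_const,
              E_P (fun φ : D.Lbl => ((φ (.inl (c, y))).1 : ℕ) < D.NX) 1, P_in D hD]
            ring
        · rw [E_congr (g := fun _ => (0 : ℝ)) (fun φ => by simp [m8T]), E_const])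
      (fun _ => szT D.H.G D.n T) (fun _ _ => rfl)
      (fun _ => by
        have h1 := (m8_sz D T).1
        have h2 : (0 : ℝ) ≤ (D.n : ℝ) ^ 40 * T.card := by positivity
        linarith)
      (by
        intro ψ
        have h1 : ∑ b ∈ m8I D T, E (fun φ : D.Lbl => (m8T D b (mix (m8I D T) φ ψ)) ^ 2)
            ≤ ∑ b ∈ m8I D T, (1 : ℝ) := by
          refine sum_le_sum (fun b _ => ?_)
          refine (E_mono (g := fun _ => (1 : ℝ)) (fun φ => ?_)).trans (E_const _).le
          have := hTb b (mix (m8I D T) φ ψ)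
          rw [← sq_abs]
          exact pow_le_one₀ (abs_nonneg _) this
        rw [sum_const, nsmul_eq_mul, mul_one] at h1
        have h2 := m8_cardI D hD T
        have h3 := (m8_sz D T).2
        have h4 : (D.n : ℝ) ≤ (D.n : ℝ) ^ 16 := by
          calc (D.n : ℝ) = (D.n : ℝ) ^ 1 := (pow_one _).symm
            _ ≤ (D.n : ℝ) ^ 16 := pow_le_pow_right₀ hn1 (by norm_num)
        have h5 : (0 : ℝ) ≤ ((cY D.H.G D.n T).card : ℝ) := Nat.cast_nonneg _
        calc _ ≤ ((m8I D T).card : ℝ) := h1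
          _ ≤ D.n * ((cY D.H.G D.n T).card : ℝ) := h2
          _ ≤ (D.n : ℝ) ^ 16 * szT D.H.G D.n T := mul_le_mul h4 h3 h5 (by positivity))
    have h1 : P (fun φ : D.Lbl => D.mac8 φ T) ≤ Real.exp (-(6 * D.n * T.card)) := by
      refine le_trans (P_mono (fun φ hφ => ?_)) key
      unfold Ctx.mac8 lam at hφ
      rw [m8_sumT, div_eq_inv_mul]
      rw [one_div] at hφ
      exact hφ
    refine h1.trans (Real.exp_le_exp.2 ?_)
    have h2 : (0 : ℝ) ≤ D.n * T.card := by positivity
    nlinarith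

theorem mac8Z_ok (hD : CtxOK D) : MacOK D (fun T φ => D.mac8Z φ T) where
  emp := by
    intro φ h
    unfold Ctx.mac8Z at h
    rw [(cX_empty D.H.G D.n).2] at h
    unfold szT at h
    rw [(cX_empty D.H.G D.n).1, (cX_empty D.H.G D.n).2] at h
    simp at h
  dep := by
    intro T φ ψ h
    have h1 : ∀ y ∈ cY D.H.G D.n T, (univ.filter (fun c => y ∈ D.Zs φ c))
        = (univ.filter (fun c => y ∈ D.Zs ψ c)) := by
      intro y hy
      refine filter_congr (fun c _ => ?_)
      unfold Ctx.Zs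
      rw [mem_filter, mem_filter, h _ (m8_sup D T c y hy)]
    change D.mac8Z φ T = D.mac8Z ψ T
    unfold Ctx.mac8Z
    rw [sum_congr rfl (fun y hy => by rw [h1 y hy])]
  pr := by
    intro T hT
    have hn := m8_n D hD
    have hn1 : (1 : ℝ) ≤ D.n := by linarith
    have hw01 : ∀ b, 0 ≤ m8w D b ∧ m8w D b ≤ 1 := by
      intro b
      rcases b with ⟨c, y⟩ | e
      · simp only [m8w]
        split_ifs <;> norm_num
      · simp [m8w]
    have key := macro_rare (V := D.Var) (K := D.Lab) D.n T.card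
      (by have : (3 : ℝ) ≤ D.n := by linarith
          exact_mod_cast this) hT.card_pos (m8I D T)
      (fun b φ => ((φ b).2.1 : ℕ) = 0) (fun b _ => m8w D b)
      (by
        intro b hb ψ φ φ' h
        change (((mix (m8I D T) φ ψ b).2.1 : ℕ) = 0) = (((mix (m8I D T) φ' ψ b).2.1 : ℕ) = 0)
        rw [mix_in hb, mix_in hb, h _ (mem_singleton_self _)])
      (fun _ _ _ _ => rfl) (fun b _ _ => (hw01 b).1)
      (fun b _ _ => (hw01 b).2.trans (one_le_pow₀ hn1))
      (by
        intro b hb ψ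
        have h1 : P (fun φ : D.Lbl => ((mix (m8I D T) φ ψ b).2.1 : ℕ) = 0)
            = P (fun φ : D.Lbl => ((φ b).2.1 : ℕ) = 0) := by
          congr 1
          funext φ
          rw [mix_in hb]
        rw [h1, P_z]
        have hz : (D.z : ℝ) + 1 = (D.n : ℝ) ^ 20 := by exact_mod_cast hD.hz
        rw [hz])
      (fun _ => szT D.H.G D.n T) (fun _ _ => rfl)
      (fun _ => (m8_sz D T).1)
      (by
        intro ψ
        have h1 : ∑ b ∈ m8I D T, m8w D b ≤ ∑ b ∈ m8I D T, (1 : ℝ) :=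
          sum_le_sum (fun b _ => (hw01 b).2)
        rw [sum_const, nsmul_eq_mul, mul_one] at h1
        have h2 := m8_cardI D hD T
        have h3 := (m8_sz D T).2
        have h4 : (D.n : ℝ) ≤ (D.n : ℝ) ^ 8 := by
          calc (D.n : ℝ) = (D.n : ℝ) ^ 1 := (pow_one _).symm
            _ ≤ (D.n : ℝ) ^ 8 := pow_le_pow_right₀ hn1 (by norm_num)
        have h5 : (0 : ℝ) ≤ ((cY D.H.G D.n T).card : ℝ) := Nat.cast_nonneg _
        calc _ ≤ ((m8I D T).card : ℝ) := h1
          _ ≤ D.n * ((cY D.H.G D.n T).card : ℝ) := h2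
          _ ≤ (D.n : ℝ) ^ 8 * szT D.H.G D.n T := mul_le_mul h4 h3 h5 (by positivity))
    have h1 : P (fun φ : D.Lbl => D.mac8Z φ T) ≤ Real.exp (-(6 * D.n * T.card)) := by
      refine le_trans (P_mono (fun φ hφ => ?_)) key
      unfold Ctx.mac8Z lam at hφ
      rw [one_div] at hφ
      rw [div_eq_inv_mul]
      refine hφ.trans_le (le_of_eq ?_)
      unfold m8I
      rw [sum_map, sum_product, sum_comm]
      refine sum_congr rfl (fun y _ => ?_)
      rw [card_filter]
      push_cast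
      refine sum_congr rfl (fun c _ => ?_)
      simp only [Function.Embedding.coeFn_mk, m8w, Ctx.Zs, mem_filter, mem_univ, true_and]
      by_cases h : y ∈ D.O.OY c
      · simp [h]
      · by_cases h2 : ((φ (.inl (c, y))).2.1 : ℕ) = 0
        · simp [h, h2]
        · simp [h, h2]
    refine h1.trans (Real.exp_le_exp.2 ?_)
    have h2 : (0 : ℝ) ≤ D.n * T.card := by positivity
    nlinarith

end Pool.SCDH
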