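import Pool.Agent.Lib.SCDH.MDefs
import Pool.Agent.Lib.SCDH.G01
import Pool.Agent.Lib.SCDH.G03
import Pool.Agent.Lib.SCDH.G04
import Pool.Agent.Lib.SCDH.N01
import Pool.Agent.Lib.SCDH.N02
import Pool.Agent.Lib.SCDH.L01
import Pool.Agent.Lib.SCDH.M1
import Pool.Agent.Lib.SCDH.M2
import Pool.Agent.Lib.SCDH.M3
import Pool.Agent.Lib.SCDH.M4X
import Pool.Agent.Lib.SCDH.M4Y
import Pool.Agent.Lib.SCDH.M5X
import Pool.Agent.Lib.SCDH.M5Y
import Pool.Agent.Lib.SCDH.M6X
import Pool.Agent.Lib.SCDH.M6Y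
import Pool.Agent.Lib.SCDH.M7X
import Pool.Agent.Lib.SCDH.M7Y
import Pool.Agent.Lib.SCDH.M8

/-!
# Row MALL (paper scd_h36.md)
All macroscopic events at T together.
Recipe: |arH|, |arF|, |arO| ≤ κ ≤ n (degrees ≤ κ, averages between 0 and κ). At most 2 + 13 B ≤ 15 n ≤ exp(n|T|)... events of probability ≤ exp(-5n|T|): total ≤ exp(-4n|T|).
-/

set_option linter.unusedSectionVars false
set_option linter.unusedVariables false

namespace Pool.SCDH

open Finset Pool.MP_0ccee8_co.Lib2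

variable {X Y : Type} [Fintype X] [DecidableEq X] [Fintype Y] [DecidableEq Y]
variable (D : Ctx X Y)

section

variable {V K : Type} [Fintype V] [DecidableEq V] [Fintype K] [Nonempty K]

private lemma mall_or {A B : (V → K) → Prop} {a b : ℝ} (hA : P A ≤ a) (hB : P B ≤ b) :
    P (fun φ => A φ ∨ B φ) ≤ a + b := (P_or A B).trans (add_le_add hA hB)

end

private lemma mall_av (g : Y → ℕ) (k : ℕ) (hg : ∀ y, g y ≤ k) (y : Y) :
    |(g y : ℝ) - avY (fun y => (g y : ℝ))| ≤ k := by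
  have h1 : (0 : ℝ) ≤ g y := Nat.cast_nonneg _
  have h2 : (g y : ℝ) ≤ k := by exact_mod_cast hg y
  have h3 : 0 ≤ avY (fun y => (g y : ℝ)) := by unfold avY; positivity
  have hc : 0 < Fintype.card Y := Fintype.card_pos_iff.2 ⟨y⟩
  have hc' : (0 : ℝ) < Fintype.card Y := by exact_mod_cast hc
  have h4 : avY (fun y => (g y : ℝ)) ≤ k := by
    unfold avY
    rw [div_le_iff₀ hc']
    calc ∑ y, (g y : ℝ) ≤ ∑ y : Y, (k : ℝ) := sum_le_sum (fun y _ => by exact_mod_cast hg y)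
      _ = k * Fintype.card Y := by rw [sum_const, card_univ, nsmul_eq_mul, mul_comm]
  rw [abs_le]
  constructor <;> linarith

theorem macAll_ok (hD : CtxOK D) : (∀ φ, ¬ D.macAll φ ∅) ∧
    (∀ T, Dep (fun φ : D.Lbl => D.macAll φ T) (supT D.B D.H.G T)) ∧
    ∀ T : Finset (X ⊕ Y), T.Nonempty →
      2 * P (fun φ : D.Lbl => D.macAll φ T) ≤ Real.exp (-(4 * D.n * T.card)) := by
  have hκn : D.κ ≤ D.n := D.H.hκd.trans D.H.hd2
  have hκn' : (D.κ : ℝ) ≤ D.n := by exact_mod_cast hκn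
  have hHb : ∀ y, |D.arH y| ≤ D.n := fun y =>
    (mall_av (fun y => dgY D.Hb y) D.κ (fun y => dgY_le D.H D.Hb hD.bulk.sub y) y).trans hκn'
  have hF : ∀ y, |D.arF y| ≤ D.n := fun y =>
    (mall_av (fun y => dgY D.F y) D.κ (fun y => dgY_le D.H D.F hD.res.sub y) y).trans hκn'
  have hO : ∀ c y, |D.arO c y| ≤ D.n := by
    intro c y
    unfold Ctx.arO
    rw [abs_of_nonneg (Nat.cast_nonneg _)]
    have h1 : eB D.H.G (D.O.OX c) {y} ≤ dgY D.H.G y :=
      eB_mono _ _ (subset_refl _) _ _ (subset_univ _) _ _ (subset_refl _)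
    rw [D.H.degY y] at h1
    exact le_trans (by exact_mod_cast h1) hκn'
  have m8 := mac8_ok D hD
  have m8Z := mac8Z_ok D hD
  have m1 := fun c => mac1_ok D hD c
  have m2H := fun c => mac2_ok D hD D.Hb hD.bulk.sub c
  have m2F := fun c => mac2_ok D hD D.F hD.res.sub c
  have m3H := fun c => mac3_ok D hD D.arH hHb c
  have m3F := fun c => mac3_ok D hD D.arF hF c
  have m3O := fun c => mac3_ok D hD (D.arO c) (hO c) c
  have m4X := fun c => mac4X_ok D hD c
  have m4Y := fun c => mac4Y_ok D hD c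
  have m5X := fun c => mac5X_ok D hD c
  have m5Y := fun c => mac5Y_ok D hD c
  have m6X := fun c => mac6X_ok D hD c
  have m6Y := fun c => mac6Y_ok D hD c
  have m7X := fun c => mac7X_ok D hD c
  have m7Y := fun c => mac7Y_ok D hD c
  refine ⟨fun φ h => ?_, fun T => ?_, fun T hT => ?_⟩
  · rcases h with h | h | ⟨c, h⟩
    · exact m8.emp φ h
    · exact m8Z.emp φ h
    · rcases h with h | h | h | h | h | h | h | h | h | h | h | h | h | h
      · exact (m1 c).emp φ h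
      · exact (m2H c).emp φ h
      · exact (m2F c).emp φ h
      · exact (m3H c).emp φ h
      · exact (m3F c).emp φ h
      · exact (m3O c).emp φ h
      · exact (m4X c).emp φ h
      · exact (m4Y c).emp φ h
      · exact (m5X c).emp φ h
      · exact (m5Y c).emp φ h
      · exact (m6X c).emp φ h
      · exact (m6Y c).emp φ h
      · exact (m7X c).emp φ h
      · exact (m7Y c).emp φ h
  · refine Dep_or _ _ _ (m8.dep T) ?_
    refine Dep_or _ _ _ (m8Z.dep T) ?_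
    refine Dep_exists _ _ (fun c => ?_)
    refine Dep_or _ _ _ ((m1 c).dep T) ?_
    refine Dep_or _ _ _ ((m2H c).dep T) ?_
    refine Dep_or _ _ _ ((m2F c).dep T) ?_
    refine Dep_or _ _ _ ((m3H c).dep T) ?_
    refine Dep_or _ _ _ ((m3F c).dep T) ?_
    refine Dep_or _ _ _ ((m3O c).dep T) ?_
    refine Dep_or _ _ _ ((m4X c).dep T) ?_
    refine Dep_or _ _ _ ((m4Y c).dep T) ?_
    refine Dep_or _ _ _ ((m5X c).dep T) ?_
    refine Dep_or _ _ _ ((m5Y c).dep T) ?_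
    refine Dep_or _ _ _ ((m6X c).dep T) ?_
    refine Dep_or _ _ _ ((m6Y c).dep T) ?_
    exact Dep_or _ _ _ ((m7X c).dep T) ((m7Y c).dep T)
  · obtain ⟨p, hp⟩ : ∃ p : ℝ, p = Real.exp (-(5 * D.n * T.card)) := ⟨_, rfl⟩
    have hp0 : 0 < p := by rw [hp]; exact Real.exp_pos _
    have ht := (ctx_t D hD).1
    have ht1 : (1 : ℝ) ≤ D.t := le_trans (by norm_num) ht
    have hn100 : (100 : ℝ) ≤ D.n := by
      have h1 := (ctx_n D hD).1
      have h2 : (D.t : ℝ) ^ 1 ≤ (D.t : ℝ) ^ 200 := pow_le_pow_right₀ ht1 (by norm_num)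
      have h3 : (100 : ℝ) ≤ (10 : ℝ) ^ 100 := by norm_num
      rw [pow_one] at h2
      linarith
    have hBn : (D.B : ℝ) ≤ D.n := by
      obtain ⟨_, h1, h2⟩ := ctx_B0 D hD
      refine (h2.trans h1).trans (div_le_self (by positivity) ?_)
      exact one_le_pow₀ ht1
    have hc1 : (1 : ℝ) ≤ T.card := by exact_mod_cast hT.card_pos
    have hnt : 40 * (D.n : ℝ) ≤ Real.exp (D.n * T.card) := by
      have h1 : (D.n : ℝ) / 2 + 1 ≤ Real.exp ((D.n : ℝ) / 2) := Real.add_one_le_exp _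
      have h2 : Real.exp ((D.n : ℝ) / 2) * Real.exp ((D.n : ℝ) / 2) = Real.exp D.n := by
        rw [← Real.exp_add]; congr 1; ring
      have h3 : Real.exp (D.n : ℝ) ≤ Real.exp (D.n * T.card) :=
        Real.exp_le_exp.2 (by nlinarith)
      refine le_trans ?_ h3
      rw [← h2]
      have h4 : ((D.n : ℝ) / 2) * ((D.n : ℝ) / 2) ≤
          Real.exp ((D.n : ℝ) / 2) * Real.exp ((D.n : ℝ) / 2) := by
        have h5 : (D.n : ℝ) / 2 ≤ Real.exp ((D.n : ℝ) / 2) := by linarith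
        exact mul_le_mul h5 h5 (by positivity) (Real.exp_pos _).le
      have h5 : (D.n : ℝ) / 2 + 1 ≤ Real.exp ((D.n : ℝ) / 2) := h1
      have h6 := Real.quadratic_le_exp_of_nonneg (x := (D.n : ℝ) / 2) (by positivity)
      have h7 : 1 + (D.n : ℝ) / 2 + ((D.n : ℝ) / 2) ^ 2 / 2 ≤ Real.exp ((D.n : ℝ) / 2) := h6
      have h8 : (1 : ℝ) ≤ Real.exp ((D.n : ℝ) / 2) := by linarith
      have h9 : (12.5 : ℝ) * D.n ≤ Real.exp ((D.n : ℝ) / 2) := by nlinarith
      have h10 : (50 : ℝ) ≤ Real.exp ((D.n : ℝ) / 2) := by linarith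
      nlinarith
    have hfin : 40 * D.n * p ≤ Real.exp (-(4 * D.n * T.card)) := by
      have h1 : Real.exp (-(4 * (D.n : ℝ) * T.card)) = Real.exp (D.n * T.card) * p := by
        rw [hp, ← Real.exp_add]
        congr 1
        ring
      rw [h1]
      exact mul_le_mul_of_nonneg_right hnt hp0.le
    have h1 : P (fun φ : D.Lbl => D.macAll φ T) ≤ p + (p + (Fintype.card (Fin D.B) : ℝ) *
        (p + (p + (p + (p + (p + (p + (p + (p + (p + (p + (p + (p + (p + p)))))))))))))) := by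
      refine mall_or (hp ▸ m8.pr T hT) ?_
      refine mall_or (hp ▸ m8Z.pr T hT) ?_
      refine P_exists_le (ι := Fin D.B) (fun c (φ : D.Lbl) => D.mac1 φ T c ∨ D.mac2 φ T D.Hb c
        ∨ D.mac2 φ T D.F c ∨ D.mac3 φ T D.arH c ∨ D.mac3 φ T D.arF c
        ∨ D.mac3 φ T (D.arO c) c ∨ D.mac4X φ T c ∨ D.mac4Y φ T c ∨ D.mac5X φ T c ∨ D.mac5Y φ T c
        ∨ D.mac6X φ T c ∨ D.mac6Y φ T c ∨ D.mac7X φ T c ∨ D.mac7Y φ T c) _ (fun c => ?_)
      refine mall_or (hp ▸ (m1 c).pr T hT) ?_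
      refine mall_or (hp ▸ (m2H c).pr T hT) ?_
      refine mall_or (hp ▸ (m2F c).pr T hT) ?_
      refine mall_or (hp ▸ (m3H c).pr T hT) ?_
      refine mall_or (hp ▸ (m3F c).pr T hT) ?_
      refine mall_or (hp ▸ (m3O c).pr T hT) ?_
      refine mall_or (hp ▸ (m4X c).pr T hT) ?_
      refine mall_or (hp ▸ (m4Y c).pr T hT) ?_
      refine mall_or (hp ▸ (m5X c).pr T hT) ?_
      refine mall_or (hp ▸ (m5Y c).pr T hT) ?_
      refine mall_or (hp ▸ (m6X c).pr T hT) ?_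
      refine mall_or (hp ▸ (m6Y c).pr T hT) ?_
      exact mall_or (hp ▸ (m7X c).pr T hT) (hp ▸ (m7Y c).pr T hT)
    rw [Fintype.card_fin] at h1
    nlinarith [mul_le_mul_of_nonneg_right hBn hp0.le, mul_le_mul_of_nonneg_right hn100 hp0.le]

end Pool.SCDH
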