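import Pool.Agent.Lib.SCDH.Defs
import Pool.Agent.Lib.SCDH.L01

/-!
# Row L03 (paper scd_h36.md)
Tail bounds for local events (conditional on the variables outside I, one term per variable).
Recipe: loc_tail is Lib2.tail_bound (blocks {b}, M = 1, Vt = W, vb = the second moments): 2 exp(-s²/(4W)) ≤ 2 exp(-6t) ≤ exp(-5t). loc_rare: exponential moment with parameter 6: P(count > t) ≤ exp(-6t) E exp(6 count) (P_exp), conditional product (E_mix, E_prod as in Lib2.exp_moment): each factor ≤ 1 + (e^6 - 1) p_b ≤ exp(404 p_b); total exp(-6t + 404 μ) ≤ exp(-5t) since 1000 μ ≤ t.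
-/

set_option linter.unusedSectionVars false
set_option linter.unusedVariables false

namespace Pool.SCDH

open Finset Pool.MP_0ccee8_co.Lib2

variable {V K : Type} [Fintype V] [DecidableEq V] [Fintype K] [Nonempty K]

theorem loc_tail (I : Finset V) (T : V → (V → K) → ℝ)
    (hdep : ∀ b ∈ I, ∀ ψ, Dep (fun φ => T b (mix I φ ψ)) {b})
    (hM : ∀ b ∈ I, ∀ ψ, |T b ψ| ≤ 1)
    (hmean : ∀ b ∈ I, ∀ ψ, E (fun φ => T b (mix I φ ψ)) = 0)
    (W : ℝ) (hW : 0 < W)
    (hV : ∀ ψ, ∑ b ∈ I, E (fun φ => (T b (mix I φ ψ)) ^ 2) ≤ W)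
    (t : ℕ) (ht : 1 ≤ t) (s : ℝ) (hs : 0 ≤ s) (h1 : 24 * t * W ≤ s ^ 2) (h2 : s ≤ 2 * W) :
    P (fun φ => s < |∑ b ∈ I, T b φ|) ≤ Real.exp (-(5 * t)) := by
  have key := tail_bound I I (fun b => {b}) (by
      intro b _ c _ hbc
      exact Finset.disjoint_singleton.2 hbc) T hdep 1 hM hmean
    (fun b ψ => E (fun φ => (T b (mix I φ ψ)) ^ 2)) (fun b _ ψ => le_rfl) W hW hV s hs
    (by linarith)
  refine key.trans ?_
  have h3 : (6 : ℝ) * t ≤ s ^ 2 / (4 * W) := by
    rw [le_div_iff₀ (by positivity)]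
    linarith
  have h4 : Real.exp (-(s ^ 2 / (4 * W))) ≤ Real.exp (-(6 * t)) :=
    Real.exp_le_exp.2 (by linarith)
  have ht' : (1 : ℝ) ≤ t := by exact_mod_cast ht
  have h5 : (2 : ℝ) ≤ Real.exp t := by
    have := Real.add_one_le_exp (t : ℝ)
    linarith
  calc 2 * Real.exp (-(s ^ 2 / (4 * W))) ≤ Real.exp t * Real.exp (-(6 * t)) := by
        gcongr
    _ = Real.exp (-(5 * t)) := by
        rw [← Real.exp_add]
        congr 1
        ring

private theorem exp_six_le : Real.exp 6 ≤ 405 := by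
  have h1 : Real.exp 6 = Real.exp 1 ^ 6 := by
    rw [← Real.exp_nat_mul]
    norm_num
  have h2 := Real.exp_one_lt_d9
  rw [h1]
  calc Real.exp 1 ^ 6 ≤ 2.7182818286 ^ 6 := by
        gcongr
    _ ≤ 405 := by norm_num

theorem loc_rare (I : Finset V) (A : V → (V → K) → Prop) [∀ b, DecidablePred (A b)]
    (hA : ∀ b ∈ I, ∀ ψ, Dep (fun φ => A b (mix I φ ψ)) {b})
    (p : V → (V → K) → ℝ) (hp : ∀ b ∈ I, ∀ ψ, P (fun φ => A b (mix I φ ψ)) ≤ p b ψ)
    (μ : ℝ) (hμ : ∀ ψ, ∑ b ∈ I, p b ψ ≤ μ) (t : ℕ) (ht : 1 ≤ t) (hμt : 1000 * μ ≤ t) :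
    P (fun φ => t < (I.filter (fun b => A b φ)).card) ≤ Real.exp (-(5 * t)) := by
  have h0 : P (fun φ => t < (I.filter (fun b => A b φ)).card) ≤
      P (fun φ => (t : ℝ) < ∑ b ∈ I, (if A b φ then (1 : ℝ) else 0)) := by
    refine P_mono fun φ h => ?_
    rw [Finset.sum_ite, Finset.sum_const_zero, add_zero, Finset.sum_const, nsmul_eq_mul, mul_one]
    exact_mod_cast h
  refine h0.trans ((P_exp _ 6 t (by norm_num)).trans ?_)
  have h1 : E (fun φ : V → K => Real.exp (6 * ∑ b ∈ I, (if A b φ then (1 : ℝ) else 0))) ≤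
      Real.exp (404 * μ) := by
    rw [← E_mix I, ← E_const (V := V) (κ := K) (Real.exp (404 * μ))]
    refine E_mono (fun ψ => ?_)
    have hprod : ∀ φ : V → K,
        Real.exp (6 * ∑ b ∈ I, (if A b (mix I φ ψ) then (1 : ℝ) else 0))
        = ∏ b ∈ I, Real.exp (6 * (if A b (mix I φ ψ) then (1 : ℝ) else 0)) := by
      intro φ
      rw [mul_sum, Real.exp_sum]
    rw [E_congr hprod]
    rw [E_prod I (fun b => {b}) (by
      intro b _ c _ hbc
      exact Finset.disjoint_singleton.2 hbc)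
      (fun b φ => Real.exp (6 * (if A b (mix I φ ψ) then (1 : ℝ) else 0)))]
    · calc ∏ b ∈ I, E (fun φ => Real.exp (6 * (if A b (mix I φ ψ) then (1 : ℝ) else 0)))
          ≤ ∏ b ∈ I, Real.exp (404 * p b ψ) := by
            refine prod_le_prod (fun b _ => E_nonneg (fun φ => (Real.exp_pos _).le)) ?_
            intro b hb
            have e1 : ∀ φ : V → K, Real.exp (6 * (if A b (mix I φ ψ) then (1 : ℝ) else 0)) =
                1 + (if A b (mix I φ ψ) then (Real.exp 6 - 1) else 0) := by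
              intro φ
              split_ifs <;> simp
            rw [E_congr e1, E_add (fun _ => (1 : ℝ)), E_const, E_P]
            have e2 := hp b hb ψ
            have e3 := P_nonneg (fun φ => A b (mix I φ ψ))
            have e4 := exp_six_le
            have e5 : (Real.exp 6 - 1) * P (fun φ => A b (mix I φ ψ)) ≤ 404 * p b ψ := by
              calc (Real.exp 6 - 1) * P (fun φ => A b (mix I φ ψ))
                  ≤ 404 * P (fun φ => A b (mix I φ ψ)) := by
                    gcongr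
                    linarith
                _ ≤ 404 * p b ψ := by gcongr
            have e6 := Real.add_one_le_exp (404 * p b ψ)
            linarith
        _ = Real.exp (404 * ∑ b ∈ I, p b ψ) := by rw [mul_sum, Real.exp_sum]
        _ ≤ Real.exp (404 * μ) := by
            apply Real.exp_le_exp.2
            exact mul_le_mul_of_nonneg_left (hμ ψ) (by norm_num)
    · intro b hb φ φ' h
      have := hA b hb ψ φ φ' h
      simp only at this ⊢
      simp only [this]
  calc Real.exp (-(6 * (t : ℝ))) *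
        E (fun φ : V → K => Real.exp (6 * ∑ b ∈ I, (if A b φ then (1 : ℝ) else 0)))
      ≤ Real.exp (-(6 * (t : ℝ))) * Real.exp (404 * μ) := by gcongr
    _ ≤ Real.exp (-(5 * t)) := by
      rw [← Real.exp_add]
      apply Real.exp_le_exp.2
      have : (0 : ℝ) ≤ t := by positivity
      linarith

end Pool.SCDH
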