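import Pool.Agent.Lib.SCDH.MDefs
import Pool.Agent.Lib.SCDH.G01
import Pool.Agent.Lib.SCDH.G03
import Pool.Agent.Lib.SCDH.N01
import Pool.Agent.Lib.SCDH.N02
import Pool.Agent.Lib.SCDH.L01
import Pool.Agent.Lib.SCDH.L03

/-!
# Row PX2 (paper scd_h36.md)
F-edges from x into Sc: as PX1 with number ≤ deg_F(x) ≤ 1.01 η d: W = 2 η κ, s = √(ηκ) t (ηκ ≥ t^29).
-/

set_option linter.unusedSectionVars false
set_option linter.unusedVariables false

namespace Pool.SCDH

open Finset Pool.MP_0ccee8_co.Lib2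

variable {X Y : Type} [Fintype X] [DecidableEq X] [Fintype Y] [DecidableEq Y]
variable (D : Ctx X Y)

private theorem px2_eB (Γ : Finset (X × Y)) (x : X) (N : Finset Y) :
    eB Γ {x} N = (univ.filter (fun y => (x, y) ∈ Γ ∧ y ∈ N)).card := by
  unfold eB
  symm
  apply Finset.card_bij (fun y _ => (x, y))
  · intro y hy
    simpa using hy
  · intro a _ b _ h
    exact (Prod.mk.inj h).2
  · rintro ⟨a, b⟩ h
    simp only [mem_filter, mem_singleton] at h
    obtain ⟨h1, h2, h3⟩ := h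
    subst h2
    exact ⟨b, by simp only [mem_filter, mem_univ, true_and]; exact ⟨h1, h3⟩, rfl⟩

private theorem px2_Sc (φ : D.Lbl) (c : Fin D.B) (y : Y) :
    y ∈ D.Sc φ c ↔ y ∉ D.O.OY c ∧ ((φ (.inl (c, y))).1 : ℕ) < D.NX ∧ ((φ (.inl (c, y))).2.1 : ℕ) ≠ 0 := by
  simp only [Ctx.Sc, Ctx.Sin, Ctx.Zs, mem_sdiff, mem_filter, mem_univ, true_and]
  tauto

/-- the term of one variable -/
private noncomputable def px2T (b : D.Var) (φ : D.Lbl) : ℝ :=
  (if ((φ b).1 : ℕ) < D.NX ∧ ((φ b).2.1 : ℕ) ≠ 0 then 1 else 0) - D.rho1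

private def px2I (Γ : Finset (X × Y)) (c : Fin D.B) (x : X) : Finset D.Var :=
  (univ.filter (fun y => (x, y) ∈ Γ ∧ y ∉ D.O.OY c)).image (fun y => Sum.inl (c, y))

private theorem px2_sum (Γ : Finset (X × Y)) (c : Fin D.B) (x : X) (φ : D.Lbl) :
    (eB Γ {x} (D.Sc φ c) : ℝ) - D.rho1 * (eB Γ {x} (D.O.OY c)ᶜ : ℝ) =
      ∑ b ∈ px2I D Γ c x, px2T D b φ := by
  unfold px2I
  rw [Finset.sum_image (by
    intro a _ b _ h
    exact (Prod.mk.inj (Sum.inl.inj h)).2)]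
  unfold px2T
  rw [Finset.sum_sub_distrib, Finset.sum_const, Finset.sum_boole, Finset.filter_filter, px2_eB, px2_eB,
    nsmul_eq_mul]
  congr 1
  · congr 2
    ext y
    simp only [mem_filter, mem_univ, true_and]
    rw [px2_Sc]
    tauto
  · rw [mul_comm]
    congr 3
    ext y
    simp only [mem_filter, mem_univ, true_and, mem_compl]

private theorem px2_card (Γ : Finset (X × Y)) (c : Fin D.B) (x : X) :
    (px2I D Γ c x).card ≤ dgX Γ x := by
  refine card_image_le.trans ?_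
  unfold dgX
  rw [px2_eB]
  apply card_le_card
  intro y hy
  simp only [mem_filter, mem_univ, true_and] at hy ⊢
  exact ⟨hy.1, trivial⟩

private theorem px2_gen (hD : CtxOK D) (Γ : Finset (X × Y)) (c : Fin D.B) (x : X) (W s : ℝ)
    (hW : 0 < W) (hc : (dgX Γ x : ℝ) * D.rho1 ≤ W) (hs : 0 ≤ s) (h1 : 24 * D.t * W ≤ s ^ 2)
    (h2 : s ≤ 2 * W) :
    P (fun φ : D.Lbl => s < |(eB Γ {x} (D.Sc φ c) : ℝ) - D.rho1 * (eB Γ {x} (D.O.OY c)ᶜ : ℝ)|) ≤
      Real.exp (-(5 * D.t)) := by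
  classical
  obtain ⟨_, r2, _, r4, r5, _⟩ := ctx_rho D hD
  have ht : 1 ≤ D.t := by
    have := (ctx_t D hD).1
    have h3 : (1 : ℝ) ≤ D.t := le_trans (by norm_num) this
    exact_mod_cast h3
  have hmix : ∀ b ∈ px2I D Γ c x, ∀ φ ψ : D.Lbl, px2T D b (mix (px2I D Γ c x) φ ψ) = px2T D b φ := by
    intro b hb φ ψ
    unfold px2T
    rw [mix_in hb]
  have hr1 : D.rho1 ≤ 1 := r2.trans r4
  have hE1 : ∀ b : D.Var, E (fun φ : D.Lbl =>
      (if ((φ b).1 : ℕ) < D.NX ∧ ((φ b).2.1 : ℕ) ≠ 0 then (1 : ℝ) else 0)) = D.rho1 := by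
    intro b
    have := E_P (fun φ : D.Lbl => ((φ b).1 : ℕ) < D.NX ∧ ((φ b).2.1 : ℕ) ≠ 0) 1
    rw [one_mul, P_inz D hD b] at this
    exact this
  have key := loc_tail (px2I D Γ c x) (px2T D) ?_ ?_ ?_ W hW ?_ D.t ht s hs h1 h2
  · refine le_trans (le_of_eq ?_) key
    congr 1
    funext φ
    rw [px2_sum]
  · intro b hb ψ φ φ' h
    simp only
    rw [hmix b hb, hmix b hb]
    unfold px2T
    rw [h b (mem_singleton_self b)]
  · intro b hb ψ
    unfold px2T
    rw [abs_le]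
    split_ifs
    · constructor <;> linarith
    · constructor <;> linarith
  · intro b hb ψ
    rw [E_congr (hmix b hb · ψ)]
    unfold px2T
    rw [E_sub, hE1, E_const, sub_self]
  · intro ψ
    have h3 : ∀ b ∈ px2I D Γ c x, E (fun φ => (px2T D b (mix (px2I D Γ c x) φ ψ)) ^ 2) ≤ D.rho1 := by
      intro b hb
      have h4 : E (fun φ => (px2T D b (mix (px2I D Γ c x) φ ψ)) ^ 2) ≤
          E (fun φ : D.Lbl => (1 - 2 * D.rho1) *
            (if ((φ b).1 : ℕ) < D.NX ∧ ((φ b).2.1 : ℕ) ≠ 0 then (1 : ℝ) else 0) + D.rho1 ^ 2) := by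
        apply E_mono
        intro φ
        rw [hmix b hb]
        unfold px2T
        apply le_of_eq
        split_ifs
        · ring
        · ring
      refine h4.trans ?_
      rw [E_add, E_mul_left, hE1, E_const]
      nlinarith
    calc ∑ b ∈ px2I D Γ c x, E (fun φ => (px2T D b (mix (px2I D Γ c x) φ ψ)) ^ 2)
        ≤ ∑ b ∈ px2I D Γ c x, D.rho1 := Finset.sum_le_sum h3
      _ = (px2I D Γ c x).card * D.rho1 := by rw [Finset.sum_const, nsmul_eq_mul]
      _ ≤ (dgX Γ x : ℝ) * D.rho1 := by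
          apply mul_le_mul_of_nonneg_right _ r5.le
          exact_mod_cast px2_card D Γ c x
      _ ≤ W := hc

private theorem px2_near (Γ : Finset (X × Y)) (hΓ : Γ ⊆ D.H.G) (c : Fin D.B) (x : X) (φ ψ : D.Lbl)
    (h : ∀ v ∈ nearV D.B D.H.G (.inl x), φ v = ψ v) :
    eB Γ {x} (D.Sc φ c) = eB Γ {x} (D.Sc ψ c) := by
  rw [px2_eB, px2_eB]
  congr 1
  ext y
  simp only [mem_filter, mem_univ, true_and]
  constructor
  · rintro ⟨h1, h2⟩
    refine ⟨h1, ?_⟩
    have h3 : φ (.inl (c, y)) = ψ (.inl (c, y)) := by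
      apply h
      simp only [nearV, mem_filter, mem_univ, true_and]
      have h4 := (ball_edge D.H.G 0 {Sum.inl x} (x, y) (hΓ h1)).1 (by simp [ball])
      exact ball_mono D.H.G _ _ (by norm_num) _ _ (Finset.Subset.refl _) h4
    rw [px2_Sc] at h2 ⊢
    rw [← h3]
    exact h2
  · rintro ⟨h1, h2⟩
    refine ⟨h1, ?_⟩
    have h3 : φ (.inl (c, y)) = ψ (.inl (c, y)) := by
      apply h
      simp only [nearV, mem_filter, mem_univ, true_and]
      have h4 := (ball_edge D.H.G 0 {Sum.inl x} (x, y) (hΓ h1)).1 (by simp [ball])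
      exact ball_mono D.H.G _ _ (by norm_num) _ _ (Finset.Subset.refl _) h4
    rw [px2_Sc] at h2 ⊢
    rw [h3]
    exact h2

theorem bX2_ok (hD : CtxOK D) (c : Fin D.B) (x : X) :
    Dep (fun φ : D.Lbl => D.bX2 φ c x) (nearV D.B D.H.G (.inl x)) ∧
    P (fun φ : D.Lbl => D.bX2 φ c x) ≤ Real.exp (-(4 * D.t)) := by
  obtain ⟨t1, _⟩ := ctx_t D hD
  obtain ⟨d1, d2, d3, d4⟩ := ctx_deg D hD
  obtain ⟨_, r2, r3, r4, r5, _⟩ := ctx_rho D hD
  obtain ⟨f1, _, f3, f4, f5⟩ := ctx_F D hD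
  have ht : (100 : ℝ) ≤ D.t := le_trans (by norm_num) t1
  have hκ0 : (0 : ℝ) < D.κ := lt_of_lt_of_le (by positivity) d1
  have hd0 : (0 : ℝ) < D.d := lt_of_lt_of_le hκ0 d2
  have hη0 : 0 < eta D.t * D.κ := mul_pos f4 hκ0
  constructor
  · intro φ ψ h
    simp only [Ctx.bX2]
    rw [px2_near D D.F hD.res.sub c x φ ψ h]
  · have hsq : Real.sqrt (eta D.t * D.κ) ^ 2 = eta D.t * D.κ := Real.sq_sqrt hη0.le
    have hsκ : (D.t : ℝ) ≤ Real.sqrt (eta D.t * D.κ) := by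
      apply Real.le_sqrt_of_sq_le
      refine le_trans ?_ f3
      exact pow_le_pow_right₀ (by linarith) (by norm_num)
    have hdg : (dgX D.F x : ℝ) ≤ 101 / 100 * (eta D.t * D.d) := (f1 x).2
    have key := px2_gen D hD D.F c x (2 * (eta D.t * D.κ)) (Real.sqrt (eta D.t * D.κ) * D.t)
      (by positivity) ?_ (by positivity) ?_ ?_
    · refine le_trans key ?_
      apply Real.exp_le_exp.2
      linarith
    · calc (dgX D.F x : ℝ) * D.rho1 ≤ (101 / 100 * (eta D.t * D.d)) * (D.κ / D.d) := by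
            apply mul_le_mul hdg (r2.trans r3) r5.le
            positivity
        _ = 101 / 100 * (eta D.t * D.κ) := by field_simp
        _ ≤ 2 * (eta D.t * D.κ) := by linarith
    · rw [mul_pow, hsq]
      nlinarith [mul_pos hη0 (by linarith : (0 : ℝ) < D.t)]
    · calc Real.sqrt (eta D.t * D.κ) * D.t
          ≤ Real.sqrt (eta D.t * D.κ) * Real.sqrt (eta D.t * D.κ) := by gcongr
        _ = eta D.t * D.κ := by rw [← sq, hsq]
        _ ≤ 2 * (2 * (eta D.t * D.κ)) := by linarith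

end Pool.SCDH
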