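import Pool.Agent.Lib.SCDH.MDefs
import Pool.Agent.Lib.SCDH.G01
import Pool.Agent.Lib.SCDH.G03
import Pool.Agent.Lib.SCDH.N01
import Pool.Agent.Lib.SCDH.N02
import Pool.Agent.Lib.SCDH.L01
import Pool.Agent.Lib.SCDH.L03

/-!
# Row PX3 (paper scd_h36.md)
F-edges from x into one half of Sc: mean = (ρ₁/2) #{y ∉ OY c, (x,y) ∈ F}; #... ≥ 0.99 η d - n/t^26 ≥ 0.98 η d (OutOK.o3X), so mean ≥ 0.4 ηκ, and the deviation 0.3 ηκ has probability ≤ exp(-5t): loc_tail with W = 2ηκ? better: s = √(ηκ) t as in PX2 and √(ηκ) t ≤ 0.1 ηκ.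
-/

set_option linter.unusedSectionVars false
set_option linter.unusedVariables false

namespace Pool.SCDH

open Finset Pool.MP_0ccee8_co.Lib2

variable {X Y : Type} [Fintype X] [DecidableEq X] [Fintype Y] [DecidableEq Y]
variable (D : Ctx X Y)

/-- the neighbours of `x` in the reserve outside the outer set -/
private def nbF (c : Fin D.B) (x : X) : Finset Y := univ.filter (fun y => (x, y) ∈ D.F ∧ y ∉ D.O.OY c)

/-- the label event -/
private def evA (b : Fin 2) (w : D.Var) (φ : D.Lbl) : Prop :=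
  (((φ w).1 : ℕ) < D.NX ∧ ((φ w).2.1 : ℕ) ≠ 0) ∧ (φ w).2.2.1 = b

private lemma mem_Sh (φ : D.Lbl) (c : Fin D.B) (b : Fin 2) (y : Y) :
    y ∈ D.Sh φ c b ↔ y ∉ D.O.OY c ∧ evA D b (.inl (c, y)) φ := by
  unfold Ctx.Sh Ctx.Sc Ctx.Sin Ctx.Zs evA
  simp only [mem_filter, mem_sdiff, mem_univ, true_and]
  tauto

private lemma eB_single (Γ : Finset (X × Y)) (x : X) (S : Finset Y) :
    eB Γ {x} S = (univ.filter (fun y => (x, y) ∈ Γ ∧ y ∈ S)).card := by
  unfold eB
  symm
  refine card_bij (fun y _ => (x, y)) ?_ ?_ ?_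
  · intro y hy
    simp only [mem_filter, mem_univ, true_and] at hy
    simp only [mem_filter, mem_singleton, true_and]
    exact hy
  · intro y _ y' _ h
    exact (Prod.mk.inj h).2
  · rintro ⟨x', y⟩ he
    simp only [mem_filter, mem_singleton] at he
    obtain ⟨h1, h2, h3⟩ := he
    subst h2
    exact ⟨y, by simp only [mem_filter, mem_univ, true_and]; exact ⟨h1, h3⟩, rfl⟩

open Classical in
private lemma eB_Sh (φ : D.Lbl) (c : Fin D.B) (b : Fin 2) (x : X) :
    (eB D.F {x} (D.Sh φ c b) : ℝ) = ∑ y ∈ nbF D c x, if evA D b (.inl (c, y)) φ then (1 : ℝ) else 0 := by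
  rw [eB_single, sum_boole]
  congr 1
  congr 1
  ext y
  simp only [nbF, mem_filter, mem_univ, true_and, mem_Sh]
  tauto

private lemma nbF_card (c : Fin D.B) (x : X) :
    eB D.F {x} (D.O.OY c) + (nbF D c x).card = dgX D.F x := by
  unfold dgX
  rw [← eB_complY D.F {x} (D.O.OY c), eB_single D.F x (D.O.OY c)ᶜ]
  congr 2
  ext y
  simp only [nbF, mem_filter, mem_univ, true_and, mem_compl]

theorem bX3_ok (hD : CtxOK D) (c : Fin D.B) (b : Fin 2) (x : X) :
    Dep (fun φ : D.Lbl => D.bX3 φ c b x) (nearV D.B D.H.G (.inl x)) ∧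
    P (fun φ : D.Lbl => D.bX3 φ c b x) ≤ Real.exp (-(4 * D.t)) := by
  classical
  constructor
  · intro φ ψ h
    have h1 : D.Sh φ c b ∩ univ.filter (fun y => (x, y) ∈ D.F)
        = D.Sh ψ c b ∩ univ.filter (fun y => (x, y) ∈ D.F) := by
      ext y
      simp only [mem_inter, mem_filter, mem_univ, true_and, mem_Sh]
      constructor
      · rintro ⟨⟨h2, h3⟩, h4⟩
        have h5 := h (.inl (c, y)) (by
          unfold nearV
          simp only [mem_filter, mem_univ, true_and]
          have h6 := (ball_edge D.H.G 0 {Sum.inl x} (x, y) (hD.res.sub h4)).1 (by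
            simp [ball])
          exact ball_mono D.H.G 1 4 (by norm_num) _ _ (Subset.refl _) h6)
        refine ⟨⟨h2, ?_⟩, h4⟩
        unfold evA at h3 ⊢
        rw [← h5]
        exact h3
      · rintro ⟨⟨h2, h3⟩, h4⟩
        have h5 := h (.inl (c, y)) (by
          unfold nearV
          simp only [mem_filter, mem_univ, true_and]
          have h6 := (ball_edge D.H.G 0 {Sum.inl x} (x, y) (hD.res.sub h4)).1 (by
            simp [ball])
          exact ball_mono D.H.G 1 4 (by norm_num) _ _ (Subset.refl _) h6)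
        refine ⟨⟨h2, ?_⟩, h4⟩
        unfold evA at h3 ⊢
        rw [h5]
        exact h3
    have h2 : ∀ S : Finset Y, eB D.F {x} S = (S ∩ univ.filter (fun y => (x, y) ∈ D.F)).card := by
      intro S
      rw [eB_single]
      congr 1
      ext y
      simp only [mem_inter, mem_filter, mem_univ, true_and]
      tauto
    simp only [Ctx.bX3]
    rw [h2, h2, h1]
  · obtain ⟨ht1, -, -, -⟩ := ctx_t D hD
    obtain ⟨hk1, hk2, hk3, hk4⟩ := ctx_deg D hD
    obtain ⟨hr1, hr2, hr3, hr4, hr5, -⟩ := ctx_rho D hD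
    obtain ⟨hF1, -, hF3, hF4, hF5⟩ := ctx_F D hD
    have htpos : (0 : ℝ) < D.t := by linarith [show (0 : ℝ) < 10 ^ 100 by positivity]
    have ht1' : (10 : ℝ) ^ 3 ≤ D.t := le_trans (by norm_num) ht1
    have hd0 : (0 : ℝ) < D.d := by
      have : (0 : ℝ) < (D.t : ℝ) ^ 50 := by positivity
      linarith
    have hκ0 : (0 : ℝ) < D.κ := by
      have : (0 : ℝ) < (D.t : ℝ) ^ 50 := by positivity
      linarith
    set W : ℝ := eta D.t * D.κ with hW
    have hW0 : 0 < W := by positivity
    -- number of neighbours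
    have hN1 : ((nbF D c x).card : ℝ) ≤ 101 / 100 * (eta D.t * D.d) := by
      have h1 := nbF_card D c x
      have h2 : ((nbF D c x).card : ℝ) ≤ dgX D.F x := by
        rw [← h1]; push_cast; linarith [Nat.cast_nonneg (α := ℝ) (eB D.F {x} (D.O.OY c))]
      linarith [(hF1 x).2]
    have hN2 : 98 / 100 * (eta D.t * D.d) ≤ ((nbF D c x).card : ℝ) := by
      have h1 := nbF_card D c x
      have h2 : (eB D.F {x} (D.O.OY c) : ℝ) ≤ eB D.H.G {x} (D.O.OY c) := by
        exact_mod_cast eB_mono D.F D.H.G hD.res.sub {x} {x} (Subset.refl _) _ _ (Subset.refl _)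
      have h3 : (D.t : ℝ) ^ 26 * eB D.H.G {x} (D.O.OY c) ≤ D.n := by
        exact_mod_cast hD.out.o3X c x
      have h4 : (D.t : ℝ) ^ 26 * (1 / 100 * (eta D.t * D.d)) ≥ D.n := by
        unfold eta
        have h5 : (D.t : ℝ) ^ 26 * (1 / 100 * (1 / (D.t : ℝ) ^ 21 * D.d)) = (D.t : ℝ) ^ 5 / 100 * D.d := by
          field_simp
        rw [h5]
        have h6 : (2 : ℝ) ≤ (D.t : ℝ) ^ 5 / 100 := by
          have : ((10 : ℝ) ^ 3) ^ 5 ≤ (D.t : ℝ) ^ 5 := pow_le_pow_left₀ (by positivity) ht1' 5
          norm_num at this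
          linarith
        nlinarith
      have h7 : (eB D.H.G {x} (D.O.OY c) : ℝ) ≤ 1 / 100 * (eta D.t * D.d) :=
        le_of_mul_le_mul_left (h3.trans h4) (by positivity)
      have h8 : ((eB D.F {x} (D.O.OY c) : ℝ)) + (nbF D c x).card = dgX D.F x := by exact_mod_cast h1
      linarith [(hF1 x).1]
    set p : ℝ := D.rho1 / 2 with hp
    have hp0 : 0 < p := by positivity
    have hmean1 : 4 / 10 * W ≤ p * (nbF D c x).card := by
      have h1 : 99 / 200 * ((D.κ : ℝ) / D.d) ≤ p := by rw [hp]; linarith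
      calc 4 / 10 * W ≤ 99 / 200 * ((D.κ : ℝ) / D.d) * (98 / 100 * (eta D.t * D.d)) := by
            have : 99 / 200 * ((D.κ : ℝ) / D.d) * (98 / 100 * (eta D.t * D.d))
              = 99 / 200 * (98 / 100) * W := by
              rw [hW]; field_simp
            rw [this]
            nlinarith
        _ ≤ p * (nbF D c x).card := by
            apply mul_le_mul h1 hN2 (by positivity) hp0.le
    have hmean2 : p * (nbF D c x).card ≤ W := by
      have h1 : p ≤ 1 / 2 * ((D.κ : ℝ) / D.d) := by rw [hp]; linarith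
      calc p * (nbF D c x).card ≤ 1 / 2 * ((D.κ : ℝ) / D.d) * (101 / 100 * (eta D.t * D.d)) := by
            apply mul_le_mul h1 hN1 (by positivity) (by positivity)
        _ = 101 / 200 * W := by
            have : 1 / 2 * ((D.κ : ℝ) / D.d) * (101 / 100 * (eta D.t * D.d))
              = 101 / 200 * W * (D.d / D.d) := by rw [hW]; ring
            rw [this, div_self hd0.ne', mul_one]
        _ ≤ W := by linarith
    let T : D.Var → D.Lbl → ℝ := fun w φ => (if evA D b w φ then (1 : ℝ) else 0) - p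
    let I : Finset D.Var := (nbF D c x).image (fun y => (Sum.inl (c, y) : D.Var))
    have hinj : Set.InjOn (fun y => (Sum.inl (c, y) : D.Var)) (nbF D c x) := by
      intro y _ y' _ h
      have := Sum.inl_injective h
      exact (Prod.mk.inj this).2
    have hEA : ∀ w ∈ I, ∀ ψ : D.Lbl,
        E (fun φ : D.Lbl => if evA D b w (mix I φ ψ) then (1 : ℝ) else 0) = p := by
      intro w hw ψ
      rw [hp, ← P_inzb D hD w b]
      unfold P
      refine E_congr (fun φ => ?_)
      unfold evA
      rw [mix_in hw]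
    have hsum : ∀ φ : D.Lbl, ∑ w ∈ I, T w φ = (eB D.F {x} (D.Sh φ c b) : ℝ) - p * (nbF D c x).card := by
      intro φ
      rw [sum_image hinj, eB_Sh, sum_sub_distrib, sum_const, nsmul_eq_mul]
      ring
    have key := loc_tail I T ?_ ?_ ?_ W hW0 ?_ D.t ?_ (3 / 10 * W) (by positivity) ?_ (by linarith)
    · refine le_trans (P_mono (B := fun φ => 3 / 10 * W < |∑ w ∈ I, T w φ|) ?_) (key.trans ?_)
      · intro φ hφ
        unfold Ctx.bX3 at hφ
        rw [← hW] at hφ
        rw [hsum φ, abs_sub_comm]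
        refine lt_of_lt_of_le ?_ (le_abs_self _)
        linarith
      · apply Real.exp_le_exp.mpr
        linarith
    · intro w hw ψ φ φ' h
      have h1 : evA D b w (mix I φ ψ) = evA D b w (mix I φ' ψ) := by
        unfold evA
        rw [mix_in hw, mix_in hw, h w (mem_singleton_self w)]
      simp only [T, h1]
    · intro w hw ψ
      simp only [T]
      have hp1 : p ≤ 1 := by rw [hp]; linarith
      split_ifs
      · rw [abs_le]; constructor <;> linarith
      · rw [abs_le]; constructor <;> linarith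
    · intro w hw ψ
      simp only [T]
      rw [E_sub, hEA w hw ψ, E_const, sub_self]
    · intro ψ
      have h1 : ∀ w ∈ I, E (fun φ : D.Lbl => (T w (mix I φ ψ)) ^ 2) ≤ p := by
        intro w hw
        have h2 : E (fun φ : D.Lbl => (T w (mix I φ ψ)) ^ 2)
            = E (fun φ : D.Lbl => (1 - 2 * p) * (if evA D b w (mix I φ ψ) then (1 : ℝ) else 0) + p ^ 2) := by
          refine E_congr (fun φ => ?_)
          simp only [T]
          split_ifs <;> ring
        rw [h2, E_add, E_mul_left, hEA w hw ψ, E_const]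
        nlinarith
      refine (sum_le_sum h1).trans ?_
      rw [sum_const, card_image_of_injOn hinj, nsmul_eq_mul, mul_comm]
      exact hmean2
    · have : (0 : ℝ) < D.t := htpos
      exact_mod_cast this
    · -- 24 t W ≤ (0.3 W)^2
      have h1 : (267 : ℝ) * D.t ≤ W := by
        refine le_trans ?_ hF3
        have h2 : (D.t : ℝ) ^ 29 = (D.t : ℝ) ^ 28 * D.t := by ring
        rw [h2]
        have h3 : (267 : ℝ) ≤ (D.t : ℝ) ^ 28 := by
          have : ((10 : ℝ) ^ 3) ^ 28 ≤ (D.t : ℝ) ^ 28 := pow_le_pow_left₀ (by positivity) ht1' 28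
          refine le_trans (by norm_num) this
        nlinarith
      nlinarith

end Pool.SCDH
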