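import Pool.Agent.Lib.SCDH.MDefs
import Pool.Agent.Lib.SCDH.G01
import Pool.Agent.Lib.SCDH.G03
import Pool.Agent.Lib.SCDH.N01
import Pool.Agent.Lib.SCDH.N02
import Pool.Agent.Lib.SCDH.L01
import Pool.Agent.Lib.SCDH.L03

/-!
# Row PX4 (paper scd_h36.md)
Owner fluctuation at x, conditional on all variables except the edge variables at x (I = those): on the event #(N_Hb(x) ∩ Sc) ≤ 4κ (which is old) the sum over y ∈ Sc, (x,y) ∈ Hb, slot c y ≤ s of (1[own = slot] - θ) has second moment ≤ 4κθ ≤ 6 t^20. loc_tail: put T b := 0 when the old event fails; W = 6 t^20, s = t^12. dgX (Pc) x counts exactly the y with own = slot (own ≤ s, so slot ≥ s+1 contributes 0).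
-/

set_option linter.unusedSectionVars false
set_option linter.unusedVariables false

namespace Pool.SCDH

open Finset Pool.MP_0ccee8_co.Lib2

variable {X Y : Type} [Fintype X] [DecidableEq X] [Fintype Y] [DecidableEq Y]
variable (D : Ctx X Y)

private lemma Sin_congr4 (φ ψ : D.Lbl) (y : Y)
    (h : ∀ c', φ (.inl (c', y)) = ψ (.inl (c', y))) (c : Fin D.B) :
    y ∈ D.Sin φ c ↔ y ∈ D.Sin ψ c := by
  simp only [Ctx.Sin, mem_filter, mem_univ, true_and, h c]

private lemma Zs_congr4 (φ ψ : D.Lbl) (y : Y)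
    (h : ∀ c', φ (.inl (c', y)) = ψ (.inl (c', y))) (c : Fin D.B) :
    y ∈ D.Zs φ c ↔ y ∈ D.Zs ψ c := by
  simp only [Ctx.Zs, mem_filter, mem_univ, true_and, h c]

private lemma Sc_congr4 (φ ψ : D.Lbl) (y : Y)
    (h : ∀ c', φ (.inl (c', y)) = ψ (.inl (c', y))) (c : Fin D.B) :
    y ∈ D.Sc φ c ↔ y ∈ D.Sc ψ c := by
  simp only [Ctx.Sc, mem_sdiff, Sin_congr4 D φ ψ y h c, Zs_congr4 D φ ψ y h c]

private lemma slot_congr4 (φ ψ : D.Lbl) (y : Y)
    (h : ∀ c', φ (.inl (c', y)) = ψ (.inl (c', y))) (c : Fin D.B) :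
    D.slot φ c y = D.slot ψ c y := by
  unfold Ctx.slot
  congr 1
  refine filter_congr (fun c' _ => ?_)
  rw [Sin_congr4 D φ ψ y h c', Zs_congr4 D φ ψ y h c']

private lemma ball_self4 (G : Finset (X × Y)) (v : X ⊕ Y) : v ∈ ball G 4 {v} := by
  simp [ball]

private lemma ball_nb4 (G : Finset (X × Y)) (x : X) (y : Y) (h : (x, y) ∈ G) :
    (Sum.inr y : X ⊕ Y) ∈ ball G 4 {Sum.inl x} := by
  have h1 : (Sum.inr y : X ⊕ Y) ∈ ball G 1 {Sum.inl x} := by
    simp only [ball, mem_union, mem_biUnion]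
    right
    exact ⟨Sum.inl x, by simp, by simp [nbrs, h]⟩
  have h2 : ∀ R, ball G R {(Sum.inl x : X ⊕ Y)} ⊆ ball G (R + 1) {Sum.inl x} := by
    intro R
    simp only [ball]
    exact subset_union_left
  exact h2 3 (h2 2 (h2 1 h1))

private lemma eB_eq4 (Γ : Finset (X × Y)) (x : X) (S : Finset Y) :
    eB Γ {x} S = (univ.filter (fun y => y ∈ S ∧ (x, y) ∈ Γ)).card := by
  unfold eB
  refine card_bij' (fun e _ => e.2) (fun y _ => (x, y)) ?_ ?_ ?_ ?_
  · rintro ⟨a, b⟩ h
    simp only [mem_filter, mem_singleton, mem_univ, true_and] at h ⊢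
    obtain ⟨h1, h2, h3⟩ := h
    subst h2
    exact ⟨h3, h1⟩
  · intro y h
    simp only [mem_filter, mem_singleton, mem_univ, true_and] at h ⊢
    exact ⟨h.2, h.1⟩
  · rintro ⟨a, b⟩ h
    simp only [mem_filter, mem_singleton] at h ⊢
    rw [h.2.1]
  · intro y h
    rfl

private lemma dgX_Pc4 (φ : D.Lbl) (c : Fin D.B) (x : X) (hx : x ∉ D.O.OX c) :
    dgX (D.Pc φ c) x = (univ.filter (fun y => (x, y) ∈ D.Hb ∧ y ∈ D.Sc φ c ∧
      D.own φ (x, y) = D.slot φ c y)).card := by
  unfold dgX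
  rw [eB_eq4]
  congr 1
  refine filter_congr (fun y _ => ?_)
  simp only [Ctx.Pc, Ctx.Pv, mem_filter, mem_univ, true_and]
  tauto

theorem bX4_ok (hD : CtxOK D) (c : Fin D.B) (x : X) :
    Dep (fun φ : D.Lbl => D.bX4 φ c x) (nearV D.B D.H.G (.inl x)) ∧
    P (fun φ : D.Lbl => D.bX4 φ c x) ≤ Real.exp (-(4 * D.t)) := by
  classical
  obtain ⟨ht100, -, -, -⟩ := ctx_t D hD
  have ht1 : (1 : ℝ) ≤ D.t := le_trans (by norm_num) ht100
  obtain ⟨hθ1, hθ2, hθ0, hθ3, -, -, -⟩ := ctx_theta D hD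
  constructor
  · intro φ ψ h
    have hsub : D.Hb ⊆ D.H.G := hD.bulk.sub
    have hl : ∀ y, (x, y) ∈ D.Hb → ∀ c', φ (.inl (c', y)) = ψ (.inl (c', y)) := by
      intro y hy c'
      refine h _ ?_
      simp only [nearV, mem_filter, mem_univ, true_and]
      exact ball_nb4 _ x y (hsub hy)
    have hr : ∀ y, (x, y) ∈ D.Hb → φ (.inr (x, y)) = ψ (.inr (x, y)) := by
      intro y hy
      refine h _ ?_
      simp only [nearV, mem_filter, mem_univ, true_and]
      exact ⟨ball_self4 _ _, hsub hy⟩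
    have e1 : eB D.Hb {x} (D.Sc φ c) = eB D.Hb {x} (D.Sc ψ c) := by
      rw [eB_eq4, eB_eq4]
      congr 1
      refine filter_congr (fun y _ => ?_)
      constructor
      · rintro ⟨h1, h2⟩
        exact ⟨(Sc_congr4 D φ ψ y (hl y h2) c).1 h1, h2⟩
      · rintro ⟨h1, h2⟩
        exact ⟨(Sc_congr4 D φ ψ y (hl y h2) c).2 h1, h2⟩
    have e2 : (univ.filter (fun y => y ∈ D.Sc φ c ∧ (x, y) ∈ D.Hb ∧ D.slot φ c y < D.s + 1))
        = (univ.filter (fun y => y ∈ D.Sc ψ c ∧ (x, y) ∈ D.Hb ∧ D.slot ψ c y < D.s + 1)) := by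
      refine filter_congr (fun y _ => ?_)
      constructor
      · rintro ⟨h1, h2, h3⟩
        exact ⟨(Sc_congr4 D φ ψ y (hl y h2) c).1 h1, h2, by rwa [← slot_congr4 D φ ψ y (hl y h2) c]⟩
      · rintro ⟨h1, h2, h3⟩
        exact ⟨(Sc_congr4 D φ ψ y (hl y h2) c).2 h1, h2, by rwa [slot_congr4 D φ ψ y (hl y h2) c]⟩
    by_cases hx : x ∈ D.O.OX c
    · simp only [Ctx.bX4, hx, not_true_eq_false, false_and]
    · have e3 : dgX (D.Pc φ c) x = dgX (D.Pc ψ c) x := by
        rw [dgX_Pc4 D φ c x hx, dgX_Pc4 D ψ c x hx]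
        congr 1
        refine filter_congr (fun y _ => ?_)
        constructor
        · rintro ⟨h1, h2, h3⟩
          refine ⟨h1, (Sc_congr4 D φ ψ y (hl y h1) c).1 h2, ?_⟩
          rw [← slot_congr4 D φ ψ y (hl y h1) c, ← h3]
          unfold Ctx.own
          rw [hr y h1]
        · rintro ⟨h1, h2, h3⟩
          refine ⟨h1, (Sc_congr4 D φ ψ y (hl y h1) c).2 h2, ?_⟩
          rw [slot_congr4 D φ ψ y (hl y h1) c, ← h3]
          unfold Ctx.own
          rw [hr y h1]
      show D.bX4 φ c x = D.bX4 ψ c x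
      unfold Ctx.bX4
      rw [e1, e2, e3]
  · -- probability
    let I : Finset D.Var := (univ.filter (fun y => (x, y) ∈ D.Hb)).image (fun y => Sum.inr (x, y))
    let cond : D.Lbl → Y → Prop := fun φ y =>
      eB D.Hb {x} (D.Sc φ c) ≤ 4 * D.κ ∧ y ∈ D.Sc φ c ∧ D.slot φ c y < D.s + 1
    let T : D.Var → D.Lbl → ℝ := fun b φ => match b with
      | .inl _ => 0
      | .inr e => if cond φ e.2 then (if D.own φ e = D.slot φ c e.2 then 1 else 0) - D.theta else 0
    have hinl : ∀ (φ ψ : D.Lbl) (p : Fin D.B × Y), mix I φ ψ (.inl p) = ψ (.inl p) := by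
      intro φ ψ p
      refine mix_out ?_
      simp [I]
    have hSc : ∀ (φ ψ : D.Lbl), D.Sc (mix I φ ψ) c = D.Sc ψ c := by
      intro φ ψ
      ext y
      exact Sc_congr4 D _ _ y (fun c' => hinl φ ψ (c', y)) c
    have hslot : ∀ (φ ψ : D.Lbl) (y : Y), D.slot (mix I φ ψ) c y = D.slot ψ c y := by
      intro φ ψ y
      exact slot_congr4 D _ _ y (fun c' => hinl φ ψ (c', y)) c
    have hcond : ∀ (φ ψ : D.Lbl) (y : Y), cond (mix I φ ψ) y = cond ψ y := by
      intro φ ψ y
      simp only [cond, hSc, hslot]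
    have hown : ∀ (φ ψ : D.Lbl) (b : D.Var) (hb : b ∈ I) (e : X × Y), b = Sum.inr e →
        D.own (mix I φ ψ) e = D.own φ e := by
      intro φ ψ b hb e he
      subst he
      unfold Ctx.own
      rw [mix_in hb]
    have hTmix : ∀ (φ ψ : D.Lbl) (e : X × Y), (Sum.inr e : D.Var) ∈ I →
        T (Sum.inr e) (mix I φ ψ) =
        if cond ψ e.2 then (if D.own φ e = D.slot ψ c e.2 then 1 else 0) - D.theta else 0 := by
      intro φ ψ e he
      simp only [T, hcond, hslot, hown φ ψ _ he e rfl]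
    have hform : ∀ b ∈ I, ∃ y, (x, y) ∈ D.Hb ∧ b = Sum.inr (x, y) := by
      intro b hb
      simp only [I, mem_image, mem_filter, mem_univ, true_and] at hb
      obtain ⟨y, hy, hyb⟩ := hb
      exact ⟨y, hy, hyb.symm⟩
    have hEown : ∀ (ψ : D.Lbl) (e : X × Y), D.slot ψ c e.2 < D.s + 1 →
        E (fun φ : D.Lbl => if D.own φ e = D.slot ψ c e.2 then (1 : ℝ) else 0) = D.theta := by
      intro ψ e he
      have := P_own D (Sum.inr e) (D.slot ψ c e.2) he
      rw [← this]
      unfold P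
      refine E_congr (fun φ => ?_)
      unfold Ctx.own
      by_cases h9 : ((φ (Sum.inr e)).2.2.2 : ℕ) = D.slot ψ c e.2
      · simp only [h9, if_true]
      · simp only [h9, if_false]
    have hdep : ∀ b ∈ I, ∀ ψ, Dep (fun φ => T b (mix I φ ψ)) {b} := by
      intro b hb ψ φ φ' h
      obtain ⟨y, hy, rfl⟩ := hform b hb
      show T (Sum.inr (x, y)) (mix I φ ψ) = T (Sum.inr (x, y)) (mix I φ' ψ)
      rw [hTmix φ ψ _ hb, hTmix φ' ψ _ hb]
      have h1 : φ (Sum.inr (x, y)) = φ' (Sum.inr (x, y)) := h _ (by simp)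
      have h2 : D.own φ (x, y) = D.own φ' (x, y) := by
        unfold Ctx.own
        rw [h1]
      rw [h2]
    have hM : ∀ b ∈ I, ∀ ψ, |T b ψ| ≤ 1 := by
      intro b hb ψ
      obtain ⟨y, hy, rfl⟩ := hform b hb
      simp only [T]
      split_ifs
      · rw [abs_le]; constructor <;> linarith
      · rw [abs_le]; constructor <;> linarith
      · simp
    have hmean : ∀ b ∈ I, ∀ ψ, E (fun φ => T b (mix I φ ψ)) = 0 := by
      intro b hb ψ
      obtain ⟨y, hy, rfl⟩ := hform b hb
      rw [E_congr (fun φ => hTmix φ ψ _ hb)]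
      by_cases hc : cond ψ (x, y).2
      · simp only [hc, if_true]
        rw [E_sub (fun φ : D.Lbl => if D.own φ (x, y) = D.slot ψ c (x, y).2 then (1 : ℝ) else 0)
          (fun _ => D.theta), E_const, hEown ψ (x, y) hc.2.2, sub_self]
      · simp only [hc, if_false]
        exact E_const 0
    have hsec : ∀ b ∈ I, ∀ ψ, ∀ y, b = Sum.inr (x, y) →
        E (fun φ => (T b (mix I φ ψ)) ^ 2) ≤ if cond ψ y then D.theta else 0 := by
      intro b hb ψ y hby
      subst hby
      have h1 : ∀ φ, (T (Sum.inr (x, y)) (mix I φ ψ)) ^ 2 =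
        (if cond ψ y then (if D.own φ (x, y) = D.slot ψ c y then 1 else 0) - D.theta else 0) ^ 2 := by
        intro φ
        rw [hTmix φ ψ _ hb]
      rw [E_congr h1]
      by_cases hc : cond ψ y
      · simp only [hc, if_true]
        have h2 : ∀ φ : D.Lbl, ((if D.own φ (x, y) = D.slot ψ c y then (1 : ℝ) else 0) - D.theta) ^ 2
            = (1 - 2 * D.theta) * (if D.own φ (x, y) = D.slot ψ c y then (1 : ℝ) else 0)
              + D.theta ^ 2 := by
          intro φ
          split_ifs <;> ring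
        rw [E_congr h2, E_add (fun φ : D.Lbl => (1 - 2 * D.theta) *
          (if D.own φ (x, y) = D.slot ψ c y then (1 : ℝ) else 0)) (fun _ => D.theta ^ 2),
          E_const, E_mul_left, hEown ψ (x, y) hc.2.2]
        nlinarith [sq_nonneg D.theta]
      · simp only [hc, if_false]
        rw [show (fun _ : D.Lbl => (0 : ℝ) ^ 2) = fun _ => (0 : ℝ) by funext; norm_num, E_const]
    have hinj : Function.Injective (fun y : Y => (Sum.inr (x, y) : D.Var)) := by
      intro y y' h
      simpa using h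
    have hV : ∀ ψ, ∑ b ∈ I, E (fun φ => (T b (mix I φ ψ)) ^ 2) ≤ 6 * (D.t : ℝ) ^ 20 := by
      intro ψ
      simp only [I]
      rw [sum_image (fun y _ y' _ h => hinj h)]
      have h1 : ∑ y ∈ univ.filter (fun y => (x, y) ∈ D.Hb),
          E (fun φ => (T (Sum.inr (x, y)) (mix I φ ψ)) ^ 2)
          ≤ ∑ y ∈ univ.filter (fun y => (x, y) ∈ D.Hb), if cond ψ y then D.theta else 0 := by
        refine sum_le_sum (fun y hy => ?_)
        refine hsec _ ?_ ψ y rfl
        simp only [I]
        exact mem_image_of_mem _ hy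
      refine h1.trans ?_
      rw [← sum_filter, sum_const, nsmul_eq_mul]
      by_cases h4 : eB D.Hb {x} (D.Sc ψ c) ≤ 4 * D.κ
      · have h5 : (filter (fun y => cond ψ y) (univ.filter (fun y => (x, y) ∈ D.Hb))).card
            ≤ eB D.Hb {x} (D.Sc ψ c) := by
          refine le_trans (card_le_card (fun y hy => ?_)) (le_of_eq (eB_eq4 D.Hb x (D.Sc ψ c)).symm)
          have hy1 := (mem_filter.1 hy).2
          have hy2 := (mem_filter.1 (mem_filter.1 hy).1).2
          exact mem_filter.2 ⟨mem_univ _, hy1.2.1, hy2⟩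
        have h6 : ((filter (fun y => cond ψ y) (univ.filter (fun y => (x, y) ∈ D.Hb))).card : ℝ)
            ≤ 4 * D.κ := by
          exact_mod_cast h5.trans h4
        have h7 := mul_le_mul_of_nonneg_right h6 hθ0.le
        have h8 : (0 : ℝ) ≤ (D.t : ℝ) ^ 20 := by positivity
        nlinarith
      · have h5 : (filter (fun y => cond ψ y) (univ.filter (fun y => (x, y) ∈ D.Hb))) = ∅ := by
          refine filter_eq_empty_iff.2 (fun y _ hc => h4 hc.1)
        rw [h5]
        simp
    have key := loc_tail I T hdep hM hmean (6 * (D.t : ℝ) ^ 20) (by positivity) hV D.t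
      (by exact_mod_cast ht1) ((D.t : ℝ) ^ 12) (by positivity) (by
        have e : (24 : ℝ) * D.t * (6 * (D.t : ℝ) ^ 20) = 144 * (D.t : ℝ) ^ 21 := by ring
        have e2 : ((D.t : ℝ) ^ 12) ^ 2 = (D.t : ℝ) ^ 3 * (D.t : ℝ) ^ 21 := by ring
        rw [e, e2]
        refine mul_le_mul_of_nonneg_right ?_ (by positivity)
        have h3 : (D.t : ℝ) ≤ (D.t : ℝ) ^ 3 := by
          calc (D.t : ℝ) = (D.t : ℝ) ^ 1 := (pow_one _).symm
            _ ≤ (D.t : ℝ) ^ 3 := pow_le_pow_right₀ ht1 (by norm_num)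
        have h4 : (144 : ℝ) ≤ 10 ^ 100 := by norm_num
        linarith) (by
        have h3 : (D.t : ℝ) ^ 12 ≤ (D.t : ℝ) ^ 20 := pow_le_pow_right₀ ht1 (by norm_num)
        have h4 : (0 : ℝ) ≤ (D.t : ℝ) ^ 20 := by positivity
        linarith)
    refine (P_mono (fun φ hφ => ?_)).trans (key.trans ?_)
    · -- the event implies the deviation
      obtain ⟨hx, h4, hdev⟩ := hφ
      show (D.t : ℝ) ^ 12 < |∑ b ∈ I, T b φ|
      have hsum : ∑ b ∈ I, T b φ = (dgX (D.Pc φ c) x : ℝ) -
          D.theta * ((univ.filter (fun y => y ∈ D.Sc φ c ∧ (x, y) ∈ D.Hb ∧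
            D.slot φ c y < D.s + 1)).card : ℝ) := by
        simp only [I]
        rw [sum_image (fun y _ y' _ h => hinj h)]
        have h5 : ∀ y ∈ univ.filter (fun y => (x, y) ∈ D.Hb), T (Sum.inr (x, y)) φ =
            (if y ∈ D.Sc φ c ∧ D.own φ (x, y) = D.slot φ c y then (1 : ℝ) else 0)
            - D.theta * (if y ∈ D.Sc φ c ∧ D.slot φ c y < D.s + 1 then (1 : ℝ) else 0) := by
          intro y hy
          simp only [T, cond, h4, true_and]
          by_cases h6 : y ∈ D.Sc φ c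
          · by_cases h7 : D.slot φ c y < D.s + 1
            · simp [h6, h7]
            · have h8 : D.own φ (x, y) ≠ D.slot φ c y := by
                intro h9
                apply h7
                rw [← h9]
                exact (φ (.inr (x, y))).2.2.2.isLt
              simp [h6, h7, h8]
          · simp [h6]
        rw [sum_congr rfl h5, sum_sub_distrib, ← mul_sum, dgX_Pc4 D φ c x hx]
        congr 1
        · rw [sum_boole, filter_filter]
        · congr 1
          rw [sum_boole, filter_filter]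
          congr 2
          ext y
          simp only [mem_filter, mem_univ, true_and]
          tauto
      rw [hsum]
      exact hdev
    · apply Real.exp_le_exp.2
      linarith

end Pool.SCDH
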