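import Pool.Agent.Lib.SCDH.MDefs
import Pool.Agent.Lib.SCDH.G01
import Pool.Agent.Lib.SCDH.G03
import Pool.Agent.Lib.SCDH.N01
import Pool.Agent.Lib.SCDH.N02
import Pool.Agent.Lib.SCDH.L01
import Pool.Agent.Lib.SCDH.L03

/-!
# Row PX5 (paper scd_h36.md)
Private reserve degree at x: conditional on everything except the edge variables at x; on the old event #(N_F(x) ∩ Sin) ≤ 4ηκ: loc_rare with p = θ (if slot ≤ s), μ = 4θηκ ≤ 6/t.
-/

set_option linter.unusedSectionVars false
set_option linter.unusedVariables false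

namespace Pool.SCDH

open Finset Pool.MP_0ccee8_co.Lib2

variable {X Y : Type} [Fintype X] [DecidableEq X] [Fintype Y] [DecidableEq Y]
variable (D : Ctx X Y)

namespace PX5aux

private lemma ball_self (G : Finset (X × Y)) (R : ℕ) (T : Finset (X ⊕ Y)) : T ⊆ ball G R T := by
  induction R with
  | zero => exact fun _ h => h
  | succ R ih => exact fun v hv => mem_union_left _ (ih hv)

private lemma ball_nb (G : Finset (X × Y)) (R : ℕ) (x : X) (y : Y) (h : (x, y) ∈ G) :
    Sum.inr y ∈ ball G (R + 1) {Sum.inl x} := by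
  refine mem_union_right _ (mem_biUnion.2 ⟨Sum.inl x, ball_self G R _ (mem_singleton_self _), ?_⟩)
  simp [nbrs, h]

/-- what the labels near `x` determine -/
private lemma near_eq (x : X) (φ ψ : D.Lbl)
    (h : ∀ v ∈ nearV D.B D.H.G (.inl x), φ v = ψ v) :
    (∀ c y, (x, y) ∈ D.H.G → φ (.inl (c, y)) = ψ (.inl (c, y))) ∧
    (∀ y, (x, y) ∈ D.H.G → φ (.inr (x, y)) = ψ (.inr (x, y))) := by
  constructor
  · intro c y hy
    apply h
    simp only [nearV, mem_filter, mem_univ, true_and]
    exact ball_nb D.H.G 3 x y hy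
  · intro y hy
    apply h
    simp only [nearV, mem_filter, mem_univ, true_and]
    exact ⟨ball_self D.H.G 4 _ (mem_singleton_self _), hy⟩

private lemma Sin_iff (φ ψ : D.Lbl) (c : Fin D.B) (y : Y)
    (h : ∀ c : Fin D.B, φ (.inl (c, y)) = ψ (.inl (c, y))) : y ∈ D.Sin φ c ↔ y ∈ D.Sin ψ c := by
  simp only [Ctx.Sin, mem_filter, mem_univ, true_and, h c]

private lemma Zs_iff (φ ψ : D.Lbl) (c : Fin D.B) (y : Y)
    (h : ∀ c : Fin D.B, φ (.inl (c, y)) = ψ (.inl (c, y))) : y ∈ D.Zs φ c ↔ y ∈ D.Zs ψ c := by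
  simp only [Ctx.Zs, mem_filter, mem_univ, true_and, h c]

private lemma slot_eq (φ ψ : D.Lbl) (c : Fin D.B) (y : Y)
    (h : ∀ c : Fin D.B, φ (.inl (c, y)) = ψ (.inl (c, y))) : D.slot φ c y = D.slot ψ c y := by
  unfold Ctx.slot
  congr 1
  apply filter_congr
  intro c' _
  rw [Sin_iff D φ ψ c' y h, Zs_iff D φ ψ c' y h]

end PX5aux

open PX5aux in
theorem bX5_ok (hD : CtxOK D) (c : Fin D.B) (x : X) :
    Dep (fun φ : D.Lbl => D.bX5 φ c x) (nearV D.B D.H.G (.inl x)) ∧
    P (fun φ : D.Lbl => D.bX5 φ c x) ≤ Real.exp (-(4 * D.t)) := by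
  classical
  have hFG : D.F ⊆ D.H.G := hD.res.sub
  constructor
  · intro φ ψ h
    obtain ⟨h1, h2⟩ := near_eq D x φ ψ h
    have e1 : eB D.F {x} (D.Sin φ c) = eB D.F {x} (D.Sin ψ c) := by
      unfold eB
      congr 1
      apply filter_congr
      rintro ⟨x', y⟩ he
      simp only [mem_singleton]
      constructor
      · rintro ⟨rfl, hy⟩
        exact ⟨rfl, (Sin_iff D φ ψ c y (fun c => h1 c y (hFG he))).1 hy⟩
      · rintro ⟨rfl, hy⟩
        exact ⟨rfl, (Sin_iff D φ ψ c y (fun c => h1 c y (hFG he))).2 hy⟩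
    have e2 : dgX (D.Rg φ c) x = dgX (D.Rg ψ c) x := by
      unfold dgX eB Ctx.Rg Ctx.Pv
      rw [filter_filter, filter_filter]
      congr 1
      apply filter_congr
      rintro ⟨x', y⟩ he
      simp only [mem_singleton, mem_univ, and_true]
      constructor
      · rintro ⟨⟨ha, hb, hc⟩, rfl⟩
        have hy := fun c => h1 c y (hFG he)
        refine ⟨⟨ha, (Sin_iff D φ ψ c y hy).1 hb, ?_⟩, rfl⟩
        rw [← slot_eq D φ ψ c y hy, ← hc]
        simp only [Ctx.own, h2 y (hFG he)]
      · rintro ⟨⟨ha, hb, hc⟩, rfl⟩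
        have hy := fun c => h1 c y (hFG he)
        refine ⟨⟨ha, (Sin_iff D φ ψ c y hy).2 hb, ?_⟩, rfl⟩
        rw [slot_eq D φ ψ c y hy, ← hc]
        simp only [Ctx.own, h2 y (hFG he)]
    show D.bX5 φ c x = D.bX5 ψ c x
    unfold Ctx.bX5
    rw [e1, e2]
  · set I : Finset D.Var := (univ.filter (fun y => (x, y) ∈ D.F)).image (fun y => Sum.inr (x, y)) with hI
    set A : D.Var → D.Lbl → Prop := fun b φ => ∃ y, b = Sum.inr (x, y) ∧
      ((eB D.F {x} (D.Sin φ c) : ℝ) ≤ 4 * (eta D.t * D.κ) ∧ y ∈ D.Sin φ c) ∧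
      D.own φ (x, y) = D.slot φ c y with hA
    set p : D.Var → D.Lbl → ℝ := fun b ψ => if (∃ y, b = Sum.inr (x, y) ∧
      ((eB D.F {x} (D.Sin ψ c) : ℝ) ≤ 4 * (eta D.t * D.κ) ∧ y ∈ D.Sin ψ c)) then D.theta else 0 with hp
    have hth := ctx_theta D hD
    have ht := ctx_t D hD
    have hF := ctx_F D hD
    have hmixl : ∀ (φ ψ : D.Lbl) (c : Fin D.B) (y : Y), mix I φ ψ (.inl (c, y)) = ψ (.inl (c, y)) := by
      intro φ ψ c y
      apply mix_out
      simp [hI]
    have hmixr : ∀ (φ ψ : D.Lbl) (y : Y), (x, y) ∈ D.F → mix I φ ψ (.inr (x, y)) = φ (.inr (x, y)) := by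
      intro φ ψ y hy
      apply mix_in
      simp [hI, hy]
    have hS : ∀ (φ ψ : D.Lbl) (y : Y), y ∈ D.Sin (mix I φ ψ) c ↔ y ∈ D.Sin ψ c := fun φ ψ y =>
      Sin_iff D _ _ c y (fun c => hmixl φ ψ c y)
    have hSe : ∀ (φ ψ : D.Lbl), D.Sin (mix I φ ψ) c = D.Sin ψ c := fun φ ψ => by
      ext y; exact hS φ ψ y
    have hsl : ∀ (φ ψ : D.Lbl) (y : Y), D.slot (mix I φ ψ) c y = D.slot ψ c y := fun φ ψ y =>
      slot_eq D _ _ c y (fun c => hmixl φ ψ c y)
    have hAm : ∀ (φ ψ : D.Lbl) (y : Y), (x, y) ∈ D.F → (A (.inr (x, y)) (mix I φ ψ) ↔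
        (((eB D.F {x} (D.Sin ψ c) : ℝ) ≤ 4 * (eta D.t * D.κ) ∧ y ∈ D.Sin ψ c) ∧
          ((φ (.inr (x, y))).2.2.2 : ℕ) = D.slot ψ c y)) := by
      intro φ ψ y hy
      simp only [hA]
      constructor
      · rintro ⟨y', hy', h1, h2⟩
        have : y = y' := by
          have := Sum.inr_injective hy'
          exact (Prod.ext_iff.1 this).2
        subst this
        rw [hSe] at h1
        rw [hsl] at h2
        refine ⟨h1, ?_⟩
        rw [← h2]
        simp only [Ctx.own, hmixr φ ψ y hy]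
      · rintro ⟨h1, h2⟩
        refine ⟨y, rfl, ?_, ?_⟩
        · rw [hSe]; exact h1
        · rw [hsl, ← h2]
          simp only [Ctx.own, hmixr φ ψ y hy]
    have hmemI : ∀ b, b ∈ I → ∃ y, (x, y) ∈ D.F ∧ b = Sum.inr (x, y) := by
      intro b hb
      simp only [hI, mem_image, mem_filter, mem_univ, true_and] at hb
      obtain ⟨y, hy, rfl⟩ := hb
      exact ⟨y, hy, rfl⟩
    have key := loc_rare I A ?_ p ?_ (4 * D.theta * (eta D.t * D.κ)) ?_ D.t ?_ ?_
    · refine le_trans (P_mono ?_) (key.trans ?_)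
      · intro φ hφ
        obtain ⟨h1, h2⟩ := hφ
        refine lt_of_lt_of_le h2 ?_
        unfold dgX eB Ctx.Rg Ctx.Pv
        rw [filter_filter]
        apply card_le_card_of_injOn (fun e => Sum.inr e)
        · rintro ⟨x', y⟩ he
          simp only [coe_filter, Set.mem_ofPred_eq, mem_singleton, mem_univ, and_true] at he
          obtain ⟨hF', ⟨ha, hb, hc⟩, rfl⟩ := he
          refine mem_coe.2 (mem_filter.2 ⟨?_, y, rfl, ⟨h1, hb⟩, hc⟩)
          simp only [hI, mem_image, mem_filter, mem_univ, true_and]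
          exact ⟨y, hF', rfl⟩
        · intro a _ b _ hab
          exact Sum.inr_injective hab
      · apply Real.exp_le_exp.2
        have : (0 : ℝ) ≤ D.t := Nat.cast_nonneg _
        linarith
    · intro b hb ψ φ φ' h
      obtain ⟨y, hy, rfl⟩ := hmemI b hb
      have h' := h _ (mem_singleton_self _)
      simp only [eq_iff_iff]
      rw [hAm φ ψ y hy, hAm φ' ψ y hy, h']
    · intro b hb ψ
      obtain ⟨y, hy, rfl⟩ := hmemI b hb
      simp only [hp]
      split_ifs with hc
      · by_cases hs : D.slot ψ c y < D.s + 1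
        · rw [← P_own D (.inr (x, y)) _ hs]
          apply P_mono
          intro φ hφ
          exact ((hAm φ ψ y hy).1 hφ).2
        · have : P (fun φ : D.Lbl => A (.inr (x, y)) (mix I φ ψ)) ≤ P (fun _ : D.Lbl => False) := by
            apply P_mono
            intro φ hφ
            have h2 := ((hAm φ ψ y hy).1 hφ).2
            have h3 := (φ (.inr (x, y))).2.2.2.isLt
            omega
          rw [P_false] at this
          exact this.trans hth.2.2.1.le
      · have : P (fun φ : D.Lbl => A (.inr (x, y)) (mix I φ ψ)) ≤ P (fun _ : D.Lbl => False) := by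
          apply P_mono
          intro φ hφ
          exact hc ⟨y, rfl, ((hAm φ ψ y hy).1 hφ).1⟩
        rw [P_false] at this
        exact this
    · intro ψ
      have e1 : ∑ b ∈ I, p b ψ = ∑ y ∈ univ.filter (fun y => (x, y) ∈ D.F),
          if ((eB D.F {x} (D.Sin ψ c) : ℝ) ≤ 4 * (eta D.t * D.κ) ∧ y ∈ D.Sin ψ c) then D.theta else 0 := by
        rw [hI, sum_image]
        · apply sum_congr rfl
          intro y _
          simp only [hp]
          congr 1
          simp only [eq_iff_iff]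
          constructor
          · rintro ⟨y', hy', h⟩
            have : y = y' := by
              have := Sum.inr_injective hy'
              exact (Prod.ext_iff.1 this).2
            subst this
            exact h
          · intro h
            exact ⟨y, rfl, h⟩
        · intro y _ y' _ h
          have := Sum.inr_injective h
          exact (Prod.ext_iff.1 this).2
      rw [e1]
      by_cases hold : (eB D.F {x} (D.Sin ψ c) : ℝ) ≤ 4 * (eta D.t * D.κ)
      · simp only [hold, true_and]
        rw [← sum_filter, sum_const, nsmul_eq_mul]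
        have e2 : (((univ.filter (fun y => (x, y) ∈ D.F)).filter (fun y => y ∈ D.Sin ψ c)).card : ℝ)
            ≤ (eB D.F {x} (D.Sin ψ c) : ℝ) := by
          unfold eB
          exact_mod_cast card_le_card_of_injOn (fun y => (x, y))
            (by
              intro y hy
              simp only [coe_filter, Set.mem_ofPred_eq, mem_filter, mem_univ, true_and] at hy
              simp [hy.1, hy.2])
            (by
              intro y _ y' _ h
              exact (Prod.ext_iff.1 h).2)
        have h0 : 0 < D.theta := hth.2.2.1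
        calc _ ≤ (4 * (eta D.t * D.κ)) * D.theta := mul_le_mul_of_nonneg_right (e2.trans hold) h0.le
          _ = _ := by ring
      · simp only [hold, false_and, if_false, sum_const_zero]
        have h1 : 0 < eta D.t := hF.2.2.2.1
        have h0 : 0 < D.theta := hth.2.2.1
        positivity
    · have : (1 : ℝ) ≤ D.t := le_trans (by norm_num) ht.1
      exact_mod_cast this
    · have h1 : D.theta * D.κ ≤ 4 / 3 * (D.t : ℝ) ^ 20 := hth.2.1
      have htp : (0 : ℝ) < D.t := lt_of_lt_of_le (by norm_num) ht.1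
      have h2 : eta D.t * (D.t : ℝ) ^ 21 = 1 := by
        unfold eta
        field_simp
      have h3 : eta D.t * (D.t : ℝ) ^ 20 ≤ 1 := by
        have : eta D.t * (D.t : ℝ) ^ 21 = eta D.t * (D.t : ℝ) ^ 20 * D.t := by ring
        rw [this] at h2
        have h4 : (1 : ℝ) ≤ D.t := le_trans (by norm_num) ht.1
        have h5 : 0 ≤ eta D.t * (D.t : ℝ) ^ 20 := mul_nonneg hF.2.2.2.1.le (by positivity)
        nlinarith
      have h4 : 4 * D.theta * (eta D.t * D.κ) ≤ 6 := by
        have : 4 * D.theta * (eta D.t * D.κ) = 4 * eta D.t * (D.theta * D.κ) := by ring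
        rw [this]
        calc 4 * eta D.t * (D.theta * D.κ) ≤ 4 * eta D.t * (4 / 3 * (D.t : ℝ) ^ 20) :=
              mul_le_mul_of_nonneg_left h1 (mul_nonneg (by norm_num) hF.2.2.2.1.le)
          _ = 16 / 3 * (eta D.t * (D.t : ℝ) ^ 20) := by ring
          _ ≤ 16 / 3 * 1 := by gcongr
          _ ≤ 6 := by norm_num
      have h5 : (6000 : ℝ) ≤ D.t := le_trans (by norm_num) ht.1
      linarith

end Pool.SCDH
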