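import Pool.Agent.Lib.SCDH.MDefs
import Pool.Agent.Lib.SCDH.G01
import Pool.Agent.Lib.SCDH.G03
import Pool.Agent.Lib.SCDH.N01
import Pool.Agent.Lib.SCDH.N02
import Pool.Agent.Lib.SCDH.L01
import Pool.Agent.Lib.SCDH.L03

/-!
# Row PY1 (paper scd_h36.md)
Usage at y. The indicators of c with y ∉ OY c are independent with mean ρ'. loc_tail with I = the variables inl (c,y), W = 2 κB0/d (second moment ≤ ρ' ≤ κ/d, number ≤ B0), s = dvU: dvU² = (κB0/d) t² ≥ 24 t W because t ≥ 48; dvU ≤ 2W.
-/

set_option linter.unusedSectionVars false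
set_option linter.unusedVariables false

namespace Pool.SCDH

open Finset Pool.MP_0ccee8_co.Lib2

variable {X Y : Type} [Fintype X] [DecidableEq X] [Fintype Y] [DecidableEq Y]
variable (D : Ctx X Y)

theorem bY1_ok (hD : CtxOK D) (y : Y) :
    Dep (fun φ : D.Lbl => D.bY1 φ y) (nearV D.B D.H.G (.inr y)) ∧
    P (fun φ : D.Lbl => D.bY1 φ y) ≤ Real.exp (-(4 * D.t)) := by
  classical
  obtain ⟨ht1, -, -, -⟩ := ctx_t D hD
  obtain ⟨-, hr1, hr2, hr3, hr0, -⟩ := ctx_rho D hD
  obtain ⟨hu1, hu2, hu3, hu4⟩ := ctx_dvU D hD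
  obtain ⟨-, -, hB⟩ := ctx_B0 D hD
  have ht48 : (48 : ℝ) ≤ D.t := le_trans (by norm_num) ht1
  have htn : 1 ≤ D.t := by
    have : (1 : ℝ) ≤ D.t := by linarith
    exact_mod_cast this
  have hρ0 : 0 ≤ D.rho' := (hr0.trans_le hr1).le
  constructor
  · intro φ ψ hv
    have hmem : ∀ c : Fin D.B, (Sum.inl (c, y) : D.Var) ∈ nearV D.B D.H.G (.inr y) := by
      intro c
      unfold nearV
      rw [mem_filter]
      refine ⟨mem_univ _, ?_⟩
      exact ball_mono D.H.G 0 4 (by norm_num) {Sum.inr y} {Sum.inr y} (Subset.refl _)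
        (mem_singleton_self _)
    have heq : ∀ c : Fin D.B, (y ∈ D.Sin φ c ↔ y ∈ D.Sin ψ c) := by
      intro c
      unfold Ctx.Sin
      rw [mem_filter, mem_filter, hv _ (hmem c)]
    show D.bY1 φ y = D.bY1 ψ y
    unfold Ctx.bY1
    simp only [heq]
  · set I : Finset D.Var := (univ.filter (fun c : Fin D.B => y ∉ D.O.OY c)).map
      ⟨fun c => Sum.inl (c, y), fun c c' h => by simpa using h⟩ with hI
    set T : D.Var → D.Lbl → ℝ := fun b φ => (if ((φ b).1 : ℕ) < D.NX then (1 : ℝ) else 0) - D.rho'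
      with hT
    have hcardI : (I.card : ℝ) ≤ D.B0 := by
      refine le_trans ?_ hB
      rw [hI, card_map]
      have : (univ.filter (fun c : Fin D.B => y ∉ D.O.OY c)).card ≤ D.B := by
        refine (card_filter_le _ _).trans ?_
        rw [card_univ, Fintype.card_fin]
      exact_mod_cast this
    have hsum : ∀ φ : D.Lbl, ((univ.filter (fun c => y ∈ D.Sin φ c)).card : ℝ)
        - D.rho' * ((univ.filter (fun c : Fin D.B => y ∉ D.O.OY c)).card : ℝ) = ∑ b ∈ I, T b φ := by
      intro φ
      rw [hI, sum_map]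
      simp only [hT, Function.Embedding.coeFn_mk]
      rw [sum_sub_distrib, sum_const, nsmul_eq_mul, sum_boole, filter_filter]
      have h1 : (univ.filter (fun c => y ∈ D.Sin φ c)) =
          (univ.filter (fun c : Fin D.B => y ∉ D.O.OY c ∧
            ((φ (Sum.inl (c, y))).1 : ℕ) < D.NX)) := by
        ext c
        simp only [mem_filter, mem_univ, true_and, Ctx.Sin]
      rw [h1]
      ring
    have hEP : ∀ w : D.Var, E (fun φ : D.Lbl => if ((φ w).1 : ℕ) < D.NX then (1 : ℝ) else 0) =
        D.rho' := by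
      intro w
      have h1 := P_in D hD w
      rw [← h1]
      unfold P
      refine E_congr fun φ => ?_
      by_cases h : ((φ w).1 : ℕ) < D.NX <;> simp [h]
    have hmix : ∀ b ∈ I, ∀ ψ φ : D.Lbl, T b (mix I φ ψ) =
        (if ((φ b).1 : ℕ) < D.NX then (1 : ℝ) else 0) - D.rho' := by
      intro b hb ψ φ
      simp only [hT]
      rw [mix_in hb]
    have hκB : 0 < (D.κ : ℝ) * D.B0 / D.d := lt_of_lt_of_le (by positivity) hu4
    have hmain := loc_tail (V := D.Var) (K := D.Lab) I T
      (by
        intro b hb ψ φ φ' h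
        simp only [hmix b hb]
        rw [h b (mem_singleton_self b)])
      (by
        intro b hb ψ
        simp only [hT]
        split_ifs
        · rw [abs_of_nonneg (by linarith)]; linarith
        · rw [abs_of_nonpos (by linarith)]; linarith)
      (by
        intro b hb ψ
        rw [E_congr (hmix b hb ψ), E_sub, hEP, E_const]
        ring)
      (2 * ((D.κ : ℝ) * D.B0 / D.d)) (by positivity)
      (by
        intro ψ
        have h1 : ∀ b ∈ I, E (fun φ => (T b (mix I φ ψ)) ^ 2) ≤ D.rho' := by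
          intro b hb
          calc E (fun φ => (T b (mix I φ ψ)) ^ 2)
              ≤ E (fun φ : D.Lbl => (1 - 2 * D.rho') *
                  (if ((φ b).1 : ℕ) < D.NX then (1 : ℝ) else 0) + D.rho' ^ 2) := by
                refine E_mono fun φ => ?_
                rw [hmix b hb ψ φ]
                split_ifs <;> nlinarith
            _ = (1 - 2 * D.rho') * D.rho' + D.rho' ^ 2 := by
                rw [E_add, E_mul_left, hEP, E_const]
            _ ≤ D.rho' := by nlinarith
        calc ∑ b ∈ I, E (fun φ => (T b (mix I φ ψ)) ^ 2) ≤ ∑ _b ∈ I, D.rho' := sum_le_sum h1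
          _ = I.card * D.rho' := by rw [sum_const, nsmul_eq_mul]
          _ ≤ D.B0 * ((D.κ : ℝ) / D.d) := mul_le_mul hcardI hr2 hρ0 (by positivity)
          _ = (D.κ : ℝ) * D.B0 / D.d := by ring
          _ ≤ 2 * ((D.κ : ℝ) * D.B0 / D.d) := by linarith)
      D.t htn D.dvU (le_trans (by positivity) hu2)
      (by
        rw [hu3]
        have : 24 * (D.t : ℝ) * (2 * ((D.κ : ℝ) * D.B0 / D.d)) =
          (D.κ : ℝ) * D.B0 / D.d * (48 * D.t) := by ring
        rw [this]
        refine mul_le_mul_of_nonneg_left ?_ hκB.le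
        nlinarith)
      (by linarith)
    refine le_trans (P_mono fun φ h => ?_) (hmain.trans (Real.exp_le_exp.2 ?_))
    · have h' : D.bY1 φ y := h
      unfold Ctx.bY1 at h'
      rw [hsum φ] at h'
      exact h'
    · have : (0 : ℝ) ≤ D.t := by positivity
      linarith

end Pool.SCDH
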