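import Pool.Agent.Lib.SCDH.MDefs
import Pool.Agent.Lib.SCDH.G01
import Pool.Agent.Lib.SCDH.G03
import Pool.Agent.Lib.SCDH.N01
import Pool.Agent.Lib.SCDH.N02
import Pool.Agent.Lib.SCDH.L01
import Pool.Agent.Lib.SCDH.L03

/-!
# Row PY2 (paper scd_h36.md)
At most t of the colours have y in Zs: loc_rare with p = 1/n^20, μ = B/n^20.
-/

set_option linter.unusedSectionVars false
set_option linter.unusedVariables false

namespace Pool.SCDH

open Finset Pool.MP_0ccee8_co.Lib2

variable {X Y : Type} [Fintype X] [DecidableEq X] [Fintype Y] [DecidableEq Y]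
variable (D : Ctx X Y)

private lemma py2_ball (G : Finset (X × Y)) (T : Finset (X ⊕ Y)) (R : ℕ) : T ⊆ ball G R T := by
  induction R with
  | zero => exact Finset.Subset.refl _
  | succ R ih => exact ih.trans Finset.subset_union_left

private lemma py2_near (y : Y) (c : Fin D.B) :
    (Sum.inl (c, y) : D.Var) ∈ nearV D.B D.H.G (.inr y) := by
  simp only [nearV, mem_filter, mem_univ, true_and]
  exact py2_ball D.H.G _ 4 (mem_singleton_self _)

theorem bY2_ok (hD : CtxOK D) (y : Y) :
    Dep (fun φ : D.Lbl => D.bY2 φ y) (nearV D.B D.H.G (.inr y)) ∧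
    P (fun φ : D.Lbl => D.bY2 φ y) ≤ Real.exp (-(4 * D.t)) := by
  constructor
  · intro φ ψ h
    have hZ : ∀ c, y ∈ D.Zs φ c ↔ y ∈ D.Zs ψ c := by
      intro c
      unfold Ctx.Zs
      rw [mem_filter, mem_filter, h _ (py2_near D y c)]
    have : (univ.filter (fun c => y ∈ D.Zs φ c)) = univ.filter (fun c => y ∈ D.Zs ψ c) :=
      filter_congr fun c _ => hZ c
    simp only [Ctx.bY2, this]
  · set I : Finset D.Var := univ.image (fun c : Fin D.B => (Sum.inl (c, y) : D.Var)) with hI
    have hIc : (I.card : ℝ) ≤ D.B := by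
      have : I.card ≤ D.B := by
        rw [hI]
        exact card_image_le.trans (by simp)
      exact_mod_cast this
    obtain ⟨ht, -, -, -⟩ := ctx_t D hD
    obtain ⟨hn, -⟩ := ctx_n D hD
    obtain ⟨-, hB0, hB⟩ := ctx_B0 D hD
    obtain ⟨-, -, -, -, -, hz, -, -⟩ := ctx_cards D hD
    have ht1 : (1000 : ℝ) ≤ D.t := le_trans (by norm_num) ht
    have ht0 : (1 : ℝ) ≤ D.t := le_trans (by norm_num) ht1
    have hn1 : (1 : ℝ) ≤ D.n := le_trans (one_le_pow₀ ht0) hn
    have hBn : (D.B : ℝ) ≤ D.n := hB.trans (hB0.trans (div_le_self (by linarith)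
      (one_le_pow₀ ht0)))
    have hzn : (D.n : ℝ) ≤ (D.z : ℝ) + 1 := by
      rw [hz]
      exact le_self_pow₀ hn1 (by norm_num)
    have hz0 : (0 : ℝ) < (D.z : ℝ) + 1 := by positivity
    have key := loc_rare I (fun b (φ : D.Lbl) => ((φ b).2.1 : ℕ) = 0)
      (by
        intro b hb ψ φ φ' h
        have h1 := h b (mem_singleton_self b)
        simp only [mix_in hb, h1])
      (fun _ _ => 1 / ((D.z : ℝ) + 1))
      (by
        intro b hb ψ
        have h1 : (fun φ : D.Lbl => (((mix I φ ψ) b).2.1 : ℕ) = 0) =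
            fun φ : D.Lbl => ((φ b).2.1 : ℕ) = 0 := by
          funext φ
          rw [mix_in hb]
        rw [h1, P_z])
      1
      (by
        intro ψ
        rw [sum_const, nsmul_eq_mul, mul_one_div, div_le_one hz0]
        linarith)
      D.t (by exact_mod_cast ht0) (by linarith)
    refine (P_mono ?_).trans (key.trans ?_)
    · intro φ hφ
      have hφ' : D.t < (univ.filter (fun c => y ∈ D.Zs φ c)).card := hφ
      refine hφ'.trans_le ?_
      refine card_le_card_of_injOn (fun c => (Sum.inl (c, y) : D.Var)) ?_ ?_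
      · intro c hc
        have hc' := (mem_filter.1 hc).2
        unfold Ctx.Zs at hc'
        rw [mem_filter] at hc'
        exact mem_filter.2 ⟨mem_image.2 ⟨c, mem_univ _, rfl⟩, hc'.2.2⟩
      · intro c _ c' _ h
        exact (Prod.mk.inj (Sum.inl_injective h)).1
    · apply Real.exp_le_exp.2
      have : (0 : ℝ) ≤ D.t := by positivity
      linarith

end Pool.SCDH
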