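import Pool.Agent.Lib.SCDH.MDefs
import Pool.Agent.Lib.SCDH.G01
import Pool.Agent.Lib.SCDH.G03
import Pool.Agent.Lib.SCDH.N01
import Pool.Agent.Lib.SCDH.N02
import Pool.Agent.Lib.SCDH.L01
import Pool.Agent.Lib.SCDH.L03

/-!
# Row PY3 (paper scd_h36.md)
Private degree of y in every slot i: union over i (s+1 ≤ 2n ≤ exp(t/2)); for fixed i: sum over x with (x,y) ∈ Hb, x ∉ OX c of (1[own = i] - θ), loc_tail with I = edge variables, W = 2θκ ≤ 3 t^20 (take W = 3 t^20), s = t^12: t^24 ≥ 24 t · 3 t^20, s ≤ 2W. P ≤ 2n exp(-5t) ≤ exp(-4t) (n_pow_le).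
-/

set_option linter.unusedSectionVars false
set_option linter.unusedVariables false

namespace Pool.SCDH

open Finset Pool.MP_0ccee8_co.Lib2

variable {X Y : Type} [Fintype X] [DecidableEq X] [Fintype Y] [DecidableEq Y]
variable (D : Ctx X Y)

private lemma py3_near (G : Finset (X × Y)) (B : ℕ) (x : X) (y : Y) (h : (x, y) ∈ G) :
    (Sum.inr (x, y) : (Fin B × Y) ⊕ (X × Y)) ∈ nearV B G (.inr y) := by
  classical
  have h1 : (Sum.inl x : X ⊕ Y) ∈ ball G 1 {Sum.inr y} := by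
    show _ ∈ ball G 0 {Sum.inr y} ∪ (ball G 0 {Sum.inr y}).biUnion (nbrs G)
    rw [mem_union, mem_biUnion]
    right
    refine ⟨Sum.inr y, mem_singleton_self _, ?_⟩
    simp only [nbrs, mem_map, mem_filter, mem_univ, true_and, Function.Embedding.coeFn_mk]
    exact ⟨x, h, rfl⟩
  have h2 : (Sum.inl x : X ⊕ Y) ∈ ball G 4 {Sum.inr y} := by
    show _ ∈ ball G 3 {Sum.inr y} ∪ (ball G 3 {Sum.inr y}).biUnion (nbrs G)
    refine mem_union_left _ ?_
    show _ ∈ ball G 2 {Sum.inr y} ∪ (ball G 2 {Sum.inr y}).biUnion (nbrs G)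
    refine mem_union_left _ ?_
    show _ ∈ ball G 1 {Sum.inr y} ∪ (ball G 1 {Sum.inr y}).biUnion (nbrs G)
    exact mem_union_left _ h1
  unfold nearV
  rw [mem_filter]
  exact ⟨mem_univ _, h2, h⟩

private lemma py3_eB (Γ : Finset (X × Y)) (A : Finset X) (y : Y) :
    eB Γ Aᶜ {y} = (univ.filter (fun x => (x, y) ∈ Γ ∧ x ∉ A)).card := by
  classical
  unfold eB
  refine card_bij' (fun e _ => e.1) (fun x _ => (x, y)) ?_ ?_ ?_ ?_
  · rintro ⟨x, y'⟩ he
    simp only [mem_filter, mem_compl, mem_singleton, mem_univ, true_and] at he ⊢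
    obtain ⟨h1, h2, rfl⟩ := he
    exact ⟨h1, h2⟩
  · intro x hx
    simp only [mem_filter, mem_compl, mem_singleton, mem_univ, true_and] at hx ⊢
    exact ⟨hx.1, hx.2, trivial⟩
  · rintro ⟨x, y'⟩ he
    simp only [mem_filter, mem_compl, mem_singleton] at he
    simp [he.2.2]
  · intro x hx
    rfl

private lemma py3_one (hD : CtxOK D) (c : Fin D.B) (y : Y) (i : Fin (D.s + 1)) :
    P (fun φ : D.Lbl => (D.t : ℝ) ^ 12 <
      |((univ.filter (fun x => (x, y) ∈ D.Hb ∧ x ∉ D.O.OX c ∧ D.own φ (x, y) = i)).card : ℝ)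
        - D.theta * (eB D.Hb (D.O.OX c)ᶜ {y} : ℝ)|) ≤ Real.exp (-(5 * D.t)) := by
  classical
  obtain ⟨ht1, -, -, -⟩ := ctx_t D hD
  obtain ⟨-, hth2, hth3, hth4, -, -, -⟩ := ctx_theta D hD
  set A : Finset X := univ.filter (fun x => (x, y) ∈ D.Hb ∧ x ∉ D.O.OX c) with hA
  let emb : X ↪ D.Var := ⟨fun x => Sum.inr (x, y), fun x x' h => by
    have := Sum.inr_injective h
    exact (Prod.ext_iff.1 this).1⟩
  set I : Finset D.Var := A.map emb with hI
  let T : D.Var → D.Lbl → ℝ := fun b φ => (if ((φ b).2.2.2 : ℕ) = i then 1 else 0) - D.theta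
  have ht0 : (1 : ℝ) ≤ (D.t : ℝ) := le_trans (by norm_num) ht1
  have hcard : (I.card : ℝ) ≤ D.κ := by
    rw [hI, card_map, hA, ← py3_eB]
    have h1 : eB D.Hb (D.O.OX c)ᶜ {y} ≤ dgY D.Hb y :=
      eB_mono _ _ (Finset.Subset.refl _) _ _ (subset_univ _) _ _ (Finset.Subset.refl _)
    exact_mod_cast h1.trans (dgY_le D.H D.Hb hD.bulk.sub y)
  have hsum : ∀ φ : D.Lbl, ∑ b ∈ I, T b φ =
      ((univ.filter (fun x => (x, y) ∈ D.Hb ∧ x ∉ D.O.OX c ∧ D.own φ (x, y) = i)).card : ℝ)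
        - D.theta * (eB D.Hb (D.O.OX c)ᶜ {y} : ℝ) := by
    intro φ
    rw [hI, sum_map, py3_eB, ← hA]
    show ∑ x ∈ A, ((if ((φ (Sum.inr (x, y))).2.2.2 : ℕ) = i then (1 : ℝ) else 0) - D.theta) = _
    rw [sum_sub_distrib, sum_const, nsmul_eq_mul, sum_boole, mul_comm D.theta]
    congr 3
    rw [hA, filter_filter]
    ext x
    simp only [mem_filter, mem_univ, true_and, Ctx.own, and_assoc]
    try exact ⟨fun h => mem_filter.2 ⟨mem_univ _, h⟩, fun h => (mem_filter.1 h).2⟩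
  have hown : ∀ b : D.Var, P (fun φ : D.Lbl => ((φ b).2.2.2 : ℕ) = i) = D.theta :=
    fun b => P_own D b i i.2
  have hE1 : ∀ b : D.Var, E (fun φ : D.Lbl => if ((φ b).2.2.2 : ℕ) = i then (1 : ℝ) else 0)
      = D.theta := by
    intro b
    rw [← hown b]
    unfold P
    refine E_congr fun φ => ?_
    congr
  have hmix : ∀ b ∈ I, ∀ φ ψ : D.Lbl, T b (mix I φ ψ) = T b φ := by
    intro b hb φ ψ
    show (if ((mix I φ ψ b).2.2.2 : ℕ) = i then (1 : ℝ) else 0) - D.theta = _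
    rw [mix_in hb]
  have key := loc_tail I T
    (by
      intro b hb ψ φ φ' h
      show T b (mix I φ ψ) = T b (mix I φ' ψ)
      rw [hmix b hb, hmix b hb]
      show (if ((φ b).2.2.2 : ℕ) = i then (1 : ℝ) else 0) - D.theta = _
      rw [h b (mem_singleton_self b)])
    (by
      intro b hb ψ
      show |(if ((ψ b).2.2.2 : ℕ) = i then (1 : ℝ) else 0) - D.theta| ≤ 1
      rw [abs_le]
      split_ifs <;> constructor <;> linarith)
    (by
      intro b hb ψ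
      simp only [hmix b hb]
      show E (fun φ : D.Lbl => (if ((φ b).2.2.2 : ℕ) = i then (1 : ℝ) else 0) - D.theta) = 0
      rw [E_sub, E_const, hE1, sub_self])
    (3 * (D.t : ℝ) ^ 20) (by positivity)
    (by
      intro ψ
      have h1 : ∀ b ∈ I, E (fun φ => (T b (mix I φ ψ)) ^ 2) ≤ D.theta := by
        intro b hb
        simp only [hmix b hb]
        have h2 : ∀ φ : D.Lbl, (T b φ) ^ 2 = (1 - 2 * D.theta) *
            (if ((φ b).2.2.2 : ℕ) = i then (1 : ℝ) else 0) + D.theta ^ 2 := by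
          intro φ
          show ((if ((φ b).2.2.2 : ℕ) = i then (1 : ℝ) else 0) - D.theta) ^ 2 = _
          split_ifs <;> ring
        rw [E_congr h2, E_add, E_mul_left, E_const, hE1]
        nlinarith
      calc ∑ b ∈ I, E (fun φ => (T b (mix I φ ψ)) ^ 2) ≤ ∑ b ∈ I, D.theta := sum_le_sum h1
        _ = I.card * D.theta := by rw [sum_const, nsmul_eq_mul]
        _ ≤ D.κ * D.theta := by gcongr
        _ ≤ 3 * (D.t : ℝ) ^ 20 := by
          have h3 : (0 : ℝ) ≤ (D.t : ℝ) ^ 20 := by positivity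
          nlinarith)
    D.t (by exact_mod_cast ht0) ((D.t : ℝ) ^ 12) (by positivity)
    (by
      have h1 : (72 : ℝ) ≤ (D.t : ℝ) ^ 3 := by
        have h2 : (72 : ℝ) ≤ (D.t : ℝ) := le_trans (by norm_num) ht1
        calc (72 : ℝ) ≤ (D.t : ℝ) := h2
          _ = (D.t : ℝ) ^ 1 := (pow_one _).symm
          _ ≤ (D.t : ℝ) ^ 3 := pow_le_pow_right₀ ht0 (by norm_num)
      calc 24 * (D.t : ℝ) * (3 * (D.t : ℝ) ^ 20) = 72 * (D.t : ℝ) ^ 21 := by ring
        _ ≤ (D.t : ℝ) ^ 3 * (D.t : ℝ) ^ 21 := by gcongr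
        _ = ((D.t : ℝ) ^ 12) ^ 2 := by ring)
    (by
      have h1 : (D.t : ℝ) ^ 12 ≤ (D.t : ℝ) ^ 20 := pow_le_pow_right₀ ht0 (by norm_num)
      have h2 : (0 : ℝ) ≤ (D.t : ℝ) ^ 20 := by positivity
      linarith)
  refine le_trans (P_mono fun φ hφ => ?_) key
  rw [hsum]
  exact hφ

theorem bY3_ok (hD : CtxOK D) (c : Fin D.B) (y : Y) :
    Dep (fun φ : D.Lbl => D.bY3 φ c y) (nearV D.B D.H.G (.inr y)) ∧
    P (fun φ : D.Lbl => D.bY3 φ c y) ≤ Real.exp (-(4 * D.t)) := by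
  classical
  constructor
  · intro φ ψ h
    have h1 : ∀ x, (x, y) ∈ D.Hb → D.own φ (x, y) = D.own ψ (x, y) := by
      intro x hx
      unfold Ctx.own
      rw [h _ (py3_near D.H.G D.B x y (hD.bulk.sub hx))]
    have h2 : ∀ i : Fin (D.s + 1),
        (univ.filter (fun x => (x, y) ∈ D.Hb ∧ x ∉ D.O.OX c ∧ D.own φ (x, y) = i))
        = (univ.filter (fun x => (x, y) ∈ D.Hb ∧ x ∉ D.O.OX c ∧ D.own ψ (x, y) = i)) := by
      intro i
      refine filter_congr fun x _ => ?_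
      constructor
      · rintro ⟨h3, h4, h5⟩
        exact ⟨h3, h4, by rw [← h1 x h3]; exact h5⟩
      · rintro ⟨h3, h4, h5⟩
        exact ⟨h3, h4, by rw [h1 x h3]; exact h5⟩
    show D.bY3 φ c y = D.bY3 ψ c y
    unfold Ctx.bY3
    simp only [h2]
  · have h1 := P_exists_le (fun (i : Fin (D.s + 1)) (φ : D.Lbl) => (D.t : ℝ) ^ 12 <
      |((univ.filter (fun x => (x, y) ∈ D.Hb ∧ x ∉ D.O.OX c ∧ D.own φ (x, y) = i)).card : ℝ)
        - D.theta * (eB D.Hb (D.O.OX c)ᶜ {y} : ℝ)|) _ (fun i => py3_one D hD c y i)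
    have h2 : P (fun φ : D.Lbl => D.bY3 φ c y) ≤ _ := h1
    refine h2.trans ?_
    obtain ⟨ht1, -, -, -⟩ := ctx_t D hD
    obtain ⟨-, -, -, -, -, -, hs⟩ := ctx_theta D hD
    have hn := n_pow_le hD.big hD.rng 2 (by norm_num)
    have hn2 := (ctx_n D hD).1
    have ht0 : (2 : ℝ) ≤ (D.t : ℝ) := le_trans (by norm_num) ht1
    have hn3 : (2 : ℝ) ≤ (D.n : ℝ) := by
      calc (2 : ℝ) ≤ (D.t : ℝ) := ht0
        _ = (D.t : ℝ) ^ 1 := (pow_one _).symm
        _ ≤ (D.t : ℝ) ^ 200 := pow_le_pow_right₀ (by linarith) (by norm_num)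
        _ ≤ D.n := hn2
    rw [Fintype.card_fin]
    push_cast
    calc ((D.s : ℝ) + 1) * Real.exp (-(5 * D.t)) ≤ (D.n : ℝ) ^ 2 * Real.exp (-(5 * D.t)) := by
          apply mul_le_mul_of_nonneg_right _ (Real.exp_pos _).le
          nlinarith
      _ ≤ Real.exp D.t * Real.exp (-(5 * D.t)) := by gcongr
      _ = Real.exp (-(4 * D.t)) := by
          rw [← Real.exp_add]
          congr 1
          ring

end Pool.SCDH
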