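import Pool.Agent.Lib.SCDH.MDefs
import Pool.Agent.Lib.SCDH.G01
import Pool.Agent.Lib.SCDH.G03
import Pool.Agent.Lib.SCDH.N01
import Pool.Agent.Lib.SCDH.N02
import Pool.Agent.Lib.SCDH.L01
import Pool.Agent.Lib.SCDH.L03

/-!
# Row PY4 (paper scd_h36.md)
Reserve edges at y in one slot: loc_rare, μ = θ · deg_F(y) ≤ 1.01 θ η κ ≤ 1.01 · (4/3) t^20 / t^21 ≤ 2/t; 1000 μ ≤ t. Union over i ≤ 2n values.
-/

set_option linter.unusedSectionVars false
set_option linter.unusedVariables false

namespace Pool.SCDH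

open Finset Pool.MP_0ccee8_co.Lib2

variable {X Y : Type} [Fintype X] [DecidableEq X] [Fintype Y] [DecidableEq Y]
variable (D : Ctx X Y)

private theorem py4_degY (G : Finset (X × Y)) (y : Y) :
    (univ.filter (fun x : X => (x, y) ∈ G)).card ≤ dgY G y := by
  unfold dgY eB
  refine Finset.card_le_card_of_injOn (fun x => (x, y)) ?_ ?_
  · intro x hx
    have h : (x, y) ∈ G := (Finset.mem_filter.mp hx).2
    simp [h]
  · intro a _ b _ hab
    exact (Prod.mk.inj hab).1

/-- the variables that matter -/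
private def py4I (y : Y) : Finset D.Var :=
  (univ.filter (fun x : X => (x, y) ∈ D.F)).map
    ⟨fun x => Sum.inr (x, y), fun a b h => (Prod.mk.inj (Sum.inr.inj h)).1⟩

private theorem py4_card (φ : D.Lbl) (y : Y) (i : ℕ) :
    (univ.filter (fun x => (x, y) ∈ D.F ∧ D.own φ (x, y) = i)).card =
      ((py4I D y).filter (fun w => ((φ w).2.2.2 : ℕ) = i)).card := by
  unfold py4I Ctx.own
  rw [Finset.filter_map, Finset.card_map, Finset.filter_filter]
  rfl

private theorem py4_near (hF : D.F ⊆ D.H.G) (y : Y) :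
    py4I D y ⊆ nearV D.B D.H.G (.inr y) := by
  classical
  intro w hw
  obtain ⟨x, hx, rfl⟩ := Finset.mem_map.mp hw
  have hx : (x, y) ∈ D.H.G := hF (Finset.mem_filter.mp hx).2
  have h0 : (Sum.inr y : X ⊕ Y) ∈ ball D.H.G 0 {Sum.inr y} := by simp [ball]
  have h1 : (Sum.inl x : X ⊕ Y) ∈ ball D.H.G 1 {Sum.inr y} :=
    (ball_edge D.H.G 0 {Sum.inr y} (x, y) hx).2 h0
  have h4 : (Sum.inl x : X ⊕ Y) ∈ ball D.H.G 4 {Sum.inr y} :=
    ball_mono D.H.G 1 4 (by norm_num) _ _ (Finset.Subset.refl _) h1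
  simp only [nearV, Finset.mem_filter, Finset.mem_univ, true_and, Function.Embedding.coeFn_mk]
  exact ⟨h4, hx⟩

theorem bY4_ok (hD : CtxOK D) (y : Y) :
    Dep (fun φ : D.Lbl => D.bY4 φ y) (nearV D.B D.H.G (.inr y)) ∧
    P (fun φ : D.Lbl => D.bY4 φ y) ≤ Real.exp (-(4 * D.t)) := by
  classical
  have hFG : D.F ⊆ D.H.G := hD.res.sub
  have hbY : ∀ φ : D.Lbl, D.bY4 φ y ↔ ∃ i : Fin (D.s + 1),
      D.t < ((py4I D y).filter (fun w => ((φ w).2.2.2 : ℕ) = i)).card := by
    intro φ
    unfold Ctx.bY4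
    simp_rw [py4_card]
  constructor
  · intro φ ψ h
    have h1 : ∀ i : ℕ, (py4I D y).filter (fun w => ((φ w).2.2.2 : ℕ) = i) =
        (py4I D y).filter (fun w => ((ψ w).2.2.2 : ℕ) = i) := by
      intro i
      refine Finset.filter_congr fun w hw => ?_
      rw [h w (py4_near D hFG y hw)]
    refine propext ?_
    change D.bY4 φ y ↔ D.bY4 ψ y
    rw [hbY, hbY]
    simp_rw [h1]
  · have ht := (ctx_t D hD).1
    have ht1 : (1 : ℝ) ≤ D.t := le_trans (by norm_num) ht
    have ht0 : (0 : ℝ) < D.t := lt_of_lt_of_le one_pos ht1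
    have htn : 1 ≤ D.t := by exact_mod_cast ht1
    have hn := ctx_n D hD
    have hth := ctx_theta D hD
    have hF := ctx_F D hD
    have hI : ((py4I D y).card : ℝ) ≤ 101 / 100 * (eta D.t * D.κ) := by
      have h1 : (py4I D y).card ≤ dgY D.F y := by
        unfold py4I
        rw [Finset.card_map]
        exact py4_degY D.F y
      have h2 : ((py4I D y).card : ℝ) ≤ (dgY D.F y : ℝ) := by exact_mod_cast h1
      exact h2.trans (hF.2.1 y).2
    have hstep : ∀ i : Fin (D.s + 1),
        P (fun φ : D.Lbl => D.t < ((py4I D y).filter (fun w => ((φ w).2.2.2 : ℕ) = i)).card) ≤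
          Real.exp (-(5 * D.t)) := by
      intro i
      refine loc_rare (V := D.Var) (K := D.Lab) (py4I D y)
        (fun w φ => ((φ w).2.2.2 : ℕ) = i) ?_ (fun _ _ => D.theta) ?_
        (2 / D.t) ?_ D.t htn ?_
      · intro b hb ψ φ φ' h
        simp only [mix_in hb]
        rw [h b (Finset.mem_singleton_self b)]
      · intro b hb ψ
        simp only [mix_in hb]
        exact (P_own D b i i.2).le
      · intro ψ
        rw [Finset.sum_const, nsmul_eq_mul]
        have h1 : ((py4I D y).card : ℝ) * D.theta ≤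
            101 / 100 * (eta D.t * D.κ) * D.theta :=
          mul_le_mul_of_nonneg_right hI hth.2.2.1.le
        have h2 : 101 / 100 * (eta D.t * D.κ) * D.theta =
            101 / 100 * eta D.t * (D.theta * D.κ) := by ring
        have h3 : 101 / 100 * eta D.t * (D.theta * D.κ) ≤
            101 / 100 * eta D.t * (4 / 3 * (D.t : ℝ) ^ 20) :=
          mul_le_mul_of_nonneg_left hth.2.1 (by have := hF.2.2.2.1; positivity)
        have h4 : 101 / 100 * eta D.t * (4 / 3 * (D.t : ℝ) ^ 20) = 101 / 75 / D.t := by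
          unfold eta
          field_simp
          norm_num
        have h5 : 101 / 75 / (D.t : ℝ) ≤ 2 / D.t := by
          gcongr
          norm_num
        linarith
      · rw [mul_div_assoc', div_le_iff₀ ht0]
        have h2 : (1000 * 2 : ℝ) ≤ D.t := le_trans (by norm_num) ht
        nlinarith
    have h1 : (fun φ : D.Lbl => D.bY4 φ y) = fun φ : D.Lbl => ∃ i : Fin (D.s + 1),
        D.t < ((py4I D y).filter (fun w => ((φ w).2.2.2 : ℕ) = i)).card := by
      funext φ
      exact propext (hbY φ)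
    rw [h1]
    refine (P_exists_le (V := D.Var) (K := D.Lab) _ _ hstep).trans ?_
    rw [Fintype.card_fin]
    push_cast
    have hs : (D.s : ℝ) + 1 ≤ Real.exp D.t := by
      calc (D.s : ℝ) + 1 ≤ 2 * D.n := hth.2.2.2.2.2.2
        _ ≤ 2 * (2 * (D.t : ℝ) ^ 200) := by linarith [hn.2]
        _ = 4 * (D.t : ℝ) ^ 200 := by ring
        _ ≤ D.t * (D.t : ℝ) ^ 200 := by
          have : (4 : ℝ) ≤ D.t := le_trans (by norm_num) ht
          gcongr
        _ = (D.t : ℝ) ^ 201 := by ring
        _ ≤ (D.t : ℝ) ^ 1000000 := pow_le_pow_right₀ ht1 (by norm_num)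
        _ ≤ Real.exp D.t := hD.big.b2
    calc ((D.s : ℝ) + 1) * Real.exp (-(5 * D.t)) ≤ Real.exp D.t * Real.exp (-(5 * D.t)) :=
          mul_le_mul_of_nonneg_right hs (Real.exp_pos _).le
      _ = Real.exp (-(4 * D.t)) := by
          rw [← Real.exp_add]
          congr 1
          ring

end Pool.SCDH
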