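import Pool.Agent.Lib.SCDH.MDefs
import Pool.Agent.Lib.SCDH.G01
import Pool.Agent.Lib.SCDH.G03
import Pool.Agent.Lib.SCDH.N01
import Pool.Agent.Lib.SCDH.N02
import Pool.Agent.Lib.SCDH.L01
import Pool.Agent.Lib.SCDH.L03

/-!
# Row PY5 (paper scd_h36.md)
Free vertices at distance ≤ 2 from y: at most κ n ≤ n² candidates y', each free with probability 1/n^20: loc_rare.
-/

set_option linter.unusedSectionVars false
set_option linter.unusedVariables false

namespace Pool.SCDH

open Finset Pool.MP_0ccee8_co.Lib2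

variable {X Y : Type} [Fintype X] [DecidableEq X] [Fintype Y] [DecidableEq Y]
variable (D : Ctx X Y)

private theorem py5_degX (G : Finset (X × Y)) (x : X) :
    (univ.filter (fun y' : Y => (x, y') ∈ G)).card ≤ dgX G x := by
  unfold dgX eB
  refine Finset.card_le_card_of_injOn (fun y' => (x, y')) ?_ ?_
  · intro y' hy'
    have h : (x, y') ∈ G := (Finset.mem_filter.mp hy').2
    simp [h]
  · intro a _ b _ hab
    exact (Prod.mk.inj hab).2

private theorem py5_degY (G : Finset (X × Y)) (y : Y) :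
    (univ.filter (fun x : X => (x, y) ∈ G)).card ≤ dgY G y := by
  unfold dgY eB
  refine Finset.card_le_card_of_injOn (fun x => (x, y)) ?_ ?_
  · intro x hx
    have h : (x, y) ∈ G := (Finset.mem_filter.mp hx).2
    simp [h]
  · intro a _ b _ hab
    exact (Prod.mk.inj hab).1

/-- the vertices at distance at most two -/
private def py5N (G : Finset (X × Y)) (y : Y) : Finset Y :=
  univ.filter (fun y' => ∃ x, (x, y) ∈ G ∧ (x, y') ∈ G)

private theorem py5N_card (y : Y) : (py5N D.H.G y).card ≤ D.κ * D.d := by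
  have h1 : py5N D.H.G y ⊆ (univ.filter (fun x : X => (x, y) ∈ D.H.G)).biUnion
      (fun x => univ.filter (fun y' : Y => (x, y') ∈ D.H.G)) := by
    intro y' hy'
    obtain ⟨x, hx, hx'⟩ := (Finset.mem_filter.mp hy').2
    exact Finset.mem_biUnion.mpr ⟨x, by simp [hx], by simp [hx']⟩
  refine (Finset.card_le_card h1).trans ?_
  refine (Finset.card_biUnion_le_card_mul _ _ D.d ?_).trans ?_
  · intro x _
    exact (py5_degX D.H.G x).trans (D.H.degX x).le
  · exact Nat.mul_le_mul_right _ ((py5_degY D.H.G y).trans (D.H.degY y).le)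

/-- the variables that matter -/
private def py5I (c : Fin D.B) (y : Y) : Finset D.Var :=
  ((py5N D.H.G y).filter (fun y' => y' ∉ D.O.OY c)).map
    ⟨fun y' => Sum.inl (c, y'), fun a b h => (Prod.mk.inj (Sum.inl.inj h)).2⟩

private theorem py5_vZ (φ : D.Lbl) (c : Fin D.B) (y : Y) :
    D.vZ φ c y = ((py5I D c y).filter (fun w => ((φ w).2.1 : ℕ) = 0)).card := by
  unfold Ctx.vZ py5I py5N Ctx.Zs
  rw [Finset.filter_map, Finset.card_map]
  congr 1
  ext y'
  simp only [Finset.mem_filter, Finset.mem_univ, true_and, Function.comp,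
    Function.Embedding.coeFn_mk]
  tauto

private theorem py5_near (c : Fin D.B) (y : Y) : py5I D c y ⊆ nearV D.B D.H.G (.inr y) := by
  classical
  intro w hw
  obtain ⟨y', hy', rfl⟩ := Finset.mem_map.mp hw
  obtain ⟨x, hx, hx'⟩ := (Finset.mem_filter.mp (Finset.mem_filter.mp hy').1).2
  have h0 : (Sum.inr y : X ⊕ Y) ∈ ball D.H.G 0 {Sum.inr y} := by simp [ball]
  have h1 : (Sum.inl x : X ⊕ Y) ∈ ball D.H.G 1 {Sum.inr y} :=
    (ball_edge D.H.G 0 {Sum.inr y} (x, y) hx).2 h0
  have h2 : (Sum.inr y' : X ⊕ Y) ∈ ball D.H.G 2 {Sum.inr y} :=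
    (ball_edge D.H.G 1 {Sum.inr y} (x, y') hx').1 h1
  have h4 : (Sum.inr y' : X ⊕ Y) ∈ ball D.H.G 4 {Sum.inr y} :=
    ball_mono D.H.G 2 4 (by norm_num) _ _ (Finset.Subset.refl _) h2
  simp only [nearV, Finset.mem_filter, Finset.mem_univ, true_and, Function.Embedding.coeFn_mk]
  exact h4

theorem bY5_ok (hD : CtxOK D) (c : Fin D.B) (y : Y) :
    Dep (fun φ : D.Lbl => D.bY5 φ c y) (nearV D.B D.H.G (.inr y)) ∧
    P (fun φ : D.Lbl => D.bY5 φ c y) ≤ Real.exp (-(4 * D.t)) := by
  classical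
  constructor
  · intro φ ψ h
    have h1 : D.vZ φ c y = D.vZ ψ c y := by
      rw [py5_vZ, py5_vZ]
      congr 1
      refine Finset.filter_congr fun w hw => ?_
      rw [h w (py5_near D c y hw)]
    change (D.t < D.vZ φ c y) = (D.t < D.vZ ψ c y)
    rw [h1]
  · have ht := (ctx_t D hD).1
    have ht1 : (1 : ℝ) ≤ D.t := le_trans (by norm_num) ht
    have htn : 1 ≤ D.t := by exact_mod_cast ht1
    have hn := (ctx_n D hD).1
    have hn1 : (1 : ℝ) ≤ D.n := (one_le_pow₀ ht1).trans hn
    have hdeg := ctx_deg D hD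
    have hz := (ctx_cards D hD).2.2.2.2.2.1
    have hI : ((py5I D c y).card : ℝ) ≤ (D.n : ℝ) ^ 2 := by
      have h1 : (py5I D c y).card ≤ D.κ * D.d := by
        unfold py5I
        rw [Finset.card_map]
        exact (Finset.card_filter_le _ _).trans (py5N_card D y)
      have h2 : ((py5I D c y).card : ℝ) ≤ (D.κ : ℝ) * D.d := by exact_mod_cast h1
      refine h2.trans ?_
      rw [sq]
      exact mul_le_mul (hdeg.2.1.trans hdeg.2.2.1) hdeg.2.2.1 (Nat.cast_nonneg _)
        (Nat.cast_nonneg _)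
    have key := loc_rare (V := D.Var) (K := D.Lab) (py5I D c y)
      (fun w φ => ((φ w).2.1 : ℕ) = 0) ?_ (fun _ _ => 1 / ((D.z : ℝ) + 1)) ?_
      (1 / (D.n : ℝ) ^ 18) ?_ D.t htn ?_
    · have h1 : (fun φ : D.Lbl => D.bY5 φ c y) =
          fun φ : D.Lbl => D.t < ((py5I D c y).filter (fun w => ((φ w).2.1 : ℕ) = 0)).card := by
        funext φ
        change (D.t < D.vZ φ c y) = _
        rw [py5_vZ]
      rw [h1]
      refine key.trans (Real.exp_le_exp.mpr ?_)
      have : (0 : ℝ) ≤ D.t := Nat.cast_nonneg _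
      linarith
    · intro b hb ψ φ φ' h
      simp only [mix_in hb]
      rw [h b (Finset.mem_singleton_self b)]
    · intro b hb ψ
      simp only [mix_in hb]
      exact (P_z D b).le
    · intro ψ
      rw [Finset.sum_const, nsmul_eq_mul, hz]
      rw [mul_one_div, div_le_div_iff₀ (by positivity) (by positivity), one_mul]
      calc ((py5I D c y).card : ℝ) * (D.n : ℝ) ^ 18 ≤ (D.n : ℝ) ^ 2 * (D.n : ℝ) ^ 18 :=
            mul_le_mul_of_nonneg_right hI (by positivity)
        _ = (D.n : ℝ) ^ 20 := by ring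
    · have h1 : 1 / (D.n : ℝ) ^ 18 ≤ 1 := by
        rw [div_le_one (by positivity)]
        exact one_le_pow₀ hn1
      have h2 : (1000 : ℝ) ≤ D.t := le_trans (by norm_num) ht
      linarith

end Pool.SCDH
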