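import Pool.Agent.Lib.SCDH.MDefs
import Pool.Agent.Lib.SCDH.G04
import Pool.Agent.Lib.SCDH.N01
import Pool.Agent.Lib.SCDH.N02
import Pool.Agent.Lib.SCDH.L01
import Pool.Agent.Lib.SCDH.PY1
import Pool.Agent.Lib.SCDH.PY2
import Pool.Agent.Lib.SCDH.PY3
import Pool.Agent.Lib.SCDH.PY4
import Pool.Agent.Lib.SCDH.PY5
import Pool.Agent.Lib.SCDH.PX1
import Pool.Agent.Lib.SCDH.PX2
import Pool.Agent.Lib.SCDH.PX3
import Pool.Agent.Lib.SCDH.PX4
import Pool.Agent.Lib.SCDH.PX5
import Pool.Agent.Lib.SCDH.PX6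

/-!
# Row PB (paper scd_h36.md)
All local events at v together.
Recipe: union bound over c : Fin B (B ≤ n), b : Fin 2: at most 10 n events of probability ≤ exp(-4t); 10 n ≤ exp t.
-/

set_option linter.unusedSectionVars false
set_option linter.unusedVariables false

namespace Pool.SCDH

open Finset Pool.MP_0ccee8_co.Lib2

variable {X Y : Type} [Fintype X] [DecidableEq X] [Fintype Y] [DecidableEq Y]
variable (D : Ctx X Y)

section

variable {V K : Type} [Fintype V] [DecidableEq V] [Fintype K] [Nonempty K]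

private lemma pb_or {A B : (V → K) → Prop} {a b : ℝ} (hA : P A ≤ a) (hB : P B ≤ b) :
    P (fun φ => A φ ∨ B φ) ≤ a + b := (P_or A B).trans (add_le_add hA hB)

end

theorem bad_ok (hD : CtxOK D) (v : X ⊕ Y) :
    Dep (fun φ : D.Lbl => D.bad φ v) (nearV D.B D.H.G v) ∧
    P (fun φ : D.Lbl => D.bad φ v) ≤ Real.exp (-(3 * D.t)) := by
  obtain ⟨p, hp⟩ : ∃ p : ℝ, p = Real.exp (-(4 * D.t)) := ⟨_, rfl⟩
  have hp0 : 0 < p := by rw [hp]; exact Real.exp_pos _
  have ht := (ctx_t D hD).1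
  have ht1 : (1 : ℝ) ≤ D.t := le_trans (by norm_num) ht
  have hn10 : (10 : ℝ) ≤ D.n := by
    have h1 := (ctx_n D hD).1
    have h2 : (D.t : ℝ) ^ 1 ≤ (D.t : ℝ) ^ 200 := pow_le_pow_right₀ ht1 (by norm_num)
    have h3 : (10 : ℝ) ≤ (10 : ℝ) ^ 100 := by norm_num
    rw [pow_one] at h2
    linarith
  have hBn : (D.B : ℝ) ≤ D.n := by
    obtain ⟨_, h1, h2⟩ := ctx_B0 D hD
    refine (h2.trans h1).trans (div_le_self (by positivity) ?_)
    exact one_le_pow₀ ht1
  have hnt : 10 * (D.n : ℝ) ≤ Real.exp D.t := by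
    have h1 := n_pow_le hD.big hD.rng 2 (by norm_num)
    nlinarith
  have hfin : 10 * D.n * p ≤ Real.exp (-(3 * D.t)) := by
    have h1 : Real.exp (-(3 * (D.t : ℝ))) = Real.exp D.t * p := by
      rw [hp, ← Real.exp_add]
      congr 1
      ring
    rw [h1]
    exact mul_le_mul_of_nonneg_right hnt hp0.le
  rcases v with x | y
  · constructor
    · refine Dep_exists _ _ (fun c => ?_)
      refine Dep_or _ _ _ (bX1_ok D hD c x).1 ?_
      refine Dep_or _ _ _ (bX2_ok D hD c x).1 ?_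
      refine Dep_or _ _ _ (Dep_exists _ _ (fun b => (bX3_ok D hD c b x).1)) ?_
      refine Dep_or _ _ _ (bX4_ok D hD c x).1 ?_
      exact Dep_or _ _ _ (bX5_ok D hD c x).1 (bX6_ok D hD c x).1
    · have h1 : P (fun φ : D.Lbl => D.bad φ (.inl x)) ≤ (Fintype.card (Fin D.B) : ℝ) *
          (p + (p + ((Fintype.card (Fin 2) : ℝ) * p + (p + (p + p))))) := by
        refine P_exists_le (ι := Fin D.B) (fun c (φ : D.Lbl) => D.bX1 φ c x ∨ D.bX2 φ c x ∨
          (∃ b, D.bX3 φ c b x) ∨ D.bX4 φ c x ∨ D.bX5 φ c x ∨ D.bX6 φ c x) _ (fun c => ?_)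
        refine pb_or (hp ▸ (bX1_ok D hD c x).2) ?_
        refine pb_or (hp ▸ (bX2_ok D hD c x).2) ?_
        refine pb_or (P_exists_le (ι := Fin 2) (fun b (φ : D.Lbl) => D.bX3 φ c b x) p
          (fun b => hp ▸ (bX3_ok D hD c b x).2)) ?_
        refine pb_or (hp ▸ (bX4_ok D hD c x).2) ?_
        exact pb_or (hp ▸ (bX5_ok D hD c x).2) (hp ▸ (bX6_ok D hD c x).2)
      refine h1.trans (le_trans ?_ hfin)
      rw [Fintype.card_fin, Fintype.card_fin]
      push_cast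
      nlinarith [mul_le_mul_of_nonneg_right hBn hp0.le]
  · constructor
    · refine Dep_or _ _ _ (bY1_ok D hD y).1 ?_
      refine Dep_or _ _ _ (bY2_ok D hD y).1 ?_
      refine Dep_or _ _ _ (bY4_ok D hD y).1 ?_
      refine Dep_exists _ _ (fun c => ?_)
      exact Dep_or _ _ _ (bY3_ok D hD c y).1 (bY5_ok D hD c y).1
    · have h1 : P (fun φ : D.Lbl => D.bad φ (.inr y)) ≤
          p + (p + (p + (Fintype.card (Fin D.B) : ℝ) * (p + p))) := by
        refine pb_or (hp ▸ (bY1_ok D hD y).2) ?_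
        refine pb_or (hp ▸ (bY2_ok D hD y).2) ?_
        refine pb_or (hp ▸ (bY4_ok D hD y).2) ?_
        refine P_exists_le (ι := Fin D.B) (fun c (φ : D.Lbl) => D.bY3 φ c y ∨ D.bY5 φ c y)
          _ (fun c => ?_)
        exact pb_or (hp ▸ (bY3_ok D hD c y).2) (hp ▸ (bY5_ok D hD c y).2)
      refine h1.trans (le_trans ?_ hfin)
      rw [Fintype.card_fin]
      nlinarith [mul_le_mul_of_nonneg_right hBn hp0.le, mul_le_mul_of_nonneg_right hn10 hp0.le]

end Pool.SCDH
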