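import Pool.Agent.Lib.SCDH.MDefs
import Pool.Agent.Lib.SCDH.G04
import Pool.Agent.Lib.SCDH.N01
import Pool.Agent.Lib.SCDH.N02
import Pool.Agent.Lib.SCDH.L01
import Pool.Agent.Lib.SCDH.L06
import Pool.Agent.Lib.SCDH.PB
import Pool.Agent.Lib.SCDH.MALL
import Pool.Agent.Lib.SCDH.GL1

/-!
# Row TS1 (paper scd_h36.md)
Two sides with common labels of the vertices.
Recipe: W := (Fin B × Y) ⊕ ((X × Y) ⊕ (X × Y)), injective maps i1 : D.Var → W (inl (c,y) ↦ inl (c,y), inr e ↦ inr (inl e)), i2 : D'.Var → W (inl (c,y) ↦ inl (c, (ψ c).symm y), inr e ↦ inr (inr e)). Apply L06.exists_avoid with ι = (X⊕Y) ⊕ (X⊕Y), A = bad of side 1 / 2 pulled back (L01.P_pull, Dep_pull), supports images of nearV (card ≤ n^19; multiplicity: at most 2 n^19 ≤ n^20), Ω = X⊕Y, M T = macAll of side 1 or 2 (P ≤ exp(-4n|T|)), sM T of card ≤ 2 n^1020 |T| ≤ n^1022|T|, N = 2|Y| (|ι| = 2(|X|+|Y|) ≤ 4|Y|, n^100 ≤ |Y|), χ = Fin 2 × Fin B, Gl = ¬ glob. T = ∅ by macAll_ok.1.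 hΩ: cardV. ht: n_pow_le. D' has the same t, n, d, κ, ω, B, a, z, s, H, so D'.Lab = D.Lab, NX = NX.
-/

set_option linter.unusedSectionVars false
set_option linter.unusedVariables false

namespace Pool.SCDH

open Finset Pool.MP_0ccee8_co.Lib2

variable {X Y : Type} [Fintype X] [DecidableEq X] [Fintype Y] [DecidableEq Y]
variable (D : Ctx X Y)

private abbrev TW (X Y : Type) (B : ℕ) : Type := (Fin B × Y) ⊕ ((X × Y) ⊕ (X × Y))

section pull

variable {W : Type} [Fintype W] [DecidableEq W]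

private lemma ts1_mult (hD : CtxOK D) (i : D.Var → W) (hi : Function.Injective i) (w : W) :
    (univ.filter (fun v : X ⊕ Y => w ∈ (nearV D.B D.H.G v).image i)).card ≤ D.n ^ 19 := by
  by_cases h : ∃ u, i u = w
  · obtain ⟨u, rfl⟩ := h
    refine le_trans (card_le_card ?_) (near_mult D hD u)
    intro v hv
    rw [mem_filter] at hv ⊢
    refine ⟨mem_univ _, ?_⟩
    obtain ⟨u', hu', he⟩ := mem_image.1 hv.2
    rw [← hi he]
    exact hu'
  · have h0 : (univ.filter (fun v : X ⊕ Y => w ∈ (nearV D.B D.H.G v).image i)) = ∅ := by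
      apply filter_eq_empty_iff.2
      intro v _ hv
      obtain ⟨u, -, hu⟩ := mem_image.1 hv
      exact h ⟨u, hu⟩
    rw [h0, card_empty]
    exact Nat.zero_le _

private lemma ts1_bad (hD : CtxOK D) (i : D.Var → W) (hi : Function.Injective i) (v : X ⊕ Y) :
    Dep (fun Φ : W → D.Lab => D.bad (fun u => Φ (i u)) v) ((nearV D.B D.H.G v).image i) ∧
    P (fun Φ : W → D.Lab => D.bad (fun u => Φ (i u)) v) ≤ Real.exp (-(3 * D.t)) := by
  obtain ⟨h1, h2⟩ := bad_ok D hD v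
  refine ⟨Dep_pull i (fun φ : D.Lbl => D.bad φ v) _ h1, ?_⟩
  exact le_trans (le_of_eq (P_pull i hi (fun φ : D.Lbl => D.bad φ v))) h2

private lemma ts1_mac (hD : CtxOK D) (i : D.Var → W) (hi : Function.Injective i)
    (T : Finset (X ⊕ Y)) :
    Dep (fun Φ : W → D.Lab => D.macAll (fun u => Φ (i u)) T) ((supT D.B D.H.G T).image i) ∧
    (T.Nonempty → 2 * P (fun Φ : W → D.Lab => D.macAll (fun u => Φ (i u)) T)
      ≤ Real.exp (-(4 * D.n * T.card))) := by
  obtain ⟨h0, h1, h2⟩ := macAll_ok D hD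
  refine ⟨Dep_pull i (fun φ : D.Lbl => D.macAll φ T) _ (h1 T), fun hT => ?_⟩
  have h3 := h2 T hT
  have h4 := P_pull i hi (fun φ : D.Lbl => D.macAll φ T)
  rw [← h4] at h3
  exact h3

private lemma ts1_glob (hD : CtxOK D) (i : D.Var → W) (hi : Function.Injective i)
    (c : Fin D.B) : P (fun Φ : W → D.Lab => ¬ D.glob (fun u => Φ (i u)) c)
      ≤ Real.exp (-(((2 * Fintype.card Y : ℕ) : ℝ) / (D.n : ℝ) ^ 51)) := by
  have h1 := glob_ok D hD c
  have h4 := P_pull i hi (fun φ : D.Lbl => ¬ D.glob φ c)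
  rw [← h4] at h1
  push_cast
  exact h1

end pull

private lemma ts1_sum {α β : Type} [Fintype α] [Fintype β] (p : α ⊕ β → Prop) [DecidablePred p]
    (m : ℕ) (h1 : (univ.filter (fun a => p (.inl a))).card ≤ m)
    (h2 : (univ.filter (fun b => p (.inr b))).card ≤ m) :
    (univ.filter p).card ≤ m + m := by
  classical
  have h3 : univ.filter p ⊆ (univ.filter (fun a => p (.inl a))).map ⟨Sum.inl, Sum.inl_injective⟩ ∪
      (univ.filter (fun b => p (.inr b))).map ⟨Sum.inr, Sum.inr_injective⟩ := by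
    intro x hx
    rw [mem_filter] at hx
    rw [mem_union, mem_map, mem_map]
    rcases x with a | b
    · exact Or.inl ⟨a, mem_filter.2 ⟨mem_univ _, hx.2⟩, rfl⟩
    · exact Or.inr ⟨b, mem_filter.2 ⟨mem_univ _, hx.2⟩, rfl⟩
  refine (card_le_card h3).trans ((card_union_le _ _).trans ?_)
  rw [card_map, card_map]
  exact Nat.add_le_add h1 h2

theorem exists_labels (hD : CtxOK D) (O' : Outer X Y (Fin D.B)) (Hb' F' : Finset (X × Y))
    (hD' : CtxOK { D with O := O', Hb := Hb', F := F' }) (ψ : Fin D.B → Y ≃ Y)  :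
    ∃ (φ φ' : D.Lbl), D.Good φ ∧ Ctx.Good { D with O := O', Hb := Hb', F := F' } φ' ∧
      ∀ c y, φ' (.inl (c, ψ c y)) = φ (.inl (c, y)) := by
  obtain ⟨ht1, -, -, -⟩ := ctx_t D hD
  obtain ⟨hn1, -⟩ := ctx_n D hD
  obtain ⟨-, hXY, hX, -, -, -, -, -⟩ := ctx_cards D hD
  have hn2R : (2 : ℝ) ≤ D.n := by
    refine le_trans ?_ hn1
    calc (2 : ℝ) ≤ 10 ^ 100 := by norm_num
      _ ≤ (D.t : ℝ) := ht1
      _ = (D.t : ℝ) ^ 1 := (pow_one _).symm
      _ ≤ (D.t : ℝ) ^ 200 := pow_le_pow_right₀ (le_trans (by norm_num) ht1) (by norm_num)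
  have hn2 : 2 ≤ D.n := by exact_mod_cast hn2R
  have hn0 : 1 ≤ D.n := by omega
  have ht : (D.n : ℝ) ^ 1100 ≤ Real.exp D.t := n_pow_le hD.big hD.rng 1100 (by norm_num)
  have hXY' : Fintype.card X ≤ Fintype.card Y := by exact_mod_cast hXY
  have hX' : D.n ^ 100 ≤ Fintype.card X := D.H.bigX
  have hBn : D.B ≤ D.n := by
    have h1 := hD.hB
    have h2 := hD.hB2
    have h3 : 1 ≤ D.t ^ 20 := by
      apply Nat.one_le_pow
      have : (0 : ℝ) < D.t := lt_of_lt_of_le (by norm_num) ht1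
      exact_mod_cast this
    nlinarith
  have hpw : ∀ m : ℕ, 2 * D.n ^ m ≤ D.n ^ (m + 1) := fun m => by
    rw [pow_succ, mul_comm]
    exact Nat.mul_le_mul_left _ hn2
  let D' : Ctx X Y := { D with O := O', Hb := Hb', F := F' }
  let i1 : D.Var → TW X Y D.B := Sum.map id Sum.inl
  let i2 : D.Var → TW X Y D.B := Sum.map (fun p => (p.1, (ψ p.1).symm p.2)) Sum.inr
  have hi1 : Function.Injective i1 := Function.injective_id.sumMap Sum.inl_injective
  have hi2 : Function.Injective i2 := by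
    apply Function.Injective.sumMap _ Sum.inr_injective
    rintro ⟨c, y⟩ ⟨c', y'⟩ h
    have h1 : c = c' := congrArg Prod.fst h
    subst h1
    have h2 : (ψ c).symm y = (ψ c).symm y' := congrArg Prod.snd h
    rw [(ψ c).symm.injective h2]
  have hcardι : Fintype.card ((X ⊕ Y) ⊕ (X ⊕ Y)) ≤ 2 * (2 * Fintype.card Y) := by
    rw [Fintype.card_sum, Fintype.card_sum]
    omega
  have hN : D.n ^ 60 ≤ 2 * Fintype.card Y := by
    have : D.n ^ 60 ≤ D.n ^ 100 := Nat.pow_le_pow_right hn0 (by norm_num)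
    omega
  have hΩ : Fintype.card (X ⊕ Y) ≤ 2 ^ (D.n + 1) := by
    rw [Fintype.card_sum, pow_succ]
    have := D.H.cardV
    omega
  have hχ : Fintype.card (Fin D.B ⊕ Fin D.B) ≤ 2 * D.n := by
    rw [Fintype.card_sum, Fintype.card_fin]
    omega
  have hdepA : ∀ i : (X ⊕ Y) ⊕ (X ⊕ Y), Dep ((Sum.elim (fun v (Φ : TW X Y D.B → D.Lab) =>
        D.bad (fun u => Φ (i1 u)) v) (fun v Φ => D'.bad (fun u => Φ (i2 u)) v)) i)
      ((Sum.elim (fun v => (nearV D.B D.H.G v).image i1) (fun v => (nearV D.B D.H.G v).image i2)) i) := by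
    rintro (v | v)
    · exact (ts1_bad D hD i1 hi1 v).1
    · exact (ts1_bad D' hD' i2 hi2 v).1
  have hpA : ∀ i : (X ⊕ Y) ⊕ (X ⊕ Y), P ((Sum.elim (fun v (Φ : TW X Y D.B → D.Lab) =>
        D.bad (fun u => Φ (i1 u)) v) (fun v Φ => D'.bad (fun u => Φ (i2 u)) v)) i)
      ≤ Real.exp (-(3 * D.t)) := by
    rintro (v | v)
    · exact (ts1_bad D hD i1 hi1 v).2
    · exact (ts1_bad D' hD' i2 hi2 v).2
  have hs : ∀ i : (X ⊕ Y) ⊕ (X ⊕ Y), ((Sum.elim (fun v => (nearV D.B D.H.G v).image i1)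
      (fun v => (nearV D.B D.H.G v).image i2)) i).card ≤ D.n ^ 20 := by
    have h19 : D.n ^ 19 ≤ D.n ^ 20 := Nat.pow_le_pow_right hn0 (by norm_num)
    rintro (v | v)
    · exact card_image_le.trans ((near_card D hD v).trans h19)
    · exact card_image_le.trans ((near_card D hD v).trans h19)
  have hm : ∀ w : TW X Y D.B, (univ.filter (fun i : (X ⊕ Y) ⊕ (X ⊕ Y) =>
      w ∈ (Sum.elim (fun v => (nearV D.B D.H.G v).image i1)
      (fun v => (nearV D.B D.H.G v).image i2)) i)).card ≤ D.n ^ 20 := by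
    intro w
    refine (ts1_sum _ (D.n ^ 19) (ts1_mult D hD i1 hi1 w) (ts1_mult D' hD' i2 hi2 w)).trans ?_
    have h19 : 2 * D.n ^ 19 ≤ D.n ^ 20 := hpw 19
    omega
  have hdM : ∀ T : Finset (X ⊕ Y), Dep (fun Φ : TW X Y D.B → D.Lab =>
      D.macAll (fun u => Φ (i1 u)) T ∨ D'.macAll (fun u => Φ (i2 u)) T)
      ((supT D.B D.H.G T).image i1 ∪ (supT D.B D.H.G T).image i2) := by
    intro T
    apply Dep_or
    · exact Dep.mono (ts1_mac D hD i1 hi1 T).1 subset_union_left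
    · exact Dep.mono (ts1_mac D' hD' i2 hi2 T).1 subset_union_right
  have hpM : ∀ T : Finset (X ⊕ Y), T.Nonempty → P (fun Φ : TW X Y D.B → D.Lab =>
      D.macAll (fun u => Φ (i1 u)) T ∨ D'.macAll (fun u => Φ (i2 u)) T)
      ≤ Real.exp (-(4 * D.n * T.card)) := by
    intro T hT
    have h1 := (ts1_mac D hD i1 hi1 T).2 hT
    have h2 : 2 * P (fun Φ : TW X Y D.B → D.Lab => D'.macAll (fun u => Φ (i2 u)) T)
        ≤ Real.exp (-(4 * D.n * T.card)) := (ts1_mac D' hD' i2 hi2 T).2 hT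
    have h3 := P_or (fun Φ : TW X Y D.B → D.Lab => D.macAll (fun u => Φ (i1 u)) T)
      (fun Φ : TW X Y D.B → D.Lab => D'.macAll (fun u => Φ (i2 u)) T)
    linarith
  have hsM : ∀ T : Finset (X ⊕ Y), ((supT D.B D.H.G T).image i1 ∪
      (supT D.B D.H.G T).image i2).card ≤ D.n ^ 1022 * T.card := by
    intro T
    have h1 := supT_card D hD T
    have h2 := card_union_le ((supT D.B D.H.G T).image i1) ((supT D.B D.H.G T).image i2)
    have h3 : ((supT D.B D.H.G T).image i1).card ≤ (supT D.B D.H.G T).card := card_image_le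
    have h4 : ((supT D.B D.H.G T).image i2).card ≤ (supT D.B D.H.G T).card := card_image_le
    have h5 : 2 * D.n ^ 1020 ≤ D.n ^ 1022 := by
      refine (hpw 1020).trans (Nat.pow_le_pow_right hn0 ?_)
      omega
    calc _ ≤ 2 * (D.n ^ 1020 * T.card) := by omega
      _ = 2 * D.n ^ 1020 * T.card := by ring
      _ ≤ D.n ^ 1022 * T.card := Nat.mul_le_mul_right _ h5
  have hpG : ∀ x : Fin D.B ⊕ Fin D.B, P ((Sum.elim (fun c (Φ : TW X Y D.B → D.Lab) =>
      ¬ D.glob (fun u => Φ (i1 u)) c) (fun c Φ => ¬ D'.glob (fun u => Φ (i2 u)) c)) x)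
      ≤ Real.exp (-(((2 * Fintype.card Y : ℕ) : ℝ) / (D.n : ℝ) ^ 51)) := by
    rintro (c | c)
    · exact ts1_glob D hD i1 hi1 c
    · exact ts1_glob D' hD' i2 hi2 c
  obtain ⟨Φ, hA, hM, hG⟩ := exists_avoid (V := TW X Y D.B) (K := D.Lab) D.t D.n
    (2 * Fintype.card Y) hn2 ht _ _ hdepA hpA hs hm hΩ _ _ hdM hpM hsM hcardι hN _ hχ hpG
  refine ⟨fun u => Φ (i1 u), fun u => Φ (i2 u), ⟨fun v => hA (.inl v), fun T hT => ?_, fun c => ?_⟩,
    ⟨fun v => hA (.inr v), fun T hT => ?_, fun c => ?_⟩, ?_⟩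
  · rcases T.eq_empty_or_nonempty with rfl | hne
    · exact (macAll_ok D hD).1 _ hT
    · exact hM T hne (Or.inl hT)
  · by_contra hcon
    exact hG (.inl c) hcon
  · rcases T.eq_empty_or_nonempty with rfl | hne
    · exact (macAll_ok D' hD').1 _ hT
    · exact hM T hne (Or.inr hT)
  · by_contra hcon
    exact hG (.inr c) hcon
  · intro c y
    show Φ (.inl (c, (ψ c).symm (ψ c y))) = Φ (.inl (c, y))
    rw [Equiv.symm_apply_apply]

end Pool.SCDH
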