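import Pool.Agent.Lib.SCDH.BDefs
import Pool.Agent.Lib.SCDH.G01
import Pool.Agent.Lib.SCDH.G02
import Pool.Agent.Lib.SCDH.G03
import Pool.Agent.Lib.SCDH.G04
import Pool.Agent.Lib.SCDH.W02
import Pool.Agent.Lib.SCDH.W06
import Pool.Agent.Lib.SCDH.T01

/-!
# Row T3Y (paper scd_h36.md)
Smoothness of a random array on Y from the macroscopic statement (T3 of the paper).
Recipe: as T3X with the roles exchanged: for 2|N| ≤ |Y| certify (mjX G N, N), bd = mY G N =: m (bd_mjX), |N| ≤ 2 m (isoY), |mjX G N| ≤ κ|N| ≤ n|N|; the symmetric difference of N and cY has ≤ 16000 m/κ elements. |avY f| ≤ n^-4 from A = univ, N = univ and |X| ≤ |Y|.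
-/

set_option linter.unusedSectionVars false
set_option linter.unusedVariables false

namespace Pool.SCDH

open Finset Pool.MP_0ccee8_co.Lib2

variable {X Y : Type} [Fintype X] [DecidableEq X] [Fintype Y] [DecidableEq Y]

private theorem numn {ε : ℝ} {t n : ℕ} (hB : Big ε t) (hn : Rng t n) : (10 : ℝ) ^ 10 ≤ n := by
  have h1 := big_t hB
  have h2 := (rng_real hn).1
  have h3 : (1 : ℝ) ≤ t := le_trans (by norm_num) h1
  have h4 : (t : ℝ) ≤ (t : ℝ) ^ 200 := le_self_pow₀ h3 (by norm_num)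
  have h5 : (10 : ℝ) ^ 10 ≤ 10 ^ 100 := by norm_num
  linarith

private theorem kap_pos {ε : ℝ} {t κ : ℕ} (hB : Big ε t) (hκ : t ^ 50 ≤ κ) : 0 < κ ∧ t ^ 17 ≤ κ := by
  have h1 := big_t hB
  have h3 : (1 : ℝ) ≤ t := le_trans (by norm_num) h1
  have h4 : 1 ≤ t := by exact_mod_cast h3
  have h5 : t ^ 17 ≤ t ^ 50 := Nat.pow_le_pow_right h4 (by norm_num)
  have h6 : 0 < t ^ 50 := pow_pos (by omega) _
  constructor <;> omega

private theorem sum_symm {Z : Type} [DecidableEq Z] (f : Z → ℝ) (Φ : ℝ) (hΦ : ∀ z, |f z| ≤ Φ)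
    (A B : Finset Z) : |∑ z ∈ A, f z| ≤ |∑ z ∈ B, f z| + Φ * ((symmDiff A B).card : ℝ) := by
  have h1 : ∑ z ∈ A ∩ B, f z + ∑ z ∈ A \ B, f z = ∑ z ∈ A, f z := by
    have hd : Disjoint (A ∩ B) (A \ B) := by
      rw [Finset.disjoint_left]; intro a ha hb
      rw [Finset.mem_inter] at ha; rw [Finset.mem_sdiff] at hb; exact hb.2 ha.2
    rw [← Finset.sum_union hd]; congr 1
    ext a; simp only [Finset.mem_union, Finset.mem_inter, Finset.mem_sdiff]; tauto
  have h2 : ∑ z ∈ A ∩ B, f z + ∑ z ∈ B \ A, f z = ∑ z ∈ B, f z := by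
    have hd : Disjoint (A ∩ B) (B \ A) := by
      rw [Finset.disjoint_left]; intro a ha hb
      rw [Finset.mem_inter] at ha; rw [Finset.mem_sdiff] at hb; exact hb.2 ha.1
    rw [← Finset.sum_union hd]; congr 1
    ext a; simp only [Finset.mem_union, Finset.mem_inter, Finset.mem_sdiff]; tauto
  have h3 : ((symmDiff A B).card : ℝ) = ((A \ B).card : ℝ) + ((B \ A).card : ℝ) := by
    rw [symmDiff_def, Finset.sup_eq_union, Finset.card_union_of_disjoint disjoint_sdiff_sdiff]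
    push_cast; ring
  have h4 : ∀ S : Finset Z, |∑ z ∈ S, f z| ≤ Φ * (S.card : ℝ) := by
    intro S
    calc |∑ z ∈ S, f z| ≤ ∑ z ∈ S, |f z| := Finset.abs_sum_le_sum_abs _ _
      _ ≤ ∑ z ∈ S, Φ := Finset.sum_le_sum fun z _ => hΦ z
      _ = Φ * (S.card : ℝ) := by rw [Finset.sum_const, nsmul_eq_mul, mul_comm]
  have h5 := h4 (A \ B)
  have h6 := h4 (B \ A)
  have h7 : ∑ z ∈ A, f z = ∑ z ∈ B, f z + (∑ z ∈ A \ B, f z - ∑ z ∈ B \ A, f z) := by linarith
  rw [h7, h3]
  have h8 := abs_add_le (∑ z ∈ B, f z) (∑ z ∈ A \ B, f z - ∑ z ∈ B \ A, f z)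
  have h9 := abs_sub (∑ z ∈ A \ B, f z) (∑ z ∈ B \ A, f z)
  nlinarith [h5, h6, h8, h9]

private theorem cert_univ {ε : ℝ} {t n d κ : ℕ} (hB : Big ε t) (hn : Rng t n) (H : Host X Y n d κ)
    (hκ : t ^ 50 ≤ κ) : ∃ T : Finset (X ⊕ Y), cX H.G n T = univ ∧ cY H.G n T = univ ∧
      szT H.G n T ≤ 3 * ((Fintype.card X : ℝ) + Fintype.card Y) := by
  obtain ⟨hk0, hk17⟩ := kap_pos hB hκ
  have hkd := H.hκd
  obtain ⟨T, h1, h2, h3⟩ := cert hB hn H H.G (Finset.Subset.refl _)
    (fun x => Or.inr (by rw [H.degX]; omega)) (fun y => Or.inr (by rw [H.degY]; omega)) univ univ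
    (fun x _ => by rw [H.degX]; omega) (fun y _ => by rw [H.degY]; omega)
  have hb : bd H.G (univ : Finset X) (univ : Finset Y) = 0 := by
    unfold bd eB; simp
  rw [hb] at h2
  simp only [H.degX, H.degY, Finset.sum_const, smul_eq_mul, mul_zero, Nat.le_zero,
    Nat.add_eq_zero_iff, Nat.mul_eq_zero, Finset.card_eq_zero] at h2
  have hx : cX H.G n T = univ := by
    rcases h2.1 with h | h
    · exact (Finset.symmDiff_eq_empty.mp h).symm
    · omega
  have hy : cY H.G n T = univ := by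
    rcases h2.2 with h | h
    · exact (Finset.symmDiff_eq_empty.mp h).symm
    · omega
  refine ⟨T, hx, hy, ?_⟩
  unfold szT
  rw [hx, hy, Finset.card_univ, Finset.card_univ]
  rw [Finset.card_univ, Finset.card_univ] at h1
  have h4 : ((Nτ n : ℝ) * (T.card : ℝ)) ≤ 2 * ((Fintype.card X : ℝ) + Fintype.card Y) := by
    exact_mod_cast h1
  linarith

private theorem mjX_card (Γ : Finset (X × Y)) (N : Finset Y) : (mjX Γ N).card ≤ ∑ y ∈ N, dgY Γ y := by
  have h1 : (mjX Γ N).card ≤ ∑ x ∈ mjX Γ N, eB Γ {x} N := by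
    rw [Finset.card_eq_sum_ones]
    refine Finset.sum_le_sum fun x hx => ?_
    unfold mjX at hx
    rw [Finset.mem_filter] at hx
    omega
  have h2 : ∑ x ∈ mjX Γ N, eB Γ {x} N ≤ eB Γ univ N := by
    rw [← eB_sumX]
    exact eB_mono Γ Γ (Finset.Subset.refl _) _ _ (Finset.subset_univ _) _ _ (Finset.Subset.refl _)
  have h3 : eB Γ univ N = ∑ y ∈ N, dgY Γ y := eB_sumY Γ univ N
  omega

theorem smoothY {ε : ℝ} {t n d κ : ℕ} (hB : Big ε t) (hn : Rng t n) (H : Host X Y n d κ) (hκ : t ^ 50 ≤ κ)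
    (f : Y → ℝ) (Φ : ℝ) (hΦ : ∀ y, |f y| ≤ Φ)
    (hmac : ∀ T, |∑ y ∈ cY H.G n T, f y| ≤ lam n * szT H.G n T) :
    SmY H.G (20000 * Φ / κ + 1 / n) (fun y => f y - avY f) := by
  have hnr := numn hB hn
  obtain ⟨hk0, hk17⟩ := kap_pos hB hκ
  have hkd := H.hκd
  have hd2 := H.hd2
  have hn0 : (0 : ℝ) < n := lt_of_lt_of_le (by norm_num) hnr
  have hnN : 0 < n := by exact_mod_cast hn0
  have hk0r : (0 : ℝ) < κ := by exact_mod_cast hk0
  have hkn : (κ : ℝ) ≤ n := by exact_mod_cast le_trans hkd hd2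
  have hX0 : 0 < Fintype.card X := lt_of_lt_of_le (Nat.pow_pos hnN : 0 < n ^ 100) H.bigX
  have hXY : Fintype.card X ≤ Fintype.card Y := by
    have h3 := host_card H
    have h4 : Fintype.card X * κ ≤ Fintype.card Y * κ := by
      calc Fintype.card X * κ ≤ Fintype.card X * d := Nat.mul_le_mul_left _ hkd
        _ = Fintype.card Y * κ := h3
    exact Nat.le_of_mul_le_mul_right h4 hk0
  have hY0 : 0 < Fintype.card Y := lt_of_lt_of_le hX0 hXY
  have hXYr : (Fintype.card X : ℝ) ≤ Fintype.card Y := by exact_mod_cast hXY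
  have hY0r : (0 : ℝ) < Fintype.card Y := by exact_mod_cast hY0
  obtain ⟨y0⟩ := Fintype.card_pos_iff.mp hY0
  have hΦ0 : 0 ≤ Φ := le_trans (abs_nonneg _) (hΦ y0)
  have hlam : lam n = 1 / (n : ℝ) ^ 6 := rfl
  have hn6 : (0 : ℝ) < (n : ℝ) ^ 6 := by positivity
  have hav : |avY f| ≤ 1 / (n : ℝ) ^ 4 := by
    obtain ⟨T, hx, hy, hs⟩ := cert_univ hB hn H hκ
    have h1 := hmac T
    rw [hy] at h1
    have h5 : szT H.G n T ≤ 6 * n * Fintype.card Y := by
      have h51 : (6 : ℝ) * Fintype.card Y ≤ 6 * n * Fintype.card Y := by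
        refine mul_le_mul_of_nonneg_right ?_ hY0r.le
        have : (1 : ℝ) ≤ n := le_trans (by norm_num) hnr
        linarith
      linarith
    have h6 : |∑ x, f x| ≤ 1 / (n : ℝ) ^ 4 * Fintype.card Y := by
      refine h1.trans ?_
      rw [hlam]
      calc 1 / (n : ℝ) ^ 6 * szT H.G n T ≤ 1 / (n : ℝ) ^ 6 * (6 * n * Fintype.card Y) :=
            mul_le_mul_of_nonneg_left h5 (by positivity)
        _ ≤ 1 / (n : ℝ) ^ 4 * Fintype.card Y := by
            have h7 : (6 : ℝ) * n ≤ (n : ℝ) ^ 2 := by nlinarith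
            have h8 : 1 / (n : ℝ) ^ 4 = 1 / (n : ℝ) ^ 6 * (n : ℝ) ^ 2 := by
              field_simp
            rw [h8, mul_assoc (1 / (n : ℝ) ^ 6) ((n : ℝ) ^ 2)]
            refine mul_le_mul_of_nonneg_left ?_ (by positivity : (0 : ℝ) ≤ 1 / (n : ℝ) ^ 6)
            exact mul_le_mul_of_nonneg_right h7 hY0r.le
    unfold avY
    rw [abs_div, abs_of_pos hY0r, div_le_iff₀ hY0r]
    exact h6
  apply SmY_half _ _ _ (sum_sub_avY f)
  intro A hA2
  set m := mY H.G A with hm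
  have hiso := H.isoY A hA2
  obtain ⟨T, h1, h2, h3⟩ := cert hB hn H H.G (Finset.Subset.refl _)
    (fun x => Or.inr (by rw [H.degX]; omega)) (fun y => Or.inr (by rw [H.degY]; omega)) (mjX H.G A) A
    (fun x _ => by rw [H.degX]; omega) (fun y _ => by rw [H.degY]; omega)
  rw [bd_mjX, ← hm] at h2 h3
  have hAc : (A.card : ℝ) ≤ 2 * m := by exact_mod_cast hiso
  have hMc : ((mjX H.G A).card : ℝ) ≤ 2 * n * m := by
    have h4 := mjX_card H.G A
    simp only [H.degY, Finset.sum_const, smul_eq_mul] at h4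
    have h5 : (mjX H.G A).card ≤ 2 * n * m := by
      calc (mjX H.G A).card ≤ A.card * κ := h4
        _ ≤ A.card * n := Nat.mul_le_mul_left _ (le_trans hkd hd2)
        _ ≤ (2 * m) * n := Nat.mul_le_mul_right _ hiso
        _ = 2 * n * m := by ring
    exact_mod_cast h5
  have hsd : ((symmDiff A (cY H.G n T)).card : ℝ) ≤ 16000 * m / κ := by
    simp only [H.degY, Finset.sum_const, smul_eq_mul] at h2
    have h4 : (symmDiff A (cY H.G n T)).card * κ ≤ 16 * rW * m := by omega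
    have h5 : ((symmDiff A (cY H.G n T)).card : ℝ) * κ ≤ 16000 * m := by
      have h6 : (symmDiff A (cY H.G n T)).card * κ ≤ 16000 * m := by
        have : 16 * rW = 16000 := rfl
        rw [this] at h4; exact h4
      exact_mod_cast h6
    rw [le_div_iff₀ hk0r]
    exact h5
  have hsz : szT H.G n T ≤ 7 * n * m := by
    unfold szT
    have h4 : ((Nτ n : ℝ) * (T.card : ℝ)) ≤ 2 * (((mjX H.G A).card : ℝ) + A.card) := by
      exact_mod_cast h1
    have h5 : ((cX H.G n T).card : ℝ) + (cY H.G n T).card ≤ (mjX H.G A).card + A.card + 16000 * m := by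
      have h6 : (cX H.G n T).card + (cY H.G n T).card ≤ (mjX H.G A).card + A.card + 16000 * m := h3
      exact_mod_cast h6
    have h7 : (0 : ℝ) ≤ m := Nat.cast_nonneg _
    have h8 : (16006 : ℝ) * m ≤ n * m := mul_le_mul_of_nonneg_right (le_trans (by norm_num) hnr) h7
    nlinarith
  have hm0 : (0 : ℝ) ≤ m := Nat.cast_nonneg _
  have h10 : |∑ x ∈ cY H.G n T, f x| ≤ 1 / (2 * n) * m := by
    refine (hmac T).trans ?_
    rw [hlam]
    calc 1 / (n : ℝ) ^ 6 * szT H.G n T ≤ 1 / (n : ℝ) ^ 6 * (7 * n * m) :=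
          mul_le_mul_of_nonneg_left hsz (by positivity)
      _ = (7 * n / (n : ℝ) ^ 6) * m := by ring
      _ ≤ 1 / (2 * n) * m := by
          refine mul_le_mul_of_nonneg_right ?_ hm0
          rw [div_le_div_iff₀ hn6 (by positivity)]
          have h11 : (14 : ℝ) ≤ n ^ 4 := by
            calc (14 : ℝ) ≤ n := le_trans (by norm_num) hnr
              _ ≤ n ^ 4 := le_self_pow₀ (le_trans (by norm_num) hnr) (by norm_num)
          nlinarith [mul_le_mul_of_nonneg_right h11 (sq_nonneg (n : ℝ))]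
  have h12 := sum_symm f Φ hΦ A (cY H.G n T)
  have h13 : |∑ x ∈ A, (f x - avY f)| ≤ |∑ x ∈ A, f x| + A.card * |avY f| := by
    rw [Finset.sum_sub_distrib, Finset.sum_const, nsmul_eq_mul]
    refine (abs_sub _ _).trans ?_
    rw [abs_mul, Nat.abs_cast]
  have h14 : (A.card : ℝ) * |avY f| ≤ 1 / (2 * n) * m := by
    calc (A.card : ℝ) * |avY f| ≤ (2 * m) * (1 / (n : ℝ) ^ 4) :=
          mul_le_mul hAc hav (abs_nonneg _) (by positivity)
      _ = (2 / (n : ℝ) ^ 4) * m := by ring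
      _ ≤ 1 / (2 * n) * m := by
          refine mul_le_mul_of_nonneg_right ?_ hm0
          rw [div_le_div_iff₀ (by positivity) (by positivity)]
          have h11 : (4 : ℝ) ≤ n ^ 3 := by
            calc (4 : ℝ) ≤ n := le_trans (by norm_num) hnr
              _ ≤ n ^ 3 := le_self_pow₀ (le_trans (by norm_num) hnr) (by norm_num)
          nlinarith [mul_le_mul_of_nonneg_right h11 hn0.le]
  have h15 : Φ * ((symmDiff A (cY H.G n T)).card : ℝ) ≤ 20000 * Φ / κ * m := by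
    calc Φ * ((symmDiff A (cY H.G n T)).card : ℝ) ≤ Φ * (16000 * m / κ) :=
          mul_le_mul_of_nonneg_left hsd hΦ0
      _ = 16000 * Φ / κ * m := by ring
      _ ≤ 20000 * Φ / κ * m := by
          refine mul_le_mul_of_nonneg_right ?_ hm0
          exact div_le_div_of_nonneg_right (by linarith) hk0r.le
  have h16 : (1 : ℝ) / (2 * n) * m + 1 / (2 * n) * m = 1 / n * m := by field_simp; ring
  calc |∑ x ∈ A, (f x - avY f)| ≤ |∑ x ∈ A, f x| + A.card * |avY f| := h13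
    _ ≤ (1 / (2 * n) * m + 20000 * Φ / κ * m) + 1 / (2 * n) * m := by linarith
    _ = (20000 * Φ / κ + 1 / n) * m := by linarith

end Pool.SCDH
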