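import Pool.Agent.Lib.SCDH.MDefs
import Pool.Agent.Lib.SCDH.G01
import Pool.Agent.Lib.SCDH.G02
import Pool.Agent.Lib.SCDH.G03
import Pool.Agent.Lib.SCDH.G04
import Pool.Agent.Lib.SCDH.N01
import Pool.Agent.Lib.SCDH.K01
import Pool.Agent.Lib.SCDH.O01
import Pool.Agent.Lib.SCDH.T01
import Pool.Agent.Lib.SCDH.T3Y
import Pool.Agent.Lib.SCDH.N02

/-!
# Row U01 (paper scd_h36.md)
Usage of the vertices y in one batch.
-/

set_option linter.unusedSectionVars false
set_option linter.unusedVariables false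

namespace Pool.SCDH

open Finset Pool.MP_0ccee8_co.Lib2

variable {X Y : Type} [Fintype X] [DecidableEq X] [Fintype Y] [DecidableEq Y]
variable (D : Ctx X Y)

/-- `t` is at least `10^100`, so `a / t^m` is small -/
theorem u01_dvU (hD : CtxOK D) : D.dvU ≤ 2 * D.κ / (D.t : ℝ) ^ 34 := by
  obtain ⟨ht, -, -, -⟩ := ctx_t D hD
  obtain ⟨hk, hkd, hdn, hnd⟩ := ctx_deg D hD
  obtain ⟨-, hB0, -⟩ := ctx_B0 D hD
  obtain ⟨-, hd1, hd2, -⟩ := ctx_dvU D hD
  have ht0 : (0 : ℝ) < D.t := lt_of_lt_of_le (by norm_num) ht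
  have hκ0 : (0 : ℝ) < D.κ := lt_of_lt_of_le (by positivity) hk
  have hd0 : (0 : ℝ) < D.d := lt_of_lt_of_le hκ0 hkd
  have h1 : (D.κ : ℝ) * D.B0 / D.d ≤ 2 * D.κ / (D.t : ℝ) ^ 20 := by
    rw [div_le_div_iff₀ hd0 (by positivity)]
    have h2 : (D.B0 : ℝ) * (D.t : ℝ) ^ 20 ≤ D.n := by
      rwa [le_div_iff₀ (by positivity)] at hB0
    have h3 : (D.B0 : ℝ) * (D.t : ℝ) ^ 20 ≤ 2 * D.d := h2.trans hnd
    have h4 := mul_le_mul_of_nonneg_left h3 hκ0.le
    linarith
  have h4 : D.dvU ^ 2 ≤ (2 * D.κ / (D.t : ℝ) ^ 34) ^ 2 := by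
    rw [hd2]
    calc (D.κ : ℝ) * D.B0 / D.d * (D.t : ℝ) ^ 2 ≤ 2 * D.κ / (D.t : ℝ) ^ 20 * (D.t : ℝ) ^ 2 := by gcongr
      _ = 2 * D.κ * (D.t : ℝ) ^ 50 / (D.t : ℝ) ^ 68 := by
        field_simp
      _ ≤ 2 * D.κ * D.κ / (D.t : ℝ) ^ 68 := by gcongr
      _ ≤ (2 * D.κ / (D.t : ℝ) ^ 34) ^ 2 := by
        rw [div_pow, ← pow_mul]
        gcongr
        nlinarith
  exact le_of_sq_le_sq h4 (by positivity) 

/-- the sum over `y` of the number of sets containing `y` -/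
theorem u01_sum {C : Type} [Fintype C] (S : C → Finset Y) :
    ∑ y, ((univ.filter (fun c => y ∈ S c)).card : ℝ) = ∑ c, ((S c).card : ℝ) := by
  have h1 : ∀ y, ((univ.filter (fun c => y ∈ S c)).card : ℝ) = ∑ c, (if y ∈ S c then (1 : ℝ) else 0) := by
    intro y
    rw [Finset.sum_boole]
  have h2 : ∀ c, ((S c).card : ℝ) = ∑ y, (if y ∈ S c then (1 : ℝ) else 0) := by
    intro c
    rw [Finset.sum_boole]
    simp
  simp only [h1, h2]
  rw [Finset.sum_comm]

theorem usage (hD : CtxOK D) (φ : D.Lbl) (hG : D.Good φ) (Zp : Fin D.B → Finset Y)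
    (hZ : ∀ c, Zp c ⊆ D.Zs φ c) (hcard : ∀ c, (D.Sc φ c).card + (Zp c).card = D.NX)
    (u : Y → ℝ) (hu : ∀ y, u y = ((univ.filter (fun c => y ∈ D.Sc φ c ∪ Zp c)).card : ℝ)) :
    avY u = (D.B : ℝ) * D.NX / Fintype.card Y ∧ (∀ y, |u y - avY u| ≤ 3 * D.κ / (D.t : ℝ) ^ 26) ∧
      SmY D.H.G (11 / (D.t : ℝ) ^ 26) (fun y => u y - avY u) := by
  classical
  obtain ⟨ht, -, -, -⟩ := ctx_t D hD
  obtain ⟨hn1, hn2⟩ := ctx_n D hD
  obtain ⟨hk, hkd, hdn, hnd⟩ := ctx_deg D hD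
  obtain ⟨hr1, hr2, hr3, hr4, hr5, -⟩ := ctx_rho D hD
  obtain ⟨hc1, hc2, hc3, hc4, hc5, hc6, hc7, hc8⟩ := ctx_cards D hD
  have hdvU := u01_dvU D hD
  have ht0 : (0 : ℝ) < D.t := lt_of_lt_of_le (by norm_num) ht
  have ht1 : (1 : ℝ) ≤ D.t := le_trans (by norm_num) ht
  have ht1' : 1 ≤ D.t := by exact_mod_cast ht1
  have hκ0 : (0 : ℝ) < D.κ := lt_of_lt_of_le (by positivity) hk
  have hn0 : (0 : ℝ) < D.n := lt_of_lt_of_le (by positivity) hn1
  have hY0 : (0 : ℝ) < Fintype.card Y := lt_of_lt_of_le (by positivity) (hc3.trans hc2)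
  have hρ0 : 0 ≤ D.rho' := hr5.le.trans hr2
  -- the mean
  have hdisj : ∀ c, Disjoint (D.Sc φ c) (Zp c) := by
    intro c
    rw [Finset.disjoint_left]
    intro y hy hy2
    exact (mem_Sc D φ c y hy).2.2 (hZ c hy2)
  have hav : avY u = (D.B : ℝ) * D.NX / Fintype.card Y := by
    unfold avY
    congr 1
    simp only [hu]
    rw [u01_sum (fun c => D.Sc φ c ∪ Zp c)]
    have h1 : ∀ c, ((D.Sc φ c ∪ Zp c).card : ℝ) = D.NX := by
      intro c
      rw [card_union_of_disjoint (hdisj c), hcard c]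
    simp only [h1, sum_const, card_univ, Fintype.card_fin, nsmul_eq_mul]
  -- the three parts
  set S1 : Y → ℝ := fun y => ((univ.filter (fun c => y ∈ D.Sin φ c)).card : ℝ) with hS1
  set W : Y → ℝ := fun y => ((univ.filter (fun c => y ∉ D.O.OY c)).card : ℝ) with hW
  set Z1 : Y → ℝ := fun y => ((univ.filter (fun c => y ∈ D.Zs φ c)).card : ℝ) with hZ1
  set U : Y → ℝ := fun y => (uY D.O y : ℝ) with hU
  have hWU : ∀ y, W y = D.B - U y := by
    intro y
    have h1 : (univ.filter (fun c : Fin D.B => y ∈ D.O.OY c)).card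
        + (univ.filter (fun c : Fin D.B => ¬ y ∈ D.O.OY c)).card = D.B := by
      rw [Finset.card_filter_add_card_filter_not]
      simp
    have h2 : ((univ.filter (fun c : Fin D.B => y ∈ D.O.OY c)).card : ℝ)
        + ((univ.filter (fun c : Fin D.B => ¬ y ∈ D.O.OY c)).card : ℝ) = D.B := by
      exact_mod_cast h1
    simp only [hW, hU, uY]
    linarith
  -- average of the outer usage
  have hUav : avY U = (D.B : ℝ) * D.ω / Fintype.card Y := by
    unfold avY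
    congr 1
    simp only [hU, uY]
    rw [u01_sum (fun c => D.O.OY c)]
    have h1 : ∀ c, ((D.O.OY c).card : ℝ) = D.ω := by
      intro c
      rw [hD.out.cY c]
    simp only [h1, sum_const, card_univ, Fintype.card_fin, nsmul_eq_mul]
  have hρNX : D.rho' * ((Fintype.card Y : ℝ) - D.ω) = D.NX := by
    unfold Ctx.rho'
    have h1 : (0 : ℝ) < (D.a : ℝ) + 1 := by positivity
    rw [← hc5]
    field_simp
  have hmean : D.rho' * (D.B - avY U) = avY u := by
    rw [hav, hUav]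
    have h2 : (D.B : ℝ) - D.B * D.ω / Fintype.card Y = D.B * ((Fintype.card Y : ℝ) - D.ω) / Fintype.card Y := by
      field_simp
    rw [h2]
    calc D.rho' * (D.B * ((Fintype.card Y : ℝ) - D.ω) / Fintype.card Y)
        = D.B * (D.rho' * ((Fintype.card Y : ℝ) - D.ω)) / Fintype.card Y := by ring
      _ = _ := by rw [hρNX]
  set f1 : Y → ℝ := fun y => S1 y - D.rho' * W y with hf1
  set f2 : Y → ℝ := fun y => u y - S1 y with hf2
  have hdec : ∀ y, u y - avY u = f1 y + f2 y + (- D.rho') * (U y - avY U) := by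
    intro y
    simp only [hf1, hf2, hWU y, ← hmean]
    ring
  -- bounds
  have hloc : ∀ y, ¬ D.bad φ (.inr y) := fun y => hG.loc (.inr y)
  have hf1b : ∀ y, |f1 y| ≤ D.dvU := by
    intro y
    by_contra h
    exact hloc y (Or.inl (not_le.1 h))
  have hZ1b : ∀ y, Z1 y ≤ D.t := by
    intro y
    by_contra h
    refine hloc y (Or.inr (Or.inl ?_))
    have h1 := not_le.1 h
    simp only [hZ1] at h1
    exact_mod_cast h1
  have hf2Z : ∀ y, |f2 y| ≤ Z1 y := by
    intro y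
    simp only [hf2, hu, hS1, hZ1]
    have h1 : (univ.filter (fun c => y ∈ D.Sc φ c ∪ Zp c)) ⊆
        (univ.filter (fun c => y ∈ D.Sin φ c)) ∪ (univ.filter (fun c => y ∈ D.Zs φ c)) := by
      intro c hc
      simp only [mem_filter, mem_univ, true_and, mem_union] at hc ⊢
      rcases hc with hc | hc
      · exact Or.inl (mem_Sc D φ c y hc).2.1
      · exact Or.inr (hZ c hc)
    have h2 : (univ.filter (fun c => y ∈ D.Sin φ c)) ⊆
        (univ.filter (fun c => y ∈ D.Sc φ c ∪ Zp c)) ∪ (univ.filter (fun c => y ∈ D.Zs φ c)) := by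
      intro c hc
      simp only [mem_filter, mem_univ, true_and, mem_union] at hc ⊢
      by_cases h3 : y ∈ D.Zs φ c
      · exact Or.inr h3
      · refine Or.inl (Or.inl ?_)
        unfold Ctx.Sc
        exact mem_sdiff.2 ⟨hc, h3⟩
    have h3 := (card_le_card h1).trans (card_union_le _ _)
    have h4 := (card_le_card h2).trans (card_union_le _ _)
    have h3' : ((univ.filter (fun c => y ∈ D.Sc φ c ∪ Zp c)).card : ℝ) ≤
        (univ.filter (fun c => y ∈ D.Sin φ c)).card + (univ.filter (fun c => y ∈ D.Zs φ c)).card := by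
      exact_mod_cast h3
    have h4' : ((univ.filter (fun c => y ∈ D.Sin φ c)).card : ℝ) ≤
        (univ.filter (fun c => y ∈ D.Sc φ c ∪ Zp c)).card + (univ.filter (fun c => y ∈ D.Zs φ c)).card := by
      exact_mod_cast h4
    rw [abs_le]
    constructor <;> linarith
  have hf2b : ∀ y, |f2 y| ≤ D.t := fun y => (hf2Z y).trans (hZ1b y)
  -- outer usage
  have hU0 : ∀ y, 0 ≤ U y := fun y => by simp only [hU]; positivity
  have hUb : ∀ y, U y ≤ D.κ / (D.t : ℝ) ^ 26 := by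
    intro y
    rw [le_div_iff₀ (by positivity)]
    have h1 := hD.out.o4Y y
    have h2 : (D.t : ℝ) ^ 26 * (uY D.O y : ℝ) ≤ D.κ := by exact_mod_cast h1
    simp only [hU]
    linarith
  have hUavb : avY U ≤ D.κ / (D.t : ℝ) ^ 26 := by
    unfold avY
    rw [div_le_iff₀ hY0]
    calc ∑ y, U y ≤ ∑ _y : Y, D.κ / (D.t : ℝ) ^ 26 := sum_le_sum (fun y _ => hUb y)
      _ = D.κ / (D.t : ℝ) ^ 26 * Fintype.card Y := by
        rw [sum_const, card_univ, nsmul_eq_mul]
        ring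
  have hUav0 : 0 ≤ avY U := by
    unfold avY
    exact div_nonneg (sum_nonneg (fun y _ => hU0 y)) hY0.le
  have hUdev : ∀ y, |U y - avY U| ≤ D.κ / (D.t : ℝ) ^ 26 := by
    intro y
    rw [abs_le]
    have h1 := hU0 y
    have h2 := hUb y
    constructor <;> linarith
  -- powers
  have hp1 : (D.t : ℝ) ≤ D.κ / (D.t : ℝ) ^ 26 / 10 := by
    rw [le_div_iff₀ (by norm_num), le_div_iff₀ (by positivity)]
    have h1 : (10 : ℝ) ≤ (D.t : ℝ) ^ 23 := by
      calc (10 : ℝ) ≤ D.t := le_trans (by norm_num) ht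
        _ = (D.t : ℝ) ^ 1 := (pow_one _).symm
        _ ≤ (D.t : ℝ) ^ 23 := pow_le_pow_right₀ ht1 (by norm_num)
    calc (D.t : ℝ) * 10 * (D.t : ℝ) ^ 26 = 10 * (D.t : ℝ) ^ 27 := by ring
      _ ≤ (D.t : ℝ) ^ 23 * (D.t : ℝ) ^ 27 := by gcongr
      _ = (D.t : ℝ) ^ 50 := by ring
      _ ≤ D.κ := hk
  have hp2 : D.dvU ≤ D.κ / (D.t : ℝ) ^ 26 / 10 := by
    refine hdvU.trans ?_
    rw [div_div, div_le_div_iff₀ (by positivity) (by positivity)]
    have h1 : (20 : ℝ) ≤ (D.t : ℝ) ^ 8 := by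
      calc (20 : ℝ) ≤ D.t := le_trans (by norm_num) ht
        _ = (D.t : ℝ) ^ 1 := (pow_one _).symm
        _ ≤ (D.t : ℝ) ^ 8 := pow_le_pow_right₀ ht1 (by norm_num)
    calc 2 * (D.κ : ℝ) * ((D.t : ℝ) ^ 26 * 10) = D.κ * (20 * (D.t : ℝ) ^ 26) := by ring
      _ ≤ D.κ * ((D.t : ℝ) ^ 8 * (D.t : ℝ) ^ 26) := by gcongr
      _ = D.κ * (D.t : ℝ) ^ 34 := by ring
  have hκt : 0 ≤ (D.κ : ℝ) / (D.t : ℝ) ^ 26 := by positivity
  have hρU : ∀ y, |(- D.rho') * (U y - avY U)| ≤ D.κ / (D.t : ℝ) ^ 26 := by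
    intro y
    rw [abs_mul, abs_neg, abs_of_nonneg hρ0]
    calc D.rho' * |U y - avY U| ≤ 1 * (D.κ / (D.t : ℝ) ^ 26) :=
          mul_le_mul hr4 (hUdev y) (abs_nonneg _) zero_le_one
      _ = _ := one_mul _
  refine ⟨hav, ?_, ?_⟩
  · intro y
    rw [hdec y]
    have h1 := abs_add_le (f1 y + f2 y) ((- D.rho') * (U y - avY U))
    have h2 := abs_add_le (f1 y) (f2 y)
    have h3 := hf1b y
    have h4 := hf2b y
    have h5 := hρU y
    have h6 : 3 * (D.κ : ℝ) / (D.t : ℝ) ^ 26 = 3 * (D.κ / (D.t : ℝ) ^ 26) := by ring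
    rw [h6]
    linarith
  · -- smoothness
    have hbig := hD.big
    have hs1 : SmY D.H.G (20000 * D.dvU / D.κ + 1 / D.n) (fun y => f1 y - avY f1) := by
      refine smoothY hbig hD.rng D.H hD.kap f1 D.dvU hf1b (fun T => ?_)
      by_contra h
      exact hG.mac T (Or.inl (not_le.1 h))
    have hs2 : SmY D.H.G (20000 * D.t / D.κ + 1 / D.n) (fun y => f2 y - avY f2) := by
      refine smoothY hbig hD.rng D.H hD.kap f2 D.t hf2b (fun T => ?_)
      by_contra h
      refine hG.mac T (Or.inr (Or.inl ?_))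
      have h1 := not_le.1 h
      refine lt_of_lt_of_le h1 ?_
      refine (Finset.abs_sum_le_sum_abs _ _).trans ?_
      exact sum_le_sum (fun y _ => hf2Z y)
    have hs3 := SmY_smul D.H.G _ (- D.rho') _ (outer_smY D.H D.t D.ω ht1' D.O hD.out)
    have hs4 := SmY_add D.H.G _ _ _ _ (SmY_add D.H.G _ _ _ _ hs1 hs2) hs3
    have heq : (fun y => (f1 y - avY f1 + (f2 y - avY f2)) +
        (- D.rho') * ((uY D.O y : ℝ) - avY (fun y => (uY D.O y : ℝ)))) = fun y => u y - avY u := by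
      -- the averages of f1 and f2 cancel
      have h1 : avY f1 + avY f2 = 0 := by
        have h2 : avY (fun y => u y - avY u) = 0 := by
          unfold avY
          rw [show ∑ x, (u x - (∑ y, u y) / (Fintype.card Y : ℝ)) = 0 from sum_sub_avY u]
          simp
        have h3 : (fun y => u y - avY u) = fun y => (f1 y + f2 y) + (- D.rho') * (U y - avY U) :=
          funext hdec
        rw [h3, avY_add, avY_add, avY_smul] at h2
        have h4 : avY (fun y => U y - avY U) = 0 := by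
          unfold avY
          rw [show ∑ x, (U x - (∑ y, U y) / (Fintype.card Y : ℝ)) = 0 from sum_sub_avY U]
          simp
        rw [h4] at h2
        have h5 : avY (fun y => f1 y) = avY f1 := rfl
        have h6 : avY (fun y => f2 y) = avY f2 := rfl
        linarith
      funext y
      rw [hdec y]
      have h7 : (f1 y - avY f1 + (f2 y - avY f2)) = f1 y + f2 y - (avY f1 + avY f2) := by ring
      rw [h7, h1]
      simp only [hU]
      ring
    rw [← heq]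
    refine SmY_mono D.H.G _ _ ?_ _ hs4
    rw [abs_neg, abs_of_nonneg hρ0]
    have e0 : 0 ≤ 6 / (D.t : ℝ) ^ 26 := by positivity
    have e1 : D.rho' * (6 / (D.t : ℝ) ^ 26) ≤ 6 / (D.t : ℝ) ^ 26 := by
      calc D.rho' * (6 / (D.t : ℝ) ^ 26) ≤ 1 * (6 / (D.t : ℝ) ^ 26) :=
            mul_le_mul_of_nonneg_right hr4 e0
        _ = _ := one_mul _
    have e2 : 20000 * D.dvU / D.κ ≤ 1 / (D.t : ℝ) ^ 26 := by
      have h1 : D.dvU / D.κ ≤ 2 / (D.t : ℝ) ^ 34 := by
        rw [div_le_iff₀ hκ0]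
        refine hdvU.trans (le_of_eq ?_)
        ring
      calc 20000 * D.dvU / D.κ = 20000 * (D.dvU / D.κ) := by ring
        _ ≤ 20000 * (2 / (D.t : ℝ) ^ 34) := by gcongr
        _ = 40000 / (D.t : ℝ) ^ 34 := by ring
        _ ≤ 1 / (D.t : ℝ) ^ 26 := by
          rw [div_le_div_iff₀ (by positivity) (by positivity)]
          have h1 : (40000 : ℝ) ≤ (D.t : ℝ) ^ 8 := by
            calc (40000 : ℝ) ≤ D.t := le_trans (by norm_num) ht
              _ = (D.t : ℝ) ^ 1 := (pow_one _).symm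
              _ ≤ (D.t : ℝ) ^ 8 := pow_le_pow_right₀ ht1 (by norm_num)
          calc 40000 * (D.t : ℝ) ^ 26 ≤ (D.t : ℝ) ^ 8 * (D.t : ℝ) ^ 26 := by gcongr
            _ = 1 * (D.t : ℝ) ^ 34 := by ring
    have e3 : 20000 * (D.t : ℝ) / D.κ ≤ 1 / (D.t : ℝ) ^ 26 := by
      rw [div_le_div_iff₀ hκ0 (by positivity)]
      have h1 : (20000 : ℝ) ≤ (D.t : ℝ) ^ 23 := by
        calc (20000 : ℝ) ≤ D.t := le_trans (by norm_num) ht
          _ = (D.t : ℝ) ^ 1 := (pow_one _).symm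
          _ ≤ (D.t : ℝ) ^ 23 := pow_le_pow_right₀ ht1 (by norm_num)
      calc 20000 * (D.t : ℝ) * (D.t : ℝ) ^ 26 = 20000 * (D.t : ℝ) ^ 27 := by ring
        _ ≤ (D.t : ℝ) ^ 23 * (D.t : ℝ) ^ 27 := by gcongr
        _ = (D.t : ℝ) ^ 50 := by ring
        _ ≤ 1 * D.κ := by linarith
    have e4 : 1 / (D.n : ℝ) ≤ 1 / (D.t : ℝ) ^ 26 := by
      apply one_div_le_one_div_of_le (by positivity)
      refine le_trans ?_ hn1
      exact pow_le_pow_right₀ ht1 (by norm_num)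
    have e5 : 11 / (D.t : ℝ) ^ 26 = 11 * (1 / (D.t : ℝ) ^ 26) := by ring
    have e6 : 6 / (D.t : ℝ) ^ 26 = 6 * (1 / (D.t : ℝ) ^ 26) := by ring
    have e7 : 0 ≤ 1 / (D.t : ℝ) ^ 26 := by positivity
    rw [e5]
    linarith

end Pool.SCDH
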