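import Pool.Agent.Lib.SCDH.MDefs
import Pool.Agent.Lib.SCDH.G01
import Pool.Agent.Lib.SCDH.G02
import Pool.Agent.Lib.SCDH.G03
import Pool.Agent.Lib.SCDH.G04
import Pool.Agent.Lib.SCDH.N01
import Pool.Agent.Lib.SCDH.K01
import Pool.Agent.Lib.SCDH.D19
import Pool.Agent.Lib.SCDH.U01
import Pool.Agent.Lib.SCDH.TS1

/-!
# Row B01 (paper scd_h36.md)
Batch theorem (paper section 6).
Recipe: TS1.exists_labels gives φ, φ'. Sin, Zs, Sc of side 2 are the images under ψ c (hψ: ψ c maps OY c onto O'.OY c; labels agree). By Good.glo choose Z c ⊆ Zs c with |Sc| + |Z c| = NX (exists_subset_card_eq), on side 2 the image. D19 (side) for both sides. Edge-disjointness: for c < c' and the same edge (x, y): own = slot c y = slot c' y, but slot_mono (y ∈ Sin c or Zs c). imM = Sc ∪ Z. U01 for the usage.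
-/

set_option linter.unusedSectionVars false
set_option linter.unusedVariables false

namespace Pool.SCDH

open Finset Pool.MP_0ccee8_co.Lib2

variable {X Y : Type} [Fintype X] [DecidableEq X] [Fintype Y] [DecidableEq Y]
variable (D : Ctx X Y)

private theorem Sc_disj (φ : D.Lbl) (c : Fin D.B) {Z : Finset Y} (hZ : Z ⊆ D.Zs φ c) {y : Y}
    (hy : y ∈ D.Sc φ c ∪ Z) : (y ∉ D.O.OY c) ∧ (y ∈ D.Sin φ c ∨ y ∈ D.Zs φ c) := by
  rcases mem_union.1 hy with h | h
  · obtain ⟨h1, h2, _⟩ := mem_Sc D φ c y h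
    exact ⟨h1, Or.inl h2⟩
  · have h3 := hZ h
    refine ⟨?_, Or.inr h3⟩
    unfold Ctx.Zs at h3
    exact (mem_filter.1 h3).2.1

/-- the matchings of one side -/
private theorem one_side (hD : CtxOK D) (φ : D.Lbl) (hG : D.Good φ) (Zp : Fin D.B → Finset Y)
    (hZ : ∀ c, Zp c ⊆ D.Zs φ c) (hcard : ∀ c, (D.Sc φ c).card + (Zp c).card = D.NX) :
    ∃ M : Fin D.B → X → Y, Mat (D.Hb ∪ D.F) D.O M ∧ ∀ c, imM D.O M c = D.Sc φ c ∪ Zp c := by
  choose g hg1 hg2 hg3 using fun c => side D hD φ hG c (Zp c) (hZ c) (hcard c)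
  refine ⟨g, ⟨fun c x hx => (hg1 c x hx).1, fun c x hx => ?_, fun c x x' hx hx' h => hg2 c x x' hx hx' h,
    ?_⟩, fun c => hg3 c⟩
  · exact (Sc_disj D φ c (hZ c) (hg1 c x hx).2.2).1
  · have key : ∀ c c' : Fin D.B, c < c' → ∀ x, x ∉ D.O.OX c → x ∉ D.O.OX c' → g c x ≠ g c' x := by
      intro c c' hcc x hx hx' he
      have h1 := (hg1 c x hx).2.1
      have h2 := (hg1 c' x hx').2.1
      have h3 := slot_mono D φ c c' hcc (g c x) (Sc_disj D φ c (hZ c) (hg1 c x hx).2.2).2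
      rw [← he] at h2
      omega
    intro c c' hcc x hx hx'
    rcases lt_or_gt_of_ne hcc with h | h
    · exact key c c' h x hx hx'
    · exact fun he => key c' c h x hx' hx he.symm

private theorem use_eq {O : Outer X Y (Fin D.B)} {M : Fin D.B → X → Y} {S : Fin D.B → Finset Y}
    (h : ∀ c, imM O M c = S c) (y : Y) :
    (use O M y : ℝ) = ((univ.filter (fun c => y ∈ S c)).card : ℝ) := by
  unfold use
  congr 2
  ext c
  simp [h c]

theorem batch (hD : CtxOK D) (O' : Outer X Y (Fin D.B)) (Hb' F' : Finset (X × Y))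
    (hD' : CtxOK { D with O := O', Hb := Hb', F := F' }) (ψ : Fin D.B → Y ≃ Y)
    (hψ : ∀ c, (D.O.OY c).image (ψ c) = O'.OY c) :
    ∃ M M' : Fin D.B → X → Y, Mat (D.Hb ∪ D.F) D.O M ∧ Mat (Hb' ∪ F') O' M' ∧
      (∀ c, imM O' M' c = (imM D.O M c).image (ψ c)) ∧
      (avY (fun y => (use D.O M y : ℝ)) = (D.B : ℝ) * D.NX / Fintype.card Y ∧
        (∀ y, |(use D.O M y : ℝ) - avY (fun y => (use D.O M y : ℝ))| ≤ 3 * D.κ / (D.t : ℝ) ^ 26) ∧
        SmY D.H.G (11 / (D.t : ℝ) ^ 26) (fun y => (use D.O M y : ℝ) - avY (fun y => (use D.O M y : ℝ)))) ∧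
      (avY (fun y => (use O' M' y : ℝ)) = (D.B : ℝ) * D.NX / Fintype.card Y ∧
        (∀ y, |(use O' M' y : ℝ) - avY (fun y => (use O' M' y : ℝ))| ≤ 3 * D.κ / (D.t : ℝ) ^ 26) ∧
        SmY D.H.G (11 / (D.t : ℝ) ^ 26) (fun y => (use O' M' y : ℝ) - avY (fun y => (use O' M' y : ℝ)))) := by
  obtain ⟨φ, φ', hG, hG', hlab⟩ := exists_labels D hD O' Hb' F' hD' ψ
  have hmem : ∀ c y, ψ c y ∈ O'.OY c ↔ y ∈ D.O.OY c := by
    intro c y
    rw [← hψ c]
    simp
  -- the sets of side 2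
  have hZs : ∀ c, Ctx.Zs { D with O := O', Hb := Hb', F := F' } φ' c = (D.Zs φ c).image (ψ c) := by
    intro c
    ext y'
    obtain ⟨y, rfl⟩ := (ψ c).surjective y'
    have e1 : ψ c y ∈ (D.Zs φ c).image (ψ c) ↔ y ∈ D.Zs φ c := by simp
    rw [e1]
    unfold Ctx.Zs
    simp only [mem_filter, mem_univ, true_and, hmem, hlab]
  have hSin : ∀ c, Ctx.Sin { D with O := O', Hb := Hb', F := F' } φ' c = (D.Sin φ c).image (ψ c) := by
    intro c
    ext y'
    obtain ⟨y, rfl⟩ := (ψ c).surjective y'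
    have e1 : ψ c y ∈ (D.Sin φ c).image (ψ c) ↔ y ∈ D.Sin φ c := by simp
    rw [e1]
    unfold Ctx.Sin
    simp only [mem_filter, mem_univ, true_and, hmem, hlab]
    rfl
  have hSc : ∀ c, Ctx.Sc { D with O := O', Hb := Hb', F := F' } φ' c = (D.Sc φ c).image (ψ c) := by
    intro c
    have h1 : Ctx.Sc { D with O := O', Hb := Hb', F := F' } φ' c
        = Ctx.Sin { D with O := O', Hb := Hb', F := F' } φ' c \
          Ctx.Zs { D with O := O', Hb := Hb', F := F' } φ' c := rfl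
    have h2 : D.Sc φ c = D.Sin φ c \ D.Zs φ c := rfl
    rw [h1, h2, hZs, hSin, image_sdiff _ _ (ψ c).injective]
  -- the free vertices which are used
  have hch : ∀ c, ∃ Z, Z ⊆ D.Zs φ c ∧ (D.Sc φ c).card + Z.card = D.NX := by
    intro c
    obtain ⟨h1, h2⟩ := hG.glo c
    obtain ⟨Z, hZ1, hZ2⟩ := exists_subset_card_eq (s := D.Zs φ c) (n := D.NX - (D.Sc φ c).card) (by omega)
    exact ⟨Z, hZ1, by omega⟩
  choose Zp hZ hcard using hch
  obtain ⟨M, hM, hMi⟩ := one_side D hD φ hG Zp hZ hcard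
  have hZ' : ∀ c, (Zp c).image (ψ c) ⊆ Ctx.Zs { D with O := O', Hb := Hb', F := F' } φ' c := by
    intro c
    rw [hZs]
    exact image_subset_image (hZ c)
  have hcard' : ∀ c, (Ctx.Sc { D with O := O', Hb := Hb', F := F' } φ' c).card
      + ((Zp c).image (ψ c)).card = D.NX := by
    intro c
    rw [hSc, card_image_of_injective _ (ψ c).injective, card_image_of_injective _ (ψ c).injective]
    exact hcard c
  obtain ⟨M', hM', hMi'⟩ := one_side { D with O := O', Hb := Hb', F := F' } hD' φ' hG'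
    (fun c => (Zp c).image (ψ c)) hZ' hcard'
  refine ⟨M, M', hM, hM', ?_, ?_, ?_⟩
  · intro c
    have h1 := hMi' c
    have h2 := hMi c
    rw [h2, image_union, ← hSc c]
    exact h1
  · exact usage D hD φ hG Zp hZ hcard _ (fun y => use_eq D hMi y)
  · exact usage { D with O := O', Hb := Hb', F := F' } hD' φ' hG' (fun c => (Zp c).image (ψ c)) hZ' hcard' _
      (fun y => use_eq D hMi' y)

end Pool.SCDH
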