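import Pool.Agent.Lib.SCDH.Defs

/-!
# One side of one batch: context, labels, private graphs
-/

set_option linter.unusedSectionVars false

namespace Pool.SCDH

open Finset Pool.MP_0ccee8_co.Lib2

variable {X Y : Type} [Fintype X] [DecidableEq X] [Fintype Y] [DecidableEq Y]

/-- all data of one side of one batch; `a+1 = |Y| - ω`, `z+1 = n^20`, `s+1 = σ` slots -/
structure Ctx (X Y : Type) [Fintype X] [DecidableEq X] [Fintype Y] [DecidableEq Y] where
  ε : ℝ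
  t : ℕ
  n : ℕ
  d : ℕ
  κ : ℕ
  ω : ℕ
  B : ℕ
  B0 : ℕ
  a : ℕ
  z : ℕ
  s : ℕ
  H : Host X Y n d κ
  O : Outer X Y (Fin B)
  Hb : Finset (X × Y)
  F : Finset (X × Y)

structure CtxOK (D : Ctx X Y) : Prop where
  big : Big D.ε D.t
  rng : Rng D.t D.n
  kap : D.t ^ 50 ≤ D.κ
  out : OutOK D.H D.t D.ω D.O
  bulk : BulkOK D.H D.ε D.t D.Hb
  res : Res D.H D.t D.F
  dis : Disjoint D.Hb D.F
  hB : D.B ≤ D.B0
  hB1 : D.n ≤ 2 * (D.t ^ 20 * D.B0)
  hB2 : D.t ^ 20 * D.B0 ≤ D.n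
  hs1 : 3 * (D.κ * D.B0) ≤ 2 * (D.d * (D.s + 1))
  hs2 : D.d * (D.s + 1) ≤ 2 * (D.κ * D.B0)
  ha : D.a + 1 + D.ω = Fintype.card Y
  hz : D.z + 1 = D.n ^ 20

namespace Ctx

variable (D : Ctx X Y)

/-- size of the sets to be matched -/
def NX : ℕ := Fintype.card X - D.ω

abbrev Lab : Type := Fin (D.a + 1) × Fin (D.z + 1) × Fin 2 × Fin (D.s + 1)
abbrev Var : Type := (Fin D.B × Y) ⊕ (X × Y)
abbrev Lbl : Type := D.Var → D.Lab

/-- `ρ' = NX / |Y_c|`, `ρ₁ = ρ' (1 - δ)`, `θ = 1/σ` -/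
noncomputable def rho' : ℝ := (D.NX : ℝ) / ((D.a : ℝ) + 1)
noncomputable def rho1 : ℝ := D.rho' * (1 - 1 / ((D.z : ℝ) + 1))
noncomputable def theta : ℝ := 1 / ((D.s : ℝ) + 1)
/-- common degree of the private graphs -/
noncomputable def q : ℝ := D.theta * (D.rho1 * avX (fun x => (dgX D.Hb x : ℝ)))
noncomputable def qF : ℝ := D.rho1 * avX (fun x => (dgX D.F x : ℝ))

variable (φ : D.Lbl)

/-- the `y` which are in for the colour `c` -/
def Sin (c : Fin D.B) : Finset Y :=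
  univ.filter (fun y => y ∉ D.O.OY c ∧ ((φ (.inl (c, y))).1 : ℕ) < D.NX)
/-- the free `y` -/
def Zs (c : Fin D.B) : Finset Y :=
  univ.filter (fun y => y ∉ D.O.OY c ∧ ((φ (.inl (c, y))).2.1 : ℕ) = 0)
/-- in and not free -/
def Sc (c : Fin D.B) : Finset Y := D.Sin φ c \ D.Zs φ c
/-- the two halves of `Sc` -/
def Sh (c : Fin D.B) (b : Fin 2) : Finset Y := (D.Sc φ c).filter (fun y => (φ (.inl (c, y))).2.2.1 = b)
/-- the slot of the colour `c` at `y` -/
def slot (c : Fin D.B) (y : Y) : ℕ :=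
  (univ.filter (fun c' : Fin D.B => c' < c ∧ (y ∈ D.Sin φ c' ∨ y ∈ D.Zs φ c'))).card
/-- owner label of an edge -/
def own (e : X × Y) : ℕ := ((φ (.inr e)).2.2.2 : ℕ)

/-- edges of `Γ` owned by colour `c`, with `y ∈ S` -/
def Pv (Γ : Finset (X × Y)) (S : Finset Y) (c : Fin D.B) : Finset (X × Y) :=
  Γ.filter (fun e => e.1 ∉ D.O.OX c ∧ e.2 ∈ S ∧ D.own φ e = D.slot φ c e.2)

/-- private graph on `Sc`, on `Sin`; private reserve graphs -/
def Pc (c : Fin D.B) : Finset (X × Y) := D.Pv φ D.Hb (D.Sc φ c) c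
def Pg (c : Fin D.B) : Finset (X × Y) := D.Pv φ D.Hb (D.Sin φ c) c
def Rc (c : Fin D.B) : Finset (X × Y) := D.Pv φ D.F (D.Sc φ c) c
def Rg (c : Fin D.B) : Finset (X × Y) := D.Pv φ D.F (D.Sin φ c) c

/-- restriction of a graph to a set of `y` -/
def _root_.Pool.SCDH.rs (Γ : Finset (X × Y)) (S : Finset Y) : Finset (X × Y) := Γ.filter (fun e => e.2 ∈ S)

/-- the reserve restricted to `Sc` and to the half `Sh c 0`, `Sh c 1` -/
def FS (c : Fin D.B) : Finset (X × Y) := rs D.F (D.Sc φ c)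

/-- number of free vertices at distance at most 2 from `y` -/
def vZ (c : Fin D.B) (y : Y) : ℕ :=
  ((D.Zs φ c).filter (fun y' => ∃ x, (x, y) ∈ D.H.G ∧ (x, y') ∈ D.H.G)).card

end Ctx

open Classical in
/-- variables near a vertex -/
noncomputable def nearV {X Y : Type} [Fintype X] [DecidableEq X] [Fintype Y] [DecidableEq Y] (B : ℕ)
    (G : Finset (X × Y)) (v : X ⊕ Y) : Finset ((Fin B × Y) ⊕ (X × Y)) :=
  univ.filter (fun w => match w with
    | .inl (_, y) => Sum.inr y ∈ ball G 4 {v}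
    | .inr (x, y) => Sum.inl x ∈ ball G 4 {v} ∧ (x, y) ∈ G)

open Classical in
/-- variables near a set of vertices -/
noncomputable def supT {X Y : Type} [Fintype X] [DecidableEq X] [Fintype Y] [DecidableEq Y] (B : ℕ)
    (G : Finset (X × Y)) (T : Finset (X ⊕ Y)) : Finset ((Fin B × Y) ⊕ (X × Y)) :=
  univ.filter (fun w => match w with
    | .inl (_, y) => Sum.inr y ∈ ball G (rW + 5) T
    | .inr (x, y) => Sum.inl x ∈ ball G (rW + 5) T ∧ (x, y) ∈ G)

/-- a family of events, one for every set `T` of vertices, which can be avoided -/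
structure MacOK (D : Ctx X Y) (Bad : Finset (X ⊕ Y) → D.Lbl → Prop) : Prop where
  emp : ∀ φ, ¬ Bad ∅ φ
  dep : ∀ T, Dep (Bad T) (supT D.B D.H.G T)
  pr : ∀ T : Finset (X ⊕ Y), T.Nonempty → P (Bad T) ≤ Real.exp (-(5 * D.n * T.card))

/-- size term -/
noncomputable def szT (Γ : Finset (X × Y)) (n : ℕ) (T : Finset (X ⊕ Y)) : ℝ :=
  ((cX Γ n T).card + (cY Γ n T).card + Nτ n * T.card : ℝ)

/-- precision of the macroscopic statements -/
noncomputable def lam (n : ℕ) : ℝ := 1 / (n : ℝ) ^ 6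

end Pool.SCDH
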