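import Pool.Agent.Lib.SCDH.LvDefs
import Pool.Agent.Lib.SCDH.G01

/-!
# Row C1 (paper scd_h36.md)
Degrees in the inclusion graph.
Recipe: neighbours of x above are x ∪ {a}, a ∉ x (bijection with xᶜ); below y: y ∖ {a}, a ∈ y.
-/

set_option linter.unusedSectionVars false
set_option linter.unusedVariables false

namespace Pool.SCDH

open Finset Pool.MP_0ccee8_co.Lib2


theorem GLv_degX (n k : ℕ) (x : Lv n k) : dgX (GLv n k) x = n - k := by
  have h : (x.1ᶜ).card = n - k := by rw [Finset.card_compl, Fintype.card_fin, x.2]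
  unfold dgX eB
  rw [← h]
  symm
  refine Finset.card_bij (fun a ha => (x, ⟨insert a x.1, by
    rw [Finset.card_insert_of_notMem (Finset.mem_compl.1 ha), x.2]⟩)) ?_ ?_ ?_
  · intro a ha
    simp only [GLv, Finset.mem_filter, Finset.mem_univ, true_and, Finset.mem_singleton, and_true]
    exact Finset.subset_insert _ _
  · intro a ha b hb hab
    have h1 : insert a x.1 = insert b x.1 := congrArg Subtype.val (Prod.ext_iff.1 hab).2
    have h2 : a ∈ insert b x.1 := h1 ▸ Finset.mem_insert_self a x.1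
    rcases Finset.mem_insert.1 h2 with h3 | h3
    · exact h3
    · exact absurd h3 (Finset.mem_compl.1 ha)
  · rintro ⟨x', y⟩ he
    simp only [GLv, Finset.mem_filter, Finset.mem_univ, true_and, Finset.mem_singleton,
      and_true] at he
    obtain ⟨hsub, rfl⟩ := he
    have h1 : (y.1 \ x'.1).card = 1 := by
      rw [Finset.card_sdiff_of_subset hsub, y.2, x'.2]
      omega
    obtain ⟨a, ha⟩ := Finset.card_eq_one.1 h1
    have ha1 : a ∈ y.1 \ x'.1 := ha ▸ Finset.mem_singleton_self a
    refine ⟨a, Finset.mem_compl.2 (Finset.mem_sdiff.1 ha1).2, ?_⟩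
    refine Prod.ext rfl (Subtype.ext ?_)
    change insert a x'.1 = y.1
    rw [← Finset.sdiff_union_of_subset hsub, ha]
    rfl

theorem GLv_degY (n k : ℕ) (y : Lv n (k + 1)) : dgY (GLv n k) y = k + 1 := by
  unfold dgY eB
  have h : y.1.card = k + 1 := y.2
  refine Eq.trans (Eq.symm ?_) h
  refine Finset.card_bij (fun a ha => (⟨y.1.erase a, by
    rw [Finset.card_erase_of_mem ha, y.2]; rfl⟩, y)) ?_ ?_ ?_
  · intro a ha
    simp only [GLv, Finset.mem_filter, Finset.mem_univ, true_and, Finset.mem_singleton, and_true]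
    exact Finset.erase_subset _ _
  · intro a ha b hb hab
    have h1 : y.1.erase a = y.1.erase b := congrArg Subtype.val (Prod.ext_iff.1 hab).1
    by_contra hne
    have h2 : a ∈ y.1.erase b := Finset.mem_erase.2 ⟨hne, ha⟩
    rw [← h1] at h2
    exact Finset.notMem_erase a _ h2
  · rintro ⟨x, y'⟩ he
    simp only [GLv, Finset.mem_filter, Finset.mem_univ, true_and, Finset.mem_singleton] at he
    obtain ⟨hsub, rfl⟩ := he
    have h1 : (y'.1 \ x.1).card = 1 := by
      rw [Finset.card_sdiff_of_subset hsub, y'.2, x.2]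
      omega
    obtain ⟨a, ha⟩ := Finset.card_eq_one.1 h1
    have ha1 : a ∈ y'.1 \ x.1 := ha ▸ Finset.mem_singleton_self a
    refine ⟨a, (Finset.mem_sdiff.1 ha1).1, ?_⟩
    refine Prod.ext (Subtype.ext ?_) rfl
    change y'.1.erase a = x.1
    rw [Finset.erase_eq, ← ha, Finset.sdiff_sdiff_eq_self hsub]

end Pool.SCDH
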