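import Pool.Agent.Lib.SCDH.LvDefs

/-!
# Row C2 (paper scd_h36.md)
The Hamming distance in the inclusion graph.
Recipe: y = x ∪ {a}: symmDiff y u = symmDiff x u with a removed (a ∈ u) or added (a ∉ u). Nearer neighbours of x correspond to a ∈ u ∖ x, of y to a ∈ y ∖ u.
-/

set_option linter.unusedSectionVars false
set_option linter.unusedVariables false

namespace Pool.SCDH

open Finset Pool.MP_0ccee8_co.Lib2

private theorem sd_mem {n : ℕ} {s u : Finset (Fin n)} {a : Fin n} (ha : a ∉ s) (hu : a ∈ u) :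
    (symmDiff (insert a s) u).card + 1 = (symmDiff s u).card := by
  have h1 : symmDiff (insert a s) u = (symmDiff s u).erase a := by
    ext b
    simp only [Finset.mem_symmDiff, Finset.mem_insert, Finset.mem_erase]
    by_cases hb : b = a
    · subst hb
      simp [hu]
    · simp [hb]
  have h2 : a ∈ symmDiff s u := by
    simp [Finset.mem_symmDiff, ha, hu]
  rw [h1, Finset.card_erase_add_one h2]

private theorem sd_not_mem {n : ℕ} {s u : Finset (Fin n)} {a : Fin n} (ha : a ∉ s) (hu : a ∉ u) :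
    (symmDiff (insert a s) u).card = (symmDiff s u).card + 1 := by
  have h1 : symmDiff (insert a s) u = insert a (symmDiff s u) := by
    ext b
    simp only [Finset.mem_symmDiff, Finset.mem_insert]
    by_cases hb : b = a
    · subst hb
      simp [hu]
    · simp [hb]
  have h2 : a ∉ symmDiff s u := by
    simp [Finset.mem_symmDiff, ha, hu]
  rw [h1, Finset.card_insert_of_notMem h2]

private theorem exists_insert {n k : ℕ} {x : Lv n k} {y : Lv n (k + 1)} (h : x.1 ⊆ y.1) :
    ∃ a, a ∉ x.1 ∧ y.1 = insert a x.1 := by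
  have h1 : (y.1 \ x.1).card = 1 := by
    rw [Finset.card_sdiff_of_subset h, x.2, y.2]
    omega
  obtain ⟨a, ha⟩ := Finset.card_eq_one.mp h1
  have h2 : a ∈ y.1 \ x.1 := by rw [ha]; exact Finset.mem_singleton_self a
  refine ⟨a, (Finset.mem_sdiff.mp h2).2, ?_⟩
  rw [← Finset.sdiff_union_of_subset h, ha]
  rfl

private theorem mem_GLv {n k : ℕ} {x : Lv n k} {y : Lv n (k + 1)} :
    (x, y) ∈ GLv n k ↔ x.1 ⊆ y.1 := by
  simp [GLv]

theorem hdist_self (n k : ℕ) (v : Lv n k ⊕ Lv n (k + 1)) : hdist v v = 0 := by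
  simp [hdist]

theorem hdist_step (n k : ℕ) (e : Lv n k × Lv n (k + 1)) (he : e ∈ GLv n k) (u : Lv n k ⊕ Lv n (k + 1)) :
    hdist (.inl e.1) u + 1 = hdist (.inr e.2) u ∨ hdist (.inr e.2) u + 1 = hdist (.inl e.1) u := by
  obtain ⟨x, y⟩ := e
  obtain ⟨a, ha, hy⟩ := exists_insert (mem_GLv.mp he)
  simp only [hdist, fsv]
  rw [hy]
  by_cases hu : a ∈ fsv u
  · right
    exact sd_mem ha hu
  · left
    exact (sd_not_mem ha hu).symm

theorem hdist_nearX (n k : ℕ) (x : Lv n k) (u : Lv n k ⊕ Lv n (k + 1)) :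
    (univ.filter (fun y => (x, y) ∈ GLv n k ∧ hdist (.inr y) u + 1 = hdist (.inl x) u)).card
      ≤ hdist (.inl x) u := by
  classical
  have h1 : (univ.filter (fun y : Lv n (k + 1) => (x, y) ∈ GLv n k ∧
      hdist (.inr y) u + 1 = hdist (.inl x) u)).image Subtype.val ⊆
      (fsv u \ x.1).image (fun a => insert a x.1) := by
    intro s hs
    obtain ⟨y, hy, rfl⟩ := Finset.mem_image.mp hs
    obtain ⟨hy1, hy2⟩ := (Finset.mem_filter.mp hy).2
    obtain ⟨a, ha, hya⟩ := exists_insert (mem_GLv.mp hy1)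
    have hau : a ∈ fsv u := by
      by_contra hu
      have := sd_not_mem ha hu
      simp only [hdist, fsv] at hy2
      rw [hya] at hy2
      simp only [fsv] at this
      omega
    exact Finset.mem_image.mpr ⟨a, Finset.mem_sdiff.mpr ⟨hau, ha⟩, hya.symm⟩
  rw [← Finset.card_image_of_injective _ Subtype.val_injective]
  refine (Finset.card_le_card h1).trans (Finset.card_image_le.trans ?_)
  unfold hdist
  refine Finset.card_le_card ?_
  intro b hb
  have hb' := Finset.mem_sdiff.mp hb
  exact Finset.mem_symmDiff.mpr (Or.inr ⟨hb'.1, hb'.2⟩)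

theorem hdist_nearY (n k : ℕ) (y : Lv n (k + 1)) (u : Lv n k ⊕ Lv n (k + 1)) :
    (univ.filter (fun x => (x, y) ∈ GLv n k ∧ hdist (.inl x) u + 1 = hdist (.inr y) u)).card
      ≤ hdist (.inr y) u := by
  classical
  have h1 : (univ.filter (fun x : Lv n k => (x, y) ∈ GLv n k ∧
      hdist (.inl x) u + 1 = hdist (.inr y) u)).image Subtype.val ⊆
      (y.1 \ fsv u).image (fun a => y.1.erase a) := by
    intro s hs
    obtain ⟨x, hx, rfl⟩ := Finset.mem_image.mp hs
    obtain ⟨hx1, hx2⟩ := (Finset.mem_filter.mp hx).2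
    obtain ⟨a, ha, hya⟩ := exists_insert (mem_GLv.mp hx1)
    have hau : a ∉ fsv u := by
      intro hu
      have := sd_mem ha hu
      simp only [hdist, fsv] at hx2
      rw [hya] at hx2
      simp only [fsv] at this
      omega
    refine Finset.mem_image.mpr ⟨a, Finset.mem_sdiff.mpr ⟨?_, hau⟩, ?_⟩
    · rw [hya]; exact Finset.mem_insert_self a _
    · simp only [hya]
      exact Finset.erase_insert ha
  rw [← Finset.card_image_of_injective _ Subtype.val_injective]
  refine (Finset.card_le_card h1).trans (Finset.card_image_le.trans ?_)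
  unfold hdist
  refine Finset.card_le_card ?_
  intro b hb
  have hb' := Finset.mem_sdiff.mp hb
  exact Finset.mem_symmDiff.mpr (Or.inl ⟨hb'.1, hb'.2⟩)

end Pool.SCDH
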