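import Pool.Agent.Lib.SCDH.LvDefs

/-!
# Row C3 (paper scd_h36.md)
Laplace gap n of the Johnson graph J(n,k), 1 ≤ k ≤ n-1, for all functions, on the k-subsets of a set S, |S| = n (ordered pairs).
Recipe: induction on |S| (base |S| = 2, k = 1: direct, equality). Step n ≥ 3: every edge (x, x - a + b) lies in the slices {m ∈ x}, {m ∉ x} for the n-2 elements m ∉ {a,b}: (n-2) E(f) = ∑_m [E of f on powersetCard k (S.erase m) + E of x ↦ f (insert m x) on powersetCard (k-1) (S.erase m)] (slices with k-1 = 0 or k = n-1 have one element, energy 0 and variance 0). Induction: E_slice ≥ 2(n-1)(∑ f² - (∑f)²/size). WLOG ∑ f = 0 (subtract the mean). With g_m = ∑_{x ∋ m} f x the two slice sums are g_m and -g_m; 1/C(n-1,k-1) + 1/C(n-1,k) = n²/(k(n-k) C(n,k)). It remains ∑_m g_m² ≤ C(n,k) k(n-k)/(n(n-1)) ∑ f²: put h = ∑_m g_m (1_{∋m} - k/n) (as function of x); ∑_m g_m² = <f, h> ≤ |f||h| and |h|² = ∑_{m,m'} g_m g_m' Gram(m,m') with Gram = C(n,k) k(n-k)/(n(n-1)) (δ - 1/n), and ∑_m g_m = k ∑ f = 0, so |h|² = c ∑ g_m². Total: (n-2)E ≥ 2(n-1)(n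 - n/(n-1)) ∑ f² = 2n(n-2) ∑ f².
-/

set_option linter.unusedSectionVars false
set_option linter.unusedVariables false

namespace Pool.SCDH

open Finset Pool.MP_0ccee8_co.Lib2


section aux

variable {α : Type} [DecidableEq α]

private lemma sumA {S : Finset α} {m : α} (k : ℕ) (Φ : Finset α → ℝ) :
    ∑ x ∈ (S.erase m).powersetCard k, Φ x =
      ∑ x ∈ S.powersetCard k, if m ∉ x then Φ x else 0 := by
  rw [← Finset.sum_filter]
  congr 1
  ext x
  simp only [mem_powersetCard, mem_filter, subset_erase]
  tauto

private lemma sumB {S : Finset α} {m : α} (hm : m ∈ S) (k : ℕ) (Φ : Finset α → ℝ) :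
    ∑ x ∈ (S.erase m).powersetCard k, Φ (insert m x) =
      ∑ x ∈ S.powersetCard (k + 1), if m ∈ x then Φ x else 0 := by
  rw [← Finset.sum_filter]
  refine Finset.sum_nbij' (fun x => insert m x) (fun x => x.erase m) ?_ ?_ ?_ ?_ ?_
  · intro x hx
    rw [mem_powersetCard, subset_erase] at hx
    obtain ⟨⟨h1, h2⟩, h3⟩ := hx
    rw [mem_filter, mem_powersetCard, card_insert_of_notMem h2, h3]
    exact ⟨⟨insert_subset hm h1, rfl⟩, mem_insert_self _ _⟩
  · intro x hx
    rw [mem_filter, mem_powersetCard] at hx
    obtain ⟨⟨h1, h2⟩, h3⟩ := hx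
    rw [mem_powersetCard, card_erase_of_mem h3, h2]
    exact ⟨erase_subset_erase _ h1, rfl⟩
  · intro x hx
    rw [mem_powersetCard, subset_erase] at hx
    exact erase_insert hx.1.2
  · intro x hx
    rw [mem_filter] at hx
    exact insert_erase hx.2
  · intro x hx
    rfl

/-- the energy -/
private noncomputable def En (S : Finset α) (k : ℕ) (f : Finset α → ℝ) : ℝ :=
  ∑ x ∈ S.powersetCard k, ∑ a ∈ x, ∑ b ∈ S \ x, (f x - f (insert b (x.erase a))) ^ 2

private lemma energy_step (S : Finset α) (k : ℕ) (f : Finset α → ℝ) :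
    ∑ m ∈ S, (En (S.erase m) (k + 1) f + En (S.erase m) k (fun x => f (insert m x))) =
      ((S.card : ℝ) - 2) * En S (k + 1) f := by
  have h1 : ∀ m ∈ S, En (S.erase m) (k + 1) f + En (S.erase m) k (fun x => f (insert m x)) =
      ∑ x ∈ S.powersetCard (k + 1), ∑ a ∈ x, ∑ b ∈ S \ x,
        (if m ≠ a ∧ m ≠ b then (f x - f (insert b (x.erase a))) ^ 2 else 0) := by
    intro m hm
    have hA : En (S.erase m) (k + 1) f = ∑ x ∈ S.powersetCard (k + 1),
        if m ∉ x then (∑ a ∈ x, ∑ b ∈ S \ x,
          if m ≠ b then (f x - f (insert b (x.erase a))) ^ 2 else 0) else 0 := by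
      unfold En
      rw [sumA]
      apply Finset.sum_congr rfl
      intro x _
      by_cases hx : m ∉ x
      · rw [if_pos hx, if_pos hx]
        apply Finset.sum_congr rfl
        intro a _
        rw [← Finset.sum_filter]
        congr 1
        ext b
        simp only [mem_sdiff, mem_erase, mem_filter, ne_eq]
        constructor
        · rintro ⟨⟨h1, h2⟩, h3⟩
          exact ⟨⟨h2, h3⟩, fun h => h1 h.symm⟩
        · rintro ⟨⟨h2, h3⟩, h1⟩
          exact ⟨⟨fun h => h1 h.symm, h2⟩, h3⟩
      · rw [if_neg hx, if_neg hx]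
    have hB : En (S.erase m) k (fun x => f (insert m x)) = ∑ x ∈ S.powersetCard (k + 1),
        if m ∈ x then (∑ a ∈ x.erase m, ∑ b ∈ S \ x,
          (f x - f (insert b (x.erase a))) ^ 2) else 0 := by
      rw [← sumB hm k (fun x => ∑ a ∈ x.erase m, ∑ b ∈ S \ x,
          (f x - f (insert b (x.erase a))) ^ 2)]
      unfold En
      apply Finset.sum_congr rfl
      intro x hx
      rw [mem_powersetCard, subset_erase] at hx
      have hmx : m ∉ x := hx.1.2
      rw [erase_insert hmx]
      apply Finset.sum_congr rfl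
      intro a ha
      have hma : m ≠ a := fun h => hmx (h ▸ ha)
      have hs : (S.erase m) \ x = S \ insert m x := by
        ext b
        simp only [mem_sdiff, mem_erase, mem_insert, not_or]
        tauto
      rw [hs]
      apply Finset.sum_congr rfl
      intro b _
      show (f (insert m x) - f (insert m (insert b (x.erase a)))) ^ 2 = _
      rw [Finset.erase_insert_of_ne hma, Finset.insert_comm m b]
    rw [hA, hB, ← Finset.sum_add_distrib]
    apply Finset.sum_congr rfl
    intro x _
    by_cases hx : m ∈ x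
    · rw [if_neg (not_not.2 hx), if_pos hx, zero_add]
      have h2 : ∀ a ∈ x, (∑ b ∈ S \ x,
          if m ≠ a ∧ m ≠ b then (f x - f (insert b (x.erase a))) ^ 2 else 0) =
          if m ≠ a then ∑ b ∈ S \ x, (f x - f (insert b (x.erase a))) ^ 2 else 0 := by
        intro a _
        by_cases hma : m ≠ a
        · rw [if_pos hma]
          apply Finset.sum_congr rfl
          intro b hb
          rw [mem_sdiff] at hb
          rw [if_pos ⟨hma, fun h => hb.2 (h ▸ hx)⟩]
        · rw [if_neg hma]
          apply Finset.sum_eq_zero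
          intro b _
          rw [if_neg (fun h => hma h.1)]
      rw [Finset.sum_congr rfl h2, ← Finset.sum_filter]
      congr 1
      ext a
      simp only [mem_erase, mem_filter, ne_eq]
      constructor
      · rintro ⟨h1, h2⟩
        exact ⟨h2, fun h => h1 h.symm⟩
      · rintro ⟨h2, h1⟩
        exact ⟨fun h => h1 h.symm, h2⟩
    · rw [if_pos hx, if_neg hx, add_zero]
      apply Finset.sum_congr rfl
      intro a ha
      apply Finset.sum_congr rfl
      intro b _
      have hma : m ≠ a := fun h => hx (h ▸ ha)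
      by_cases hmb : m ≠ b
      · rw [if_pos hmb, if_pos ⟨hma, hmb⟩]
      · rw [if_neg hmb, if_neg (fun h => hmb h.2)]
  rw [Finset.sum_congr rfl h1, Finset.sum_comm]
  unfold En
  rw [Finset.mul_sum]
  apply Finset.sum_congr rfl
  intro x hx
  rw [mem_powersetCard] at hx
  rw [Finset.sum_comm, Finset.mul_sum]
  apply Finset.sum_congr rfl
  intro a ha
  rw [Finset.sum_comm, Finset.mul_sum]
  apply Finset.sum_congr rfl
  intro b hb
  rw [mem_sdiff] at hb
  rw [← Finset.sum_filter, Finset.sum_const, nsmul_eq_mul]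
  congr 1
  have hab : a ≠ b := fun h => hb.2 (h ▸ ha)
  have hS : (S.filter fun m => m ≠ a ∧ m ≠ b) = (S.erase a).erase b := by
    ext m
    simp only [mem_filter, mem_erase, ne_eq]
    tauto
  have haS : a ∈ S := hx.1 ha
  have hbS : b ∈ S.erase a := mem_erase.2 ⟨hab.symm, hb.1⟩
  have hc : ((S.erase a).erase b).card + 2 = S.card := by
    rw [card_erase_of_mem hbS, card_erase_of_mem haS]
    have h3 : 0 < (S.erase a).card := card_pos.2 ⟨b, hbS⟩
    rw [card_erase_of_mem haS] at h3
    omega
  rw [hS, ← hc]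
  push_cast
  ring

private lemma card_mem1 (S : Finset α) (k : ℕ) {m : α} (hm : m ∈ S) :
    (S.card : ℝ) * ∑ x ∈ S.powersetCard (k + 1), (if m ∈ x then (1 : ℝ) else 0) =
      (k + 1) * (S.powersetCard (k + 1)).card := by
  rw [← sumB hm k (fun _ => (1 : ℝ)), Finset.sum_const, nsmul_eq_mul, mul_one,
    card_powersetCard, card_powersetCard, card_erase_of_mem hm]
  obtain ⟨n, hn⟩ : ∃ n, S.card = n + 1 := ⟨S.card - 1, by
    have := card_pos.2 ⟨m, hm⟩
    omega⟩
  rw [hn, Nat.add_sub_cancel]
  have h := Nat.add_one_mul_choose_eq n k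
  have h' : ((n + 1 : ℕ) : ℝ) * (n.choose k : ℝ) = ((n + 1).choose (k + 1) : ℝ) * ((k + 1 : ℕ) : ℝ) := by
    exact_mod_cast h
  push_cast at h' ⊢
  linarith

private lemma card_mem2 (S : Finset α) (k : ℕ) {m m' : α} (hm : m ∈ S) (hm' : m' ∈ S)
    (hmm : m ≠ m') :
    (S.card : ℝ) * (S.card - 1) *
      ∑ x ∈ S.powersetCard (k + 1), (if m ∈ x then (if m' ∈ x then (1 : ℝ) else 0) else 0) =
      (k + 1) * k * (S.powersetCard (k + 1)).card := by
  have h1 : ∑ x ∈ S.powersetCard (k + 1), (if m ∈ x then (if m' ∈ x then (1 : ℝ) else 0) else 0) =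
      ∑ x ∈ (S.erase m).powersetCard k, (if m' ∈ x then (1 : ℝ) else 0) := by
    rw [← sumB hm k (fun x => if m' ∈ x then (1 : ℝ) else 0)]
    apply Finset.sum_congr rfl
    intro x _
    have : m' ∈ insert m x ↔ m' ∈ x := by
      rw [mem_insert]
      constructor
      · rintro (h | h)
        · exact absurd h.symm hmm
        · exact h
      · exact Or.inr
    simp only [this]
  rw [h1]
  have hc : ((S.erase m).card : ℝ) = S.card - 1 := by
    rw [card_erase_of_mem hm, Nat.cast_sub (card_pos.2 ⟨m, hm⟩)]
    simp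
  cases k with
  | zero =>
    simp
  | succ j =>
    have h2 := card_mem1 (S.erase m) j (m := m') (mem_erase.2 ⟨hmm.symm, hm'⟩)
    have h3 : (S.card : ℝ) * ((S.erase m).powersetCard (j + 1)).card =
        (j + 1 + 1) * (S.powersetCard (j + 1 + 1)).card := by
      have h := card_mem1 S (j + 1) hm
      rw [← sumB hm (j + 1) (fun _ => (1 : ℝ)), Finset.sum_const, nsmul_eq_mul, mul_one] at h
      push_cast at h
      exact h
    rw [hc] at h2
    rw [mul_assoc, h2]
    push_cast
    linear_combination (j + 1 : ℝ) * h3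

/-- the Cauchy-Schwarz step -/
private lemma star_bound (S : Finset α) (k : ℕ) (hk2 : k + 2 ≤ S.card) (f : Finset α → ℝ)
    (g : α → ℝ) (hg : ∀ m, g m = ∑ x ∈ S.powersetCard (k + 1), if m ∈ x then f x else 0)
    (F : ℝ) (hF : F = ∑ x ∈ S.powersetCard (k + 1), f x) :
    ∑ m ∈ S, g m = (k + 1) * F ∧
    (S.card : ℝ) * (S.card - 1) * ∑ m ∈ S, g m ^ 2 ≤
      ((S.powersetCard (k + 1)).card : ℝ) * (k + 1) * (S.card - (k + 1)) *
        ∑ x ∈ S.powersetCard (k + 1), f x ^ 2 + (k + 1) * S.card * k * F ^ 2 := by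
  set N : ℝ := (S.card : ℝ) with hN
  set c : ℝ := ((S.powersetCard (k + 1)).card : ℝ) with hc
  have hN2 : (k : ℝ) + 2 ≤ N := by
    rw [hN]
    exact_mod_cast hk2
  have hk0 : (0 : ℝ) ≤ k := Nat.cast_nonneg k
  have hc0 : 0 < c := by
    rw [hc, card_powersetCard]
    exact_mod_cast Nat.choose_pos (by omega)
  have e1 : ∑ m ∈ S, g m = (k + 1) * F := by
    simp only [hg]
    rw [Finset.sum_comm, hF, Finset.mul_sum]
    apply Finset.sum_congr rfl
    intro x hx
    rw [mem_powersetCard] at hx
    rw [← Finset.sum_filter, Finset.sum_const, nsmul_eq_mul]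
    have : S.filter (fun m => m ∈ x) = x := by
      ext m
      rw [mem_filter]
      exact ⟨fun h => h.2, fun h => ⟨hx.1 h, h⟩⟩
    rw [this, hx.2]
    push_cast
    ring
  refine ⟨e1, ?_⟩
  set h : Finset α → ℝ := fun x => ∑ m ∈ S, if m ∈ x then g m else 0 with hh
  have e2 : ∑ x ∈ S.powersetCard (k + 1), f x * h x = ∑ m ∈ S, g m ^ 2 := by
    simp only [hh, Finset.mul_sum]
    rw [Finset.sum_comm]
    apply Finset.sum_congr rfl
    intro m _
    rw [sq]
    nth_rewrite 3 [hg m]
    rw [Finset.mul_sum]
    apply Finset.sum_congr rfl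
    intro x _
    by_cases hm : m ∈ x
    · rw [if_pos hm, if_pos hm]
      ring
    · rw [if_neg hm, if_neg hm]
      ring
  have e3 : N * ∑ x ∈ S.powersetCard (k + 1), h x = (k + 1) * c * ((k + 1) * F) := by
    simp only [hh]
    rw [Finset.sum_comm, ← e1, Finset.mul_sum, Finset.mul_sum]
    apply Finset.sum_congr rfl
    intro m hm
    have h1 := card_mem1 S k hm
    have h2 : ∑ x ∈ S.powersetCard (k + 1), (if m ∈ x then g m else 0) =
        (∑ x ∈ S.powersetCard (k + 1), (if m ∈ x then (1 : ℝ) else 0)) * g m := by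
      rw [Finset.sum_mul]
      apply Finset.sum_congr rfl
      intro x _
      split_ifs <;> simp
    rw [h2, ← mul_assoc, h1]
  have e4 : N * (N - 1) * ∑ x ∈ S.powersetCard (k + 1), h x ^ 2 =
      c * (k + 1) * (N - (k + 1)) * ∑ m ∈ S, g m ^ 2 + c * (k + 1) * k * ((k + 1) * F) ^ 2 := by
    have h1 : ∑ x ∈ S.powersetCard (k + 1), h x ^ 2 = ∑ m ∈ S, ∑ m' ∈ S, g m * g m' *
        ∑ x ∈ S.powersetCard (k + 1), (if m ∈ x then (if m' ∈ x then (1 : ℝ) else 0) else 0) := by
      have h2 : ∀ x, h x ^ 2 = ∑ m ∈ S, ∑ m' ∈ S, g m * g m' *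
          (if m ∈ x then (if m' ∈ x then (1 : ℝ) else 0) else 0) := by
        intro x
        simp only [hh]
        rw [sq, Finset.sum_mul_sum]
        apply Finset.sum_congr rfl
        intro m _
        apply Finset.sum_congr rfl
        intro m' _
        split_ifs <;> simp
      simp only [h2, Finset.mul_sum]
      rw [Finset.sum_comm]
      apply Finset.sum_congr rfl
      intro m _
      rw [Finset.sum_comm]
    have h3 : ∀ m ∈ S, N * (N - 1) * ∑ m' ∈ S, g m * g m' *
        ∑ x ∈ S.powersetCard (k + 1), (if m ∈ x then (if m' ∈ x then (1 : ℝ) else 0) else 0) =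
        c * (k + 1) * (N - (k + 1)) * g m ^ 2 + c * (k + 1) * k * (g m * ((k + 1) * F)) := by
      intro m hm
      rw [← Finset.add_sum_erase S _ hm]
      have h4 : ∑ x ∈ S.powersetCard (k + 1),
          (if m ∈ x then (if m ∈ x then (1 : ℝ) else 0) else 0) =
          ∑ x ∈ S.powersetCard (k + 1), (if m ∈ x then (1 : ℝ) else 0) := by
        apply Finset.sum_congr rfl
        intro x _
        split_ifs <;> rfl
      rw [h4]
      have h5 := card_mem1 S k hm
      have h6 : N * (N - 1) * ∑ m' ∈ S.erase m, g m * g m' *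
          ∑ x ∈ S.powersetCard (k + 1), (if m ∈ x then (if m' ∈ x then (1 : ℝ) else 0) else 0) =
          c * (k + 1) * k * (g m * ((k + 1) * F - g m)) := by
        rw [← e1, ← Finset.add_sum_erase S _ hm, add_sub_cancel_left, Finset.mul_sum,
          Finset.mul_sum, Finset.mul_sum]
        apply Finset.sum_congr rfl
        intro m' hm'
        rw [mem_erase] at hm'
        have h7 := card_mem2 S k hm hm'.2 hm'.1.symm
        linear_combination g m * g m' * h7
      linear_combination h6 + (N - 1) * g m ^ 2 * h5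
    rw [h1, Finset.mul_sum, Finset.sum_congr rfl h3, Finset.sum_add_distrib, ← Finset.mul_sum,
      ← Finset.mul_sum, ← Finset.sum_mul, e1]
    ring
  have e5 : 0 ≤ ∑ x ∈ S.powersetCard (k + 1),
      (c * (k + 1) * (N - (k + 1)) * f x - N * (N - 1) * h x + N * (k + 1) * k * F) ^ 2 :=
    Finset.sum_nonneg fun x _ => sq_nonneg _
  have e6 : ∑ x ∈ S.powersetCard (k + 1),
      (c * (k + 1) * (N - (k + 1)) * f x - N * (N - 1) * h x + N * (k + 1) * k * F) ^ 2 =
      (c * (k + 1) * (N - (k + 1))) ^ 2 * ∑ x ∈ S.powersetCard (k + 1), f x ^ 2 +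
      (N * (N - 1)) ^ 2 * ∑ x ∈ S.powersetCard (k + 1), h x ^ 2 +
      c * (N * (k + 1) * k * F) ^ 2 -
      2 * (c * (k + 1) * (N - (k + 1))) * (N * (N - 1)) *
        ∑ x ∈ S.powersetCard (k + 1), f x * h x +
      2 * (c * (k + 1) * (N - (k + 1))) * (N * (k + 1) * k * F) *
        ∑ x ∈ S.powersetCard (k + 1), f x -
      2 * (N * (N - 1)) * (N * (k + 1) * k * F) * ∑ x ∈ S.powersetCard (k + 1), h x := by
    have h1 : ∀ x, (c * (k + 1) * (N - (k + 1)) * f x - N * (N - 1) * h x +
        N * (k + 1) * k * F) ^ 2 = (c * (k + 1) * (N - (k + 1))) ^ 2 * f x ^ 2 +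
        (N * (N - 1)) ^ 2 * h x ^ 2 + (N * (k + 1) * k * F) ^ 2 -
        2 * (c * (k + 1) * (N - (k + 1))) * (N * (N - 1)) * (f x * h x) +
        2 * (c * (k + 1) * (N - (k + 1))) * (N * (k + 1) * k * F) * f x -
        2 * (N * (N - 1)) * (N * (k + 1) * k * F) * h x := by
      intro x
      ring
    simp only [h1, Finset.sum_add_distrib, Finset.sum_sub_distrib, ← Finset.mul_sum,
      Finset.sum_const, nsmul_eq_mul]
    rfl
  rw [e6, e2, ← hF] at e5
  have hpos : 0 < c * (k + 1) * (N - (k + 1)) := by
    have : 0 < N - (k + 1) := by linarith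
    positivity
  set Q := ∑ x ∈ S.powersetCard (k + 1), f x ^ 2 with hQ
  set G := ∑ m ∈ S, g m ^ 2 with hG
  have e7 : 0 ≤ c * (k + 1) * (N - (k + 1)) *
      (c * (k + 1) * (N - (k + 1)) * Q + (k + 1) * N * k * F ^ 2 - N * (N - 1) * G) := by
    have e8 : (c * (k + 1) * (N - (k + 1))) ^ 2 * Q +
      (N * (N - 1)) ^ 2 * ∑ x ∈ S.powersetCard (k + 1), h x ^ 2 +
      c * (N * (k + 1) * k * F) ^ 2 -
      2 * (c * (k + 1) * (N - (k + 1))) * (N * (N - 1)) * G +
      2 * (c * (k + 1) * (N - (k + 1))) * (N * (k + 1) * k * F) * F -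
      2 * (N * (N - 1)) * (N * (k + 1) * k * F) * ∑ x ∈ S.powersetCard (k + 1), h x =
      c * (k + 1) * (N - (k + 1)) *
      (c * (k + 1) * (N - (k + 1)) * Q + (k + 1) * N * k * F ^ 2 - N * (N - 1) * G) := by
      linear_combination (N * (N - 1)) * e4 - 2 * (N * (N - 1)) * ((k + 1) * k * F) * e3
    linarith
  have e9 := nonneg_of_mul_nonneg_right e7 hpos
  linarith

private theorem gap_aux (M : ℕ) : ∀ (S : Finset α), S.card = M → ∀ k ≤ M, ∀ f : Finset α → ℝ,
    2 * (M : ℝ) * (((S.powersetCard k).card : ℝ) * ∑ x ∈ S.powersetCard k, f x ^ 2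
        - (∑ x ∈ S.powersetCard k, f x) ^ 2)
      ≤ ((S.powersetCard k).card : ℝ) * En S k f := by
  induction M with
  | zero =>
    intro S hS k hk f
    have hk0 : k = 0 := by omega
    subst hk0
    rw [card_eq_zero] at hS
    subst hS
    simp [En]
  | succ M ih =>
    intro S hS k hk f
    rcases Nat.eq_zero_or_pos k with hk0 | hk0
    · subst hk0
      simp [En]
    rcases Nat.lt_or_ge k (M + 1) with hkM | hkM
    swap
    · have : k = S.card := by omega
      subst this
      rw [powersetCard_self]
      simp [En]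
    obtain ⟨j, rfl⟩ : ∃ j, k = j + 1 := ⟨k - 1, by omega⟩
    rcases Nat.lt_or_ge M 2 with hM | hM
    · have hM1 : M = 1 := by omega
      have hj : j = 0 := by omega
      subst hM1
      subst hj
      obtain ⟨p, q, hpq, rfl⟩ := card_eq_two.1 hS
      have h1 : ({p, q} : Finset α).powersetCard (0 + 1) = {{p}, {q}} := by
        rw [zero_add, powersetCard_one]
        ext x
        simp only [mem_map, mem_insert, mem_singleton, Function.Embedding.coeFn_mk]
        constructor
        · rintro ⟨a, h | h, rfl⟩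
          · exact Or.inl (by rw [h])
          · exact Or.inr (by rw [h])
        · rintro (h | h)
          · exact ⟨p, Or.inl rfl, h.symm⟩
          · exact ⟨q, Or.inr rfl, h.symm⟩
      have hne : ({p} : Finset α) ≠ {q} := fun h => hpq (singleton_inj.1 h)
      have hpS : ({p, q} : Finset α) \ {p} = {q} := by
        ext x
        simp only [mem_sdiff, mem_insert, mem_singleton]
        constructor
        · rintro ⟨h | h, h2⟩
          · exact absurd h h2
          · exact h
        · rintro rfl
          exact ⟨Or.inr rfl, fun h => hpq h.symm⟩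
      have hqS : ({p, q} : Finset α) \ {q} = {p} := by
        ext x
        simp only [mem_sdiff, mem_insert, mem_singleton]
        constructor
        · rintro ⟨h | h, h2⟩
          · exact h
          · exact absurd h h2
        · rintro rfl
          exact ⟨Or.inl rfl, hpq⟩
      unfold En
      rw [h1, sum_pair hne, sum_pair hne, sum_pair hne, card_pair hne, hpS, hqS]
      simp only [sum_singleton, erase_singleton, insert_empty_eq]
      push_cast
      nlinarith [sq_nonneg (f {p} - f {q})]
    · set c : ℝ := ((S.powersetCard (j + 1)).card : ℝ) with hc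
      set N : ℝ := ((M + 1 : ℕ) : ℝ) with hN
      have hcN : (S.card : ℝ) = N := by rw [hS]
      set g : α → ℝ := fun m => ∑ x ∈ S.powersetCard (j + 1), if m ∈ x then f x else 0 with hg
      set F : ℝ := ∑ x ∈ S.powersetCard (j + 1), f x with hF
      set Q : ℝ := ∑ x ∈ S.powersetCard (j + 1), f x ^ 2 with hQ
      obtain ⟨e1, e2⟩ := star_bound S j (by omega) f g (fun _ => rfl) F rfl
      rw [hcN, ← hc, ← hQ] at e2
      have hj0 : (0 : ℝ) ≤ j := Nat.cast_nonneg j
      have hNj : 0 < N - (j + 1) := by
        have : (j : ℝ) + 1 < M + 1 := by exact_mod_cast hkM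
        rw [hN]
        push_cast
        linarith
      have hN2 : 0 < N - 2 := by
        have : (2 : ℝ) ≤ M := by exact_mod_cast hM
        rw [hN]
        push_cast
        linarith
      have hM' : (M : ℝ) = N - 1 := by
        rw [hN]
        push_cast
        ring
      have hc0 : 0 < c := by
        rw [hc, card_powersetCard]
        exact_mod_cast Nat.choose_pos (by omega)
      -- one slice
      have hslice : ∀ m ∈ S, 2 * (N - 1) * ((j + 1) * (N - (j + 1)) * c * Q
          - (j + 1) * N * (F - g m) ^ 2 - (N - (j + 1)) * N * g m ^ 2) ≤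
          (j + 1) * (N - (j + 1)) * c * (En (S.erase m) (j + 1) f +
            En (S.erase m) j (fun x => f (insert m x))) := by
        intro m hm
        have hcard : (S.erase m).card = M := by
          rw [card_erase_of_mem hm, hS, Nat.add_sub_cancel]
        have i0 := ih (S.erase m) hcard (j + 1) (by omega) f
        have i1 := ih (S.erase m) hcard j (by omega) (fun x => f (insert m x))
        set c0 : ℝ := (((S.erase m).powersetCard (j + 1)).card : ℝ) with hc0'
        set c1 : ℝ := (((S.erase m).powersetCard j).card : ℝ) with hc1'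
        have r1 : N * c1 = (j + 1) * c := by
          have h := card_mem1 S j hm
          rw [← sumB hm j (fun _ => (1 : ℝ)), Finset.sum_const, nsmul_eq_mul, mul_one, hcN] at h
          exact h
        have r01 : c0 + c1 = c := by
          have h := card_powersetCard (j + 1) (S.erase m)
          rw [hc0', hc1', hc, card_powersetCard, card_powersetCard, card_powersetCard, hcard, hS]
          rw [Nat.choose_succ_succ]
          push_cast
          ring
        have r0 : N * c0 = (N - (j + 1)) * c := by
          linear_combination N * r01 - r1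
        have hc00 : 0 < c0 := by
          rw [hc0', card_powersetCard, hcard]
          exact_mod_cast Nat.choose_pos (by omega)
        have hc10 : 0 < c1 := by
          rw [hc1', card_powersetCard, hcard]
          exact_mod_cast Nat.choose_pos (by omega)
        have s0 : ∑ x ∈ (S.erase m).powersetCard (j + 1), f x = F - g m := by
          rw [sumA, hF, hg, eq_sub_iff_add_eq, ← Finset.sum_add_distrib]
          apply Finset.sum_congr rfl
          intro x _
          by_cases hx : m ∈ x <;> simp [hx]
        have s1 : ∑ x ∈ (S.erase m).powersetCard j, f (insert m x) = g m := by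
          rw [sumB hm j f]
        have q0 : ∑ x ∈ (S.erase m).powersetCard (j + 1), f x ^ 2 +
            ∑ x ∈ (S.erase m).powersetCard j, f (insert m x) ^ 2 = Q := by
          rw [sumA, sumB hm j (fun x => f x ^ 2), hQ, ← Finset.sum_add_distrib]
          apply Finset.sum_congr rfl
          intro x _
          by_cases hx : m ∈ x <;> simp [hx]
        rw [s0, hM'] at i0
        rw [s1, hM'] at i1
        set q0' := ∑ x ∈ (S.erase m).powersetCard (j + 1), f x ^ 2 with hq0'
        set q1' := ∑ x ∈ (S.erase m).powersetCard j, f (insert m x) ^ 2 with hq1'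
        set E0 := En (S.erase m) (j + 1) f with hE0
        set E1 := En (S.erase m) j (fun x => f (insert m x)) with hE1
        -- multiply `i0` by `(j + 1) N` and `i1` by `(N - (j + 1)) N`
        have k0 : 2 * (N - 1) * ((N - (j + 1)) * c * q0' - N * (F - g m) ^ 2) ≤
            (N - (j + 1)) * c * E0 := by
          have hNpos : 0 < N := by linarith
          have h := mul_le_mul_of_nonneg_left i0 hNpos.le
          calc 2 * (N - 1) * ((N - (j + 1)) * c * q0' - N * (F - g m) ^ 2)
              = N * (2 * (N - 1) * (c0 * q0' - (F - g m) ^ 2)) := by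
                rw [← r0]
                ring
            _ ≤ N * (c0 * E0) := h
            _ = (N - (j + 1)) * c * E0 := by
                rw [← r0]
                ring
        have k1 : 2 * (N - 1) * ((j + 1) * c * q1' - N * g m ^ 2) ≤ (j + 1) * c * E1 := by
          have hNpos : 0 < N := by linarith
          have h := mul_le_mul_of_nonneg_left i1 hNpos.le
          calc 2 * (N - 1) * ((j + 1) * c * q1' - N * g m ^ 2)
              = N * (2 * (N - 1) * (c1 * q1' - g m ^ 2)) := by
                rw [← r1]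
                ring
            _ ≤ N * (c1 * E1) := h
            _ = (j + 1) * c * E1 := by
                rw [← r1]
                ring
        have hj1 : (0 : ℝ) ≤ j + 1 := by linarith
        have l0 := mul_le_mul_of_nonneg_left k0 hj1
        have l1 := mul_le_mul_of_nonneg_left k1 hNj.le
        rw [← q0]
        linarith
      have hsum := Finset.sum_le_sum hslice
      rw [← Finset.mul_sum, ← Finset.mul_sum, energy_step, hcN] at hsum
      have t1 : ∑ m ∈ S, ((j + 1) * (N - (j + 1)) * c * Q
          - (j + 1) * N * (F - g m) ^ 2 - (N - (j + 1)) * N * g m ^ 2) =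
          N * ((j + 1) * (N - (j + 1)) * c * Q - N * ∑ m ∈ S, g m ^ 2 -
            (j + 1) * (N - 2 * (j + 1)) * F ^ 2) := by
        have h1 : ∀ m, ((j + 1) * (N - (j + 1)) * c * Q
          - (j + 1) * N * (F - g m) ^ 2 - (N - (j + 1)) * N * g m ^ 2) =
          (((j + 1) * (N - (j + 1)) * c * Q - (j + 1) * N * F ^ 2) +
            (2 * (j + 1) * N * F) * g m) - (N * N) * g m ^ 2 := by
          intro m
          ring
        simp only [h1]
        rw [Finset.sum_sub_distrib, Finset.sum_add_distrib, ← Finset.mul_sum, ← Finset.mul_sum,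
          Finset.sum_const, nsmul_eq_mul, hcN, e1]
        ring
      rw [t1] at hsum
      set G := ∑ m ∈ S, g m ^ 2 with hG
      set E := En S (j + 1) f with hE
      have hpos : 0 < (j + 1) * (N - (j + 1)) * (N - 2) := by positivity
      have hNpos : 0 < N := by linarith
      have fin : 2 * N * ((j + 1) * (N - (j + 1)) * (N - 2)) * (c * Q - F ^ 2) ≤
          (j + 1) * (N - (j + 1)) * (N - 2) * (c * E) := by
        have h1 := mul_le_mul_of_nonneg_left e2 (by positivity : (0 : ℝ) ≤ 2 * N)
        linarith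
      have h2 : (j + 1) * (N - (j + 1)) * (N - 2) * (2 * N * (c * Q - F ^ 2)) ≤
          (j + 1) * (N - (j + 1)) * (N - 2) * (c * E) := by linarith
      exact le_of_mul_le_mul_left h2 hpos

end aux

theorem johnson_gap {α : Type} [DecidableEq α] (S : Finset α) (k : ℕ) (hk : 1 ≤ k) (hk2 : k + 1 ≤ S.card)
    (f : Finset α → ℝ) :
    2 * (S.card : ℝ) * (((S.powersetCard k).card : ℝ) * ∑ x ∈ S.powersetCard k, f x ^ 2
        - (∑ x ∈ S.powersetCard k, f x) ^ 2)
      ≤ ((S.powersetCard k).card : ℝ) *
        ∑ x ∈ S.powersetCard k, ∑ a ∈ x, ∑ b ∈ S \ x, (f x - f (insert b (x.erase a))) ^ 2 :=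
  gap_aux S.card S rfl k (by omega) f

end Pool.SCDH
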