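import Pool.Agent.Lib.SCDH.LvDefs
import Pool.Agent.Lib.SCDH.G01
import Pool.Agent.Lib.SCDH.C3

/-!
# Row C4 (paper scd_h36.md)
Cuts of the two levels: pairs at distance 2.
Recipe: C3 with f = indicator of A: left side 2 n (|X||A| - |A|²) = 2n|A||Aᶜ|; right side = |X| * 2 * #{(x,x') : x ∈ A, x' ∉ A, x' = x - a + b}; such a pair has the unique common upper neighbour x ∪ x' and the unique common lower neighbour x ∩ x', so the number of pairs is ∑_y e(A,y) e(Aᶜ,y), resp. ∑_x e(x,N) e(x,Nᶜ).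
-/

set_option linter.unusedSectionVars false
set_option linter.unusedVariables false

namespace Pool.SCDH

open Finset Pool.MP_0ccee8_co.Lib2

/-- the indicator -/
private def c4i {α : Type} [DecidableEq α] (S : Finset α) (x : α) : ℝ := if x ∈ S then 1 else 0

private lemma c4i_sq {α : Type} [DecidableEq α] (S : Finset α) (x : α) : c4i S x ^ 2 = c4i S x := by
  unfold c4i
  split_ifs <;> norm_num

private lemma c4i_sum {α : Type} [DecidableEq α] (S P : Finset α) :
    ∑ x ∈ P, c4i S x = ((P.filter (fun x => x ∈ S)).card : ℝ) := by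
  unfold c4i
  rw [Finset.sum_boole]

private lemma c4_pairs {α : Type} [DecidableEq α] (S P : Finset α) :
    ∑ x ∈ P, ∑ x' ∈ P, (c4i S x - c4i S x') ^ 2 =
      2 * (((P.filter (fun x => x ∈ S)).card : ℝ) * ((P.filter (fun x => x ∉ S)).card : ℝ)) := by
  have h1 : ∀ x ∈ P, ∑ x' ∈ P, (c4i S x - c4i S x') ^ 2 =
      (P.card : ℝ) * c4i S x + ((P.filter (fun x => x ∈ S)).card : ℝ)
        - 2 * ((P.filter (fun x => x ∈ S)).card : ℝ) * c4i S x := by
    intro x _
    have h2 : ∀ x' ∈ P, (c4i S x - c4i S x') ^ 2 = c4i S x + c4i S x' - 2 * c4i S x * c4i S x' := by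
      intro x' _
      have e1 := c4i_sq S x
      have e2 := c4i_sq S x'
      linear_combination e1 + e2
    rw [Finset.sum_congr rfl h2, Finset.sum_sub_distrib, Finset.sum_add_distrib, Finset.sum_const,
      ← Finset.mul_sum, c4i_sum, nsmul_eq_mul]
    ring
  rw [Finset.sum_congr rfl h1, Finset.sum_sub_distrib, Finset.sum_add_distrib, Finset.sum_const,
    ← Finset.mul_sum, ← Finset.mul_sum, c4i_sum, nsmul_eq_mul]
  have h3 : (P.card : ℝ) = ((P.filter (fun x => x ∈ S)).card : ℝ) +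
      ((P.filter (fun x => x ∉ S)).card : ℝ) := by
    rw [← Nat.cast_add, Finset.card_filter_add_card_filter_not]
  rw [h3]
  ring

/-- the underlying sets -/
private def c4m {n k : ℕ} (A : Finset (Lv n k)) : Finset (Finset (Fin n)) :=
  A.map (Function.Embedding.subtype _)

private lemma c4_mem {n k : ℕ} {A : Finset (Lv n k)} {x : Finset (Fin n)} :
    x ∈ c4m A ↔ ∃ h : x.card = k, (⟨x, h⟩ : Lv n k) ∈ A := by
  unfold c4m
  rw [Finset.mem_map]
  constructor
  · rintro ⟨a, ha, rfl⟩
    exact ⟨a.2, ha⟩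
  · rintro ⟨h, hx⟩
    exact ⟨⟨x, h⟩, hx, rfl⟩

private lemma c4_card {n k : ℕ} (A : Finset (Lv n k)) : (c4m A).card = A.card := Finset.card_map _

private lemma c4_eBX {n k : ℕ} (A : Finset (Lv n k)) (y : Lv n (k + 1)) :
    eB (GLv n k) A {y} = ((powersetCard k y.1).filter (fun x => x ∈ c4m A)).card := by
  unfold eB GLv
  rw [Finset.filter_filter]
  refine Finset.card_bij (fun e _ => e.1.1) ?_ ?_ ?_
  · rintro ⟨x, y'⟩ he
    rw [mem_filter] at he
    obtain ⟨-, h1, h2, h3⟩ := he
    rw [mem_singleton] at h3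
    simp only at h1 h2 h3
    subst h3
    rw [mem_filter, mem_powersetCard, c4_mem]
    exact ⟨⟨h1, x.2⟩, x.2, h2⟩
  · rintro ⟨x, y'⟩ he ⟨x2, y2⟩ he2 h
    rw [mem_filter] at he he2
    obtain ⟨-, -, -, h3⟩ := he
    obtain ⟨-, -, -, k3⟩ := he2
    rw [mem_singleton] at h3 k3
    simp only at h3 k3
    subst h3 k3
    have : x = x2 := Subtype.ext h
    rw [this]
  · intro x hx
    rw [mem_filter, mem_powersetCard, c4_mem] at hx
    obtain ⟨⟨h1, h2⟩, h3, h4⟩ := hx
    refine ⟨(⟨x, h2⟩, y), ?_, rfl⟩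
    rw [mem_filter]
    exact ⟨mem_univ _, h1, h4, mem_singleton_self _⟩

private lemma c4_eBX' {n k : ℕ} (A : Finset (Lv n k)) (y : Lv n (k + 1)) :
    eB (GLv n k) Aᶜ {y} = ((powersetCard k y.1).filter (fun x => x ∉ c4m A)).card := by
  rw [c4_eBX]
  congr 1
  apply Finset.filter_congr
  intro x hx
  rw [mem_powersetCard] at hx
  rw [c4_mem, c4_mem]
  constructor
  · rintro ⟨h, h1⟩ ⟨_, h2⟩
    exact (mem_compl.1 h1) h2
  · intro h
    exact ⟨hx.2, mem_compl.2 fun h1 => h ⟨hx.2, h1⟩⟩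

/-- the sets above `x` -/
private def c4up {n : ℕ} (k : ℕ) (x : Finset (Fin n)) : Finset (Finset (Fin n)) :=
  (powersetCard (k + 1) (univ : Finset (Fin n))).filter (fun y => x ⊆ y)

private lemma c4_eBY {n k : ℕ} (N : Finset (Lv n (k + 1))) (x : Lv n k) :
    eB (GLv n k) {x} N = ((c4up k x.1).filter (fun y => y ∈ c4m N)).card := by
  unfold eB GLv c4up
  rw [Finset.filter_filter]
  refine Finset.card_bij (fun e _ => e.2.1) ?_ ?_ ?_
  · rintro ⟨x', y⟩ he
    rw [mem_filter] at he
    obtain ⟨-, h1, h2, h3⟩ := he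
    rw [mem_singleton] at h2
    simp only at h1 h2 h3
    subst h2
    rw [mem_filter, mem_filter, mem_powersetCard, c4_mem]
    exact ⟨⟨⟨subset_univ _, y.2⟩, h1⟩, y.2, h3⟩
  · rintro ⟨x', y⟩ he ⟨x2, y2⟩ he2 h
    rw [mem_filter] at he he2
    obtain ⟨-, -, h3, -⟩ := he
    obtain ⟨-, -, k3, -⟩ := he2
    rw [mem_singleton] at h3 k3
    simp only at h3 k3
    subst h3 k3
    have : y = y2 := Subtype.ext h
    rw [this]
  · intro y hy
    rw [mem_filter, mem_filter, mem_powersetCard, c4_mem] at hy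
    obtain ⟨⟨⟨-, h2⟩, h1⟩, h3, h4⟩ := hy
    refine ⟨(x, ⟨y, h2⟩), ?_, rfl⟩
    rw [mem_filter]
    exact ⟨mem_univ _, h1, mem_singleton_self _, h4⟩

private lemma c4_eBY' {n k : ℕ} (N : Finset (Lv n (k + 1))) (x : Lv n k) :
    eB (GLv n k) {x} Nᶜ = ((c4up k x.1).filter (fun y => y ∉ c4m N)).card := by
  rw [c4_eBY]
  congr 1
  apply Finset.filter_congr
  intro y hy
  unfold c4up at hy
  rw [mem_filter, mem_powersetCard] at hy
  rw [c4_mem, c4_mem]
  constructor
  · rintro ⟨h, h1⟩ ⟨_, h2⟩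
    exact (mem_compl.1 h1) h2
  · intro h
    exact ⟨hy.1.2, mem_compl.2 fun h1 => h ⟨hy.1.2, h1⟩⟩

private lemma c4_cardLv (n k : ℕ) :
    Fintype.card (Lv n k) = (powersetCard k (univ : Finset (Fin n))).card := by
  rw [Fintype.card_subtype]
  congr 1
  ext x
  rw [mem_filter, mem_powersetCard_univ]
  exact ⟨fun h => h.2, fun h => ⟨mem_univ _, h⟩⟩

private lemma c4_sumLv (n k : ℕ) (g : Finset (Fin n) → ℝ) :
    ∑ x ∈ powersetCard k (univ : Finset (Fin n)), g x = ∑ x : Lv n k, g x.1 :=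
  Finset.sum_subtype _ (fun x => by rw [mem_powersetCard_univ]) g

/-- left side of C3 for an indicator -/
private lemma c4_left {n k : ℕ} (A : Finset (Lv n k)) :
    ((powersetCard k (univ : Finset (Fin n))).card : ℝ) *
        ∑ x ∈ powersetCard k (univ : Finset (Fin n)), c4i (c4m A) x ^ 2
        - (∑ x ∈ powersetCard k (univ : Finset (Fin n)), c4i (c4m A) x) ^ 2 =
      (A.card : ℝ) * (Aᶜ.card : ℝ) := by
  have h1 : ∑ x ∈ powersetCard k (univ : Finset (Fin n)), c4i (c4m A) x = (A.card : ℝ) := by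
    rw [c4i_sum]
    congr 1
    rw [← c4_card A]
    congr 1
    ext x
    rw [mem_filter, mem_powersetCard_univ, c4_mem]
    exact ⟨fun h => h.2, fun h => ⟨h.1, h⟩⟩
  have h2 : ∑ x ∈ powersetCard k (univ : Finset (Fin n)), c4i (c4m A) x ^ 2 = (A.card : ℝ) := by
    rw [Finset.sum_congr rfl fun x _ => c4i_sq _ x]
    exact h1
  rw [h1, h2, ← c4_cardLv, ← Finset.card_add_card_compl A]
  push_cast
  ring

theorem pairsX (n k : ℕ) (hk : 1 ≤ k) (hk2 : k + 1 ≤ n) (A : Finset (Lv n k)) :
    n * (A.card * Aᶜ.card) ≤ Fintype.card (Lv n k) * ∑ y, eB (GLv n k) A {y} * eB (GLv n k) Aᶜ {y} := by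
  classical
  have h := johnson_gap (univ : Finset (Fin n)) k hk (by rw [card_univ, Fintype.card_fin]; exact hk2)
    (c4i (c4m A))
  rw [c4_left, card_univ, Fintype.card_fin] at h
  -- the energy
  have hE : ∑ x ∈ powersetCard k (univ : Finset (Fin n)), ∑ a ∈ x, ∑ b ∈ univ \ x,
      (c4i (c4m A) x - c4i (c4m A) (insert b (x.erase a))) ^ 2 ≤
      ∑ y ∈ powersetCard (k + 1) (univ : Finset (Fin n)), ∑ x ∈ powersetCard k y,
        ∑ x' ∈ powersetCard k y, (c4i (c4m A) x - c4i (c4m A) x') ^ 2 := by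
    have h1 : ∀ x ∈ powersetCard k (univ : Finset (Fin n)), ∑ a ∈ x, ∑ b ∈ univ \ x,
        (c4i (c4m A) x - c4i (c4m A) (insert b (x.erase a))) ^ 2 ≤
        ∑ y ∈ c4up k x, ∑ x' ∈ powersetCard k y, (c4i (c4m A) x - c4i (c4m A) x') ^ 2 := by
      intro x hx
      rw [mem_powersetCard_univ] at hx
      rw [Finset.sum_comm]
      -- step 1
      have h2 : ∀ b ∈ univ \ x, ∑ a ∈ x, (c4i (c4m A) x - c4i (c4m A) (insert b (x.erase a))) ^ 2 ≤
          ∑ x' ∈ powersetCard k (insert b x), (c4i (c4m A) x - c4i (c4m A) x') ^ 2 := by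
        intro b hb
        have hbx : b ∉ x := (mem_sdiff.1 hb).2
        have hinj : Set.InjOn (fun a => insert b (x.erase a)) (x : Set (Fin n)) := by
          intro a ha a' ha' haa
          by_contra hne
          have h3 : a ∈ insert b (x.erase a') :=
            mem_insert_of_mem (mem_erase.2 ⟨hne, ha⟩)
          simp only at haa
          rw [← haa, mem_insert] at h3
          rcases h3 with h3 | h3
          · exact hbx (h3 ▸ ha)
          · exact (mem_erase.1 h3).1 rfl
        rw [← Finset.sum_image (f := fun x' => (c4i (c4m A) x - c4i (c4m A) x') ^ 2) hinj]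
        refine Finset.sum_le_sum_of_subset_of_nonneg ?_ (fun _ _ _ => sq_nonneg _)
        intro x' hx'
        rw [mem_image] at hx'
        obtain ⟨a, ha, rfl⟩ := hx'
        rw [mem_powersetCard]
        refine ⟨insert_subset_insert b (erase_subset a x), ?_⟩
        rw [card_insert_of_notMem (fun h => hbx (mem_of_mem_erase h)), card_erase_of_mem ha, hx]
        omega
      refine (Finset.sum_le_sum h2).trans ?_
      -- step 2
      have hinj : Set.InjOn (fun b => insert b x) ((univ \ x : Finset (Fin n)) : Set (Fin n)) := by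
        intro b hb b' hb' hbb
        have hbx : b ∉ x := (mem_sdiff.1 hb).2
        have h3 : b ∈ insert b' x := by
          simp only at hbb
          rw [← hbb]
          exact mem_insert_self _ _
        rw [mem_insert] at h3
        exact h3.resolve_right hbx
      rw [← Finset.sum_image
        (f := fun y => ∑ x' ∈ powersetCard k y, (c4i (c4m A) x - c4i (c4m A) x') ^ 2) hinj]
      refine Finset.sum_le_sum_of_subset_of_nonneg ?_
        (fun _ _ _ => Finset.sum_nonneg fun _ _ => sq_nonneg _)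
      intro y hy
      rw [mem_image] at hy
      obtain ⟨b, hb, rfl⟩ := hy
      unfold c4up
      rw [mem_filter, mem_powersetCard_univ, card_insert_of_notMem (mem_sdiff.1 hb).2, hx]
      exact ⟨rfl, subset_insert b x⟩
    refine (Finset.sum_le_sum h1).trans (le_of_eq ?_)
    refine Finset.sum_comm' ?_
    intro x y
    unfold c4up
    rw [mem_filter, mem_powersetCard_univ, mem_powersetCard_univ, mem_powersetCard]
    tauto
  -- evaluation
  have hV : ∑ y ∈ powersetCard (k + 1) (univ : Finset (Fin n)), ∑ x ∈ powersetCard k y,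
        ∑ x' ∈ powersetCard k y, (c4i (c4m A) x - c4i (c4m A) x') ^ 2 =
      2 * ((∑ y, eB (GLv n k) A {y} * eB (GLv n k) Aᶜ {y} : ℕ) : ℝ) := by
    rw [c4_sumLv, Nat.cast_sum, Finset.mul_sum]
    refine Finset.sum_congr rfl fun y _ => ?_
    rw [c4_pairs, c4_eBX, c4_eBX']
    push_cast
    ring
  rw [hV] at hE
  have hX : (0 : ℝ) ≤ ((powersetCard k (univ : Finset (Fin n))).card : ℝ) := Nat.cast_nonneg _
  have h2 := h.trans (mul_le_mul_of_nonneg_left hE hX)
  rw [← c4_cardLv] at h2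
  have h3 : ((n * (A.card * Aᶜ.card) : ℕ) : ℝ) ≤
      ((Fintype.card (Lv n k) * ∑ y, eB (GLv n k) A {y} * eB (GLv n k) Aᶜ {y} : ℕ) : ℝ) := by
    rw [Nat.cast_mul n, Nat.cast_mul A.card, Nat.cast_mul (Fintype.card (Lv n k))]
    linarith
  exact_mod_cast h3

theorem pairsY (n k : ℕ) (hk2 : k + 2 ≤ n) (N : Finset (Lv n (k + 1))) :
    n * (N.card * Nᶜ.card) ≤ Fintype.card (Lv n (k + 1)) * ∑ x, eB (GLv n k) {x} N * eB (GLv n k) {x} Nᶜ := by
  classical
  have h := johnson_gap (univ : Finset (Fin n)) (k + 1) (by omega)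
    (by rw [card_univ, Fintype.card_fin]; exact hk2) (c4i (c4m N))
  rw [c4_left, card_univ, Fintype.card_fin] at h
  have hE : ∑ y ∈ powersetCard (k + 1) (univ : Finset (Fin n)), ∑ a ∈ y, ∑ b ∈ univ \ y,
      (c4i (c4m N) y - c4i (c4m N) (insert b (y.erase a))) ^ 2 ≤
      ∑ x ∈ powersetCard k (univ : Finset (Fin n)), ∑ y ∈ c4up k x,
        ∑ y' ∈ c4up k x, (c4i (c4m N) y - c4i (c4m N) y') ^ 2 := by
    have h1 : ∀ y ∈ powersetCard (k + 1) (univ : Finset (Fin n)), ∑ a ∈ y, ∑ b ∈ univ \ y,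
        (c4i (c4m N) y - c4i (c4m N) (insert b (y.erase a))) ^ 2 ≤
        ∑ x ∈ powersetCard k y, ∑ y' ∈ c4up k x, (c4i (c4m N) y - c4i (c4m N) y') ^ 2 := by
      intro y hy
      rw [mem_powersetCard_univ] at hy
      -- step 1
      have h2 : ∀ a ∈ y, ∑ b ∈ univ \ y, (c4i (c4m N) y - c4i (c4m N) (insert b (y.erase a))) ^ 2 ≤
          ∑ y' ∈ c4up k (y.erase a), (c4i (c4m N) y - c4i (c4m N) y') ^ 2 := by
        intro a ha
        have hinj : Set.InjOn (fun b => insert b (y.erase a))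
            ((univ \ y : Finset (Fin n)) : Set (Fin n)) := by
          intro b hb b' hb' hbb
          have hby : b ∉ y := (mem_sdiff.1 hb).2
          have h3 : b ∈ insert b' (y.erase a) := by
            simp only at hbb
            rw [← hbb]
            exact mem_insert_self _ _
          rw [mem_insert] at h3
          exact h3.resolve_right fun h => hby (mem_of_mem_erase h)
        rw [← Finset.sum_image (f := fun y' => (c4i (c4m N) y - c4i (c4m N) y') ^ 2) hinj]
        refine Finset.sum_le_sum_of_subset_of_nonneg ?_ (fun _ _ _ => sq_nonneg _)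
        intro y' hy'
        rw [mem_image] at hy'
        obtain ⟨b, hb, rfl⟩ := hy'
        have hby : b ∉ y := (mem_sdiff.1 hb).2
        unfold c4up
        rw [mem_filter, mem_powersetCard_univ,
          card_insert_of_notMem (fun h => hby (mem_of_mem_erase h)), card_erase_of_mem ha, hy]
        exact ⟨by omega, subset_insert _ _⟩
      refine (Finset.sum_le_sum h2).trans ?_
      -- step 2
      have hinj : Set.InjOn (fun a => y.erase a) (y : Set (Fin n)) := by
        intro a ha a' ha' haa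
        by_contra hne
        have h3 : a ∈ y.erase a' := mem_erase.2 ⟨hne, ha⟩
        simp only at haa
        rw [← haa] at h3
        exact (mem_erase.1 h3).1 rfl
      rw [← Finset.sum_image
        (f := fun x => ∑ y' ∈ c4up k x, (c4i (c4m N) y - c4i (c4m N) y') ^ 2) hinj]
      refine Finset.sum_le_sum_of_subset_of_nonneg ?_
        (fun _ _ _ => Finset.sum_nonneg fun _ _ => sq_nonneg _)
      intro x hx
      rw [mem_image] at hx
      obtain ⟨a, ha, rfl⟩ := hx
      rw [mem_powersetCard, card_erase_of_mem ha, hy]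
      exact ⟨erase_subset a y, by omega⟩
    refine (Finset.sum_le_sum h1).trans (le_of_eq ?_)
    refine Finset.sum_comm' ?_
    intro y x
    unfold c4up
    rw [mem_filter, mem_powersetCard_univ, mem_powersetCard_univ, mem_powersetCard]
    tauto
  have hV : ∑ x ∈ powersetCard k (univ : Finset (Fin n)), ∑ y ∈ c4up k x,
        ∑ y' ∈ c4up k x, (c4i (c4m N) y - c4i (c4m N) y') ^ 2 =
      2 * ((∑ x, eB (GLv n k) {x} N * eB (GLv n k) {x} Nᶜ : ℕ) : ℝ) := by
    rw [c4_sumLv, Nat.cast_sum, Finset.mul_sum]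
    refine Finset.sum_congr rfl fun x _ => ?_
    rw [c4_pairs, c4_eBY, c4_eBY']
    push_cast
    ring
  rw [hV] at hE
  have hX : (0 : ℝ) ≤ ((powersetCard (k + 1) (univ : Finset (Fin n))).card : ℝ) := Nat.cast_nonneg _
  have h2 := h.trans (mul_le_mul_of_nonneg_left hE hX)
  rw [← c4_cardLv] at h2
  have h3 : ((n * (N.card * Nᶜ.card) : ℕ) : ℝ) ≤
      ((Fintype.card (Lv n (k + 1)) * ∑ x, eB (GLv n k) {x} N * eB (GLv n k) {x} Nᶜ : ℕ) : ℝ) := by
    rw [Nat.cast_mul n, Nat.cast_mul N.card, Nat.cast_mul (Fintype.card (Lv n (k + 1)))]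
    linarith
  exact_mod_cast h3

end Pool.SCDH
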