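import Pool.Agent.Lib.SCDH.LvDefs
import Pool.Agent.Lib.SCDH.G01
import Pool.Agent.Lib.SCDH.C1
import Pool.Agent.Lib.SCDH.C2
import Pool.Agent.Lib.SCDH.C4

/-!
# Row C5 (paper scd_h36.md)
The host of two consecutive levels.
Recipe: isoX: in pairsX |Aᶜ| ≥ |X|/2 and e(A,y) e(Aᶜ,y) ≤ κ min (their sum is κ); isoY the same with d ≤ n. bigX: C(n,k) ≥ C(n,200) ≥ (n/200)^200 ≥ n^100 (Nat.choose_le_choose / choose monotone up to the middle, Nat.pow_le_choose style bounds). cardV: disjoint levels of the 2^n subsets. Everything else from C1, C2.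
-/

set_option linter.unusedSectionVars false
set_option linter.unusedVariables false

namespace Pool.SCDH

open Finset Pool.MP_0ccee8_co.Lib2

private theorem c5_mul_le (a b s : ℕ) (h : a + b = s) : a * b ≤ s * min a b := by
  rcases le_total a b with hab | hab
  · rw [min_eq_left hab, mul_comm a b]
    exact Nat.mul_le_mul_right a (by omega)
  · rw [min_eq_right hab]
    exact Nat.mul_le_mul_right b (by omega)

private theorem c5_card (n k : ℕ) : Fintype.card (Lv n k) = n.choose k := by
  have h := Fintype.card_finset_len (α := Fin n) k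
  rw [Fintype.card_fin] at h
  exact h

private theorem c5_choose_mono (n : ℕ) (a b : ℕ) (hab : a ≤ b) (hb : 2 * b ≤ n) :
    n.choose a ≤ n.choose b := by
  induction b, hab using Nat.le_induction with
  | base => exact le_rfl
  | succ m hm ih =>
    refine (ih (by omega)).trans (Nat.choose_le_succ_of_lt_half_left ?_)
    omega

private theorem c5_fact : Nat.factorial 200 ≤ 100 ^ 200 := by decide +kernel

private theorem c5_sq (n : ℕ) (hn : 40000 ≤ n) : 10000 * n ≤ (n + 1 - 200) ^ 2 := by
  obtain ⟨m, rfl⟩ : ∃ m, n = m + 199 := ⟨n - 199, by omega⟩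
  have e : m + 199 + 1 - 200 = m := by omega
  rw [e]
  nlinarith

private theorem c5_big (n k : ℕ) (hk : 200 ≤ k) (hk2 : 2 * k + 1 ≤ n) (hn : 40000 ≤ n) :
    n ^ 100 ≤ n.choose k := by
  refine le_trans ?_ (c5_choose_mono n 200 k hk (by omega))
  have h1 : ((n + 1 - 200 : ℕ) : ℚ) ^ 200 ≤ ((Nat.factorial 200 : ℕ) : ℚ) * (n.choose 200 : ℕ) := by
    have := Nat.pow_le_choose (α := ℚ) 200 n
    rwa [div_le_iff₀ (by positivity), mul_comm] at this
  have h2 : (n + 1 - 200) ^ 200 ≤ Nat.factorial 200 * n.choose 200 := by exact_mod_cast h1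
  have h3 := c5_sq n hn
  have h4 : 100 ^ 200 * n ^ 100 ≤ (n + 1 - 200) ^ 200 := by
    calc 100 ^ 200 * n ^ 100 = (10000 * n) ^ 100 := by
          rw [mul_pow]; norm_num
      _ ≤ ((n + 1 - 200) ^ 2) ^ 100 := Nat.pow_le_pow_left h3 _
      _ = (n + 1 - 200) ^ 200 := by rw [← pow_mul]
  have h5 : 100 ^ 200 * n ^ 100 ≤ 100 ^ 200 * n.choose 200 :=
    h4.trans (h2.trans (Nat.mul_le_mul_right _ c5_fact))
  exact Nat.le_of_mul_le_mul_left h5 (by positivity)

private theorem c5_cardV (n k : ℕ) (hk2 : 2 * k + 1 ≤ n) :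
    n.choose k + n.choose (k + 1) ≤ 2 ^ n := by
  have h := Nat.sum_range_choose n
  have h2 : ∑ i ∈ ({k, k + 1} : Finset ℕ), n.choose i ≤ ∑ i ∈ range (n + 1), n.choose i := by
    refine Finset.sum_le_sum_of_subset ?_
    intro i hi
    rw [Finset.mem_insert, Finset.mem_singleton] at hi
    rw [Finset.mem_range]
    omega
  rw [Finset.sum_pair (by omega), h] at h2
  exact h2

private theorem c5_isoX (n k : ℕ) (hk : 1 ≤ k) (hk2 : 2 * k + 1 ≤ n) (A : Finset (Lv n k))
    (hA : 2 * A.card ≤ Fintype.card (Lv n k)) : n * A.card ≤ 2 * (k + 1) * mX (GLv n k) A := by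
  have h1 := pairsX n k hk (by omega) A
  have hpos : 0 < Fintype.card (Lv n k) := by
    rw [c5_card]; exact Nat.choose_pos (by omega)
  have h2 : ∑ y, eB (GLv n k) A {y} * eB (GLv n k) Aᶜ {y} ≤ (k + 1) * mX (GLv n k) A := by
    unfold mX
    rw [Finset.mul_sum]
    refine Finset.sum_le_sum fun y _ => c5_mul_le _ _ _ ?_
    have := eB_complX (GLv n k) A {y}
    rw [this]
    exact GLv_degY n k y
  have h3 : A.card + Aᶜ.card = Fintype.card (Lv n k) := Finset.card_add_card_compl A
  have h4 : Fintype.card (Lv n k) ≤ 2 * Aᶜ.card := by omega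
  have h5 : Fintype.card (Lv n k) * (n * A.card) ≤
      Fintype.card (Lv n k) * (2 * (k + 1) * mX (GLv n k) A) := by
    calc Fintype.card (Lv n k) * (n * A.card) ≤ 2 * Aᶜ.card * (n * A.card) :=
          Nat.mul_le_mul_right _ h4
      _ = 2 * (n * (A.card * Aᶜ.card)) := by ring
      _ ≤ 2 * (Fintype.card (Lv n k) * ((k + 1) * mX (GLv n k) A)) :=
          Nat.mul_le_mul_left _ (h1.trans (Nat.mul_le_mul_left _ h2))
      _ = Fintype.card (Lv n k) * (2 * (k + 1) * mX (GLv n k) A) := by ring
  exact Nat.le_of_mul_le_mul_left h5 hpos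

private theorem c5_isoY (n k : ℕ) (hk : 1 ≤ k) (hk2 : 2 * k + 1 ≤ n) (hn : 40000 ≤ n)
    (N : Finset (Lv n (k + 1)))
    (hN : 2 * N.card ≤ Fintype.card (Lv n (k + 1))) : N.card ≤ 2 * mY (GLv n k) N := by
  have h1 := pairsY n k (by omega) N
  have hpos : 0 < Fintype.card (Lv n (k + 1)) := by
    rw [c5_card]; exact Nat.choose_pos (by omega)
  have h2 : ∑ x, eB (GLv n k) {x} N * eB (GLv n k) {x} Nᶜ ≤ n * mY (GLv n k) N := by
    unfold mY
    rw [Finset.mul_sum]
    refine Finset.sum_le_sum fun x _ => ?_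
    have e := eB_complY (GLv n k) {x} N
    have e2 : eB (GLv n k) {x} univ = n - k := GLv_degX n k x
    refine (c5_mul_le _ _ (n - k) (by rw [e, e2])).trans ?_
    exact Nat.mul_le_mul_right _ (Nat.sub_le n k)
  have h3 : N.card + Nᶜ.card = Fintype.card (Lv n (k + 1)) := Finset.card_add_card_compl N
  have h4 : Fintype.card (Lv n (k + 1)) ≤ 2 * Nᶜ.card := by omega
  have h5 : (Fintype.card (Lv n (k + 1)) * n) * N.card ≤
      (Fintype.card (Lv n (k + 1)) * n) * (2 * mY (GLv n k) N) := by
    calc (Fintype.card (Lv n (k + 1)) * n) * N.card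
        = Fintype.card (Lv n (k + 1)) * (n * N.card) := by ring
      _ ≤ 2 * Nᶜ.card * (n * N.card) := Nat.mul_le_mul_right _ h4
      _ = 2 * (n * (N.card * Nᶜ.card)) := by ring
      _ ≤ 2 * (Fintype.card (Lv n (k + 1)) * (n * mY (GLv n k) N)) :=
          Nat.mul_le_mul_left _ (h1.trans (Nat.mul_le_mul_left _ h2))
      _ = (Fintype.card (Lv n (k + 1)) * n) * (2 * mY (GLv n k) N) := by ring
  exact Nat.le_of_mul_le_mul_left h5 (Nat.mul_pos hpos (by omega))

theorem levelHost_exists (n k : ℕ) (hk : 200 ≤ k) (hk2 : 2 * k + 1 ≤ n) (hn : 40000 ≤ n) :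
    ∃ H : Host (Lv n k) (Lv n (k + 1)) n (n - k) (k + 1), H.G = GLv n k := by
  refine ⟨{ G := GLv n k
            hd1 := by omega
            hd2 := by omega
            hκ := by omega
            hκd := by omega
            degX := GLv_degX n k
            degY := GLv_degY n k
            dist := hdist
            dist_self := hdist_self n k
            dist_step := hdist_step n k
            nearX := hdist_nearX n k
            nearY := hdist_nearY n k
            bigX := ?_
            cardV := ?_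
            isoX := fun A hA => c5_isoX n k (by omega) hk2 A hA
            isoY := fun N hN => c5_isoY n k (by omega) hk2 hn N hN }, rfl⟩
  · rw [c5_card]; exact c5_big n k hk hk2 hn
  · rw [c5_card, c5_card]; exact c5_cardV n k hk2

end Pool.SCDH
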