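import Pool.Agent.Lib.SCDH.MDefs
import Pool.Agent.Lib.SCDH.G01
import Pool.Agent.Lib.SCDH.G02
import Pool.Agent.Lib.SCDH.G03
import Pool.Agent.Lib.SCDH.G04
import Pool.Agent.Lib.SCDH.N01
import Pool.Agent.Lib.SCDH.K01
import Pool.Agent.Lib.SCDH.K02
import Pool.Agent.Lib.SCDH.D02
import Pool.Agent.Lib.SCDH.D04
import Pool.Agent.Lib.SCDH.D05
import Pool.Agent.Lib.SCDH.D06
import Pool.Agent.Lib.SCDH.D08

/-!
# Row D11 (paper scd_h36.md)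
Degree sums of the reserve (K1XF, K1YF).
Recipe: X: e_F(x,Sc) - qF = [e_F(x,Sc) - ρ₁ e_F(x,OYᶜ)] + ρ₁[(dgX F x - avX) - e_F(x,OY)]: eS_F, Res.smX (η t^-5 mX G A) with mXG_le, E3x. Y: e_F(xo,y) - qF = arF y - e_F(OX ∪ Rem, y) + (κ/d - ρ₁) avX(F): E3 for arF (M = η/t^5, Φ = 2ηκ/t^5), divide by η; E3o; E5Y; (κ/d-ρ₁) · 1.01 η d |N| ≤ 4 η t^-26 |N|. Everything ≤ 10^24 t^-5 β ≤ β/t^4.
-/

set_option linter.unusedSectionVars false
set_option linter.unusedVariables false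

namespace Pool.SCDH

open Finset Pool.MP_0ccee8_co.Lib2

variable {X Y : Type} [Fintype X] [DecidableEq X] [Fintype Y] [DecidableEq Y]
variable (D : Ctx X Y)

private lemma d11_sumX (Γ : Finset (X × Y)) (A : Finset X) (N : Finset Y) :
    (∑ x ∈ A, (eB Γ {x} N : ℝ)) = (eB Γ A N : ℝ) := by
  rw [eB_sumX Γ A N]
  push_cast
  rfl

private lemma d11_sumY (Γ : Finset (X × Y)) (A : Finset X) (N : Finset Y) :
    (∑ y ∈ N, (eB Γ A {y} : ℝ)) = (eB Γ A N : ℝ) := by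
  rw [eB_sumY Γ A N]
  push_cast
  rfl

private lemma d11_avX_le (hD : CtxOK D) : avX (fun x => (dgX D.F x : ℝ)) ≤ 101 / 100 * (eta D.t * D.d) ∧
    0 ≤ avX (fun x => (dgX D.F x : ℝ)) := by
  have hF := (ctx_F D hD).1
  have hX : (0 : ℝ) < Fintype.card X := by
    have h1 := (ctx_cards D hD).2.2.1
    have h2 := ctx_n D hD
    have h3 := (ctx_t D hD).1
    have h4 : (1 : ℝ) ≤ D.t := le_trans (by norm_num) h3
    have h5 : (1 : ℝ) ≤ (D.t : ℝ) ^ 200 := one_le_pow₀ h4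
    have h6 : (1 : ℝ) ≤ D.n := h5.trans h2.1
    have h7 : (1 : ℝ) ≤ (D.n : ℝ) ^ 100 := one_le_pow₀ h6
    linarith
  unfold avX
  constructor
  · rw [div_le_iff₀ hX]
    calc ∑ x, (dgX D.F x : ℝ) ≤ ∑ _x : X, (101 / 100 * (eta D.t * D.d)) :=
          Finset.sum_le_sum fun x _ => (hF x).2
      _ = 101 / 100 * (eta D.t * D.d) * Fintype.card X := by
          rw [Finset.sum_const, Finset.card_univ, nsmul_eq_mul, mul_comm]
  · exact div_nonneg (Finset.sum_nonneg fun x _ => Nat.cast_nonneg _) hX.le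

private lemma d11_arF (hD : CtxOK D) (y : Y) : |D.arF y| ≤ 2 * (eta D.t * D.κ / D.t ^ 5) := by
  have hY := hD.res.degY
  have hYpos : (0 : ℝ) < Fintype.card Y := by
    have h1 := (ctx_cards D hD).2.1
    have h0 := (ctx_cards D hD).2.2.1
    have h2 := ctx_n D hD
    have h3 := (ctx_t D hD).1
    have h4 : (1 : ℝ) ≤ D.t := le_trans (by norm_num) h3
    have h5 : (1 : ℝ) ≤ (D.t : ℝ) ^ 200 := one_le_pow₀ h4
    have h6 : (1 : ℝ) ≤ D.n := h5.trans h2.1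
    have h7 : (1 : ℝ) ≤ (D.n : ℝ) ^ 100 := one_le_pow₀ h6
    linarith
  unfold Ctx.arF avY
  have h1 : |(∑ y, (dgY D.F y : ℝ)) / (Fintype.card Y : ℝ) - eta D.t * D.κ| ≤
      eta D.t * D.κ / D.t ^ 5 := by
    have h2 : (∑ y, (dgY D.F y : ℝ)) / (Fintype.card Y : ℝ) - eta D.t * D.κ =
        (∑ y, ((dgY D.F y : ℝ) - eta D.t * D.κ)) / (Fintype.card Y : ℝ) := by
      rw [Finset.sum_sub_distrib, Finset.sum_const, Finset.card_univ, nsmul_eq_mul]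
      field_simp
    rw [h2, abs_div, abs_of_pos hYpos, div_le_iff₀ hYpos]
    calc |∑ y, ((dgY D.F y : ℝ) - eta D.t * D.κ)| ≤ ∑ y, |(dgY D.F y : ℝ) - eta D.t * D.κ| :=
          Finset.abs_sum_le_sum_abs _ _
      _ ≤ ∑ _y : Y, (eta D.t * D.κ / D.t ^ 5) := Finset.sum_le_sum fun y _ => hY y
      _ = eta D.t * D.κ / D.t ^ 5 * Fintype.card Y := by
          rw [Finset.sum_const, Finset.card_univ, nsmul_eq_mul, mul_comm]
  have h3 := hY y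
  rw [abs_le] at h1 h3 ⊢
  constructor <;> linarith [h1.1, h1.2, h3.1, h3.2]

theorem K1XF (hD : CtxOK D) (φ : D.Lbl) (hG : D.Good φ) (c : Fin D.B) (A : Finset X) (N : Finset Y) (hA : 2 * A.card ≤ Fintype.card X)
    (hN : N ⊆ D.Sc φ c) :
    |∑ x ∈ A, ((eB D.F {x} (D.Sc φ c) : ℝ) - D.qF)| ≤ (bd (D.FS φ c) A N : ℝ) / (D.t : ℝ) ^ 4 := by
  set β : ℝ := (bd (D.FS φ c) A N : ℝ) with hβ
  have hβ0 : 0 ≤ β := Nat.cast_nonneg _
  have ht := (ctx_t D hD).1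
  have htpos : (0 : ℝ) < D.t := lt_of_lt_of_le (by norm_num) ht
  obtain ⟨hdeg1, hdeg2, hdeg3, hdeg4⟩ := ctx_deg D hD
  have hκpos : (0 : ℝ) < D.κ := lt_of_lt_of_le (by positivity) hdeg1
  have hdpos : (0 : ℝ) < D.d := lt_of_lt_of_le hκpos hdeg2
  obtain ⟨hr1, hr2, hr3, hr4, hr5, hr6⟩ := ctx_rho D hD
  have hrle : D.rho1 ≤ (D.κ : ℝ) / D.d := hr2.trans hr3
  obtain ⟨-, -, hF3, hF4, hF5⟩ := ctx_F D hD
  -- the decomposition
  have hdec : ∑ x ∈ A, ((eB D.F {x} (D.Sc φ c) : ℝ) - D.qF) =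
      (∑ x ∈ A, ((eB D.F {x} (D.Sc φ c) : ℝ) - D.rho1 * (eB D.F {x} (D.O.OY c)ᶜ : ℝ))) +
      D.rho1 * (∑ x ∈ A, ((dgX D.F x : ℝ) - avX (fun x => (dgX D.F x : ℝ)))) -
      D.rho1 * (eB D.F A (D.O.OY c) : ℝ) := by
    rw [← d11_sumX D.F A (D.O.OY c), Finset.mul_sum, Finset.mul_sum, ← Finset.sum_add_distrib,
      ← Finset.sum_sub_distrib]
    refine Finset.sum_congr rfl fun x _ => ?_
    have h1 : (eB D.F {x} (D.O.OY c) : ℝ) + (eB D.F {x} (D.O.OY c)ᶜ : ℝ) = (dgX D.F x : ℝ) := by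
      have := eB_complY D.F {x} (D.O.OY c)
      unfold dgX
      exact_mod_cast this
    unfold Ctx.qF
    rw [← h1]
    ring
  have h1 := eS_F D hD φ hG c A N hA hN
  have h2 : |D.rho1 * (∑ x ∈ A, ((dgX D.F x : ℝ) - avX (fun x => (dgX D.F x : ℝ))))| ≤
      10 ^ 14 * β / (D.t : ℝ) ^ 5 := by
    have h3 := hD.res.smX A
    have h4 := mXG_le D hD φ hG c A N
    rw [abs_mul, abs_of_pos hr5]
    have h5 : (D.κ : ℝ) / D.d * (eta D.t * (mX D.H.G A : ℝ)) ≤ 10 ^ 14 * β := by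
      rw [div_mul_eq_mul_div, div_le_iff₀ hdpos]
      calc (D.κ : ℝ) * (eta D.t * (mX D.H.G A : ℝ)) = eta D.t * D.κ * mX D.H.G A := by ring
        _ ≤ 10 ^ 14 * (D.d * β) := h4
        _ = 10 ^ 14 * β * D.d := by ring
    calc D.rho1 * |∑ x ∈ A, ((dgX D.F x : ℝ) - avX (fun x => (dgX D.F x : ℝ)))| ≤
          (D.κ : ℝ) / D.d * (eta D.t / (D.t : ℝ) ^ 5 * mX D.H.G A) :=
          mul_le_mul hrle h3 (abs_nonneg _) (by positivity)
      _ = (D.κ : ℝ) / D.d * (eta D.t * (mX D.H.G A : ℝ)) / (D.t : ℝ) ^ 5 := by ring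
      _ ≤ 10 ^ 14 * β / (D.t : ℝ) ^ 5 := by gcongr
  have h3 : |D.rho1 * (eB D.F A (D.O.OY c) : ℝ)| ≤ 10 ^ 16 * β / (D.t : ℝ) ^ 5 := by
    have h4 := E3x D hD φ hG c A N hA
    have h5 : (eB D.F A (D.O.OY c) : ℝ) ≤ (eB D.H.G A (D.O.OY c) : ℝ) := by
      exact_mod_cast eB_mono D.F D.H.G hD.res.sub A A (Finset.Subset.refl _) _ _
        (Finset.Subset.refl _)
    rw [abs_mul, abs_of_pos hr5, abs_of_nonneg (Nat.cast_nonneg _)]
    calc D.rho1 * (eB D.F A (D.O.OY c) : ℝ) ≤ (D.κ : ℝ) / D.d * (eB D.H.G A (D.O.OY c) : ℝ) :=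
          mul_le_mul hrle h5 (Nat.cast_nonneg _) (by positivity)
      _ = ((D.κ : ℝ) * (eB D.H.G A (D.O.OY c) : ℝ)) / D.d := by ring
      _ ≤ (10 ^ 16 / (D.t : ℝ) ^ 5 * (D.d * β)) / D.d := by gcongr
      _ = 10 ^ 16 * β / (D.t : ℝ) ^ 5 := by field_simp
  rw [hdec]
  have h4 : ∀ a b e : ℝ, |a + b - e| ≤ |a| + |b| + |e| := by
    intro a b e
    calc |a + b - e| ≤ |a + b| + |e| := abs_sub _ _
      _ ≤ |a| + |b| + |e| := by linarith [abs_add_le a b]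
  refine (h4 _ _ _).trans ?_
  have h5 : β / (D.t : ℝ) ^ 5 + 10 ^ 14 * β / (D.t : ℝ) ^ 5 + 10 ^ 16 * β / (D.t : ℝ) ^ 5 ≤
      β / (D.t : ℝ) ^ 4 := by
    rw [← add_div, ← add_div, div_le_div_iff₀ (by positivity) (by positivity)]
    have h6 : (β + 10 ^ 14 * β + 10 ^ 16 * β) ≤ β * D.t := by nlinarith
    calc (β + 10 ^ 14 * β + 10 ^ 16 * β) * (D.t : ℝ) ^ 4 ≤ (β * D.t) * (D.t : ℝ) ^ 4 := by gcongr
      _ = β * (D.t : ℝ) ^ 5 := by ring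
  linarith

theorem K1YF (hD : CtxOK D) (φ : D.Lbl) (hG : D.Good φ) (c : Fin D.B) (A : Finset X) (N : Finset Y) (hA : 2 * A.card ≤ Fintype.card X)
    (hN : N ⊆ D.Sc φ c)
    (hNA : N.card ≤ 4 * A.card)
    (Rem : Finset X) (hRem : ∀ y, eB D.H.G Rem {y} ≤ D.vZ φ c y) :
    |∑ y ∈ N, ((eB D.F (D.xo c Rem) {y} : ℝ) - D.qF)| ≤ (bd (D.FS φ c) A N : ℝ) / (D.t : ℝ) ^ 4 := by
  classical
  set β : ℝ := (bd (D.FS φ c) A N : ℝ) with hβ
  have hβ0 : 0 ≤ β := Nat.cast_nonneg _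
  have ht := (ctx_t D hD).1
  have htpos : (0 : ℝ) < D.t := lt_of_lt_of_le (by norm_num) ht
  have ht1 : (1 : ℝ) ≤ D.t := le_trans (by norm_num) ht
  obtain ⟨hdeg1, hdeg2, hdeg3, hdeg4⟩ := ctx_deg D hD
  have hκpos : (0 : ℝ) < D.κ := lt_of_lt_of_le (by positivity) hdeg1
  have hdpos : (0 : ℝ) < D.d := lt_of_lt_of_le hκpos hdeg2
  have hnpos : (0 : ℝ) < D.n := lt_of_lt_of_le hdpos hdeg3
  obtain ⟨hr1, hr2, hr3, hr4, hr5, hr6⟩ := ctx_rho D hD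
  have hrle : D.rho1 ≤ (D.κ : ℝ) / D.d := hr2.trans hr3
  obtain ⟨-, -, hF3, hF4, hF5⟩ := ctx_F D hD
  obtain ⟨hav1, hav0⟩ := d11_avX_le D hD
  set R : Finset X := D.O.OX c ∪ Rem with hR
  have hxo : D.xo c Rem = Rᶜ := by
    unfold Ctx.xo
    ext x
    simp only [hR, mem_filter, mem_univ, true_and, mem_compl, mem_union, not_or]
  have hdec : ∑ y ∈ N, ((eB D.F (D.xo c Rem) {y} : ℝ) - D.qF) =
      ∑ y ∈ N, D.arF y - (eB D.F R N : ℝ) +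
        (N.card : ℝ) * (((D.κ : ℝ) / D.d - D.rho1) * avX (fun x => (dgX D.F x : ℝ))) := by
    have hh := host_avY D.H D.F
    have h0 : avY (fun y => (dgY D.F y : ℝ)) = (D.κ : ℝ) / D.d * avX (fun x => (dgX D.F x : ℝ)) := by
      field_simp
      linarith
    rw [← d11_sumY D.F R N, ← Finset.sum_sub_distrib, ← nsmul_eq_mul, ← Finset.sum_const,
      ← Finset.sum_add_distrib]
    refine Finset.sum_congr rfl fun y _ => ?_
    have h1 : (eB D.F R {y} : ℝ) + (eB D.F Rᶜ {y} : ℝ) = (dgY D.F y : ℝ) := by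
      have := eB_complX D.F R {y}
      unfold dgY
      exact_mod_cast this
    unfold Ctx.qF Ctx.arF
    rw [h0, ← h1, hxo]
    ring
  have hmac : ∀ T, ¬ D.mac3 φ T D.arF c := by
    intro T hT
    refine hG.mac T ?_
    unfold Ctx.macAll
    right; right
    exact ⟨c, by tauto⟩
  have hSm : SmY D.H.G (eta D.t / (D.t : ℝ) ^ 5) D.arF := hD.res.smY
  have hΦκ : 2 * (eta D.t * D.κ / (D.t : ℝ) ^ 5) ≤ D.κ := by
    have h1 : (2 : ℝ) ≤ (D.t : ℝ) ^ 5 := by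
      calc (2 : ℝ) ≤ D.t := le_trans (by norm_num) ht
        _ = (D.t : ℝ) ^ 1 := (pow_one _).symm
        _ ≤ (D.t : ℝ) ^ 5 := pow_le_pow_right₀ ht1 (by norm_num)
    rw [← mul_div_assoc, div_le_iff₀ (by positivity)]
    calc 2 * (eta D.t * D.κ) ≤ 2 * (1 * D.κ) := by gcongr
      _ = D.κ * 2 := by ring
      _ ≤ D.κ * (D.t : ℝ) ^ 5 := by gcongr
  have hE3 := E3 D hD φ hG c A N hA hN D.arF (eta D.t / (D.t : ℝ) ^ 5)
    (2 * (eta D.t * D.κ / (D.t : ℝ) ^ 5)) (by positivity) hSm (d11_arF D hD) hΦκ hmac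
  -- bound 1
  have hn200 := (ctx_n D hD).1
  have heta : eta D.t * (D.t : ℝ) ^ 21 = 1 := by
    unfold eta
    field_simp
  have hb1 : |∑ y ∈ N, D.arF y| ≤ 10 ^ 23 * β / (D.t : ℝ) ^ 5 := by
    have h1 : (10 ^ 22 * (eta D.t / (D.t : ℝ) ^ 5) + 10 ^ 16 * (2 * (eta D.t * D.κ / (D.t : ℝ) ^ 5)) / D.κ
        + 1 / D.n) ≤ eta D.t * (10 ^ 23 / (D.t : ℝ) ^ 5) := by
      have h2 : 10 ^ 16 * (2 * (eta D.t * D.κ / (D.t : ℝ) ^ 5)) / D.κ =
          2 * 10 ^ 16 * (eta D.t / (D.t : ℝ) ^ 5) := by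
        field_simp
      have h3 : 1 / (D.n : ℝ) ≤ eta D.t / (D.t : ℝ) ^ 5 := by
        rw [div_le_div_iff₀ hnpos (by positivity), one_mul]
        calc (D.t : ℝ) ^ 5 = (eta D.t * (D.t : ℝ) ^ 21) * (D.t : ℝ) ^ 5 := by rw [heta, one_mul]
          _ = eta D.t * (D.t : ℝ) ^ 26 := by ring
          _ ≤ eta D.t * (D.t : ℝ) ^ 200 :=
            mul_le_mul_of_nonneg_left (pow_le_pow_right₀ ht1 (by norm_num)) hF4.le
          _ ≤ eta D.t * D.n := mul_le_mul_of_nonneg_left hn200 hF4.le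
      rw [h2]
      have h4 : eta D.t * (10 ^ 23 / (D.t : ℝ) ^ 5) = 10 ^ 23 * (eta D.t / (D.t : ℝ) ^ 5) := by ring
      rw [h4]
      have h5 : 0 ≤ eta D.t / (D.t : ℝ) ^ 5 := by positivity
      nlinarith
    have h2 : eta D.t * |∑ y ∈ N, D.arF y| ≤ eta D.t * (10 ^ 23 / (D.t : ℝ) ^ 5) * β :=
      hE3.trans (mul_le_mul_of_nonneg_right h1 hβ0)
    have h3 : eta D.t * |∑ y ∈ N, D.arF y| ≤ eta D.t * (10 ^ 23 * β / (D.t : ℝ) ^ 5) := by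
      refine h2.trans (le_of_eq ?_)
      ring
    exact le_of_mul_le_mul_left h3 hF4
  -- bound 2
  have hb2 : (eB D.F R N : ℝ) ≤ 10 ^ 23 * β / (D.t : ℝ) ^ 5 + 10 ^ 16 * β / (D.t : ℝ) ^ 5 := by
    have h1 : (eB D.F R N : ℝ) ≤ (eB D.H.G (D.O.OX c) N : ℝ) + (eB D.H.G Rem N : ℝ) := by
      have h2 : eB D.F R N ≤ eB D.H.G R N := eB_mono D.F D.H.G hD.res.sub R R
        (Finset.Subset.refl _) N N (Finset.Subset.refl _)
      have h3 : eB D.H.G R N ≤ eB D.H.G (D.O.OX c) N + eB D.H.G Rem N := by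
        unfold eB
        refine (Finset.card_le_card ?_).trans (Finset.card_union_le _ _)
        intro e he
        rw [hR] at he
        simp only [mem_filter, mem_union] at he ⊢
        tauto
      exact_mod_cast h2.trans h3
    have h4 := E3o D hD φ hG c A N hA hN
    have h5 : (eB D.H.G Rem N : ℝ) ≤ ∑ y ∈ N, (D.vZ φ c y : ℝ) := by
      rw [← d11_sumY D.H.G Rem N]
      exact Finset.sum_le_sum fun y _ => by exact_mod_cast hRem y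
    have h6 := E5Y D hD φ hG c A N hA hN
    have h7 : (∑ y ∈ N, (D.vZ φ c y : ℝ)) ≤ 10 ^ 16 * β / (D.t : ℝ) ^ 5 := by
      rw [le_div_iff₀ (by positivity)]
      have h8 : (D.t : ℝ) ^ 29 * ∑ y ∈ N, (D.vZ φ c y : ℝ) ≤ 10 ^ 16 * (D.t * β) :=
        (mul_le_mul_of_nonneg_right hF3 (Finset.sum_nonneg fun y _ => Nat.cast_nonneg _)).trans h6
      have h9 : (D.t : ℝ) ^ 6 * ∑ y ∈ N, (D.vZ φ c y : ℝ) ≤ 10 ^ 16 * (D.t * β) :=
        (mul_le_mul_of_nonneg_right (pow_le_pow_right₀ ht1 (by norm_num))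
          (Finset.sum_nonneg fun y _ => Nat.cast_nonneg _)).trans h8
      have h10 : (D.t : ℝ) * ((∑ y ∈ N, (D.vZ φ c y : ℝ)) * (D.t : ℝ) ^ 5) ≤ D.t * (10 ^ 16 * β) := by
        calc (D.t : ℝ) * ((∑ y ∈ N, (D.vZ φ c y : ℝ)) * (D.t : ℝ) ^ 5) =
              (D.t : ℝ) ^ 6 * ∑ y ∈ N, (D.vZ φ c y : ℝ) := by ring
          _ ≤ 10 ^ 16 * (D.t * β) := h9
          _ = D.t * (10 ^ 16 * β) := by ring
      exact le_of_mul_le_mul_left h10 htpos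
    have h11 : (10 : ℝ) ^ 23 / (D.t : ℝ) ^ 5 * β = 10 ^ 23 * β / (D.t : ℝ) ^ 5 := by ring
    rw [← h11]
    linarith
  -- bound 3
  have hb3 : (N.card : ℝ) * (((D.κ : ℝ) / D.d - D.rho1) * avX (fun x => (dgX D.F x : ℝ))) ≤
      10 ^ 17 * β / (D.t : ℝ) ^ 5 := by
    have h1 := betaLow D hD φ hG c A N hA
    have h2 : (N.card : ℝ) ≤ 4 * A.card := by exact_mod_cast hNA
    have h3 : ((D.κ : ℝ) / D.d - D.rho1) * avX (fun x => (dgX D.F x : ℝ)) ≤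
        4 * (eta D.t / (D.t : ℝ) ^ 26) := by
      calc ((D.κ : ℝ) / D.d - D.rho1) * avX (fun x => (dgX D.F x : ℝ)) ≤
            3 / ((D.t : ℝ) ^ 26 * D.d) * (101 / 100 * (eta D.t * D.d)) :=
            mul_le_mul hr6 hav1 hav0 (by positivity)
        _ = 303 / 100 * (eta D.t / (D.t : ℝ) ^ 26) := by
            field_simp
            ring
        _ ≤ 4 * (eta D.t / (D.t : ℝ) ^ 26) := by
            have : 0 ≤ eta D.t / (D.t : ℝ) ^ 26 := by positivity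
            linarith
    calc (N.card : ℝ) * (((D.κ : ℝ) / D.d - D.rho1) * avX (fun x => (dgX D.F x : ℝ))) ≤
          (4 * A.card) * (4 * (eta D.t / (D.t : ℝ) ^ 26)) := by
          refine mul_le_mul h2 h3 ?_ (by positivity)
          exact mul_nonneg (by linarith) hav0
      _ = 16 * (eta D.t * A.card) / (D.t : ℝ) ^ 26 := by ring
      _ ≤ 16 * (10 ^ 15 * β) / (D.t : ℝ) ^ 26 := by gcongr
      _ ≤ 16 * (10 ^ 15 * β) / (D.t : ℝ) ^ 5 := by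
          refine div_le_div_of_nonneg_left (by positivity) (by positivity) ?_
          exact pow_le_pow_right₀ ht1 (by norm_num)
      _ ≤ 10 ^ 17 * β / (D.t : ℝ) ^ 5 :=
          div_le_div_of_nonneg_right (by linarith) (by positivity)
  have hb30 : 0 ≤ (N.card : ℝ) * (((D.κ : ℝ) / D.d - D.rho1) * avX (fun x => (dgX D.F x : ℝ))) :=
    mul_nonneg (Nat.cast_nonneg _) (mul_nonneg (by linarith) hav0)
  have hb20 : (0 : ℝ) ≤ (eB D.F R N : ℝ) := Nat.cast_nonneg _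
  rw [hdec]
  have hfin : 10 ^ 23 * β / (D.t : ℝ) ^ 5 + (10 ^ 23 * β / (D.t : ℝ) ^ 5 + 10 ^ 16 * β / (D.t : ℝ) ^ 5)
      + 10 ^ 17 * β / (D.t : ℝ) ^ 5 ≤ β / (D.t : ℝ) ^ 4 := by
    rw [← add_div, ← add_div, ← add_div, div_le_div_iff₀ (by positivity) (by positivity)]
    have h6 : 10 ^ 23 * β + (10 ^ 23 * β + 10 ^ 16 * β) + 10 ^ 17 * β ≤ β * D.t := by nlinarith
    calc (10 ^ 23 * β + (10 ^ 23 * β + 10 ^ 16 * β) + 10 ^ 17 * β) * (D.t : ℝ) ^ 4 ≤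
          (β * D.t) * (D.t : ℝ) ^ 4 := by gcongr
      _ = β * (D.t : ℝ) ^ 5 := by ring
  rw [abs_le] at hb1 ⊢
  constructor <;> linarith [hb1.1, hb1.2]

end Pool.SCDH
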