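import Pool.Agent.Lib.MP_0ccee8_co2.LLL
import Pool.Agent.Lib.MP_0ccee8_co2.McD

/-!
# (1/2 - eps) n edge-disjoint symmetric chain decompositions: common definitions (inner part)

Paper: scd_h36.md.  `X`, `Y` are the two levels, a graph is a set of pairs `Finset (X × Y)`.
-/

set_option linter.unusedSectionVars false

namespace Pool.SCDH

open Finset Pool.MP_0ccee8_co.Lib2

section graph

variable {X Y : Type} [Fintype X] [DecidableEq X] [Fintype Y] [DecidableEq Y]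

/-- number of edges of `Γ` between `A` and `N` -/
def eB (Γ : Finset (X × Y)) (A : Finset X) (N : Finset Y) : ℕ :=
  (Γ.filter (fun e => e.1 ∈ A ∧ e.2 ∈ N)).card

/-- degrees -/
def dgX (Γ : Finset (X × Y)) (x : X) : ℕ := eB Γ {x} univ
def dgY (Γ : Finset (X × Y)) (y : Y) : ℕ := eB Γ univ {y}

/-- boundary of the vertex set `A + N` -/
def bd (Γ : Finset (X × Y)) (A : Finset X) (N : Finset Y) : ℕ := eB Γ A Nᶜ + eB Γ Aᶜ N

/-- smallest boundary of `A + N` over all `N` -/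
def mX (Γ : Finset (X × Y)) (A : Finset X) : ℕ := ∑ y, min (eB Γ A {y}) (eB Γ Aᶜ {y})
def mY (Γ : Finset (X × Y)) (N : Finset Y) : ℕ := ∑ x, min (eB Γ {x} N) (eB Γ {x} Nᶜ)

/-- the `y` with a strict majority of their `Γ`-neighbours in `A` -/
def maj (Γ : Finset (X × Y)) (A : Finset X) : Finset Y :=
  univ.filter (fun y => eB Γ Aᶜ {y} < eB Γ A {y})

/-- the `x` with a strict majority of their `Γ`-neighbours in `N` -/
def mjX (Γ : Finset (X × Y)) (N : Finset Y) : Finset X :=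
  univ.filter (fun x => eB Γ {x} Nᶜ < eB Γ {x} N)

/-- one step of the random walk on `Γ` -/
noncomputable def stp (Γ : Finset (X × Y)) (f : X ⊕ Y → ℝ) : X ⊕ Y → ℝ
  | .inl x => (∑ y, if (x, y) ∈ Γ then f (.inr y) else 0) / (dgX Γ x : ℝ)
  | .inr y => (∑ x, if (x, y) ∈ Γ then f (.inl x) else 0) / (dgY Γ y : ℝ)

/-- `pT Γ r T v` = probability that the `r`-step walk on `Γ` from `v` ends in `T` -/
noncomputable def pT (Γ : Finset (X × Y)) (r : ℕ) (T : Finset (X ⊕ Y)) : X ⊕ Y → ℝ :=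
  (stp Γ)^[r] (fun u => if u ∈ T then 1 else 0)

/-- length of the walks -/
def rW : ℕ := 1000

/-- inverse density of the certificates -/
def Nτ (n : ℕ) : ℕ := n ^ 40

open Classical in
/-- the set certified by `T`, part in `X` -/
noncomputable def cX (Γ : Finset (X × Y)) (n : ℕ) (T : Finset (X ⊕ Y)) : Finset X :=
  univ.filter (fun x => 1 ≤ 2 * (Nτ n : ℝ) * pT Γ rW T (.inl x))

open Classical in
/-- the set certified by `T`, part in `Y` -/
noncomputable def cY (Γ : Finset (X × Y)) (n : ℕ) (T : Finset (X ⊕ Y)) : Finset Y :=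
  univ.filter (fun y => 1 ≤ 2 * (Nτ n : ℝ) * pT Γ rW T (.inr y))

/-- neighbours -/
def nbrs (G : Finset (X × Y)) : X ⊕ Y → Finset (X ⊕ Y)
  | .inl x => (univ.filter (fun y => (x, y) ∈ G)).map ⟨Sum.inr, Sum.inr_injective⟩
  | .inr y => (univ.filter (fun x => (x, y) ∈ G)).map ⟨Sum.inl, Sum.inl_injective⟩

/-- vertices at distance at most `R` from `T` -/
def ball (G : Finset (X × Y)) : ℕ → Finset (X ⊕ Y) → Finset (X ⊕ Y)
  | 0, T => T
  | R + 1, T => ball G R T ∪ (ball G R T).biUnion (nbrs G)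

/-- The host graph: abstract form of the graph between two consecutive levels. -/
structure Host (X Y : Type) [Fintype X] [DecidableEq X] [Fintype Y] [DecidableEq Y]
    (n d κ : ℕ) where
  G : Finset (X × Y)
  hd1 : n ≤ 2 * d
  hd2 : d ≤ n
  hκ : 1 ≤ κ
  hκd : κ ≤ d
  degX : ∀ x, dgX G x = d
  degY : ∀ y, dgY G y = κ
  dist : X ⊕ Y → X ⊕ Y → ℕ
  dist_self : ∀ v, dist v v = 0
  dist_step : ∀ e ∈ G, ∀ u, dist (.inl e.1) u + 1 = dist (.inr e.2) u ∨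
    dist (.inr e.2) u + 1 = dist (.inl e.1) u
  nearX : ∀ x u, (univ.filter (fun y => (x, y) ∈ G ∧
    dist (.inr y) u + 1 = dist (.inl x) u)).card ≤ dist (.inl x) u
  nearY : ∀ y u, (univ.filter (fun x => (x, y) ∈ G ∧
    dist (.inl x) u + 1 = dist (.inr y) u)).card ≤ dist (.inr y) u
  bigX : n ^ 100 ≤ Fintype.card X
  cardV : Fintype.card X + Fintype.card Y ≤ 2 ^ n
  isoX : ∀ A : Finset X, 2 * A.card ≤ Fintype.card X → n * A.card ≤ 2 * κ * mX G A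
  isoY : ∀ N : Finset Y, 2 * N.card ≤ Fintype.card Y → N.card ≤ 2 * mY G N

/-- smooth arrays -/
def SmX (G : Finset (X × Y)) (M : ℝ) (f : X → ℝ) : Prop := ∀ A : Finset X, |∑ x ∈ A, f x| ≤ M * mX G A
def SmY (G : Finset (X × Y)) (M : ℝ) (f : Y → ℝ) : Prop := ∀ N : Finset Y, |∑ y ∈ N, f y| ≤ M * mY G N

/-- averages -/
noncomputable def avX (f : X → ℝ) : ℝ := (∑ x, f x) / (Fintype.card X : ℝ)
noncomputable def avY (f : Y → ℝ) : ℝ := (∑ y, f y) / (Fintype.card Y : ℝ)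

/-- outer chains on one side of one level -/
structure Outer (X Y C : Type) where
  OX : C → Finset X
  OY : C → Finset Y
  mu : C → X → Y

/-- sub-collection of colours -/
def Outer.comap {C C' : Type} (O : Outer X Y C) (f : C' → C) : Outer X Y C' :=
  ⟨fun c => O.OX (f c), fun c => O.OY (f c), fun c => O.mu (f c)⟩

/-- the outer edges -/
def Outer.U {C : Type} [Fintype C] (O : Outer X Y C) : Finset (X × Y) :=
  univ.filter (fun e => ∃ c, e.1 ∈ O.OX c ∧ e.2 = O.mu c e.1)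
/-- number of outer chains through a vertex -/
def uX {C : Type} [Fintype C] (O : Outer X Y C) (x : X) : ℕ := (univ.filter (fun c => x ∈ O.OX c)).card
def uY {C : Type} [Fintype C] (O : Outer X Y C) (y : Y) : ℕ := (univ.filter (fun c => y ∈ O.OY c)).card

/-- The conditions on the outer chains (one side); `ζ = t^(-26)`. -/
structure OutOK {n d κ : ℕ} (H : Host X Y n d κ) (t ω : ℕ) {C : Type} [Fintype C]
    (O : Outer X Y C) : Prop where
  adj : ∀ c, ∀ x ∈ O.OX c, (x, O.mu c x) ∈ H.G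
  mem : ∀ c, ∀ x ∈ O.OX c, O.mu c x ∈ O.OY c
  inj : ∀ c, Set.InjOn (O.mu c) (O.OX c)
  cX : ∀ c, (O.OX c).card = ω
  cY : ∀ c, (O.OY c).card = ω
  om : t ^ 26 * (κ * ω) ≤ Fintype.card X
  dis : ∀ c c', c ≠ c' → ∀ x ∈ O.OX c, x ∈ O.OX c' → O.mu c x ≠ O.mu c' x
  o3Y : ∀ c y, t ^ 26 * eB H.G (O.OX c) {y} ≤ κ
  o3X : ∀ c x, t ^ 26 * eB H.G {x} (O.OY c) ≤ n
  o4X : ∀ x, t ^ 26 * uX O x ≤ n
  o4Y : ∀ y, t ^ 26 * uY O y ≤ κ
  o5X : ∀ c A, t ^ 26 * (κ * eB H.G A (O.OY c)) ≤ κ * mX H.G A + n * A.card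
  o5Y : ∀ c N, t ^ 26 * eB H.G (O.OX c) N ≤ mY H.G N + N.card
  o6X : ∀ A : Finset X, t ^ 26 * (κ * ∑ x ∈ A, uX O x) ≤ κ * mX H.G A + n * A.card
  o6Y : ∀ N : Finset Y, t ^ 26 * ∑ y ∈ N, uY O y ≤ mY H.G N + N.card
  o7 : ∀ A N, 2 * bd O.U A N ≤ bd H.G A N

/-- density of one reserve -/
noncomputable def eta (t : ℕ) : ℝ := 1 / (t : ℝ) ^ 21

/-- a reserve -/
structure Res {n d κ : ℕ} (H : Host X Y n d κ) (t : ℕ) (F : Finset (X × Y)) : Prop where
  sub : F ⊆ H.G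
  degX : ∀ x, |(dgX F x : ℝ) - eta t * d| ≤ eta t * d / t ^ 5
  degY : ∀ y, |(dgY F y : ℝ) - eta t * κ| ≤ eta t * κ / t ^ 5
  smX : SmX H.G (eta t / t ^ 5) (fun x => (dgX F x : ℝ) - avX (fun x => (dgX F x : ℝ)))
  smY : SmY H.G (eta t / t ^ 5) (fun y => (dgY F y : ℝ) - avY (fun y => (dgY F y : ℝ)))
  cut : ∀ A N, eta t * (bd H.G A N : ℝ) ≤ 10 ^ 7 * (bd F A N : ℝ)

/-- the bulk -/
structure BulkOK {n d κ : ℕ} (H : Host X Y n d κ) (ε : ℝ) (t : ℕ) (Hb : Finset (X × Y)) : Prop where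
  sub : Hb ⊆ H.G
  lowX : ∀ x, ε * n / 4 ≤ (dgX Hb x : ℝ)
  lowY : ∀ y, ε * κ / 4 ≤ (dgY Hb y : ℝ)
  devX : ∀ x, |(dgX Hb x : ℝ) - avX (fun x => (dgX Hb x : ℝ))| ≤ n / t ^ 5
  devY : ∀ y, |(dgY Hb y : ℝ) - avY (fun y => (dgY Hb y : ℝ))| ≤ κ / t ^ 5
  smX : SmX H.G (1 / t ^ 5) (fun x => (dgX Hb x : ℝ) - avX (fun x => (dgX Hb x : ℝ)))
  smY : SmY H.G (1 / t ^ 5) (fun y => (dgY Hb y : ℝ) - avY (fun y => (dgY Hb y : ℝ)))

/-- matchings outside the outer sets, in `Γ`, pairwise edge-disjoint -/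
structure Mat {C : Type} [Fintype C] (Γ : Finset (X × Y)) (O : Outer X Y C) (M : C → X → Y) : Prop where
  adj : ∀ c x, x ∉ O.OX c → (x, M c x) ∈ Γ
  out : ∀ c x, x ∉ O.OX c → M c x ∉ O.OY c
  inj : ∀ c x x', x ∉ O.OX c → x' ∉ O.OX c → M c x = M c x' → x = x'
  dis : ∀ c c', c ≠ c' → ∀ x, x ∉ O.OX c → x ∉ O.OX c' → M c x ≠ M c' x

/-- the set matched in colour `c` -/
def imM {C : Type} (O : Outer X Y C) (M : C → X → Y) (c : C) : Finset Y :=
  (univ.filter (fun x => x ∉ O.OX c)).image (M c)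

/-- how often `y` is matched -/
def use {C : Type} [Fintype C] (O : Outer X Y C) (M : C → X → Y) (y : Y) : ℕ :=
  (univ.filter (fun c => y ∈ imM O M c)).card

end graph

/-- `t` is large in terms of `ε` -/
structure Big (ε : ℝ) (t : ℕ) : Prop where
  e0 : 0 < ε
  e1 : ε ≤ 1 / 2
  b1 : (10 : ℝ) ^ 100 ≤ ε * t
  b2 : (t : ℝ) ^ 1000000 ≤ Real.exp t

/-- the range of `n` for a parameter `t` -/
def Rng (t n : ℕ) : Prop := t ^ 200 ≤ n ∧ n < 2 * t ^ 200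

end Pool.SCDH
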