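import Mathlib

/-!
The spectral gap of the Johnson graph, in the form of two Poincare inequalities for the bipartite
graph between two consecutive levels of the cube.
-/

namespace Pool.SCDH.JG

open Finset

variable {n : ℕ}

/-- Up operator. -/
noncomputable def upS (f : Finset (Fin n) → ℝ) (y : Finset (Fin n)) : ℝ := ∑ i ∈ y, f (y.erase i)

/-- Down operator. -/
noncomputable def dnS (f : Finset (Fin n) → ℝ) (z : Finset (Fin n)) : ℝ :=
  ∑ i ∈ zᶜ, f (insert i z)

/-- The `k`-th level of the cube. -/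
abbrev lv (n k : ℕ) : Finset (Finset (Fin n)) := powersetCard k univ

/-- The off-diagonal part. -/
noncomputable def offS (f : Finset (Fin n) → ℝ) (k : ℕ) : ℝ :=
  ∑ z ∈ lv n k, ∑ i ∈ zᶜ, ∑ j ∈ zᶜ.erase i, f (insert i z) * f (insert j z)

lemma mem_lv {k : ℕ} {x : Finset (Fin n)} : x ∈ lv n k ↔ x.card = k := by
  simp [lv, mem_powersetCard]

lemma up_adj (f g : Finset (Fin n) → ℝ) (k : ℕ) :
    ∑ y ∈ lv n (k + 1), upS f y * g y = ∑ x ∈ lv n k, f x * dnS g x := by
  simp only [upS, dnS, sum_mul, mul_sum]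
  rw [sum_sigma', sum_sigma']
  refine sum_nbij' (fun p => ⟨p.1.erase p.2, p.2⟩) (fun p => ⟨insert p.2 p.1, p.2⟩) ?_ ?_ ?_ ?_ ?_
  · rintro ⟨y, i⟩ h
    simp only [mem_sigma, mem_lv] at h
    simp only [mem_sigma, mem_lv, card_erase_of_mem h.2, h.1, mem_compl, mem_erase, ne_eq,
      not_true, false_and, not_false_iff, and_true]
    omega
  · rintro ⟨x, i⟩ h
    simp only [mem_sigma, mem_lv, mem_compl] at h
    simp [card_insert_of_notMem h.2, h.1]
  · rintro ⟨y, i⟩ h
    simp only [mem_sigma, mem_lv] at h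
    simp [insert_erase h.2]
  · rintro ⟨x, i⟩ h
    simp only [mem_sigma, mem_lv, mem_compl] at h
    simp [erase_insert h.2]
  · rintro ⟨y, i⟩ h
    simp only [mem_sigma, mem_lv] at h
    simp [insert_erase h.2]

lemma dn_sq (f : Finset (Fin n) → ℝ) (k : ℕ) :
    ∑ z ∈ lv n k, dnS f z ^ 2 = ((k : ℝ) + 1) * ∑ x ∈ lv n (k + 1), f x ^ 2 + offS f k := by
  have h1 : ∀ z : Finset (Fin n), dnS f z ^ 2 = ∑ i ∈ zᶜ, f (insert i z) ^ 2 +
      ∑ i ∈ zᶜ, ∑ j ∈ zᶜ.erase i, f (insert i z) * f (insert j z) := by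
    intro z
    rw [dnS, sq, sum_mul_sum, ← sum_add_distrib]
    refine sum_congr rfl fun i hi => ?_
    rw [← add_sum_erase _ _ hi, sq]
  simp only [h1, sum_add_distrib, offS]
  congr 1
  have h2 := up_adj (fun _ => (1 : ℝ)) (fun x => f x ^ 2) k
  simp only [dnS, one_mul] at h2
  rw [← h2, mul_sum]
  refine sum_congr rfl fun y hy => ?_
  simp [upS, mem_lv.1 hy]

lemma up_sq (f : Finset (Fin n) → ℝ) (k : ℕ) :
    ∑ y ∈ lv n (k + 2), upS f y ^ 2 =
      ((n : ℝ) - (k + 1)) * ∑ x ∈ lv n (k + 1), f x ^ 2 + offS f k := by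
  have h1 : ∀ y : Finset (Fin n), upS f y ^ 2 = ∑ i ∈ y, f (y.erase i) ^ 2 +
      ∑ i ∈ y, ∑ j ∈ y.erase i, f (y.erase i) * f (y.erase j) := by
    intro z
    rw [upS, sq, sum_mul_sum, ← sum_add_distrib]
    refine sum_congr rfl fun i hi => ?_
    rw [← add_sum_erase _ _ hi, sq]
  simp only [h1, sum_add_distrib, offS]
  congr 1
  · have h2 := up_adj (fun x => f x ^ 2) (fun _ => (1 : ℝ)) (k + 1)
    simp only [upS, mul_one] at h2
    rw [h2, mul_sum]
    refine sum_congr rfl fun x hx => ?_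
    simp only [dnS, sum_const, nsmul_eq_mul, mul_one, card_compl, Fintype.card_fin]
    have h3 : x.card ≤ n := by
      have := card_le_univ x
      simpa using this
    rw [Nat.cast_sub h3, mem_lv.1 hx]
    push_cast
    ring
  · simp only [sum_sigma']
    refine sum_nbij' (fun p => ⟨(p.1.erase p.2.1).erase p.2.2, p.2.2, p.2.1⟩)
      (fun p => ⟨insert p.2.1 (insert p.2.2 p.1), p.2.2, p.2.1⟩) ?_ ?_ ?_ ?_ ?_
    · rintro ⟨y, i, j⟩ h
      simp only [mem_sigma, mem_lv, mem_erase] at h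
      obtain ⟨h1, h2, h3, h4⟩ := h
      have h5 : j ∈ y.erase i := mem_erase.2 ⟨h3, h4⟩
      simp only [mem_sigma, mem_lv, mem_compl, mem_erase, card_erase_of_mem h5,
        card_erase_of_mem h2, h1, ne_eq, not_true, false_and, not_false_iff, and_true, true_and]
      refine ⟨by omega, fun h => h3 h.symm, by tauto⟩
    · rintro ⟨z, i, j⟩ h
      simp only [mem_sigma, mem_lv, mem_erase, mem_compl] at h
      obtain ⟨h1, h2, h3, h4⟩ := h
      have h5 : i ∉ insert j z := by
        simp only [mem_insert, not_or]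
        exact ⟨fun h => h3 h.symm, h2⟩
      simp only [mem_sigma, mem_lv, mem_erase, card_insert_of_notMem h5,
        card_insert_of_notMem h4, h1, mem_insert, true_or, or_true, and_true, true_and]
      exact fun h => h3 h.symm
    · rintro ⟨y, i, j⟩ h
      simp only [mem_sigma, mem_lv, mem_erase] at h
      obtain ⟨h1, h2, h3, h4⟩ := h
      have h6 : insert j (insert i ((y.erase i).erase j)) = y := by
        ext a
        simp only [mem_insert, mem_erase]
        by_cases ha : a = j <;> by_cases hb : a = i <;> simp_all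
      simp [h6]
    · rintro ⟨z, i, j⟩ h
      simp only [mem_sigma, mem_lv, mem_erase, mem_compl] at h
      obtain ⟨h1, h2, h3, h4⟩ := h
      have h6 : ((insert i (insert j z)).erase j).erase i = z := by
        ext a
        simp only [mem_insert, mem_erase]
        by_cases ha : a = j <;> by_cases hb : a = i <;> simp_all
      simp [h6]
    · rintro ⟨y, i, j⟩ h
      simp only [mem_sigma, mem_lv, mem_erase] at h
      obtain ⟨h1, h2, h3, h4⟩ := h
      have h5 : j ∈ y.erase i := mem_erase.2 ⟨h3, h4⟩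
      have h6 : insert i ((y.erase i).erase j) = y.erase j := by
        ext a
        simp only [mem_insert, mem_erase]
        by_cases ha : a = j <;> by_cases hb : a = i <;> simp_all
      simp [h6, insert_erase h5]

/-- The bound for the up operator on sums zero functions, level `k`. -/
def UpB (n k : ℕ) : Prop := ∀ g : Finset (Fin n) → ℝ, ∑ x ∈ lv n k, g x = 0 →
  ∑ y ∈ lv n (k + 1), upS g y ^ 2 ≤ (k : ℝ) * ((n : ℝ) - k - 1) * ∑ x ∈ lv n k, g x ^ 2

def DnB (n k : ℕ) : Prop := ∀ g : Finset (Fin n) → ℝ, ∑ x ∈ lv n (k + 1), g x = 0 →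
  ∑ z ∈ lv n k, dnS g z ^ 2 ≤ (k : ℝ) * ((n : ℝ) - k - 1) * ∑ x ∈ lv n (k + 1), g x ^ 2

lemma upB_zero : UpB n 0 := by
  intro g hg
  have h0 : g ∅ = 0 := by simpa [lv] using hg
  have : ∀ y ∈ lv n (0 + 1), upS g y ^ 2 = 0 := by
    intro y hy
    obtain ⟨a, rfl⟩ := card_eq_one.1 (mem_lv.1 hy)
    simp [upS, h0]
  rw [sum_congr rfl this]
  simp

lemma dnB_of_upB {k : ℕ} (h : UpB n k) : DnB n k := by
  intro f hf
  set H := ∑ z ∈ lv n k, dnS f z ^ 2 with hH
  set F := ∑ x ∈ lv n (k + 1), f x ^ 2 with hF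
  have h0 : ∑ z ∈ lv n k, dnS f z = 0 := by
    have h1 := up_adj (fun _ => (1 : ℝ)) f k
    simp only [one_mul] at h1
    rw [← h1]
    have : ∀ y ∈ lv n (k + 1), upS (fun _ => (1 : ℝ)) y * f y = ((k : ℝ) + 1) * f y := by
      intro y hy
      simp [upS, mem_lv.1 hy]
    rw [sum_congr rfl this, ← mul_sum, hf, mul_zero]
  have h1 := h (dnS f) h0
  have h2 : H = ∑ y ∈ lv n (k + 1), upS (dnS f) y * f y := by
    rw [up_adj]
    exact sum_congr rfl fun z _ => sq _
  have hH0 : 0 ≤ H := sum_nonneg fun _ _ => sq_nonneg _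
  have hF0 : 0 ≤ F := sum_nonneg fun _ _ => sq_nonneg _
  have h3 : H ^ 2 ≤ (∑ y ∈ lv n (k + 1), upS (dnS f) y ^ 2) * F := by
    rw [h2]
    exact sum_mul_sq_le_sq_mul_sq _ _ _
  have h4 : H ^ 2 ≤ (k : ℝ) * ((n : ℝ) - k - 1) * H * F :=
    h3.trans (mul_le_mul_of_nonneg_right h1 hF0)
  rcases hH0.eq_or_lt with h5 | h5
  · rw [← h5]
    have : 0 ≤ (k : ℝ) * ((n : ℝ) - k - 1) * F := by
      rcases Nat.lt_or_ge k n with hkn | hkn
      · have : (k : ℝ) + 1 ≤ n := by exact_mod_cast hkn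
        have h6 : 0 ≤ (n : ℝ) - k - 1 := by linarith
        positivity
      · have : lv n (k + 1) = ∅ := by
          apply powersetCard_eq_empty.2
          simp
          omega
        rw [hF, this]
        simp
    exact this
  · nlinarith [h4]

lemma upB_succ {k : ℕ} (h : DnB n k) : UpB n (k + 1) := by
  intro g hg
  have h1 := h g hg
  rw [dn_sq] at h1
  have h2 := up_sq g k
  rw [show k + 1 + 1 = k + 2 from rfl, h2]
  push_cast
  nlinarith [h1]

lemma upB (n k : ℕ) : UpB n k := by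
  induction k with
  | zero => exact upB_zero
  | succ k ih => exact upB_succ (dnB_of_upB ih)

lemma dnB (n k : ℕ) : DnB n k := dnB_of_upB (upB n k)

/-- indicator -/
noncomputable def ind (A : Finset (Finset (Fin n))) (s : Finset (Fin n)) : ℝ :=
  if s ∈ A then 1 else 0

private lemma sum_ind {k : ℕ} {A : Finset (Finset (Fin n))} (hA : A ⊆ lv n k) :
    ∑ x ∈ lv n k, ind A x = A.card := by
  unfold ind
  rw [← sum_filter, filter_mem_eq_inter, inter_eq_right.2 hA]
  simp

private lemma upS_one {k : ℕ} {y : Finset (Fin n)} (hy : y ∈ lv n k) :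
    upS (fun _ => (1 : ℝ)) y = k := by
  simp [upS, mem_lv.1 hy]

private lemma dnS_one {k : ℕ} {x : Finset (Fin n)} (hx : x ∈ lv n k) :
    dnS (fun _ => (1 : ℝ)) x = (n : ℝ) - k := by
  simp only [dnS, sum_const, nsmul_eq_mul, mul_one, card_compl, Fintype.card_fin]
  have h3 : x.card ≤ n := by
    have := card_le_univ x
    simpa using this
  rw [Nat.cast_sub h3, mem_lv.1 hx]

/-- sizes of consecutive levels -/
private lemma card_lv (k : ℕ) :
    ((k : ℝ) + 1) * ((lv n (k + 1)).card : ℝ) = ((n : ℝ) - k) * ((lv n k).card : ℝ) := by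
  have h := up_adj (n := n) (fun _ => (1 : ℝ)) (fun _ => (1 : ℝ)) k
  simp only [mul_one, one_mul] at h
  rw [sum_congr rfl fun y hy => upS_one hy, sum_congr rfl fun x hx => dnS_one hx] at h
  simp only [sum_const, nsmul_eq_mul] at h
  push_cast at h
  linarith

/-- **Poincare on the lower level**. -/
theorem poin_lower {k : ℕ} (A : Finset (Finset (Fin n))) (hA : A ⊆ lv n k) :
    (n : ℝ) * A.card * ((lv n k).card - A.card) ≤
      (lv n k).card * ∑ y ∈ lv n (k + 1), upS (ind A) y * (((k : ℝ) + 1) - upS (ind A) y) := by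
  set L : ℝ := ((lv n k).card : ℝ) with hL
  rcases (lv n k).eq_empty_or_nonempty with h0 | h0
  · have : A = ∅ := subset_empty.1 (h0 ▸ hA)
    have hL0 : L = 0 := by rw [hL, h0]; simp
    simp [this, hL0]
  have hL0 : 0 < L := by rw [hL]; exact_mod_cast card_pos.2 h0
  set a : ℝ := A.card / L with ha
  have haL : a * L = A.card := by rw [ha]; field_simp
  clear_value a
  have hg : ∑ x ∈ lv n k, (ind A x - a) = 0 := by
    rw [sum_sub_distrib, sum_ind hA]
    simp only [sum_const, nsmul_eq_mul]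
    rw [← hL, mul_comm, haL]; ring
  have h1 := upB n k (fun x => ind A x - a) hg
  have h2 : ∀ y ∈ lv n (k + 1), upS (fun x => ind A x - a) y = upS (ind A) y - a * (k + 1) := by
    intro y hy
    have := upS_one hy
    simp only [upS, sum_sub_distrib, sum_const, nsmul_eq_mul] at this ⊢
    rw [mem_lv.1 hy]
    push_cast
    ring
  have h3 : ∑ x ∈ lv n k, (ind A x - a) ^ 2 = A.card * (1 - a) := by
    have e1 : ∀ x ∈ lv n k, (ind A x - a) ^ 2 = ind A x * (1 - 2 * a) + a ^ 2 := by
      intro x _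
      unfold ind
      split_ifs <;> ring
    rw [sum_congr rfl e1, sum_add_distrib, ← sum_mul, sum_ind hA]
    simp only [sum_const, nsmul_eq_mul]
    rw [← hL]
    linear_combination a * haL
  rw [h3] at h1
  have h4 : ∑ y ∈ lv n (k + 1), upS (ind A) y = ((n : ℝ) - k) * A.card := by
    have h := up_adj (n := n) (ind A) (fun _ => (1 : ℝ)) k
    simp only [mul_one] at h
    rw [h, sum_congr rfl fun x hx => by rw [dnS_one hx], ← sum_mul, sum_ind hA]
    ring
  set S2 : ℝ := ∑ y ∈ lv n (k + 1), upS (fun x => ind A x - a) y ^ 2 with hS2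
  have h5 : ∑ y ∈ lv n (k + 1), upS (ind A) y * (((k : ℝ) + 1) - upS (ind A) y) =
      ((k : ℝ) + 1) * (n - k) * A.card - 2 * a * (k + 1) * ((n - k) * A.card) +
        a ^ 2 * (k + 1) * (((k : ℝ) + 1) * ((lv n (k + 1)).card : ℝ)) - S2 := by
    have hS2' : S2 = ∑ y ∈ lv n (k + 1), (upS (ind A) y - a * (k + 1)) ^ 2 :=
      sum_congr rfl fun y hy => by rw [h2 y hy]
    rw [hS2']
    have e2 : ∀ y : Finset (Fin n), (upS (ind A) y - a * (k + 1)) ^ 2 =
        (a ^ 2 * (k + 1) ^ 2) + ((k : ℝ) + 1 - 2 * a * (k + 1)) * upS (ind A) y -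
          upS (ind A) y * (((k : ℝ) + 1) - upS (ind A) y) := by
      intro y; ring
    simp only [e2, sum_sub_distrib, sum_add_distrib, ← mul_sum, sum_const, nsmul_eq_mul, h4]
    ring
  rw [h5, card_lv, ← hL]
  have h6 : a ^ 2 * (k + 1) * (((n : ℝ) - k) * L) = a * (k + 1) * ((n - k) * A.card) := by
    rw [← haL]; ring
  rw [h6]
  have h7 : L * (((k : ℝ) + 1) * (n - k) * A.card - 2 * a * (k + 1) * ((n - k) * A.card) +
      a * (k + 1) * ((n - k) * A.card) - S2) =
      L * (((k : ℝ) + 1) * (n - k) * (A.card * (1 - a)) - S2) := by ring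
  rw [h7]
  have h8 : (n : ℝ) * A.card * (L - A.card) = L * (n * (A.card * (1 - a))) := by
    have : L * a = A.card := by rw [mul_comm]; exact haL
    linear_combination ((n : ℝ) * A.card) * this
  rw [h8]
  refine mul_le_mul_of_nonneg_left ?_ hL0.le
  nlinarith [h1]

/-- **Poincare on the upper level**. -/
theorem poin_upper {k : ℕ} (N : Finset (Finset (Fin n))) (hN : N ⊆ lv n (k + 1)) :
    (n : ℝ) * N.card * ((lv n (k + 1)).card - N.card) ≤
      (lv n (k + 1)).card * ∑ x ∈ lv n k, dnS (ind N) x * (((n : ℝ) - k) - dnS (ind N) x) := by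
  set L : ℝ := ((lv n (k + 1)).card : ℝ) with hL
  rcases (lv n (k + 1)).eq_empty_or_nonempty with h0 | h0
  · have : N = ∅ := subset_empty.1 (h0 ▸ hN)
    have hL0 : L = 0 := by rw [hL, h0]; simp
    simp [this, hL0]
  have hL0 : 0 < L := by rw [hL]; exact_mod_cast card_pos.2 h0
  set a : ℝ := N.card / L with ha
  have haL : a * L = N.card := by rw [ha]; field_simp
  clear_value a
  have hg : ∑ x ∈ lv n (k + 1), (ind N x - a) = 0 := by
    rw [sum_sub_distrib, sum_ind hN]
    simp only [sum_const, nsmul_eq_mul]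
    rw [← hL, mul_comm, haL]; ring
  have h1 := dnB n k (fun x => ind N x - a) hg
  have h2 : ∀ x ∈ lv n k, dnS (fun x => ind N x - a) x = dnS (ind N) x - a * (n - k) := by
    intro x hx
    have := dnS_one hx
    simp only [dnS, sum_sub_distrib, sum_const, nsmul_eq_mul, mul_one] at this ⊢
    rw [this]
    ring
  have h3 : ∑ x ∈ lv n (k + 1), (ind N x - a) ^ 2 = N.card * (1 - a) := by
    have e1 : ∀ x ∈ lv n (k + 1), (ind N x - a) ^ 2 = ind N x * (1 - 2 * a) + a ^ 2 := by
      intro x _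
      unfold ind
      split_ifs <;> ring
    rw [sum_congr rfl e1, sum_add_distrib, ← sum_mul, sum_ind hN]
    simp only [sum_const, nsmul_eq_mul]
    rw [← hL]
    linear_combination a * haL
  rw [h3] at h1
  have h4 : ∑ x ∈ lv n k, dnS (ind N) x = ((k : ℝ) + 1) * N.card := by
    have h := up_adj (n := n) (fun _ => (1 : ℝ)) (ind N) k
    simp only [one_mul] at h
    rw [← h, sum_congr rfl fun x hx => by rw [upS_one hx], ← mul_sum, sum_ind hN]
    push_cast
    ring
  set S2 : ℝ := ∑ z ∈ lv n k, dnS (fun x => ind N x - a) z ^ 2 with hS2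
  have h5 : ∑ x ∈ lv n k, dnS (ind N) x * (((n : ℝ) - k) - dnS (ind N) x) =
      ((n : ℝ) - k) * ((k + 1) * N.card) - 2 * a * (n - k) * ((k + 1) * N.card) +
        a ^ 2 * (n - k) * (((n : ℝ) - k) * ((lv n k).card : ℝ)) - S2 := by
    have hS2' : S2 = ∑ y ∈ lv n k, (dnS (ind N) y - a * (n - k)) ^ 2 :=
      sum_congr rfl fun y hy => by rw [h2 y hy]
    rw [hS2']
    have e2 : ∀ y : Finset (Fin n), (dnS (ind N) y - a * (n - k)) ^ 2 =
        (a ^ 2 * (n - k) ^ 2) + ((n : ℝ) - k - 2 * a * (n - k)) * dnS (ind N) y -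
          dnS (ind N) y * (((n : ℝ) - k) - dnS (ind N) y) := by
      intro y; ring
    simp only [e2, sum_sub_distrib, sum_add_distrib, ← mul_sum, sum_const, nsmul_eq_mul, h4]
    ring
  rw [h5, ← card_lv, ← hL]
  have h6 : a ^ 2 * ((n : ℝ) - k) * (((k : ℝ) + 1) * L) = a * (n - k) * ((k + 1) * N.card) := by
    rw [← haL]; ring
  rw [h6]
  have h7 : L * (((n : ℝ) - k) * ((k + 1) * N.card) - 2 * a * (n - k) * ((k + 1) * N.card) +
      a * (n - k) * ((k + 1) * N.card) - S2) =
      L * (((k : ℝ) + 1) * (n - k) * (N.card * (1 - a)) - S2) := by ring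
  rw [h7]
  have h8 : (n : ℝ) * N.card * (L - N.card) = L * (n * (N.card * (1 - a))) := by
    have : L * a = N.card := by rw [mul_comm]; exact haL
    linear_combination ((n : ℝ) * N.card) * this
  rw [h8]
  refine mul_le_mul_of_nonneg_left ?_ hL0.le
  nlinarith [h1]

end Pool.SCDH.JG
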