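import Pool.Agent.Lib.SCDH.Defs
import Pool.Agent.Lib.SCDH.L01

/-!
# Row L10 (paper scd_h36.md)
Asymmetric local lemma with functions (for the outer part). Weights x_i = 2^|supp i| P(A_i).
-/

set_option linter.unusedSectionVars false
set_option linter.unusedVariables false

namespace Pool.SCDH

open Finset Pool.MP_0ccee8_co.Lib2

variable {V K : Type} [Fintype V] [DecidableEq V] [Fintype K] [Nonempty K]

private lemma one_sub_sum_le_prod' {ι : Type} [DecidableEq ι] (x : ι → ℝ) (hx0 : ∀ i, 0 ≤ x i)
    (hx1 : ∀ i, x i ≤ 1) (S : Finset ι) : 1 - ∑ j ∈ S, x j ≤ ∏ j ∈ S, (1 - x j) := by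
  induction S using Finset.induction_on with
  | empty => simp
  | insert a S ha ih =>
    rw [sum_insert ha, prod_insert ha]
    have h1 : 0 ≤ ∑ j ∈ S, x j := sum_nonneg (fun j _ => hx0 j)
    have h2 := hx0 a
    have h3 := hx1 a
    have h4 : (1 - x a) * (1 - ∑ j ∈ S, x j) ≤ (1 - x a) * ∏ j ∈ S, (1 - x j) :=
      mul_le_mul_of_nonneg_left ih (by linarith)
    have h5 : 0 ≤ x a * ∑ j ∈ S, x j := mul_nonneg h2 h1
    have h6 : (1 - x a) * (1 - ∑ j ∈ S, x j) = 1 - (x a + ∑ j ∈ S, x j) + x a * ∑ j ∈ S, x j := by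
      ring
    linarith

private lemma prod_touch {ι : Type} [Fintype ι] [DecidableEq ι] (x : ι → ℝ) (hx0 : ∀ i, 0 ≤ x i)
    (hx1 : ∀ i, x i ≤ 1) (supp : ι → Finset V)
    (hsum : ∀ v, ∑ i ∈ univ.filter (fun i => v ∈ supp i), x i ≤ 1 / 2) (W : Finset V) :
    ∀ S : Finset ι, (∀ j ∈ S, ¬ Disjoint W (supp j)) →
      (1 / 2 : ℝ) ^ W.card ≤ ∏ j ∈ S, (1 - x j) := by
  induction W using Finset.induction_on with
  | empty =>
    intro S hS
    have : S = ∅ := by
      refine eq_empty_of_forall_notMem (fun j hj => ?_)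
      exact hS j hj (by simp)
    simp [this]
  | insert v W hv ih =>
    intro S hS
    rw [card_insert_of_notMem hv, pow_succ]
    rw [← prod_filter_mul_prod_filter_not S (fun j => v ∈ supp j)]
    have h1 := ih (S.filter (fun j => ¬ v ∈ supp j)) (by
      intro j hj
      have h2 := mem_filter.1 hj
      have h3 := hS j h2.1
      intro hd
      apply h3
      rw [disjoint_insert_left]
      exact ⟨h2.2, hd⟩)
    have h2 : (1 / 2 : ℝ) ≤ ∏ j ∈ S.filter (fun j => v ∈ supp j), (1 - x j) := by
      refine le_trans ?_ (one_sub_sum_le_prod' x hx0 hx1 _)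
      have h3 : ∑ j ∈ S.filter (fun j => v ∈ supp j), x j
          ≤ ∑ i ∈ univ.filter (fun i => v ∈ supp i), x i := by
        refine sum_le_sum_of_subset_of_nonneg ?_ (fun i _ _ => hx0 i)
        intro j hj
        exact mem_filter.2 ⟨mem_univ _, (mem_filter.1 hj).2⟩
      have := hsum v
      linarith
    rw [mul_comm]
    exact mul_le_mul h2 h1 (by positivity) (le_trans (by norm_num) h2)

section

variable {ι : Type} [Fintype ι] [DecidableEq ι] (A : ι → (V → K) → Prop)
    (supp : ι → Finset V) (hdep : ∀ i, Dep (A i) (supp i))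

private lemma avoid_insert (x : ι → ℝ) (j : ι) (T : Finset ι)
    (hj : P (fun φ => A j φ ∧ Avoid A T φ) ≤ x j * P (Avoid A T)) :
    (1 - x j) * P (Avoid A T) ≤ P (Avoid A (insert j T)) := by
  have h1 := P_split (A j) (Avoid A T)
  have h3 : P (Avoid A (insert j T)) = P (fun φ => ¬ A j φ ∧ Avoid A T φ) := by
    congr 1
    ext φ
    simp only [Avoid, Finset.forall_mem_insert]
  rw [h3]
  linarith

include hdep in
private lemma alll_key (x : ι → ℝ) (hx0 : ∀ i, 0 ≤ x i) (hx1 : ∀ i, x i ≤ 1)
    (hx : ∀ i, 2 ^ (supp i).card * P (A i) = x i)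
    (hsum : ∀ v, ∑ i ∈ univ.filter (fun i => v ∈ supp i), x i ≤ 1 / 2) :
    ∀ (N : ℕ) (T : Finset ι), T.card = N → ∀ i,
      P (fun φ => A i φ ∧ Avoid A T φ) ≤ x i * P (Avoid A T) := by
  intro N
  induction N using Nat.strong_induction_on with
  | _ N ih =>
    intro T hT i
    set T1 := T.filter (fun j => ¬ Disjoint (supp i) (supp j)) with hT1
    set T2 := T.filter (fun j => Disjoint (supp i) (supp j)) with hT2
    have hind : P (fun φ => A i φ ∧ Avoid A T2 φ) = P (A i) * P (Avoid A T2) := by
      refine P_indep (S := supp i) (T := T2.biUnion supp) (hdep i) (avoid_dep A supp hdep T2) ?_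
      rw [disjoint_biUnion_right]
      intro j hj
      exact (mem_filter.1 hj).2
    have hle : P (fun φ => A i φ ∧ Avoid A T φ) ≤ P (A i) * P (Avoid A T2) := by
      rw [← hind]
      exact P_mono (fun φ hφ => ⟨hφ.1, fun j hj => hφ.2 j (mem_filter.1 hj).1⟩)
    have hS : ∀ S : Finset ι, S ⊆ T1 →
        (∏ j ∈ S, (1 - x j)) * P (Avoid A T2) ≤ P (Avoid A (S ∪ T2)) := by
      intro S
      induction S using Finset.induction_on with
      | empty => simp
      | insert a S ha ihS =>
        intro hsub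
        have h1 := ihS (fun j hj => hsub (mem_insert_of_mem hj))
        have haT1 : a ∈ T1 := hsub (mem_insert_self a S)
        have haT : a ∈ T := (mem_filter.1 haT1).1
        have hanot : a ∉ S ∪ T2 := by
          intro h
          rcases mem_union.1 h with h | h
          · exact ha h
          · exact (mem_filter.1 haT1).2 (mem_filter.1 h).2
        have hcard : (S ∪ T2).card < N := by
          rw [← hT]
          refine card_lt_card ?_
          refine ⟨?_, fun h => hanot (h haT)⟩
          intro j hj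
          rcases mem_union.1 hj with h | h
          · exact (mem_filter.1 (hsub (mem_insert_of_mem h))).1
          · exact (mem_filter.1 h).1
        have h2 := avoid_insert A x a (S ∪ T2) (ih _ hcard (S ∪ T2) rfl a)
        rw [prod_insert ha, insert_union]
        calc (1 - x a) * (∏ j ∈ S, (1 - x j)) * P (Avoid A T2)
            = (1 - x a) * ((∏ j ∈ S, (1 - x j)) * P (Avoid A T2)) := by ring
          _ ≤ (1 - x a) * P (Avoid A (S ∪ T2)) :=
              mul_le_mul_of_nonneg_left h1 (by linarith [hx1 a])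
          _ ≤ _ := h2
    have hU : T1 ∪ T2 = T := by
      ext j
      simp only [hT1, hT2, mem_union, mem_filter]
      constructor
      · rintro (h | h)
        · exact h.1
        · exact h.1
      · intro h
        by_cases hd : Disjoint (supp i) (supp j)
        · exact Or.inr ⟨h, hd⟩
        · exact Or.inl ⟨h, hd⟩
    have h1 := hS T1 (Subset.refl _)
    rw [hU] at h1
    have h2 := prod_touch x hx0 hx1 supp hsum (supp i) T1 (fun j hj => (mem_filter.1 hj).2)
    have hP2 := P_nonneg (Avoid A T2)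
    have h3 : (1 / 2 : ℝ) ^ (supp i).card * P (Avoid A T2) ≤ P (Avoid A T) :=
      (mul_le_mul_of_nonneg_right h2 hP2).trans h1
    have h4 : P (A i) = x i * (1 / 2 : ℝ) ^ (supp i).card := by
      rw [← hx i]
      rw [mul_right_comm, ← mul_pow]
      norm_num
    calc P (fun φ => A i φ ∧ Avoid A T φ) ≤ P (A i) * P (Avoid A T2) := hle
      _ = x i * ((1 / 2 : ℝ) ^ (supp i).card * P (Avoid A T2)) := by rw [h4]; ring
      _ ≤ x i * P (Avoid A T) := mul_le_mul_of_nonneg_left h3 (hx0 i)

include hdep in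
private lemma alll_union (x : ι → ℝ) (hx0 : ∀ i, 0 ≤ x i) (hx1 : ∀ i, x i ≤ 1)
    (hx : ∀ i, 2 ^ (supp i).card * P (A i) = x i)
    (hsum : ∀ v, ∑ i ∈ univ.filter (fun i => v ∈ supp i), x i ≤ 1 / 2) (T : Finset ι) :
    ∀ S : Finset ι, (∏ j ∈ S, (1 - x j)) * P (Avoid A T) ≤ P (Avoid A (S ∪ T)) := by
  intro S
  induction S using Finset.induction_on with
  | empty => simp
  | insert a S ha ihS =>
    have h2 := avoid_insert A x a (S ∪ T) (alll_key A supp hdep x hx0 hx1 hx hsum _ (S ∪ T) rfl a)
    rw [prod_insert ha, insert_union]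
    calc (1 - x a) * (∏ j ∈ S, (1 - x j)) * P (Avoid A T)
        = (1 - x a) * ((∏ j ∈ S, (1 - x j)) * P (Avoid A T)) := by ring
      _ ≤ (1 - x a) * P (Avoid A (S ∪ T)) :=
          mul_le_mul_of_nonneg_left ihS (by linarith [hx1 a])
      _ ≤ _ := h2

end

open Classical in
theorem alll {ι : Type} [Fintype ι] [DecidableEq ι] (A : ι → (V → K) → Prop) (supp : ι → Finset V)
    (hdep : ∀ i, Dep (A i) (supp i)) (hne : ∀ i, (supp i).Nonempty)
    (hsum : ∀ v, ∑ i ∈ univ.filter (fun i => v ∈ supp i), 2 ^ (supp i).card * P (A i) ≤ 1 / 2) :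
    0 < P (Avoid A univ) ∧ ∀ (F : (V → K) → ℝ) (W : Finset V), (∀ φ, 0 ≤ F φ) → Dep F W →
      E (fun φ => F φ * (if Avoid A univ φ then 1 else 0)) ≤ 2 ^ W.card * E F * P (Avoid A univ) := by
  obtain ⟨x, hxdef⟩ : ∃ x : ι → ℝ, ∀ i, 2 ^ (supp i).card * P (A i) = x i := ⟨_, fun i => rfl⟩
  have hx0 : ∀ i, 0 ≤ x i := by
    intro i
    rw [← hxdef i]
    exact mul_nonneg (by positivity) (P_nonneg _)
  have hsum' : ∀ v, ∑ i ∈ univ.filter (fun i => v ∈ supp i), x i ≤ 1 / 2 := by
    intro v
    refine le_trans (le_of_eq ?_) (hsum v)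
    refine sum_congr ?_ (fun i _ => (hxdef i).symm)
    ext i
    simp
  have hxh : ∀ i, x i ≤ 1 / 2 := by
    intro i
    obtain ⟨v, hv⟩ := hne i
    refine le_trans ?_ (hsum' v)
    exact single_le_sum (f := x) (fun j _ => hx0 j) (mem_filter.2 ⟨mem_univ i, hv⟩)
  have hx1 : ∀ i, x i ≤ 1 := fun i => (hxh i).trans (by norm_num)
  have hA0 : P (Avoid A ∅) = 1 := by
    rw [← P_true (V := V) (κ := K)]
    congr 1
    ext φ
    simp [Avoid]
  constructor
  · have h1 := alll_union A supp hdep x hx0 hx1 hxdef hsum' ∅ univ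
    rw [hA0, mul_one, union_empty] at h1
    refine lt_of_lt_of_le (prod_pos (fun j _ => ?_)) h1
    linarith [hxh j]
  · intro F W hF hFW
    set S := univ.filter (fun j => ¬ Disjoint W (supp j)) with hS
    set T := univ.filter (fun j => Disjoint W (supp j)) with hT
    have hST : S ∪ T = univ := by
      ext j
      simp only [hS, hT, mem_union, mem_filter, mem_univ, true_and, iff_true]
      exact (_root_.em _).symm
    have h1 := alll_union A supp hdep x hx0 hx1 hxdef hsum' T S
    rw [hST] at h1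
    have h2 := prod_touch x hx0 hx1 supp hsum' W S (fun j hj => (mem_filter.1 hj).2)
    have hPT := P_nonneg (Avoid A T)
    have h3 : (1 / 2 : ℝ) ^ W.card * P (Avoid A T) ≤ P (Avoid A univ) :=
      (mul_le_mul_of_nonneg_right h2 hPT).trans h1
    have h4 : E (fun φ => F φ * (if Avoid A T φ then 1 else 0)) = E F * P (Avoid A T) := by
      unfold P
      rw [← E_mul (f := F) (h := fun φ => if Avoid A T φ then (1:ℝ) else 0) (S := W)
        (T := T.biUnion supp) hFW ?_ ?_]
      · intro φ ψ hv
        have := avoid_dep A supp hdep T φ ψ hv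
        simp only [this]
      · rw [disjoint_biUnion_right]
        intro j hj
        exact (mem_filter.1 hj).2
    have hEF : 0 ≤ E F := E_nonneg hF
    calc E (fun φ => F φ * (if Avoid A univ φ then 1 else 0))
        ≤ E (fun φ => F φ * (if Avoid A T φ then 1 else 0)) := by
          refine E_mono (fun φ => ?_)
          refine mul_le_mul_of_nonneg_left ?_ (hF φ)
          by_cases h : Avoid A univ φ
          · have h' : Avoid A T φ := fun j _ => h j (mem_univ _)
            simp [h, h']
          · simp only [h, if_false]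
            split_ifs <;> norm_num
      _ = E F * P (Avoid A T) := h4
      _ = 2 ^ W.card * E F * ((1 / 2 : ℝ) ^ W.card * P (Avoid A T)) := by
          have : (2 : ℝ) ^ W.card * (1 / 2 : ℝ) ^ W.card = 1 := by
            rw [← mul_pow]
            norm_num
          calc E F * P (Avoid A T) = (2 ^ W.card * (1 / 2 : ℝ) ^ W.card) * (E F * P (Avoid A T)) := by
                rw [this, one_mul]
            _ = _ := by ring
      _ ≤ 2 ^ W.card * E F * P (Avoid A univ) :=
          mul_le_mul_of_nonneg_left h3 (by positivity)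

end Pool.SCDH
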