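import Pool.Agent.Lib.SCDH.Defs
import Pool.Agent.Lib.SCDH.L01
import Pool.Agent.Lib.SCDH.L10

/-!
# Row L11 (paper scd_h36.md)
Chernoff bound under the local lemma distribution (for the outer part).
Recipe: exp(∑ w_v) = ∏ (1 + (e^(w_v) - 1)) = ∑ over W ⊆ I of ∏_{v ∈ W} (e^(w_v) - 1) (Finset.prod_one_add or prod_add); every term is ≥ 0 and depends on W; L10 gives ≤ 2^|W| ∏_{v∈W} E(e^(w_v) - 1) P(avoid) (E_prod); sum = ∏ (1 + 2 E(e^(w_v)-1)) ≤ exp(2 ∑ ..). Then Markov.
-/

set_option linter.unusedSectionVars false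
set_option linter.unusedVariables false

namespace Pool.SCDH

open Finset Pool.MP_0ccee8_co.Lib2

variable {V K : Type} [Fintype V] [DecidableEq V] [Fintype K] [Nonempty K]

theorem alll_chernoff {ι : Type} [Fintype ι] [DecidableEq ι] (A : ι → (V → K) → Prop) (supp : ι → Finset V)
    (hdep : ∀ i, Dep (A i) (supp i)) (hne : ∀ i, (supp i).Nonempty)
    (hsum : ∀ v, ∑ i ∈ univ.filter (fun i => v ∈ supp i), 2 ^ (supp i).card * P (A i) ≤ 1 / 2)
    (I : Finset V) (w : V → K → ℝ) (hw : ∀ v k, 0 ≤ w v k) (s : ℝ) :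
    P (fun φ => Avoid A univ φ ∧ s ≤ ∑ v ∈ I, w v (φ v)) ≤
      Real.exp (2 * ∑ v ∈ I, (E (fun φ : V → K => Real.exp (w v (φ v))) - 1) - s) * P (Avoid A univ) := by
  classical
  obtain ⟨h0, hL⟩ := alll A supp hdep hne hsum
  set a : V → (V → K) → ℝ := fun v φ => Real.exp (w v (φ v)) - 1 with ha
  have ha0 : ∀ v φ, 0 ≤ a v φ := fun v φ => by
    have := Real.one_le_exp (hw v (φ v))
    simp only [ha]
    linarith
  have hE : ∀ v, E (fun φ : V → K => Real.exp (w v (φ v))) - 1 = E (a v) := by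
    intro v
    rw [ha, E_sub, E_const]
  simp only [hE]
  -- the exponential moment
  have h1 : E (fun φ => Real.exp (∑ v ∈ I, w v (φ v)) * (if Avoid A univ φ then 1 else 0)) ≤
      Real.exp (2 * ∑ v ∈ I, E (a v)) * P (Avoid A univ) := by
    have h2 : ∀ φ : V → K, Real.exp (∑ v ∈ I, w v (φ v)) * (if Avoid A univ φ then (1 : ℝ) else 0) =
        ∑ W ∈ I.powerset, (∏ v ∈ W, a v φ) * (if Avoid A univ φ then 1 else 0) := by
      intro φ
      rw [Real.exp_sum, ← Finset.sum_mul]
      congr 1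
      have h3 : ∀ v ∈ I, Real.exp (w v (φ v)) = 1 + a v φ := by
        intro v _
        simp only [ha]
        ring
      rw [Finset.prod_congr rfl h3, Finset.prod_one_add]
    rw [E_congr h2, E_sum]
    have h4 : ∀ W ∈ I.powerset, E (fun φ => (∏ v ∈ W, a v φ) * (if Avoid A univ φ then 1 else 0)) ≤
        (∏ v ∈ W, (2 * E (a v))) * P (Avoid A univ) := by
      intro W _
      have h5 := hL (fun φ => ∏ v ∈ W, a v φ) W (fun φ => Finset.prod_nonneg fun v _ => ha0 v φ)
        (fun φ ψ h => Finset.prod_congr rfl fun v hv => by simp only [ha, h v hv])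
      have h6 : E (fun φ => ∏ v ∈ W, a v φ) = ∏ v ∈ W, E (a v) := by
        apply E_prod W (fun v => {v})
        · intro b _ c _ hbc
          exact Finset.disjoint_singleton.2 hbc
        · intro v _ φ ψ h
          simp only [ha, h v (Finset.mem_singleton_self v)]
      rw [h6] at h5
      rw [Finset.prod_mul_distrib, Finset.prod_const]
      exact h5
    refine (Finset.sum_le_sum h4).trans ?_
    rw [← Finset.sum_mul, ← Finset.prod_one_add, Finset.mul_sum, Real.exp_sum]
    apply mul_le_mul_of_nonneg_right _ h0.le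
    apply Finset.prod_le_prod
    · intro v _
      have := E_nonneg (ha0 v)
      positivity
    · intro v _
      rw [add_comm]
      exact Real.add_one_le_exp _
  -- Markov
  have h7 : P (fun φ => Avoid A univ φ ∧ s ≤ ∑ v ∈ I, w v (φ v)) ≤
      Real.exp (-s) * E (fun φ => Real.exp (∑ v ∈ I, w v (φ v)) *
        (if Avoid A univ φ then 1 else 0)) := by
    rw [← E_mul_left]
    unfold P
    apply E_mono
    intro φ
    by_cases h8 : Avoid A univ φ ∧ s ≤ ∑ v ∈ I, w v (φ v)
    · rw [if_pos h8, if_pos h8.1, mul_one, ← Real.exp_add]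
      apply Real.one_le_exp
      linarith [h8.2]
    · rw [if_neg h8]
      have : (0 : ℝ) ≤ if Avoid A univ φ then 1 else 0 := by split_ifs <;> norm_num
      positivity
  refine h7.trans ?_
  have h9 : Real.exp (2 * ∑ v ∈ I, E (a v) - s) = Real.exp (-s) * Real.exp (2 * ∑ v ∈ I, E (a v)) := by
    rw [← Real.exp_add]
    congr 1
    ring
  rw [h9, mul_assoc]
  exact mul_le_mul_of_nonneg_left h1 (Real.exp_pos _).le

end Pool.SCDH
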