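import Pool.Agent.Lib.SCDH.Defs

/-!
# Two consecutive levels of the Boolean lattice
-/

namespace Pool.SCDH

open Finset

/-- level `k` of the subsets of `Fin n` -/
abbrev Lv (n k : ℕ) : Type := {s : Finset (Fin n) // s.card = k}

/-- inclusion graph between two consecutive levels -/
def GLv (n k : ℕ) : Finset (Lv n k × Lv n (k + 1)) := univ.filter (fun e => e.1.1 ⊆ e.2.1)

/-- the underlying set -/
def fsv {n k : ℕ} : Lv n k ⊕ Lv n (k + 1) → Finset (Fin n)
  | .inl x => x.1
  | .inr y => y.1

/-- Hamming distance -/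
def hdist {n k : ℕ} (v u : Lv n k ⊕ Lv n (k + 1)) : ℕ := (symmDiff (fsv v) (fsv u)).card

end Pool.SCDH
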