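import Pool.Agent.Lib.SCDH.M6X

/-!
# Row M6Y (paper scd_h36.md)
mac6Y: as mac6X with the edges entering the certified set.
-/

set_option linter.unusedSectionVars false
set_option linter.unusedVariables false

namespace Pool.SCDH

open Finset Pool.MP_0ccee8_co.Lib2

variable {X Y : Type} [Fintype X] [DecidableEq X] [Fintype Y] [DecidableEq Y]
variable (D : Ctx X Y)

attribute [local irreducible] rW

theorem mac6Y_ok (hD : CtxOK D) (c : Fin D.B) : MacOK D (fun T φ => D.mac6Y φ T c) := by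
  classical
  -- the private reserve edges are the owned ones
  have hRg : ∀ (φ : D.Lbl) (T : Finset (X ⊕ Y)),
      (D.Rg φ c).filter (fun e => e.1 ∉ cX (D.Pg φ c) D.n T ∧ e.2 ∈ cY (D.Pg φ c) D.n T)
      = (D.F.filter (fun e => e.1 ∉ cX (D.Pg φ c) D.n T ∧ e.1 ∉ D.O.OX c ∧
        e.2 ∈ D.Sin φ c ∧ e.2 ∈ cY (D.Pg φ c) D.n T ∧ D.slot φ c e.2 < D.s + 1)).filter
          (fun e => D.own φ e = D.slot φ c e.2) := by
    intro φ T
    ext e
    simp only [Ctx.Rg, Ctx.Pv, mem_filter]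
    constructor
    · rintro ⟨⟨h1, h2, h3, h4⟩, h5, h6⟩
      refine ⟨⟨h1, h5, h2, h3, h6, ?_⟩, h4⟩
      rw [← h4]
      exact (φ (.inr e)).2.2.2.isLt
    · rintro ⟨⟨h1, h5, h2, h3, h6, h7⟩, h4⟩
      exact ⟨⟨h1, h2, h3, h4⟩, h5, h6⟩
  refine ⟨?_, ?_, ?_⟩
  · intro φ h
    have h1 := h.2
    have h2 : D.F.filter (fun e => e.1 ∉ cX (D.Pg φ c) D.n (∅ : Finset (X ⊕ Y)) ∧ e.1 ∉ D.O.OX c ∧
        e.2 ∈ D.Sin φ c ∧ e.2 ∈ cY (D.Pg φ c) D.n (∅ : Finset (X ⊕ Y)) ∧ D.slot φ c e.2 < D.s + 1) = ∅ := by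
      apply Finset.filter_false_of_mem
      intro e _ h3
      rw [(cX_empty (D.Pg φ c) D.n).2] at h3
      exact absurd h3.2.2.2.1 (Finset.notMem_empty _)
    rw [hRg, h2] at h1
    simp at h1
  · intro T φ φ' h
    obtain ⟨hc1, hc2⟩ := m6_cX_congr D hD T φ φ' c h
    have hb := cX_ball D.H.G (D.Pg φ c) (m6_Pg_sub D hD φ c) D.n T
    have hset : D.F.filter (fun e => e.1 ∉ cX (D.Pg φ c) D.n T ∧ e.1 ∉ D.O.OX c ∧
        e.2 ∈ D.Sin φ c ∧ e.2 ∈ cY (D.Pg φ c) D.n T ∧ D.slot φ c e.2 < D.s + 1)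
        = D.F.filter (fun e => e.1 ∉ cX (D.Pg φ' c) D.n T ∧ e.1 ∉ D.O.OX c ∧
        e.2 ∈ D.Sin φ' c ∧ e.2 ∈ cY (D.Pg φ' c) D.n T ∧ D.slot φ' c e.2 < D.s + 1) := by
      rw [← hc1, ← hc2]
      apply Finset.filter_congr
      intro e heF
      have heG : e ∈ D.H.G := hD.res.sub heF
      by_cases h1 : e.2 ∈ cY (D.Pg φ c) D.n T
      · have h2 : Sum.inr e.2 ∈ ball D.H.G (rW + 1) T := m6_ball_le (R := rW) (R' := rW + 1) (by omega) (hb.2 _ h1)
        have h3 : ∀ c' : Fin D.B, φ (.inl (c', e.2)) = φ' (.inl (c', e.2)) := by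
          intro c'
          apply h
          simp only [supT, mem_filter, mem_univ, true_and]
          exact m6_ball_le (R := (rW + 1)) (R' := (rW + 5)) (by omega) h2
        rw [m6_Sin_congr D c e.2 (h3 c), m6_slot_congr D c e.2 h3]
      · simp only [h1, false_and, and_false]
    have hset2 : (D.F.filter (fun e => e.1 ∉ cX (D.Pg φ c) D.n T ∧ e.1 ∉ D.O.OX c ∧
        e.2 ∈ D.Sin φ c ∧ e.2 ∈ cY (D.Pg φ c) D.n T ∧ D.slot φ c e.2 < D.s + 1)).filter
          (fun e => D.own φ e = D.slot φ c e.2)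
        = (D.F.filter (fun e => e.1 ∉ cX (D.Pg φ c) D.n T ∧ e.1 ∉ D.O.OX c ∧
        e.2 ∈ D.Sin φ c ∧ e.2 ∈ cY (D.Pg φ c) D.n T ∧ D.slot φ c e.2 < D.s + 1)).filter
          (fun e => D.own φ' e = D.slot φ' c e.2) := by
      apply Finset.filter_congr
      intro e he
      have heF := (mem_filter.1 he).1
      have h1 := (mem_filter.1 he).2.2.2.2.1
      have heG : e ∈ D.H.G := hD.res.sub heF
      have h2 : Sum.inr e.2 ∈ ball D.H.G (rW + 1) T := m6_ball_le (R := rW) (R' := rW + 1) (by omega) (hb.2 _ h1)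
      have h3 : ∀ c' : Fin D.B, φ (.inl (c', e.2)) = φ' (.inl (c', e.2)) := by
        intro c'
        apply h
        simp only [supT, mem_filter, mem_univ, true_and]
        exact m6_ball_le (R := (rW + 1)) (R' := (rW + 5)) (by omega) h2
      have h4 : φ (.inr e) = φ' (.inr e) := by
        apply h
        simp only [supT, mem_filter, mem_univ, true_and]
        exact ⟨m6_ball_le (R := rW + 1) (R' := (rW + 5)) (by omega)
          ((ball_edge D.H.G rW T e heG).2 (hb.2 _ h1)), heG⟩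
      rw [m6_slot_congr D c e.2 h3]
      unfold Ctx.own
      rw [h4]
    simp only [Ctx.mac6Y]
    rw [hRg φ T, hRg φ' T, hset2, hset]
  · intro T hT
    have h1 := m6_prob D hD c T hT
      (fun φ => D.F.filter (fun e => e.1 ∉ cX (D.Pg φ c) D.n T ∧ e.1 ∉ D.O.OX c ∧
        e.2 ∈ D.Sin φ c ∧ e.2 ∈ cY (D.Pg φ c) D.n T ∧ D.slot φ c e.2 < D.s + 1))
      (fun φ => Finset.filter_subset _ _)
      (by
        intro φ ψ
        rw [m6_mix_Pg D hD φ ψ c]
        apply Finset.filter_congr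
        intro e _
        rw [m6_Sin_congr D c e.2 (m6_mix_inl D φ ψ _), m6_slot_congr D c e.2 (fun c' => m6_mix_inl D φ ψ _)])
      (by
        intro φ e he
        exact (mem_filter.1 he).2.2.2.2.2)
    refine le_trans (P_mono (fun φ h => ?_)) h1
    refine ⟨h.1, ?_⟩
    rw [← hRg φ T]
    exact h.2

end Pool.SCDH
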