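import Pool.Agent.Lib.SCDH.MDefs
import Pool.Agent.Lib.SCDH.G01
import Pool.Agent.Lib.SCDH.G03
import Pool.Agent.Lib.SCDH.N01
import Pool.Agent.Lib.SCDH.N02
import Pool.Agent.Lib.SCDH.L01
import Pool.Agent.Lib.SCDH.L03

/-!
# Row PX6 (paper scd_h36.md)
Free neighbours of x: ≤ n candidates with probability 1/n^20: loc_rare.
-/

set_option linter.unusedSectionVars false
set_option linter.unusedVariables false

namespace Pool.SCDH

open Finset Pool.MP_0ccee8_co.Lib2

variable {X Y : Type} [Fintype X] [DecidableEq X] [Fintype Y] [DecidableEq Y]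
variable (D : Ctx X Y)

private theorem px6_degX (G : Finset (X × Y)) (x : X) :
    (univ.filter (fun y' : Y => (x, y') ∈ G)).card ≤ dgX G x := by
  unfold dgX eB
  refine Finset.card_le_card_of_injOn (fun y' => (x, y')) ?_ ?_
  · intro y' hy'
    have h : (x, y') ∈ G := (Finset.mem_filter.mp hy').2
    simp [h]
  · intro a _ b _ hab
    exact (Prod.mk.inj hab).2

/-- the variables that matter -/
private def px6I (c : Fin D.B) (x : X) : Finset D.Var :=
  (univ.filter (fun y' : Y => (x, y') ∈ D.H.G ∧ y' ∉ D.O.OY c)).map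
    ⟨fun y' => Sum.inl (c, y'), fun a b h => (Prod.mk.inj (Sum.inl.inj h)).2⟩

private theorem px6_eB (φ : D.Lbl) (c : Fin D.B) (x : X) :
    eB D.H.G {x} (D.Zs φ c) = ((px6I D c x).filter (fun w => ((φ w).2.1 : ℕ) = 0)).card := by
  unfold px6I eB Ctx.Zs
  rw [Finset.filter_map, Finset.card_map]
  refine Finset.card_bij' (fun e _ => e.2) (fun y' _ => (x, y')) ?_ ?_ ?_ ?_
  · rintro ⟨a, y'⟩ h
    simp only [Finset.mem_filter, Finset.mem_univ, true_and, Finset.mem_singleton] at h
    simp only [Finset.mem_filter, Finset.mem_univ, true_and, Function.comp,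
      Function.Embedding.coeFn_mk]
    obtain ⟨h1, h2, h3, h4⟩ := h
    subst h2
    exact ⟨⟨h1, h3⟩, h4⟩
  · intro y' h
    simp only [Finset.mem_filter, Finset.mem_univ, true_and, Function.comp,
      Function.Embedding.coeFn_mk] at h
    simp only [Finset.mem_filter, Finset.mem_univ, true_and, Finset.mem_singleton]
    exact ⟨h.1.1, h.1.2, h.2⟩
  · rintro ⟨a, y'⟩ h
    simp only [Finset.mem_filter, Finset.mem_univ, true_and, Finset.mem_singleton] at h
    rw [h.2.1]
  · intro y' _
    rfl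

private theorem px6_near (c : Fin D.B) (x : X) : px6I D c x ⊆ nearV D.B D.H.G (.inl x) := by
  classical
  intro w hw
  obtain ⟨y', hy', rfl⟩ := Finset.mem_map.mp hw
  have hx : (x, y') ∈ D.H.G := (Finset.mem_filter.mp hy').2.1
  have h0 : (Sum.inl x : X ⊕ Y) ∈ ball D.H.G 0 {Sum.inl x} := by simp [ball]
  have h1 : (Sum.inr y' : X ⊕ Y) ∈ ball D.H.G 1 {Sum.inl x} :=
    (ball_edge D.H.G 0 {Sum.inl x} (x, y') hx).1 h0
  have h4 : (Sum.inr y' : X ⊕ Y) ∈ ball D.H.G 4 {Sum.inl x} :=
    ball_mono D.H.G 1 4 (by norm_num) _ _ (Finset.Subset.refl _) h1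
  simp only [nearV, Finset.mem_filter, Finset.mem_univ, true_and, Function.Embedding.coeFn_mk]
  exact h4

theorem bX6_ok (hD : CtxOK D) (c : Fin D.B) (x : X) :
    Dep (fun φ : D.Lbl => D.bX6 φ c x) (nearV D.B D.H.G (.inl x)) ∧
    P (fun φ : D.Lbl => D.bX6 φ c x) ≤ Real.exp (-(4 * D.t)) := by
  classical
  constructor
  · intro φ ψ h
    have h1 : eB D.H.G {x} (D.Zs φ c) = eB D.H.G {x} (D.Zs ψ c) := by
      rw [px6_eB, px6_eB]
      congr 1
      refine Finset.filter_congr fun w hw => ?_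
      rw [h w (px6_near D c x hw)]
    change (D.t < eB D.H.G {x} (D.Zs φ c)) = (D.t < eB D.H.G {x} (D.Zs ψ c))
    rw [h1]
  · have ht := (ctx_t D hD).1
    have ht1 : (1 : ℝ) ≤ D.t := le_trans (by norm_num) ht
    have htn : 1 ≤ D.t := by exact_mod_cast ht1
    have hn := (ctx_n D hD).1
    have hn1 : (1 : ℝ) ≤ D.n := (one_le_pow₀ ht1).trans hn
    have hdeg := ctx_deg D hD
    have hz := (ctx_cards D hD).2.2.2.2.2.1
    have hI : ((px6I D c x).card : ℝ) ≤ (D.n : ℝ) := by
      have h1 : (px6I D c x).card ≤ D.d := by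
        unfold px6I
        rw [Finset.card_map]
        refine (Finset.card_le_card ?_).trans ((px6_degX D.H.G x).trans (D.H.degX x).le)
        intro y' hy'
        exact Finset.mem_filter.mpr ⟨Finset.mem_univ _, (Finset.mem_filter.mp hy').2.1⟩
      have h2 : ((px6I D c x).card : ℝ) ≤ (D.d : ℝ) := by exact_mod_cast h1
      exact h2.trans hdeg.2.2.1
    have key := loc_rare (V := D.Var) (K := D.Lab) (px6I D c x)
      (fun w φ => ((φ w).2.1 : ℕ) = 0) ?_ (fun _ _ => 1 / ((D.z : ℝ) + 1)) ?_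
      (1 / (D.n : ℝ) ^ 19) ?_ D.t htn ?_
    · have h1 : (fun φ : D.Lbl => D.bX6 φ c x) =
          fun φ : D.Lbl => D.t < ((px6I D c x).filter (fun w => ((φ w).2.1 : ℕ) = 0)).card := by
        funext φ
        change (D.t < eB D.H.G {x} (D.Zs φ c)) = _
        rw [px6_eB]
      rw [h1]
      refine key.trans (Real.exp_le_exp.mpr ?_)
      have : (0 : ℝ) ≤ D.t := Nat.cast_nonneg _
      linarith
    · intro b hb ψ φ φ' h
      simp only [mix_in hb]
      rw [h b (Finset.mem_singleton_self b)]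
    · intro b hb ψ
      simp only [mix_in hb]
      exact (P_z D b).le
    · intro ψ
      rw [Finset.sum_const, nsmul_eq_mul, hz]
      rw [mul_one_div, div_le_div_iff₀ (by positivity) (by positivity), one_mul]
      calc ((px6I D c x).card : ℝ) * (D.n : ℝ) ^ 19 ≤ (D.n : ℝ) * (D.n : ℝ) ^ 19 :=
            mul_le_mul_of_nonneg_right hI (by positivity)
        _ = (D.n : ℝ) ^ 20 := by ring
    · have h1 : 1 / (D.n : ℝ) ^ 19 ≤ 1 := by
        rw [div_le_one (by positivity)]
        exact one_le_pow₀ hn1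
      have h2 : (1000 : ℝ) ≤ D.t := le_trans (by norm_num) ht
      linarith

end Pool.SCDH
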