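import Pool.Agent.Lib.SCDH.RDefs
import Pool.Agent.Lib.SCDH.G01
import Pool.Agent.Lib.SCDH.G02
import Pool.Agent.Lib.SCDH.G03
import Pool.Agent.Lib.SCDH.G04
import Pool.Agent.Lib.SCDH.L01
import Pool.Agent.Lib.SCDH.L03
import Pool.Agent.Lib.SCDH.W02

/-!
# Row R01 (paper scd_h36.md)
Local events of the reserves.
Recipe: for fixed i < 2 t^20 (< m+1): dgX (Ecl i) x = number of e ∈ Gm at x with label i; labels uniform on Fin (m+1), probability 1/(2 t^21) = η/2 (P_coord). loc_tail, I = edges at x, W = η n (resp. η κ), s = √(ηn) t, s² ≥ 24 t W, s ≤ 2W (η κ ≥ t^29). Union over 2 t^20 values: exp(-5t) 2 t^20 ≤ exp(-3t). nearE_card: ball 1 {v} has ≤ n+1 vertices; nearE_mult: inl e.1 ∈ ball 1 {v} iff v ∈ ball 1 {inl e.1}. supE_card: (n+1)^(rW+2) n |T| ≤ n^1020 |T|.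
-/

set_option linter.unusedSectionVars false
set_option linter.unusedVariables false

namespace Pool.SCDH

open Finset Pool.MP_0ccee8_co.Lib2

attribute [local irreducible] rW

variable {X Y : Type} [Fintype X] [DecidableEq X] [Fintype Y] [DecidableEq Y]
variable {ε : ℝ} (R : RCtx X Y)

private theorem mean_term {m : ℕ} (I : Finset (X × Y)) (i : Fin (m + 1)) (e : X × Y) (he : e ∈ I)
    (ψ : X × Y → Fin (m + 1)) :
    P (fun φ : X × Y → Fin (m + 1) => mix I φ ψ e = i) = 1 / ((m : ℝ) + 1) := by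
  have h1 : P (fun φ : X × Y → Fin (m + 1) => mix I φ ψ e = i) =
      P (fun φ : X × Y → Fin (m + 1) => φ e ∈ ({i} : Finset (Fin (m + 1)))) := by
    unfold P
    refine E_congr fun φ => ?_
    beta_reduce
    rw [mix_in he]
    simp
  rw [h1, P_coord]
  simp

private theorem tail_gen {m : ℕ} (I : Finset (X × Y)) (i : Fin (m + 1)) (W : ℝ) (hW : 0 < W)
    (hI : (I.card : ℝ) ≤ W * ((m : ℝ) + 1)) (t : ℕ) (ht : 1 ≤ t) (s : ℝ) (hs : 0 ≤ s)
    (h1 : 24 * t * W ≤ s ^ 2) (h2 : s ≤ 2 * W) :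
    P (fun φ : X × Y → Fin (m + 1) => s < |((I.filter (fun e => (φ e : ℕ) = i)).card : ℝ) -
      1 / ((m : ℝ) + 1) * I.card|) ≤ Real.exp (-(5 * t)) := by
  set p : ℝ := 1 / ((m : ℝ) + 1) with hp
  have hp0 : 0 < p := by positivity
  have hp1 : p ≤ 1 := by
    rw [hp, div_le_one (by positivity)]
    have : (0 : ℝ) ≤ m := Nat.cast_nonneg m
    linarith
  have key := loc_tail I
    (fun (e : X × Y) (φ : X × Y → Fin (m + 1)) => (if φ e = i then (1 : ℝ) else 0) - p)
    (by
      intro e he ψ φ φ' h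
      simp only [mix_in he]
      rw [h e (mem_singleton_self e)])
    (by
      intro e _ φ
      split_ifs
      · rw [abs_of_nonneg (by linarith)]
        linarith
      · rw [zero_sub, abs_neg, abs_of_pos hp0]
        exact hp1)
    (by
      intro e he ψ
      rw [E_sub, E_const, E_P (fun φ : X × Y → Fin (m + 1) => mix I φ ψ e = i), mean_term I i e he ψ]
      ring)
    W hW
    (by
      intro ψ
      have e1 : ∀ e ∈ I, E (fun φ : X × Y → Fin (m + 1) =>
          ((if mix I φ ψ e = i then (1 : ℝ) else 0) - p) ^ 2) ≤ p := by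
        intro e he
        have e2 : ∀ φ : X × Y → Fin (m + 1),
            ((if mix I φ ψ e = i then (1 : ℝ) else 0) - p) ^ 2 =
            (if mix I φ ψ e = i then (1 - 2 * p) else 0) + p ^ 2 := by
          intro φ
          split_ifs <;> ring
        rw [E_congr e2, E_add, E_const, E_P (fun φ : X × Y → Fin (m + 1) => mix I φ ψ e = i),
          mean_term I i e he ψ, ← hp]
        nlinarith
      calc ∑ e ∈ I, E (fun φ : X × Y → Fin (m + 1) =>
          ((if mix I φ ψ e = i then (1 : ℝ) else 0) - p) ^ 2) ≤ ∑ e ∈ I, p := sum_le_sum e1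
        _ = I.card * p := by rw [sum_const, nsmul_eq_mul]
        _ ≤ W := by
          rw [hp, mul_one_div, div_le_iff₀ (by positivity)]
          exact hI)
    t ht s hs h1 h2
  refine le_trans (P_mono fun φ h => ?_) key
  have e3 : ∑ e ∈ I, ((if φ e = i then (1 : ℝ) else 0) - p) =
      ((I.filter (fun e => (φ e : ℕ) = i)).card : ℝ) - p * I.card := by
    rw [sum_sub_distrib, sum_const, nsmul_eq_mul, mul_comm p, ← sum_filter, sum_const, nsmul_eq_mul,
      mul_one]
    congr 3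
    ext e
    simp [Fin.ext_iff]
  rw [e3]
  exact h

private theorem dgX_Ecl (φ : X × Y → Fin (R.m + 1)) (i : ℕ) (x : X) :
    dgX (R.Ecl φ i) x = ((R.Gm.filter (fun e => e.1 = x)).filter (fun e => (φ e : ℕ) = i)).card := by
  unfold dgX eB RCtx.Ecl
  congr 1
  ext e
  simp only [mem_filter, mem_singleton, mem_univ, and_true]
  tauto

private theorem dgX_Gm (Γ : Finset (X × Y)) (x : X) :
    dgX Γ x = (Γ.filter (fun e => e.1 = x)).card := by
  unfold dgX eB
  congr 1
  ext e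
  simp only [mem_filter, mem_singleton, mem_univ, and_true]

private theorem dgY_Ecl (φ : X × Y → Fin (R.m + 1)) (i : ℕ) (y : Y) :
    dgY (R.Ecl φ i) y = ((R.Gm.filter (fun e => e.2 = y)).filter (fun e => (φ e : ℕ) = i)).card := by
  unfold dgY eB RCtx.Ecl
  congr 1
  ext e
  simp only [mem_filter, mem_singleton, mem_univ, true_and]
  tauto

private theorem dgY_Gm (Γ : Finset (X × Y)) (y : Y) :
    dgY Γ y = (Γ.filter (fun e => e.2 = y)).card := by
  unfold dgY eB
  congr 1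
  ext e
  simp only [mem_filter, mem_singleton, mem_univ, true_and]

private theorem eta_eq (hR : RCtxOK ε R) : eta R.t / 2 = 1 / ((R.m : ℝ) + 1) := by
  have h1 : ((R.m : ℝ) + 1) = 2 * (R.t : ℝ) ^ 21 := by exact_mod_cast hR.hm
  rw [h1, eta]
  field_simp

private theorem self_mem_ball (G : Finset (X × Y)) (v : X ⊕ Y) : v ∈ ball G 1 {v} := by
  simp [ball]

private theorem nbr_mem_ball (G : Finset (X × Y)) (e : X × Y) (he : e ∈ G) :
    (Sum.inl e.1 : X ⊕ Y) ∈ ball G 1 {Sum.inr e.2} := by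
  have := (ball_edge G 0 {Sum.inr e.2} e he).2
  simp only [ball, mem_singleton, forall_const] at this
  simpa [ball] using this

private theorem Dep_rb (hR : RCtxOK ε R) (v : X ⊕ Y) :
    Dep (fun φ : X × Y → Fin (R.m + 1) => R.rb φ v) (nearE R.H.G v) := by
  classical
  intro φ ψ h
  rcases v with x | y
  · have h1 : ∀ i, dgX (R.Ecl φ i) x = dgX (R.Ecl ψ i) x := by
      intro i
      rw [dgX_Ecl, dgX_Ecl]
      congr 1
      refine filter_congr fun e he => ?_
      rw [mem_filter] at he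
      rw [h e]
      rw [nearE, mem_filter]
      refine ⟨hR.sub he.1, ?_⟩
      rw [he.2]
      exact self_mem_ball _ _
    simp only [RCtx.rb, h1]
  · have h1 : ∀ i, dgY (R.Ecl φ i) y = dgY (R.Ecl ψ i) y := by
      intro i
      rw [dgY_Ecl, dgY_Ecl]
      congr 1
      refine filter_congr fun e he => ?_
      rw [mem_filter] at he
      rw [h e]
      rw [nearE, mem_filter]
      refine ⟨hR.sub he.1, ?_⟩
      have := nbr_mem_ball R.H.G e (hR.sub he.1)
      rw [he.2] at this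
      exact this
    simp only [RCtx.rb, h1]

private theorem fin_bound (hR : RCtxOK ε R) :
    (Fintype.card (Fin (2 * R.t ^ 20)) : ℝ) * Real.exp (-(5 * R.t)) ≤ Real.exp (-(3 * R.t)) := by
  have ht : (10 : ℝ) ^ 100 ≤ R.t := big_t hR.big
  have ht2 : (2 : ℝ) ≤ R.t := le_trans (by norm_num) ht
  have h1 := big_pow hR.big 21 (by norm_num)
  rw [Fintype.card_fin]
  push_cast
  calc 2 * (R.t : ℝ) ^ 20 * Real.exp (-(5 * R.t)) ≤ (R.t : ℝ) ^ 21 * Real.exp (-(5 * R.t)) := by
        have : 2 * (R.t : ℝ) ^ 20 ≤ (R.t : ℝ) ^ 21 := by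
          rw [pow_succ (R.t : ℝ) 20, mul_comm]
          gcongr
        gcongr
    _ ≤ Real.exp R.t * Real.exp (-(5 * R.t)) := by gcongr
    _ = Real.exp (-(4 * R.t)) := by
        rw [← Real.exp_add]
        congr 1
        ring
    _ ≤ Real.exp (-(3 * R.t)) := by
        apply Real.exp_le_exp.2
        linarith

private theorem sizes (hR : RCtxOK ε R) (k : ℝ) (hk : (R.t : ℝ) ^ 50 ≤ k) :
    0 < eta R.t * k ∧ 24 * R.t * (eta R.t * k) ≤ (Real.sqrt (eta R.t * k) * R.t) ^ 2 ∧
    Real.sqrt (eta R.t * k) * R.t ≤ 2 * (eta R.t * k) := by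
  have ht : (10 : ℝ) ^ 100 ≤ R.t := big_t hR.big
  have ht24 : (24 : ℝ) ≤ R.t := le_trans (by norm_num) ht
  have ht0 : (0 : ℝ) < R.t := by linarith
  have hk0 : 0 < k := lt_of_lt_of_le (by positivity) hk
  have heta : 0 < eta R.t := by
    unfold eta
    positivity
  have h0 : 0 < eta R.t * k := by positivity
  have hbig : (R.t : ℝ) ^ 2 ≤ eta R.t * k := by
    have : (R.t : ℝ) ^ 29 ≤ eta R.t * k := by
      unfold eta
      rw [one_div, inv_mul_eq_div, le_div_iff₀ (by positivity)]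
      calc (R.t : ℝ) ^ 29 * (R.t : ℝ) ^ 21 = (R.t : ℝ) ^ 50 := by ring
        _ ≤ k := hk
    refine le_trans ?_ this
    exact pow_le_pow_right₀ (by linarith) (by norm_num)
  refine ⟨h0, ?_, ?_⟩
  · rw [mul_pow, Real.sq_sqrt h0.le]
    nlinarith [mul_pos h0 ht0, mul_nonneg (mul_pos h0 ht0).le (sub_nonneg.2 ht24)]
  · have h3 : (R.t : ℝ) ≤ Real.sqrt (eta R.t * k) := Real.le_sqrt_of_sq_le hbig
    have h4 := Real.mul_self_sqrt h0.le
    have h5 : 0 ≤ Real.sqrt (eta R.t * k) := Real.sqrt_nonneg _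
    nlinarith [mul_le_mul_of_nonneg_left h3 h5]

theorem rb_ok (hR : RCtxOK ε R) (v : X ⊕ Y) :
    Dep (fun φ : X × Y → Fin (R.m + 1) => R.rb φ v) (nearE R.H.G v) ∧
    P (fun φ : X × Y → Fin (R.m + 1) => R.rb φ v) ≤ Real.exp (-(3 * R.t)) := by
  refine ⟨Dep_rb R hR v, ?_⟩
  have ht : (10 : ℝ) ^ 100 ≤ R.t := big_t hR.big
  have ht1 : 1 ≤ R.t := by
    have : (1 : ℝ) ≤ R.t := le_trans (by norm_num) ht
    exact_mod_cast this
  have hm1 : ((R.m : ℝ) + 1) = 2 * (R.t : ℝ) ^ 21 := by exact_mod_cast hR.hm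
  have hmn : ∀ i : Fin (2 * R.t ^ 20), (i : ℕ) < R.m + 1 := by
    intro i
    rw [hR.hm]
    calc (i : ℕ) < 2 * R.t ^ 20 := i.2
      _ ≤ 2 * R.t ^ 21 := by
        gcongr
        · norm_num
  have heta0 : (0 : ℝ) < (R.t : ℝ) ^ 21 := by positivity
  rcases v with x | y
  · simp only [RCtx.rb]
    refine le_trans (P_exists_le _ (Real.exp (-(5 * R.t))) fun i => ?_) (fin_bound R hR)
    have hk : (R.t : ℝ) ^ 50 ≤ R.n := by
      refine le_trans ?_ (rng_real hR.rng).1
      exact pow_le_pow_right₀ (by exact_mod_cast ht1) (by norm_num)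
    obtain ⟨hW, h1, h2⟩ := sizes R hR R.n hk
    have hI : ((R.Gm.filter (fun e => e.1 = x)).card : ℝ) ≤ eta R.t * R.n * ((R.m : ℝ) + 1) := by
      rw [← dgX_Gm]
      have e1 : dgX R.Gm x ≤ R.d := dgX_le R.H R.Gm hR.sub x
      have e2 : R.d ≤ R.n := R.H.hd2
      have e3 : (dgX R.Gm x : ℝ) ≤ R.n := by exact_mod_cast e1.trans e2
      have e4 : eta R.t * R.n * ((R.m : ℝ) + 1) = 2 * R.n := by
        rw [hm1]
        unfold eta
        field_simp
      rw [e4]
      have : (0 : ℝ) ≤ R.n := Nat.cast_nonneg _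
      linarith
    have key := tail_gen (m := R.m) (R.Gm.filter (fun e => e.1 = x)) ⟨i, hmn i⟩ (eta R.t * R.n) hW hI
      R.t ht1 (Real.sqrt (eta R.t * R.n) * R.t) (by positivity) h1 h2
    refine le_trans (P_mono fun φ h => ?_) key
    rw [← dgX_Gm, ← eta_eq R hR]
    rw [dgX_Ecl] at h
    exact h
  · simp only [RCtx.rb]
    refine le_trans (P_exists_le _ (Real.exp (-(5 * R.t))) fun i => ?_) (fin_bound R hR)
    have hk : (R.t : ℝ) ^ 50 ≤ R.κ := by exact_mod_cast hR.kap
    obtain ⟨hW, h1, h2⟩ := sizes R hR R.κ hk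
    have hI : ((R.Gm.filter (fun e => e.2 = y)).card : ℝ) ≤ eta R.t * R.κ * ((R.m : ℝ) + 1) := by
      rw [← dgY_Gm]
      have e1 : dgY R.Gm y ≤ R.κ := dgY_le R.H R.Gm hR.sub y
      have e3 : (dgY R.Gm y : ℝ) ≤ R.κ := by exact_mod_cast e1
      have e4 : eta R.t * R.κ * ((R.m : ℝ) + 1) = 2 * R.κ := by
        rw [hm1]
        unfold eta
        field_simp
      rw [e4]
      have : (0 : ℝ) ≤ R.κ := Nat.cast_nonneg _
      linarith
    have key := tail_gen (m := R.m) (R.Gm.filter (fun e => e.2 = y)) ⟨i, hmn i⟩ (eta R.t * R.κ) hW hI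
      R.t ht1 (Real.sqrt (eta R.t * R.κ) * R.t) (by positivity) h1 h2
    refine le_trans (P_mono fun φ h => ?_) key
    rw [← dgY_Gm, ← eta_eq R hR]
    rw [dgY_Ecl] at h
    exact h

private theorem n_big (hR : RCtxOK ε R) : 2000 ≤ R.n := by
  have h1 := (rng_real hR.rng).1
  have ht : (10 : ℝ) ^ 100 ≤ R.t := big_t hR.big
  have h2 : (R.t : ℝ) ≤ (R.t : ℝ) ^ 200 :=
    le_self_pow₀ (le_trans (by norm_num) ht) (by norm_num)
  have h3 : (2000 : ℝ) ≤ R.n := by
    refine le_trans ?_ (h2.trans h1)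
    exact le_trans (by norm_num) ht
  exact_mod_cast h3

open Classical in
private theorem edges_card (G : Finset (X × Y)) (D : ℕ) (hD : ∀ x, dgX G x ≤ D)
    (B : Finset (X ⊕ Y)) :
    (G.filter (fun e => Sum.inl e.1 ∈ B)).card ≤ B.card * D := by
  have h1 : G.filter (fun e => Sum.inl e.1 ∈ B) ⊆
      (univ.filter (fun x : X => (Sum.inl x : X ⊕ Y) ∈ B)).biUnion
        (fun x => G.filter (fun e => e.1 = x)) := by
    intro e he
    rw [mem_filter] at he
    rw [mem_biUnion]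
    exact ⟨e.1, mem_filter.2 ⟨mem_univ _, he.2⟩, mem_filter.2 ⟨he.1, rfl⟩⟩
  calc (G.filter (fun e => Sum.inl e.1 ∈ B)).card
      ≤ ((univ.filter (fun x : X => (Sum.inl x : X ⊕ Y) ∈ B)).biUnion
        (fun x => G.filter (fun e => e.1 = x))).card := card_le_card h1
    _ ≤ (univ.filter (fun x : X => (Sum.inl x : X ⊕ Y) ∈ B)).card * D := by
        refine card_biUnion_le_card_mul _ _ _ fun x _ => ?_
        rw [← dgX_Gm]
        exact hD x
    _ ≤ B.card * D := by
        gcongr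
        have : (univ.filter (fun x : X => (Sum.inl x : X ⊕ Y) ∈ B)).card =
            ((univ.filter (fun x : X => (Sum.inl x : X ⊕ Y) ∈ B)).image
              (Sum.inl : X → X ⊕ Y)).card := by
          rw [card_image_of_injective _ Sum.inl_injective]
        rw [this]
        apply card_le_card
        intro v hv
        rw [mem_image] at hv
        obtain ⟨x, hx, rfl⟩ := hv
        exact (mem_filter.1 hx).2

theorem nearE_card (hR : RCtxOK ε R) (v : X ⊕ Y) : (nearE R.H.G v).card ≤ R.n ^ 20 := by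
  classical
  have hn := n_big R hR
  have h1 := edges_card R.H.G R.d (fun x => (R.H.degX x).le) (ball R.H.G 1 {v})
  have h2 := ball_card R.H 1 {v}
  have h3 : nearE R.H.G v = R.H.G.filter (fun e => (Sum.inl e.1 : X ⊕ Y) ∈ ball R.H.G 1 {v}) := by
    unfold nearE
    congr
  rw [h3]
  refine h1.trans ?_
  have h4 : R.d ≤ R.n := R.H.hd2
  rw [card_singleton, mul_one, pow_one] at h2
  calc (ball R.H.G 1 {v}).card * R.d ≤ (R.n + 1) * R.n := by gcongr
    _ ≤ (R.n * R.n) * R.n := by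
        gcongr
        nlinarith
    _ = R.n ^ 3 := by ring
    _ ≤ R.n ^ 20 := Nat.pow_le_pow_right (by omega) (by norm_num)

theorem nearE_mult (hR : RCtxOK ε R) (e : X × Y) :
    (univ.filter (fun v : X ⊕ Y => e ∈ nearE R.H.G v)).card ≤ R.n ^ 20 := by
  classical
  have hn := n_big R hR
  have h1 : univ.filter (fun v : X ⊕ Y => e ∈ nearE R.H.G v) ⊆ ball R.H.G 1 {Sum.inl e.1} := by
    intro v hv
    rw [mem_filter, nearE, mem_filter] at hv
    exact (ball_symm R.H.G 1 _ _).1 hv.2.2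
  have h2 := ball_card R.H 1 {Sum.inl e.1}
  rw [card_singleton, mul_one, pow_one] at h2
  calc (univ.filter (fun v : X ⊕ Y => e ∈ nearE R.H.G v)).card
      ≤ (ball R.H.G 1 {Sum.inl e.1}).card := card_le_card h1
    _ ≤ R.n + 1 := h2
    _ ≤ R.n ^ 2 := by nlinarith
    _ ≤ R.n ^ 20 := Nat.pow_le_pow_right (by omega) (by norm_num)

private theorem succ_pow_le (n : ℕ) (hn : 2000 ≤ n) : (n + 1) ^ 1002 ≤ n ^ 1003 := by
  have hn' : (2000 : ℝ) ≤ n := by exact_mod_cast hn
  have hn0 : (0 : ℝ) < n := by linarith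
  have h1 : (1 + 1 / (n : ℝ)) ^ 1002 ≤ Real.exp 1 := by
    calc (1 + 1 / (n : ℝ)) ^ 1002 ≤ (Real.exp (1 / n)) ^ 1002 := by
          gcongr
          have := Real.add_one_le_exp (1 / (n : ℝ))
          linarith
      _ = Real.exp (1002 * (1 / n)) := by
          rw [← Real.exp_nat_mul]
          norm_num
      _ ≤ Real.exp 1 := by
          apply Real.exp_le_exp.2
          rw [mul_one_div, div_le_one hn0]
          linarith
  have h2 : Real.exp 1 ≤ n := by
    have := Real.exp_one_lt_d9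
    linarith
  have h3 : ((n : ℝ) + 1) ^ 1002 ≤ (n : ℝ) ^ 1003 := by
    calc ((n : ℝ) + 1) ^ 1002 = ((n : ℝ) * (1 + 1 / n)) ^ 1002 := by
          congr 1
          field_simp
      _ = (n : ℝ) ^ 1002 * (1 + 1 / (n : ℝ)) ^ 1002 := by rw [mul_pow]
      _ ≤ (n : ℝ) ^ 1002 * n := by
          gcongr
          exact h1.trans h2
      _ = (n : ℝ) ^ 1003 := by rw [pow_succ (n : ℝ) 1002]
  exact_mod_cast h3

theorem supE_card (hR : RCtxOK ε R) (T : Finset (X ⊕ Y)) : (supE R.H.G T).card ≤ R.n ^ 1022 * T.card := by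
  classical
  have hn := n_big R hR
  have h1 := edges_card R.H.G R.d (fun x => (R.H.degX x).le) (ball R.H.G (rW + 2) T)
  have h2 := ball_card R.H (rW + 2) T
  have h3 : supE R.H.G T = R.H.G.filter (fun e => (Sum.inl e.1 : X ⊕ Y) ∈ ball R.H.G (rW + 2) T) := by
    unfold supE
    congr
  rw [h3]
  refine h1.trans ?_
  have h4 : R.d ≤ R.n := R.H.hd2
  have h5 : rW + 2 = 1002 := by
    unfold rW
    norm_num
  rw [h5] at h2 ⊢
  calc (ball R.H.G 1002 T).card * R.d ≤ ((R.n + 1) ^ 1002 * T.card) * R.n :=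
        Nat.mul_le_mul h2 h4
    _ ≤ (R.n ^ 1003 * T.card) * R.n :=
        Nat.mul_le_mul_right _ (Nat.mul_le_mul_right _ (succ_pow_le R.n hn))
    _ = R.n ^ 1004 * T.card := by rw [mul_right_comm, ← pow_succ]
    _ ≤ R.n ^ 1022 * T.card :=
        Nat.mul_le_mul_right _ (Nat.pow_le_pow_right (by omega) (by norm_num))

end Pool.SCDH
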