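import Pool.Agent.Lib.SCDH.RDefs
import Pool.Agent.Lib.SCDH.G01
import Pool.Agent.Lib.SCDH.G02
import Pool.Agent.Lib.SCDH.G03
import Pool.Agent.Lib.SCDH.G04
import Pool.Agent.Lib.SCDH.L01
import Pool.Agent.Lib.SCDH.L04
import Pool.Agent.Lib.SCDH.W01
import Pool.Agent.Lib.SCDH.W02

/-!
# Row R02 (paper scd_h36.md)
rm1: the reserve sees the cuts certified by its class 2j.
Recipe: L04.halves with V = X × Y, K = Fin (m+1), I = Gm, k0 = {2j}, k1 = {2j, 2j+1} (j < t^20, so 2j+1 < m+1 = 2 t^21), p = η/2 = 1/(m+1), m S e = 1 if e is in the boundary of (cX S n T, cY S n T) and 0 otherwise, M = 1, R = n^37 |T| (Nτ = n^40). Sum over I of m = bd Gm, sum over k1 = bd (Fcl j), I.filter (label ∈ k0) = Ecl (2j). 4 bd F < η bd Gm iff 2 bd F < p bd Gm. P ≤ exp(-(η/2) n^37 |T|/8) ≤ exp(-5n|T|)/1 (η ≥ 1/n). T = ∅: both sets empty (cX_empty), 0 < 0 false. Dep: cX_local, and a boundary edge of Gm has an end in ball rW T, so e.1 ∈ ball (rW+1) T.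
-/

set_option linter.unusedSectionVars false
set_option linter.unusedVariables false

namespace Pool.SCDH

open Finset Pool.MP_0ccee8_co.Lib2

variable {X Y : Type} [Fintype X] [DecidableEq X] [Fintype Y] [DecidableEq Y]
variable {ε : ℝ} (R : RCtx X Y)

private lemma r02_bd (Γ : Finset (X × Y)) (A : Finset X) (N : Finset Y) :
    bd Γ A N = (Γ.filter (fun e => (e.1 ∈ A ∧ e.2 ∉ N) ∨ (e.1 ∉ A ∧ e.2 ∈ N))).card := by
  unfold bd eB
  rw [filter_or, card_union_of_disjoint]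
  · simp only [mem_compl]
  · rw [disjoint_left]
    intro e he he'
    rw [mem_filter] at he he'
    exact he'.2.1 he.2.1

/-- indicator of the boundary -/
private noncomputable def r02m (R : RCtx X Y) (T : Finset (X ⊕ Y)) (S : Finset (X × Y)) (e : X × Y) : ℝ :=
  if (e.1 ∈ cX S R.n T ∧ e.2 ∉ cY S R.n T) ∨ (e.1 ∉ cX S R.n T ∧ e.2 ∈ cY S R.n T) then 1 else 0

private lemma r02_supE (G : Finset (X × Y)) (T : Finset (X ⊕ Y)) (Q : ℕ) (hQ : Q = rW)
    (e : X × Y) (he : e ∈ G) (h : Sum.inl e.1 ∈ ball G Q T ∨ Sum.inr e.2 ∈ ball G Q T) :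
    e ∈ supE G T := by
  classical
  unfold supE
  rw [mem_filter, ← hQ]
  refine ⟨he, ?_⟩
  rcases h with h | h
  · exact ball_mono _ _ _ (by omega) _ _ (Subset.refl _) h
  · exact ball_mono _ _ _ (by omega) _ _ (Subset.refl _) ((ball_edge _ _ _ e he).2 h)

theorem rm1_ok (hR : RCtxOK ε R) (j : ℕ) (hj : j < R.t ^ 20) :
    (∀ φ, ¬ R.rm1 φ ∅ j) ∧ (∀ T, Dep (fun φ : X × Y → Fin (R.m + 1) => R.rm1 φ T j) (supE R.H.G T)) ∧
    ∀ T : Finset (X ⊕ Y), T.Nonempty →
      P (fun φ : X × Y → Fin (R.m + 1) => R.rm1 φ T j) ≤ Real.exp (-(5 * R.n * T.card)) := by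
  classical
  have ht := big_t hR.big
  have ht0 : (0 : ℝ) < R.t := lt_of_lt_of_le (by positivity) ht
  have htn : 1 ≤ R.t := by
    have : (1 : ℝ) ≤ R.t := le_trans (by norm_num) ht
    exact_mod_cast this
  obtain ⟨hn1, hn2⟩ := rng_real hR.rng
  have hsubE : ∀ (φ : X × Y → Fin (R.m + 1)) (i : ℕ), R.Ecl φ i ⊆ R.H.G := fun φ i =>
    (filter_subset _ _).trans hR.sub
  refine ⟨?_, ?_, ?_⟩
  · rintro φ ⟨-, h2⟩
    rw [(cX_empty _ _).1, (cX_empty _ _).2] at h2
    have h3 : ∀ Γ : Finset (X × Y), bd Γ (∅ : Finset X) (∅ : Finset Y) = 0 := by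
      intro Γ
      rw [r02_bd, card_eq_zero, filter_eq_empty_iff]
      intro e _
      simp
    rw [h3, h3, Nat.cast_zero, mul_zero, mul_zero] at h2
    exact absurd h2 (lt_irrefl _)
  · intro T φ ψ hag
    obtain ⟨Q, hQ⟩ : ∃ Q, Q = rW := ⟨_, rfl⟩
    have hC : cX (R.Ecl φ (2 * j)) R.n T = cX (R.Ecl ψ (2 * j)) R.n T ∧
        cY (R.Ecl φ (2 * j)) R.n T = cY (R.Ecl ψ (2 * j)) R.n T := by
      have hcl := cX_local R.H.G _ _ (hsubE φ (2 * j)) (hsubE ψ (2 * j)) R.n T
      rw [← hQ] at hcl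
      refine hcl ?_
      intro e he
      unfold RCtx.Ecl
      rw [mem_filter, mem_filter]
      refine and_congr_right fun heG => ?_
      rw [hag e (r02_supE _ _ Q hQ e (hR.sub heG) he)]
    have hB : bd (R.Fcl φ j) (cX (R.Ecl ψ (2 * j)) R.n T) (cY (R.Ecl ψ (2 * j)) R.n T)
        = bd (R.Fcl ψ j) (cX (R.Ecl ψ (2 * j)) R.n T) (cY (R.Ecl ψ (2 * j)) R.n T) := by
      rw [r02_bd, r02_bd]
      congr 1
      ext e
      unfold RCtx.Fcl
      simp only [mem_filter]
      have hkey : e ∈ R.Gm → ((e.1 ∈ cX (R.Ecl ψ (2 * j)) R.n T ∧ e.2 ∉ cY (R.Ecl ψ (2 * j)) R.n T) ∨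
          (e.1 ∉ cX (R.Ecl ψ (2 * j)) R.n T ∧ e.2 ∈ cY (R.Ecl ψ (2 * j)) R.n T)) → φ e = ψ e := by
        intro heG hb
        apply hag
        have hcb := cX_ball R.H.G _ (hsubE ψ (2 * j)) R.n T
        rw [← hQ] at hcb
        refine r02_supE _ _ Q hQ e (hR.sub heG) ?_
        rcases hb with hb | hb
        · exact Or.inl (hcb.1 _ hb.1)
        · exact Or.inr (hcb.2 _ hb.2)
      constructor
      · rintro ⟨⟨h1, h2⟩, h3⟩
        rw [hkey h1 h3] at h2
        exact ⟨⟨h1, h2⟩, h3⟩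
      · rintro ⟨⟨h1, h2⟩, h3⟩
        rw [← hkey h1 h3] at h2
        exact ⟨⟨h1, h2⟩, h3⟩
    change (R.rm1 φ T j) = (R.rm1 ψ T j)
    unfold RCtx.rm1
    rw [hC.1, hC.2, hB]
  · intro T hT
    have hTc : (1 : ℝ) ≤ T.card := by
      exact_mod_cast hT.card_pos
    have hn0 : (0 : ℝ) < R.n := lt_of_lt_of_le (by positivity) hn1
    have hm : R.m + 1 = 2 * R.t ^ 21 := hR.hm
    have hj1 : 2 * j + 1 < R.m + 1 := by
      have : R.t ^ 20 ≤ R.t ^ 21 := Nat.pow_le_pow_right htn (by norm_num)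
      omega
    have hcard : (Fintype.card (Fin (R.m + 1)) : ℝ) = 2 * (R.t : ℝ) ^ 21 := by
      rw [Fintype.card_fin]
      exact_mod_cast hm
    have key := halves (V := X × Y) (K := Fin (R.m + 1)) R.Gm
      (univ.filter (fun l : Fin (R.m + 1) => (l : ℕ) = 2 * j))
      (univ.filter (fun l : Fin (R.m + 1) => (l : ℕ) = 2 * j ∨ (l : ℕ) = 2 * j + 1))
      (by
        intro l hl
        rw [mem_filter] at hl ⊢
        exact ⟨hl.1, Or.inl hl.2⟩) (eta R.t / 2) (by unfold eta; positivity)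
      (by
        have h1 : (univ.filter (fun l : Fin (R.m + 1) => (l : ℕ) = 2 * j ∨ (l : ℕ) = 2 * j + 1)) \
            (univ.filter (fun l : Fin (R.m + 1) => (l : ℕ) = 2 * j)) = {⟨2 * j + 1, hj1⟩} := by
          ext l
          simp only [mem_sdiff, mem_filter, mem_univ, true_and, mem_singleton, Fin.ext_iff]
          omega
        rw [h1, card_singleton, hcard]
        unfold eta
        rw [Nat.cast_one]
        have : (R.t : ℝ) ^ 21 ≠ 0 := by positivity
        field_simp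
        exact le_refl _)
      (r02m R T) 1 one_pos
      (by
        intro S e
        unfold r02m
        split_ifs <;> norm_num) ((R.n : ℝ) ^ 37 * T.card)
    refine (P_mono ?_).trans (key.trans ?_)
    · intro φ hφ
      obtain ⟨h1, h2⟩ := hφ
      have hE : R.Gm.filter (fun v => φ v ∈ univ.filter (fun l : Fin (R.m + 1) => (l : ℕ) = 2 * j))
          = R.Ecl φ (2 * j) := by
        unfold RCtx.Ecl
        ext e
        simp only [mem_filter, mem_univ, true_and]
      rw [hE]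
      have hs1 : ∑ v ∈ R.Gm, r02m R T (R.Ecl φ (2 * j)) v =
          (bd R.Gm (cX (R.Ecl φ (2 * j)) R.n T) (cY (R.Ecl φ (2 * j)) R.n T) : ℝ) := by
        rw [r02_bd]
        unfold r02m
        rw [← Finset.sum_filter, sum_const, nsmul_eq_mul, mul_one]
      have hs2 : ∑ v ∈ R.Gm, (if φ v ∈ univ.filter (fun l : Fin (R.m + 1) => (l : ℕ) = 2 * j ∨ (l : ℕ) = 2 * j + 1)
          then r02m R T (R.Ecl φ (2 * j)) v else 0) =
          (bd (R.Fcl φ j) (cX (R.Ecl φ (2 * j)) R.n T) (cY (R.Ecl φ (2 * j)) R.n T) : ℝ) := by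
        rw [← Finset.sum_filter, r02_bd]
        unfold r02m RCtx.Fcl
        rw [← Finset.sum_filter, sum_const, nsmul_eq_mul, mul_one]
        simp only [mem_filter, mem_univ, true_and]
      rw [hs1, hs2]
      constructor
      · have hN : (Nτ R.n : ℝ) = (R.n : ℝ) ^ 3 * (R.n : ℝ) ^ 37 := by
          unfold Nτ
          push_cast
          ring
        rw [hN, mul_assoc] at h1
        exact le_of_mul_le_mul_left h1 (by positivity)
      · linarith
    · apply Real.exp_le_exp.2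
      apply neg_le_neg
      rw [le_div_iff₀ (by positivity)]
      have hn : (10 : ℝ) ^ 100 ≤ R.n := by
        calc (10 : ℝ) ^ 100 ≤ R.t := ht
          _ = (R.t : ℝ) ^ 1 := (pow_one _).symm
          _ ≤ (R.t : ℝ) ^ 200 := pow_le_pow_right₀ (le_trans (by norm_num) ht) (by norm_num)
          _ ≤ R.n := hn1
      have h21 : (R.t : ℝ) ^ 21 ≤ R.n :=
        (pow_le_pow_right₀ (le_trans (by norm_num) ht) (by norm_num)).trans hn1
      have he : 1 ≤ eta R.t * R.n := by
        unfold eta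
        rw [div_mul_eq_mul_div, one_mul, le_div_iff₀ (by positivity), one_mul]
        exact h21
      have h35 : (100 : ℝ) ≤ (R.n : ℝ) ^ 35 := by
        calc (100 : ℝ) ≤ R.n := le_trans (by norm_num) hn
          _ = (R.n : ℝ) ^ 1 := (pow_one _).symm
          _ ≤ (R.n : ℝ) ^ 35 := pow_le_pow_right₀ (le_trans (by norm_num) hn) (by norm_num)
      have hnT : (0 : ℝ) ≤ R.n * T.card := by positivity
      calc 5 * (R.n : ℝ) * T.card * (8 * 1) = (R.n * T.card) * 40 := by ring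
        _ ≤ (R.n * T.card) * ((R.n : ℝ) ^ 35 / 2) := by
            apply mul_le_mul_of_nonneg_left _ hnT
            linarith
        _ = 1 * ((R.n : ℝ) ^ 36 * T.card / 2) := by ring
        _ ≤ (eta R.t * R.n) * ((R.n : ℝ) ^ 36 * T.card / 2) := by
            apply mul_le_mul_of_nonneg_right he (by positivity)
        _ = eta R.t / 2 * ((R.n : ℝ) ^ 37 * T.card) := by ring

end Pool.SCDH
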