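import Pool.Agent.Lib.SCDH.RDefs
import Pool.Agent.Lib.SCDH.G01
import Pool.Agent.Lib.SCDH.G02
import Pool.Agent.Lib.SCDH.G03
import Pool.Agent.Lib.SCDH.G04
import Pool.Agent.Lib.SCDH.L01
import Pool.Agent.Lib.SCDH.L02
import Pool.Agent.Lib.SCDH.W01
import Pool.Agent.Lib.SCDH.W02

/-!
# Row R03 (paper scd_h36.md)
rm2X, rm2Y: degree sums of a reserve on sets certified by the host (deterministic sets).
-/

set_option linter.unusedSectionVars false
set_option linter.unusedVariables false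

namespace Pool.SCDH

open Finset Pool.MP_0ccee8_co.Lib2

attribute [local irreducible] rW

variable {X Y : Type} [Fintype X] [DecidableEq X] [Fintype Y] [DecidableEq Y]
variable {ε : ℝ} (R : RCtx X Y)

/-- the term of the edge `e` -/
private noncomputable def r3t (j : ℕ) (e : X × Y) (φ : X × Y → Fin (R.m + 1)) : ℝ :=
  (if (φ e : ℕ) = 2 * j ∨ (φ e : ℕ) = 2 * j + 1 then (1 : ℝ) else 0) - eta R.t

private theorem r3_eta (hR : RCtxOK ε R) : 0 < eta R.t ∧ eta R.t ≤ 1 ∧ (1 : ℝ) ≤ R.t := by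
  have h1 := big_t hR.big
  have h2 : (1 : ℝ) ≤ R.t := le_trans (by norm_num) h1
  refine ⟨?_, ?_, h2⟩
  · unfold eta
    positivity
  · unfold eta
    rw [div_le_one (by positivity)]
    exact one_le_pow₀ h2

private theorem r3_abs (hR : RCtxOK ε R) (j : ℕ) (e : X × Y) (φ : X × Y → Fin (R.m + 1)) :
    |r3t R j e φ| ≤ 1 := by
  obtain ⟨h1, h2, -⟩ := r3_eta R hR
  unfold r3t
  split_ifs
  · rw [abs_of_nonneg (by linarith)]
    linarith
  · rw [zero_sub, abs_neg, abs_of_pos h1]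
    exact h2

private theorem r3_mean (hR : RCtxOK ε R) (j : ℕ) (hj : j < R.t ^ 20) (e : X × Y) :
    E (fun φ : X × Y → Fin (R.m + 1) => r3t R j e φ) = 0 := by
  obtain ⟨-, -, ht⟩ := r3_eta R hR
  have ht1 : 1 ≤ R.t := by exact_mod_cast ht
  have hm := hR.hm
  have h0 : R.t ^ 20 ≤ R.t ^ 21 := Nat.pow_le_pow_right ht1 (by norm_num)
  have h1 : 2 * j + 1 < R.m + 1 := by omega
  have h2 : 2 * j < R.m + 1 := by omega
  unfold r3t
  rw [E_sub, E_const, E_P (fun φ : X × Y → Fin (R.m + 1) => (φ e : ℕ) = 2 * j ∨ (φ e : ℕ) = 2 * j + 1) 1]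
  have h3 : P (fun φ : X × Y → Fin (R.m + 1) => (φ e : ℕ) = 2 * j ∨ (φ e : ℕ) = 2 * j + 1) = eta R.t := by
    have h4 := P_coord (K := Fin (R.m + 1)) e
      ({⟨2 * j, h2⟩, ⟨2 * j + 1, h1⟩} : Finset (Fin (R.m + 1)))
    have h5 : (fun φ : X × Y → Fin (R.m + 1) => (φ e : ℕ) = 2 * j ∨ (φ e : ℕ) = 2 * j + 1)
        = fun φ : X × Y → Fin (R.m + 1) => φ e ∈ ({⟨2 * j, h2⟩, ⟨2 * j + 1, h1⟩} : Finset (Fin (R.m + 1))) := by
      funext φ
      simp only [Finset.mem_insert, Finset.mem_singleton, Fin.ext_iff]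
    rw [h5, h4]
    rw [Finset.card_pair (by
      intro h
      have := congrArg Fin.val h
      simp at this)]
    rw [Fintype.card_fin]
    have h6 : ((R.m + 1 : ℕ) : ℝ) = 2 * (R.t : ℝ) ^ 21 := by exact_mod_cast hm
    rw [h6]
    unfold eta
    have h7 : (0 : ℝ) < (R.t : ℝ) ^ 21 := by positivity
    field_simp
    norm_num
  rw [h3]
  ring

private theorem r3_prob (hR : RCtxOK ε R) (j : ℕ) (hj : j < R.t ^ 20) (S : Finset (X × Y))
    (T : Finset (X ⊕ Y)) (hT : T.Nonempty) (hS : (S.card : ℝ) ≤ (R.n : ℝ) ^ 16 * szT R.H.G R.n T) :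
    P (fun φ : X × Y → Fin (R.m + 1) => lam R.n * szT R.H.G R.n T < |∑ e ∈ S, r3t R j e φ|)
      ≤ Real.exp (-(5 * R.n * T.card)) := by
  have ht := big_t hR.big
  obtain ⟨hn1, hn2⟩ := rng_real hR.rng
  have ht1 : (1 : ℝ) ≤ R.t := le_trans (by norm_num) ht
  have hnr : (3 : ℝ) ≤ R.n := by
    have h1 : (3 : ℝ) ≤ (R.t : ℝ) ^ 200 := by
      calc (3 : ℝ) ≤ R.t := le_trans (by norm_num) ht
        _ = (R.t : ℝ) ^ 1 := (pow_one _).symm
        _ ≤ (R.t : ℝ) ^ 200 := pow_le_pow_right₀ ht1 (by norm_num)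
    linarith
  have hn : 3 ≤ R.n := by exact_mod_cast hnr
  have hk : 1 ≤ T.card := hT.card_pos
  have h1 := macro_tail (V := X × Y) (K := Fin (R.m + 1)) R.n T.card hn hk S
    (fun e φ => r3t R j e φ)
    (by
      intro b hb ψ φ φ' h
      have h2 := h b (mem_singleton_self _)
      simp only [r3t, mix, hb, if_true]
      rw [h2])
    (by
      intro b _ ψ
      refine (r3_abs R hR j b ψ).trans ?_
      exact one_le_pow₀ (by linarith))
    (by
      intro b hb ψ
      have h2 : ∀ φ : X × Y → Fin (R.m + 1), r3t R j b (mix S φ ψ) = r3t R j b φ := by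
        intro φ
        simp only [r3t, mix, hb, if_true]
      rw [E_congr h2]
      exact r3_mean R hR j hj b)
    (fun _ => szT R.H.G R.n T) (fun _ _ => rfl)
    (by
      intro _
      unfold szT Nτ
      push_cast
      have h2 : (0 : ℝ) ≤ (cX R.H.G R.n T).card := by positivity
      have h3 : (0 : ℝ) ≤ (cY R.H.G R.n T).card := by positivity
      have h4 : (0 : ℝ) ≤ (R.n : ℝ) ^ 40 * T.card := by positivity
      linarith)
    (by
      intro ψ
      refine le_trans ?_ hS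
      calc ∑ b ∈ S, E (fun φ : X × Y → Fin (R.m + 1) => (r3t R j b (mix S φ ψ)) ^ 2)
          ≤ ∑ _b ∈ S, (1 : ℝ) := by
            refine Finset.sum_le_sum (fun b _ => ?_)
            rw [← E_const (V := X × Y) (κ := Fin (R.m + 1)) (1 : ℝ)]
            refine E_mono (fun φ => ?_)
            have h2 := r3_abs R hR j b (mix S φ ψ)
            rw [← sq_abs]
            exact pow_le_one₀ (abs_nonneg _) h2
        _ = S.card := by simp)
  have h2 : P (fun φ : X × Y → Fin (R.m + 1) => lam R.n * szT R.H.G R.n T < |∑ e ∈ S, r3t R j e φ|)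
      ≤ P (fun φ : X × Y → Fin (R.m + 1) => szT R.H.G R.n T / (R.n : ℝ) ^ 6 < |∑ e ∈ S, r3t R j e φ|) := by
    refine P_mono (fun φ h => ?_)
    unfold lam at h
    rw [div_mul_eq_mul_div, one_mul] at h
    exact h
  refine (h2.trans h1).trans ?_
  apply Real.exp_le_exp.2
  have h3 : (0 : ℝ) ≤ R.n * T.card := by positivity
  nlinarith

/-- degree sums as sums over edges -/
private theorem r3_sumX (j : ℕ) (φ : X × Y → Fin (R.m + 1)) (A : Finset X) :
    ∑ x ∈ A, ((dgX (R.Fcl φ j) x : ℝ) - eta R.t * dgX R.Gm x)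
      = ∑ e ∈ R.Gm.filter (fun e => e.1 ∈ A), r3t R j e φ := by
  have h1 : ∀ Γ : Finset (X × Y), ∑ x ∈ A, (dgX Γ x : ℝ) = ((Γ.filter (fun e => e.1 ∈ A)).card : ℝ) := by
    intro Γ
    have h2 := eB_sumX Γ A univ
    have h3 : ∑ x ∈ A, (dgX Γ x : ℝ) = ((∑ x ∈ A, eB Γ {x} univ : ℕ) : ℝ) := by
      push_cast
      rfl
    rw [h3, ← h2]
    unfold eB
    simp only [mem_univ, and_true]
  rw [Finset.sum_sub_distrib, ← Finset.mul_sum, h1, h1]
  unfold r3t
  rw [Finset.sum_sub_distrib, Finset.sum_const, nsmul_eq_mul, Finset.sum_boole]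
  have h4 : (R.Fcl φ j).filter (fun e => e.1 ∈ A) = (R.Gm.filter (fun e => e.1 ∈ A)).filter
      (fun e => (φ e : ℕ) = 2 * j ∨ (φ e : ℕ) = 2 * j + 1) := by
    unfold RCtx.Fcl
    rw [Finset.filter_filter, Finset.filter_filter]
    congr 1
    funext e
    exact propext and_comm
  rw [h4]
  ring

private theorem r3_sumY (j : ℕ) (φ : X × Y → Fin (R.m + 1)) (N : Finset Y) :
    ∑ y ∈ N, ((dgY (R.Fcl φ j) y : ℝ) - eta R.t * dgY R.Gm y)
      = ∑ e ∈ R.Gm.filter (fun e => e.2 ∈ N), r3t R j e φ := by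
  have h1 : ∀ Γ : Finset (X × Y), ∑ y ∈ N, (dgY Γ y : ℝ) = ((Γ.filter (fun e => e.2 ∈ N)).card : ℝ) := by
    intro Γ
    have h2 := eB_sumY Γ univ N
    have h3 : ∑ y ∈ N, (dgY Γ y : ℝ) = ((∑ y ∈ N, eB Γ univ {y} : ℕ) : ℝ) := by
      push_cast
      rfl
    rw [h3, ← h2]
    unfold eB
    simp only [mem_univ, true_and]
  rw [Finset.sum_sub_distrib, ← Finset.mul_sum, h1, h1]
  unfold r3t
  rw [Finset.sum_sub_distrib, Finset.sum_const, nsmul_eq_mul, Finset.sum_boole]
  have h4 : (R.Fcl φ j).filter (fun e => e.2 ∈ N) = (R.Gm.filter (fun e => e.2 ∈ N)).filter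
      (fun e => (φ e : ℕ) = 2 * j ∨ (φ e : ℕ) = 2 * j + 1) := by
    unfold RCtx.Fcl
    rw [Finset.filter_filter, Finset.filter_filter]
    congr 1
    funext e
    exact propext and_comm
  rw [h4]
  ring

private theorem r3_szT (T : Finset (X ⊕ Y)) : 0 ≤ szT R.H.G R.n T := by
  unfold szT
  positivity

private theorem r3_ball {G : Finset (X × Y)} {a b : ℕ} (h : a ≤ b) {T : Finset (X ⊕ Y)} {v : X ⊕ Y}
    (hv : v ∈ ball G a T) : v ∈ ball G b T :=
  Finset.mem_of_subset (ball_mono G a b h T T (Finset.Subset.refl _)) hv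

theorem rm2X_ok (hR : RCtxOK ε R) (j : ℕ) (hj : j < R.t ^ 20) :
    (∀ φ, ¬ R.rm2X φ ∅ j) ∧ (∀ T, Dep (fun φ : X × Y → Fin (R.m + 1) => R.rm2X φ T j) (supE R.H.G T)) ∧
    ∀ T : Finset (X ⊕ Y), T.Nonempty →
      P (fun φ : X × Y → Fin (R.m + 1) => R.rm2X φ T j) ≤ Real.exp (-(5 * R.n * T.card)) := by
  have ht := big_t hR.big
  obtain ⟨hn1, hn2⟩ := rng_real hR.rng
  have ht1 : (1 : ℝ) ≤ R.t := le_trans (by norm_num) ht
  have hn0 : (1 : ℝ) ≤ R.n := by
    have h1 : (1 : ℝ) ≤ (R.t : ℝ) ^ 200 := one_le_pow₀ ht1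
    linarith
  refine ⟨?_, ?_, ?_⟩
  · intro φ h
    unfold RCtx.rm2X at h
    rw [(cX_empty R.H.G R.n).1, Finset.sum_empty, abs_zero] at h
    have h1 : 0 ≤ lam R.n * szT R.H.G R.n ∅ := by
      refine mul_nonneg ?_ (r3_szT R ∅)
      unfold lam
      positivity
    linarith
  · intro T φ φ' h
    simp only [RCtx.rm2X]
    rw [r3_sumX, r3_sumX]
    have h1 : ∑ e ∈ R.Gm.filter (fun e => e.1 ∈ cX R.H.G R.n T), r3t R j e φ
        = ∑ e ∈ R.Gm.filter (fun e => e.1 ∈ cX R.H.G R.n T), r3t R j e φ' := by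
      refine Finset.sum_congr rfl (fun e he => ?_)
      have h2 : φ e = φ' e := by
        apply h
        simp only [supE, mem_filter]
        refine ⟨hR.sub (mem_filter.1 he).1, ?_⟩
        exact r3_ball (a := rW) (b := rW + 2) (by omega)
          ((cX_ball R.H.G R.H.G (Finset.Subset.refl _) R.n T).1 _ (mem_filter.1 he).2)
      simp only [r3t, h2]
    rw [h1]
  · intro T hT
    have h1 := r3_prob R hR j hj (R.Gm.filter (fun e => e.1 ∈ cX R.H.G R.n T)) T hT
      (by
        have h2 : ((R.Gm.filter (fun e => e.1 ∈ cX R.H.G R.n T)).card : ℝ)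
            ≤ R.n * (cX R.H.G R.n T).card := by
          have h3 : (R.Gm.filter (fun e => e.1 ∈ cX R.H.G R.n T)).card
              = ∑ x ∈ cX R.H.G R.n T, dgX R.Gm x := by
            have h4 := eB_sumX R.Gm (cX R.H.G R.n T) univ
            unfold dgX
            rw [← h4]
            unfold eB
            simp only [mem_univ, and_true]
          rw [h3]
          push_cast
          calc ∑ x ∈ cX R.H.G R.n T, (dgX R.Gm x : ℝ) ≤ ∑ _x ∈ cX R.H.G R.n T, (R.n : ℝ) := by
                refine Finset.sum_le_sum (fun x _ => ?_)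
                have h5 := (dgX_le R.H R.Gm hR.sub x).trans R.H.hd2
                exact_mod_cast h5
            _ = R.n * (cX R.H.G R.n T).card := by
                rw [Finset.sum_const, nsmul_eq_mul]
                ring
        refine h2.trans ?_
        have h6 : ((cX R.H.G R.n T).card : ℝ) ≤ szT R.H.G R.n T := by
          unfold szT
          have h7 : (0 : ℝ) ≤ (cY R.H.G R.n T).card := by positivity
          have h8 : (0 : ℝ) ≤ (Nτ R.n : ℝ) * T.card := by positivity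
          linarith
        have h9 : (R.n : ℝ) ≤ (R.n : ℝ) ^ 16 := by
          calc (R.n : ℝ) = (R.n : ℝ) ^ 1 := (pow_one _).symm
            _ ≤ (R.n : ℝ) ^ 16 := pow_le_pow_right₀ hn0 (by norm_num)
        exact mul_le_mul h9 h6 (by positivity) (by positivity))
    refine le_trans (P_mono (fun φ h => ?_)) h1
    unfold RCtx.rm2X at h
    rw [r3_sumX] at h
    exact h

theorem rm2Y_ok (hR : RCtxOK ε R) (j : ℕ) (hj : j < R.t ^ 20) :
    (∀ φ, ¬ R.rm2Y φ ∅ j) ∧ (∀ T, Dep (fun φ : X × Y → Fin (R.m + 1) => R.rm2Y φ T j) (supE R.H.G T)) ∧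
    ∀ T : Finset (X ⊕ Y), T.Nonempty →
      P (fun φ : X × Y → Fin (R.m + 1) => R.rm2Y φ T j) ≤ Real.exp (-(5 * R.n * T.card)) := by
  have ht := big_t hR.big
  obtain ⟨hn1, hn2⟩ := rng_real hR.rng
  have ht1 : (1 : ℝ) ≤ R.t := le_trans (by norm_num) ht
  have hn0 : (1 : ℝ) ≤ R.n := by
    have h1 : (1 : ℝ) ≤ (R.t : ℝ) ^ 200 := one_le_pow₀ ht1
    linarith
  refine ⟨?_, ?_, ?_⟩
  · intro φ h
    unfold RCtx.rm2Y at h
    rw [(cX_empty R.H.G R.n).2, Finset.sum_empty, abs_zero] at h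
    have h1 : 0 ≤ lam R.n * szT R.H.G R.n ∅ := by
      refine mul_nonneg ?_ (r3_szT R ∅)
      unfold lam
      positivity
    linarith
  · intro T φ φ' h
    simp only [RCtx.rm2Y]
    rw [r3_sumY, r3_sumY]
    have h1 : ∑ e ∈ R.Gm.filter (fun e => e.2 ∈ cY R.H.G R.n T), r3t R j e φ
        = ∑ e ∈ R.Gm.filter (fun e => e.2 ∈ cY R.H.G R.n T), r3t R j e φ' := by
      refine Finset.sum_congr rfl (fun e he => ?_)
      have h2 : φ e = φ' e := by
        apply h
        simp only [supE, mem_filter]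
        have heG := hR.sub (mem_filter.1 he).1
        refine ⟨heG, ?_⟩
        exact r3_ball (a := rW + 1) (b := rW + 2) (by omega)
          ((ball_edge R.H.G rW T e heG).2
            ((cX_ball R.H.G R.H.G (Finset.Subset.refl _) R.n T).2 _ (mem_filter.1 he).2))
      simp only [r3t, h2]
    rw [h1]
  · intro T hT
    have h1 := r3_prob R hR j hj (R.Gm.filter (fun e => e.2 ∈ cY R.H.G R.n T)) T hT
      (by
        have h2 : ((R.Gm.filter (fun e => e.2 ∈ cY R.H.G R.n T)).card : ℝ)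
            ≤ R.n * (cY R.H.G R.n T).card := by
          have h3 : (R.Gm.filter (fun e => e.2 ∈ cY R.H.G R.n T)).card
              = ∑ y ∈ cY R.H.G R.n T, dgY R.Gm y := by
            have h4 := eB_sumY R.Gm univ (cY R.H.G R.n T)
            unfold dgY
            rw [← h4]
            unfold eB
            simp only [mem_univ, true_and]
          rw [h3]
          push_cast
          calc ∑ y ∈ cY R.H.G R.n T, (dgY R.Gm y : ℝ) ≤ ∑ _y ∈ cY R.H.G R.n T, (R.n : ℝ) := by
                refine Finset.sum_le_sum (fun y _ => ?_)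
                have h5 := ((dgY_le R.H R.Gm hR.sub y).trans R.H.hκd).trans R.H.hd2
                exact_mod_cast h5
            _ = R.n * (cY R.H.G R.n T).card := by
                rw [Finset.sum_const, nsmul_eq_mul]
                ring
        refine h2.trans ?_
        have h6 : ((cY R.H.G R.n T).card : ℝ) ≤ szT R.H.G R.n T := by
          unfold szT
          have h7 : (0 : ℝ) ≤ (cX R.H.G R.n T).card := by positivity
          have h8 : (0 : ℝ) ≤ (Nτ R.n : ℝ) * T.card := by positivity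
          linarith
        have h9 : (R.n : ℝ) ≤ (R.n : ℝ) ^ 16 := by
          calc (R.n : ℝ) = (R.n : ℝ) ^ 1 := (pow_one _).symm
            _ ≤ (R.n : ℝ) ^ 16 := pow_le_pow_right₀ hn0 (by norm_num)
        exact mul_le_mul h9 h6 (by positivity) (by positivity))
    refine le_trans (P_mono (fun φ h => ?_)) h1
    unfold RCtx.rm2Y at h
    rw [r3_sumY] at h
    exact h

end Pool.SCDH
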