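import Pool.Agent.Lib.SCDH.RDefs
import Pool.Agent.Lib.SCDH.G01
import Pool.Agent.Lib.SCDH.G02
import Pool.Agent.Lib.SCDH.G03
import Pool.Agent.Lib.SCDH.G04
import Pool.Agent.Lib.SCDH.L01
import Pool.Agent.Lib.SCDH.L06
import Pool.Agent.Lib.SCDH.R01
import Pool.Agent.Lib.SCDH.R02
import Pool.Agent.Lib.SCDH.R03

/-!
# Row R04 (paper scd_h36.md)
Existence of good labels for the reserves.
Recipe: L06.exists_avoid with ι = X ⊕ Y, A = rb, supp = nearE, Ω = X ⊕ Y, M T = rmAll (at most 3 t^20 ≤ n events of probability exp(-5n|T|)), sM = supE, χ = Fin 0, N = |X|+|Y| ≥ n^60 (bigX). rmAll at ∅ is false.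
-/

set_option linter.unusedSectionVars false
set_option linter.unusedVariables false

namespace Pool.SCDH

open Finset Pool.MP_0ccee8_co.Lib2

attribute [local irreducible] rW

variable {X Y : Type} [Fintype X] [DecidableEq X] [Fintype Y] [DecidableEq Y]
variable {ε : ℝ} (R : RCtx X Y)

section

variable {V K : Type} [Fintype V] [DecidableEq V] [Fintype K] [Nonempty K]

private lemma r04_or {A B : (V → K) → Prop} {a b : ℝ} (hA : P A ≤ a) (hB : P B ≤ b) :
    P (fun φ => A φ ∨ B φ) ≤ a + b := (P_or A B).trans (add_le_add hA hB)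

end

private lemma r04_num (hR : RCtxOK ε R) :
    (100 : ℝ) ≤ R.n ∧ 3 * (R.t : ℝ) ^ 20 ≤ R.n := by
  have ht := big_t hR.big
  have ht1 : (1 : ℝ) ≤ R.t := le_trans (by norm_num) ht
  have ht100 : (100 : ℝ) ≤ R.t := le_trans (by norm_num) ht
  have hn := (rng_real hR.rng).1
  have h2 : (R.t : ℝ) ^ 21 ≤ (R.t : ℝ) ^ 200 := pow_le_pow_right₀ ht1 (by norm_num)
  have h3 : (R.t : ℝ) ^ 1 ≤ (R.t : ℝ) ^ 200 := pow_le_pow_right₀ ht1 (by norm_num)
  rw [pow_one] at h3
  refine ⟨by linarith, ?_⟩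
  have h4 : (R.t : ℝ) ^ 21 = R.t * (R.t : ℝ) ^ 20 := by ring
  have h5 : 3 * (R.t : ℝ) ^ 20 ≤ R.t * (R.t : ℝ) ^ 20 :=
    mul_le_mul_of_nonneg_right (by linarith) (by positivity)
  linarith

theorem exists_RGood (hR : RCtxOK ε R) : ∃ φ : X × Y → Fin (R.m + 1), R.RGood φ := by
  classical
  obtain ⟨hn100, ht20⟩ := r04_num R hR
  have hcard : Fintype.card (X ⊕ Y) = Fintype.card X + Fintype.card Y := Fintype.card_sum
  have h1 := fun j : Fin (R.t ^ 20) => rm1_ok R hR j j.2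
  have h2 := fun j : Fin (R.t ^ 20) => rm2X_ok R hR j j.2
  have h3 := fun j : Fin (R.t ^ 20) => rm2Y_ok R hR j j.2
  obtain ⟨φ, hA, hM, -⟩ := exists_avoid (V := X × Y) (K := Fin (R.m + 1)) (ι := X ⊕ Y)
    (Ω := X ⊕ Y) (χ := Fin 0) R.t R.n (Fintype.card X + Fintype.card Y)
    (by
      have : (2 : ℝ) ≤ R.n := by linarith
      exact_mod_cast this)
    (n_pow_le hR.big hR.rng 1100 (by norm_num))
    (fun v φ => R.rb φ v) (fun v => nearE R.H.G v)
    (fun v => (rb_ok R hR v).1) (fun v => (rb_ok R hR v).2)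
    (fun v => nearE_card R hR v)
    (fun e => by
      refine le_trans (le_of_eq ?_) (nearE_mult R hR e)
      congr)
    (by
      rw [hcard]
      exact R.H.cardV.trans (Nat.pow_le_pow_right (by norm_num) (by omega)))
    (fun T φ => R.rmAll φ T) (fun T => supE R.H.G T)
    (fun T => by
      refine Dep_exists (fun (j : Fin (R.t ^ 20)) (φ : X × Y → Fin (R.m + 1)) =>
        R.rm1 φ T j ∨ R.rm2X φ T j ∨ R.rm2Y φ T j) _ (fun j => ?_)
      refine Dep_or _ _ _ ((h1 j).2.1 T) ?_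
      exact Dep_or _ _ _ ((h2 j).2.1 T) ((h3 j).2.1 T))
    (fun T hT => by
      obtain ⟨p, hp⟩ : ∃ p : ℝ, p = Real.exp (-(5 * R.n * T.card)) := ⟨_, rfl⟩
      have hp0 : 0 < p := by rw [hp]; exact Real.exp_pos _
      have hc1 : (1 : ℝ) ≤ T.card := by exact_mod_cast hT.card_pos
      have hle : P (fun φ : X × Y → Fin (R.m + 1) => R.rmAll φ T)
          ≤ (Fintype.card (Fin (R.t ^ 20)) : ℝ) * (p + (p + p)) := by
        refine P_exists_le (ι := Fin (R.t ^ 20)) (fun j (φ : X × Y → Fin (R.m + 1)) =>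
          R.rm1 φ T j ∨ R.rm2X φ T j ∨ R.rm2Y φ T j) _ (fun j => ?_)
        refine r04_or (hp ▸ (h1 j).2.2 T hT) ?_
        exact r04_or (hp ▸ (h2 j).2.2 T hT) (hp ▸ (h3 j).2.2 T hT)
      refine hle.trans ?_
      have h4 : Real.exp (-(4 * (R.n : ℝ) * T.card)) = Real.exp (R.n * T.card) * p := by
        rw [hp, ← Real.exp_add]
        congr 1
        ring
      have h5 : (R.n : ℝ) ≤ Real.exp (R.n * T.card) := by
        have h6 := Real.add_one_le_exp ((R.n : ℝ) * T.card)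
        have h7 : (R.n : ℝ) * 1 ≤ R.n * T.card := mul_le_mul_of_nonneg_left hc1 (by linarith)
        linarith
      rw [h4, Fintype.card_fin]
      have h8 : (((R.t ^ 20 : ℕ) : ℝ)) * (p + (p + p)) = 3 * (R.t : ℝ) ^ 20 * p := by
        push_cast
        ring
      rw [h8]
      exact mul_le_mul_of_nonneg_right (ht20.trans h5) hp0.le)
    (fun T => supE_card R hR T)
    (by
      rw [hcard]
      omega)
    (by
      have hn1 : 1 ≤ R.n := by
        have : (1 : ℝ) ≤ R.n := by linarith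
        exact_mod_cast this
      have h4 : R.n ^ 60 ≤ R.n ^ 100 := Nat.pow_le_pow_right hn1 (by norm_num)
      have h5 := R.H.bigX
      omega)
    (fun x _ => x.elim0)
    (by
      rw [Fintype.card_fin]
      exact Nat.zero_le _)
    (fun x => x.elim0)
  refine ⟨φ, ⟨hA, fun T => ?_⟩⟩
  rcases T.eq_empty_or_nonempty with hT | hT
  · rw [hT]
    rintro ⟨j, h | h | h⟩
    · exact (h1 j).1 φ h
    · exact (h2 j).1 φ h
    · exact (h3 j).1 φ h
  · exact hM T hT

end Pool.SCDH
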