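import Pool.Agent.Lib.SCDH.RDefs
import Pool.Agent.Lib.SCDH.G01
import Pool.Agent.Lib.SCDH.G02
import Pool.Agent.Lib.SCDH.G03
import Pool.Agent.Lib.SCDH.G04
import Pool.Agent.Lib.SCDH.L01
import Pool.Agent.Lib.SCDH.W02
import Pool.Agent.Lib.SCDH.W06

/-!
# Row R05 (paper scd_h36.md)
The cut property of the reserves.
Recipe (all A N): WLOG 2|A| ≤ |X| (bd_compl for both graphs). b := bd G A N. If b = 0 trivial. Let E' = Ecl (2j) ⊆ Fcl j. If 10^7 bd E' A N ≥ η b: done (E' ⊆ Fcl). Else W06 with Γ = E' on (A,N): degrees of E': ≥ (η/2) 0.99 d - √(ηn) t ≥ 0.49 η d ≥ t^17, on Y ≥ 0.49 ηκ ≥ t^17. Sum of E'-degrees over the symmetric differences ≤ 16000 bd E' < 0.0016 η b, so Δ_X d + Δ_Y κ ≤ 0.0033 b. Hence bd G (Q_T) ≥ 0.9967 b (bd_symm), bd Gm (Q_T) ≥ 0.498 b. |A| ≤ 2b (isoX: n|A| ≤ 2κ mX ≤ 2n b), κ|N| ≤ d|A| + b, so Nτ|T| ≤ 2(|A|+|N|) ≤ 8n b ≤ n^3 bd Gm(Q_T): ¬ rm1 gives 4 bd F (Q_T) ≥ η bd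 Gm (Q_T), bd F (Q_T) ≥ 0.1245 η b. Degrees of Fcl j ≤ 1.01 η d, 1.01 ηκ + 2√.. (two classes): bd F A N ≥ bd F (Q_T) - 1.02 η (Δ_X d + Δ_Y κ) ≥ 0.12 η b.
-/

set_option linter.unusedSectionVars false
set_option linter.unusedVariables false

namespace Pool.SCDH

open Finset Pool.MP_0ccee8_co.Lib2

private theorem r05_rW : rW = 1000 := rfl

attribute [local irreducible] rW

variable {X Y : Type} [Fintype X] [DecidableEq X] [Fintype Y] [DecidableEq Y]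
variable {ε : ℝ} (R : RCtx X Y)

private theorem r05_sqrt (t m k : ℝ) (ht : 1 ≤ t) (hm : 10 ^ 6 * (m * t ^ 23) ≤ k ^ 2) (hk : 0 ≤ k) :
    Real.sqrt (1 / t ^ 21 * m) * t ≤ 1 / t ^ 21 * k / 1000 := by
  have ht0 : 0 < t := by linarith
  have h1 : Real.sqrt (1 / t ^ 21 * m) ≤ k / (1000 * t ^ 22) := by
    rw [Real.sqrt_le_iff]
    refine ⟨by positivity, ?_⟩
    rw [div_pow, mul_pow, ← pow_mul, div_mul_eq_mul_div, one_mul, div_le_div_iff₀ (by positivity) (by positivity)]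
    calc m * (1000 ^ 2 * t ^ (22 * 2)) = 10 ^ 6 * (m * t ^ 23) * t ^ 21 := by ring
      _ ≤ k ^ 2 * t ^ 21 := mul_le_mul_of_nonneg_right hm (by positivity)
  calc Real.sqrt (1 / t ^ 21 * m) * t ≤ k / (1000 * t ^ 22) * t := mul_le_mul_of_nonneg_right h1 ht0.le
    _ = 1 / t ^ 21 * k / 1000 := by field_simp

/-- degrees of the classes -/
private theorem r05_deg (hR : RCtxOK ε R) (φ : X × Y → Fin (R.m + 1)) (hφ : R.RGood φ) (i : ℕ) (hi : i < 2 * R.t ^ 20) :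
    (∀ x, 49 / 100 * (eta R.t * R.d) ≤ (dgX (R.Ecl φ i) x : ℝ) ∧ (dgX (R.Ecl φ i) x : ℝ) ≤ 505 / 1000 * (eta R.t * R.d)) ∧
    (∀ y, 49 / 100 * (eta R.t * R.κ) ≤ (dgY (R.Ecl φ i) y : ℝ) ∧ (dgY (R.Ecl φ i) y : ℝ) ≤ 505 / 1000 * (eta R.t * R.κ)) := by
  have ht : (10 : ℝ) ^ 100 ≤ R.t := big_t hR.big
  have ht1 : (1 : ℝ) ≤ R.t := le_trans (by norm_num) ht
  obtain ⟨hn1, hn2⟩ := rng_real hR.rng
  have hd1 : (R.n : ℝ) ≤ 2 * R.d := by exact_mod_cast R.H.hd1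
  have hd2 : (R.d : ℝ) ≤ R.n := by exact_mod_cast R.H.hd2
  have hk : (R.t : ℝ) ^ 50 ≤ R.κ := by exact_mod_cast hR.kap
  have heta : eta R.t = 1 / (R.t : ℝ) ^ 21 := rfl
  have he0 : 0 ≤ eta R.t := by rw [heta]; positivity
  have hd0 : (0 : ℝ) ≤ R.d := Nat.cast_nonneg _
  have hk0 : (0 : ℝ) ≤ R.κ := Nat.cast_nonneg _
  have hbig : 4 * 10 ^ 6 * (R.t : ℝ) ^ 23 ≤ (R.t : ℝ) ^ 50 := by
    calc 4 * 10 ^ 6 * (R.t : ℝ) ^ 23 ≤ 10 ^ 100 * (R.t : ℝ) ^ 23 := by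
          apply mul_le_mul_of_nonneg_right (by norm_num) (by positivity)
      _ ≤ R.t * (R.t : ℝ) ^ 23 := mul_le_mul_of_nonneg_right ht (by positivity)
      _ = (R.t : ℝ) ^ 24 := by ring
      _ ≤ (R.t : ℝ) ^ 50 := pow_le_pow_right₀ ht1 (by norm_num)
  have hbig2 : 4 * 10 ^ 6 * (R.t : ℝ) ^ 23 ≤ R.n := hbig.trans ((pow_le_pow_right₀ ht1 (by norm_num)).trans hn1)
  have s1 : Real.sqrt (eta R.t * R.n) * R.t ≤ eta R.t * R.d / 1000 := by
    rw [heta]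
    apply r05_sqrt _ _ _ ht1 _ hd0
    have hn0 : (0 : ℝ) ≤ R.n := Nat.cast_nonneg _
    nlinarith [mul_le_mul_of_nonneg_left hbig2 hn0]
  have s2 : Real.sqrt (eta R.t * R.κ) * R.t ≤ eta R.t * R.κ / 1000 := by
    rw [heta]
    apply r05_sqrt _ _ _ ht1 _ hk0
    have h3 : 10 ^ 6 * (R.t : ℝ) ^ 23 ≤ R.κ := by
      have : (0 : ℝ) ≤ (R.t : ℝ) ^ 23 := by positivity
      linarith
    nlinarith [mul_le_mul_of_nonneg_left h3 hk0]
  constructor
  · intro x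
    have h1 := hφ.loc (.inl x)
    simp only [RCtx.rb, not_exists, not_lt] at h1
    have h2 := abs_le.1 ((h1 ⟨i, hi⟩).trans s1)
    simp only at h2
    have h3 := hR.low x
    have h4 : (dgX R.Gm x : ℝ) ≤ R.d := by exact_mod_cast dgX_le R.H R.Gm hR.sub x
    have h5 := mul_le_mul_of_nonneg_left h3 he0
    have h6 := mul_le_mul_of_nonneg_left h4 he0
    have h7 : 0 ≤ eta R.t * R.d := mul_nonneg he0 hd0
    constructor <;> nlinarith [h2.1, h2.2]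
  · intro y
    have h1 := hφ.loc (.inr y)
    simp only [RCtx.rb, not_exists, not_lt] at h1
    have h2 := abs_le.1 ((h1 ⟨i, hi⟩).trans s2)
    simp only at h2
    have h3 := hR.lowY y
    have h4 : (dgY R.Gm y : ℝ) ≤ R.κ := by exact_mod_cast dgY_le R.H R.Gm hR.sub y
    have h5 := mul_le_mul_of_nonneg_left h3 he0
    have h6 := mul_le_mul_of_nonneg_left h4 he0
    have h7 : 0 ≤ eta R.t * R.κ := mul_nonneg he0 hk0
    constructor <;> nlinarith [h2.1, h2.2]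

private theorem r05_F (φ : X × Y → Fin (R.m + 1)) (j : ℕ) (A : Finset X) (N : Finset Y) :
    eB (R.Fcl φ j) A N ≤ eB (R.Ecl φ (2 * j)) A N + eB (R.Ecl φ (2 * j + 1)) A N := by
  unfold eB RCtx.Fcl RCtx.Ecl
  rw [filter_filter, filter_filter, filter_filter]
  refine le_trans (card_le_card ?_) (card_union_le _ _)
  intro e he
  simp only [mem_union, mem_filter] at he ⊢
  tauto

private theorem r05_sub (φ : X × Y → Fin (R.m + 1)) (j : ℕ) : R.Ecl φ (2 * j) ⊆ R.Fcl φ j := by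
  intro e he
  simp only [RCtx.Fcl, RCtx.Ecl, mem_filter] at he ⊢
  tauto

private theorem r05_sum {α : Type} [DecidableEq α] (S : Finset α) (f : α → ℕ) (c : ℝ) (h : ∀ a, c ≤ (f a : ℝ)) :
    c * S.card ≤ ((∑ a ∈ S, f a : ℕ) : ℝ) := by
  rw [Nat.cast_sum]
  calc c * S.card = ∑ a ∈ S, c := by rw [sum_const, nsmul_eq_mul]; ring
    _ ≤ _ := sum_le_sum (fun a _ => h a)

private theorem r05_sum' {α : Type} [DecidableEq α] (S : Finset α) (f : α → ℕ) (c : ℝ) (h : ∀ a, (f a : ℝ) ≤ c) :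
    ((∑ a ∈ S, f a : ℕ) : ℝ) ≤ c * S.card := by
  rw [Nat.cast_sum]
  calc _ ≤ ∑ a ∈ S, c := sum_le_sum (fun a _ => h a)
    _ = c * S.card := by rw [sum_const, nsmul_eq_mul]; ring

private theorem r05_main (hR : RCtxOK ε R) (φ : X × Y → Fin (R.m + 1)) (hφ : R.RGood φ) (j : ℕ) (hj : j < R.t ^ 20)
    (A : Finset X) (N : Finset Y) (hA : 2 * A.card ≤ Fintype.card X) :
    eta R.t * (bd R.H.G A N : ℝ) ≤ 10 ^ 7 * (bd (R.Fcl φ j) A N : ℝ) := by
  have ht : (10 : ℝ) ^ 100 ≤ R.t := big_t hR.big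
  have ht1 : (1 : ℝ) ≤ R.t := le_trans (by norm_num) ht
  obtain ⟨hn1, hn2⟩ := rng_real hR.rng
  have hd1 : (R.n : ℝ) ≤ 2 * R.d := by exact_mod_cast R.H.hd1
  have hd2 : (R.d : ℝ) ≤ R.n := by exact_mod_cast R.H.hd2
  have hk : (R.t : ℝ) ^ 50 ≤ R.κ := by exact_mod_cast hR.kap
  have hkd : (R.κ : ℝ) ≤ R.d := by exact_mod_cast R.H.hκd
  have heta : eta R.t = 1 / (R.t : ℝ) ^ 21 := rfl
  have he0 : 0 < eta R.t := by rw [heta]; positivity
  have hd0 : (0 : ℝ) ≤ R.d := Nat.cast_nonneg _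
  have hk0 : (0 : ℝ) ≤ R.κ := Nat.cast_nonneg _
  have hn : (10 : ℝ) ^ 100 ≤ R.n := ht.trans ((le_self_pow₀ ht1 (by norm_num)).trans hn1)
  obtain ⟨dX, dY⟩ := r05_deg R hR φ hφ (2 * j) (by omega)
  obtain ⟨dX', dY'⟩ := r05_deg R hR φ hφ (2 * j + 1) (by omega)
  by_cases hc : eta R.t * (bd R.H.G A N : ℝ) ≤ 10 ^ 7 * (bd (R.Ecl φ (2 * j)) A N : ℝ)
  · refine hc.trans ?_
    have := bd_mono _ _ (r05_sub R φ j) A N
    have : (bd (R.Ecl φ (2 * j)) A N : ℝ) ≤ (bd (R.Fcl φ j) A N : ℝ) := by exact_mod_cast this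
    linarith
  rw [not_le] at hc
  -- the certificate
  have hES : R.Ecl φ (2 * j) ⊆ R.H.G := (filter_subset _ _).trans hR.sub
  have hFS : R.Fcl φ j ⊆ R.H.G := (filter_subset _ _).trans hR.sub
  have het : (R.t : ℝ) ^ 17 ≤ 49 / 100 * (eta R.t * R.κ) := by
    have h1 : (R.t : ℝ) ^ 29 ≤ eta R.t * R.κ := by
      rw [heta, div_mul_eq_mul_div, one_mul, le_div_iff₀ (by positivity)]
      have e0 : (R.t : ℝ) ^ 29 * (R.t : ℝ) ^ 21 = (R.t : ℝ) ^ 50 := by ring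
      rw [e0]
      exact hk
    have h2 : 100 * (R.t : ℝ) ^ 17 ≤ (R.t : ℝ) ^ 29 := by
      calc 100 * (R.t : ℝ) ^ 17 ≤ R.t * (R.t : ℝ) ^ 17 := by
            apply mul_le_mul_of_nonneg_right (le_trans (by norm_num) ht) (by positivity)
        _ = (R.t : ℝ) ^ 18 := by ring
        _ ≤ (R.t : ℝ) ^ 29 := pow_le_pow_right₀ ht1 (by norm_num)
    have h3 : (0 : ℝ) ≤ (R.t : ℝ) ^ 17 := by positivity
    linarith
  have hkk : eta R.t * R.κ ≤ eta R.t * R.d := mul_le_mul_of_nonneg_left hkd he0.le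
  have hXd : ∀ x, R.t ^ 17 ≤ dgX (R.Ecl φ (2 * j)) x := fun x => by
    have h1 := (dX x).1
    have : ((R.t ^ 17 : ℕ) : ℝ) ≤ (dgX (R.Ecl φ (2 * j)) x : ℝ) := by push_cast; linarith
    exact_mod_cast this
  have hYd : ∀ y, R.t ^ 17 ≤ dgY (R.Ecl φ (2 * j)) y := fun y => by
    have h1 := (dY y).1
    have : ((R.t ^ 17 : ℕ) : ℝ) ≤ (dgY (R.Ecl φ (2 * j)) y : ℝ) := by push_cast; linarith
    exact_mod_cast this
  have htpos : 0 < R.t ^ 17 := by
    have : (0 : ℝ) < ((R.t ^ 17 : ℕ) : ℝ) := by push_cast; positivity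
    exact_mod_cast this
  obtain ⟨T, hT1, hT2, -⟩ := cert hR.big hR.rng R.H (R.Ecl φ (2 * j)) hES (fun x => Or.inr (hXd x))
    (fun y => Or.inr (hYd y)) A N (fun x _ => by have := hXd x; omega) (fun y _ => by have := hYd y; omega)
  set QX := cX (R.Ecl φ (2 * j)) R.n T with hQX
  set QY := cY (R.Ecl φ (2 * j)) R.n T with hQY
  set b : ℝ := (bd R.H.G A N : ℝ) with hb
  set δX : ℝ := ((symmDiff A QX).card : ℝ) with hδX
  set δY : ℝ := ((symmDiff N QY).card : ℝ) with hδY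
  have hb0 : 0 ≤ b := Nat.cast_nonneg _
  have hδX0 : 0 ≤ δX := Nat.cast_nonneg _
  have hδY0 : 0 ≤ δY := Nat.cast_nonneg _
  -- small symmetric differences
  have k1 : R.d * δX + R.κ * δY ≤ 33 / 10000 * b := by
    have h1 : ((∑ x ∈ symmDiff A QX, dgX (R.Ecl φ (2 * j)) x : ℕ) : ℝ)
        + ((∑ y ∈ symmDiff N QY, dgY (R.Ecl φ (2 * j)) y : ℕ) : ℝ) ≤ 16 * 1000 * (bd (R.Ecl φ (2 * j)) A N : ℝ) := by
      rw [r05_rW] at hT2
      exact_mod_cast hT2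
    have h2 := r05_sum (symmDiff A QX) (fun x => dgX (R.Ecl φ (2 * j)) x) _ (fun x => (dX x).1)
    have h3 := r05_sum (symmDiff N QY) (fun y => dgY (R.Ecl φ (2 * j)) y) _ (fun y => (dY y).1)
    have h4 : 49 / 100 * (eta R.t * (R.d * δX + R.κ * δY)) ≤ 16 / 10000 * (eta R.t * b) := by
      have e : 49 / 100 * (eta R.t * (R.d * δX + R.κ * δY))
          = 49 / 100 * (eta R.t * R.d) * δX + 49 / 100 * (eta R.t * R.κ) * δY := by ring
      rw [e]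
      linarith
    have h5 : eta R.t * (49 / 100 * (R.d * δX + R.κ * δY)) ≤ eta R.t * (16 / 10000 * b) := by
      linarith
    have h6 := le_of_mul_le_mul_left h5 he0
    linarith
  -- the certified cut in G and Gm
  have k2 : b ≤ (bd R.H.G QX QY : ℝ) + (R.d * δX + R.κ * δY) := by
    have h1 := bd_symm R.H.G A QX N QY
    have h2 : ((∑ x ∈ symmDiff A QX, dgX R.H.G x : ℕ) : ℝ) = R.d * δX := by
      rw [sum_congr rfl (fun x _ => R.H.degX x), sum_const, smul_eq_mul]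
      push_cast
      ring
    have h3 : ((∑ y ∈ symmDiff N QY, dgY R.H.G y : ℕ) : ℝ) = R.κ * δY := by
      rw [sum_congr rfl (fun y _ => R.H.degY y), sum_const, smul_eq_mul]
      push_cast
      ring
    rw [← h2, ← h3, hb]
    exact_mod_cast h1
  have k3 : (bd R.H.G QX QY : ℝ) ≤ 2 * (bd R.Gm QX QY : ℝ) := by exact_mod_cast hR.half QX QY
  have k4 : 498 / 1000 * b ≤ (bd R.Gm QX QY : ℝ) := by linarith
  -- sizes
  have k5 : (A.card : ℝ) ≤ 2 * b := by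
    have h1 := R.H.isoX A hA
    have h2 := mX_le_bd R.H.G A N
    have h3 : (R.n : ℝ) * A.card ≤ 2 * R.κ * (mX R.H.G A : ℝ) := by exact_mod_cast h1
    have h4 : (mX R.H.G A : ℝ) ≤ b := by rw [hb]; exact_mod_cast h2
    have h5 : (R.n : ℝ) * A.card ≤ R.n * (2 * b) := by
      calc (R.n : ℝ) * A.card ≤ 2 * R.κ * (mX R.H.G A : ℝ) := h3
        _ ≤ 2 * R.n * b := by
            apply mul_le_mul _ h4 (Nat.cast_nonneg _) (by positivity)
            linarith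
        _ = R.n * (2 * b) := by ring
    exact le_of_mul_le_mul_left h5 (lt_of_lt_of_le (by norm_num) hn)
  have k6 : (N.card : ℝ) ≤ 3 * R.n * b := by
    have h1 : (R.κ * N.card : ℕ) = eB R.H.G univ N := by
      rw [eB_sumY]
      have e0 : ∑ y ∈ N, eB R.H.G univ {y} = ∑ y ∈ N, R.κ := sum_congr rfl (fun y _ => R.H.degY y)
      rw [e0, sum_const, smul_eq_mul, mul_comm]
    have h2 := eB_complX R.H.G A N
    have h3 : eB R.H.G A N ≤ R.d * A.card := by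
      rw [eB_sumX]
      calc ∑ x ∈ A, eB R.H.G {x} N ≤ ∑ x ∈ A, dgX R.H.G x :=
            sum_le_sum (fun x _ => eB_mono _ _ (Subset.refl _) _ _ (Subset.refl _) _ _ (subset_univ _))
        _ = R.d * A.card := by
            rw [sum_congr rfl (fun x _ => R.H.degX x), sum_const, smul_eq_mul, mul_comm]
    have h4 : eB R.H.G Aᶜ N ≤ bd R.H.G A N := Nat.le_add_left _ _
    have h5 : R.κ * N.card ≤ R.d * A.card + bd R.H.G A N := by omega
    have h6 : (R.κ : ℝ) * N.card ≤ R.d * A.card + b := by rw [hb]; exact_mod_cast h5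
    have h7 : (N.card : ℝ) ≤ R.κ * N.card := by
      have : (1 : ℝ) ≤ R.κ := by exact_mod_cast R.H.hκ
      exact le_mul_of_one_le_left (Nat.cast_nonneg _) this
    have h8 : (R.d : ℝ) * A.card ≤ R.n * (2 * b) := mul_le_mul hd2 k5 (Nat.cast_nonneg _) (by positivity)
    have h9 : b ≤ R.n * b := by
      have : (1 : ℝ) ≤ R.n := le_trans (by norm_num) hn
      exact le_mul_of_one_le_left hb0 this
    linarith
  have k7 : (Nτ R.n : ℝ) * T.card ≤ (R.n : ℝ) ^ 3 * bd R.Gm QX QY := by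
    have h1 : (Nτ R.n : ℝ) * T.card ≤ 2 * ((A.card : ℝ) + N.card) := by exact_mod_cast hT1
    have h2 : 2 * ((A.card : ℝ) + N.card) ≤ 10 * R.n * b := by
      have h3 : b ≤ R.n * b := by
        have : (1 : ℝ) ≤ R.n := le_trans (by norm_num) hn
        exact le_mul_of_one_le_left hb0 this
      linarith
    have h4 : 10 * (R.n : ℝ) * b ≤ (R.n : ℝ) ^ 3 * (498 / 1000 * b) := by
      have h5 : (10 : ℝ) * R.n ≤ (R.n : ℝ) ^ 3 * (498 / 1000) := by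
        have h6 : (100 : ℝ) ≤ R.n := le_trans (by norm_num) hn
        have h7 : (100 : ℝ) * R.n ≤ (R.n : ℝ) ^ 3 := by
          have h8 : (R.n : ℝ) ≤ (R.n : ℝ) ^ 2 := le_self_pow₀ (by linarith) (by norm_num)
          have h9 : (100 : ℝ) * R.n ≤ (R.n : ℝ) ^ 2 * R.n :=
            mul_le_mul_of_nonneg_right (by linarith) (by linarith)
          linarith [(by ring : (R.n : ℝ) ^ 2 * R.n = (R.n : ℝ) ^ 3)]
        linarith
      calc 10 * (R.n : ℝ) * b ≤ (R.n : ℝ) ^ 3 * (498 / 1000) * b := mul_le_mul_of_nonneg_right h5 hb0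
        _ = _ := by ring
    have h6 : (R.n : ℝ) ^ 3 * (498 / 1000 * b) ≤ (R.n : ℝ) ^ 3 * bd R.Gm QX QY :=
      mul_le_mul_of_nonneg_left k4 (by positivity)
    linarith
  have k8 : eta R.t * bd R.Gm QX QY ≤ 4 * (bd (R.Fcl φ j) QX QY : ℝ) := by
    have h1 := hφ.mac T
    by_contra h2
    rw [not_le] at h2
    exact h1 ⟨⟨j, hj⟩, Or.inl ⟨k7, h2⟩⟩
  -- back to A, N
  have k9 : (bd (R.Fcl φ j) QX QY : ℝ) ≤ (bd (R.Fcl φ j) A N : ℝ) + 102 / 100 * (eta R.t * (R.d * δX + R.κ * δY)) := by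
    have h1 := bd_symm (R.Fcl φ j) QX A QY N
    rw [symmDiff_comm QX A, symmDiff_comm QY N] at h1
    have h2 := r05_sum' (symmDiff A QX) (fun x => dgX (R.Fcl φ j) x) (101 / 100 * (eta R.t * R.d)) (fun x => by
      have := r05_F R φ j {x} univ
      have h3 : (dgX (R.Fcl φ j) x : ℝ) ≤ (dgX (R.Ecl φ (2 * j)) x : ℝ) + (dgX (R.Ecl φ (2 * j + 1)) x : ℝ) := by
        exact_mod_cast this
      have h4 := (dX x).2
      have h5 := (dX' x).2
      linarith)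
    have h3 := r05_sum' (symmDiff N QY) (fun y => dgY (R.Fcl φ j) y) (101 / 100 * (eta R.t * R.κ)) (fun y => by
      have := r05_F R φ j univ {y}
      have h3 : (dgY (R.Fcl φ j) y : ℝ) ≤ (dgY (R.Ecl φ (2 * j)) y : ℝ) + (dgY (R.Ecl φ (2 * j + 1)) y : ℝ) := by
        exact_mod_cast this
      have h4 := (dY y).2
      have h5 := (dY' y).2
      linarith)
    have h4 : (bd (R.Fcl φ j) QX QY : ℝ) ≤ (bd (R.Fcl φ j) A N : ℝ) +
        (((∑ x ∈ symmDiff A QX, dgX (R.Fcl φ j) x : ℕ) : ℝ) + ((∑ y ∈ symmDiff N QY, dgY (R.Fcl φ j) y : ℕ) : ℝ)) := by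
      exact_mod_cast h1
    have h5 : 0 ≤ eta R.t * (R.d * δX) := by positivity
    have h6 : 0 ≤ eta R.t * (R.κ * δY) := by positivity
    have e1 : 102 / 100 * (eta R.t * (R.d * δX + R.κ * δY)) = 102 / 100 * (eta R.t * (R.d * δX)) + 102 / 100 * (eta R.t * (R.κ * δY)) := by ring
    have e2 : 101 / 100 * (eta R.t * R.d) * δX = 101 / 100 * (eta R.t * (R.d * δX)) := by ring
    have e3 : 101 / 100 * (eta R.t * R.κ) * δY = 101 / 100 * (eta R.t * (R.κ * δY)) := by ring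
    rw [e2] at h2
    rw [e3] at h3
    rw [e1]
    linarith
  have m1 : eta R.t * (R.d * δX + R.κ * δY) ≤ eta R.t * (33 / 10000 * b) := mul_le_mul_of_nonneg_left k1 he0.le
  have m2 : eta R.t * (498 / 1000 * b) ≤ eta R.t * bd R.Gm QX QY := mul_le_mul_of_nonneg_left k4 he0.le
  have m3 : 0 ≤ eta R.t * b := mul_nonneg he0.le hb0
  linarith

theorem res_cut (hR : RCtxOK ε R) (φ : X × Y → Fin (R.m + 1)) (hφ : R.RGood φ) (j : ℕ) (hj : j < R.t ^ 20)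
    (A : Finset X) (N : Finset Y) :
    eta R.t * (bd R.H.G A N : ℝ) ≤ 10 ^ 7 * (bd (R.Fcl φ j) A N : ℝ) := by
  by_cases hA : 2 * A.card ≤ Fintype.card X
  · exact r05_main R hR φ hφ j hj A N hA
  · have h := r05_main R hR φ hφ j hj Aᶜ Nᶜ (by rw [card_compl]; omega)
    rwa [bd_compl, bd_compl] at h

end Pool.SCDH
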