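import Pool.Agent.Lib.SCDH.BDefs
import Pool.Agent.Lib.SCDH.G01
import Pool.Agent.Lib.SCDH.G02
import Pool.Agent.Lib.SCDH.G03
import Pool.Agent.Lib.SCDH.G04
import Pool.Agent.Lib.SCDH.W02
import Pool.Agent.Lib.SCDH.W06
import Pool.Agent.Lib.SCDH.T01

/-!
# Row T3X (paper scd_h36.md)
Smoothness of a random array on X from the macroscopic statement (T3 of the paper).
Recipe: Γ = H.G in W06.cert (degrees d, κ ≥ t^17). First A = univ, N = univ (bd = 0): symmDiff with cX is empty, so |∑_univ f| ≤ lam szT ≤ n^-6 · 3(|X|+|Y|), |Y| ≤ n|X|, hence |avX f| ≤ n^-4. For 2|A| ≤ |X| take N = maj G A, bd = mX G A =: m (bd_maj), |A| ≤ 2(κ/n) m ≤ 2 m (isoX), |N| ≤ n|A| (maj_card). The symmetric difference A, cX has ≤ 16000 m/d ≤ 32000 m/n elements; szT ≤ 3(|A|+|N|) + 16000 m ≤ n² m·... so lam szT ≤ m/(2n). Add |A| |avX f| ≤ m n^-3. Then SmX_half with sum_sub_avX.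
-/

set_option linter.unusedSectionVars false
set_option linter.unusedVariables false

namespace Pool.SCDH

open Finset Pool.MP_0ccee8_co.Lib2

variable {X Y : Type} [Fintype X] [DecidableEq X] [Fintype Y] [DecidableEq Y]

private theorem numn {ε : ℝ} {t n : ℕ} (hB : Big ε t) (hn : Rng t n) : (10 : ℝ) ^ 10 ≤ n := by
  have h1 := big_t hB
  have h2 := (rng_real hn).1
  have h3 : (1 : ℝ) ≤ t := le_trans (by norm_num) h1
  have h4 : (t : ℝ) ≤ (t : ℝ) ^ 200 := le_self_pow₀ h3 (by norm_num)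
  have h5 : (10 : ℝ) ^ 10 ≤ 10 ^ 100 := by norm_num
  linarith

private theorem kap_pos {ε : ℝ} {t κ : ℕ} (hB : Big ε t) (hκ : t ^ 50 ≤ κ) : 0 < κ ∧ t ^ 17 ≤ κ := by
  have h1 := big_t hB
  have h3 : (1 : ℝ) ≤ t := le_trans (by norm_num) h1
  have h4 : 1 ≤ t := by exact_mod_cast h3
  have h5 : t ^ 17 ≤ t ^ 50 := Nat.pow_le_pow_right h4 (by norm_num)
  have h6 : 0 < t ^ 50 := pow_pos (by omega) _
  constructor <;> omega

private theorem sum_symm {Z : Type} [DecidableEq Z] (f : Z → ℝ) (Φ : ℝ) (hΦ : ∀ z, |f z| ≤ Φ)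
    (A B : Finset Z) : |∑ z ∈ A, f z| ≤ |∑ z ∈ B, f z| + Φ * ((symmDiff A B).card : ℝ) := by
  have h1 : ∑ z ∈ A ∩ B, f z + ∑ z ∈ A \ B, f z = ∑ z ∈ A, f z := by
    have hd : Disjoint (A ∩ B) (A \ B) := by
      rw [Finset.disjoint_left]; intro a ha hb
      rw [Finset.mem_inter] at ha; rw [Finset.mem_sdiff] at hb; exact hb.2 ha.2
    rw [← Finset.sum_union hd]; congr 1
    ext a; simp only [Finset.mem_union, Finset.mem_inter, Finset.mem_sdiff]; tauto
  have h2 : ∑ z ∈ A ∩ B, f z + ∑ z ∈ B \ A, f z = ∑ z ∈ B, f z := by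
    have hd : Disjoint (A ∩ B) (B \ A) := by
      rw [Finset.disjoint_left]; intro a ha hb
      rw [Finset.mem_inter] at ha; rw [Finset.mem_sdiff] at hb; exact hb.2 ha.1
    rw [← Finset.sum_union hd]; congr 1
    ext a; simp only [Finset.mem_union, Finset.mem_inter, Finset.mem_sdiff]; tauto
  have h3 : ((symmDiff A B).card : ℝ) = ((A \ B).card : ℝ) + ((B \ A).card : ℝ) := by
    rw [symmDiff_def, Finset.sup_eq_union, Finset.card_union_of_disjoint disjoint_sdiff_sdiff]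
    push_cast; ring
  have h4 : ∀ S : Finset Z, |∑ z ∈ S, f z| ≤ Φ * (S.card : ℝ) := by
    intro S
    calc |∑ z ∈ S, f z| ≤ ∑ z ∈ S, |f z| := Finset.abs_sum_le_sum_abs _ _
      _ ≤ ∑ z ∈ S, Φ := Finset.sum_le_sum fun z _ => hΦ z
      _ = Φ * (S.card : ℝ) := by rw [Finset.sum_const, nsmul_eq_mul, mul_comm]
  have h5 := h4 (A \ B)
  have h6 := h4 (B \ A)
  have h7 : ∑ z ∈ A, f z = ∑ z ∈ B, f z + (∑ z ∈ A \ B, f z - ∑ z ∈ B \ A, f z) := by linarith
  rw [h7, h3]
  have h8 := abs_add_le (∑ z ∈ B, f z) (∑ z ∈ A \ B, f z - ∑ z ∈ B \ A, f z)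
  have h9 := abs_sub (∑ z ∈ A \ B, f z) (∑ z ∈ B \ A, f z)
  nlinarith [h5, h6, h8, h9]

private theorem cert_univ {ε : ℝ} {t n d κ : ℕ} (hB : Big ε t) (hn : Rng t n) (H : Host X Y n d κ)
    (hκ : t ^ 50 ≤ κ) : ∃ T : Finset (X ⊕ Y), cX H.G n T = univ ∧ cY H.G n T = univ ∧
      szT H.G n T ≤ 3 * ((Fintype.card X : ℝ) + Fintype.card Y) := by
  obtain ⟨hk0, hk17⟩ := kap_pos hB hκ
  have hkd := H.hκd
  obtain ⟨T, h1, h2, h3⟩ := cert hB hn H H.G (Finset.Subset.refl _)
    (fun x => Or.inr (by rw [H.degX]; omega)) (fun y => Or.inr (by rw [H.degY]; omega)) univ univ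
    (fun x _ => by rw [H.degX]; omega) (fun y _ => by rw [H.degY]; omega)
  have hb : bd H.G (univ : Finset X) (univ : Finset Y) = 0 := by
    unfold bd eB; simp
  rw [hb] at h2
  simp only [H.degX, H.degY, Finset.sum_const, smul_eq_mul, mul_zero, Nat.le_zero,
    Nat.add_eq_zero_iff, Nat.mul_eq_zero, Finset.card_eq_zero] at h2
  have hx : cX H.G n T = univ := by
    rcases h2.1 with h | h
    · exact (Finset.symmDiff_eq_empty.mp h).symm
    · omega
  have hy : cY H.G n T = univ := by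
    rcases h2.2 with h | h
    · exact (Finset.symmDiff_eq_empty.mp h).symm
    · omega
  refine ⟨T, hx, hy, ?_⟩
  unfold szT
  rw [hx, hy, Finset.card_univ, Finset.card_univ]
  rw [Finset.card_univ, Finset.card_univ] at h1
  have h4 : ((Nτ n : ℝ) * (T.card : ℝ)) ≤ 2 * ((Fintype.card X : ℝ) + Fintype.card Y) := by
    exact_mod_cast h1
  linarith

theorem smoothX {ε : ℝ} {t n d κ : ℕ} (hB : Big ε t) (hn : Rng t n) (H : Host X Y n d κ) (hκ : t ^ 50 ≤ κ)
    (f : X → ℝ) (Φ : ℝ) (hΦ : ∀ x, |f x| ≤ Φ)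
    (hmac : ∀ T, |∑ x ∈ cX H.G n T, f x| ≤ lam n * szT H.G n T) :
    SmX H.G (40000 * Φ / n + 1 / n) (fun x => f x - avX f) := by
  have hnr := numn hB hn
  obtain ⟨hk0, hk17⟩ := kap_pos hB hκ
  have hkd := H.hκd
  have hd2 := H.hd2
  have hn0 : (0 : ℝ) < n := lt_of_lt_of_le (by norm_num) hnr
  have hnN : 0 < n := by exact_mod_cast hn0
  have hX0 : 0 < Fintype.card X := lt_of_lt_of_le (Nat.pow_pos hnN : 0 < n ^ 100) H.bigX
  have hX0r : (0 : ℝ) < Fintype.card X := by exact_mod_cast hX0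
  obtain ⟨x0⟩ := Fintype.card_pos_iff.mp hX0
  have hΦ0 : 0 ≤ Φ := le_trans (abs_nonneg _) (hΦ x0)
  have hlam : lam n = 1 / (n : ℝ) ^ 6 := rfl
  have hn6 : (0 : ℝ) < (n : ℝ) ^ 6 := by positivity
  have hav : |avX f| ≤ 1 / (n : ℝ) ^ 4 := by
    obtain ⟨T, hx, hy, hs⟩ := cert_univ hB hn H hκ
    have h1 := hmac T
    rw [hx] at h1
    have h2 : (Fintype.card Y : ℝ) ≤ n * Fintype.card X := by
      have h3 := host_card H
      have h4 : Fintype.card Y ≤ n * Fintype.card X := by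
        calc Fintype.card Y ≤ Fintype.card Y * κ := Nat.le_mul_of_pos_right _ hk0
          _ = Fintype.card X * d := h3.symm
          _ ≤ Fintype.card X * n := Nat.mul_le_mul_left _ hd2
          _ = n * Fintype.card X := Nat.mul_comm _ _
      exact_mod_cast h4
    have h5 : szT H.G n T ≤ 6 * n * Fintype.card X := by nlinarith
    have h6 : |∑ x, f x| ≤ 1 / (n : ℝ) ^ 4 * Fintype.card X := by
      refine h1.trans ?_
      rw [hlam]
      calc 1 / (n : ℝ) ^ 6 * szT H.G n T ≤ 1 / (n : ℝ) ^ 6 * (6 * n * Fintype.card X) :=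
            mul_le_mul_of_nonneg_left h5 (by positivity)
        _ ≤ 1 / (n : ℝ) ^ 4 * Fintype.card X := by
            have h7 : (6 : ℝ) * n ≤ (n : ℝ) ^ 2 := by nlinarith
            have h8 : 1 / (n : ℝ) ^ 4 = 1 / (n : ℝ) ^ 6 * (n : ℝ) ^ 2 := by
              field_simp
            rw [h8, mul_assoc (1 / (n : ℝ) ^ 6) ((n : ℝ) ^ 2)]
            refine mul_le_mul_of_nonneg_left ?_ (by positivity : (0 : ℝ) ≤ 1 / (n : ℝ) ^ 6)
            exact mul_le_mul_of_nonneg_right h7 hX0r.le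
    unfold avX
    rw [abs_div, abs_of_pos hX0r, div_le_iff₀ hX0r]
    exact h6
  apply SmX_half _ _ _ (sum_sub_avX f)
  intro A hA2
  set m := mX H.G A with hm
  have hiso := H.isoX A hA2
  obtain ⟨T, h1, h2, h3⟩ := cert hB hn H H.G (Finset.Subset.refl _)
    (fun x => Or.inr (by rw [H.degX]; omega)) (fun y => Or.inr (by rw [H.degY]; omega)) A (maj H.G A)
    (fun x _ => by rw [H.degX]; omega) (fun y _ => by rw [H.degY]; omega)
  rw [bd_maj, ← hm] at h2 h3
  have hAc : (A.card : ℝ) ≤ 2 * m := by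
    have h4 : n * A.card ≤ n * (2 * m) := by
      calc n * A.card ≤ 2 * κ * m := hiso
        _ ≤ 2 * n * m := Nat.mul_le_mul_right _ (by omega)
        _ = n * (2 * m) := by ring
    have h5 : A.card ≤ 2 * m := Nat.le_of_mul_le_mul_left h4 hnN
    exact_mod_cast h5
  have hMc : ((maj H.G A).card : ℝ) ≤ 2 * n * m := by
    have h4 := maj_card H.G A
    simp only [H.degX, Finset.sum_const, smul_eq_mul] at h4
    have h5 : (maj H.G A).card ≤ 2 * n * m := by
      calc (maj H.G A).card ≤ A.card * d := h4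
        _ ≤ A.card * n := Nat.mul_le_mul_left _ hd2
        _ = n * A.card := Nat.mul_comm _ _
        _ ≤ 2 * κ * m := hiso
        _ ≤ 2 * n * m := Nat.mul_le_mul_right _ (by omega)
    exact_mod_cast h5
  have hsd : ((symmDiff A (cX H.G n T)).card : ℝ) ≤ 32000 * m / n := by
    simp only [H.degX, Finset.sum_const, smul_eq_mul] at h2
    have h4 : (symmDiff A (cX H.G n T)).card * d ≤ 16 * rW * m := by omega
    have h5 : ((symmDiff A (cX H.G n T)).card : ℝ) * d ≤ 16000 * m := by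
      have h6 : (symmDiff A (cX H.G n T)).card * d ≤ 16000 * m := by
        have : 16 * rW = 16000 := rfl
        rw [this] at h4; exact h4
      exact_mod_cast h6
    have h7 : (n : ℝ) ≤ 2 * d := by exact_mod_cast H.hd1
    rw [le_div_iff₀ hn0]
    have h8 : (0 : ℝ) ≤ ((symmDiff A (cX H.G n T)).card : ℝ) := Nat.cast_nonneg _
    nlinarith
  have hsz : szT H.G n T ≤ 7 * n * m := by
    unfold szT
    have h4 : ((Nτ n : ℝ) * (T.card : ℝ)) ≤ 2 * ((A.card : ℝ) + (maj H.G A).card) := by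
      exact_mod_cast h1
    have h5 : ((cX H.G n T).card : ℝ) + (cY H.G n T).card ≤ A.card + (maj H.G A).card + 16000 * m := by
      have h6 : (cX H.G n T).card + (cY H.G n T).card ≤ A.card + (maj H.G A).card + 16000 * m := h3
      exact_mod_cast h6
    have h7 : (0 : ℝ) ≤ m := Nat.cast_nonneg _
    have h8 : (16006 : ℝ) * m ≤ n * m := mul_le_mul_of_nonneg_right (le_trans (by norm_num) hnr) h7
    nlinarith
  have hm0 : (0 : ℝ) ≤ m := Nat.cast_nonneg _
  have h10 : |∑ x ∈ cX H.G n T, f x| ≤ 1 / (2 * n) * m := by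
    refine (hmac T).trans ?_
    rw [hlam]
    calc 1 / (n : ℝ) ^ 6 * szT H.G n T ≤ 1 / (n : ℝ) ^ 6 * (7 * n * m) :=
          mul_le_mul_of_nonneg_left hsz (by positivity)
      _ = (7 * n / (n : ℝ) ^ 6) * m := by ring
      _ ≤ 1 / (2 * n) * m := by
          refine mul_le_mul_of_nonneg_right ?_ hm0
          rw [div_le_div_iff₀ hn6 (by positivity)]
          have h11 : (14 : ℝ) ≤ n ^ 4 := by
            calc (14 : ℝ) ≤ n := le_trans (by norm_num) hnr
              _ ≤ n ^ 4 := le_self_pow₀ (le_trans (by norm_num) hnr) (by norm_num)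
          nlinarith [mul_le_mul_of_nonneg_right h11 (sq_nonneg (n : ℝ))]
  have h12 := sum_symm f Φ hΦ A (cX H.G n T)
  have h13 : |∑ x ∈ A, (f x - avX f)| ≤ |∑ x ∈ A, f x| + A.card * |avX f| := by
    rw [Finset.sum_sub_distrib, Finset.sum_const, nsmul_eq_mul]
    refine (abs_sub _ _).trans ?_
    rw [abs_mul, Nat.abs_cast]
  have h14 : (A.card : ℝ) * |avX f| ≤ 1 / (2 * n) * m := by
    calc (A.card : ℝ) * |avX f| ≤ (2 * m) * (1 / (n : ℝ) ^ 4) :=
          mul_le_mul hAc hav (abs_nonneg _) (by positivity)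
      _ = (2 / (n : ℝ) ^ 4) * m := by ring
      _ ≤ 1 / (2 * n) * m := by
          refine mul_le_mul_of_nonneg_right ?_ hm0
          rw [div_le_div_iff₀ (by positivity) (by positivity)]
          have h11 : (4 : ℝ) ≤ n ^ 3 := by
            calc (4 : ℝ) ≤ n := le_trans (by norm_num) hnr
              _ ≤ n ^ 3 := le_self_pow₀ (le_trans (by norm_num) hnr) (by norm_num)
          nlinarith [mul_le_mul_of_nonneg_right h11 hn0.le]
  have h15 : Φ * ((symmDiff A (cX H.G n T)).card : ℝ) ≤ 40000 * Φ / n * m := by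
    calc Φ * ((symmDiff A (cX H.G n T)).card : ℝ) ≤ Φ * (32000 * m / n) :=
          mul_le_mul_of_nonneg_left hsd hΦ0
      _ = 32000 * Φ / n * m := by ring
      _ ≤ 40000 * Φ / n * m := by
          refine mul_le_mul_of_nonneg_right ?_ hm0
          exact div_le_div_of_nonneg_right (by linarith) hn0.le
  have h16 : (1 : ℝ) / (2 * n) * m + 1 / (2 * n) * m = 1 / n * m := by field_simp; ring
  calc |∑ x ∈ A, (f x - avX f)| ≤ |∑ x ∈ A, f x| + A.card * |avX f| := h13
    _ ≤ (1 / (2 * n) * m + 40000 * Φ / n * m) + 1 / (2 * n) * m := by linarith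
    _ = (40000 * Φ / n + 1 / n) * m := by linarith

end Pool.SCDH
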