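import Pool.Agent.Lib.SCDH.RDefs
import Pool.Agent.Lib.SCDH.G01
import Pool.Agent.Lib.SCDH.G02
import Pool.Agent.Lib.SCDH.G03
import Pool.Agent.Lib.SCDH.G04
import Pool.Agent.Lib.SCDH.T01
import Pool.Agent.Lib.SCDH.T3X
import Pool.Agent.Lib.SCDH.T3Y
import Pool.Agent.Lib.SCDH.O01
import Pool.Agent.Lib.SCDH.R04
import Pool.Agent.Lib.SCDH.R05

/-!
# Row R06 (paper scd_h36.md)
The reserves exist.
Recipe: RCtx with Gm = H.G minus O.U, m = 2 t^21 - 1; RCtxOK: half by outer_bd; low, lowY: dgX Gm x = d - uX x ≥ d - n/t^26 (outer_deg, o4X, n ≤ 2d), dgY Gm y = κ - uY. exists_RGood. F j = Fcl φ j. degX: dgX F x = two classes: |dgX F x - η dgX Gm x| ≤ 2√(ηn) t ≤ η d/(4t^5), η uX ≤ η n/t^26 ≤ η d/(4 t^5). smX: dgX F x - av = (f1 - av f1) - η (uX - av uX) with f1 = dgX F x - η dgX Gm x (dgX Gm = d - uX): T3X with Φ = 2√(ηn) t: 40000·2 √(ηn) t/n + 1/n ≤ η/(2t^5) (η t^-5 = t^-26, √(η/n) ≤ t^-110), outer_smX: η 6/t^26 ≤ η/(4t^5).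 smY: T3Y with Φ = 2√(ηκ) t: 40000 √(ηκ) t/κ = 40000 t √(η/κ) ≤ 40000 t · t^(-10.5-25) ≤ t^-26/4: t^(-34.5) against t^-26, fine.
-/

set_option linter.unusedSectionVars false
set_option linter.unusedVariables false

namespace Pool.SCDH

open Finset Pool.MP_0ccee8_co.Lib2

attribute [local irreducible] rW ball

variable {X Y : Type} [Fintype X] [DecidableEq X] [Fintype Y] [DecidableEq Y]

private lemma r06_sq (a T : ℝ) (k : ℕ) (hT : 0 ≤ T) (ha : T ^ (2 * k) ≤ a) :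
    Real.sqrt a * T ^ k ≤ a := by
  have ha0 : 0 ≤ a := le_trans (by positivity) ha
  have h1 : T ^ k ≤ Real.sqrt a :=
    Real.le_sqrt_of_sq_le (by rw [← pow_mul, mul_comm k 2]; exact ha)
  calc Real.sqrt a * T ^ k ≤ Real.sqrt a * Real.sqrt a :=
        mul_le_mul_of_nonneg_left h1 (Real.sqrt_nonneg _)
    _ = a := Real.mul_self_sqrt ha0

private lemma r06_pow (T : ℝ) (hT : (10 : ℝ) ^ 100 ≤ T) (k : ℕ) (hk : 1 ≤ k) :
    (10 : ℝ) ^ 100 ≤ T ^ k := by
  have h1 : (1 : ℝ) ≤ T := le_trans (by norm_num) hT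
  calc (10 : ℝ) ^ 100 ≤ T ^ 1 := by rw [pow_one]; exact hT
    _ ≤ T ^ k := pow_le_pow_right₀ h1 hk

/-- `eta * n` against its square root -/
private lemma r06_root (T η c : ℝ) (hT : (10 : ℝ) ^ 100 ≤ T) (hη : η = 1 / T ^ 21) (hc : T ^ 50 ≤ c) :
    (10 : ℝ) ^ 100 * (Real.sqrt (η * c) * T ^ 6) ≤ η * c := by
  have hT0 : 0 < T := lt_of_lt_of_le (by norm_num) hT
  have hT1 : (1 : ℝ) ≤ T := le_trans (by norm_num) hT
  have h1 : T ^ (2 * 14) ≤ η * c := by
    rw [hη, one_div_mul_eq_div, le_div_iff₀ (by positivity), ← pow_add]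
    exact le_trans (pow_le_pow_right₀ hT1 (by norm_num)) hc
  have h2 := r06_sq (η * c) T 14 hT0.le h1
  have h3 : (10 : ℝ) ^ 100 * (Real.sqrt (η * c) * T ^ 6)
      ≤ T ^ 8 * (Real.sqrt (η * c) * T ^ 6) :=
    mul_le_mul_of_nonneg_right (r06_pow T hT 8 (by norm_num))
      (mul_nonneg (Real.sqrt_nonneg _) (by positivity))
  calc _ ≤ _ := h3
    _ = Real.sqrt (η * c) * T ^ 14 := by ring
    _ ≤ _ := h2

private lemma r06_deg (T η c d s u f g : ℝ) (hT : (10 : ℝ) ^ 100 ≤ T) (hη : η = 1 / T ^ 21)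
    (hc : T ^ 50 ≤ c) (hcd : c ≤ 2 * d) (hu : T ^ 26 * u ≤ c) (hgu : g + u = d)
    (hu0 : 0 ≤ u) (hs : s = Real.sqrt (η * c) * T) (hf : |f - η * g| ≤ 2 * s) :
    |f - η * d| ≤ η * d / T ^ 5 := by
  have hT0 : 0 < T := lt_of_lt_of_le (by norm_num) hT
  have hη0 : 0 < η := by rw [hη]; positivity
  have h1 := r06_root T η c hT hη hc
  have h2 : (10 : ℝ) ^ 100 * (s * T ^ 5) ≤ η * (2 * d) := by
    calc (10 : ℝ) ^ 100 * (s * T ^ 5) = (10 : ℝ) ^ 100 * (Real.sqrt (η * c) * T ^ 6) := by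
          rw [hs]; ring
      _ ≤ η * c := h1
      _ ≤ _ := mul_le_mul_of_nonneg_left hcd hη0.le
  have h3 : (10 : ℝ) ^ 100 * (u * T ^ 5) ≤ 2 * d := by
    calc (10 : ℝ) ^ 100 * (u * T ^ 5) ≤ T ^ 21 * (u * T ^ 5) :=
          mul_le_mul_of_nonneg_right (r06_pow T hT 21 (by norm_num)) (by positivity)
      _ = T ^ 26 * u := by ring
      _ ≤ _ := hu.trans hcd
  have h4 : |f - η * d| ≤ 2 * s + η * u := by
    have h5 : f - η * d = (f - η * g) - η * u := by rw [← hgu]; ring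
    rw [h5]
    refine (abs_sub _ _).trans ?_
    rw [abs_of_nonneg (mul_nonneg hη0.le hu0)]
    linarith
  refine h4.trans ?_
  rw [le_div_iff₀ (by positivity)]
  have h6 : η * ((10 : ℝ) ^ 100 * (u * T ^ 5)) ≤ η * (2 * d) := mul_le_mul_of_nonneg_left h3 hη0.le
  have h7 : (0 : ℝ) ≤ (10 : ℝ) ^ 100 * (s * T ^ 5) := by
    rw [hs]
    have := Real.sqrt_nonneg (η * c)
    positivity
  have h8 : (0 : ℝ) ≤ η * ((10 : ℝ) ^ 100 * (u * T ^ 5)) := by positivity
  have h9 : (2 * s + η * u) * T ^ 5 = 2 * (s * T ^ 5) + η * (u * T ^ 5) := by ring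
  have h10 : (10 : ℝ) ^ 100 * (2 * (s * T ^ 5) + η * (u * T ^ 5))
      = 2 * ((10 : ℝ) ^ 100 * (s * T ^ 5)) + η * ((10 : ℝ) ^ 100 * (u * T ^ 5)) := by ring
  rw [h9]
  have h11 : (10 : ℝ) ^ 100 * (2 * (s * T ^ 5) + η * (u * T ^ 5)) ≤ 6 * (η * d) := by
    rw [h10]; linarith
  have h12 : 0 ≤ η * d := by linarith
  have h13 : (6 : ℝ) * (η * d) ≤ (10 : ℝ) ^ 100 * (η * d) :=
    mul_le_mul_of_nonneg_right (by norm_num) h12
  exact le_of_mul_le_mul_left (h11.trans h13) (by norm_num)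

private lemma r06_sm (T η c n s : ℝ) (hT : (10 : ℝ) ^ 100 ≤ T) (hη : η = 1 / T ^ 21)
    (hc : T ^ 50 ≤ c) (hn : T ^ 200 ≤ n) (hs : s = Real.sqrt (η * c) * T) :
    40000 * (2 * s) / c + 1 / n + η * (6 / T ^ 26) ≤ η / T ^ 5 := by
  have hT0 : 0 < T := lt_of_lt_of_le (by norm_num) hT
  have hT1 : (1 : ℝ) ≤ T := le_trans (by norm_num) hT
  have hη0 : 0 < η := by rw [hη]; positivity
  have hc0 : 0 < c := lt_of_lt_of_le (by positivity) hc
  have hn0 : 0 < n := lt_of_lt_of_le (by positivity) hn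
  have h1 := r06_root T η c hT hη hc
  have hs0 : 0 ≤ s := by
    rw [hs]
    have := Real.sqrt_nonneg (η * c)
    positivity
  have h2 : (10 : ℝ) ^ 100 * (s * T ^ 5) ≤ η * c := by
    calc (10 : ℝ) ^ 100 * (s * T ^ 5) = (10 : ℝ) ^ 100 * (Real.sqrt (η * c) * T ^ 6) := by
          rw [hs]; ring
      _ ≤ η * c := h1
  have ha : 40000 * (2 * s) / c ≤ η / T ^ 5 / 4 := by
    rw [div_le_iff₀ hc0, div_div, div_mul_eq_mul_div, le_div_iff₀ (by positivity)]
    have h3 : 40000 * (2 * s) * (T ^ 5 * 4) = 320000 * (s * T ^ 5) := by ring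
    rw [h3]
    have h4 : 320000 * (s * T ^ 5) ≤ (10 : ℝ) ^ 100 * (s * T ^ 5) :=
      mul_le_mul_of_nonneg_right (by norm_num) (by positivity)
    linarith
  have hb : 1 / n ≤ η / T ^ 5 / 4 := by
    rw [hη, div_div, div_div, ← mul_assoc, ← pow_add]
    refine one_div_le_one_div_of_le (by positivity) ?_
    have h5 : T ^ (21 + 5) * 4 ≤ T ^ (21 + 5) * T ^ 174 := by
      refine mul_le_mul_of_nonneg_left ?_ (by positivity)
      exact le_trans (by norm_num) (r06_pow T hT 174 (by norm_num))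
    rw [← pow_add] at h5
    exact h5.trans hn
  have hd : η * (6 / T ^ 26) ≤ η / T ^ 5 / 4 := by
    rw [div_div, div_eq_mul_one_div η]
    refine mul_le_mul_of_nonneg_left ?_ hη0.le
    rw [div_le_div_iff₀ (by positivity) (by positivity), one_mul]
    have h6 : (24 : ℝ) ≤ T ^ 21 := le_trans (by norm_num) (r06_pow T hT 21 (by norm_num))
    calc 6 * (T ^ 5 * 4) = T ^ 5 * 24 := by ring
      _ ≤ T ^ 5 * T ^ 21 := mul_le_mul_of_nonneg_left h6 (by positivity)
      _ = T ^ 26 := by ring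
  have h0 : 0 < η / T ^ 5 := by positivity
  linarith

private lemma r06_eB_union (Γ Γ' : Finset (X × Y)) (h : Disjoint Γ Γ') (A : Finset X) (N : Finset Y) :
    eB (Γ ∪ Γ') A N = eB Γ A N + eB Γ' A N := by
  unfold eB
  rw [filter_union, card_union_of_disjoint]
  exact disjoint_filter_filter h

private lemma r06_split (R : RCtx X Y) (φ : X × Y → Fin (R.m + 1)) (j : ℕ) :
    R.Fcl φ j = R.Ecl φ (2 * j) ∪ R.Ecl φ (2 * j + 1) ∧
      Disjoint (R.Ecl φ (2 * j)) (R.Ecl φ (2 * j + 1)) := by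
  constructor
  · unfold RCtx.Fcl RCtx.Ecl
    rw [← filter_or]
  · unfold RCtx.Ecl
    refine disjoint_filter.2 (fun e _ h1 h2 => ?_)
    omega

private lemma r06_locX (R : RCtx X Y) (φ : X × Y → Fin (R.m + 1)) (hφ : R.RGood φ) (j : ℕ)
    (hj : j < R.t ^ 20) (x : X) :
    |(dgX (R.Fcl φ j) x : ℝ) - eta R.t * dgX R.Gm x| ≤ 2 * (Real.sqrt (eta R.t * R.n) * R.t) := by
  have h := hφ.loc (.inl x)
  unfold RCtx.rb at h
  simp only at h
  push Not at h
  have h1 := h ⟨2 * j, by omega⟩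
  have h2 := h ⟨2 * j + 1, by omega⟩
  simp only at h1 h2
  obtain ⟨h3, h4⟩ := r06_split R φ j
  have h5 : dgX (R.Fcl φ j) x = dgX (R.Ecl φ (2 * j)) x + dgX (R.Ecl φ (2 * j + 1)) x := by
    rw [h3]; unfold dgX; exact r06_eB_union _ _ h4 _ _
  rw [h5]
  push_cast
  have h6 : ((dgX (R.Ecl φ (2 * j)) x : ℝ) + dgX (R.Ecl φ (2 * j + 1)) x) - eta R.t * dgX R.Gm x
      = ((dgX (R.Ecl φ (2 * j)) x : ℝ) - eta R.t / 2 * dgX R.Gm x)
        + ((dgX (R.Ecl φ (2 * j + 1)) x : ℝ) - eta R.t / 2 * dgX R.Gm x) := by ring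
  rw [h6]
  refine (abs_add_le _ _).trans ?_
  linarith

private lemma r06_locY (R : RCtx X Y) (φ : X × Y → Fin (R.m + 1)) (hφ : R.RGood φ) (j : ℕ)
    (hj : j < R.t ^ 20) (y : Y) :
    |(dgY (R.Fcl φ j) y : ℝ) - eta R.t * dgY R.Gm y| ≤ 2 * (Real.sqrt (eta R.t * R.κ) * R.t) := by
  have h := hφ.loc (.inr y)
  unfold RCtx.rb at h
  simp only at h
  push Not at h
  have h1 := h ⟨2 * j, by omega⟩
  have h2 := h ⟨2 * j + 1, by omega⟩
  simp only at h1 h2
  obtain ⟨h3, h4⟩ := r06_split R φ j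
  have h5 : dgY (R.Fcl φ j) y = dgY (R.Ecl φ (2 * j)) y + dgY (R.Ecl φ (2 * j + 1)) y := by
    rw [h3]; unfold dgY; exact r06_eB_union _ _ h4 _ _
  rw [h5]
  push_cast
  have h6 : ((dgY (R.Ecl φ (2 * j)) y : ℝ) + dgY (R.Ecl φ (2 * j + 1)) y) - eta R.t * dgY R.Gm y
      = ((dgY (R.Ecl φ (2 * j)) y : ℝ) - eta R.t / 2 * dgY R.Gm y)
        + ((dgY (R.Ecl φ (2 * j + 1)) y : ℝ) - eta R.t / 2 * dgY R.Gm y) := by ring
  rw [h6]
  refine (abs_add_le _ _).trans ?_
  linarith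

private lemma r06_low (T d u g c : ℝ) (hT : (10 : ℝ) ^ 100 ≤ T) (hu : T ^ 26 * u ≤ c)
    (hc : c ≤ 2 * d) (hu0 : 0 ≤ u) (hg : g + u = d) : (99 : ℝ) / 100 * d ≤ g := by
  have h1 : (10 : ℝ) ^ 100 * u ≤ T ^ 26 * u :=
    mul_le_mul_of_nonneg_right (r06_pow T hT 26 (by norm_num)) hu0
  have h2 : 200 * u ≤ (10 : ℝ) ^ 100 * u := mul_le_mul_of_nonneg_right (by norm_num) hu0
  linarith

theorem reserves {ε : ℝ} {t n d κ ω K : ℕ} (hB : Big ε t) (hn : Rng t n) (H : Host X Y n d κ) (hκ : t ^ 50 ≤ κ)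
    (O : Outer X Y (Fin K)) (hO : OutOK H t ω O) : ∃ F : ℕ → Finset (X × Y), ResFam H t O F := by
  have hT := big_t hB
  have hT0 : (0 : ℝ) < (t : ℝ) := lt_of_lt_of_le (by norm_num) hT
  have hT1 : (1 : ℝ) ≤ (t : ℝ) := le_trans (by norm_num) hT
  have ht : 1 ≤ t := by exact_mod_cast hT1
  obtain ⟨hn1, -⟩ := rng_real hn
  have hκr : (t : ℝ) ^ 50 ≤ (κ : ℝ) := by exact_mod_cast hκ
  have hnr : (t : ℝ) ^ 50 ≤ (n : ℝ) := le_trans (pow_le_pow_right₀ hT1 (by norm_num)) hn1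
  have hn2d : (n : ℝ) ≤ 2 * (d : ℝ) := by exact_mod_cast H.hd1
  have hη0 : 0 < eta t := by unfold eta; positivity
  obtain ⟨hdX, hdY⟩ := outer_deg H t ω O hO
  have hdXr : ∀ x, (dgX (H.G \ O.U) x : ℝ) + uX O x = d := fun x => by exact_mod_cast hdX x
  have hdYr : ∀ y, (dgY (H.G \ O.U) y : ℝ) + uY O y = κ := fun y => by exact_mod_cast hdY y
  have huX : ∀ x, (t : ℝ) ^ 26 * (uX O x : ℝ) ≤ n := fun x => by exact_mod_cast hO.o4X x
  have huY : ∀ y, (t : ℝ) ^ 26 * (uY O y : ℝ) ≤ κ := fun y => by exact_mod_cast hO.o4Y y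
  have hκ0 : (0 : ℝ) ≤ κ := Nat.cast_nonneg _
  have hκ2 : (κ : ℝ) ≤ 2 * κ := by linarith
  have htp : 1 ≤ t ^ 21 := Nat.one_le_pow _ _ ht
  -- the context
  obtain ⟨R, hRt, hRn, hRd, hRκ, hRH, hRG, hRm⟩ : ∃ R : RCtx X Y, ∃ (h1 : R.t = t) (h2 : R.n = n)
      (h3 : R.d = d) (h4 : R.κ = κ), R.H.G = H.G ∧ R.Gm = H.G \ O.U ∧ R.m + 1 = 2 * t ^ 21 :=
    ⟨⟨t, n, d, κ, 2 * t ^ 21 - 1, H, H.G \ O.U⟩, rfl, rfl, rfl, rfl, rfl, rfl, by
      show 2 * t ^ 21 - 1 + 1 = 2 * t ^ 21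
      omega⟩
  subst hRt hRn hRd hRκ
  have hR : RCtxOK ε R :=
    { big := hB
      rng := hn
      kap := hκ
      hm := hRm
      sub := by rw [hRG, hRH]; exact sdiff_subset
      half := by rw [hRG, hRH]; exact outer_bd H R.t ω O hO
      low := fun x => by
        rw [hRG]
        exact r06_low R.t R.d (uX O x) _ R.n hT (huX x) hn2d (Nat.cast_nonneg _) (hdXr x)
      lowY := fun y => by
        rw [hRG]
        exact r06_low R.t R.κ (uY O y) _ R.κ hT (huY y) hκ2 (Nat.cast_nonneg _) (hdYr y) }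
  obtain ⟨φ, hφ⟩ := exists_RGood R hR
  refine ⟨fun j => R.Fcl φ j, ?_, ?_, ?_⟩
  · intro j hj
    have hsub : R.Fcl φ j ⊆ H.G := by
      unfold RCtx.Fcl
      refine (filter_subset _ _).trans ?_
      rw [hRG]
      exact sdiff_subset
    refine ⟨hsub, ?_, ?_, ?_, ?_, ?_⟩
    · intro x
      have h1 := r06_locX R φ hφ j hj x
      rw [hRG] at h1
      exact r06_deg R.t (eta R.t) R.n R.d (Real.sqrt (eta R.t * R.n) * R.t) (uX O x) _ _ hT rfl hnr
        hn2d (huX x) (hdXr x) (Nat.cast_nonneg _) rfl h1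
    · intro y
      have h1 := r06_locY R φ hφ j hj y
      rw [hRG] at h1
      exact r06_deg R.t (eta R.t) R.κ R.κ (Real.sqrt (eta R.t * R.κ) * R.t) (uY O y) _ _ hT rfl hκr
        hκ2 (huY y) (hdYr y) (Nat.cast_nonneg _) rfl h1
    · -- smX
      have h1 : SmX H.G (40000 * (2 * (Real.sqrt (eta R.t * R.n) * R.t)) / R.n + 1 / R.n)
          (fun x => ((dgX (R.Fcl φ j) x : ℝ) - eta R.t * dgX R.Gm x)
            - avX (fun x => (dgX (R.Fcl φ j) x : ℝ) - eta R.t * dgX R.Gm x)) := by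
        refine smoothX hB hn H hκ _ _ (r06_locX R φ hφ j hj) (fun T => ?_)
        have h2 := hφ.mac T
        unfold RCtx.rmAll at h2
        push Not at h2
        have h3 := (h2 ⟨j, hj⟩).2.1
        unfold RCtx.rm2X at h3
        rw [hRH] at h3
        exact not_lt.1 h3
      have h4 := SmX_smul H.G _ (-(eta R.t)) _ (outer_smX H R.t ω ht O hO)
      rw [abs_neg, abs_of_pos hη0] at h4
      have h5 := SmX_add H.G _ _ _ _ h1 h4
      have h6 : (fun x => (dgX (R.Fcl φ j) x : ℝ) - avX (fun x => (dgX (R.Fcl φ j) x : ℝ)))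
          = (fun x => (((dgX (R.Fcl φ j) x : ℝ) - eta R.t * dgX R.Gm x)
            - avX (fun x => (dgX (R.Fcl φ j) x : ℝ) - eta R.t * dgX R.Gm x))
            + -(eta R.t) * ((uX O x : ℝ) - avX (fun x => (uX O x : ℝ)))) := by
        funext x
        have : Nonempty X := ⟨x⟩
        have hc : (Fintype.card X : ℝ) ≠ 0 := by
          exact_mod_cast Fintype.card_ne_zero
        have h7 : avX (fun x => (dgX (R.Fcl φ j) x : ℝ) - eta R.t * dgX R.Gm x)
            = avX (fun x => (dgX (R.Fcl φ j) x : ℝ)) - eta R.t * R.d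
              + eta R.t * avX (fun x => (uX O x : ℝ)) := by
          have h8 : (fun x => (dgX (R.Fcl φ j) x : ℝ) - eta R.t * dgX R.Gm x)
              = (fun x => (dgX (R.Fcl φ j) x : ℝ) + ((-(eta R.t * R.d)) + eta R.t * (uX O x : ℝ))) := by
            funext x
            have := hdXr x
            rw [hRG, ← this]
            ring
          rw [h8, avX_add, avX_add, avX_smul]
          have h9 : avX (fun _ : X => -(eta R.t * R.d)) = -(eta R.t * R.d) := by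
            unfold avX
            rw [sum_const, card_univ, nsmul_eq_mul, mul_div_cancel_left₀ _ hc]
          rw [h9]
          ring
        rw [h7]
        have := hdXr x
        rw [hRG, ← this]
        ring
      rw [h6]
      refine SmX_mono _ _ _ ?_ _ h5
      exact r06_sm R.t (eta R.t) R.n R.n _ hT rfl hnr hn1 rfl
    · -- smY
      have h1 : SmY H.G (20000 * (2 * (Real.sqrt (eta R.t * R.κ) * R.t)) / R.κ + 1 / R.n)
          (fun y => ((dgY (R.Fcl φ j) y : ℝ) - eta R.t * dgY R.Gm y)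
            - avY (fun y => (dgY (R.Fcl φ j) y : ℝ) - eta R.t * dgY R.Gm y)) := by
        refine smoothY hB hn H hκ _ _ (r06_locY R φ hφ j hj) (fun T => ?_)
        have h2 := hφ.mac T
        unfold RCtx.rmAll at h2
        push Not at h2
        have h3 := (h2 ⟨j, hj⟩).2.2
        unfold RCtx.rm2Y at h3
        rw [hRH] at h3
        exact not_lt.1 h3
      have h4 := SmY_smul H.G _ (-(eta R.t)) _ (outer_smY H R.t ω ht O hO)
      rw [abs_neg, abs_of_pos hη0] at h4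
      have h5 := SmY_add H.G _ _ _ _ h1 h4
      have h6 : (fun y => (dgY (R.Fcl φ j) y : ℝ) - avY (fun y => (dgY (R.Fcl φ j) y : ℝ)))
          = (fun y => (((dgY (R.Fcl φ j) y : ℝ) - eta R.t * dgY R.Gm y)
            - avY (fun y => (dgY (R.Fcl φ j) y : ℝ) - eta R.t * dgY R.Gm y))
            + -(eta R.t) * ((uY O y : ℝ) - avY (fun y => (uY O y : ℝ)))) := by
        funext y
        have : Nonempty Y := ⟨y⟩
        have hc : (Fintype.card Y : ℝ) ≠ 0 := by
          exact_mod_cast Fintype.card_ne_zero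
        have h7 : avY (fun y => (dgY (R.Fcl φ j) y : ℝ) - eta R.t * dgY R.Gm y)
            = avY (fun y => (dgY (R.Fcl φ j) y : ℝ)) - eta R.t * R.κ
              + eta R.t * avY (fun y => (uY O y : ℝ)) := by
          have h8 : (fun y => (dgY (R.Fcl φ j) y : ℝ) - eta R.t * dgY R.Gm y)
              = (fun y => (dgY (R.Fcl φ j) y : ℝ) + ((-(eta R.t * R.κ)) + eta R.t * (uY O y : ℝ))) := by
            funext y
            have := hdYr y
            rw [hRG, ← this]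
            ring
          rw [h8, avY_add, avY_add, avY_smul]
          have h9 : avY (fun _ : Y => -(eta R.t * R.κ)) = -(eta R.t * R.κ) := by
            unfold avY
            rw [sum_const, card_univ, nsmul_eq_mul, mul_div_cancel_left₀ _ hc]
          rw [h9]
          ring
        rw [h7]
        have := hdYr y
        rw [hRG, ← this]
        ring
      rw [h6]
      refine SmY_mono _ _ _ ?_ _ h5
      refine le_trans ?_ (r06_sm R.t (eta R.t) R.κ R.n _ hT rfl hκr hn1 rfl)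
      have h10 : 0 ≤ 2 * (Real.sqrt (eta R.t * R.κ) * R.t) := by
        have := Real.sqrt_nonneg (eta R.t * R.κ)
        positivity
      have h11 : 20000 * (2 * (Real.sqrt (eta R.t * R.κ) * R.t)) / R.κ
          ≤ 40000 * (2 * (Real.sqrt (eta R.t * R.κ) * R.t)) / R.κ := by
        refine div_le_div_of_nonneg_right ?_ hκ0
        linarith
      linarith
    · intro A N
      have h1 := res_cut R hR φ hφ j hj A N
      rw [hRH] at h1
      exact h1
  · intro j _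
    unfold RCtx.Fcl
    rw [hRG]
    exact filter_subset _ _
  · intro i j _ _ hij
    unfold RCtx.Fcl
    refine disjoint_filter.2 (fun e _ h1 h2 => ?_)
    omega

end Pool.SCDH
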