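import Pool.Agent.Lib.SCDH.BDefs

/-!
# Reserves and level induction: definitions
-/

set_option linter.unusedSectionVars false

namespace Pool.SCDH

open Finset Pool.MP_0ccee8_co.Lib2

variable {X Y : Type} [Fintype X] [DecidableEq X] [Fintype Y] [DecidableEq Y]

/-- data of the random choice of the reserves; `Gm` = host minus outer edges, labels in `Fin (m+1)` -/
structure RCtx (X Y : Type) [Fintype X] [DecidableEq X] [Fintype Y] [DecidableEq Y] where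
  t : ℕ
  n : ℕ
  d : ℕ
  κ : ℕ
  m : ℕ
  H : Host X Y n d κ
  Gm : Finset (X × Y)

structure RCtxOK (ε : ℝ) (R : RCtx X Y) : Prop where
  big : Big ε R.t
  rng : Rng R.t R.n
  kap : R.t ^ 50 ≤ R.κ
  hm : R.m + 1 = 2 * R.t ^ 21
  sub : R.Gm ⊆ R.H.G
  half : ∀ A N, bd R.H.G A N ≤ 2 * bd R.Gm A N
  low : ∀ x, (99 : ℝ) / 100 * R.d ≤ (dgX R.Gm x : ℝ)
  lowY : ∀ y, (99 : ℝ) / 100 * R.κ ≤ (dgY R.Gm y : ℝ)

namespace RCtx

variable (R : RCtx X Y) (φ : X × Y → Fin (R.m + 1))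

/-- class `i` -/
def Ecl (i : ℕ) : Finset (X × Y) := R.Gm.filter (fun e => (φ e : ℕ) = i)
/-- reserve `j` = classes `2j` and `2j+1` -/
def Fcl (j : ℕ) : Finset (X × Y) := R.Gm.filter (fun e => (φ e : ℕ) = 2 * j ∨ (φ e : ℕ) = 2 * j + 1)

/-- local bad events -/
def rb : X ⊕ Y → Prop
  | .inl x => ∃ i : Fin (2 * R.t ^ 20), Real.sqrt (eta R.t * R.n) * R.t <
      |(dgX (R.Ecl φ i) x : ℝ) - eta R.t / 2 * dgX R.Gm x|
  | .inr y => ∃ i : Fin (2 * R.t ^ 20), Real.sqrt (eta R.t * R.κ) * R.t <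
      |(dgY (R.Ecl φ i) y : ℝ) - eta R.t / 2 * dgY R.Gm y|

variable (T : Finset (X ⊕ Y))

/-- the reserve sees the cuts certified by its first class -/
def rm1 (j : ℕ) : Prop :=
  (Nτ R.n : ℝ) * T.card ≤ (R.n : ℝ) ^ 3 * bd R.Gm (cX (R.Ecl φ (2 * j)) R.n T) (cY (R.Ecl φ (2 * j)) R.n T) ∧
  4 * (bd (R.Fcl φ j) (cX (R.Ecl φ (2 * j)) R.n T) (cY (R.Ecl φ (2 * j)) R.n T) : ℝ)
    < eta R.t * bd R.Gm (cX (R.Ecl φ (2 * j)) R.n T) (cY (R.Ecl φ (2 * j)) R.n T)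
/-- degree sums on sets certified by the host -/
def rm2X (j : ℕ) : Prop :=
  lam R.n * szT R.H.G R.n T < |∑ x ∈ cX R.H.G R.n T, ((dgX (R.Fcl φ j) x : ℝ) - eta R.t * dgX R.Gm x)|
def rm2Y (j : ℕ) : Prop :=
  lam R.n * szT R.H.G R.n T < |∑ y ∈ cY R.H.G R.n T, ((dgY (R.Fcl φ j) y : ℝ) - eta R.t * dgY R.Gm y)|

def rmAll : Prop := ∃ j : Fin (R.t ^ 20), R.rm1 φ T j ∨ R.rm2X φ T j ∨ R.rm2Y φ T j

structure RGood : Prop where
  loc : ∀ v, ¬ R.rb φ v
  mac : ∀ T, ¬ R.rmAll φ T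

end RCtx

open Classical in
/-- edges near a vertex -/
noncomputable def nearE {X Y : Type} [Fintype X] [DecidableEq X] [Fintype Y] [DecidableEq Y]
    (G : Finset (X × Y)) (v : X ⊕ Y) : Finset (X × Y) :=
  G.filter (fun e => Sum.inl e.1 ∈ ball G 1 {v})

open Classical in
/-- edges near a set -/
noncomputable def supE {X Y : Type} [Fintype X] [DecidableEq X] [Fintype Y] [DecidableEq Y]
    (G : Finset (X × Y)) (T : Finset (X ⊕ Y)) : Finset (X × Y) :=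
  G.filter (fun e => Sum.inl e.1 ∈ ball G (rW + 2) T)

/-- the edges used by a family of matchings -/
def usedE {C : Type} [Fintype C] (O : Outer X Y C) (M : C → X → Y) : Finset (X × Y) :=
  univ.filter (fun e => ∃ c, e.1 ∉ O.OX c ∧ e.2 = M c e.1)

/-- graph available before batch `j` (used edges not removed): no outer edges, no future reserves -/
def avail {K : ℕ} {n d κ : ℕ} (H : Host X Y n d κ) (t : ℕ) (O : Outer X Y (Fin K)) (F : ℕ → Finset (X × Y))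
    (j : ℕ) : Finset (X × Y) := (H.G \ O.U) \ (Ico j (t ^ 20)).biUnion F

/-- the family of reserves of one side -/
structure ResFam {K : ℕ} {n d κ : ℕ} (H : Host X Y n d κ) (t : ℕ) (O : Outer X Y (Fin K))
    (F : ℕ → Finset (X × Y)) : Prop where
  res : ∀ j < t ^ 20, Res H t (F j)
  sub : ∀ j < t ^ 20, F j ⊆ H.G \ O.U
  dis : ∀ i j, i < t ^ 20 → j < t ^ 20 → i ≠ j → Disjoint (F i) (F j)

/-- the first `m` colours are matched on one side, after `j` batches -/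
structure Half {K : ℕ} {n d κ : ℕ} (H : Host X Y n d κ) (t ω : ℕ) (O : Outer X Y (Fin K))
    (F : ℕ → Finset (X × Y)) (j m : ℕ) (hm : m ≤ K) (M : Fin m → X → Y) : Prop where
  mat : Mat (avail H t O F j) (O.comap (Fin.castLE hm)) M
  av : avY (fun y => (use (O.comap (Fin.castLE hm)) M y : ℝ))
    = (m : ℝ) * ((Fintype.card X - ω : ℕ) : ℝ) / Fintype.card Y
  dev : ∀ y, |(use (O.comap (Fin.castLE hm)) M y : ℝ)
    - avY (fun y => (use (O.comap (Fin.castLE hm)) M y : ℝ))| ≤ j * (3 * κ / (t : ℝ) ^ 26)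
  sm : SmY H.G (j * (11 / (t : ℝ) ^ 26)) (fun y => (use (O.comap (Fin.castLE hm)) M y : ℝ)
    - avY (fun y => (use (O.comap (Fin.castLE hm)) M y : ℝ)))

end Pool.SCDH
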