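import Pool.Agent.Lib.SCDH.RDefs
import Pool.Agent.Lib.SCDH.G01
import Pool.Agent.Lib.SCDH.G03
import Pool.Agent.Lib.SCDH.O01

/-!
# Row V01 (paper scd_h36.md)
Degrees of the bulk (exact).
Recipe: at x: the edges of H.G at x are: outer (uX, outer_deg), future reserves (pairwise disjoint, ⊆ G minus U), used (for every c < m with x ∉ OX c exactly one edge (x, M c x), different for different c by Mat.dis; they lie in avail by Mat.adj), and the bulk. At y: used edges at y: for every c with y ∈ imM c exactly one x (Mat.inj), different colours give different edges.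
-/

set_option linter.unusedSectionVars false
set_option linter.unusedVariables false

namespace Pool.SCDH

open Finset Pool.MP_0ccee8_co.Lib2

attribute [local irreducible] rW

variable {X Y : Type} [Fintype X] [DecidableEq X] [Fintype Y] [DecidableEq Y]
variable {ε : ℝ} {t n d κ ω K : ℕ}

private theorem dgX_def (Γ : Finset (X × Y)) (x : X) :
    dgX Γ x = (Γ.filter (fun e => e.1 = x)).card := by
  unfold dgX eB
  congr 1
  ext e
  simp only [mem_filter, mem_singleton, mem_univ, and_true]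

private theorem dgY_def (Γ : Finset (X × Y)) (y : Y) :
    dgY Γ y = (Γ.filter (fun e => e.2 = y)).card := by
  unfold dgY eB
  congr 1
  ext e
  simp only [mem_filter, mem_singleton, mem_univ, true_and]

private theorem filt_sdiff (Γ Δ : Finset (X × Y)) (q : X × Y → Prop) [DecidablePred q] :
    (Γ \ Δ).filter q = Γ.filter q \ Δ.filter q := by
  ext e
  simp only [mem_filter, mem_sdiff]
  tauto

private theorem dgX_sdiff (Γ Δ : Finset (X × Y)) (h : Δ ⊆ Γ) (x : X) :
    dgX (Γ \ Δ) x + dgX Δ x = dgX Γ x := by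
  rw [dgX_def, dgX_def, dgX_def, filt_sdiff]
  exact card_sdiff_add_card_eq_card (filter_subset_filter _ h)

private theorem dgY_sdiff (Γ Δ : Finset (X × Y)) (h : Δ ⊆ Γ) (y : Y) :
    dgY (Γ \ Δ) y + dgY Δ y = dgY Γ y := by
  rw [dgY_def, dgY_def, dgY_def, filt_sdiff]
  exact card_sdiff_add_card_eq_card (filter_subset_filter _ h)

private theorem dgX_biUnion (s : Finset ℕ) (F : ℕ → Finset (X × Y))
    (hd : ∀ i ∈ s, ∀ j ∈ s, i ≠ j → Disjoint (F i) (F j)) (x : X) :
    dgX (s.biUnion F) x = ∑ i ∈ s, dgX (F i) x := by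
  rw [dgX_def, filter_biUnion, card_biUnion]
  · refine sum_congr rfl fun i _ => ?_
    rw [dgX_def]
  · intro i hi j hj hij
    exact (hd i hi j hj hij).mono (filter_subset _ _) (filter_subset _ _)

private theorem dgY_biUnion (s : Finset ℕ) (F : ℕ → Finset (X × Y))
    (hd : ∀ i ∈ s, ∀ j ∈ s, i ≠ j → Disjoint (F i) (F j)) (y : Y) :
    dgY (s.biUnion F) y = ∑ i ∈ s, dgY (F i) y := by
  rw [dgY_def, filter_biUnion, card_biUnion]
  · refine sum_congr rfl fun i _ => ?_
    rw [dgY_def]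
  · intro i hi j hj hij
    exact (hd i hi j hj hij).mono (filter_subset _ _) (filter_subset _ _)

private theorem usedE_sub {C : Type} [Fintype C] (O : Outer X Y C) (Γ : Finset (X × Y))
    (M : C → X → Y) (hM : Mat Γ O M) : usedE O M ⊆ Γ := by
  intro e he
  rw [usedE, mem_filter] at he
  obtain ⟨-, c, h1, h2⟩ := he
  have := hM.adj c e.1 h1
  rw [← h2] at this
  exact this

private theorem usedE_dgX {C : Type} [Fintype C] (O : Outer X Y C) (Γ : Finset (X × Y))
    (M : C → X → Y) (hM : Mat Γ O M) (x : X) :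
    dgX (usedE O M) x + uX O x = Fintype.card C := by
  classical
  have h1 : (usedE O M).filter (fun e => e.1 = x) =
      (univ.filter (fun c : C => x ∉ O.OX c)).image (fun c => (x, M c x)) := by
    ext ⟨a, b⟩
    simp only [usedE, mem_filter, mem_univ, true_and, mem_image, Prod.mk.injEq]
    constructor
    · rintro ⟨⟨c, h1, h2⟩, rfl⟩
      exact ⟨c, h1, rfl, h2.symm⟩
    · rintro ⟨c, h1, rfl, rfl⟩
      exact ⟨⟨c, h1, rfl⟩, rfl⟩
  have h2 : (univ.filter (fun c : C => x ∉ O.OX c)).card = dgX (usedE O M) x := by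
    rw [dgX_def, h1, card_image_of_injOn]
    intro c hc c' hc' h
    simp only [coe_filter, mem_univ, true_and, Set.mem_ofPred_eq] at hc hc'
    by_contra hne
    exact hM.dis c c' hne x hc hc' (Prod.mk.inj h).2
  rw [← h2, uX, add_comm]
  have h3 := card_filter_add_card_filter_not (s := (univ : Finset C)) (fun c : C => x ∈ O.OX c)
  rw [card_univ] at h3
  exact h3

private theorem usedE_dgY {C : Type} [Fintype C] (O : Outer X Y C) (Γ : Finset (X × Y))
    (M : C → X → Y) (hM : Mat Γ O M) (y : Y) :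
    dgY (usedE O M) y = use O M y := by
  classical
  rw [dgY_def, use]
  symm
  -- the unique preimage
  have hex : ∀ c ∈ univ.filter (fun c : C => y ∈ imM O M c), ∃ x, x ∉ O.OX c ∧ M c x = y := by
    intro c hc
    rw [mem_filter, imM, mem_image] at hc
    obtain ⟨-, x, hx, h⟩ := hc
    exact ⟨x, (mem_filter.1 hx).2, h⟩
  choose g hg using hex
  refine card_bij (fun c hc => (g c hc, y)) ?_ ?_ ?_
  · intro c hc
    obtain ⟨h1, h2⟩ := hg c hc
    rw [mem_filter, usedE, mem_filter]
    exact ⟨⟨mem_univ _, c, h1, h2.symm⟩, rfl⟩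
  · intro c hc c' hc' h
    obtain ⟨h1, h2⟩ := hg c hc
    obtain ⟨h3, h4⟩ := hg c' hc'
    have h5 : g c hc = g c' hc' := (Prod.mk.inj h).1
    by_contra hne
    have := hM.dis c c' hne (g c hc) h1 (by rw [h5]; exact h3)
    apply this
    rw [h2, h5, h4]
  · rintro ⟨a, b⟩ he
    rw [mem_filter, usedE, mem_filter] at he
    obtain ⟨⟨-, c, h1, h2⟩, h3⟩ := he
    simp only at h1 h2 h3
    subst h3
    have hc : c ∈ univ.filter (fun c : C => b ∈ imM O M c) := by
      rw [mem_filter, imM, mem_image]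
      exact ⟨mem_univ _, a, mem_filter.2 ⟨mem_univ _, h1⟩, h2.symm⟩
    refine ⟨c, hc, ?_⟩
    obtain ⟨h4, h5⟩ := hg c hc
    rw [hM.inj c (g c hc) a h4 h1 (by rw [h5, ← h2])]

private theorem avail_sub (H : Host X Y n d κ) (O : Outer X Y (Fin K)) (F : ℕ → Finset (X × Y))
    (hF : ResFam H t O F) (j : ℕ) :
    (Ico j (t ^ 20)).biUnion F ⊆ H.G \ O.U := by
  intro e he
  rw [mem_biUnion] at he
  obtain ⟨i, hi, h⟩ := he
  exact hF.sub i (mem_Ico.1 hi).2 h

theorem bulk_degX (H : Host X Y n d κ) (O : Outer X Y (Fin K)) (hO : OutOK H t ω O) (F : ℕ → Finset (X × Y))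
    (hF : ResFam H t O F) (j m : ℕ) (hm : m ≤ K) (M : Fin m → X → Y)
    (hM : Mat (avail H t O F j) (O.comap (Fin.castLE hm)) M) (x : X) :
    dgX (avail H t O F j \ usedE (O.comap (Fin.castLE hm)) M) x + uX O x + ∑ i ∈ Ico j (t ^ 20), dgX (F i) x + m
      = d + uX (O.comap (Fin.castLE hm)) x := by
  have h1 := dgX_sdiff (avail H t O F j) (usedE (O.comap (Fin.castLE hm)) M)
    (usedE_sub _ _ M hM) x
  have h2 := usedE_dgX _ _ M hM x
  rw [Fintype.card_fin] at h2
  have h3 := dgX_sdiff (H.G \ O.U) ((Ico j (t ^ 20)).biUnion F) (avail_sub H O F hF j) x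
  have h4 := dgX_biUnion (Ico j (t ^ 20)) F (fun i hi i' hi' h =>
    hF.dis i i' (mem_Ico.1 hi).2 (mem_Ico.1 hi').2 h) x
  have h5 := (outer_deg H t ω O hO).1 x
  have h6 : avail H t O F j = (H.G \ O.U) \ (Ico j (t ^ 20)).biUnion F := rfl
  rw [← h6] at h3
  omega

theorem bulk_degY (H : Host X Y n d κ) (O : Outer X Y (Fin K)) (hO : OutOK H t ω O) (F : ℕ → Finset (X × Y))
    (hF : ResFam H t O F) (j m : ℕ) (hm : m ≤ K) (M : Fin m → X → Y)
    (hM : Mat (avail H t O F j) (O.comap (Fin.castLE hm)) M) (y : Y) :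
    dgY (avail H t O F j \ usedE (O.comap (Fin.castLE hm)) M) y + uY O y + ∑ i ∈ Ico j (t ^ 20), dgY (F i) y
      + use (O.comap (Fin.castLE hm)) M y = κ := by
  have h1 := dgY_sdiff (avail H t O F j) (usedE (O.comap (Fin.castLE hm)) M)
    (usedE_sub _ _ M hM) y
  have h2 := usedE_dgY _ _ M hM y
  have h3 := dgY_sdiff (H.G \ O.U) ((Ico j (t ^ 20)).biUnion F) (avail_sub H O F hF j) y
  have h4 := dgY_biUnion (Ico j (t ^ 20)) F (fun i hi i' hi' h =>
    hF.dis i i' (mem_Ico.1 hi).2 (mem_Ico.1 hi').2 h) y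
  have h5 := (outer_deg H t ω O hO).2 y
  have h6 : avail H t O F j = (H.G \ O.U) \ (Ico j (t ^ 20)).biUnion F := rfl
  rw [← h6] at h3
  omega

end Pool.SCDH
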