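import Pool.Agent.Lib.SCDH.RDefs
import Pool.Agent.Lib.SCDH.G01
import Pool.Agent.Lib.SCDH.G02
import Pool.Agent.Lib.SCDH.G03
import Pool.Agent.Lib.SCDH.G04
import Pool.Agent.Lib.SCDH.T01
import Pool.Agent.Lib.SCDH.O01
import Pool.Agent.Lib.SCDH.V01

/-!
# Row V02 (paper scd_h36.md)
The bulk is OK before every batch.
Recipe: V01. lowX: d - n/t^26 - 1.01 t^20 η d - (1/2-ε) n ≥ ε n/4 (n ≤ 2d, η t^20 = 1/t). lowY: avY use = m (|X|-ω)/|Y| ≤ (1/2-ε) n κ/d ≤ (1-2ε) κ; the rest κ (1/t^26 + 1.01/t + 3/t^6). devX/devY: deviations from the average: uX ≤ n/t^26, u_m ≤ n/t^26 (OutOK_comap), reserves 2·t^20·ηd/t^5 = 2d/t^6, usage j·3κ/t^26 ≤ 3κ/t^6 (j ≤ t^20). smX: outer_smX twice (6/t^26), reserves t^20 η/t^5 = 1/t^6 (SmX_sum); smY: + j·11/t^26 ≤ 11/t^6. Constants cancel: av is linear (T01).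
-/

set_option linter.unusedSectionVars false
set_option linter.unusedVariables false

namespace Pool.SCDH

open Finset Pool.MP_0ccee8_co.Lib2

variable {X Y : Type} [Fintype X] [DecidableEq X] [Fintype Y] [DecidableEq Y]
variable {ε : ℝ} {t n d κ ω K : ℕ}

/-- deviation from the mean -/
private lemma v02_dev {Z : Type} [Fintype Z] (f : Z → ℝ) (c δ : ℝ) (h : ∀ z, |f z - c| ≤ δ) (z : Z) :
    |f z - (∑ z, f z) / (Fintype.card Z : ℝ)| ≤ 2 * δ := by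
  have hpos : (0 : ℝ) < Fintype.card Z := by
    exact_mod_cast Fintype.card_pos_iff.2 ⟨z⟩
  have h1 : (∑ z, f z) / (Fintype.card Z : ℝ) - c = (∑ z, (f z - c)) / (Fintype.card Z : ℝ) := by
    rw [sum_sub_distrib, sum_const, card_univ, nsmul_eq_mul]
    field_simp
  have h2 : |(∑ z, f z) / (Fintype.card Z : ℝ) - c| ≤ δ := by
    rw [h1, abs_div, abs_of_pos hpos, div_le_iff₀ hpos]
    calc |∑ z, (f z - c)| ≤ ∑ z, |f z - c| := abs_sum_le_sum_abs _ _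
      _ ≤ ∑ _z : Z, δ := sum_le_sum (fun z _ => h z)
      _ = δ * Fintype.card Z := by rw [sum_const, card_univ, nsmul_eq_mul, mul_comm]
  have h3 := h z
  calc |f z - (∑ z, f z) / (Fintype.card Z : ℝ)|
      = |(f z - c) - ((∑ z, f z) / (Fintype.card Z : ℝ) - c)| := by ring_nf
    _ ≤ |f z - c| + |(∑ z, f z) / (Fintype.card Z : ℝ) - c| := abs_sub _ _
    _ ≤ 2 * δ := by linarith

private lemma v02_devX (f : X → ℝ) (c δ : ℝ) (h : ∀ z, |f z - c| ≤ δ) (z : X) :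
    |f z - avX f| ≤ 2 * δ := v02_dev f c δ h z

private lemma v02_devY (f : Y → ℝ) (c δ : ℝ) (h : ∀ z, |f z - c| ≤ δ) (z : Y) :
    |f z - avY f| ≤ 2 * δ := v02_dev f c δ h z

/-- numbers -/
private lemma v02_num (hB : Big ε t) : (1 : ℝ) < t ∧ (1 : ℝ) / t ≤ ε / 10 ^ 10 ∧
    (1 : ℝ) / (t : ℝ) ^ 26 ≤ 1 / (t : ℝ) ^ 6 / 10 ^ 10 ∧ (1 : ℝ) / (t : ℝ) ^ 6 ≤ 1 / (t : ℝ) ^ 5 / 10 ^ 10 ∧
    (1 : ℝ) / (t : ℝ) ^ 5 ≤ 1 / t / 10 ^ 10 ∧ (0 : ℝ) < 1 / (t : ℝ) ^ 26 := by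
  have ht := big_t hB
  have hb : (10 : ℝ) ^ 10 ≤ t := le_trans (by norm_num) ht
  have h0 : (0 : ℝ) < t := by linarith [show (0 : ℝ) < 10 ^ 10 by norm_num]
  have h1 : (1 : ℝ) ≤ t := by linarith [show (1 : ℝ) ≤ 10 ^ 10 by norm_num]
  refine ⟨by linarith [show (1 : ℝ) < 10 ^ 10 by norm_num], ?_, ?_, ?_, ?_, by positivity⟩
  · rw [div_le_div_iff₀ h0 (by norm_num)]
    have := hB.b1
    have h2 : (10 : ℝ) ^ 10 ≤ 10 ^ 100 := by norm_num
    linarith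
  · rw [div_div, div_le_div_iff₀ (by positivity) (by positivity), one_mul, one_mul]
    calc (t : ℝ) ^ 6 * 10 ^ 10 ≤ (t : ℝ) ^ 6 * t := by gcongr
      _ = (t : ℝ) ^ 7 := by ring
      _ ≤ (t : ℝ) ^ 26 := pow_le_pow_right₀ h1 (by norm_num)
  · rw [div_div, div_le_div_iff₀ (by positivity) (by positivity), one_mul, one_mul]
    calc (t : ℝ) ^ 5 * 10 ^ 10 ≤ (t : ℝ) ^ 5 * t := by gcongr
      _ = (t : ℝ) ^ 6 := by ring
  · rw [div_div, div_le_div_iff₀ (by positivity) (by positivity), one_mul, one_mul]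
    calc (t : ℝ) * 10 ^ 10 ≤ (t : ℝ) * t := by gcongr
      _ = (t : ℝ) ^ 2 := by ring
      _ ≤ (t : ℝ) ^ 5 := pow_le_pow_right₀ h1 (by norm_num)

/-- sum over the future reserves -/
private lemma v02_sum (ht : (1 : ℝ) < t) (j : ℕ) (g : ℕ → ℝ) (b : ℝ) (hb : 0 ≤ b)
    (h : ∀ i ∈ Ico j (t ^ 20), g i ≤ b) : ∑ i ∈ Ico j (t ^ 20), g i ≤ (t : ℝ) ^ 20 * b := by
  calc ∑ i ∈ Ico j (t ^ 20), g i ≤ ∑ _i ∈ Ico j (t ^ 20), b := sum_le_sum h
    _ = ((t ^ 20 - j : ℕ) : ℝ) * b := by rw [sum_const, Nat.card_Ico, nsmul_eq_mul]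
    _ ≤ (t : ℝ) ^ 20 * b := by
      refine mul_le_mul_of_nonneg_right ?_ hb
      exact_mod_cast Nat.sub_le _ _

theorem bulk_ok (hB : Big ε t) (hn : Rng t n) (H : Host X Y n d κ) (hκ : t ^ 50 ≤ κ)
    (hK : (K : ℝ) ≤ (1 / 2 - ε) * n) (O : Outer X Y (Fin K)) (hO : OutOK H t ω O) (F : ℕ → Finset (X × Y))
    (hF : ResFam H t O F) (j m : ℕ) (hj : j ≤ t ^ 20) (hm : m ≤ K) (M : Fin m → X → Y)
    (hM : Half H t ω O F j m hm M) :
    BulkOK H ε t (avail H t O F j \ usedE (O.comap (Fin.castLE hm)) M) := by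
  obtain ⟨ht1, q1, q2, q3, q4, q5⟩ := v02_num hB
  have ht0 : (0 : ℝ) < t := by linarith
  have htn : 1 ≤ t := by
    have : (0 : ℝ) < (t : ℝ) := ht0
    exact_mod_cast this
  have hε := hB.e0
  have hε2 := hB.e1
  obtain ⟨O', hO'⟩ : ∃ O' : Outer X Y (Fin m), O' = O.comap (Fin.castLE hm) := ⟨_, rfl⟩
  have hOO : OutOK H t ω O' := by
    rw [hO']; exact OutOK_comap H t ω O _ (Fin.castLE_injective hm) hO
  obtain ⟨Hb, hHb⟩ : ∃ Hb, Hb = avail H t O F j \ usedE (O.comap (Fin.castLE hm)) M := ⟨_, rfl⟩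
  have hdX : ∀ x, (dgX Hb x : ℝ) = (d : ℝ) - m + uX O' x - uX O x - ∑ i ∈ Ico j (t ^ 20), (dgX (F i) x : ℝ) := by
    intro x
    have h := bulk_degX H O hO F hF j m hm M hM.mat x
    rw [← hHb, ← hO'] at h
    have h' : (dgX Hb x : ℝ) + uX O x + ∑ i ∈ Ico j (t ^ 20), (dgX (F i) x : ℝ) + m = d + uX O' x := by
      exact_mod_cast h
    linarith
  have hdY : ∀ y, (dgY Hb y : ℝ) = (κ : ℝ) - uY O y - ∑ i ∈ Ico j (t ^ 20), (dgY (F i) y : ℝ) - use O' M y := by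
    intro y
    have h := bulk_degY H O hO F hF j m hm M hM.mat y
    rw [← hHb, ← hO'] at h
    have h' : (dgY Hb y : ℝ) + uY O y + ∑ i ∈ Ico j (t ^ 20), (dgY (F i) y : ℝ) + use O' M y = κ := by
      exact_mod_cast h
    linarith
  -- numbers
  have hnpos : 0 < n := by
    have := hn.1
    exact lt_of_lt_of_le (by positivity) this
  have hn0 : (0 : ℝ) < n := by exact_mod_cast hnpos
  have hκ0 : (0 : ℝ) < κ := by exact_mod_cast H.hκ
  have hd0 : (0 : ℝ) < d := by exact_mod_cast lt_of_lt_of_le H.hκ H.hκd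
  have hd1 : (n : ℝ) ≤ 2 * d := by exact_mod_cast H.hd1
  have hd2 : (d : ℝ) ≤ n := by exact_mod_cast H.hd2
  have hT26 : (0 : ℝ) < (t : ℝ) ^ 26 := by positivity
  have hmr : (m : ℝ) ≤ (1 / 2 - ε) * n := le_trans (by exact_mod_cast hm) hK
  have hm0 : (0 : ℝ) ≤ m := Nat.cast_nonneg _
  have hjr : (j : ℝ) ≤ (t : ℝ) ^ 20 := by exact_mod_cast hj
  have hj0 : (0 : ℝ) ≤ j := Nat.cast_nonneg _
  have hXne : (Fintype.card X : ℝ) ≠ 0 := by
    have h1 := H.bigX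
    have h2 : 0 < Fintype.card X := lt_of_lt_of_le (by positivity) h1
    exact_mod_cast h2.ne'
  have hXpos : (0 : ℝ) < Fintype.card X := lt_of_le_of_ne (Nat.cast_nonneg _) (Ne.symm hXne)
  have hYpos : (0 : ℝ) < Fintype.card Y := by
    have hc := host_card H
    have h2 : 0 < Fintype.card X * d := by
      have h3 : 0 < Fintype.card X := by exact_mod_cast hXpos
      have h4 : 0 < d := by exact_mod_cast hd0
      positivity
    rw [hc] at h2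
    have h5 : 0 < Fintype.card Y := Nat.pos_of_mul_pos_right h2
    exact_mod_cast h5
  have hη : eta t = 1 / (t : ℝ) ^ 21 := rfl
  have hη0 : 0 < eta t := by rw [hη]; positivity
  have hηt : (t : ℝ) ^ 20 * eta t = 1 / t := by
    rw [hη]; field_simp
  have hηt5 : (t : ℝ) ^ 20 * (eta t / (t : ℝ) ^ 5) = 1 / (t : ℝ) ^ 6 := by
    rw [hη]; field_simp
  have huX : ∀ (x : X), (uX O x : ℝ) ≤ n * (1 / (t : ℝ) ^ 26) := by
    intro x
    rw [mul_one_div, le_div_iff₀ hT26]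
    have := hO.o4X x
    rw [mul_comm]
    exact_mod_cast this
  have huX' : ∀ (x : X), (uX O' x : ℝ) ≤ n * (1 / (t : ℝ) ^ 26) := by
    intro x
    rw [mul_one_div, le_div_iff₀ hT26]
    have := hOO.o4X x
    rw [mul_comm]
    exact_mod_cast this
  have huY : ∀ (y : Y), (uY O y : ℝ) ≤ κ * (1 / (t : ℝ) ^ 26) := by
    intro y
    rw [mul_one_div, le_div_iff₀ hT26]
    have := hO.o4Y y
    rw [mul_comm]
    exact_mod_cast this
  have hIco : ∀ i ∈ Ico j (t ^ 20), i < t ^ 20 := fun i hi => (mem_Ico.1 hi).2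
  have hRX : ∀ x, ∑ i ∈ Ico j (t ^ 20), (dgX (F i) x : ℝ) ≤ (1 / t + 1 / (t : ℝ) ^ 6) * d := by
    intro x
    have h1 := v02_sum ht1 j (fun i => (dgX (F i) x : ℝ)) (eta t * d + eta t * d / (t : ℝ) ^ 5) (by positivity)
      (fun i hi => by
        have := (abs_le.1 ((hF.res i (hIco i hi)).degX x)).2
        linarith)
    refine h1.trans (le_of_eq ?_)
    have e1 : (t : ℝ) ^ 20 * (eta t * d + eta t * d / (t : ℝ) ^ 5)
      = ((t : ℝ) ^ 20 * eta t) * d + ((t : ℝ) ^ 20 * (eta t / (t : ℝ) ^ 5)) * d := by ring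
    rw [e1, hηt, hηt5]; ring
  have hRY : ∀ y, ∑ i ∈ Ico j (t ^ 20), (dgY (F i) y : ℝ) ≤ (1 / t + 1 / (t : ℝ) ^ 6) * κ := by
    intro y
    have h1 := v02_sum ht1 j (fun i => (dgY (F i) y : ℝ)) (eta t * κ + eta t * κ / (t : ℝ) ^ 5) (by positivity)
      (fun i hi => by
        have := (abs_le.1 ((hF.res i (hIco i hi)).degY y)).2
        linarith)
    refine h1.trans (le_of_eq ?_)
    have e1 : (t : ℝ) ^ 20 * (eta t * κ + eta t * κ / (t : ℝ) ^ 5)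
      = ((t : ℝ) ^ 20 * eta t) * κ + ((t : ℝ) ^ 20 * (eta t / (t : ℝ) ^ 5)) * κ := by ring
    rw [e1, hηt, hηt5]; ring
  have hj26 : (j : ℝ) * (1 / (t : ℝ) ^ 26) ≤ 1 / (t : ℝ) ^ 6 := by
    calc (j : ℝ) * (1 / (t : ℝ) ^ 26) ≤ (t : ℝ) ^ 20 * (1 / (t : ℝ) ^ 26) := by gcongr
      _ = 1 / (t : ℝ) ^ 6 := by field_simp
  have huse : ∀ y, |(use O' M y : ℝ) - avY (fun y => (use O' M y : ℝ))| ≤ 3 * κ * (1 / (t : ℝ) ^ 6) := by
    intro y
    have h1 := hM.dev y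
    rw [← hO'] at h1
    refine h1.trans ?_
    calc (j : ℝ) * (3 * κ / (t : ℝ) ^ 26) = 3 * κ * (j * (1 / (t : ℝ) ^ 26)) := by ring
      _ ≤ 3 * κ * (1 / (t : ℝ) ^ 6) := by gcongr
  have hav : avY (fun y => (use O' M y : ℝ)) ≤ (1 - 2 * ε) * κ := by
    have h1 := hM.av
    rw [← hO'] at h1
    rw [h1, div_le_iff₀ hYpos]
    have h2 : ((Fintype.card X - ω : ℕ) : ℝ) ≤ Fintype.card X := by exact_mod_cast Nat.sub_le _ _
    have h3 : (Fintype.card X : ℝ) * d = Fintype.card Y * κ := by exact_mod_cast host_card H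
    refine le_of_mul_le_mul_right ?_ hd0
    calc (m : ℝ) * ((Fintype.card X - ω : ℕ) : ℝ) * d ≤ m * Fintype.card X * d := by gcongr
      _ = m * (Fintype.card Y * κ) := by rw [mul_assoc, h3]
      _ ≤ ((1 / 2 - ε) * n) * (Fintype.card Y * κ) := by gcongr
      _ ≤ ((1 / 2 - ε) * (2 * d)) * (Fintype.card Y * κ) := by
        have : (0 : ℝ) ≤ 1 / 2 - ε := by linarith
        gcongr
      _ = (1 - 2 * ε) * κ * Fintype.card Y * d := by ring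
  -- the averaged functions
  have hfX : (fun x => (dgX Hb x : ℝ) - avX (fun x => (dgX Hb x : ℝ))) = fun x =>
      (((uX O' x : ℝ) - avX (fun x => (uX O' x : ℝ))) + (-1) * ((uX O x : ℝ) - avX (fun x => (uX O x : ℝ))))
      + (-1) * ∑ i ∈ Ico j (t ^ 20), ((dgX (F i) x : ℝ) - avX (fun x => (dgX (F i) x : ℝ))) := by
    have h1 : avX (fun x => (dgX Hb x : ℝ)) = (d : ℝ) - m + avX (fun x => (uX O' x : ℝ))
        - avX (fun x => (uX O x : ℝ)) - ∑ i ∈ Ico j (t ^ 20), avX (fun x => (dgX (F i) x : ℝ)) := by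
      rw [← avX_sum]
      unfold avX
      simp_rw [hdX]
      rw [sum_sub_distrib, sum_sub_distrib, sum_add_distrib, sum_const, card_univ, nsmul_eq_mul]
      field_simp
    funext x
    rw [h1, hdX x, sum_sub_distrib]
    ring
  have hfY : (fun y => (dgY Hb y : ℝ) - avY (fun y => (dgY Hb y : ℝ))) = fun y =>
      ((-1) * ((uY O y : ℝ) - avY (fun y => (uY O y : ℝ))) + (-1) * ((use O' M y : ℝ) - avY (fun y => (use O' M y : ℝ))))
      + (-1) * ∑ i ∈ Ico j (t ^ 20), ((dgY (F i) y : ℝ) - avY (fun y => (dgY (F i) y : ℝ))) := by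
    have h1 : avY (fun y => (dgY Hb y : ℝ)) = (κ : ℝ) - avY (fun y => (uY O y : ℝ))
        - ∑ i ∈ Ico j (t ^ 20), avY (fun y => (dgY (F i) y : ℝ)) - avY (fun y => (use O' M y : ℝ)) := by
      rw [← avY_sum]
      unfold avY
      simp_rw [hdY]
      rw [sum_sub_distrib, sum_sub_distrib, sum_sub_distrib, sum_const, card_univ, nsmul_eq_mul]
      field_simp
    funext y
    rw [h1, hdY y, sum_sub_distrib]
    ring
  rw [← hHb]
  have hHbG : Hb ⊆ H.G := by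
    rw [hHb]
    unfold avail
    exact sdiff_subset.trans (sdiff_subset.trans sdiff_subset)
  have e26 : (0 : ℝ) ≤ 1 / (t : ℝ) ^ 26 := q5.le
  have e6 : (0 : ℝ) ≤ 1 / (t : ℝ) ^ 6 := by positivity
  have e5 : (0 : ℝ) ≤ 1 / (t : ℝ) ^ 5 := by positivity
  have e1 : (0 : ℝ) ≤ 1 / (t : ℝ) := by positivity
  have r1 : (1 : ℝ) / t ≤ ε / 1000 := by linarith
  have r5 : (1 : ℝ) / (t : ℝ) ^ 5 ≤ ε / 1000 := by linarith
  have r6 : (1 : ℝ) / (t : ℝ) ^ 6 ≤ ε / 1000 := by linarith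
  have r26 : (1 : ℝ) / (t : ℝ) ^ 26 ≤ ε / 1000 := by linarith
  have r65 : (1 : ℝ) / (t : ℝ) ^ 6 ≤ 1 / (t : ℝ) ^ 5 / 1000 := by linarith
  have r265 : (1 : ℝ) / (t : ℝ) ^ 26 ≤ 1 / (t : ℝ) ^ 5 / 1000 := by linarith
  clear q1 q2 q3 q4
  refine ⟨hHbG, ?_, ?_, ?_, ?_, ?_, ?_⟩
  · intro x
    rw [hdX x]
    have h1 := huX x
    have h2 := hRX x
    have h3 : (0 : ℝ) ≤ uX O' x := Nat.cast_nonneg _
    have h4 : (n : ℝ) * (1 / (t : ℝ) ^ 26) ≤ n * (ε / 1000) := mul_le_mul_of_nonneg_left r26 hn0.le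
    have h5 : (1 / (t : ℝ) + 1 / (t : ℝ) ^ 6) * d ≤ (ε / 500) * n :=
      mul_le_mul (by linarith) hd2 hd0.le (by positivity)
    have h6 : (0 : ℝ) < ε * n := by positivity
    have h7 : (1 / 2 - ε) * n = n / 2 - ε * n := by ring
    have h8 : (n : ℝ) * (ε / 1000) = ε * n / 1000 := by ring
    have h9 : (ε / 500) * (n : ℝ) = ε * n / 500 := by ring
    rw [h7] at hmr
    rw [h8] at h4
    rw [h9] at h5
    have h10 : ε * (n : ℝ) / 4 = (ε * n) / 4 := rfl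
    linarith
  · intro y
    rw [hdY y]
    have h1 := huY y
    have h2 := hRY y
    have h3 := (abs_le.1 (huse y)).2
    have h4 : (κ : ℝ) * (1 / (t : ℝ) ^ 26) ≤ κ * (ε / 1000) := mul_le_mul_of_nonneg_left r26 hκ0.le
    have h5 : (1 / (t : ℝ) + 1 / (t : ℝ) ^ 6) * κ ≤ (ε / 500) * κ :=
      mul_le_mul_of_nonneg_right (by linarith) hκ0.le
    have h6 : (0 : ℝ) < ε * κ := by positivity
    have h7 : 3 * (κ : ℝ) * (1 / (t : ℝ) ^ 6) ≤ 3 * κ * (ε / 1000) :=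
      mul_le_mul_of_nonneg_left r6 (by positivity)
    have e4 : (κ : ℝ) * (ε / 1000) = ε * κ / 1000 := by ring
    have e5' : (ε / 500) * (κ : ℝ) = ε * κ / 500 := by ring
    have e7 : 3 * (κ : ℝ) * (ε / 1000) = 3 * (ε * κ) / 1000 := by ring
    have e8 : (1 - 2 * ε) * (κ : ℝ) = κ - 2 * (ε * κ) := by ring
    rw [e4] at h4
    rw [e5'] at h5
    rw [e7] at h7
    rw [e8] at hav
    have h10 : ε * (κ : ℝ) / 4 = (ε * κ) / 4 := rfl
    linarith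
  · intro x
    have h0 := congrFun hfX x
    rw [h0]
    have h1 : |(uX O' x : ℝ) - avX (fun x => (uX O' x : ℝ))| ≤ 2 * (n * (1 / (t : ℝ) ^ 26)) := by
      refine v02_devX (fun x => (uX O' x : ℝ)) 0 _ (fun z => ?_) x
      rw [sub_zero, abs_of_nonneg (Nat.cast_nonneg _)]
      exact huX' z
    have h2 : |(uX O x : ℝ) - avX (fun x => (uX O x : ℝ))| ≤ 2 * (n * (1 / (t : ℝ) ^ 26)) := by
      refine v02_devX (fun x => (uX O x : ℝ)) 0 _ (fun z => ?_) x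
      rw [sub_zero, abs_of_nonneg (Nat.cast_nonneg _)]
      exact huX z
    have h3 : |∑ i ∈ Ico j (t ^ 20), ((dgX (F i) x : ℝ) - avX (fun x => (dgX (F i) x : ℝ)))|
        ≤ (t : ℝ) ^ 20 * (2 * (eta t * d / (t : ℝ) ^ 5)) := by
      refine (abs_sum_le_sum_abs _ _).trans (v02_sum ht1 j _ _ (by positivity) (fun i hi => ?_))
      exact v02_devX _ _ _ (hF.res i (hIco i hi)).degX x
    have h4 : (t : ℝ) ^ 20 * (2 * (eta t * d / (t : ℝ) ^ 5)) = 2 * d * (1 / (t : ℝ) ^ 6) := by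
      rw [← hηt5]; ring
    rw [h4] at h3
    have h5 : 2 * (d : ℝ) * (1 / (t : ℝ) ^ 6) ≤ 2 * n * (1 / (t : ℝ) ^ 5 / 1000) :=
      mul_le_mul (by linarith) r65 e6 (by positivity)
    have h6 : (n : ℝ) * (1 / (t : ℝ) ^ 26) ≤ n * (1 / (t : ℝ) ^ 5 / 1000) :=
      mul_le_mul_of_nonneg_left r265 hn0.le
    have h8 : (n : ℝ) / (t : ℝ) ^ 5 = n * (1 / (t : ℝ) ^ 5) := by ring
    have h9 : 2 * (n : ℝ) * (1 / (t : ℝ) ^ 5 / 1000) = 2 * (n * (1 / (t : ℝ) ^ 5)) / 1000 := by ring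
    have h10 : (n : ℝ) * (1 / (t : ℝ) ^ 5 / 1000) = (n * (1 / (t : ℝ) ^ 5)) / 1000 := by ring
    rw [h8]
    rw [h9] at h5
    rw [h10] at h6
    have h7 : (0 : ℝ) ≤ n * (1 / (t : ℝ) ^ 5) := by positivity
    generalize (n : ℝ) * (1 / (t : ℝ) ^ 5) = w at *
    generalize (n : ℝ) * (1 / (t : ℝ) ^ 26) = w1 at *
    generalize 2 * (d : ℝ) * (1 / (t : ℝ) ^ 6) = w2 at *
    generalize ∑ i ∈ Ico j (t ^ 20), ((dgX (F i) x : ℝ) - avX (fun x => (dgX (F i) x : ℝ))) = w3 at *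
    generalize (uX O' x : ℝ) - avX (fun x => (uX O' x : ℝ)) = w4 at *
    generalize (uX O x : ℝ) - avX (fun x => (uX O x : ℝ)) = w5 at *
    clear hRX hRY hdX hdY hfX hfY h0 huse huX huX' huY
    rw [abs_le] at h1 h2 h3 ⊢
    constructor <;> linarith [h1.1, h1.2, h2.1, h2.2, h3.1, h3.2]
  · intro y
    have h0 := congrFun hfY y
    rw [h0]
    have h1 := huse y
    have h2 : |(uY O y : ℝ) - avY (fun y => (uY O y : ℝ))| ≤ 2 * (κ * (1 / (t : ℝ) ^ 26)) := by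
      refine v02_devY (fun y => (uY O y : ℝ)) 0 _ (fun z => ?_) y
      rw [sub_zero, abs_of_nonneg (Nat.cast_nonneg _)]
      exact huY z
    have h3 : |∑ i ∈ Ico j (t ^ 20), ((dgY (F i) y : ℝ) - avY (fun y => (dgY (F i) y : ℝ)))|
        ≤ (t : ℝ) ^ 20 * (2 * (eta t * κ / (t : ℝ) ^ 5)) := by
      refine (abs_sum_le_sum_abs _ _).trans (v02_sum ht1 j _ _ (by positivity) (fun i hi => ?_))
      exact v02_devY _ _ _ (hF.res i (hIco i hi)).degY y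
    have h4 : (t : ℝ) ^ 20 * (2 * (eta t * κ / (t : ℝ) ^ 5)) = 2 * κ * (1 / (t : ℝ) ^ 6) := by
      rw [← hηt5]; ring
    rw [h4] at h3
    have h5 : (κ : ℝ) * (1 / (t : ℝ) ^ 6) ≤ κ * (1 / (t : ℝ) ^ 5 / 1000) :=
      mul_le_mul_of_nonneg_left r65 hκ0.le
    have h6 : (κ : ℝ) * (1 / (t : ℝ) ^ 26) ≤ κ * (1 / (t : ℝ) ^ 5 / 1000) :=
      mul_le_mul_of_nonneg_left r265 hκ0.le
    have h8 : (κ : ℝ) / (t : ℝ) ^ 5 = κ * (1 / (t : ℝ) ^ 5) := by ring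
    have h9 : (κ : ℝ) * (1 / (t : ℝ) ^ 5 / 1000) = (κ * (1 / (t : ℝ) ^ 5)) / 1000 := by ring
    have h10 : 3 * (κ : ℝ) * (1 / (t : ℝ) ^ 6) = 3 * (κ * (1 / (t : ℝ) ^ 6)) := by ring
    have h11 : 2 * (κ : ℝ) * (1 / (t : ℝ) ^ 6) = 2 * (κ * (1 / (t : ℝ) ^ 6)) := by ring
    rw [h8]
    rw [h9] at h5 h6
    rw [h10] at h1
    rw [h11] at h3
    have h7 : (0 : ℝ) ≤ κ * (1 / (t : ℝ) ^ 5) := by positivity
    generalize (κ : ℝ) * (1 / (t : ℝ) ^ 5) = w at *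
    generalize (κ : ℝ) * (1 / (t : ℝ) ^ 26) = w1 at *
    generalize (κ : ℝ) * (1 / (t : ℝ) ^ 6) = w2 at *
    generalize ∑ i ∈ Ico j (t ^ 20), ((dgY (F i) y : ℝ) - avY (fun y => (dgY (F i) y : ℝ))) = w3 at *
    generalize (use O' M y : ℝ) - avY (fun y => (use O' M y : ℝ)) = w4 at *
    generalize (uY O y : ℝ) - avY (fun y => (uY O y : ℝ)) = w5 at *
    clear hRX hRY hdX hdY hfX hfY h0 huse huX huX' huY
    rw [abs_le] at h1 h2 h3 ⊢
    constructor <;> linarith [h1.1, h1.2, h2.1, h2.2, h3.1, h3.2]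
  · rw [hfX]
    have s1 := outer_smX H t ω htn O' hOO
    have s2 := SmX_smul H.G _ (-1) _ (outer_smX H t ω htn O hO)
    have s3 := SmX_smul H.G _ (-1) _ (SmX_sum H.G (Ico j (t ^ 20)) (fun _ => eta t / (t : ℝ) ^ 5)
      (fun i x => (dgX (F i) x : ℝ) - avX (fun x => (dgX (F i) x : ℝ))) (fun i hi => (hF.res i (hIco i hi)).smX))
    refine SmX_mono H.G _ _ ?_ _ (SmX_add H.G _ _ _ _ (SmX_add H.G _ _ _ _ s1 s2) s3)
    rw [abs_neg, abs_one, one_mul, one_mul]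
    have h1 := v02_sum ht1 j (fun _ => eta t / (t : ℝ) ^ 5) (eta t / (t : ℝ) ^ 5) (by positivity)
      (fun i hi => le_rfl)
    rw [hηt5] at h1
    have h2 : (6 : ℝ) / (t : ℝ) ^ 26 = 6 * (1 / (t : ℝ) ^ 26) := by ring
    rw [h2]
    linarith
  · rw [hfY]
    have s1 := SmY_smul H.G _ (-1) _ (outer_smY H t ω htn O hO)
    have s0 := hM.sm
    rw [← hO'] at s0
    have s2 := SmY_smul H.G _ (-1) _ s0
    have s3 := SmY_smul H.G _ (-1) _ (SmY_sum H.G (Ico j (t ^ 20)) (fun _ => eta t / (t : ℝ) ^ 5)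
      (fun i y => (dgY (F i) y : ℝ) - avY (fun y => (dgY (F i) y : ℝ))) (fun i hi => (hF.res i (hIco i hi)).smY))
    refine SmY_mono H.G _ _ ?_ _ (SmY_add H.G _ _ _ _ (SmY_add H.G _ _ _ _ s1 s2) s3)
    rw [abs_neg, abs_one, one_mul, one_mul, one_mul]
    have h1 := v02_sum ht1 j (fun _ => eta t / (t : ℝ) ^ 5) (eta t / (t : ℝ) ^ 5) (by positivity)
      (fun i hi => le_rfl)
    rw [hηt5] at h1
    have h2 : (6 : ℝ) / (t : ℝ) ^ 26 = 6 * (1 / (t : ℝ) ^ 26) := by ring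
    have h3 : (j : ℝ) * (11 / (t : ℝ) ^ 26) = 11 * (j * (1 / (t : ℝ) ^ 26)) := by ring
    rw [h2, h3]
    linarith

end Pool.SCDH
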