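import Pool.Agent.Lib.SCDH.RDefs
import Pool.Agent.Lib.SCDH.G03
import Pool.Agent.Lib.SCDH.G04
import Pool.Agent.Lib.SCDH.O01
import Pool.Agent.Lib.SCDH.V02

/-!
# Row V03 (paper scd_h36.md)
The context of the next batch.
Recipe: B0 := n / t^20 (natural division): t^20 B0 ≤ n ≤ 2 t^20 B0. s: 3κB0/(2d) ≤ s+1 ≤ 2κB0/d: κB0/(2d) ≥ 1 as κ ≥ t^50, B0 ≥ n/(2t^20) ≥ d/(2t^20): take s+1 = ceil. a+1 = |Y| - ω (ω < |Y|: om), z+1 = n^20. The batch colours are c ↦ Fin.natAdd m c inside Fin K (as Fin.castLE hm2 (Fin.natAdd m c)). The numbers a z s are chosen once (they do not depend on O, F).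
-/

set_option linter.unusedSectionVars false
set_option linter.unusedVariables false

namespace Pool.SCDH

open Finset Pool.MP_0ccee8_co.Lib2

variable {X Y : Type} [Fintype X] [DecidableEq X] [Fintype Y] [DecidableEq Y]
variable {ε : ℝ} {t n d κ ω K : ℕ}

theorem batch_numbers (hB : Big ε t) (hn : Rng t n) (H : Host X Y n d κ) (hκ : t ^ 50 ≤ κ)
    (O : Outer X Y (Fin K)) (hO : OutOK H t ω O) (h0 : 0 < K) : ∃ a z s B0 : ℕ,
    n ≤ 2 * (t ^ 20 * B0) ∧ t ^ 20 * B0 ≤ n ∧ 3 * (κ * B0) ≤ 2 * (d * (s + 1)) ∧ d * (s + 1) ≤ 2 * (κ * B0) ∧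
    a + 1 + ω = Fintype.card Y ∧ z + 1 = n ^ 20 := by
  have ht : 10 ≤ t := by
    have h1 := big_t hB
    have h2 : (10 : ℝ) ≤ (t : ℝ) := le_trans (by norm_num) h1
    exact_mod_cast h2
  have htp : ∀ m : ℕ, 0 < t ^ m := fun m => pow_pos (by omega) m
  have hn1 : t ^ 200 ≤ n := hn.1
  have hd1 := H.hd1
  have hd2 := H.hd2
  have hκ1 := H.hκ
  have hκd := H.hκd
  have hd0 : 0 < d := by omega
  -- B0
  obtain ⟨B0, hB0⟩ : ∃ B0, B0 = n / t ^ 20 := ⟨_, rfl⟩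
  have hb1 : t ^ 20 * B0 ≤ n := by rw [hB0]; exact Nat.mul_div_le _ _
  have hb2 : n < t ^ 20 * (B0 + 1) := by
    rw [hB0]; exact Nat.lt_mul_div_succ n (htp 20)
  have hb3 : 1 ≤ B0 := by
    rw [hB0, Nat.one_le_div_iff (htp 20)]
    refine le_trans ?_ hn1
    exact Nat.pow_le_pow_right (by omega) (by norm_num)
  have hb4 : n ≤ 2 * (t ^ 20 * B0) := by
    have : t ^ 20 * 1 ≤ t ^ 20 * B0 := Nat.mul_le_mul_left _ hb3
    have e : t ^ 20 * (B0 + 1) = t ^ 20 * B0 + t ^ 20 := by ring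
    omega
  have hkey : 2 * d ≤ κ * B0 := by
    have g1 : t ^ 50 * B0 ≤ κ * B0 := Nat.mul_le_mul_right _ hκ
    have g2 : t ^ 50 * B0 = t ^ 30 * (t ^ 20 * B0) := by rw [← mul_assoc, ← pow_add]
    have g3 : 4 ≤ t ^ 30 := le_trans (by omega : 4 ≤ t) (Nat.le_self_pow (by norm_num) t)
    have g4 : 4 * (t ^ 20 * B0) ≤ t ^ 30 * (t ^ 20 * B0) := Nat.mul_le_mul_right _ g3
    omega
  obtain ⟨q, hq⟩ : ∃ q, q = (3 * (κ * B0) + 2 * d - 1) / (2 * d) := ⟨_, rfl⟩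
  have hq1 : 2 * d * q ≤ 3 * (κ * B0) + 2 * d - 1 := by rw [hq]; exact Nat.mul_div_le _ _
  have hq2 : 3 * (κ * B0) + 2 * d - 1 < 2 * d * (q + 1) := by
    rw [hq]; exact Nat.lt_mul_div_succ _ (by omega)
  have hq3 : 3 * (κ * B0) ≤ 2 * d * q := by
    have e : 2 * d * (q + 1) = 2 * d * q + 2 * d := by ring
    omega
  have hq4 : 1 ≤ q := by
    rcases Nat.eq_zero_or_pos q with h | h
    · rw [h] at hq3; omega
    · exact h
  obtain ⟨s, rfl⟩ : ∃ s, q = s + 1 := ⟨q - 1, by omega⟩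
  have hcard := host_card H
  have hXY : Fintype.card X ≤ Fintype.card Y := by
    have : Fintype.card X * d ≤ Fintype.card Y * d := by
      rw [hcard]; exact Nat.mul_le_mul_left _ hκd
    exact Nat.le_of_mul_le_mul_right this hd0
  have hX0 : 0 < Fintype.card X := by
    refine lt_of_lt_of_le ?_ H.bigX
    exact pow_pos (by omega) _
  have hω : ω < Fintype.card Y := by
    have g1 := hO.om
    have g2 : 2 * ω ≤ t ^ 26 * (κ * ω) := by
      have g3 : 2 * 1 ≤ t ^ 26 * κ := Nat.mul_le_mul (le_trans (by omega : 2 ≤ t) (Nat.le_self_pow (by norm_num) t)) hκ1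
      calc 2 * ω = 2 * 1 * ω := by ring
        _ ≤ t ^ 26 * κ * ω := Nat.mul_le_mul_right _ g3
        _ = t ^ 26 * (κ * ω) := by ring
    omega
  have hn0 : 0 < n ^ 20 := pow_pos (by omega) _
  have e1 : 2 * d * (s + 1) = 2 * (d * (s + 1)) := by ring
  refine ⟨Fintype.card Y - ω - 1, n ^ 20 - 1, s, B0, hb4, hb1, ?_, ?_, ?_, ?_⟩
  · omega
  · omega
  · omega
  · omega

theorem ctx_of_half (hB : Big ε t) (hn : Rng t n) (H : Host X Y n d κ) (hκ : t ^ 50 ≤ κ)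
    (hK : (K : ℝ) ≤ (1 / 2 - ε) * n) (O : Outer X Y (Fin K)) (hO : OutOK H t ω O) (F : ℕ → Finset (X × Y))
    (hF : ResFam H t O F) (j m : ℕ) (hj : j < t ^ 20) (hm : m ≤ K) (M : Fin m → X → Y)
    (hM : Half H t ω O F j m hm M) (a z s B0 B : ℕ)
    (h1 : n ≤ 2 * (t ^ 20 * B0)) (h2 : t ^ 20 * B0 ≤ n) (h3 : 3 * (κ * B0) ≤ 2 * (d * (s + 1)))
    (h4 : d * (s + 1) ≤ 2 * (κ * B0)) (h5 : a + 1 + ω = Fintype.card Y) (h6 : z + 1 = n ^ 20)
    (hB0 : B ≤ B0) (hmB : m + B ≤ K) :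
    CtxOK ({ ε := ε, t := t, n := n, d := d, κ := κ, ω := ω, B := B, B0 := B0, a := a, z := z, s := s, H := H,
             O := O.comap (fun c : Fin B => Fin.castLE hmB (Fin.natAdd m c)),
             Hb := avail H t O F j \ usedE (O.comap (Fin.castLE hm)) M, F := F j } : Ctx X Y) := by
  refine ⟨hB, hn, hκ, ?_, ?_, hF.res j hj, ?_, hB0, h1, h2, h3, h4, h5, h6⟩
  · refine OutOK_comap H t ω O _ ?_ hO
    intro c c' h
    have h' := Fin.castLE_injective hmB h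
    exact Fin.natAdd_injective B m h'
  · exact bulk_ok hB hn H hκ hK O hO F hF j m hj.le hm M hM
  · rw [Finset.disjoint_left]
    intro e he hF'
    simp only [avail, Finset.mem_sdiff, Finset.mem_biUnion, not_exists, not_and] at he
    exact he.1.2 j (Finset.mem_Ico.2 ⟨le_refl _, hj⟩) hF'

end Pool.SCDH
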