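import Pool.Agent.Lib.SCDH.RDefs
import Pool.Agent.Lib.SCDH.G01
import Pool.Agent.Lib.SCDH.T01
import Pool.Agent.Lib.SCDH.O01
import Pool.Agent.Lib.SCDH.V01

/-!
# Row V04 (paper scd_h36.md)
Appending a batch on one side.
Recipe: M2 := Fin.addCases M (N'), i.e. M2 (Fin.castAdd B c) = M c, M2 (Fin.natAdd m c) = Mb c. adj: avail j ⊆ avail (j+1); Hb ∪ F j ⊆ avail (j+1) (F j disjoint from the later reserves, F j ⊆ G minus U). dis between old and new colours: the new edges are in Hb ∪ F j and the old ones are in avail j (so not in F j) and in usedE (so not in Hb). use M2 y = use M y + use Mb y; averages and smoothness add (T01). (j+1 : ℝ) = j + 1.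
-/

set_option linter.unusedSectionVars false
set_option linter.unusedVariables false

namespace Pool.SCDH

open Finset Pool.MP_0ccee8_co.Lib2

attribute [local irreducible] rW

variable {X Y : Type} [Fintype X] [DecidableEq X] [Fintype Y] [DecidableEq Y]
variable {ε : ℝ} {t n d κ ω K : ℕ}

private lemma v04_usedE {C : Type} [Fintype C] (O : Outer X Y C) (M : C → X → Y) {c : C} {x : X}
    (hx : x ∉ O.OX c) : (x, M c x) ∈ usedE O M := by
  unfold usedE
  rw [mem_filter]
  exact ⟨mem_univ _, c, hx, rfl⟩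

private lemma v04_im (O : Outer X Y (Fin K)) (m B : ℕ) (hm : m ≤ K) (hmB : m + B ≤ K) (M : Fin m → X → Y)
    (Mb : Fin B → X → Y) :
    (∀ c : Fin m, imM (O.comap (Fin.castLE hmB)) (Fin.addCases M Mb) (Fin.castAdd B c)
      = imM (O.comap (Fin.castLE hm)) M c) ∧
    ∀ c : Fin B, imM (O.comap (Fin.castLE hmB)) (Fin.addCases M Mb) (Fin.natAdd m c)
      = imM (O.comap (fun c : Fin B => Fin.castLE hmB (Fin.natAdd m c))) Mb c := by
  constructor
  · intro c
    unfold imM
    simp only [Fin.addCases_left]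
    rfl
  · intro c
    unfold imM
    simp only [Fin.addCases_right]
    rfl

private lemma v04_use (O : Outer X Y (Fin K)) (m B : ℕ) (hm : m ≤ K) (hmB : m + B ≤ K) (M : Fin m → X → Y)
    (Mb : Fin B → X → Y) (y : Y) :
    use (O.comap (Fin.castLE hmB)) (Fin.addCases M Mb) y
      = use (O.comap (Fin.castLE hm)) M y
        + use (O.comap (fun c : Fin B => Fin.castLE hmB (Fin.natAdd m c))) Mb y := by
  unfold use
  rw [card_filter, card_filter, card_filter, Fin.sum_univ_add]
  congr 1
  · refine sum_congr rfl (fun c _ => ?_)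
    rw [(v04_im O m B hm hmB M Mb).1 c]
  · refine sum_congr rfl (fun c _ => ?_)
    rw [(v04_im O m B hm hmB M Mb).2 c]

private lemma v04_avail (H : Host X Y n d κ) (O : Outer X Y (Fin K)) (F : ℕ → Finset (X × Y))
    (hF : ResFam H t O F) (j : ℕ) (hj : j < t ^ 20) :
    avail H t O F j ⊆ avail H t O F (j + 1) ∧ F j ⊆ avail H t O F (j + 1) := by
  unfold avail
  constructor
  · refine sdiff_subset_sdiff (Subset.refl _) (biUnion_subset_biUnion_of_subset_left _ ?_)
    exact Ico_subset_Ico_left (Nat.le_succ j)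
  · intro e he
    rw [mem_sdiff]
    refine ⟨hF.sub j hj he, fun hb => ?_⟩
    obtain ⟨i, hi, hei⟩ := mem_biUnion.1 hb
    rw [mem_Ico] at hi
    exact disjoint_left.1 (hF.dis j i hj hi.2 (by omega)) he hei

theorem half_append (H : Host X Y n d κ) (O : Outer X Y (Fin K)) (hO : OutOK H t ω O) (F : ℕ → Finset (X × Y))
    (hF : ResFam H t O F) (j m B : ℕ) (hj : j < t ^ 20) (hm : m ≤ K) (hmB : m + B ≤ K) (M : Fin m → X → Y)
    (hM : Half H t ω O F j m hm M) (Mb : Fin B → X → Y)
    (hMb : Mat ((avail H t O F j \ usedE (O.comap (Fin.castLE hm)) M) ∪ F j)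
      (O.comap (fun c : Fin B => Fin.castLE hmB (Fin.natAdd m c))) Mb)
    (hav : avY (fun y => (use (O.comap (fun c : Fin B => Fin.castLE hmB (Fin.natAdd m c))) Mb y : ℝ))
      = (B : ℝ) * ((Fintype.card X - ω : ℕ) : ℝ) / Fintype.card Y)
    (hdev : ∀ y, |(use (O.comap (fun c : Fin B => Fin.castLE hmB (Fin.natAdd m c))) Mb y : ℝ)
      - avY (fun y => (use (O.comap (fun c : Fin B => Fin.castLE hmB (Fin.natAdd m c))) Mb y : ℝ))|
      ≤ 3 * κ / (t : ℝ) ^ 26)
    (hsm : SmY H.G (11 / (t : ℝ) ^ 26)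
      (fun y => (use (O.comap (fun c : Fin B => Fin.castLE hmB (Fin.natAdd m c))) Mb y : ℝ)
      - avY (fun y => (use (O.comap (fun c : Fin B => Fin.castLE hmB (Fin.natAdd m c))) Mb y : ℝ)))) :
    Half H t ω O F (j + 1) (m + B) hmB (Fin.addCases M Mb) := by
  obtain ⟨hav1, hav2⟩ := v04_avail H O F hF j hj
  have hsub : (avail H t O F j \ usedE (O.comap (Fin.castLE hm)) M) ∪ F j ⊆ avail H t O F (j + 1) :=
    union_subset (sdiff_subset.trans hav1) hav2
  -- old against new
  have hcross : ∀ (c : Fin m) (c' : Fin B) (x : X), x ∉ (O.comap (Fin.castLE hm)).OX c →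
      x ∉ (O.comap (fun c : Fin B => Fin.castLE hmB (Fin.natAdd m c))).OX c' → M c x ≠ Mb c' x := by
    intro c c' x hx hx' he
    have h1 := hM.mat.adj c x hx
    have h2 := hMb.adj c' x hx'
    rw [← he] at h2
    rcases mem_union.1 h2 with h3 | h3
    · exact (mem_sdiff.1 h3).2 (v04_usedE _ _ hx)
    · unfold avail at h1
      exact (mem_sdiff.1 h1).2 (mem_biUnion.2 ⟨j, mem_Ico.2 ⟨le_refl _, hj⟩, h3⟩)
  have huse := fun y => v04_use O m B hm hmB M Mb y
  have huseR : (fun y => (use (O.comap (Fin.castLE hmB)) (Fin.addCases M Mb) y : ℝ))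
      = fun y => (use (O.comap (Fin.castLE hm)) M y : ℝ)
        + (use (O.comap (fun c : Fin B => Fin.castLE hmB (Fin.natAdd m c))) Mb y : ℝ) := by
    funext y
    rw [huse y]
    push_cast
    rfl
  have havg : avY (fun y => (use (O.comap (Fin.castLE hmB)) (Fin.addCases M Mb) y : ℝ))
      = avY (fun y => (use (O.comap (Fin.castLE hm)) M y : ℝ))
        + avY (fun y => (use (O.comap (fun c : Fin B => Fin.castLE hmB (Fin.natAdd m c))) Mb y : ℝ)) := by
    rw [huseR]
    exact avY_add _ _
  refine ⟨⟨?_, ?_, ?_, ?_⟩, ?_, ?_, ?_⟩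
  · intro c
    refine Fin.addCases (fun c => ?_) (fun c => ?_) c
    · intro x hx
      rw [Fin.addCases_left]
      exact hav1 (hM.mat.adj c x hx)
    · intro x hx
      rw [Fin.addCases_right]
      exact hsub (hMb.adj c x hx)
  · intro c
    refine Fin.addCases (fun c => ?_) (fun c => ?_) c
    · intro x hx
      rw [Fin.addCases_left]
      exact hM.mat.out c x hx
    · intro x hx
      rw [Fin.addCases_right]
      exact hMb.out c x hx
  · intro c
    refine Fin.addCases (fun c => ?_) (fun c => ?_) c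
    · intro x x' hx hx'
      rw [Fin.addCases_left]
      exact hM.mat.inj c x x' hx hx'
    · intro x x' hx hx'
      rw [Fin.addCases_right]
      exact hMb.inj c x x' hx hx'
  · intro c
    refine Fin.addCases (fun c => ?_) (fun c => ?_) c
    · intro c'
      refine Fin.addCases (fun c' => ?_) (fun c' => ?_) c'
      · intro hne x hx hx'
        rw [Fin.addCases_left, Fin.addCases_left]
        exact hM.mat.dis c c' (fun h => hne (by rw [h])) x hx hx'
      · intro hne x hx hx'
        rw [Fin.addCases_left, Fin.addCases_right]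
        exact hcross c c' x hx hx'
    · intro c'
      refine Fin.addCases (fun c' => ?_) (fun c' => ?_) c'
      · intro hne x hx hx'
        rw [Fin.addCases_left, Fin.addCases_right]
        exact (hcross c' c x hx' hx).symm
      · intro hne x hx hx'
        rw [Fin.addCases_right, Fin.addCases_right]
        exact hMb.dis c c' (fun h => hne (by rw [h])) x hx hx'
  · rw [havg, hM.av, hav]
    push_cast
    ring
  · intro y
    rw [havg, huse y]
    have h1 := hM.dev y
    have h2 := hdev y
    push_cast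
    rw [abs_le] at h1 h2 ⊢
    constructor <;> linarith [h1.1, h1.2, h2.1, h2.2]
  · have h1 := SmY_add H.G _ _ _ _ hM.sm hsm
    have h2 : (fun y => (use (O.comap (Fin.castLE hmB)) (Fin.addCases M Mb) y : ℝ)
        - avY (fun y => (use (O.comap (Fin.castLE hmB)) (Fin.addCases M Mb) y : ℝ)))
        = fun y => ((use (O.comap (Fin.castLE hm)) M y : ℝ)
          - avY (fun y => (use (O.comap (Fin.castLE hm)) M y : ℝ)))
          + ((use (O.comap (fun c : Fin B => Fin.castLE hmB (Fin.natAdd m c))) Mb y : ℝ)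
          - avY (fun y => (use (O.comap (fun c : Fin B => Fin.castLE hmB (Fin.natAdd m c))) Mb y : ℝ))) := by
      funext y
      rw [havg, huse y]
      push_cast
      ring
    rw [h2]
    have h3 : ((j + 1 : ℕ) : ℝ) * (11 / (t : ℝ) ^ 26) = j * (11 / (t : ℝ) ^ 26) + 11 / (t : ℝ) ^ 26 := by
      push_cast
      ring
    rw [h3]
    exact h1

theorem half_zero (H : Host X Y n d κ) (O : Outer X Y (Fin K)) (F : ℕ → Finset (X × Y)) (j : ℕ)
    (M : Fin 0 → X → Y) : Half H t ω O F j 0 (Nat.zero_le K) M := by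
  have h0 : (fun y => (use (O.comap (Fin.castLE (Nat.zero_le K))) M y : ℝ)) = fun _ => 0 := by
    funext y
    unfold use
    simp
  have h1 : avY (fun y => (use (O.comap (Fin.castLE (Nat.zero_le K))) M y : ℝ)) = 0 := by
    rw [h0]
    unfold avY
    simp
  have h2 : ∀ y, (use (O.comap (Fin.castLE (Nat.zero_le K))) M y : ℝ) = 0 := fun y => congrFun h0 y
  have h3 : ∀ a b : ℝ, 0 ≤ a → 0 ≤ b → 0 ≤ (j : ℝ) * (a / b) := by
    intro a b ha hb
    positivity
  refine ⟨⟨fun c => c.elim0, fun c => c.elim0, fun c => c.elim0, fun c => c.elim0⟩, ?_, ?_, ?_⟩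
  · rw [h1]
    simp
  · intro y
    rw [h1, h2 y, sub_zero, abs_zero]
    exact h3 _ _ (by positivity) (by positivity)
  · intro N
    rw [h1]
    have h4 : ∑ y ∈ N, ((use (O.comap (Fin.castLE (Nat.zero_le K))) M y : ℝ) - 0) = 0 := by
      refine sum_eq_zero (fun y _ => ?_)
      rw [h2 y, sub_zero]
    rw [h4, abs_zero]
    exact mul_nonneg (h3 _ _ (by positivity) (by positivity)) (Nat.cast_nonneg _)

theorem imM_append (O : Outer X Y (Fin K)) (m B : ℕ) (hm : m ≤ K) (hmB : m + B ≤ K) (M : Fin m → X → Y)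
    (Mb : Fin B → X → Y) :
    (∀ c : Fin m, imM (O.comap (Fin.castLE hmB)) (Fin.addCases M Mb) (Fin.castAdd B c)
      = imM (O.comap (Fin.castLE hm)) M c) ∧
    ∀ c : Fin B, imM (O.comap (Fin.castLE hmB)) (Fin.addCases M Mb) (Fin.natAdd m c)
      = imM (O.comap (fun c : Fin B => Fin.castLE hmB (Fin.natAdd m c))) Mb c := by
  exact v04_im O m B hm hmB M Mb

end Pool.SCDH
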