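import Pool.Agent.Lib.SCDH.RDefs
import Pool.Agent.Lib.SCDH.MDefs
import Pool.Agent.Lib.SCDH.G04
import Pool.Agent.Lib.SCDH.B01
import Pool.Agent.Lib.SCDH.R06
import Pool.Agent.Lib.SCDH.V03
import Pool.Agent.Lib.SCDH.V04

/-!
# Row V05 (paper scd_h36.md)
LEVEL THEOREM.
-/

set_option linter.unusedSectionVars false
set_option linter.unusedVariables false

namespace Pool.SCDH

open Finset Pool.MP_0ccee8_co.Lib2

variable {X Y : Type} [Fintype X] [DecidableEq X] [Fintype Y] [DecidableEq Y]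
variable {ε : ℝ} {t n d κ ω K : ℕ}

private theorem v5_castLE (h : K ≤ K) : (Fin.castLE h : Fin K → Fin K) = id := by
  funext c
  rfl

private theorem v5_mono {C : Type} [Fintype C] (Γ Γ' : Finset (X × Y)) (h : Γ ⊆ Γ') (O : Outer X Y C)
    (M : C → X → Y) (hM : Mat Γ O M) : Mat Γ' O M where
  adj := fun c x hx => h (hM.adj c x hx)
  out := hM.out
  inj := hM.inj
  dis := hM.dis

/-- one batch -/
private theorem v5_step (hB : Big ε t) (hn : Rng t n) (H : Host X Y n d κ) (hκ : t ^ 50 ≤ κ)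
    (hK : (K : ℝ) ≤ (1 / 2 - ε) * n) (O O' : Outer X Y (Fin K)) (hO : OutOK H t ω O) (hO' : OutOK H t ω O')
    (ψ : Fin K → Y ≃ Y) (hψ : ∀ c, (O.OY c).image (ψ c) = O'.OY c)
    (F F' : ℕ → Finset (X × Y)) (hF : ResFam H t O F) (hF' : ResFam H t O' F')
    (a z s B0 : ℕ) (h1 : n ≤ 2 * (t ^ 20 * B0)) (h2 : t ^ 20 * B0 ≤ n)
    (h3 : 3 * (κ * B0) ≤ 2 * (d * (s + 1))) (h4 : d * (s + 1) ≤ 2 * (κ * B0))
    (h5 : a + 1 + ω = Fintype.card Y) (h6 : z + 1 = n ^ 20)
    (j : ℕ) (hj : j < t ^ 20) (m : ℕ) (hm : m ≤ K) (B : ℕ) (hB0 : B ≤ B0) (hmB : m + B ≤ K)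
    (M M' : Fin m → X → Y) (hM : Half H t ω O F j m hm M) (hM' : Half H t ω O' F' j m hm M')
    (him : ∀ c : Fin m, imM (O'.comap (Fin.castLE hm)) M' c
      = (imM (O.comap (Fin.castLE hm)) M c).image (ψ (Fin.castLE hm c))) :
    ∃ N N' : Fin (m + B) → X → Y, Half H t ω O F (j + 1) (m + B) hmB N ∧
      Half H t ω O' F' (j + 1) (m + B) hmB N' ∧
      ∀ c : Fin (m + B), imM (O'.comap (Fin.castLE hmB)) N' c
        = (imM (O.comap (Fin.castLE hmB)) N c).image (ψ (Fin.castLE hmB c)) := by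
  have hD := ctx_of_half hB hn H hκ hK O hO F hF j m hj hm M hM a z s B0 B h1 h2 h3 h4 h5 h6 hB0 hmB
  have hD' := ctx_of_half hB hn H hκ hK O' hO' F' hF' j m hj hm M' hM' a z s B0 B h1 h2 h3 h4 h5 h6 hB0 hmB
  obtain ⟨Mb, Mb', q1, q2, q3, ⟨q4, q5, q6⟩, ⟨q7, q8, q9⟩⟩ := batch _ hD
    (O'.comap (fun c : Fin B => Fin.castLE hmB (Fin.natAdd m c)))
    (avail H t O' F' j \ usedE (O'.comap (Fin.castLE hm)) M') (F' j) hD'
    (fun c : Fin B => ψ (Fin.castLE hmB (Fin.natAdd m c)))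
    (fun c => hψ (Fin.castLE hmB (Fin.natAdd m c)))
  refine ⟨Fin.addCases M Mb, Fin.addCases M' Mb', ?_, ?_, ?_⟩
  · exact half_append H O hO F hF j m B hj hm hmB M hM Mb q1 q4 q5 q6
  · exact half_append H O' hO' F' hF' j m B hj hm hmB M' hM' Mb' q2 q7 q8 q9
  · obtain ⟨p1, p2⟩ := imM_append O m B hm hmB M Mb
    obtain ⟨p3, p4⟩ := imM_append O' m B hm hmB M' Mb'
    intro c
    refine Fin.addCases (fun c => ?_) (fun c => ?_) c
    · rw [p1 c, p3 c, him c]
      rfl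
    · rw [p2 c, p4 c]
      exact q3 c

theorem level_thm (hB : Big ε t) (hn : Rng t n) (H : Host X Y n d κ) (hκ : t ^ 50 ≤ κ)
    (hK : (K : ℝ) ≤ (1 / 2 - ε) * n) (O O' : Outer X Y (Fin K)) (hO : OutOK H t ω O) (hO' : OutOK H t ω O')
    (ψ : Fin K → Y ≃ Y) (hψ : ∀ c, (O.OY c).image (ψ c) = O'.OY c) :
    ∃ M M' : Fin K → X → Y, Mat (H.G \ O.U) O M ∧ Mat (H.G \ O'.U) O' M' ∧
      ∀ c, imM O' M' c = (imM O M c).image (ψ c) := by
  rcases Nat.eq_zero_or_pos K with h0 | h0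
  · subst h0
    exact ⟨fun c => c.elim0, fun c => c.elim0,
      ⟨fun c => c.elim0, fun c => c.elim0, fun c => c.elim0, fun c => c.elim0⟩,
      ⟨fun c => c.elim0, fun c => c.elim0, fun c => c.elim0, fun c => c.elim0⟩, fun c => c.elim0⟩
  obtain ⟨F, hF⟩ := reserves hB hn H hκ O hO
  obtain ⟨F', hF'⟩ := reserves hB hn H hκ O' hO'
  obtain ⟨a, z, s, B0, h1, h2, h3, h4, h5, h6⟩ := batch_numbers hB hn H hκ O hO h0
  have key : ∀ j : ℕ, j ≤ t ^ 20 → ∃ (m : ℕ) (hm : m ≤ K), m = min (j * B0) K ∧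
      ∃ M M' : Fin m → X → Y, Half H t ω O F j m hm M ∧ Half H t ω O' F' j m hm M' ∧
        ∀ c : Fin m, imM (O'.comap (Fin.castLE hm)) M' c
          = (imM (O.comap (Fin.castLE hm)) M c).image (ψ (Fin.castLE hm c)) := by
    intro j
    induction j with
    | zero =>
      intro _
      refine ⟨0, Nat.zero_le K, by simp, fun c => c.elim0, fun c => c.elim0, ?_, ?_, fun c => c.elim0⟩
      · exact half_zero H O F 0 _
      · exact half_zero H O' F' 0 _
    | succ j ih =>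
      intro hj
      obtain ⟨m, hm, hmin, M, M', hM, hM', him⟩ := ih (by omega)
      have hmB : m + min B0 (K - m) ≤ K := by
        have := Nat.min_le_right B0 (K - m)
        omega
      obtain ⟨N, N', hN, hN', hNim⟩ := v5_step hB hn H hκ hK O O' hO hO' ψ hψ F F' hF hF' a z s B0
        h1 h2 h3 h4 h5 h6 j (by omega) m hm (min B0 (K - m)) (Nat.min_le_left _ _) hmB M M' hM hM' him
      refine ⟨m + min B0 (K - m), hmB, ?_, N, N', hN, hN', hNim⟩
      have e : (j + 1) * B0 = j * B0 + B0 := by ring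
      rw [e]
      generalize j * B0 = q at hmin
      rcases le_total q K with hq | hq
      · rw [min_eq_left hq] at hmin
        subst hmin
        rcases le_total B0 (K - m) with hb | hb
        · rw [min_eq_left hb, min_eq_left (by omega)]
        · rw [min_eq_right hb, min_eq_right (by omega)]
          omega
      · rw [min_eq_right hq] at hmin
        subst hmin
        rw [min_eq_right (by omega : m ≤ q + B0)]
        simp
  obtain ⟨m, hm, hmin, M, M', hM, hM', him⟩ := key (t ^ 20) le_rfl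
  have hKn : K ≤ t ^ 20 * B0 := by
    have e1 : (n : ℝ) ≤ 2 * ((t ^ 20 * B0 : ℕ) : ℝ) := by exact_mod_cast h1
    have e2 : (K : ℝ) ≤ ((t ^ 20 * B0 : ℕ) : ℝ) := by
      have hε := hB.e0
      have hn0 : (0 : ℝ) ≤ n := Nat.cast_nonneg n
      have : (1 / 2 - ε) * n ≤ 1 / 2 * n := mul_le_mul_of_nonneg_right (by linarith) hn0
      linarith
    exact_mod_cast e2
  rw [min_eq_right hKn] at hmin
  subst hmin
  have hc := v5_castLE (K := m) hm
  have hOc : O.comap (Fin.castLE hm) = O := by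
    rw [hc]
    rfl
  have hOc' : O'.comap (Fin.castLE hm) = O' := by
    rw [hc]
    rfl
  refine ⟨M, M', ?_, ?_, ?_⟩
  · have h := hM.mat
    rw [hOc] at h
    exact v5_mono _ _ Finset.sdiff_subset O M h
  · have h := hM'.mat
    rw [hOc'] at h
    exact v5_mono _ _ Finset.sdiff_subset O' M' h
  · intro c
    have h := him c
    rw [hOc, hOc', hc] at h
    exact h

end Pool.SCDH
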